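import Mathlib

/-!
Linear algebra lemmas: right factors for rank-preserving products, choice of a nonvanishing
minor, and Cramer's rule modulo a prime ideal.
-/

namespace Pool.Agent.H530R2

open Matrix Module

section field

variable {K : Type*} [Field K]

theorem exists_right_factor {m n : Type*} [Fintype m] [Fintype n] [DecidableEq n]
    (B : Matrix m n K) (C : Matrix n n K) (h : (B * C).rank = B.rank) :
    ∃ G : Matrix n n K, B * C * G = B := by
  have hle : LinearMap.range (B * C).mulVecLin ≤ LinearMap.range B.mulVecLin := by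
    rintro _ ⟨v, rfl⟩
    exact ⟨C *ᵥ v, by simp [Matrix.mulVec_mulVec]⟩
  have heq : LinearMap.range (B * C).mulVecLin = LinearMap.range B.mulVecLin :=
    Submodule.eq_of_le_of_finrank_eq hle h
  have hcol : ∀ j : n, ∃ v : n → K, (B * C) *ᵥ v = B *ᵥ (Pi.single j 1) := by
    intro j
    have : B *ᵥ (Pi.single j 1) ∈ LinearMap.range (B * C).mulVecLin := by
      rw [heq]
      exact ⟨_, rfl⟩
    obtain ⟨v, hv⟩ := this
    exact ⟨v, hv⟩
  choose v hv using hcol
  refine ⟨Matrix.of fun i j => v j i, ?_⟩
  ext i j
  have := congrFun (hv j) i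
  simp only [Matrix.mulVec_single_one, Matrix.col_apply] at this
  rw [← this]
  simp [Matrix.mul_apply, Matrix.mulVec, dotProduct]

/-- Rows that are linearly independent admit a nonvanishing maximal minor. -/
theorem exists_minor_ne_zero {ι : Type*} [Fintype ι] {ω : ℕ} (z : Fin ω → ι → K)
    (hz : LinearIndependent K z) :
    ∃ g : Fin ω → ι, (Matrix.of fun i l => z i (g l)).det ≠ 0 := by
  classical
  let Z : Matrix (Fin ω) ι K := Matrix.of z
  have hrank : Z.rank = ω := by
    have := LinearIndependent.rank_matrix (M := Z) hz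
    simpa using this
  have hspan := Submodule.exists_fun_fin_finrank_span_eq K (Set.range Z.col)
  have hfr : finrank K (Submodule.span K (Set.range Z.col)) = ω := by
    rw [← Matrix.rank_eq_finrank_span_cols, hrank]
  obtain ⟨f, hf, -, hli⟩ := hspan
  have hf' : ∀ i, ∃ j, Z.col j = f i := fun i => hf i
  choose j hj using hf'
  refine ⟨fun l => j (Fin.cast hfr.symm l), ?_⟩
  have hli2 : LinearIndependent K (fun l : Fin ω => f (Fin.cast hfr.symm l)) :=
    hli.comp _ (Fin.cast_injective _)
  have hM : (fun l : Fin ω => f (Fin.cast hfr.symm l)) =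
      (Matrix.of fun i l => z i (j (Fin.cast hfr.symm l)))ᵀ.row := by
    funext l
    rw [← hj]
    rfl
  rw [hM, Matrix.linearIndependent_rows_iff_isUnit, Matrix.isUnit_transpose,
    Matrix.isUnit_iff_isUnit_det] at hli2
  exact hli2.ne_zero

end field

section prime

variable {A : Type*} [CommRing A]

/-- Cramer's rule modulo a prime ideal. -/
theorem cramer_prime (K : Type*) [Field K] [Algebra A K] [IsFractionRing A K]
    (J : Ideal A) [hJ : J.IsPrime] {ι : Type*} [Fintype ι] {ω : ℕ}
    (z : Fin ω → ι → A) (z' : ι → A) (g : Fin ω → ι)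
    (hδ : (Matrix.of fun i l => z i (g l)).det ∉ J)
    (hz' : (fun t => algebraMap A K (z' t)) ∈
      Submodule.span K (Set.range fun i => (fun t => algebraMap A K (z i t))))
    (q : ι → A) (hq : ∀ i, z i ⬝ᵥ q ∈ J) : z' ⬝ᵥ q ∈ J := by
  classical
  obtain ⟨c, hc⟩ := (Submodule.mem_span_range_iff_exists_fun K).1 hz'
  set Z : Matrix (Fin ω) (Fin ω) A := Matrix.of fun i l => z i (g l) with hZ
  set φ := algebraMap A K with hφ
  have hinj : Function.Injective φ := IsFractionRing.injective A K
  set a : Fin ω → A := (fun l => z' (g l)) ᵥ* Z.adjugate with ha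
  have hcZ : c ᵥ* (Z.map φ) = fun l => φ (z' (g l)) := by
    funext l
    have := congrFun hc (g l)
    simp only [Finset.sum_apply, Pi.smul_apply, smul_eq_mul] at this
    rw [← this]
    simp [Matrix.vecMul, dotProduct, hZ]
  have ha' : ∀ i, φ (a i) = φ Z.det * c i := by
    intro i
    have h1 : (fun l => φ (z' (g l))) ᵥ* (Z.map φ).adjugate = (Z.map φ).det • c := by
      rw [← hcZ, Matrix.vecMul_vecMul, Matrix.mul_adjugate, Matrix.vecMul_smul,
        Matrix.vecMul_one]
    have h2 : (Z.map φ).det = φ Z.det := by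
      rw [← RingHom.mapMatrix_apply, ← RingHom.map_det]
    have h3 : (Z.map φ).adjugate = Z.adjugate.map φ := by
      have := RingHom.map_adjugate φ Z
      simpa [RingHom.mapMatrix_apply] using this.symm
    have h4 := congrFun h1 i
    rw [h2, h3] at h4
    simp only [Pi.smul_apply, smul_eq_mul] at h4
    rw [← h4, ha]
    simp [Matrix.vecMul, dotProduct, map_sum]
  have hkey : ∀ t, Z.det * z' t = ∑ i, a i * z i t := by
    intro t
    apply hinj
    rw [map_mul, map_sum]
    have := congrFun hc t
    simp only [Finset.sum_apply, Pi.smul_apply, smul_eq_mul] at this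
    rw [← this, Finset.mul_sum]
    apply Finset.sum_congr rfl
    intro i _
    rw [map_mul, ha' i]
    ring
  have hfin : Z.det * (z' ⬝ᵥ q) ∈ J := by
    have : Z.det * (z' ⬝ᵥ q) = ∑ i, a i * (z i ⬝ᵥ q) := by
      simp only [dotProduct, Finset.mul_sum]
      rw [Finset.sum_comm]
      apply Finset.sum_congr rfl
      intro t _
      rw [← mul_assoc, hkey t, Finset.sum_mul]
      apply Finset.sum_congr rfl
      intro i _
      ring
    rw [this]
    exact Ideal.sum_mem _ fun i _ => J.mul_mem_left _ (hq i)
  rcases hJ.mem_or_mem hfin with h | h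
  · exact absurd h hδ
  · exact h

end prime

end Pool.Agent.H530R2
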