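import Mathlib

/-!
Tensor (Kronecker) powers of matrices, indexed by a finite type `T`.
-/

namespace Pool.Agent.H530R2

open Matrix

variable {R : Type*} [CommRing R]

/-- The `T`-th tensor power of a matrix. -/
def tp (T : Type) [Fintype T] {m n : Type*} (M : Matrix m n R) : Matrix (T → m) (T → n) R :=
  fun f g => ∏ s, M (f s) (g s)

theorem tp_apply (T : Type) [Fintype T] {m n : Type*} (M : Matrix m n R) (f : T → m) (g : T → n) :
    tp T M f g = ∏ s, M (f s) (g s) := rfl

theorem tp_mul (T : Type) [Fintype T] [DecidableEq T] {l m n : Type*} [Fintype m]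
    (M : Matrix l m R) (N : Matrix m n R) : tp T (M * N) = tp T M * tp T N := by
  ext f g
  simp only [tp_apply, Matrix.mul_apply]
  rw [Finset.prod_univ_sum]
  rw [Fintype.piFinset_univ]
  apply Finset.sum_congr rfl
  intro h _
  rw [← Finset.prod_mul_distrib]

theorem tp_one (T : Type) [Fintype T] [DecidableEq T] {m : Type*} [DecidableEq m] :
    tp T (1 : Matrix m m R) = 1 := by
  ext f g
  rw [tp_apply]
  by_cases h : f = g
  · subst h
    simp
  · rw [Matrix.one_apply_ne h]
    obtain ⟨s, hs⟩ := Function.ne_iff.mp h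
    exact Finset.prod_eq_zero (Finset.mem_univ s) (Matrix.one_apply_ne hs)

theorem tp_map (T : Type) [Fintype T] {m n : Type*} {R' : Type*} [CommRing R'] (φ : R →+* R')
    (M : Matrix m n R) : (tp T M).map φ = tp T (M.map φ) := by
  ext f g
  simp [tp_apply, map_prod]

end Pool.Agent.H530R2
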