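import Mathlib
import Pool.Agent.H530R2.Tensor
import Pool.Agent.H530R2.LinAlg

/-!
Products of matrices in separate variables modulo a chain of prime ideals.
-/

namespace Pool.Agent.H530R2

open Matrix Module Polynomial

/-- A decreasing chain of prime ideals of `A` in which one variable `x k` can be freed at the
cost of one step of the chain. `S k` plays the role of the polynomials in the variables
with positions at least `k`. -/
structure PrimeChain (F A : Type*) [Field F] [CommRing A] [Algebra F A] (len : ℕ)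
    (x : ℕ → A) where
  S : ℕ → Subalgebra F A
  S_anti : ∀ k, S (k + 1) ≤ S k
  x_mem : ∀ k, x k ∈ S k
  I : ℕ → Ideal A
  prime : ∀ j, (I j).IsPrime
  anti : ∀ j, I (j + 1) ≤ I j
  free : ∀ j k, k < len → ∀ Q : A[X], (∀ e, Q.coeff e ∈ S (k + 1)) →
    Q.eval (x k) ∈ I (j + 1) → ∀ e, Q.coeff e ∈ I j

section defs

variable {F A : Type*} [Field F] [CommRing A] [Algebra F A] {w : ℕ}

/-- the matrix `N k` evaluated at the variable `x k` -/
noncomputable def Nh (x : ℕ → A) (N : ℕ → Matrix (Fin w) (Fin w) F[X]) (k : ℕ) :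
    Matrix (Fin w) (Fin w) A := (N k).map (aeval (x k))

/-- the product of `n` consecutive matrices starting at position `a` -/
noncomputable def Pr (x : ℕ → A) (N : ℕ → Matrix (Fin w) (Fin w) F[X]) (a : ℕ) :
    ℕ → Matrix (Fin w) (Fin w) A
  | 0 => 1
  | n + 1 => Pr x N a n * Nh x N (a + n)

/-- coefficient matrices of tensor powers -/
noncomputable def coefM (T : Type) [Fintype T] (N : ℕ → Matrix (Fin w) (Fin w) F[X]) (k e : ℕ) :
    Matrix (T → Fin w) (T → Fin w) F := (tp T (N k)).map (fun p => p.coeff e)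

/-- one step of the constant coefficient space -/
noncomputable def step (T : Type) [Fintype T] [DecidableEq T] (N : ℕ → Matrix (Fin w) (Fin w) F[X]) (k : ℕ)
    (R : Submodule F ((T → Fin w) → F)) : Submodule F ((T → Fin w) → F) :=
  Submodule.span F {r' | ∃ r ∈ R, ∃ e, r' = r ᵥ* coefM T N k e}

/-- iterated constant coefficient space -/
noncomputable def CSn (T : Type) [Fintype T] [DecidableEq T] (N : ℕ → Matrix (Fin w) (Fin w) F[X]) (a : ℕ) :
    ℕ → Submodule F ((T → Fin w) → F) → Submodule F ((T → Fin w) → F)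
  | 0, R => R
  | n + 1, R => step T N (a + n) (CSn T N a n R)

/-- constant vectors as vectors over `A` -/
def emb {ι : Type*} (B : Type*) [CommRing B] [Algebra F B] (r : ι → F) : ι → B :=
  fun i => algebraMap F B (r i)

/-- all vectors of `R` pair with `v` into `J` -/
def Kills {ι : Type*} [Fintype ι] (R : Submodule F (ι → F)) (v : ι → A) (J : Ideal A) : Prop :=
  ∀ r ∈ R, emb A r ⬝ᵥ v ∈ J

end defs

section basic

variable {F A : Type*} [Field F] [CommRing A] [Algebra F A] {w : ℕ}
variable (x : ℕ → A) (N : ℕ → Matrix (Fin w) (Fin w) F[X])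

theorem Pr_zero (a : ℕ) : Pr x N a 0 = 1 := rfl

theorem Pr_succ (a n : ℕ) : Pr x N a (n + 1) = Pr x N a n * Nh x N (a + n) := rfl

theorem Pr_add (a n m : ℕ) : Pr x N a (n + m) = Pr x N a n * Pr x N (a + n) m := by
  induction m with
  | zero => simp [Pr_zero]
  | succ m ih => rw [← add_assoc, Pr_succ, ih, Pr_succ, Matrix.mul_assoc, add_assoc]

theorem Pr_one (a : ℕ) : Pr x N a 1 = Nh x N a := by
  rw [Pr_succ, Pr_zero, Matrix.one_mul, add_zero]

theorem Pr_succ' (a n : ℕ) : Pr x N a (n + 1) = Nh x N a * Pr x N (a + 1) n := by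
  rw [add_comm n 1, Pr_add, Pr_one]

theorem CSn_succ' (T : Type) [Fintype T] [DecidableEq T] (a n : ℕ)
    (R : Submodule F ((T → Fin w) → F)) :
    CSn T N a (n + 1) R = CSn T N (a + 1) n (step T N a R) := by
  induction n generalizing a with
  | zero => rfl
  | succ n ih =>
    have h1 : CSn T N a (n + 1 + 1) R = step T N (a + (n + 1)) (CSn T N a (n + 1) R) := rfl
    rw [h1, ih]
    have h2 : CSn T N (a + 1) (n + 1) (step T N a R) =
      step T N (a + 1 + n) (CSn T N (a + 1) n (step T N a R)) := rfl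
    rw [h2]
    congr 1
    omega

/-- degree bound for the entries of the tensor power -/
noncomputable def dB (T : Type) [Fintype T] [DecidableEq T] (k : ℕ) : ℕ :=
  (Finset.univ.sup fun f : T → Fin w => Finset.univ.sup fun g : T → Fin w =>
    (tp T (N k) f g).natDegree) + 1

theorem lt_dB (T : Type) [Fintype T] [DecidableEq T] (k : ℕ) (f g : T → Fin w) :
    (tp T (N k) f g).natDegree < dB N T k := by
  unfold dB
  refine Nat.lt_succ_of_le ?_
  refine le_trans ?_ (Finset.le_sup (f := fun f : T → Fin w => Finset.univ.sup fun g : T → Fin w =>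
    (tp T (N k) f g).natDegree) (Finset.mem_univ f))
  exact Finset.le_sup (f := fun g : T → Fin w => (tp T (N k) f g).natDegree) (Finset.mem_univ g)

theorem coefM_eq_zero (T : Type) [Fintype T] [DecidableEq T] (k e : ℕ) (he : dB N T k ≤ e) :
    coefM T N k e = 0 := by
  ext f g
  simp only [coefM, Matrix.map_apply, Matrix.zero_apply]
  exact Polynomial.coeff_eq_zero_of_natDegree_lt (lt_of_lt_of_le (lt_dB N T k f g) he)

theorem tp_Nh_apply (T : Type) [Fintype T] [DecidableEq T] (k : ℕ) (f g : T → Fin w) :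
    tp T (Nh x N k) f g =
      ∑ e ∈ Finset.range (dB N T k), algebraMap F A (coefM T N k e f g) * (x k) ^ e := by
  have h1 : tp T (Nh x N k) f g = aeval (x k) (tp T (N k) f g) := by
    have := tp_map T (aeval (x k) : F[X] →ₐ[F] A).toRingHom (N k)
    have h2 := congrFun (congrFun this f) g
    simp only [Matrix.map_apply] at h2
    exact h2.symm
  rw [h1, Polynomial.aeval_eq_sum_range' (lt_dB N T k f g)]
  apply Finset.sum_congr rfl
  intro e _
  rw [Algebra.smul_def]
  rfl

theorem emb_vecMul_tp_Nh (T : Type) [Fintype T] [DecidableEq T] (k : ℕ)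
    (r : (T → Fin w) → F) (q : (T → Fin w) → A) :
    emb A r ⬝ᵥ (tp T (Nh x N k) *ᵥ q) =
      ∑ e ∈ Finset.range (dB N T k), (emb A (r ᵥ* coefM T N k e) ⬝ᵥ q) * (x k) ^ e := by
  simp only [dotProduct, Matrix.mulVec, Matrix.vecMul, emb, tp_Nh_apply, Finset.mul_sum,
    Finset.sum_mul, map_sum, map_mul]
  rw [Finset.sum_comm]
  rw [Finset.sum_congr rfl (fun _ _ => Finset.sum_comm)]
  rw [Finset.sum_comm]
  apply Finset.sum_congr rfl
  intro e _
  apply Finset.sum_congr rfl
  intro g _
  apply Finset.sum_congr rfl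
  intro f _
  ring

theorem Kills_mono {ι : Type*} [Fintype ι] {R : Submodule F (ι → F)} {v : ι → A}
    {J J' : Ideal A} (h : J ≤ J') (hk : Kills R v J) : Kills R v J' :=
  fun r hr => h (hk r hr)

theorem Kills_anti {ι : Type*} [Fintype ι] {R R' : Submodule F (ι → F)} {v : ι → A}
    {J : Ideal A} (h : R' ≤ R) (hk : Kills R v J) : Kills R' v J :=
  fun r hr => hk r (h hr)

theorem Kills_span {ι : Type*} [Fintype ι] {s : Set (ι → F)} {v : ι → A}
    {J : Ideal A} (h : ∀ r ∈ s, emb A r ⬝ᵥ v ∈ J) : Kills (Submodule.span F s) v J := by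
  intro r hr
  induction hr using Submodule.span_induction with
  | mem r hr => exact h r hr
  | zero =>
    have : emb A (0 : ι → F) ⬝ᵥ v = 0 := by simp [emb, dotProduct]
    rw [this]; exact J.zero_mem
  | add r s _ _ hr hs =>
    have : emb A (r + s) ⬝ᵥ v = emb A r ⬝ᵥ v + emb A s ⬝ᵥ v := by
      simp [emb, dotProduct, add_mul, Finset.sum_add_distrib]
    rw [this]; exact J.add_mem hr hs
  | smul c r _ hr =>
    have : emb A (c • r) ⬝ᵥ v = algebraMap F A c * (emb A r ⬝ᵥ v) := by
      simp [emb, dotProduct, Finset.mul_sum, mul_assoc]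
    rw [this]; exact J.mul_mem_left _ hr

/-- (F2) -/
theorem Kills_of_step (T : Type) [Fintype T] [DecidableEq T] (k : ℕ)
    {R : Submodule F ((T → Fin w) → F)} {q : (T → Fin w) → A} {J : Ideal A}
    (h : Kills (step T N k R) q J) : Kills R (tp T (Nh x N k) *ᵥ q) J := by
  intro r hr
  rw [emb_vecMul_tp_Nh]
  refine Ideal.sum_mem _ fun e _ => J.mul_mem_right _ ?_
  exact h _ (Submodule.subset_span ⟨r, hr, e, rfl⟩)

theorem Kills_of_CSn (T : Type) [Fintype T] [DecidableEq T] (a n : ℕ)
    {R : Submodule F ((T → Fin w) → F)} {q : (T → Fin w) → A} {J : Ideal A}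
    (h : Kills (CSn T N a n R) q J) : Kills R (tp T (Pr x N a n) *ᵥ q) J := by
  induction n generalizing q with
  | zero =>
    rw [Pr_zero, tp_one, Matrix.one_mulVec]
    exact h
  | succ n ih =>
    rw [Pr_succ, tp_mul, ← Matrix.mulVec_mulVec]
    exact ih (Kills_of_step x N T (a + n) h)

end basic

section free

variable {F A : Type*} [Field F] [CommRing A] [Algebra F A] {w : ℕ} {len : ℕ}
variable {x : ℕ → A} (N : ℕ → Matrix (Fin w) (Fin w) F[X]) (P : PrimeChain F A len x)

include P

theorem dot_mem_S {ι : Type*} [Fintype ι] (k : ℕ) (r : ι → F) (q : ι → A)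
    (hq : ∀ i, q i ∈ P.S k) : emb A r ⬝ᵥ q ∈ P.S k := by
  unfold dotProduct emb
  exact Subalgebra.sum_mem _ fun i _ => Subalgebra.mul_mem _ (Subalgebra.algebraMap_mem _ _) (hq i)

theorem S_antitone {k k' : ℕ} (h : k ≤ k') : P.S k' ≤ P.S k := by
  induction k', h using Nat.le_induction with
  | base => exact le_rfl
  | succ n _ ih => exact (P.S_anti n).trans ih

theorem I_antitone {j j' : ℕ} (h : j ≤ j') : P.I j' ≤ P.I j := by
  induction j', h using Nat.le_induction with
  | base => exact le_rfl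
  | succ n _ ih => exact (P.anti n).trans ih

/-- (F1) -/
theorem Kills_step_free (T : Type) [Fintype T] [DecidableEq T] (j k : ℕ) (hk : k < len)
    {R : Submodule F ((T → Fin w) → F)} {q : (T → Fin w) → A} (hq : ∀ i, q i ∈ P.S (k + 1))
    (h : Kills R (tp T (Nh x N k) *ᵥ q) (P.I (j + 1))) : Kills (step T N k R) q (P.I j) := by
  apply Kills_span
  rintro _ ⟨r, hr, e, rfl⟩
  have h1 := h r hr
  rw [emb_vecMul_tp_Nh] at h1
  set Q : A[X] := ∑ e ∈ Finset.range (dB N T k),
    Polynomial.monomial e (emb A (r ᵥ* coefM T N k e) ⬝ᵥ q) with hQ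
  have hcoef : ∀ e, Q.coeff e = if e < dB N T k then (emb A (r ᵥ* coefM T N k e) ⬝ᵥ q) else 0 := by
    intro e
    rw [hQ, Polynomial.finsetSum_coeff]
    simp only [Polynomial.coeff_monomial]
    by_cases he : e < dB N T k
    · rw [Finset.sum_eq_single e]
      · simp [he]
      · intro b _ hb
        rw [if_neg hb]
      · intro hb
        exact absurd (Finset.mem_range.2 he) hb
    · rw [if_neg he]
      apply Finset.sum_eq_zero
      intro b hb
      rw [if_neg]
      rintro rfl
      exact he (Finset.mem_range.1 hb)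
  have heval : Q.eval (x k) = ∑ e ∈ Finset.range (dB N T k),
      (emb A (r ᵥ* coefM T N k e) ⬝ᵥ q) * (x k) ^ e := by
    rw [hQ, Polynomial.eval_finsetSum]
    simp
  rw [← heval] at h1
  have hmem : ∀ e, Q.coeff e ∈ P.S (k + 1) := by
    intro e
    rw [hcoef]
    split_ifs
    · exact dot_mem_S P (k + 1) _ _ hq
    · exact Subalgebra.zero_mem _
  have h2 := P.free j k hk Q hmem h1 e
  rw [hcoef] at h2
  by_cases he : e < dB N T k
  · rw [if_pos he] at h2
    exact h2
  · have : coefM T N k e = 0 := coefM_eq_zero N T k e (not_lt.1 he)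
    rw [this]
    simp [emb, dotProduct]

theorem Nh_mem (k : ℕ) (f g : Fin w) : Nh x N k f g ∈ P.S k := by
  unfold Nh
  rw [Matrix.map_apply]
  exact (Algebra.adjoin_le (S := P.S k) (by simpa using P.x_mem k))
    (Polynomial.aeval_mem_adjoin_singleton F (x k))

theorem tp_mem (T : Type) [Fintype T] {k : ℕ} {M : Matrix (Fin w) (Fin w) A}
    (hM : ∀ f g, M f g ∈ P.S k) (f g : T → Fin w) : tp T M f g ∈ P.S k := by
  rw [tp_apply]
  exact Subalgebra.prod_mem _ fun s _ => hM _ _

theorem mulVec_mem {ι : Type*} [Fintype ι] {k : ℕ} {M : Matrix ι ι A}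
    (hM : ∀ f g, M f g ∈ P.S k) {q : ι → A} (hq : ∀ i, q i ∈ P.S k) (i : ι) :
    (M *ᵥ q) i ∈ P.S k := by
  unfold Matrix.mulVec dotProduct
  exact Subalgebra.sum_mem _ fun j _ => Subalgebra.mul_mem _ (hM _ _) (hq j)

theorem Pr_mem (a n : ℕ) (f g : Fin w) : Pr x N a n f g ∈ P.S a := by
  induction n generalizing f g with
  | zero =>
    rw [Pr_zero, Matrix.one_apply]
    split_ifs
    · exact Subalgebra.one_mem _
    · exact Subalgebra.zero_mem _
  | succ n ih =>
    rw [Pr_succ, Matrix.mul_apply]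
    exact Subalgebra.sum_mem _ fun j _ => Subalgebra.mul_mem _ (ih _ _)
      (S_antitone P (Nat.le_add_right a n) (Nh_mem N P (a + n) _ _))

theorem const_mem_I {c : F} {j : ℕ} (h : algebraMap F A c ∈ P.I j) : c = 0 := by
  by_contra hc
  apply (P.prime j).ne_top
  rw [Ideal.eq_top_iff_one]
  have : (1 : A) = algebraMap F A c⁻¹ * algebraMap F A c := by
    rw [← map_mul, inv_mul_cancel₀ hc, map_one]
  rw [this]
  exact Ideal.mul_mem_left _ _ h

end free

end Pool.Agent.H530R2
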