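import Mathlib
import Pool.Agent.H530R2.Chain

/-!
Minors of tensor powers of matrix products do not enter the primes.
-/

namespace Pool.Agent.H530R2

open Matrix Module Polynomial

section

variable {F A : Type*} [Field F] [CommRing A] [IsDomain A] [Algebra F A] {w : ℕ} {len : ℕ}
variable {x : ℕ → A} (N : ℕ → Matrix (Fin w) (Fin w) F[X]) (P : PrimeChain F A len x)

/-- the generic rank of the product of `n` consecutive matrices -/
noncomputable def rk (x : ℕ → A) (N : ℕ → Matrix (Fin w) (Fin w) F[X]) (a n : ℕ) : ℕ :=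
  ((Pr x N a n).map (algebraMap A (FractionRing A))).rank

/-- Decoupling property for all intervals of generic rank at least `r`. -/
def Dec (r : ℕ) (T : Type) [Fintype T] [DecidableEq T] (c : ℕ) : Prop :=
  ∀ a n, a + n ≤ len → (n = 0 ∨ r ≤ rk x N a n) → ∀ (R : Submodule F ((T → Fin w) → F)) (j : ℕ)
    (p : (T → Fin w) → A), (∀ i, p i ∈ P.S (a + n)) →
    Kills R (tp T (Pr x N a n) *ᵥ p) (P.I (j + c)) → Kills (CSn T N a n R) p (P.I j)

omit [IsDomain A] in
theorem Dec_mono {r : ℕ} {T : Type} [Fintype T] [DecidableEq T] {c c' : ℕ} (h : c ≤ c')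
    (hd : Dec N P r T c) : Dec N P r T c' := by
  intro a n hn hr R j p hp hk
  exact hd a n hn hr R j p hp (Kills_mono (I_antitone P (by omega)) hk)

/-- The tensor that turns a maximal minor into a single entry. -/
def tau {T : Type} [Fintype T] {ω : ℕ} (rr : Fin ω → ((T → Fin w) → F)) :
    (Fin ω × T → Fin w) → F :=
  fun Φ => ∑ σ : Equiv.Perm (Fin ω), ((Equiv.Perm.sign σ : ℤ) : F) *
    ∏ i, rr (σ i) (fun s => Φ (i, s))

omit [IsDomain A] in
theorem det_eq_tau {T : Type} [Fintype T] [DecidableEq T] {ω : ℕ}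
    (rr : Fin ω → ((T → Fin w) → F)) (g : Fin ω → (T → Fin w)) (M : Matrix (Fin w) (Fin w) A) :
    (Matrix.of fun i l => (emb A (rr i) ᵥ* tp T M) (g l)).det =
      emb A (tau rr) ⬝ᵥ (tp (Fin ω × T) M *ᵥ
        emb A (Pi.single (fun y : Fin ω × T => g y.1 y.2) (1 : F))) := by
  classical
  have hR : tp (Fin ω × T) M *ᵥ
        emb A (Pi.single (fun y : Fin ω × T => g y.1 y.2) (1 : F)) =
      fun Φ => tp (Fin ω × T) M Φ (fun y : Fin ω × T => g y.1 y.2) := by
    funext Φ
    simp only [Matrix.mulVec, dotProduct, emb]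
    rw [Finset.sum_eq_single (fun y : Fin ω × T => g y.1 y.2)]
    · simp
    · intro b _ hb
      rw [Pi.single_eq_of_ne hb]
      simp
    · intro h
      exact absurd (Finset.mem_univ _) h
  rw [hR, Matrix.det_apply']
  simp only [dotProduct, emb, tau, Matrix.of_apply, Matrix.vecMul, map_sum, map_mul, map_prod,
    Finset.sum_mul]
  rw [Finset.sum_comm]
  apply Finset.sum_congr rfl
  intro σ _
  rw [Finset.prod_univ_sum, Fintype.piFinset_univ, Finset.mul_sum]
  rw [← Equiv.sum_comp (Equiv.curry (Fin ω) T (Fin w))]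
  apply Finset.sum_congr rfl
  intro Φ _
  simp only [Equiv.curry_apply, Function.curry, tp_apply, Finset.prod_mul_distrib]
  rw [Fintype.prod_prod_type]
  have hc : ∀ y, Function.curry Φ y = fun s => Φ (y, s) := fun _ => rfl
  simp only [map_intCast, hc]
  ring

omit [IsDomain A] in
theorem minor_zero {r : ℕ} (T : Type) [Fintype T] [DecidableEq T] {ω c' : ℕ}
    (hdec : Dec N P (r + 1) (Fin ω × T) c') (a n' : ℕ) (h : a + (n' + 2) ≤ len)
    (hr : n' = 0 ∨ r + 1 ≤ rk x N (a + 1) n') (rr : Fin ω → ((T → Fin w) → F))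
    (g : Fin ω → (T → Fin w))
    (hmem : (Matrix.of fun i l => (emb A (rr i) ᵥ* tp T (Pr x N a (n' + 2))) (g l)).det
      ∈ P.I (c' + 2)) :
    (Matrix.of fun i l => (emb A (rr i) ᵥ* tp T (Pr x N a (n' + 2))) (g l)).det = 0 := by
  classical
  rw [det_eq_tau] at hmem ⊢
  set η : (Fin ω × T → Fin w) → A :=
    emb A (Pi.single (fun y : Fin ω × T => g y.1 y.2) (1 : F)) with hη
  have hηmem : ∀ k i, η i ∈ P.S k := by
    intro k i
    rw [hη]
    exact Subalgebra.algebraMap_mem _ _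
  have hPr : Pr x N a (n' + 2) = Nh x N a * (Pr x N (a + 1) n' * Nh x N (a + 1 + n')) := by
    rw [Pr_succ', Pr_succ]
  rw [hPr, tp_mul, tp_mul, ← Matrix.mulVec_mulVec, ← Matrix.mulVec_mulVec] at hmem ⊢
  set R0 : Submodule F ((Fin ω × T → Fin w) → F) := Submodule.span F {tau rr} with hR0
  have k0 : Kills R0 (tp (Fin ω × T) (Nh x N a) *ᵥ (tp (Fin ω × T) (Pr x N (a + 1) n') *ᵥ
      (tp (Fin ω × T) (Nh x N (a + 1 + n')) *ᵥ η))) (P.I (c' + 1 + 1)) := by
    apply Kills_span
    intro r0 hr0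
    rw [Set.mem_singleton_iff] at hr0
    subst hr0
    exact hmem
  have m1 : ∀ i, (tp (Fin ω × T) (Nh x N (a + 1 + n')) *ᵥ η) i ∈ P.S (a + 1 + n') :=
    mulVec_mem P (tp_mem P _ (Nh_mem N P _)) (hηmem _)
  have m2 : ∀ i, (tp (Fin ω × T) (Pr x N (a + 1) n') *ᵥ
      (tp (Fin ω × T) (Nh x N (a + 1 + n')) *ᵥ η)) i ∈ P.S (a + 1) :=
    mulVec_mem P (tp_mem P _ (Pr_mem N P _ _))
      (fun i => S_antitone P (Nat.le_add_right _ _) (m1 i))
  have k1 := Kills_step_free N P (Fin ω × T) (c' + 1) a (by omega) m2 k0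
  have k2 := hdec (a + 1) n' (by omega) hr _ 1 _ m1
    (by rw [add_comm 1 c']; exact k1)
  have k3 := Kills_step_free N P (Fin ω × T) 0 (a + 1 + n') (by omega) (hηmem _) k2
  have k4 : Kills (step (Fin ω × T) N (a + 1 + n')
      (CSn (Fin ω × T) N (a + 1) n' (step (Fin ω × T) N a R0))) η (⊥ : Ideal A) := by
    intro r1 hr1
    have h1 := k3 r1 hr1
    have h2 : emb A r1 ⬝ᵥ η = algebraMap F A (r1 (fun y : Fin ω × T => g y.1 y.2)) := by
      rw [hη]
      simp only [dotProduct, emb]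
      rw [Finset.sum_eq_single (fun y : Fin ω × T => g y.1 y.2)]
      · simp
      · intro b _ hb
        rw [Pi.single_eq_of_ne hb]
        simp
      · intro h
        exact absurd (Finset.mem_univ _) h
    rw [h2] at h1 ⊢
    rw [const_mem_I P h1, map_zero]
    exact Ideal.zero_mem _
  have k5 := Kills_of_step x N (Fin ω × T) (a + 1 + n') k4
  have k6 := Kills_of_CSn x N (Fin ω × T) (a + 1) n' k5
  have k7 := Kills_of_step x N (Fin ω × T) a k6
  have := k7 (tau rr) (Submodule.subset_span rfl)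
  simpa using this

end

end Pool.Agent.H530R2
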