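import Mathlib
import Pool.Agent.H530R2.Minor

/-!
The decoupling theorem for products of matrices in separate variables modulo a chain of primes.
-/

namespace Pool.Agent.H530R2

open Matrix Module Polynomial

section hspan

variable {F A : Type*} [Field F] [CommRing A] [IsDomain A] [Algebra F A] {w : ℕ}

/-- span over `K` of the rows `r * M`, `r ∈ R` -/
def hspan {F : Type*} (K : Type*) [Field F] [Field K] [Algebra F K] {ι : Type*} [Fintype ι]
    (R : Submodule F (ι → F)) (M : Matrix ι ι K) : Submodule K (ι → K) :=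
  Submodule.span K {v | ∃ r ∈ R, v = emb K r ᵥ* M}

theorem hspan_mul_le {F K : Type*} [Field F] [Field K] [Algebra F K] {ι : Type*} [Fintype ι]
    (R : Submodule F (ι → F)) (M M' : Matrix ι ι K) :
    hspan K R (M * M') ≤ (hspan K R M).map M'.vecMulLinear := by
  apply Submodule.span_le.2
  rintro _ ⟨r, hr, rfl⟩
  refine ⟨emb K r ᵥ* M, Submodule.subset_span ⟨r, hr, rfl⟩, ?_⟩
  simp [Matrix.vecMul_vecMul]

theorem finrank_hspan_mul_le {F K : Type*} [Field F] [Field K] [Algebra F K] {ι : Type*}
    [Fintype ι] (R : Submodule F (ι → F)) (M M' : Matrix ι ι K) :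
    finrank K (hspan K R (M * M')) ≤ finrank K (hspan K R M) :=
  (Submodule.finrank_mono (hspan_mul_le R M M')).trans (Submodule.finrank_map_le _ _)

theorem finrank_hspan_tp_le {F K : Type*} [Field F] [Field K] [Algebra F K] {w : ℕ}
    (T : Type) [Fintype T] [DecidableEq T]
    (R : Submodule F ((T → Fin w) → F)) (B C : Matrix (Fin w) (Fin w) K)
    (h : (B * C).rank = B.rank) :
    finrank K (hspan K R (tp T B)) ≤ finrank K (hspan K R (tp T (B * C))) := by
  obtain ⟨G, hG⟩ := exists_right_factor B C h
  conv_lhs => rw [← hG, tp_mul]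
  exact finrank_hspan_mul_le R _ _

end hspan

section main

variable {F A : Type*} [Field F] [CommRing A] [IsDomain A] [Algebra F A] {w : ℕ} {len : ℕ}
variable {x : ℕ → A} (N : ℕ → Matrix (Fin w) (Fin w) F[X]) (P : PrimeChain F A len x)

variable (x) in
/-- matrix of the product over the fraction field -/
noncomputable def PrK (a n : ℕ) : Matrix (Fin w) (Fin w) (FractionRing A) :=
  (Pr x N a n).map (algebraMap A (FractionRing A))

omit [IsDomain A] in
variable (x) in
theorem PrK_add (a n m : ℕ) : PrK x N a (n + m) = PrK x N a n * PrK x N (a + n) m := by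
  unfold PrK
  rw [Pr_add, Matrix.map_mul]

omit [IsDomain A] in
variable (x) in
theorem rk_eq (a n : ℕ) : rk x N a n = (PrK x N a n).rank := rfl

variable (x) in
theorem rk_le_left (a n m : ℕ) : rk x N a (n + m) ≤ rk x N a n := by
  rw [rk_eq, rk_eq, PrK_add]
  exact Matrix.rank_mul_le_left _ _

variable (x) in
theorem rk_le_right (a n m : ℕ) : rk x N a (n + m) ≤ rk x N (a + n) m := by
  rw [rk_eq, rk_eq, PrK_add]
  exact Matrix.rank_mul_le_right _ _

variable (x) in
/-- dimension of the row space of `R * tp (product)` -/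
noncomputable def om (T : Type) [Fintype T] [DecidableEq T]
    (R : Submodule F ((T → Fin w) → F)) (a n : ℕ) : ℕ :=
  finrank (FractionRing A) (hspan (FractionRing A) R (tp T (PrK x N a n)))

variable (x) in
theorem om_le (T : Type) [Fintype T] [DecidableEq T]
    (R : Submodule F ((T → Fin w) → F)) (a n : ℕ) : om x N T R a n ≤ w ^ Fintype.card T := by
  unfold om
  refine (Submodule.finrank_le _).trans ?_
  rw [Module.finrank_fintype_fun_eq_card, Fintype.card_fun, Fintype.card_fin]

variable (x) in
theorem om_add_le (T : Type) [Fintype T] [DecidableEq T]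
    (R : Submodule F ((T → Fin w) → F)) (a n m : ℕ) :
    om x N T R a (n + m) ≤ om x N T R a n := by
  unfold om
  rw [PrK_add, tp_mul]
  exact finrank_hspan_mul_le _ _ _

variable (x) in
theorem le_om_add (T : Type) [Fintype T] [DecidableEq T]
    (R : Submodule F ((T → Fin w) → F)) (a n m : ℕ) (h : rk x N a (n + m) = rk x N a n) :
    om x N T R a n ≤ om x N T R a (n + m) := by
  unfold om
  rw [PrK_add]
  apply finrank_hspan_tp_le
  rw [rk_eq, rk_eq, PrK_add] at h
  exact h

variable (x) in
theorem hspan_step_le (T : Type) [Fintype T] [DecidableEq T]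
    (R : Submodule F ((T → Fin w) → F)) (a n : ℕ) :
    hspan (FractionRing A) R (tp T (PrK x N a (n + 1))) ≤
      hspan (FractionRing A) (step T N a R) (tp T (PrK x N (a + 1) n)) := by
  apply Submodule.span_le.2
  rintro _ ⟨r, hr, rfl⟩
  have h1 : PrK x N a (n + 1) = (Nh x N a).map (algebraMap A (FractionRing A)) *
      PrK x N (a + 1) n := by
    unfold PrK
    rw [Pr_succ', Matrix.map_mul]
  have h2 : emb (FractionRing A) r ᵥ* tp T ((Nh x N a).map (algebraMap A (FractionRing A))) =
      ∑ e ∈ Finset.range (dB N T a), (algebraMap A (FractionRing A) (x a)) ^ e •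
        emb (FractionRing A) (r ᵥ* coefM T N a e) := by
    funext g
    have h3 : tp T ((Nh x N a).map (algebraMap A (FractionRing A))) =
        (tp T (Nh x N a)).map (algebraMap A (FractionRing A)) :=
      (tp_map T (algebraMap A (FractionRing A)) (Nh x N a)).symm
    rw [h3]
    simp only [Matrix.vecMul, dotProduct, Matrix.map_apply, tp_Nh_apply, Finset.sum_apply,
      Pi.smul_apply, emb, smul_eq_mul, map_sum, map_mul, map_pow, Finset.mul_sum]
    rw [Finset.sum_comm]
    apply Finset.sum_congr rfl
    intro e _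
    apply Finset.sum_congr rfl
    intro f _
    rw [← IsScalarTower.algebraMap_apply F A (FractionRing A)]
    ring
  rw [h1, tp_mul, ← Matrix.vecMul_vecMul, h2]
  rw [Matrix.sum_vecMul]
  refine Submodule.sum_mem _ fun e _ => ?_
  rw [Matrix.smul_vecMul]
  refine Submodule.smul_mem _ _ (Submodule.subset_span ⟨r ᵥ* coefM T N a e, ?_, rfl⟩)
  exact Submodule.subset_span ⟨r, hr, e, rfl⟩

/-- Lossless step. -/
theorem lossless {r : ℕ} (T : Type) [Fintype T] [DecidableEq T] {c' : ℕ}
    (hdec' : ∀ ω ≤ w ^ Fintype.card T, Dec N P (r + 1) (Fin ω × T) c')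
    (a n' : ℕ) (h : a + (n' + 2) ≤ len) (hr : n' = 0 ∨ r + 1 ≤ rk x N (a + 1) n')
    (R : Submodule F ((T → Fin w) → F))
    (hom : om x N T (step T N a R) (a + 1) (n' + 1) ≤ om x N T R a (n' + 2))
    (j : ℕ) (hj : c' + 2 ≤ j) (q : (T → Fin w) → A)
    (hk : Kills R (tp T (Pr x N a (n' + 2)) *ᵥ q) (P.I j)) :
    Kills (step T N a R) (tp T (Pr x N (a + 1) (n' + 1)) *ᵥ q) (P.I j) := by
  classical
  have hsub := hspan_step_le x N T R a (n' + 1)
  have heq : hspan (FractionRing A) R (tp T (PrK x N a (n' + 2))) =
      hspan (FractionRing A) (step T N a R) (tp T (PrK x N (a + 1) (n' + 1))) :=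
    Submodule.eq_of_le_of_finrank_le hsub hom
  intro r' hr'
  rw [Matrix.dotProduct_mulVec]
  -- basis
  obtain ⟨f, hf, hfspan, hfli⟩ := Submodule.exists_fun_fin_finrank_span_eq (FractionRing A)
    {v | ∃ r ∈ R, v = emb (FractionRing A) r ᵥ* tp T (PrK x N a (n' + 2))}
  choose rr hrr hfr using hf
  obtain ⟨g, hg⟩ := exists_minor_ne_zero f hfli
  have hmapvec : ∀ (r0 : (T → Fin w) → F) (a0 n0 : ℕ),
      (fun t => algebraMap A (FractionRing A) ((emb A r0 ᵥ* tp T (Pr x N a0 n0)) t)) =
        emb (FractionRing A) r0 ᵥ* tp T (PrK x N a0 n0) := by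
    intro r0 a0 n0
    funext t
    have h3 : tp T (PrK x N a0 n0) = (tp T (Pr x N a0 n0)).map (algebraMap A (FractionRing A)) :=
      (tp_map T (algebraMap A (FractionRing A)) (Pr x N a0 n0)).symm
    rw [h3]
    simp only [Matrix.vecMul, dotProduct, Matrix.map_apply, emb, map_sum, map_mul]
    apply Finset.sum_congr rfl
    intro i _
    rw [← IsScalarTower.algebraMap_apply F A (FractionRing A)]
  have hω : finrank (FractionRing A) (Submodule.span (FractionRing A)
      {v | ∃ r ∈ R, v = emb (FractionRing A) r ᵥ* tp T (PrK x N a (n' + 2))}) ≤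
        w ^ Fintype.card T := om_le x N T R a (n' + 2)
  have := P.prime j
  have hdet : (Matrix.of fun i l => (emb A (rr i) ᵥ* tp T (Pr x N a (n' + 2))) (g l)).det
      ∉ P.I j := by
    intro hmem
    have hz := minor_zero N P T (hdec' _ hω) a n' h hr rr g (I_antitone P hj hmem)
    apply hg
    have h4 : (Matrix.of fun i l => f i (g l)) =
        (Matrix.of fun i l => (emb A (rr i) ᵥ* tp T (Pr x N a (n' + 2))) (g l)).map
          (algebraMap A (FractionRing A)) := by
      ext i l
      simp only [Matrix.of_apply, Matrix.map_apply]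
      rw [hfr i, ← hmapvec]
    rw [h4, ← RingHom.mapMatrix_apply, ← RingHom.map_det, hz, map_zero]
  refine cramer_prime (FractionRing A) (P.I j)
    (fun i => emb A (rr i) ᵥ* tp T (Pr x N a (n' + 2)))
    (emb A r' ᵥ* tp T (Pr x N (a + 1) (n' + 1))) g hdet ?_ q ?_
  · rw [hmapvec]
    have h5 : (fun i => (fun t => algebraMap A (FractionRing A)
        ((emb A (rr i) ᵥ* tp T (Pr x N a (n' + 2))) t))) = f := by
      funext i
      rw [hmapvec, hfr i]
    rw [h5, hfspan]
    have : emb (FractionRing A) r' ᵥ* tp T (PrK x N (a + 1) (n' + 1)) ∈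
        hspan (FractionRing A) (step T N a R) (tp T (PrK x N (a + 1) (n' + 1))) :=
      Submodule.subset_span ⟨r', hr', rfl⟩
    rw [← heq] at this
    exact this
  · intro i
    have := hk (rr i) (hrr i)
    rwa [Matrix.dotProduct_mulVec] at this

/-- The main induction. -/
theorem main_ind {r : ℕ} (T : Type) [Fintype T] [DecidableEq T] {c c' : ℕ}
    (hdec : Dec N P (r + 1) T c)
    (hdec' : ∀ ω ≤ w ^ Fintype.card T, Dec N P (r + 1) (Fin ω × T) c')
    (n : ℕ) : ∀ (a : ℕ), a + n ≤ len → 1 ≤ n → rk x N a n = r →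
      ∀ (R : Submodule F ((T → Fin w) → F)) (j : ℕ) (p : (T → Fin w) → A),
      (∀ i, p i ∈ P.S (a + n)) →
      Kills R (tp T (Pr x N a n) *ᵥ p)
        (P.I (j + (c' + 2) + (w ^ Fintype.card T - om x N T R a n) + (c + 1))) →
      Kills (CSn T N a n R) p (P.I j) := by
  induction n with
  | zero => intro a _ h1; omega
  | succ n1 ih =>
    intro a hlen _ hrk R j p hp hk
    have hPp : tp T (Pr x N a (n1 + 1)) *ᵥ p =
        tp T (Nh x N a) *ᵥ (tp T (Pr x N (a + 1) n1) *ᵥ p) := by
      rw [Pr_succ', tp_mul, Matrix.mulVec_mulVec]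
    have hp' : ∀ i, p i ∈ P.S (a + 1 + n1) := by
      intro i
      have := hp i
      rwa [add_assoc, add_comm 1 n1]
    have hmem : ∀ i, (tp T (Pr x N (a + 1) n1) *ᵥ p) i ∈ P.S (a + 1) :=
      mulVec_mem P (tp_mem P _ (Pr_mem N P _ _))
        (fun i => S_antitone P (Nat.le_add_right _ _) (hp' i))
    rw [CSn_succ']
    by_cases hA : n1 = 0 ∨ r + 1 ≤ rk x N (a + 1) n1
    · rw [hPp] at hk
      have hk' := Kills_mono (I_antitone P (show j + c + 1 ≤ j + (c' + 2) +
        (w ^ Fintype.card T - om x N T R a (n1 + 1)) + (c + 1) by omega)) hk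
      have k1 := Kills_step_free N P T (j + c) a (by omega) hmem hk'
      exact hdec (a + 1) n1 (by omega) hA _ j p hp' k1
    · push Not at hA
      obtain ⟨hn1, hlt⟩ := hA
      have hrk1 : rk x N (a + 1) n1 = r := by
        have h1 : rk x N a (1 + n1) ≤ rk x N (a + 1) n1 := rk_le_right x N a 1 n1
        rw [add_comm 1 n1, hrk] at h1
        omega
      have homle : om x N T R a (n1 + 1) ≤ om x N T (step T N a R) (a + 1) n1 :=
        Submodule.finrank_mono (hspan_step_le x N T R a n1)
      have hW := om_le x N T (step T N a R) (a + 1) n1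
      by_cases hB : om x N T R a (n1 + 1) < om x N T (step T N a R) (a + 1) n1
      · rw [hPp] at hk
        have hk' := Kills_mono (I_antitone P (show j + (c' + 2) +
          (w ^ Fintype.card T - om x N T (step T N a R) (a + 1) n1) + (c + 1) + 1 ≤
          j + (c' + 2) + (w ^ Fintype.card T - om x N T R a (n1 + 1)) + (c + 1) by omega)) hk
        have k1 := Kills_step_free N P T _ a (by omega) hmem hk'
        exact ih (a + 1) (by omega) (Nat.one_le_iff_ne_zero.2 hn1) hrk1 _ j p hp' k1
      · have homeq : om x N T (step T N a R) (a + 1) n1 = om x N T R a (n1 + 1) := by omega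
        -- minimal length
        have hex : ∃ l, rk x N (a + 1) (l + 1) ≤ r := ⟨n1 - 1, by
          rw [Nat.sub_add_cancel (Nat.one_le_iff_ne_zero.2 hn1)]; omega⟩
        classical
        set n' := Nat.find hex with hn'
        have hn'1 : rk x N (a + 1) (n' + 1) ≤ r := Nat.find_spec hex
        have hn'2 : n' + 1 ≤ n1 := by
          have : n' ≤ n1 - 1 := Nat.find_min' hex (by
            rw [Nat.sub_add_cancel (Nat.one_le_iff_ne_zero.2 hn1)]; omega)
          omega
        have hn'3 : n' = 0 ∨ r + 1 ≤ rk x N (a + 1) n' := by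
          rcases Nat.eq_zero_or_pos n' with h0 | h0
          · exact Or.inl h0
          · right
            have := Nat.find_min hex (m := n' - 1) (by omega)
            rw [Nat.sub_add_cancel h0] at this
            omega
        obtain ⟨m, hm⟩ := Nat.exists_eq_add_of_le hn'2
        have hrk2 : rk x N (a + 1) (n' + 1) = r := by
          have h1 := rk_le_left x N (a + 1) (n' + 1) m
          rw [← hm, hrk1] at h1
          omega
        have hrk3 : rk x N a (n' + 2) = r := by
          have h1 := rk_le_left x N a (n' + 2) m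
          have h2 : n' + 2 + m = n1 + 1 := by omega
          rw [h2, hrk] at h1
          have h3 := rk_le_right x N a 1 (n' + 1)
          rw [show 1 + (n' + 1) = n' + 2 by omega, hrk2] at h3
          omega
        have hom' : om x N T (step T N a R) (a + 1) (n' + 1) ≤ om x N T R a (n' + 2) := by
          have h1 : om x N T (step T N a R) (a + 1) (n' + 1) ≤
              om x N T (step T N a R) (a + 1) (n' + 1 + m) := by
            apply le_om_add
            rw [← hm, hrk1, hrk2]
          rw [← hm, homeq] at h1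
          have h2 := om_add_le x N T R a (n' + 2) m
          rw [show n' + 2 + m = n1 + 1 by omega] at h2
          exact h1.trans h2
        have hsplit1 : tp T (Pr x N a (n1 + 1)) *ᵥ p =
            tp T (Pr x N a (n' + 2)) *ᵥ (tp T (Pr x N (a + (n' + 2)) m) *ᵥ p) := by
          rw [Matrix.mulVec_mulVec, ← tp_mul, ← Pr_add, show n' + 2 + m = n1 + 1 by omega]
        have hsplit2 : tp T (Pr x N (a + 1) n1) *ᵥ p =
            tp T (Pr x N (a + 1) (n' + 1)) *ᵥ (tp T (Pr x N (a + (n' + 2)) m) *ᵥ p) := by
          rw [Matrix.mulVec_mulVec, ← tp_mul, show a + (n' + 2) = a + 1 + (n' + 1) by omega,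
            ← Pr_add, ← hm]
        rw [hsplit1] at hk
        have k1 := lossless N P T hdec' a n' (by omega) hn'3 R hom' _ (by omega) _ hk
        rw [← hsplit2] at k1
        refine ih (a + 1) (by omega) (Nat.one_le_iff_ne_zero.2 hn1) hrk1 _ j p hp' ?_
        rw [homeq]
        exact k1

/-- The cost function. -/
def cost (w : ℕ) : ℕ → ℕ → ℕ
  | 0, _ => 0
  | s + 1, t => cost w s t + w ^ t + 3 + (Finset.range (w ^ t + 1)).sup fun ω => cost w s (ω * t)

theorem Dec_all (s : ℕ) (hs : s ≤ w) (T : Type) [Fintype T] [DecidableEq T] :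
    Dec N P (w + 1 - s) T (cost w s (Fintype.card T)) := by
  induction s generalizing T with
  | zero =>
    intro a n hn hr R j p hp hk
    rcases hr with h0 | h1
    · subst h0
      rw [Pr_zero, tp_one, Matrix.one_mulVec] at hk
      exact hk
    · exfalso
      have h2 : rk x N a n ≤ w := by
        rw [rk_eq]
        refine (Matrix.rank_le_card_width _).trans ?_
        rw [Fintype.card_fin]
      omega
  | succ s ih =>
    set r := w + 1 - (s + 1) with hr
    have hr1 : w + 1 - s = r + 1 := by omega
    have hdec : Dec N P (r + 1) T (cost w s (Fintype.card T)) := by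
      rw [← hr1]; exact ih (by omega) T
    set c' := (Finset.range (w ^ Fintype.card T + 1)).sup
      (fun ω => cost w s (ω * Fintype.card T)) with hc'
    have hdec' : ∀ ω ≤ w ^ Fintype.card T, Dec N P (r + 1) (Fin ω × T) c' := by
      intro ω hω
      have h1 := ih (by omega) (Fin ω × T)
      rw [hr1] at h1
      refine Dec_mono N P ?_ h1
      rw [Fintype.card_prod, Fintype.card_fin]
      exact Finset.le_sup (f := fun ω => cost w s (ω * Fintype.card T))
        (Finset.mem_range.2 (Nat.lt_succ_of_le hω))
    intro a n hn hrr R j p hp hk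
    by_cases hA : n = 0 ∨ r + 1 ≤ rk x N a n
    · refine hdec a n hn hA R j p hp (Kills_mono (I_antitone P ?_) hk)
      simp only [cost]
      omega
    · push Not at hA
      obtain ⟨hn0, hlt⟩ := hA
      have hrk : rk x N a n = r := by
        rcases hrr with h | h
        · exact absurd h hn0
        · omega
      refine main_ind N P T hdec hdec' n a hn (Nat.one_le_iff_ne_zero.2 hn0) hrk R j p hp
        (Kills_mono (I_antitone P ?_) hk)
      simp only [cost]
      rw [← hc']
      omega

end main

end Pool.Agent.H530R2
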