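import Mathlib
import Pool.Agent.H530R2.Decouple

/-!
The vanishing ideals of the Shpilka-Volkovich generator form a chain of primes.
-/

namespace Pool.Agent.H530R2

open Module Polynomial

section

variable {F : Type*} [Field F] {n : ℕ} (a : Fin n → F)

/-- The generator with `j` seed pairs, as an algebra map. -/
noncomputable def gen (j : ℕ) : MvPolynomial (Fin n) F →ₐ[F] MvPolynomial (Fin j ⊕ Fin j) F :=
  MvPolynomial.aeval fun i => ∑ l : Fin j, MvPolynomial.X (Sum.inl l) *
    ∏ i' ∈ Finset.univ.erase i, (MvPolynomial.X (Sum.inr l) - MvPolynomial.C (a i'))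

/-- polynomials vanishing on the generator -/
noncomputable def genI (j : ℕ) : Ideal (MvPolynomial (Fin n) F) := RingHom.ker (gen a j)

theorem genI_prime (j : ℕ) : (genI a j).IsPrime := RingHom.ker_isPrime _

theorem genI_anti (j : ℕ) : genI a (j + 1) ≤ genI a j := by
  let θ : MvPolynomial (Fin (j + 1) ⊕ Fin (j + 1)) F →ₐ[F] MvPolynomial (Fin j ⊕ Fin j) F :=
    MvPolynomial.aeval (Sum.elim
      (fun l => Fin.lastCases (0 : MvPolynomial (Fin j ⊕ Fin j) F)
        (fun l' => MvPolynomial.X (Sum.inl l')) l)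
      (fun l => Fin.lastCases (0 : MvPolynomial (Fin j ⊕ Fin j) F)
        (fun l' => MvPolynomial.X (Sum.inr l')) l))
  have e1 : ∀ l : Fin j, θ (MvPolynomial.X (Sum.inl l.castSucc)) = MvPolynomial.X (Sum.inl l) := by
    intro l; simp [θ]
  have e2 : θ (MvPolynomial.X (Sum.inl (Fin.last j))) = 0 := by simp [θ]
  have e3 : ∀ l : Fin j, θ (MvPolynomial.X (Sum.inr l.castSucc)) = MvPolynomial.X (Sum.inr l) := by
    intro l; simp [θ]
  have e5 : ∀ c, θ (MvPolynomial.C c) = MvPolynomial.C c := fun c => θ.commutes c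
  clear_value θ
  have h : θ.comp (gen a (j + 1)) = gen a j := by
    apply MvPolynomial.algHom_ext
    intro i
    simp only [AlgHom.comp_apply, gen, MvPolynomial.aeval_X, Fin.sum_univ_castSucc, map_add,
      map_sum, map_mul, map_prod, map_sub, e1, e2, e3, e5, zero_mul, add_zero]
  intro f hf
  have hf' : gen a (j + 1) f = 0 := hf
  show gen a j f = 0
  rw [← h, AlgHom.comp_apply, hf', map_zero]

/-- the variable at position `k` of the order `σ` -/
noncomputable def pv (σ : Equiv.Perm (Fin n)) (k : ℕ) : MvPolynomial (Fin n) F :=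
  if h : k < n then MvPolynomial.X (σ ⟨k, h⟩) else 0

/-- polynomials in the variables at positions at least `k` -/
noncomputable def pS (F : Type*) [Field F] {n : ℕ} (σ : Equiv.Perm (Fin n)) (k : ℕ) :
    Subalgebra F (MvPolynomial (Fin n) F) :=
  MvPolynomial.supported F {i | k ≤ (σ.symm i).val}

theorem gen_free (ha : Function.Injective a) (σ : Equiv.Perm (Fin n)) (j k : ℕ) (hk : k < n)
    (Q : (MvPolynomial (Fin n) F)[X]) (hQ : ∀ e, Q.coeff e ∈ pS F σ (k + 1))
    (h : Q.eval (pv σ k) ∈ genI a (j + 1)) (e : ℕ) : Q.coeff e ∈ genI a j := by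
  set i0 : Fin n := σ ⟨k, hk⟩ with hi0
  have hpv : (pv σ k : MvPolynomial (Fin n) F) = MvPolynomial.X i0 := by
    unfold pv; rw [dif_pos hk]
  let ψ : MvPolynomial (Fin (j + 1) ⊕ Fin (j + 1)) F →ₐ[F] (MvPolynomial (Fin j ⊕ Fin j) F)[X] :=
    MvPolynomial.aeval (Sum.elim
      (fun l => Fin.lastCases (Polynomial.X : (MvPolynomial (Fin j ⊕ Fin j) F)[X])
        (fun l' => Polynomial.C (MvPolynomial.X (Sum.inl l'))) l)
      (fun l => Fin.lastCases
        (Polynomial.C (MvPolynomial.C (a i0)) : (MvPolynomial (Fin j ⊕ Fin j) F)[X])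
        (fun l' => Polynomial.C (MvPolynomial.X (Sum.inr l'))) l))
  have e1 : ∀ l : Fin j, ψ (MvPolynomial.X (Sum.inl l.castSucc)) =
      Polynomial.C (MvPolynomial.X (Sum.inl l)) := by
    intro l; simp [ψ]
  have e2 : ψ (MvPolynomial.X (Sum.inl (Fin.last j))) = Polynomial.X := by simp [ψ]
  have e3 : ∀ l : Fin j, ψ (MvPolynomial.X (Sum.inr l.castSucc)) =
      Polynomial.C (MvPolynomial.X (Sum.inr l)) := by
    intro l; simp [ψ]
  have e4 : ψ (MvPolynomial.X (Sum.inr (Fin.last j))) =
      Polynomial.C (MvPolynomial.C (a i0)) := by simp [ψ]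
  have e5 : ∀ c, ψ (MvPolynomial.C c) = Polynomial.C (MvPolynomial.C c) := fun c => ψ.commutes c
  clear_value ψ
  have hψ : ∀ i, ψ (gen a (j + 1) (MvPolynomial.X i)) =
      Polynomial.C (gen a j (MvPolynomial.X i)) + Polynomial.X *
        Polynomial.C (MvPolynomial.C (∏ i' ∈ Finset.univ.erase i, (a i0 - a i'))) := by
    intro i
    simp only [gen, MvPolynomial.aeval_X, Fin.sum_univ_castSucc, map_add,
      map_sum, map_mul, map_prod, map_sub, e1, e2, e3, e4, e5]
  -- agreement on the later variables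
  have hagree : ∀ f ∈ pS F σ (k + 1), ψ (gen a (j + 1) f) = Polynomial.C (gen a j f) := by
    intro f hf
    let χ1 : MvPolynomial (Fin n) F →ₐ[F] (MvPolynomial (Fin j ⊕ Fin j) F)[X] :=
      ψ.comp (gen a (j + 1))
    let χ2 : MvPolynomial (Fin n) F →ₐ[F] (MvPolynomial (Fin j ⊕ Fin j) F)[X] :=
      (Polynomial.CAlgHom).comp (gen a j)
    have hf' : f ∈ Algebra.adjoin F
      (MvPolynomial.X '' {i : Fin n | k + 1 ≤ (σ.symm i).val}) := hf
    clear hf
    have : χ1 f = χ2 f := by
      induction hf' using Algebra.adjoin_induction with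
      | mem y hy =>
        obtain ⟨i, hi, rfl⟩ := hy
        have hne : i0 ≠ i := by
          rintro rfl
          simp only [hi0, Set.mem_ofPred_eq, Equiv.symm_apply_apply] at hi
          omega
        have h1 := hψ i
        have h2 : ∏ i' ∈ Finset.univ.erase i, (a i0 - a i') = 0 := by
          apply Finset.prod_eq_zero (i := i0)
          · simp [hne]
          · simp
        rw [h2] at h1
        simpa [χ1, χ2] using h1
      | algebraMap r =>
        rw [AlgHom.commutes, AlgHom.commutes]
      | add y z _ _ hy hz => 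
        rw [map_add, map_add, hy, hz]
      | mul y z _ _ hy hz =>
        rw [map_mul, map_mul, hy, hz]
    exact this
  set c : F := ∏ i' ∈ Finset.univ.erase i0, (a i0 - a i') with hc
  have hc0 : c ≠ 0 := by
    rw [hc, Finset.prod_ne_zero_iff]
    intro i' hi'
    rw [sub_ne_zero]
    intro heq
    exact (Finset.ne_of_mem_erase hi') (ha heq).symm
  set ℓ : (MvPolynomial (Fin j ⊕ Fin j) F)[X] := Polynomial.C (gen a j (MvPolynomial.X i0)) +
    Polynomial.X * Polynomial.C (MvPolynomial.C c) with hℓ
  have h0 : ψ (gen a (j + 1) (Q.eval (pv σ k))) = 0 := by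
    have : gen a (j + 1) (Q.eval (pv σ k)) = 0 := h
    rw [this, map_zero]
  have h1 : ψ (gen a (j + 1) (Q.eval (pv σ k))) =
      (Q.map (gen a j : MvPolynomial (Fin n) F →+* MvPolynomial (Fin j ⊕ Fin j) F)).comp ℓ := by
    rw [hpv, Polynomial.eval_eq_sum_range, map_sum, map_sum, Polynomial.comp,
      Polynomial.eval₂_map, Polynomial.eval₂_eq_sum_range]
    apply Finset.sum_congr rfl
    intro e _
    rw [map_mul, map_mul, map_pow, map_pow, hagree _ (hQ e), hψ i0]
    rfl
  rw [h0] at h1
  have h2 := (Polynomial.comp_eq_zero_iff).1 h1.symm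
  have h3 : Q.map (gen a j : MvPolynomial (Fin n) F →+* MvPolynomial (Fin j ⊕ Fin j) F) = 0 := by
    rcases h2 with h2 | ⟨_, h2⟩
    · exact h2
    · exfalso
      have h4 := congrArg (fun p => Polynomial.coeff p 1) h2
      simp [hℓ, Polynomial.coeff_C] at h4
      exact hc0 h4
  have h5 := congrArg (fun p => Polynomial.coeff p e) h3
  simp only [Polynomial.coeff_map, Polynomial.coeff_zero] at h5
  exact h5

/-- The chain of primes for the order `σ`. -/
noncomputable def svChain (ha : Function.Injective a) (σ : Equiv.Perm (Fin n)) :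
    PrimeChain F (MvPolynomial (Fin n) F) n (pv σ) where
  S := pS F σ
  S_anti := by
    intro k
    apply MvPolynomial.supported_mono
    intro i hi
    simp only [Set.mem_ofPred_eq] at hi ⊢
    omega
  x_mem := by
    intro k
    unfold pv
    split_ifs with h
    · unfold pS
      rw [MvPolynomial.X_mem_supported]
      simp
    · exact Subalgebra.zero_mem _
  I := genI a
  prime := genI_prime a
  anti := genI_anti a
  free := fun j k hk Q hQ h e => gen_free a ha σ j k hk Q hQ h e

end

end Pool.Agent.H530R2
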