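import Mathlib
import Pool.Agent.H530R2.SV

/-!
Hybrid substitutions: the variables of a set `Z` stay free, the others are put on the generator.
-/

namespace Pool.Agent.H530R2

open MvPolynomial

section

variable {F : Type*} [Field F] {n : ℕ} (a : Fin n → F)

/-- The variables in `Z` are free, the others are on the generator with `j` seed pairs. -/
noncomputable def hyb (j : ℕ) (Z : Finset (Fin n)) :
    MvPolynomial (Fin n) F →ₐ[F] MvPolynomial (Fin n) (MvPolynomial (Fin j ⊕ Fin j) F) :=
  aeval fun i => if i ∈ Z then X i else C (gen a j (X i))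

theorem hyb_X_mem (j : ℕ) {Z : Finset (Fin n)} {i : Fin n} (h : i ∈ Z) :
    hyb a j Z (X i) = X i := by
  simp [hyb, h]

theorem hyb_X_not_mem (j : ℕ) {Z : Finset (Fin n)} {i : Fin n} (h : i ∉ Z) :
    hyb a j Z (X i) = C (gen a j (X i)) := by
  simp [hyb, h]

theorem hyb_C (j : ℕ) (Z : Finset (Fin n)) (r : F) :
    hyb a j Z (C r) = C (C r) := by
  simp only [hyb, MvPolynomial.algHom_C]
  rfl

theorem hyb_empty (j : ℕ) (Q : MvPolynomial (Fin n) F) :
    hyb a j ∅ Q = C (gen a j Q) := by
  induction Q using MvPolynomial.induction_on with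
  | C r => rw [hyb_C]; congr 1; exact ((gen a j).commutes r).symm
  | add p q hp hq => rw [map_add, map_add, hp, hq, map_add]
  | mul_X p i hp => rw [map_mul, map_mul, hp, hyb_X_not_mem a j (by simp), map_mul]

theorem hyb_supported (j : ℕ) {Z : Finset (Fin n)} {Q : MvPolynomial (Fin n) F}
    (h : Q ∈ supported F (Z : Set (Fin n))) :
    hyb a j Z Q = map (C : F →+* MvPolynomial (Fin j ⊕ Fin j) F) Q := by
  have h' : Q ∈ Algebra.adjoin F (X '' (Z : Set (Fin n)) : Set (MvPolynomial (Fin n) F)) := h
  clear h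
  induction h' using Algebra.adjoin_induction with
  | mem x hx =>
    obtain ⟨i, hi, rfl⟩ := hx
    rw [hyb_X_mem a j (by simpa using hi), map_X]
  | algebraMap r =>
    have : (algebraMap F (MvPolynomial (Fin n) F)) r = C r := rfl
    rw [this, hyb_C, map_C]
  | add x y _ _ hx hy => rw [map_add, map_add, hx, hy]
  | mul x y _ _ hx hy => rw [map_mul, map_mul, hx, hy]

theorem hyb_supported_eq_zero (j : ℕ) {Z : Finset (Fin n)} {Q : MvPolynomial (Fin n) F}
    (h : Q ∈ supported F (Z : Set (Fin n))) (h0 : hyb a j Z Q = 0) : Q = 0 := by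
  rw [hyb_supported a j h] at h0
  exact (map_injective _ (C_injective _ _)) (by rw [h0, map_zero])

theorem hyb_mono_one (j : ℕ) (Z : Finset (Fin n)) {Q : MvPolynomial (Fin n) F}
    (h : hyb a (j + 1) Z Q = 0) : hyb a j Z Q = 0 := by
  let θ : MvPolynomial (Fin (j + 1) ⊕ Fin (j + 1)) F →ₐ[F] MvPolynomial (Fin j ⊕ Fin j) F :=
    MvPolynomial.aeval (Sum.elim
      (fun l => Fin.lastCases (0 : MvPolynomial (Fin j ⊕ Fin j) F)
        (fun l' => MvPolynomial.X (Sum.inl l')) l)
      (fun l => Fin.lastCases (0 : MvPolynomial (Fin j ⊕ Fin j) F)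
        (fun l' => MvPolynomial.X (Sum.inr l')) l))
  have e1 : ∀ l : Fin j, θ (MvPolynomial.X (Sum.inl l.castSucc)) = MvPolynomial.X (Sum.inl l) := by
    intro l; simp [θ]
  have e2 : θ (MvPolynomial.X (Sum.inl (Fin.last j))) = 0 := by simp [θ]
  have e3 : ∀ l : Fin j, θ (MvPolynomial.X (Sum.inr l.castSucc)) = MvPolynomial.X (Sum.inr l) := by
    intro l; simp [θ]
  have e5 : ∀ c, θ (MvPolynomial.C c) = MvPolynomial.C c := fun c => θ.commutes c
  clear_value θ
  have e6 : ∀ i, θ (gen a (j + 1) (X i)) = gen a j (X i) := by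
    intro i
    simp only [gen, MvPolynomial.aeval_X, Fin.sum_univ_castSucc, map_add,
      map_sum, map_mul, map_prod, map_sub, e1, e2, e3, e5, zero_mul, add_zero]
  have key : ∀ P : MvPolynomial (Fin n) F,
      (MvPolynomial.map (σ := Fin n) (θ : _ →+* MvPolynomial (Fin j ⊕ Fin j) F))
        (hyb a (j + 1) Z P) = hyb a j Z P := by
    intro P
    induction P using MvPolynomial.induction_on with
    | C r => rw [hyb_C, hyb_C, map_C]; congr 1; exact e5 r
    | add p q hp hq => rw [map_add, map_add, map_add, hp, hq]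
    | mul_X p i hp =>
      rw [map_mul, map_mul, map_mul, hp]
      by_cases hi : i ∈ Z
      · rw [hyb_X_mem a _ hi, hyb_X_mem a _ hi, map_X]
      · rw [hyb_X_not_mem a _ hi, hyb_X_not_mem a _ hi, map_C]
        congr 2
        exact e6 i
  rw [← key, h, map_zero]

theorem hyb_mono {j j' : ℕ} (hj : j ≤ j') (Z : Finset (Fin n)) {Q : MvPolynomial (Fin n) F}
    (h : hyb a j' Z Q = 0) : hyb a j Z Q = 0 := by
  induction j', hj using Nat.le_induction with
  | base => exact h
  | succ m _ ih => exact ih (hyb_mono_one a m Z h)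

/-- One variable can be freed at the cost of one seed pair. -/
theorem hyb_free (ha : Function.Injective a) (j : ℕ) (Z : Finset (Fin n)) (i0 : Fin n)
    {Q : MvPolynomial (Fin n) F} (h : hyb a (j + 1) Z Q = 0) : hyb a j (insert i0 Z) Q = 0 := by
  by_cases hi0 : i0 ∈ Z
  · rw [Finset.insert_eq_of_mem hi0]
    exact hyb_mono_one a j Z h
  set c : F := ∏ i' ∈ Finset.univ.erase i0, (a i0 - a i') with hc
  have hc0 : c ≠ 0 := by
    rw [hc, Finset.prod_ne_zero_iff]
    intro i' hi'
    rw [sub_ne_zero]
    intro heq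
    exact (Finset.ne_of_mem_erase hi') (ha heq).symm
  let B := MvPolynomial (Fin n) (MvPolynomial (Fin j ⊕ Fin j) F)
  let T : B := C (C c⁻¹) * (X i0 - C (gen a j (X i0)))
  let ψ : MvPolynomial (Fin (j + 1) ⊕ Fin (j + 1)) F →ₐ[F] B :=
    MvPolynomial.aeval (Sum.elim
      (fun l => Fin.lastCases T (fun l' => C (MvPolynomial.X (Sum.inl l'))) l)
      (fun l => Fin.lastCases (C (C (a i0)) : B) (fun l' => C (MvPolynomial.X (Sum.inr l'))) l))
  have e1 : ∀ l : Fin j, ψ (MvPolynomial.X (Sum.inl l.castSucc)) =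
      C (MvPolynomial.X (Sum.inl l)) := by
    intro l; simp [ψ]
  have e2 : ψ (MvPolynomial.X (Sum.inl (Fin.last j))) = T := by simp [ψ]
  have e3 : ∀ l : Fin j, ψ (MvPolynomial.X (Sum.inr l.castSucc)) =
      C (MvPolynomial.X (Sum.inr l)) := by
    intro l; simp [ψ]
  have e4 : ψ (MvPolynomial.X (Sum.inr (Fin.last j))) = C (C (a i0)) := by simp [ψ]
  have e5 : ∀ c, ψ (MvPolynomial.C c) = C (MvPolynomial.C c) := fun c => ψ.commutes c
  clear_value ψ
  have hψ : ∀ i, ψ (gen a (j + 1) (MvPolynomial.X i)) =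
      C (gen a j (MvPolynomial.X i)) + T *
        C (MvPolynomial.C (∏ i' ∈ Finset.univ.erase i, (a i0 - a i'))) := by
    intro i
    simp only [gen, MvPolynomial.aeval_X, Fin.sum_univ_castSucc, map_add,
      map_sum, map_mul, map_prod, map_sub, e1, e2, e3, e4, e5]
  have hψ0 : ψ (gen a (j + 1) (MvPolynomial.X i0)) = X i0 := by
    rw [hψ, ← hc]
    have h1 : (C (C c⁻¹) : B) * C (C c) = 1 := by
      rw [← map_mul, ← map_mul, inv_mul_cancel₀ hc0, map_one, map_one]
    have h2 : T * C (C c) = X i0 - C (gen a j (X i0)) := by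
      calc T * C (C c) = (C (C c⁻¹) * C (C c)) * (X i0 - C (gen a j (X i0))) := by
            simp only [T]; ring
        _ = _ := by rw [h1, one_mul]
    rw [h2]
    ring
  have hψ1 : ∀ i, i ≠ i0 → ψ (gen a (j + 1) (MvPolynomial.X i)) = C (gen a j (X i)) := by
    intro i hi
    rw [hψ]
    have : ∏ i' ∈ Finset.univ.erase i, (a i0 - a i') = 0 := by
      apply Finset.prod_eq_zero (i := i0)
      · simp [hi.symm]
      · simp
    rw [this, map_zero, map_zero, mul_zero, add_zero]
  have key : ∀ P : MvPolynomial (Fin n) F,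
      (MvPolynomial.eval₂ (ψ : _ →+* B) X) (hyb a (j + 1) Z P) = hyb a j (insert i0 Z) P := by
    intro P
    induction P using MvPolynomial.induction_on with
    | C r =>
      rw [hyb_C, hyb_C, eval₂_C]; exact e5 r
    | add p q hp hq => rw [map_add, eval₂_add, map_add, hp, hq]
    | mul_X p i hp =>
      rw [map_mul, eval₂_mul, map_mul, hp]
      by_cases hi : i ∈ Z
      · rw [hyb_X_mem a _ hi, hyb_X_mem a _ (Finset.mem_insert_of_mem hi), eval₂_X]
      · by_cases hii : i = i0
        · subst hii
          rw [hyb_X_not_mem a _ hi, hyb_X_mem a _ (Finset.mem_insert_self _ _), eval₂_C]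
          congr 1
        · have hni : i ∉ insert i0 Z := by simp [hi, hii]
          rw [hyb_X_not_mem a _ hi, hyb_X_not_mem a _ hni, eval₂_C]
          congr 1
          exact hψ1 i hii
  rw [← key, h, eval₂_zero]

/-- derivatives in free directions commute with the substitution -/
theorem pderiv_hyb (j : ℕ) {Z : Finset (Fin n)} {k : Fin n} (hk : k ∈ Z)
    (Q : MvPolynomial (Fin n) F) : pderiv k (hyb a j Z Q) = hyb a j Z (pderiv k Q) := by
  induction Q using MvPolynomial.induction_on with
  | C r => rw [hyb_C, pderiv_C, pderiv_C, map_zero]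
  | add p q hp hq => rw [map_add, map_add, map_add, map_add, hp, hq]
  | mul_X p i hp =>
    rw [map_mul, pderiv_mul, hp, pderiv_mul, map_add, map_mul, map_mul]
    congr 2
    by_cases hi : i ∈ Z
    · rw [hyb_X_mem a _ hi, pderiv_X, pderiv_X]
      by_cases h : k = i
      · subst h; simp
      · rw [Pi.single_eq_of_ne' h, Pi.single_eq_of_ne' h, map_zero]
    · rw [hyb_X_not_mem a _ hi, pderiv_C, pderiv_X_of_ne, map_zero]
      rintro rfl
      exact hi hk

/-- A first order linear differential relation frees a variable at no cost, if its leading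
coefficient does not vanish. -/
theorem hyb_lossless [CharZero F] (j : ℕ) {Z : Finset (Fin n)} {i0 : Fin n} (hi0 : i0 ∉ Z)
    {Q μ : MvPolynomial (Fin n) F} {ρ : Type*} [Fintype ρ] (κ : ρ → Fin n) (hκ : ∀ p, κ p ∈ Z)
    (m : ρ → MvPolynomial (Fin n) F)
    (hpde : μ * pderiv i0 Q = ∑ p, m p * pderiv (κ p) Q)
    (hQ : hyb a j Z Q = 0) (hμ : hyb a j Z μ ≠ 0) : hyb a j (insert i0 Z) Q = 0 := by
  let E := MvPolynomial (Fin j ⊕ Fin j) F
  let B := MvPolynomial (Fin n) E
  let g : E := gen a j (X i0)
  let ε : B →ₐ[E] B := aeval (fun k => if k = i0 then (C g : B) else X k)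
  set π : B := X i0 - C g with hπ
  set Ψ : B := hyb a j (insert i0 Z) Q with hΨ
  have hεX0 : ε (X i0) = C g := by
    have : ε (X i0) = if i0 = i0 then (C g : B) else X i0 := aeval_X _ i0
    rw [this, if_pos rfl]
  have hεX : ∀ k, k ≠ i0 → ε (X k) = X k := by
    intro k hk
    have : ε (X k) = if k = i0 then (C g : B) else X k := aeval_X _ k
    rw [this, if_neg hk]
  have hεC : ∀ c, ε (C c) = C c := fun c => ε.commutes c
  clear_value ε
  have claim1 : ∀ P : B, π ∣ P - ε P := by
    intro P
    induction P using MvPolynomial.induction_on with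
    | C r => rw [hεC, sub_self]; exact dvd_zero _
    | add p q hp hq =>
      rw [map_add, add_sub_add_comm]
      exact dvd_add hp hq
    | mul_X p i hp =>
      rw [map_mul]
      by_cases hi : i = i0
      · subst hi
        rw [hεX0]
        have : p * X i - ε p * C g = (p - ε p) * X i + ε p * π := by rw [hπ]; ring
        rw [this]
        exact dvd_add (Dvd.dvd.mul_right hp _) (Dvd.intro_left _ rfl)
      · rw [hεX i hi, ← sub_mul]
        exact Dvd.dvd.mul_right hp _
  have claim1' : ∀ P : B, ε P = 0 → π ∣ P := by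
    intro P hP
    have := claim1 P
    rwa [hP, sub_zero] at this
  have hεπ : ε π = 0 := by rw [hπ, map_sub, hεX0, hεC, sub_self]
  have claim2 : ∀ P : MvPolynomial (Fin n) F, ε (hyb a j (insert i0 Z) P) = hyb a j Z P := by
    intro P
    induction P using MvPolynomial.induction_on with
    | C r => rw [hyb_C, hyb_C, hεC]
    | add p q hp hq => rw [map_add, map_add, map_add, hp, hq]
    | mul_X p i hp =>
      rw [map_mul, map_mul, map_mul, hp]
      by_cases hi : i = i0
      · subst hi
        rw [hyb_X_mem a _ (Finset.mem_insert_self _ _), hεX0, hyb_X_not_mem a _ hi0]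
      · by_cases hiZ : i ∈ Z
        · rw [hyb_X_mem a _ (Finset.mem_insert_of_mem hiZ), hεX i hi, hyb_X_mem a _ hiZ]
        · have hni : i ∉ insert i0 Z := by simp [hi, hiZ]
          rw [hyb_X_not_mem a _ hni, hεC, hyb_X_not_mem a _ hiZ]
  have hpde' : hyb a j (insert i0 Z) μ * pderiv i0 Ψ =
      ∑ p, hyb a j (insert i0 Z) (m p) * pderiv (κ p) Ψ := by
    have h1 := congrArg (hyb a j (insert i0 Z)) hpde
    rw [map_mul, map_sum] at h1
    rw [hΨ, pderiv_hyb a j (Finset.mem_insert_self _ _), h1]
    apply Finset.sum_congr rfl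
    intro p _
    rw [map_mul, pderiv_hyb a j (Finset.mem_insert_of_mem (hκ p))]
  have hcoef : coeff (Finsupp.single i0 1) π = 1 := by
    have h : (0 : Fin n →₀ ℕ) ≠ Finsupp.single i0 1 := by
      intro h
      have := DFunLike.congr_fun h i0
      simp at this
    rw [hπ, coeff_sub, coeff_C, if_neg h, sub_zero, coeff_X, if_pos rfl]
  have hπ0 : π ≠ 0 := by
    intro h0
    rw [h0, coeff_zero] at hcoef
    exact zero_ne_one hcoef
  have hdπ0 : pderiv i0 π = 1 := by
    rw [hπ, map_sub, pderiv_X_self, pderiv_C, sub_zero]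
  have hdπ : ∀ p, pderiv (κ p) π = 0 := by
    intro p
    have hne : i0 ≠ κ p := by
      rintro rfl
      exact hi0 (hκ p)
    rw [hπ, map_sub, pderiv_X_of_ne hne, pderiv_C, sub_zero]
  have claim3 : ∀ N : ℕ, π ^ (N + 1) ∣ Ψ := by
    intro N
    induction N with
    | zero =>
      rw [zero_add, pow_one]
      apply claim1'
      rw [hΨ, claim2, hQ]
    | succ N ih =>
      obtain ⟨Y, hY⟩ := ih
      have h1 : pderiv i0 Ψ = π ^ N * ((N + 1 : ℕ) * Y + π * pderiv i0 Y) := by
        rw [hY, pderiv_mul, pderiv_pow, hdπ0, Nat.add_sub_cancel]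
        ring
      have h2 : ∀ p, pderiv (κ p) Ψ = π ^ N * (π * pderiv (κ p) Y) := by
        intro p
        rw [hY, pderiv_mul, pderiv_pow, hdπ, Nat.add_sub_cancel]
        ring
      have h3 : π ^ N * (hyb a j (insert i0 Z) μ * ((N + 1 : ℕ) * Y + π * pderiv i0 Y)) =
          π ^ N * (π * ∑ p, hyb a j (insert i0 Z) (m p) * pderiv (κ p) Y) := by
        rw [h1] at hpde'
        simp only [h2] at hpde'
        rw [Finset.mul_sum, Finset.mul_sum]
        calc π ^ N * (hyb a j (insert i0 Z) μ * ((N + 1 : ℕ) * Y + π * pderiv i0 Y))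
            = hyb a j (insert i0 Z) μ * (π ^ N * ((N + 1 : ℕ) * Y + π * pderiv i0 Y)) := by ring
          _ = _ := hpde'
          _ = _ := by
            apply Finset.sum_congr rfl
            intro p _
            ring
      have h4 := mul_left_cancel₀ (pow_ne_zero N hπ0) h3
      have h5 := congrArg ε h4
      rw [map_mul, claim2, map_add, map_mul, map_mul, hεπ, zero_mul, add_zero, map_mul, hεπ,
        zero_mul] at h5
      have h6 : ε Y = 0 := by
        rcases mul_eq_zero.1 h5 with h | h
        · exact absurd h hμ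
        · rcases mul_eq_zero.1 h with h | h
          · exfalso
            rw [map_natCast] at h
            exact Nat.succ_ne_zero N (by exact_mod_cast h)
          · exact h
      obtain ⟨W, hW⟩ := claim1' Y h6
      exact ⟨W, by rw [hY, hW]; ring⟩
  by_contra hne
  have h1 := totalDegree_le_of_dvd_of_isDomain (claim3 Ψ.totalDegree) hne
  have h2 : ∀ N : ℕ, N ≤ (π ^ N).totalDegree := by
    intro N
    induction N with
    | zero => simp
    | succ N ih =>
      rw [pow_succ, totalDegree_mul_of_isDomain (pow_ne_zero _ hπ0) hπ0]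
      have h3 : 1 ≤ π.totalDegree := by
        have h4 : coeff (Finsupp.single i0 1) π ≠ 0 := by
          rw [hcoef]; exact one_ne_zero
        have h5 := le_totalDegree (mem_support_iff.2 h4)
        simpa using h5
      omega
  have := h2 (Ψ.totalDegree + 1)
  omega

end

end Pool.Agent.H530R2
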