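import Mathlib
import Pool.Agent.H530R2.Hyb
import Pool.Agent.H530R2.LinAlg

/-!
Families of polynomials, their gradients, controlled polynomials and the Cramer relation.
-/

namespace Pool.Agent.H530R2

open MvPolynomial Module

section

variable {F : Type*} [Field F] {n : ℕ}

theorem pderiv_comm' (k l : Fin n) (P : MvPolynomial (Fin n) F) :
    pderiv k (pderiv l P) = pderiv l (pderiv k P) := by
  classical
  have h : ⁅(pderiv k : Derivation F (MvPolynomial (Fin n) F) (MvPolynomial (Fin n) F)),
      (pderiv l : Derivation F (MvPolynomial (Fin n) F) (MvPolynomial (Fin n) F))⁆ = 0 := by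
    apply MvPolynomial.derivation_ext
    intro i
    rw [Derivation.commutator_apply, pderiv_X, pderiv_X]
    have h1 : ∀ (u v : Fin n), (pderiv u) ((Pi.single v (1 : MvPolynomial (Fin n) F) :
        Fin n → MvPolynomial (Fin n) F) i) = 0 := by
      intro u v
      rw [Pi.single_apply]
      split_ifs <;> simp
    rw [h1, h1, sub_zero]
    rfl
  have h2 : (⁅(pderiv k : Derivation F (MvPolynomial (Fin n) F) (MvPolynomial (Fin n) F)),
      (pderiv l : Derivation F (MvPolynomial (Fin n) F) (MvPolynomial (Fin n) F))⁆) P = 0 := by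
    rw [h]; rfl
  rw [Derivation.commutator_apply] at h2
  exact sub_eq_zero.1 h2

/-- the gradient data of the family `J` -/
noncomputable def dv {ι : Type} (J : ι → MvPolynomial (Fin n) F) (k : Fin n) :
    ι → FractionRing (MvPolynomial (Fin n) F) :=
  fun i => algebraMap _ _ (pderiv k (J i))

/-- span of the derivatives in the directions of `S` -/
noncomputable def sp {ι : Type} (S : Finset (Fin n)) (J : ι → MvPolynomial (Fin n) F) :
    Submodule (FractionRing (MvPolynomial (Fin n) F))
      (ι → FractionRing (MvPolynomial (Fin n) F)) :=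
  Submodule.span _ (dv J '' (S : Set (Fin n)))

/-- rank of the derivatives in the directions of `S` -/
noncomputable def er {ι : Type} (S : Finset (Fin n)) (J : ι → MvPolynomial (Fin n) F) : ℕ :=
  finrank (FractionRing (MvPolynomial (Fin n) F)) (sp S J)

theorem er_le_card {ι : Type} [Fintype ι] (S : Finset (Fin n))
    (J : ι → MvPolynomial (Fin n) F) : er S J ≤ Fintype.card ι := by
  unfold er
  exact (Submodule.finrank_le _).trans (le_of_eq (Module.finrank_fintype_fun_eq_card _))

theorem er_mono {ι : Type} [Fintype ι] {S S' : Finset (Fin n)} (h : S ⊆ S')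
    (J : ι → MvPolynomial (Fin n) F) : er S J ≤ er S' J := by
  unfold er sp
  exact Submodule.finrank_mono (Submodule.span_mono (Set.image_mono (by exact_mod_cast h)))

/-- `Q` is controlled by the family `J` in the directions `T` -/
def Ctrl {ι : Type} [Fintype ι] (T : Set (Fin n)) (J : ι → MvPolynomial (Fin n) F)
    (Q : MvPolynomial (Fin n) F) : Prop :=
  ∃ u : ι → MvPolynomial (Fin n) F, ∀ k ∈ T, pderiv k Q = ∑ i, u i * pderiv k (J i)

theorem Ctrl.mono {ι : Type} [Fintype ι] {T T' : Set (Fin n)} (h : T' ⊆ T)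
    {J : ι → MvPolynomial (Fin n) F} {Q : MvPolynomial (Fin n) F} (hQ : Ctrl T J Q) :
    Ctrl T' J Q := by
  obtain ⟨u, hu⟩ := hQ
  exact ⟨u, fun k hk => hu k (h hk)⟩

theorem Ctrl.trans {ι ι' : Type} [Fintype ι] [Fintype ι'] {T : Set (Fin n)}
    {J : ι → MvPolynomial (Fin n) F} {J' : ι' → MvPolynomial (Fin n) F}
    {Q : MvPolynomial (Fin n) F} (hJ : ∀ i, Ctrl T J (J' i)) (hQ : Ctrl T J' Q) :
    Ctrl T J Q := by
  choose u hu using hJ
  obtain ⟨v, hv⟩ := hQ
  refine ⟨fun i => ∑ i', v i' * u i' i, fun k hk => ?_⟩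
  rw [hv k hk]
  simp only [Finset.sum_mul]
  rw [Finset.sum_comm]
  apply Finset.sum_congr rfl
  intro i' _
  rw [hu i' k hk, Finset.mul_sum]
  apply Finset.sum_congr rfl
  intro i _
  ring

theorem ctrl_of_adjoin {ι : Type} [Fintype ι] {W : Set (Fin n)}
    {J : ι → MvPolynomial (Fin n) F} {Q : MvPolynomial (Fin n) F}
    (h : Q ∈ Algebra.adjoin F (Set.range J ∪ X '' W)) : Ctrl Wᶜ J Q := by
  classical
  induction h using Algebra.adjoin_induction with
  | mem x hx =>
    rcases hx with ⟨i, rfl⟩ | ⟨l, hl, rfl⟩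
    · refine ⟨Pi.single i 1, fun k _ => ?_⟩
      rw [Finset.sum_eq_single i]
      · simp
      · intro b _ hb
        rw [Pi.single_eq_of_ne hb, zero_mul]
      · intro h; exact absurd (Finset.mem_univ _) h
    · refine ⟨0, fun k hk => ?_⟩
      rw [pderiv_X_of_ne]
      · simp
      · rintro rfl
        exact hk hl
  | algebraMap r =>
    refine ⟨0, fun k _ => ?_⟩
    have : (algebraMap F (MvPolynomial (Fin n) F)) r = C r := rfl
    rw [this, pderiv_C]
    simp
  | add x y _ _ hx hy =>
    obtain ⟨u, hu⟩ := hx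
    obtain ⟨v, hv⟩ := hy
    refine ⟨u + v, fun k hk => ?_⟩
    rw [map_add, hu k hk, hv k hk, ← Finset.sum_add_distrib]
    apply Finset.sum_congr rfl
    intro i _
    rw [Pi.add_apply, add_mul]
  | mul x y _ _ hx hy =>
    obtain ⟨u, hu⟩ := hx
    obtain ⟨v, hv⟩ := hy
    refine ⟨fun i => y * u i + x * v i, fun k hk => ?_⟩
    rw [pderiv_mul, hu k hk, hv k hk]
    simp only [add_mul, Finset.sum_add_distrib, Finset.mul_sum, Finset.sum_mul]
    congr 1
    · apply Finset.sum_congr rfl
      intro i _
      ring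
    · apply Finset.sum_congr rfl
      intro i _
      ring

/-- derivations preserve subalgebras if they do so on generators -/
theorem pderiv_mem_of_adjoin {s : Set (MvPolynomial (Fin n) F)}
    {T : Subalgebra F (MvPolynomial (Fin n) F)} (k : Fin n) (hs : ∀ x ∈ s, x ∈ T)
    (hd : ∀ x ∈ s, pderiv k x ∈ T) {y : MvPolynomial (Fin n) F}
    (hy : y ∈ Algebra.adjoin F s) : pderiv k y ∈ T := by
  have hle : Algebra.adjoin F s ≤ T := Algebra.adjoin_le hs
  induction hy using Algebra.adjoin_induction with
  | mem x hx => exact hd x hx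
  | algebraMap r =>
    have : (algebraMap F (MvPolynomial (Fin n) F)) r = C r := rfl
    rw [this, pderiv_C]
    exact T.zero_mem
  | add x y _ _ hx hy => rw [map_add]; exact T.add_mem hx hy
  | mul x y hx' hy' hx hy =>
    rw [pderiv_mul]
    exact T.add_mem (T.mul_mem hx (hle hy')) (T.mul_mem (hle hx') hy)

theorem pderiv_X_mem (T : Subalgebra F (MvPolynomial (Fin n) F)) (k l : Fin n) :
    pderiv k (X l : MvPolynomial (Fin n) F) ∈ T := by
  classical
  rw [pderiv_X]
  by_cases h : k = l
  · subst h; simp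
  · rw [Pi.single_eq_of_ne' h]; exact T.zero_mem

theorem pderiv_mem_supported (k : Fin n) {s : Set (Fin n)} {y : MvPolynomial (Fin n) F}
    (hy : y ∈ supported F s) : pderiv k y ∈ supported F s := by
  refine pderiv_mem_of_adjoin (s := X '' s) k ?_ ?_ hy
  · rintro _ ⟨i, hi, rfl⟩
    exact (X_mem_supported).2 hi
  · rintro _ ⟨i, hi, rfl⟩
    exact pderiv_X_mem _ _ _

/-- Cramer relation for a dependent direction. -/
theorem cramer_rel {ι : Type} [Fintype ι] {S : Finset (Fin n)}
    {J : ι → MvPolynomial (Fin n) F} {i0 : Fin n} (h : dv J i0 ∈ sp S J) :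
    ∃ (ρ : ℕ) (κ : Fin ρ → Fin n) (g : Fin ρ → ι) (m : Fin ρ → MvPolynomial (Fin n) F),
      ρ ≤ Fintype.card ι ∧ (∀ q, κ q ∈ S) ∧
      (Matrix.of fun q l => pderiv (κ q) (J (g l))).det ≠ 0 ∧
      ∀ i, (Matrix.of fun q l => pderiv (κ q) (J (g l))).det * pderiv i0 (J i) =
        ∑ q, m q * pderiv (κ q) (J i) := by
  classical
  set K := FractionRing (MvPolynomial (Fin n) F) with hK
  obtain ⟨f, hf, hfspan, hfli⟩ := Submodule.exists_fun_fin_finrank_span_eq K
    (dv J '' (S : Set (Fin n)))
  choose κ hκS hκ using hf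
  obtain ⟨g, hg⟩ := exists_minor_ne_zero f hfli
  set φ := algebraMap (MvPolynomial (Fin n) F) K with hφ
  have hinj : Function.Injective φ := IsFractionRing.injective _ K
  set Z := (Matrix.of fun q l => pderiv (κ q) (J (g l))) with hZ
  have hZmap : (Matrix.of fun i l => f i (g l)) = Z.map φ := by
    ext i l
    simp only [Matrix.of_apply, Matrix.map_apply, hZ, ← hκ i]
    rfl
  have hdet : φ Z.det = (Z.map φ).det := by
    rw [← RingHom.mapMatrix_apply, ← RingHom.map_det]
  have hZ0 : Z.det ≠ 0 := by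
    intro h0
    apply hg
    rw [hZmap, ← hdet, h0, map_zero]
  have hmem : dv J i0 ∈ Submodule.span K (Set.range f) := by
    rw [hfspan]; exact h
  obtain ⟨c, hc⟩ := (Submodule.mem_span_range_iff_exists_fun K).1 hmem
  set m : Fin _ → MvPolynomial (Fin n) F :=
    Matrix.vecMul (fun l => pderiv i0 (J (g l))) Z.adjugate with hm
  have hcZ : Matrix.vecMul c (Z.map φ) = fun l => φ (pderiv i0 (J (g l))) := by
    funext l
    have := congrFun hc (g l)
    simp only [Finset.sum_apply, Pi.smul_apply, smul_eq_mul] at this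
    rw [← hZmap]
    simp only [Matrix.vecMul, dotProduct, Matrix.of_apply]
    rw [this]
    rfl
  have hmc : ∀ i, φ (m i) = φ Z.det * c i := by
    intro i
    have h1 : Matrix.vecMul (fun l => φ (pderiv i0 (J (g l)))) (Z.map φ).adjugate =
        (Z.map φ).det • c := by
      rw [← hcZ, Matrix.vecMul_vecMul, Matrix.mul_adjugate, Matrix.vecMul_smul,
        Matrix.vecMul_one]
    have h3 : (Z.map φ).adjugate = Z.adjugate.map φ := by
      have := RingHom.map_adjugate φ Z
      simpa [RingHom.mapMatrix_apply] using this.symm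
    have h4 := congrFun h1 i
    rw [← hdet, h3] at h4
    simp only [Pi.smul_apply, smul_eq_mul] at h4
    rw [← h4, hm]
    simp [Matrix.vecMul, dotProduct, map_sum]
  refine ⟨_, κ, g, m, ?_, hκS, hZ0, ?_⟩
  · exact (Submodule.finrank_le _).trans (le_of_eq (Module.finrank_fintype_fun_eq_card _))
  · intro i
    apply hinj
    rw [map_mul, map_sum]
    have := congrFun hc i
    simp only [Finset.sum_apply, Pi.smul_apply, smul_eq_mul] at this
    have h5 : φ (pderiv i0 (J i)) = ∑ q, c q * f q i := this.symm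
    rw [h5, Finset.mul_sum]
    apply Finset.sum_congr rfl
    intro q _
    rw [map_mul, hmc q, ← hκ q]
    simp only [dv]
    ring

end

end Pool.Agent.H530R2
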