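import Mathlib
import Pool.Agent.H530R2.Jet1

/-!
Systems of polynomials evolving with a read-once input, prolongation by derivatives, and the
decoupling theorem for them.
-/

namespace Pool.Agent.H530R2

open MvPolynomial Module

section

variable {F : Type*} [Field F] {n : ℕ}

/-- the variables at positions less than `t` in the order `σ` -/
def Zs (σ : Equiv.Perm (Fin n)) (t : ℕ) : Finset (Fin n) :=
  Finset.univ.filter fun i => (σ.symm i).val < t

theorem mem_Zs {σ : Equiv.Perm (Fin n)} {t : ℕ} {i : Fin n} :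
    i ∈ Zs σ t ↔ (σ.symm i).val < t := by
  simp [Zs]

theorem Zs_zero (σ : Equiv.Perm (Fin n)) : Zs σ 0 = ∅ := by
  ext i; simp [mem_Zs]

theorem Zs_last (σ : Equiv.Perm (Fin n)) : Zs σ n = Finset.univ := by
  ext i; simp [mem_Zs]

theorem Zs_mono {σ : Equiv.Perm (Fin n)} {t t' : ℕ} (h : t ≤ t') : Zs σ t ⊆ Zs σ t' := by
  intro i hi
  rw [mem_Zs] at hi ⊢
  omega

theorem not_mem_Zs (σ : Equiv.Perm (Fin n)) {t b : ℕ} (h : b < n) (htb : t ≤ b) :
    σ ⟨b, h⟩ ∉ Zs σ t := by
  rw [mem_Zs]; simp; omega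

theorem Zs_succ (σ : Equiv.Perm (Fin n)) {t : ℕ} (h : t < n) :
    Zs σ (t + 1) = insert (σ ⟨t, h⟩) (Zs σ t) := by
  ext i
  rw [Finset.mem_insert, mem_Zs, mem_Zs]
  constructor
  · intro hi
    by_cases h1 : (σ.symm i).val = t
    · left
      rw [← σ.apply_symm_apply i]
      congr 1
      exact Fin.ext h1
    · right; omega
  · rintro (rfl | hi)
    · simp
    · omega

/-- A family `J b i` of polynomials evolving with a read-once input in the order `σ`; `p` is the
base family, which controls the loss of rank. -/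
structure Sys (σ : Equiv.Perm (Fin n)) {ι₀ : Type} (p : ℕ → ι₀ → MvPolynomial (Fin n) F)
    {ι : Type} (J : ℕ → ι → MvPolynomial (Fin n) F) : Prop where
  supp : ∀ b i, J b i ∈ supported F (Zs σ b : Set (Fin n))
  stepm : ∀ b (hb : b < n) i, J (b + 1) i ∈
    Algebra.adjoin F (Set.range (J b) ∪ X '' {σ ⟨b, hb⟩})
  etale : ∀ t c b, t ≤ c → c ≤ b → b ≤ n → er (Zs σ t) (p c) = er (Zs σ t) (p b) →
    ∀ γ : Fin n → MvPolynomial (Fin n) F, (∀ k, k ∉ Zs σ t → γ k = 0) →
      (∀ i, ∑ k, γ k * pderiv k (J b i) = 0) → ∀ i, ∑ k, γ k * pderiv k (J c i) = 0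

/-- prolongation by derivatives in the directions `κ` -/
noncomputable def prol {ρ : ℕ} (κ : Fin ρ → Fin n) {ι : Type}
    (J : ℕ → ι → MvPolynomial (Fin n) F) : ℕ → (ι ⊕ Fin ρ × ι) → MvPolynomial (Fin n) F :=
  fun b => Sum.elim (J b) (fun q => pderiv (κ q.1) (J b q.2))

theorem Sys.prol {σ : Equiv.Perm (Fin n)} {ι₀ : Type} {p : ℕ → ι₀ → MvPolynomial (Fin n) F}
    {ι : Type} {J : ℕ → ι → MvPolynomial (Fin n) F} (h : Sys σ p J) {ρ : ℕ}
    (κ : Fin ρ → Fin n) : Sys σ p (prol κ J) where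
  supp := by
    rintro b (i | ⟨q, i⟩)
    · exact h.supp b i
    · exact pderiv_mem_supported _ (h.supp b i)
  stepm := by
    intro b hb
    have hmono : Algebra.adjoin F (Set.range (J b) ∪ X '' {σ ⟨b, hb⟩}) ≤
        Algebra.adjoin F (Set.range (Pool.Agent.H530R2.prol κ J b) ∪ X '' {σ ⟨b, hb⟩}) := by
      apply Algebra.adjoin_mono
      apply Set.union_subset_union_left
      rintro _ ⟨i, rfl⟩
      exact ⟨Sum.inl i, rfl⟩
    rintro (i | ⟨q, i⟩)
    · exact hmono (h.stepm b hb i)
    · refine pderiv_mem_of_adjoin (κ q) ?_ ?_ (h.stepm b hb i)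
      · intro x hx
        exact hmono (Algebra.subset_adjoin hx)
      · rintro x (⟨i', rfl⟩ | ⟨l, _, rfl⟩)
        · exact Algebra.subset_adjoin (Or.inl ⟨Sum.inr (q, i'), rfl⟩)
        · exact pderiv_X_mem _ _ _
  etale := by
    intro t c b htc hcb hbn her γ hγ hrel
    have hb1 : ∀ i, ∑ k, γ k * pderiv k (J b i) = 0 := fun i => hrel (Sum.inl i)
    have hb2 : ∀ q i, ∑ k, γ k * pderiv k (pderiv (κ q) (J b i)) = 0 :=
      fun q i => hrel (Sum.inr (q, i))
    have hc1 := h.etale t c b htc hcb hbn her γ hγ hb1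
    have hleib : ∀ (l : Fin n) (P : MvPolynomial (Fin n) F),
        pderiv l (∑ k, γ k * pderiv k P) =
          ∑ k, (pderiv l (γ k)) * pderiv k P + ∑ k, γ k * pderiv k (pderiv l P) := by
      intro l P
      rw [map_sum, ← Finset.sum_add_distrib]
      apply Finset.sum_congr rfl
      intro k _
      rw [pderiv_mul, pderiv_comm' l k]
    rintro (i | ⟨q, i⟩)
    · exact hc1 i
    · show ∑ k, γ k * pderiv k (pderiv (κ q) (J c i)) = 0
      have h1 : ∀ i, ∑ k, (pderiv (κ q) (γ k)) * pderiv k (J b i) = 0 := by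
        intro i
        have h2 := hleib (κ q) (J b i)
        rw [hb1 i, map_zero, hb2 q i, add_zero] at h2
        exact h2.symm
      have h3 := h.etale t c b htc hcb hbn her (fun k => pderiv (κ q) (γ k))
        (fun k hk => by simp only [hγ k hk, map_zero]) h1 i
      have h4 := hleib (κ q) (J c i)
      rw [hc1 i, map_zero, h3, zero_add] at h4
      exact h4.symm

theorem adjoin_chain {σ : Equiv.Perm (Fin n)} {ι : Type} {J : ℕ → ι → MvPolynomial (Fin n) F}
    (hst : ∀ b (hb : b < n) i, J (b + 1) i ∈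
      Algebra.adjoin F (Set.range (J b) ∪ X '' {σ ⟨b, hb⟩})) {c b : ℕ} (hcb : c ≤ b)
    (hbn : b ≤ n) (i : ι) :
    J b i ∈ Algebra.adjoin F (Set.range (J c) ∪ X '' {k | k ∉ Zs σ c}) := by
  induction b, hcb using Nat.le_induction generalizing i with
  | base => exact Algebra.subset_adjoin (Or.inl ⟨i, rfl⟩)
  | succ b hcb ih =>
    refine (Algebra.adjoin_le ?_) (hst b (by omega) i)
    rintro x (⟨i', rfl⟩ | ⟨l, hl, rfl⟩)
    · exact ih (by omega) i'
    · refine Algebra.subset_adjoin (Or.inr ⟨l, ?_, rfl⟩)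
      rw [Set.mem_singleton_iff] at hl
      subst hl
      exact not_mem_Zs σ _ hcb

theorem ctrl_chain {σ : Equiv.Perm (Fin n)} {ι : Type} [Fintype ι]
    {J : ℕ → ι → MvPolynomial (Fin n) F}
    (hst : ∀ b (hb : b < n) i, J (b + 1) i ∈
      Algebra.adjoin F (Set.range (J b) ∪ X '' {σ ⟨b, hb⟩})) {c b : ℕ} (hcb : c ≤ b)
    (hbn : b ≤ n) (i : ι) :
    Ctrl (Zs σ c : Set (Fin n)) (J c) (J b i) := by
  refine (ctrl_of_adjoin (adjoin_chain hst hcb hbn i)).mono ?_
  intro k hk
  simpa using hk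

/-- the linear map relating derivatives at two times -/
theorem exists_linear {σ : Equiv.Perm (Fin n)} {ι : Type} [Fintype ι]
    {J : ℕ → ι → MvPolynomial (Fin n) F}
    (hst : ∀ b (hb : b < n) i, J (b + 1) i ∈
      Algebra.adjoin F (Set.range (J b) ∪ X '' {σ ⟨b, hb⟩})) {c b : ℕ} (hcb : c ≤ b)
    (hbn : b ≤ n) :
    ∃ L : (ι → FractionRing (MvPolynomial (Fin n) F)) →ₗ[FractionRing (MvPolynomial (Fin n) F)]
      (ι → FractionRing (MvPolynomial (Fin n) F)),
      ∀ k ∈ Zs σ c, dv (J b) k = L (dv (J c) k) := by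
  classical
  choose u hu using fun i => ctrl_chain hst hcb hbn i
  refine ⟨Matrix.toLin' (Matrix.of fun i i' => algebraMap _ _ (u i i')), fun k hk => ?_⟩
  funext i
  simp only [dv, Matrix.toLin'_apply, Matrix.mulVec, dotProduct, Matrix.of_apply]
  rw [hu i k (by exact_mod_cast hk), map_sum]
  apply Finset.sum_congr rfl
  intro i' _
  rw [map_mul]

theorem sp_map {σ : Equiv.Perm (Fin n)} {ι : Type} [Fintype ι]
    {J : ℕ → ι → MvPolynomial (Fin n) F} {c b : ℕ}
    {L : (ι → FractionRing (MvPolynomial (Fin n) F)) →ₗ[FractionRing (MvPolynomial (Fin n) F)]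
      (ι → FractionRing (MvPolynomial (Fin n) F))}
    (hL : ∀ k ∈ Zs σ c, dv (J b) k = L (dv (J c) k)) {S : Finset (Fin n)} (hS : S ⊆ Zs σ c) :
    sp S (J b) = (sp S (J c)).map L := by
  unfold sp
  rw [Submodule.map_span, ← Set.image_comp]
  congr 1
  apply Set.image_congr
  intro k hk
  exact hL k (hS (by exact_mod_cast hk))

theorem er_anti {σ : Equiv.Perm (Fin n)} {ι : Type} [Fintype ι]
    {J : ℕ → ι → MvPolynomial (Fin n) F}
    (hst : ∀ b (hb : b < n) i, J (b + 1) i ∈
      Algebra.adjoin F (Set.range (J b) ∪ X '' {σ ⟨b, hb⟩})) {c b : ℕ} (hcb : c ≤ b)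
    (hbn : b ≤ n) {S : Finset (Fin n)} (hS : S ⊆ Zs σ c) : er S (J b) ≤ er S (J c) := by
  obtain ⟨L, hL⟩ := exists_linear hst hcb hbn
  unfold er
  rw [sp_map hL hS]
  exact Submodule.finrank_map_le _ _

theorem injOn_of_finrank_map {K V W : Type*} [Field K] [AddCommGroup V] [Module K V]
    [AddCommGroup W] [Module K W] (L : V →ₗ[K] W) (U : Submodule K V) [FiniteDimensional K U]
    (h : finrank K (U.map L) = finrank K U) (v : V) (hv : v ∈ U) (h0 : L v = 0) : v = 0 := by
  have h1 := LinearMap.finrank_range_add_finrank_ker (L.domRestrict U)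
  have h2 : LinearMap.range (L.domRestrict U) = U.map L := LinearMap.range_domRestrict U L
  rw [h2, h] at h1
  have h3 : finrank K (LinearMap.ker (L.domRestrict U)) = 0 := by omega
  have h4 := Submodule.finrank_eq_zero.1 h3
  have h5 : (⟨v, hv⟩ : U) ∈ LinearMap.ker (L.domRestrict U) := by
    rw [LinearMap.mem_ker, LinearMap.domRestrict_apply]
    exact h0
  rw [h4, Submodule.mem_bot] at h5
  exact congrArg Subtype.val h5

/-- relations over the polynomial ring and vectors over the fraction field -/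
theorem rel_iff {ι : Type} (J : ι → MvPolynomial (Fin n) F)
    (γ : Fin n → MvPolynomial (Fin n) F) :
    (∀ i, ∑ k, γ k * pderiv k (J i) = 0) ↔
      ∑ k, (algebraMap _ (FractionRing (MvPolynomial (Fin n) F)) (γ k)) • dv J k = 0 := by
  constructor
  · intro h
    funext i
    have h1 := congrArg (algebraMap _ (FractionRing (MvPolynomial (Fin n) F))) (h i)
    rw [map_sum, map_zero] at h1
    simp only [Finset.sum_apply, Pi.smul_apply, smul_eq_mul, Pi.zero_apply, dv]
    rw [← h1]
    apply Finset.sum_congr rfl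
    intro k _
    rw [map_mul]
  · intro h i
    have h1 := congrFun h i
    simp only [Finset.sum_apply, Pi.smul_apply, smul_eq_mul, Pi.zero_apply, dv] at h1
    apply IsFractionRing.injective (MvPolynomial (Fin n) F)
      (FractionRing (MvPolynomial (Fin n) F))
    rw [map_sum, map_zero, ← h1]
    apply Finset.sum_congr rfl
    intro k _
    rw [map_mul]

/-- the base family is a system over itself -/
theorem Sys.base {σ : Equiv.Perm (Fin n)} {ι : Type} [Fintype ι]
    {p : ℕ → ι → MvPolynomial (Fin n) F}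
    (hsupp : ∀ b i, p b i ∈ supported F (Zs σ b : Set (Fin n)))
    (hst : ∀ b (hb : b < n) i, p (b + 1) i ∈
      Algebra.adjoin F (Set.range (p b) ∪ X '' {σ ⟨b, hb⟩})) : Sys σ p p where
  supp := hsupp
  stepm := hst
  etale := by
    intro t c b htc hcb hbn her γ hγ hrel
    obtain ⟨L, hL⟩ := exists_linear hst hcb hbn
    rw [rel_iff] at hrel ⊢
    have hS : Zs σ t ⊆ Zs σ c := Zs_mono htc
    have hmem : ∑ k, (algebraMap _ (FractionRing (MvPolynomial (Fin n) F)) (γ k)) •
        dv (p c) k ∈ sp (Zs σ t) (p c) := by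
      refine Submodule.sum_mem _ fun k _ => ?_
      by_cases hk : k ∈ Zs σ t
      · exact Submodule.smul_mem _ _ (Submodule.subset_span ⟨k, by exact_mod_cast hk, rfl⟩)
      · rw [hγ k hk, map_zero, zero_smul]
        exact Submodule.zero_mem _
    refine injOn_of_finrank_map L (sp (Zs σ t) (p c)) ?_ _ hmem ?_
    · rw [← sp_map hL hS]
      exact her.symm
    · rw [map_sum, ← hrel]
      apply Finset.sum_congr rfl
      intro k _
      rw [LinearMap.map_smul]
      by_cases hk : k ∈ Zs σ t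
      · rw [hL k (hS hk)]
      · rw [hγ k hk, map_zero, zero_smul, zero_smul]

end

end Pool.Agent.H530R2
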