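import Mathlib
import Pool.Agent.H530R2.Jet2
import Pool.Agent.H530R2.Decouple

/-!
The decoupling theorem for products of matrices in separate variables, with a cost polynomial
in the width.
-/

namespace Pool.Agent.H530R2

open Module

/-- the cost function of the linear decoupling theorem -/
def lcost (w : ℕ) : ℕ → ℕ
  | 0 => 0
  | s + 1 => lcost w s + w * (w - s) + 2

theorem lcost_le_succ (w s : ℕ) : lcost w s ≤ lcost w (s + 1) := by
  simp only [lcost]; omega

section

variable {F : Type*} [Field F] {n : ℕ} {w : ℕ}

/-- entries of a product of consecutive layers -/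
noncomputable def en (σ : Equiv.Perm (Fin n)) (N : ℕ → Matrix (Fin w) (Fin w) (Polynomial F))
    (s m : ℕ) : Fin w × Fin w → MvPolynomial (Fin n) F :=
  fun q => Pr (pv σ) N s m q.1 q.2

/-- variables at positions in `[s, t)` generate the entries -/
theorem en_mem (σ : Equiv.Perm (Fin n)) (N : ℕ → Matrix (Fin w) (Fin w) (Polynomial F))
    (s m : ℕ) (q : Fin w × Fin w) :
    en σ N s m q ∈ Algebra.adjoin F
      (MvPolynomial.X '' {k : Fin n | s ≤ (σ.symm k).val ∧ (σ.symm k).val < s + m} :
        Set (MvPolynomial (Fin n) F)) := by
  unfold en
  obtain ⟨i, j⟩ := q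
  simp only
  induction m generalizing i j with
  | zero =>
    rw [Pr_zero, Matrix.one_apply]
    split_ifs
    · exact Subalgebra.one_mem _
    · exact Subalgebra.zero_mem _
  | succ m ih =>
    rw [Pr_succ, Matrix.mul_apply]
    refine Subalgebra.sum_mem _ fun l _ => Subalgebra.mul_mem _ ?_ ?_
    · refine Algebra.adjoin_mono ?_ (ih i l)
      apply Set.image_mono
      intro k hk
      simp only [Set.mem_ofPred_eq] at hk ⊢
      omega
    · unfold Nh
      rw [Matrix.map_apply]
      by_cases hs : s + m < n
      · have h1 : (pv σ (s + m) : MvPolynomial (Fin n) F) ∈ Algebra.adjoin F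
            (MvPolynomial.X '' {k : Fin n | s ≤ (σ.symm k).val ∧ (σ.symm k).val < s + (m + 1)} :
              Set (MvPolynomial (Fin n) F)) := by
          unfold pv
          rw [dif_pos hs]
          refine Algebra.subset_adjoin ⟨σ ⟨s + m, hs⟩, ?_, rfl⟩
          simp only [Set.mem_ofPred_eq, Equiv.symm_apply_apply]
          omega
        exact (Algebra.adjoin_le (S := Algebra.adjoin F _) (by simpa using h1))
          (Polynomial.aeval_mem_adjoin_singleton F (pv σ (s + m)))
      · have h1 : (pv σ (s + m) : MvPolynomial (Fin n) F) = 0 := by
          unfold pv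
          rw [dif_neg hs]
        rw [h1, Polynomial.aeval_def, Polynomial.eval₂_at_zero]
        exact Subalgebra.algebraMap_mem _ _

theorem en_supp (σ : Equiv.Perm (Fin n)) (N : ℕ → Matrix (Fin w) (Fin w) (Polynomial F))
    (s m : ℕ) (q : Fin w × Fin w) :
    en σ N s m q ∈ MvPolynomial.supported F (Zs σ (s + m) : Set (Fin n)) := by
  refine Algebra.adjoin_mono ?_ (en_mem σ N s m q)
  apply Set.image_mono
  intro k hk
  rw [Finset.mem_coe, mem_Zs]
  exact hk.2

/-- splitting off the right part -/
theorem en_split_left (σ : Equiv.Perm (Fin n)) (N : ℕ → Matrix (Fin w) (Fin w) (Polynomial F))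
    (s m m' : ℕ) (q : Fin w × Fin w) :
    en σ N s (m + m') q ∈ Algebra.adjoin F (Set.range (en σ N s m) ∪
      MvPolynomial.X '' {k : Fin n | k ∉ Zs σ (s + m)}) := by
  unfold en
  rw [Pr_add, Matrix.mul_apply]
  refine Subalgebra.sum_mem _ fun l _ => Subalgebra.mul_mem _ ?_ ?_
  · exact Algebra.subset_adjoin (Or.inl ⟨(q.1, l), rfl⟩)
  · refine Algebra.adjoin_mono ?_ (en_mem σ N (s + m) m' (l, q.2))
    refine (Set.image_mono ?_).trans Set.subset_union_right
    intro k hk
    simp only [Set.mem_ofPred_eq, mem_Zs] at hk ⊢
    omega

/-- splitting off the left part -/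
theorem en_split_right (σ : Equiv.Perm (Fin n)) (N : ℕ → Matrix (Fin w) (Fin w) (Polynomial F))
    (s m m' : ℕ) (q : Fin w × Fin w) :
    en σ N s (m + m') q ∈ Algebra.adjoin F (Set.range (en σ N (s + m) m') ∪
      MvPolynomial.X '' {k : Fin n | k ∈ Zs σ (s + m)}) := by
  unfold en
  rw [Pr_add, Matrix.mul_apply]
  refine Subalgebra.sum_mem _ fun l _ => Subalgebra.mul_mem _ ?_ ?_
  · refine Algebra.adjoin_mono ?_ (en_mem σ N s m (q.1, l))
    refine (Set.image_mono ?_).trans Set.subset_union_right
    intro k hk
    simp only [Set.mem_ofPred_eq, mem_Zs] at hk ⊢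
    omega
  · exact Algebra.subset_adjoin (Or.inl ⟨(l, q.2), rfl⟩)

theorem pderiv_en_zero (σ : Equiv.Perm (Fin n)) (N : ℕ → Matrix (Fin w) (Fin w) (Polynomial F))
    (s m : ℕ) (q : Fin w × Fin w) {k : Fin n} (hk : k ∈ Zs σ s) :
    MvPolynomial.pderiv k (en σ N s m q) = 0 := by
  have h := en_mem σ N s m q
  have hD : Set.EqOn (MvPolynomial.pderiv (R := F) k : MvPolynomial (Fin n) F → _)
      (0 : Derivation F (MvPolynomial (Fin n) F) (MvPolynomial (Fin n) F))
      (MvPolynomial.X '' {k : Fin n | s ≤ (σ.symm k).val ∧ (σ.symm k).val < s + m}) := by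
    rintro _ ⟨l, hl, rfl⟩
    rw [MvPolynomial.pderiv_X_of_ne]
    · rfl
    · rintro rfl
      rw [mem_Zs] at hk
      simp only [Set.mem_ofPred_eq] at hl
      omega
  have := Derivation.eqOn_adjoin hD h
  exact this

/-- derivative of a split product in a left variable -/
theorem pderiv_en_split (σ : Equiv.Perm (Fin n))
    (N : ℕ → Matrix (Fin w) (Fin w) (Polynomial F)) (s m m' : ℕ) (q : Fin w × Fin w)
    {k : Fin n} (hk : k ∈ Zs σ (s + m)) :
    MvPolynomial.pderiv k (en σ N s (m + m') q) =
      ∑ l, MvPolynomial.pderiv k (en σ N s m (q.1, l)) * en σ N (s + m) m' (l, q.2) := by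
  have h1 : en σ N s (m + m') q = ∑ l, en σ N s m (q.1, l) * en σ N (s + m) m' (l, q.2) := by
    unfold en
    rw [Pr_add, Matrix.mul_apply]
  rw [h1, map_sum]
  apply Finset.sum_congr rfl
  intro l _
  rw [MvPolynomial.pderiv_mul, pderiv_en_zero σ N (s + m) m' _ hk, mul_zero, add_zero]

/-- right multiplication on families of entries -/
noncomputable def mulR {K : Type*} [Field K] (G : Matrix (Fin w) (Fin w) K) :
    (Fin w × Fin w → K) →ₗ[K] (Fin w × Fin w → K) where
  toFun v := fun q => ∑ l, v (q.1, l) * G l q.2
  map_add' u v := by
    funext q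
    simp only [Pi.add_apply, add_mul, Finset.sum_add_distrib]
  map_smul' c v := by
    funext q
    simp only [Pi.smul_apply, smul_eq_mul, RingHom.id_apply, Finset.mul_sum, mul_assoc]

theorem finrank_range_mulR {K : Type*} [Field K] (G : Matrix (Fin w) (Fin w) K) :
    finrank K (LinearMap.range (mulR G)) ≤ w * G.rank := by
  classical
  let U : Submodule K (Fin w → K) := LinearMap.range (Matrix.vecMulLinear G)
  have hU : finrank K U = G.rank := by
    have h1 : G.transpose.rank = G.rank := Matrix.rank_transpose G
    have h2 : LinearMap.range (Matrix.vecMulLinear G) = LinearMap.range G.transpose.mulVecLin := by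
      apply le_antisymm
      · rintro _ ⟨v, rfl⟩
        refine ⟨v, ?_⟩
        simp
      · rintro _ ⟨v, rfl⟩
        refine ⟨v, ?_⟩
        simp
    have h3 : U = LinearMap.range G.transpose.mulVecLin := h2
    rw [← h1, h3]
    rfl
  let Θ : (Fin w → U) →ₗ[K] (Fin w × Fin w → K) :=
    { toFun := fun u q => (u q.1 : Fin w → K) q.2
      map_add' := by intro u v; funext q; simp
      map_smul' := by intro c u; funext q; simp }
  have hle : LinearMap.range (mulR G) ≤ LinearMap.range Θ := by
    rintro _ ⟨v, rfl⟩
    refine ⟨fun i => ⟨Matrix.vecMulLinear G (fun l => v (i, l)), ⟨_, rfl⟩⟩, ?_⟩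
    funext q
    simp only [Θ, LinearMap.coe_mk, AddHom.coe_mk, mulR, Matrix.vecMulLinear_apply,
      Matrix.vecMul, dotProduct]
  refine (Submodule.finrank_mono hle).trans ?_
  refine (LinearMap.finrank_range_le Θ).trans ?_
  rw [Module.finrank_pi_fintype]
  simp [hU]

theorem dv_en_split (σ : Equiv.Perm (Fin n)) (N : ℕ → Matrix (Fin w) (Fin w) (Polynomial F))
    (s m m' : ℕ) {k : Fin n} (hk : k ∈ Zs σ (s + m)) :
    dv (en σ N s (m + m')) k = mulR (K := FractionRing (MvPolynomial (Fin n) F))
      ((Pr (pv σ) N (s + m) m').map
      (algebraMap (MvPolynomial (Fin n) F) (FractionRing (MvPolynomial (Fin n) F))))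
      (dv (en σ N s m) k) := by
  funext q
  simp only [dv, mulR, LinearMap.coe_mk, AddHom.coe_mk, Matrix.map_apply]
  rw [pderiv_en_split σ N s m m' q hk, map_sum]
  apply Finset.sum_congr rfl
  intro l _
  rw [map_mul]
  rfl

/-- the bound for the potential -/
theorem er_en_le (σ : Equiv.Perm (Fin n)) (N : ℕ → Matrix (Fin w) (Fin w) (Polynomial F))
    (s m m' : ℕ) {S : Finset (Fin n)} (hS : S ⊆ Zs σ (s + m)) :
    er S (en σ N s (m + m')) ≤ w * rk (pv σ : ℕ → MvPolynomial (Fin n) F) N (s + m) m' := by
  set G := (Pr (pv σ) N (s + m) m').map
      (algebraMap (MvPolynomial (Fin n) F) (FractionRing (MvPolynomial (Fin n) F))) with hG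
  have h1 := finrank_range_mulR (K := FractionRing (MvPolynomial (Fin n) F)) G
  have h2 : sp S (en σ N s (m + m')) ≤ LinearMap.range (mulR G) := by
    unfold sp
    apply Submodule.span_le.2
    rintro _ ⟨k, hk, rfl⟩
    exact ⟨_, (dv_en_split σ N s m m' (hS (by exact_mod_cast hk))).symm⟩
  exact (Submodule.finrank_mono h2).trans h1

/-- The decoupling theorem for products of matrices, with polynomial cost. -/
theorem lin_dec [CharZero F] (a : Fin n → F) (ha : Function.Injective a)
    (σ : Equiv.Perm (Fin n)) (N : ℕ → Matrix (Fin w) (Fin w) (Polynomial F)) (s : ℕ)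
    (hs : s ≤ w) :
    ∀ a' b : ℕ, a' ≤ b → b ≤ n →
      (a' = b ∨ w + 1 ≤ rk (pv σ : ℕ → MvPolynomial (Fin n) F) N a' (b - a') + s) →
      ∀ Q : MvPolynomial (Fin n) F,
      Ctrl ((Zs σ b \ Zs σ a' : Finset (Fin n)) : Set (Fin n)) (en σ N a' (b - a')) Q →
      ∀ j, hyb a (j + lcost w s) (Zs σ a') Q = 0 → hyb a j (Zs σ b) Q = 0 := by
  classical
  induction s with
  | zero =>
    intro a' b hab hbn hor Q hQ j h0
    rcases hor with rfl | h
    · exact hyb_mono a (Nat.le_add_right _ _) _ h0
    · exfalso
      have h2 : rk (pv σ : ℕ → MvPolynomial (Fin n) F) N a' (b - a') ≤ w := by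
        rw [rk_eq]
        refine (Matrix.rank_le_card_width _).trans ?_
        rw [Fintype.card_fin]
      omega
  | succ s ih =>
    have ih' := ih (by omega)
    clear ih
    intro a' b hab hbn hor Q hQ j h0
    by_cases hA : a' = b ∨ w + 1 ≤ rk (pv σ : ℕ → MvPolynomial (Fin n) F) N a' (b - a') + s
    · exact ih' a' b hab hbn hA Q hQ j
        (hyb_mono a (Nat.add_le_add_left (lcost_le_succ w s) j) _ h0)
    push Not at hA
    obtain ⟨hne, hlt⟩ := hA
    have hr : rk (pv σ : ℕ → MvPolynomial (Fin n) F) N a' (b - a') + s = w := by
      rcases hor with h | h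
      · exact absurd h hne
      · omega
    have claim : ∀ d t : ℕ, t + d = b → a' ≤ t → ∀ j,
        hyb a (j + (lcost w s + 2) + (w * (w - s) - er (Zs σ t \ Zs σ a')
          (en (F := F) σ N a' (b - a')))) (Zs σ t) Q = 0 → hyb a j (Zs σ b) Q = 0 := by
      intro d
      induction d with
      | zero =>
        intro t htb hat j h
        have : t = b := by omega
        subst this
        exact hyb_mono a (by omega) _ h
      | succ d ihd =>
        intro t htb hat j h
        have htn : t < n := by omega
        set i0 := σ ⟨t, htn⟩ with hi0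
        have hZ : Zs σ (t + 1) = insert i0 (Zs σ t) := Zs_succ σ htn
        have hi0Z : i0 ∉ Zs σ t := not_mem_Zs σ htn le_rfl
        have hi0Za : i0 ∉ Zs σ a' := not_mem_Zs σ htn hat
        have hi0b : i0 ∈ Zs σ b := by
          rw [mem_Zs, hi0]; simp; omega
        have hsplit : b - a' = (t + 1 - a') + (b - (t + 1)) := by omega
        have hat1 : a' + (t + 1 - a') = t + 1 := by omega
        by_cases hA' : t + 1 = b ∨
            w + 1 ≤ rk (pv σ : ℕ → MvPolynomial (Fin n) F) N (t + 1) (b - (t + 1)) + s
        · have h1 : hyb a (j + lcost w s) (Zs σ (t + 1)) Q = 0 := by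
            rw [hZ]
            apply hyb_free a ha
            exact hyb_mono a (by omega) _ h
          refine ih' (t + 1) b (by omega) hbn hA' Q ?_ j h1
          refine Ctrl.trans (J' := en σ N a' (b - a')) ?_ (hQ.mono ?_)
          · intro q
            rw [hsplit]
            have := ctrl_of_adjoin (en_split_right (F := F) σ N a' (t + 1 - a')
              (b - (t + 1)) q)
            rw [hat1] at this
            refine this.mono ?_
            intro k hk
            rw [Finset.mem_coe, Finset.mem_sdiff] at hk
            simpa using hk.2
          · intro k hk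
            rw [Finset.mem_coe, Finset.mem_sdiff] at hk ⊢
            exact ⟨hk.1, fun hc => hk.2 (Zs_mono (by omega) hc)⟩
        push Not at hA'
        obtain ⟨htb1, hlt1⟩ := hA'
        have hge1 : rk (pv σ : ℕ → MvPolynomial (Fin n) F) N a' (b - a') ≤
            rk (pv σ : ℕ → MvPolynomial (Fin n) F) N (t + 1) (b - (t + 1)) := by
          have := rk_le_right (pv σ : ℕ → MvPolynomial (Fin n) F) N a' (t + 1 - a')
            (b - (t + 1))
          rwa [← hsplit, hat1] at this
        have her1 : rk (pv σ : ℕ → MvPolynomial (Fin n) F) N (t + 1) (b - (t + 1)) + s = w := by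
          omega
        have hrw : rk (pv σ : ℕ → MvPolynomial (Fin n) F) N (t + 1) (b - (t + 1)) = w - s := by
          omega
        by_cases hB : dv (en (F := F) σ N a' (b - a')) i0 ∈
            sp (Zs σ t \ Zs σ a') (en (F := F) σ N a' (b - a'))
        swap
        · -- a jump
          have hlt2 : er (Zs σ t \ Zs σ a') (en (F := F) σ N a' (b - a')) <
              er (Zs σ (t + 1) \ Zs σ a') (en (F := F) σ N a' (b - a')) := by
            unfold er
            apply Submodule.finrank_lt_finrank_of_lt
            rw [SetLike.lt_iff_le_and_exists]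
            refine ⟨?_, dv (en (F := F) σ N a' (b - a')) i0, ?_, hB⟩
            · unfold sp
              apply Submodule.span_mono
              apply Set.image_mono
              intro k hk
              rw [Finset.mem_coe, Finset.mem_sdiff] at hk ⊢
              exact ⟨Zs_mono (by omega) hk.1, hk.2⟩
            · apply Submodule.subset_span
              refine ⟨i0, ?_, rfl⟩
              rw [Finset.mem_coe, Finset.mem_sdiff, hZ]
              exact ⟨Finset.mem_insert_self _ _, hi0Za⟩
          have hle2 : er (Zs σ (t + 1) \ Zs σ a') (en (F := F) σ N a' (b - a')) ≤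
              w * (w - s) := by
            rw [← hrw, hsplit]
            have := er_en_le (F := F) σ N a' (t + 1 - a') (b - (t + 1))
              (S := Zs σ (t + 1) \ Zs σ a') (by rw [hat1]; exact Finset.sdiff_subset)
            rwa [hat1] at this
          refine ihd (t + 1) (by omega) (by omega) j ?_
          rw [hZ]
          rw [hZ] at hlt2 hle2
          apply hyb_free a ha
          exact hyb_mono a (by omega) _ h
        · -- a lossless step
          have hspeq : sp (Zs σ (t + 1) \ Zs σ a') (en (F := F) σ N a' (b - a')) =
              sp (Zs σ t \ Zs σ a') (en (F := F) σ N a' (b - a')) := by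
            apply le_antisymm
            · apply Submodule.span_le.2
              rintro _ ⟨k, hk, rfl⟩
              rw [Finset.mem_coe, Finset.mem_sdiff, hZ, Finset.mem_insert] at hk
              obtain ⟨hk1 | hk1, hk2⟩ := hk
              · rw [hk1]; exact hB
              · exact Submodule.subset_span ⟨k, by
                  rw [Finset.mem_coe, Finset.mem_sdiff]; exact ⟨hk1, hk2⟩, rfl⟩
            · unfold sp
              apply Submodule.span_mono
              apply Set.image_mono
              intro k hk
              rw [Finset.mem_coe, Finset.mem_sdiff] at hk ⊢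
              exact ⟨Zs_mono (by omega) hk.1, hk.2⟩
          have herε : er (Zs σ (t + 1) \ Zs σ a') (en (F := F) σ N a' (b - a')) =
              er (Zs σ t \ Zs σ a') (en (F := F) σ N a' (b - a')) := by
            unfold er
            rw [hspeq]
          -- minimal time with the same rank
          have hex : ∃ c, t + 1 < c ∧
              rk (pv σ : ℕ → MvPolynomial (Fin n) F) N (t + 1) (c - (t + 1)) + s ≤ w :=
            ⟨b, by omega, by omega⟩
          set b' := Nat.find hex with hb'
          have hb'1 : t + 1 < b' := (Nat.find_spec hex).1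
          have hb'2 : rk (pv σ : ℕ → MvPolynomial (Fin n) F) N (t + 1) (b' - (t + 1)) + s ≤ w :=
            (Nat.find_spec hex).2
          have hb'b : b' ≤ b := Nat.find_min' hex ⟨by omega, by omega⟩
          have hb'3 : t + 1 = b' - 1 ∨
              w + 1 ≤ rk (pv σ : ℕ → MvPolynomial (Fin n) F) N (t + 1) (b' - 1 - (t + 1)) + s := by
            by_cases h1 : t + 1 = b' - 1
            · exact Or.inl h1
            · right
              have h2 := Nat.find_min hex (m := b' - 1) (by omega)
              push Not at h2
              have := h2 (by omega)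
              omega
          have hsplit2 : b - (t + 1) = (b' - (t + 1)) + (b - b') := by omega
          have htb' : t + 1 + (b' - (t + 1)) = b' := by omega
          have her2 : rk (pv σ : ℕ → MvPolynomial (Fin n) F) N (t + 1) (b' - (t + 1)) =
              rk (pv σ : ℕ → MvPolynomial (Fin n) F) N (t + 1) (b - (t + 1)) := by
            have := rk_le_left (pv σ : ℕ → MvPolynomial (Fin n) F) N (t + 1) (b' - (t + 1))
              (b - b')
            rw [← hsplit2] at this
            omega
          have hsplit3 : b' - a' = (t + 1 - a') + (b' - (t + 1)) := by omega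
          have hsplit4 : b - a' = (b' - a') + (b - b') := by omega
          have hab' : a' + (b' - a') = b' := by omega
          -- transfer of the dependence
          have hB' : dv (en (F := F) σ N a' (b' - a')) i0 ∈
              sp (Zs σ t \ Zs σ a') (en (F := F) σ N a' (b' - a')) := by
            obtain ⟨G, hG⟩ := exists_right_factor
              (PrK (pv σ : ℕ → MvPolynomial (Fin n) F) N (t + 1) (b' - (t + 1)))
              (PrK (pv σ : ℕ → MvPolynomial (Fin n) F) N b' (b - b')) (by
                have h1 := PrK_add (pv σ : ℕ → MvPolynomial (Fin n) F) N (t + 1)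
                  (b' - (t + 1)) (b - b')
                rw [← hsplit2, htb'] at h1
                rw [← h1, ← rk_eq, ← rk_eq, her2])
            have hmap : ∀ k ∈ Zs σ (t + 1), mulR G (dv (en (F := F) σ N a' (b - a')) k) =
                dv (en (F := F) σ N a' (b' - a')) k := by
              intro k hk
              have hk' : k ∈ Zs σ (a' + (t + 1 - a')) := by rwa [hat1]
              have h1 := dv_en_split (F := F) σ N a' (t + 1 - a') (b - (t + 1)) hk'
              have h2 := dv_en_split (F := F) σ N a' (t + 1 - a') (b' - (t + 1)) hk'
              rw [← hsplit, hat1] at h1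
              rw [← hsplit3, hat1] at h2
              rw [h1, h2]
              have h3 : PrK (pv σ : ℕ → MvPolynomial (Fin n) F) N (t + 1) (b - (t + 1)) * G =
                  PrK (pv σ : ℕ → MvPolynomial (Fin n) F) N (t + 1) (b' - (t + 1)) := by
                have h4 := PrK_add (pv σ : ℕ → MvPolynomial (Fin n) F) N (t + 1)
                  (b' - (t + 1)) (b - b')
                rw [← hsplit2, htb'] at h4
                rw [h4]
                exact hG
              funext q
              have h5 : ∀ l, (PrK (pv σ : ℕ → MvPolynomial (Fin n) F) N (t + 1) (b' - (t + 1)))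
                  l q.2 = ∑ l', (PrK (pv σ : ℕ → MvPolynomial (Fin n) F) N (t + 1)
                    (b - (t + 1))) l l' * G l' q.2 := by
                intro l
                rw [← h3, Matrix.mul_apply]
              simp only [mulR, LinearMap.coe_mk, AddHom.coe_mk]
              have h6 : ∀ l, ((Pr (pv σ : ℕ → MvPolynomial (Fin n) F) N (t + 1)
                  (b' - (t + 1))).map (algebraMap (MvPolynomial (Fin n) F)
                    (FractionRing (MvPolynomial (Fin n) F)))) l q.2 =
                  ∑ l', ((Pr (pv σ : ℕ → MvPolynomial (Fin n) F) N (t + 1)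
                  (b - (t + 1))).map (algebraMap (MvPolynomial (Fin n) F)
                    (FractionRing (MvPolynomial (Fin n) F)))) l l' * G l' q.2 := h5
              simp only [h6, Finset.sum_mul, Finset.mul_sum]
              rw [Finset.sum_comm]
              apply Finset.sum_congr rfl
              intro l _
              apply Finset.sum_congr rfl
              intro l' _
              ring
            rw [← hmap i0 (by rw [hZ]; exact Finset.mem_insert_self _ _)]
            have h7 : sp (Zs σ t \ Zs σ a') (en (F := F) σ N a' (b' - a')) =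
                (sp (Zs σ t \ Zs σ a') (en (F := F) σ N a' (b - a'))).map (mulR G) := by
              unfold sp
              rw [Submodule.map_span, ← Set.image_comp]
              congr 1
              apply Set.image_congr
              intro k hk
              rw [Finset.mem_coe, Finset.mem_sdiff] at hk
              exact (hmap k (Zs_mono (by omega) hk.1)).symm
            rw [h7]
            exact Submodule.mem_map_of_mem hB
          obtain ⟨ρ, κ, g, m, _, hκ, hμ0, hrel⟩ := cramer_rel hB'
          set μ := (Matrix.of fun q l => MvPolynomial.pderiv (κ q)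
            (en (F := F) σ N a' (b' - a') (g l))).det with hμ
          -- the minor does not vanish
          have hnon : hyb a (j + (lcost w s + 2) + (w * (w - s) - er (Zs σ t \ Zs σ a')
              (en (F := F) σ N a' (b - a')))) (Zs σ t) μ ≠ 0 := by
            intro hmem
            apply hμ0
            have h1 : hyb a (1 + lcost w s + 1) (Zs σ t) μ = 0 :=
              hyb_mono a (by omega) _ hmem
            have h2 : hyb a (1 + lcost w s) (Zs σ (t + 1)) μ = 0 := by
              rw [hZ]; exact hyb_free a ha _ _ _ h1
            have hb'n : b' - 1 < n := by omega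
            -- the entries of the minor
            have hent : ∀ q l, MvPolynomial.pderiv (κ q) (en (F := F) σ N a' (b' - a') (g l)) ∈
                Algebra.adjoin F (Set.range (en (F := F) σ N (t + 1) (b' - 1 - (t + 1))) ∪
                  MvPolynomial.X '' {k : Fin n | k ∈ Zs σ (t + 1) ∨ k ∉ Zs σ (b' - 1)}) := by
              intro q l
              have hκq := (Finset.mem_sdiff.1 (hκ q)).1
              have hκ' : κ q ∈ Zs σ (a' + (t + 1 - a')) := by
                rw [hat1]; exact Zs_mono (by omega) hκq
              rw [hsplit3, pderiv_en_split (F := F) σ N a' (t + 1 - a') (b' - (t + 1)) _ hκ']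
              refine Subalgebra.sum_mem _ fun l' _ => Subalgebra.mul_mem _ ?_ ?_
              · have h3 : MvPolynomial.pderiv (κ q) (en (F := F) σ N a' (t + 1 - a')
                    ((g l).1, l')) ∈ MvPolynomial.supported F (Zs σ (t + 1) : Set (Fin n)) := by
                  apply pderiv_mem_supported
                  have := en_supp (F := F) σ N a' (t + 1 - a') ((g l).1, l')
                  rwa [hat1] at this
                refine Algebra.adjoin_mono ?_ h3
                refine (Set.image_mono ?_).trans Set.subset_union_right
                intro k hk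
                exact Or.inl (by exact_mod_cast hk)
              · rw [hat1]
                have h4 : b' - (t + 1) = (b' - 1 - (t + 1)) + 1 := by omega
                rw [h4]
                refine Algebra.adjoin_mono ?_ (en_split_left (F := F) σ N (t + 1)
                  (b' - 1 - (t + 1)) 1 (l', (g l).2))
                apply Set.union_subset_union_right
                apply Set.image_mono
                intro k hk
                right
                have h5 : t + 1 + (b' - 1 - (t + 1)) = b' - 1 := by omega
                rwa [h5] at hk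
            have hμadj : μ ∈ Algebra.adjoin F (Set.range (en (F := F) σ N (t + 1)
                (b' - 1 - (t + 1))) ∪
                  MvPolynomial.X '' {k : Fin n | k ∈ Zs σ (t + 1) ∨ k ∉ Zs σ (b' - 1)}) := by
              rw [hμ, Matrix.det_apply']
              refine Subalgebra.sum_mem _ fun τ _ => Subalgebra.mul_mem _ ?_
                (Subalgebra.prod_mem _ fun i _ => hent _ _)
              exact Subalgebra.intCast_mem _ _
            have hctrl : Ctrl ((Zs σ (b' - 1) \ Zs σ (t + 1) : Finset (Fin n)) : Set (Fin n))
                (en (F := F) σ N (t + 1) (b' - 1 - (t + 1))) μ := by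
              refine (ctrl_of_adjoin hμadj).mono ?_
              intro k hk
              rw [Finset.mem_coe, Finset.mem_sdiff] at hk
              simp only [Set.mem_compl_iff, Set.mem_ofPred_eq, not_or, not_not]
              exact ⟨hk.2, hk.1⟩
            have h3 := ih' (t + 1) (b' - 1) (by omega) (by omega) hb'3 μ hctrl 1 h2
            have h4 : hyb a 0 (Zs σ b') μ = 0 := by
              have := hyb_free a ha 0 (Zs σ (b' - 1)) (σ ⟨b' - 1, hb'n⟩) h3
              rwa [← Zs_succ σ hb'n, Nat.sub_add_cancel (by omega)] at this
            refine hyb_supported_eq_zero a 0 ?_ h4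
            rw [hμ, Matrix.det_apply']
            refine Subalgebra.sum_mem _ fun τ _ => Subalgebra.mul_mem _
              (Subalgebra.intCast_mem _ _) (Subalgebra.prod_mem _ fun i _ => ?_)
            apply pderiv_mem_supported
            have := en_supp (F := F) σ N a' (b' - a') (g i)
            rwa [hab'] at this
          -- the differential relation for `Q`
          have hQ' : Ctrl ((Zs σ b' \ Zs σ a' : Finset (Fin n)) : Set (Fin n))
              (en (F := F) σ N a' (b' - a')) Q := by
            refine Ctrl.trans (J' := en (F := F) σ N a' (b - a')) ?_ ?_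
            · intro q
              rw [hsplit4]
              have := ctrl_of_adjoin (en_split_left (F := F) σ N a' (b' - a') (b - b') q)
              rw [hab'] at this
              refine this.mono ?_
              intro k hk
              rw [Finset.mem_coe, Finset.mem_sdiff] at hk
              simpa using hk.1
            · refine hQ.mono ?_
              intro k hk
              rw [Finset.mem_coe, Finset.mem_sdiff] at hk ⊢
              exact ⟨Zs_mono hb'b hk.1, hk.2⟩
          obtain ⟨u, hu⟩ := hQ'
          have hi0mem : i0 ∈ ((Zs σ b' \ Zs σ a' : Finset (Fin n)) : Set (Fin n)) := by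
            rw [Finset.mem_coe, Finset.mem_sdiff]
            refine ⟨Zs_mono (show t + 1 ≤ b' by omega) ?_, hi0Za⟩
            rw [hZ]; exact Finset.mem_insert_self _ _
          have hκmem : ∀ q, κ q ∈ ((Zs σ b' \ Zs σ a' : Finset (Fin n)) : Set (Fin n)) := by
            intro q
            have := Finset.mem_sdiff.1 (hκ q)
            rw [Finset.mem_coe, Finset.mem_sdiff]
            exact ⟨Zs_mono (by omega) this.1, this.2⟩
          have hpde : μ * MvPolynomial.pderiv i0 Q =
              ∑ q, m q * MvPolynomial.pderiv (κ q) Q := by
            rw [hu i0 hi0mem, Finset.mul_sum]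
            have h7 : ∀ q, m q * MvPolynomial.pderiv (κ q) Q =
                ∑ i, u i * (m q * MvPolynomial.pderiv (κ q) (en (F := F) σ N a' (b' - a') i)) := by
              intro q
              rw [hu (κ q) (hκmem q), Finset.mul_sum]
              apply Finset.sum_congr rfl
              intro i _
              ring
            simp only [h7]
            rw [Finset.sum_comm]
            apply Finset.sum_congr rfl
            intro i _
            rw [← Finset.mul_sum, ← hrel i]
            ring
          have h8 := hyb_lossless a _ hi0Z κ (fun q => (Finset.mem_sdiff.1 (hκ q)).1) m hpde h hnon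
          rw [← hZ] at h8
          refine ihd (t + 1) (by omega) (by omega) j ?_
          rw [herε]
          exact h8
    refine claim (b - a') a' (by omega) le_rfl j ?_
    refine hyb_mono a ?_ _ h0
    simp only [lcost]
    omega

end

end Pool.Agent.H530R2
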