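import Mathlib
import Pool.Agent.H530R2.Lin

/-!
The decoupling property of the Shpilka-Volkovich chain with polynomial cost.
-/

namespace Pool.Agent.H530R2

open Module

section

variable {F : Type*} [Field F] {n : ℕ} {w : ℕ}

theorem hyb_disjoint (a : Fin n → F) (j : ℕ) {Z : Finset (Fin n)} {Q : MvPolynomial (Fin n) F}
    (h : Q ∈ MvPolynomial.supported F {k : Fin n | k ∉ Z}) :
    hyb a j Z Q = MvPolynomial.C (gen a j Q) := by
  have h' : Q ∈ Algebra.adjoin F (MvPolynomial.X '' {k : Fin n | k ∉ Z} :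
      Set (MvPolynomial (Fin n) F)) := h
  clear h
  induction h' using Algebra.adjoin_induction with
  | mem x hx =>
    obtain ⟨i, hi, rfl⟩ := hx
    exact hyb_X_not_mem a j hi
  | algebraMap r =>
    have : (algebraMap F (MvPolynomial (Fin n) F)) r = MvPolynomial.C r := rfl
    rw [this, hyb_C]
    congr 1
    exact ((gen a j).commutes r).symm
  | add x y _ _ hx hy => rw [map_add, map_add, hx, hy, map_add]
  | mul x y _ _ hx hy => rw [map_mul, map_mul, hx, hy, map_mul]

/-- coefficients in a free variable -/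
theorem hyb_coeff (a : Fin n → F) (j : ℕ) {Z : Finset (Fin n)} {i0 : Fin n} (hi0 : i0 ∈ Z)
    (D : ℕ) (c : ℕ → MvPolynomial (Fin n) F)
    (hc : ∀ e, c e ∈ MvPolynomial.supported F {k : Fin n | k ≠ i0})
    (h : hyb a j Z (∑ e ∈ Finset.range D, c e * (MvPolynomial.X i0) ^ e) = 0) (e : ℕ)
    (he : e < D) : hyb a j Z (c e) = 0 := by
  let E := MvPolynomial (Fin j ⊕ Fin j) F
  let B := MvPolynomial (Fin n) E
  let Θ : B →+* Polynomial B := MvPolynomial.eval₂Hom
    (Polynomial.C.comp (MvPolynomial.C : E →+* B))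
    (fun k => if k = i0 then Polynomial.X else Polynomial.C (MvPolynomial.X k))
  have hΘX0 : Θ (MvPolynomial.X i0) = Polynomial.X := by
    have : Θ (MvPolynomial.X i0) = if i0 = i0 then Polynomial.X else
        Polynomial.C (MvPolynomial.X i0) := MvPolynomial.eval₂Hom_X' _ _ i0
    rw [this, if_pos rfl]
  have hΘX : ∀ k, k ≠ i0 → Θ (MvPolynomial.X k) = Polynomial.C (MvPolynomial.X k) := by
    intro k hk
    have : Θ (MvPolynomial.X k) = if k = i0 then Polynomial.X else
        Polynomial.C (MvPolynomial.X k) := MvPolynomial.eval₂Hom_X' _ _ k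
    rw [this, if_neg hk]
  have hΘC : ∀ r : E, Θ (MvPolynomial.C r) = Polynomial.C (MvPolynomial.C r) := by
    intro r
    exact MvPolynomial.eval₂Hom_C _ _ r
  clear_value Θ
  have key : ∀ P ∈ MvPolynomial.supported F {k : Fin n | k ≠ i0},
      Θ (hyb a j Z P) = Polynomial.C (hyb a j Z P) := by
    intro P hP
    have h' : P ∈ Algebra.adjoin F (MvPolynomial.X '' {k : Fin n | k ≠ i0} :
        Set (MvPolynomial (Fin n) F)) := hP
    clear hP
    induction h' using Algebra.adjoin_induction with
    | mem x hx =>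
      obtain ⟨i, hi, rfl⟩ := hx
      by_cases hiZ : i ∈ Z
      · rw [hyb_X_mem a j hiZ]; exact hΘX i hi
      · rw [hyb_X_not_mem a j hiZ]; exact hΘC _
    | algebraMap r =>
      have : (algebraMap F (MvPolynomial (Fin n) F)) r = MvPolynomial.C r := rfl
      rw [this, hyb_C]
      exact hΘC _
    | add x y _ _ hx hy => rw [map_add, map_add, hx, hy, map_add]
    | mul x y _ _ hx hy => rw [map_mul, map_mul, hx, hy, map_mul]
  have h1 := congrArg Θ h
  rw [map_sum, map_sum, map_zero] at h1
  have h2 : ∑ e ∈ Finset.range D, Polynomial.C (hyb a j Z (c e)) * (Polynomial.X : Polynomial B) ^ e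
      = 0 := by
    rw [← h1]
    apply Finset.sum_congr rfl
    intro e _
    rw [map_mul, map_mul, map_pow, map_pow, key _ (hc e), hyb_X_mem a j hi0, hΘX0]
  have h3 := congrArg (fun p => Polynomial.coeff p e) h2
  simp only [Polynomial.finsetSum_coeff, Polynomial.coeff_C_mul, Polynomial.coeff_X_pow,
    Polynomial.coeff_zero, mul_ite, mul_one, mul_zero] at h3
  rw [Finset.sum_ite_eq, if_pos (Finset.mem_range.2 he)] at h3
  exact h3

theorem coef_extract (a : Fin n → F) (σ : Equiv.Perm (Fin n))
    (N : ℕ → Matrix (Fin w) (Fin w) (Polynomial F)) (j : ℕ) (m : ℕ) :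
    ∀ (a0 : ℕ), a0 + m ≤ n → ∀ (R : Submodule F ((Unit → Fin w) → F))
      (p : (Unit → Fin w) → MvPolynomial (Fin n) F), (∀ i, p i ∈ pS F σ (a0 + m)) →
      (∀ r ∈ R, hyb a j (Zs σ (a0 + m)) (emb _ r ⬝ᵥ
        (tp Unit (Pr (pv σ) N a0 m)).mulVec p) = 0) →
      ∀ r ∈ CSn Unit N a0 m R, hyb a j (Zs σ (a0 + m)) (emb _ r ⬝ᵥ p) = 0 := by
  induction m with
  | zero =>
    intro a0 _ R p _ h r hr
    have := h r hr
    rwa [Pr_zero, tp_one, Matrix.one_mulVec] at this
  | succ m ih =>
    intro a0 ham R p hp h r hr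
    rw [CSn_succ'] at hr
    have ha0n : a0 < n := by omega
    set i0 := σ ⟨a0, ha0n⟩ with hi0
    have hi0Z : i0 ∈ Zs σ (a0 + (m + 1)) := by
      rw [mem_Zs, hi0]; simp
    have h1 : a0 + 1 + m = a0 + (m + 1) := by ring
    have hp' : ∀ i, p i ∈ pS F σ (a0 + 1 + m) := by
      intro i; rw [h1]; exact hp i
    have := ih (a0 + 1) (by omega) (step Unit N a0 R) p hp' ?_ r hr
    · rwa [h1] at this
    · intro r' hr'
      rw [h1]
      set q := (tp Unit (Pr (pv σ : ℕ → MvPolynomial (Fin n) F) N (a0 + 1) m)).mulVec p with hq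
      -- it suffices to treat the generators
      have hgen : ∀ r0 ∈ R, ∀ e, hyb a j (Zs σ (a0 + (m + 1)))
          (emb _ (Matrix.vecMul r0 (coefM Unit N a0 e)) ⬝ᵥ q) = 0 := by
        intro r0 hr0 e
        have h2 := h r0 hr0
        rw [Pr_succ', tp_mul, ← Matrix.mulVec_mulVec, ← hq, emb_vecMul_tp_Nh] at h2
        by_cases he : e < dB N Unit a0
        · have hpv : (pv σ a0 : MvPolynomial (Fin n) F) = MvPolynomial.X i0 := by
            unfold pv; rw [dif_pos ha0n]
          rw [hpv] at h2
          refine hyb_coeff a j hi0Z _ (fun e => emb _ (Matrix.vecMul r0 (coefM Unit N a0 e)) ⬝ᵥ q)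
            ?_ h2 e he
          intro e'
          have hqS : ∀ t, q t ∈ pS F σ (a0 + 1) := by
            intro t
            have hPrS : ∀ f g, Pr (pv σ : ℕ → MvPolynomial (Fin n) F) N (a0 + 1) m f g ∈
                pS F σ (a0 + 1) := by
              intro f g
              refine Algebra.adjoin_mono ?_ (en_mem σ N (a0 + 1) m (f, g))
              apply Set.image_mono
              intro k hk
              exact hk.1
            rw [hq]
            refine Subalgebra.sum_mem _ fun l _ => Subalgebra.mul_mem _ ?_ ?_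
            · change tp Unit (Pr (pv σ : ℕ → MvPolynomial (Fin n) F) N (a0 + 1) m) t l ∈
                pS F σ (a0 + 1)
              rw [tp_apply]
              exact Subalgebra.prod_mem _ fun s _ => hPrS _ _
            · have := hp' l
              refine MvPolynomial.supported_mono ?_ this
              intro k hk
              simp only [Set.mem_ofPred_eq] at hk ⊢
              omega
          have hsub : pS F σ (a0 + 1) ≤ MvPolynomial.supported F {k : Fin n | k ≠ i0} := by
            apply MvPolynomial.supported_mono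
            intro k hk
            simp only [Set.mem_ofPred_eq] at hk ⊢
            rintro rfl
            rw [hi0] at hk
            simp at hk
          exact Subalgebra.sum_mem _ fun t _ => Subalgebra.mul_mem _
            (Subalgebra.algebraMap_mem _ _) (hsub (hqS t))
        · rw [coefM_eq_zero N Unit a0 e (not_lt.1 he)]
          simp [emb, dotProduct]
      have hlin : ∀ (x y : (Unit → Fin w) → F), hyb a j (Zs σ (a0 + (m + 1)))
          (emb _ (x + y) ⬝ᵥ q) = hyb a j (Zs σ (a0 + (m + 1))) (emb _ x ⬝ᵥ q) +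
            hyb a j (Zs σ (a0 + (m + 1))) (emb _ y ⬝ᵥ q) := by
        intro x y
        rw [← map_add]
        congr 1
        simp [emb, dotProduct, add_mul, Finset.sum_add_distrib]
      unfold step at hr'
      induction hr' using Submodule.span_induction with
      | mem x hx =>
        obtain ⟨r0, hr0, e, rfl⟩ := hx
        exact hgen r0 hr0 e
      | zero =>
        have : emb (MvPolynomial (Fin n) F) (0 : (Unit → Fin w) → F) ⬝ᵥ q = 0 := by
          simp [emb, dotProduct]
        rw [this, map_zero]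
      | add x y _ _ hx hy => rw [hlin, hx, hy, add_zero]
      | smul c x _ hx =>
        have : emb (MvPolynomial (Fin n) F) (c • x) ⬝ᵥ q =
            algebraMap F _ c * (emb _ x ⬝ᵥ q) := by
          simp [emb, dotProduct, Finset.mul_sum, mul_assoc]
        rw [this, map_mul, hx, mul_zero]

theorem Dec_lin [CharZero F] (a : Fin n → F) (ha : Function.Injective a)
    (σ : Equiv.Perm (Fin n)) (N : ℕ → Matrix (Fin w) (Fin w) (Polynomial F)) :
    Dec N (svChain a ha σ) 1 Unit (lcost w w) := by
  intro a0 m hm hr R j p hp hk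
  have hpS : ∀ i, p i ∈ pS F σ (a0 + m) := hp
  have hQ : ∀ r ∈ R, hyb a j (Zs σ (a0 + m)) (emb _ r ⬝ᵥ
      (tp Unit (Pr (pv σ) N a0 m)).mulVec p) = 0 := by
    intro r hr0
    have h1 : gen a (j + lcost w w) (emb _ r ⬝ᵥ
      (tp Unit (Pr (pv σ) N a0 m)).mulVec p) = 0 := hk r hr0
    have hen : ∀ f g, Pr (pv σ : ℕ → MvPolynomial (Fin n) F) N a0 m f g ∈
        Algebra.adjoin F (Set.range (en (F := F) σ N a0 m) ∪
          MvPolynomial.X '' {k : Fin n | k ∉ Zs σ (a0 + m)}) :=
      fun f g => Algebra.subset_adjoin (Or.inl ⟨(f, g), rfl⟩)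
    have hpA : ∀ i, p i ∈ Algebra.adjoin F (Set.range (en (F := F) σ N a0 m) ∪
          MvPolynomial.X '' {k : Fin n | k ∉ Zs σ (a0 + m)}) := by
      intro i
      refine Algebra.adjoin_mono ?_ (hpS i)
      refine (Set.image_mono ?_).trans Set.subset_union_right
      intro k hk
      simp only [Set.mem_ofPred_eq, mem_Zs] at hk ⊢
      omega
    have hmem : emb _ r ⬝ᵥ (tp Unit (Pr (pv σ) N a0 m)).mulVec p ∈
        Algebra.adjoin F (Set.range (en (F := F) σ N a0 m) ∪
          MvPolynomial.X '' {k : Fin n | k ∉ Zs σ (a0 + m)}) := by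
      refine Subalgebra.sum_mem _ fun t _ => Subalgebra.mul_mem _
        (Subalgebra.algebraMap_mem _ _) (Subalgebra.sum_mem _ fun l _ =>
          Subalgebra.mul_mem _ ?_ (hpA l))
      change tp Unit (Pr (pv σ : ℕ → MvPolynomial (Fin n) F) N a0 m) t l ∈ _
      rw [tp_apply]
      exact Subalgebra.prod_mem _ fun s _ => hen _ _
    have hctrl : Ctrl ((Zs σ (a0 + m) \ Zs σ a0 : Finset (Fin n)) : Set (Fin n))
        (en σ N a0 (a0 + m - a0)) (emb _ r ⬝ᵥ (tp Unit (Pr (pv σ) N a0 m)).mulVec p) := by
      rw [Nat.add_sub_cancel_left]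
      refine (ctrl_of_adjoin hmem).mono ?_
      intro k hk
      rw [Finset.mem_coe, Finset.mem_sdiff] at hk
      simpa using hk.1
    have hsuppZ : emb _ r ⬝ᵥ (tp Unit (Pr (pv σ) N a0 m)).mulVec p ∈
        MvPolynomial.supported F {k : Fin n | k ∉ Zs σ a0} := by
      have hPrS : ∀ f g, Pr (pv σ : ℕ → MvPolynomial (Fin n) F) N a0 m f g ∈
          MvPolynomial.supported F {k : Fin n | k ∉ Zs σ a0} := by
        intro f g
        refine Algebra.adjoin_mono ?_ (en_mem σ N a0 m (f, g))
        apply Set.image_mono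
        intro k hk
        simp only [Set.mem_ofPred_eq, mem_Zs] at hk ⊢
        omega
      refine Subalgebra.sum_mem _ fun t _ => Subalgebra.mul_mem _
        (Subalgebra.algebraMap_mem _ _) (Subalgebra.sum_mem _ fun l _ =>
          Subalgebra.mul_mem _ ?_ ?_)
      · change tp Unit (Pr (pv σ : ℕ → MvPolynomial (Fin n) F) N a0 m) t l ∈ _
        rw [tp_apply]
        exact Subalgebra.prod_mem _ fun s _ => hPrS _ _
      · refine MvPolynomial.supported_mono ?_ (hpS l)
        intro k hk
        simp only [Set.mem_ofPred_eq, mem_Zs] at hk ⊢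
        omega
    refine lin_dec a ha σ N w le_rfl a0 (a0 + m) (by omega) hm ?_ _ hctrl j ?_
    · rcases hr with h | h
      · left; omega
      · right
        rw [Nat.add_sub_cancel_left]
        omega
    · rw [hyb_disjoint a _ hsuppZ, h1, map_zero]
  intro r hr0
  have h2 := coef_extract a σ N j m a0 hm R p hpS hQ r hr0
  have hS : emb _ r ⬝ᵥ p ∈ MvPolynomial.supported F {k : Fin n | k ∉ Zs σ (a0 + m)} := by
    refine Subalgebra.sum_mem _ fun t _ => Subalgebra.mul_mem _
      (Subalgebra.algebraMap_mem _ _) ?_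
    refine MvPolynomial.supported_mono ?_ (hpS t)
    intro k hk
    simp only [Set.mem_ofPred_eq, mem_Zs] at hk ⊢
    omega
  rw [hyb_disjoint a j hS] at h2
  exact (MvPolynomial.C_injective _ _) (by rw [h2, map_zero])

end

end Pool.Agent.H530R2
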