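import Mathlib
import Pool.Agent.H530R2.Jet3

/-!
The decoupling theorem for read-once systems over an abstract system of substitutions.
-/

namespace Pool.Agent.H530R2

open MvPolynomial Module

/-- A decreasing system of conditions `van j Z Q` (level `j`, free variables `Z`) with the
properties of the hybrid substitutions. -/
structure Van (F : Type*) [Field F] (n : ℕ) where
  /-- the conditions -/
  van : ℕ → Finset (Fin n) → MvPolynomial (Fin n) F → Prop
  mono1 : ∀ j Z Q, van (j + 1) Z Q → van j Z Q
  free : ∀ j Z i Q, van (j + 1) Z Q → van j (insert i Z) Q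
  lossless : ∀ j (Z : Finset (Fin n)) (i0 : Fin n), i0 ∉ Z →
    ∀ (Q μ : MvPolynomial (Fin n) F) (ρ : ℕ) (κ : Fin ρ → Fin n), (∀ p, κ p ∈ Z) →
    ∀ m : Fin ρ → MvPolynomial (Fin n) F, μ * pderiv i0 Q = ∑ p, m p * pderiv (κ p) Q →
    van j Z Q → ¬ van j Z μ → van j (insert i0 Z) Q
  supp : ∀ j (Z : Finset (Fin n)) (Q : MvPolynomial (Fin n) F),
    Q ∈ supported F (Z : Set (Fin n)) → van j Z Q → Q = 0

theorem Van.mono {F : Type*} [Field F] {n : ℕ} (V : Van F n) {j j' : ℕ} (hj : j ≤ j')
    (Z : Finset (Fin n)) {Q : MvPolynomial (Fin n) F} (h : V.van j' Z Q) : V.van j Z Q := by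
  induction j', hj using Nat.le_induction with
  | base => exact h
  | succ m _ ih => exact ih (V.mono1 m Z Q h)

section

variable {F : Type*} [Field F] {n : ℕ}

variable (V : Van F n)


theorem Van.jet_dec {σ : Equiv.Perm (Fin n)} {ι₀ : Type}
    [Fintype ι₀] {p : ℕ → ι₀ → MvPolynomial (Fin n) F} (s : ℕ)
    (hs : s ≤ Fintype.card ι₀ + 1)
    (hp : ∀ b (hb : b < n) i, p (b + 1) i ∈
      Algebra.adjoin F (Set.range (p b) ∪ X '' {σ ⟨b, hb⟩})) :
    ∀ (ι : Type) [Fintype ι] (J : ℕ → ι → MvPolynomial (Fin n) F), Sys σ p J →
      ∀ a' b : ℕ, a' ≤ b → b ≤ n → (a' = b ∨ Fintype.card ι₀ + 1 ≤ er (Zs σ a') (p b) + s) →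
      ∀ Q : MvPolynomial (Fin n) F, Ctrl ((Zs σ b \ Zs σ a' : Finset (Fin n)) : Set (Fin n)) (J b) Q →
      ∀ j, V.van (j + jcost s (Fintype.card ι)) (Zs σ a') Q → V.van j (Zs σ b) Q := by
  classical
  induction s with
  | zero =>
    intro ι _ J hJ a' b hab hbn hor Q hQ j h0
    rcases hor with rfl | h
    · exact V.mono (Nat.le_add_right _ _) _ h0
    · exfalso
      have := er_le_card (Zs σ a') (p b)
      omega
  | succ s ih =>
    have ih' := ih (by omega)
    clear ih
    intro ι _ J hJ a' b hab hbn hor Q hQ j h0
    set w := Fintype.card ι₀ with hw
    set l := Fintype.card ι with hl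
    by_cases hA : a' = b ∨ w + 1 ≤ er (Zs σ a') (p b) + s
    · exact ih' ι J hJ a' b hab hbn hA Q hQ j
        (V.mono (Nat.add_le_add_left (jcost_le_succ s l) j) _ h0)
    push Not at hA
    obtain ⟨hne, hlt⟩ := hA
    have hr : er (Zs σ a') (p b) + s = w := by
      rcases hor with h | h
      · exact absurd h hne
      · omega
    -- the inner induction
    have claim : ∀ d t : ℕ, t + d = b → a' ≤ t → ∀ j,
        V.van (j + (jcost s (l * (l + 1)) + 2) + (l - er (Zs σ t \ Zs σ a') (J b))) (Zs σ t) Q → V.van j (Zs σ b) Q := by
      intro d
      induction d with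
      | zero =>
        intro t htb hat j h
        have : t = b := by omega
        subst this
        exact V.mono (by omega) _ h
      | succ d ihd =>
        intro t htb hat j h
        have htn : t < n := by omega
        set i0 := σ ⟨t, htn⟩ with hi0
        have hZ : Zs σ (t + 1) = insert i0 (Zs σ t) := Zs_succ σ htn
        have hi0Z : i0 ∉ Zs σ t := not_mem_Zs σ htn le_rfl
        have hi0Za : i0 ∉ Zs σ a' := not_mem_Zs σ htn hat
        have hi0b : i0 ∈ Zs σ b := by
          rw [mem_Zs, hi0]; simp; omega
        have hmono1 : jcost s l ≤ jcost s (l * (l + 1)) :=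
          jcost_mono s (Nat.le_mul_of_pos_right _ (by omega))
        by_cases hA' : t + 1 = b ∨ w + 1 ≤ er (Zs σ (t + 1)) (p b) + s
        · have h1 : V.van (j + jcost s l) (Zs σ (t + 1)) Q := by
            rw [hZ]
            apply V.free
            exact V.mono (by omega) _ h
          refine ih' ι J hJ (t + 1) b (by omega) hbn hA' Q (hQ.mono ?_) j h1
          intro k hk
          rw [Finset.mem_coe, Finset.mem_sdiff] at hk ⊢
          exact ⟨hk.1, fun hc => hk.2 (Zs_mono (by omega) hc)⟩
        push Not at hA'
        obtain ⟨htb1, hlt1⟩ := hA'
        have hge1 : er (Zs σ a') (p b) ≤ er (Zs σ (t + 1)) (p b) :=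
          er_mono (Zs_mono (by omega)) _
        have her1 : er (Zs σ (t + 1)) (p b) + s = w := by omega
        by_cases hB : dv (J b) i0 ∈ sp (Zs σ t \ Zs σ a') (J b)
        swap
        · -- a jump
          have hlt2 : er (Zs σ t \ Zs σ a') (J b) < er (Zs σ (t + 1) \ Zs σ a') (J b) := by
            unfold er
            apply Submodule.finrank_lt_finrank_of_lt
            rw [SetLike.lt_iff_le_and_exists]
            refine ⟨?_, dv (J b) i0, ?_, hB⟩
            · unfold sp
              apply Submodule.span_mono
              apply Set.image_mono
              intro k hk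
              rw [Finset.mem_coe, Finset.mem_sdiff] at hk ⊢
              exact ⟨Zs_mono (by omega) hk.1, hk.2⟩
            · apply Submodule.subset_span
              refine ⟨i0, ?_, rfl⟩
              rw [Finset.mem_coe, Finset.mem_sdiff, hZ]
              exact ⟨Finset.mem_insert_self _ _, hi0Za⟩
          have hle2 := er_le_card (Zs σ (t + 1) \ Zs σ a') (J b)
          refine ihd (t + 1) (by omega) (by omega) j ?_
          rw [hZ]
          rw [hZ] at hlt2 hle2
          apply V.free
          exact V.mono (by omega) _ h
        · -- a lossless step
          have herε : er (Zs σ (t + 1) \ Zs σ a') (J b) = er (Zs σ t \ Zs σ a') (J b) := by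
            have hspeq : sp (Zs σ (t + 1) \ Zs σ a') (J b) = sp (Zs σ t \ Zs σ a') (J b) := by
              apply le_antisymm
              · apply Submodule.span_le.2
                rintro _ ⟨k, hk, rfl⟩
                rw [Finset.mem_coe, Finset.mem_sdiff, hZ, Finset.mem_insert] at hk
                obtain ⟨hk1 | hk1, hk2⟩ := hk
                · rw [hk1]; exact hB
                · exact Submodule.subset_span ⟨k, by
                    rw [Finset.mem_coe, Finset.mem_sdiff]; exact ⟨hk1, hk2⟩, rfl⟩
              · unfold sp
                apply Submodule.span_mono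
                apply Set.image_mono
                intro k hk
                rw [Finset.mem_coe, Finset.mem_sdiff] at hk ⊢
                exact ⟨Zs_mono (by omega) hk.1, hk.2⟩
            unfold er
            rw [hspeq]
          -- minimal time with the same rank
          have hex : ∃ c, t + 1 < c ∧ er (Zs σ (t + 1)) (p c) + s ≤ w :=
            ⟨b, by omega, by omega⟩
          set b' := Nat.find hex with hb'
          have hb'1 : t + 1 < b' := (Nat.find_spec hex).1
          have hb'2 : er (Zs σ (t + 1)) (p b') + s ≤ w := (Nat.find_spec hex).2
          have hb'b : b' ≤ b := Nat.find_min' hex ⟨by omega, by omega⟩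
          have hb'3 : t + 1 = b' - 1 ∨ w + 1 ≤ er (Zs σ (t + 1)) (p (b' - 1)) + s := by
            by_cases h1 : t + 1 = b' - 1
            · exact Or.inl h1
            · right
              have h2 := Nat.find_min hex (m := b' - 1) (by omega)
              push Not at h2
              have := h2 (by omega)
              omega
          have her2 : er (Zs σ (t + 1)) (p b') = er (Zs σ (t + 1)) (p b) := by
            have := er_anti hp hb'b hbn (S := Zs σ (t + 1)) (Zs_mono (by omega))
            omega
          -- transfer of the relation
          have hB' : dv (J b') i0 ∈ sp (Zs σ t \ Zs σ a') (J b') := by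
            obtain ⟨ρ, κ, g, m, _, hκ, hμ0, hrel⟩ := cramer_rel hB
            set ν := (Matrix.of fun q l => pderiv (κ q) (J b (g l))).det with hν
            set γ : Fin n → MvPolynomial (Fin n) F := fun k =>
              (if k = i0 then ν else 0) - ∑ q, if k = κ q then m q else 0 with hγ
            have hγsum : ∀ G : Fin n → MvPolynomial (Fin n) F,
                ∑ k, γ k * G k = ν * G i0 - ∑ q, m q * G (κ q) := by
              intro G
              simp only [hγ, sub_mul, Finset.sum_sub_distrib, Finset.sum_mul, ite_mul, zero_mul]
              rw [Finset.sum_comm]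
              simp
            have hγ0 : ∀ k, k ∉ Zs σ (t + 1) → γ k = 0 := by
              intro k hk
              rw [hZ, Finset.mem_insert] at hk
              push Not at hk
              simp only [hγ]
              rw [if_neg hk.1, zero_sub, neg_eq_zero]
              apply Finset.sum_eq_zero
              intro q _
              rw [if_neg]
              rintro rfl
              exact hk.2 (Finset.mem_sdiff.1 (hκ q)).1
            have h3 := hJ.etale (t + 1) b' b (by omega) hb'b hbn her2 γ hγ0 (by
              intro i
              rw [hγsum, hrel i, sub_self])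
            have h4 : ∀ i, ν * pderiv i0 (J b' i) = ∑ q, m q * pderiv (κ q) (J b' i) := by
              intro i
              have := h3 i
              rw [hγsum] at this
              exact sub_eq_zero.1 this
            set φ := algebraMap (MvPolynomial (Fin n) F)
              (FractionRing (MvPolynomial (Fin n) F)) with hφ
            have hφν : φ ν ≠ 0 := by
              intro h0
              apply hμ0
              exact IsFractionRing.injective _ (FractionRing (MvPolynomial (Fin n) F))
                (by rw [← hφ, h0, map_zero])
            have h5 : dv (J b') i0 = ∑ q, ((φ ν)⁻¹ * φ (m q)) • dv (J b') (κ q) := by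
              funext i
              have h6 := congrArg φ (h4 i)
              rw [map_mul, map_sum] at h6
              simp only [Finset.sum_apply, Pi.smul_apply, smul_eq_mul, dv]
              rw [← hφ]
              calc φ (pderiv i0 (J b' i)) = (φ ν)⁻¹ * (φ ν * φ (pderiv i0 (J b' i))) := by
                    rw [← mul_assoc, inv_mul_cancel₀ hφν, one_mul]
                _ = _ := by
                    rw [h6, Finset.mul_sum]
                    apply Finset.sum_congr rfl
                    intro q _
                    rw [map_mul]
                    ring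
            rw [h5]
            refine Submodule.sum_mem _ fun q _ => Submodule.smul_mem _ _ ?_
            exact Submodule.subset_span ⟨κ q, by exact_mod_cast hκ q, rfl⟩
          obtain ⟨ρ, κ, g, m, hρ, hκ, hμ0, hrel⟩ := cramer_rel hB'
          set μ := (Matrix.of fun q l => pderiv (κ q) (J b' (g l))).det with hμ
          -- the minor does not vanish
          have hnon : ¬ V.van (j + (jcost s (l * (l + 1)) + 2) +
              (l - er (Zs σ t \ Zs σ a') (J b))) (Zs σ t) μ := by
            intro hmem
            apply hμ0
            have hJ' := hJ.prol κ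
            have hcard : Fintype.card (ι ⊕ Fin ρ × ι) ≤ l * (l + 1) := by
              rw [Fintype.card_sum, Fintype.card_prod, Fintype.card_fin]
              nlinarith
            have h1 : V.van (1 + jcost s (Fintype.card (ι ⊕ Fin ρ × ι)) + 1) (Zs σ t) μ := by
              have := jcost_mono s hcard
              exact V.mono (by omega) _ hmem
            have h2 : V.van (1 + jcost s (Fintype.card (ι ⊕ Fin ρ × ι))) (Zs σ (t + 1)) μ := by
              rw [hZ]; exact V.free _ _ _ _ h1
            have hb'n : b' - 1 < n := by omega
            have hμadj : μ ∈ Algebra.adjoin F (Set.range (prol κ J b')) := by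
              apply det_mem
              intro q q'
              exact Algebra.subset_adjoin ⟨Sum.inr (q, g q'), rfl⟩
            have hμadj2 : μ ∈ Algebra.adjoin F (Set.range (prol κ J (b' - 1)) ∪
                X '' {σ ⟨b' - 1, hb'n⟩}) := by
              refine (Algebra.adjoin_le ?_) hμadj
              rintro _ ⟨i, rfl⟩
              have := hJ'.stepm (b' - 1) hb'n i
              rwa [Nat.sub_add_cancel (by omega)] at this
            have hctrl : Ctrl ((Zs σ (b' - 1) \ Zs σ (t + 1) : Finset (Fin n)) : Set (Fin n))
                (prol κ J (b' - 1)) μ := by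
              refine (ctrl_of_adjoin hμadj2).mono ?_
              intro k hk
              rw [Finset.mem_coe, Finset.mem_sdiff] at hk
              rw [Set.mem_compl_iff, Set.mem_singleton_iff]
              rintro rfl
              exact not_mem_Zs σ hb'n le_rfl hk.1
            have h3 := ih' _ _ hJ' (t + 1) (b' - 1) (by omega) (by omega) hb'3 μ hctrl 1 h2
            have h4 : V.van 0 (Zs σ b') μ := by
              have := V.free 0 (Zs σ (b' - 1)) (σ ⟨b' - 1, hb'n⟩) _ h3
              rwa [← Zs_succ σ hb'n, Nat.sub_add_cancel (by omega)] at this
            refine V.supp 0 _ _ ?_ h4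
            refine (Algebra.adjoin_le ?_) hμadj
            rintro _ ⟨i, rfl⟩
            exact hJ'.supp b' i
          -- the differential relation for `Q`
          have hQ' : Ctrl ((Zs σ b' \ Zs σ a' : Finset (Fin n)) : Set (Fin n)) (J b') Q := by
            refine Ctrl.trans (J' := J b) ?_ ?_
            · intro i
              refine (ctrl_chain hJ.stepm hb'b hbn i).mono ?_
              intro k hk
              rw [Finset.mem_coe, Finset.mem_sdiff] at hk
              exact_mod_cast hk.1
            · refine hQ.mono ?_
              intro k hk
              rw [Finset.mem_coe, Finset.mem_sdiff] at hk ⊢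
              exact ⟨Zs_mono hb'b hk.1, hk.2⟩
          obtain ⟨u, hu⟩ := hQ'
          have hi0mem : i0 ∈ ((Zs σ b' \ Zs σ a' : Finset (Fin n)) : Set (Fin n)) := by
            rw [Finset.mem_coe, Finset.mem_sdiff]
            refine ⟨Zs_mono (show t + 1 ≤ b' by omega) ?_, hi0Za⟩
            rw [hZ]; exact Finset.mem_insert_self _ _
          have hκmem : ∀ q, κ q ∈ ((Zs σ b' \ Zs σ a' : Finset (Fin n)) : Set (Fin n)) := by
            intro q
            have := Finset.mem_sdiff.1 (hκ q)
            rw [Finset.mem_coe, Finset.mem_sdiff]
            exact ⟨Zs_mono (by omega) this.1, this.2⟩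
          have hpde : μ * pderiv i0 Q = ∑ q, m q * pderiv (κ q) Q := by
            rw [hu i0 hi0mem, Finset.mul_sum]
            have h7 : ∀ q, m q * pderiv (κ q) Q = ∑ i, u i * (m q * pderiv (κ q) (J b' i)) := by
              intro q
              rw [hu (κ q) (hκmem q), Finset.mul_sum]
              apply Finset.sum_congr rfl
              intro i _
              ring
            simp only [h7]
            rw [Finset.sum_comm]
            apply Finset.sum_congr rfl
            intro i _
            rw [← Finset.mul_sum, ← hrel i]
            ring
          have h8 := V.lossless _ _ _ hi0Z _ _ _ κ (fun q => (Finset.mem_sdiff.1 (hκ q)).1) m hpde h hnon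
          rw [← hZ] at h8
          refine ihd (t + 1) (by omega) (by omega) j ?_
          rw [herε]
          exact h8
    -- conclusion
    refine claim (b - a') a' (by omega) le_rfl j ?_
    refine V.mono ?_ _ h0
    simp only [jcost]
    omega

end

end Pool.Agent.H530R2
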