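import Mathlib
import Pool.Agent.H530R2.Nst1

/-!
Substitutions of arbitrary values for the variables outside a set.
-/

namespace Pool.Agent.H530R2

open MvPolynomial

section

variable {F R : Type*} [Field F] [CommRing R] [IsDomain R] [Algebra F R] {n : ℕ} (γ : Fin n → R)

/-- The variables in `Z` are free, the others take the values `γ`. -/
noncomputable def sb (Z : Finset (Fin n)) :
    MvPolynomial (Fin n) F →ₐ[F] MvPolynomial (Fin n) R :=
  aeval fun i => if i ∈ Z then X i else C (γ i)

omit [IsDomain R] in
theorem sb_X_mem {Z : Finset (Fin n)} {i : Fin n} (h : i ∈ Z) :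
    sb (F := F) γ Z (X i) = X i := by
  simp [sb, h]

omit [IsDomain R] in
theorem sb_X_not_mem {Z : Finset (Fin n)} {i : Fin n} (h : i ∉ Z) :
    sb (F := F) γ Z (X i) = C (γ i) := by
  simp [sb, h]

omit [IsDomain R] in
theorem sb_C (Z : Finset (Fin n)) (r : F) :
    sb γ Z (C r) = C (algebraMap F R r) := by
  simp only [sb, MvPolynomial.algHom_C]
  rfl

omit [IsDomain R] in
theorem sb_empty (Q : MvPolynomial (Fin n) F) : sb γ ∅ Q = C (aeval γ Q) := by
  induction Q using MvPolynomial.induction_on with
  | C r => rw [sb_C, aeval_C]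
  | add p q hp hq => rw [map_add, map_add, hp, hq, map_add]
  | mul_X p i hp => rw [map_mul, map_mul, hp, sb_X_not_mem γ (by simp), map_mul, aeval_X]

omit [IsDomain R] in
theorem sb_supported {Z : Finset (Fin n)} {Q : MvPolynomial (Fin n) F}
    (h : Q ∈ supported F (Z : Set (Fin n))) :
    sb γ Z Q = map (algebraMap F R) Q := by
  have h' : Q ∈ Algebra.adjoin F (X '' (Z : Set (Fin n)) : Set (MvPolynomial (Fin n) F)) := h
  clear h
  induction h' using Algebra.adjoin_induction with
  | mem x hx =>
    obtain ⟨i, hi, rfl⟩ := hx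
    rw [sb_X_mem γ (by simpa using hi), map_X]
  | algebraMap r =>
    have : (algebraMap F (MvPolynomial (Fin n) F)) r = C r := rfl
    rw [this, sb_C, map_C]
  | add x y _ _ hx hy => rw [map_add, map_add, hx, hy]
  | mul x y _ _ hx hy => rw [map_mul, map_mul, hx, hy]

theorem sb_supported_eq_zero {Z : Finset (Fin n)} {Q : MvPolynomial (Fin n) F}
    (h : Q ∈ supported F (Z : Set (Fin n))) (h0 : sb γ Z Q = 0) : Q = 0 := by
  rw [sb_supported γ h] at h0
  exact (map_injective _ (algebraMap F R).injective) (by rw [h0, map_zero])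

omit [IsDomain R] in
/-- derivatives in free directions commute with the substitution -/
theorem pderiv_sb {Z : Finset (Fin n)} {k : Fin n} (hk : k ∈ Z)
    (Q : MvPolynomial (Fin n) F) : pderiv k (sb γ Z Q) = sb γ Z (pderiv k Q) := by
  induction Q using MvPolynomial.induction_on with
  | C r => rw [sb_C, pderiv_C, pderiv_C, map_zero]
  | add p q hp hq => rw [map_add, map_add, map_add, map_add, hp, hq]
  | mul_X p i hp =>
    rw [map_mul, pderiv_mul, hp, pderiv_mul, map_add, map_mul, map_mul]
    congr 2
    by_cases hi : i ∈ Z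
    · rw [sb_X_mem γ hi, pderiv_X, pderiv_X]
      by_cases h : k = i
      · subst h; simp
      · rw [Pi.single_eq_of_ne' h, Pi.single_eq_of_ne' h, map_zero]
    · rw [sb_X_not_mem γ hi, pderiv_C, pderiv_X_of_ne, map_zero]
      rintro rfl
      exact hi hk

/-- A first order linear differential relation frees a variable at no cost, if its leading
coefficient does not vanish. -/
theorem sb_lossless [CharZero F] {Z : Finset (Fin n)} {i0 : Fin n} (hi0 : i0 ∉ Z)
    {Q μ : MvPolynomial (Fin n) F} {ρ : Type*} [Fintype ρ] (κ : ρ → Fin n) (hκ : ∀ p, κ p ∈ Z)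
    (m : ρ → MvPolynomial (Fin n) F)
    (hpde : μ * pderiv i0 Q = ∑ p, m p * pderiv (κ p) Q)
    (hQ : sb γ Z Q = 0) (hμ : sb γ Z μ ≠ 0) : sb γ (insert i0 Z) Q = 0 := by
  have hch : CharZero R := charZero_of_injective_algebraMap (algebraMap F R).injective
  let B := MvPolynomial (Fin n) R
  let g : R := γ i0
  let ε : B →ₐ[R] B := aeval (fun k => if k = i0 then (C g : B) else X k)
  set π : B := X i0 - C g with hπ
  set Ψ : B := sb γ (insert i0 Z) Q with hΨ
  have hεX0 : ε (X i0) = C g := by
    have : ε (X i0) = if i0 = i0 then (C g : B) else X i0 := aeval_X _ i0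
    rw [this, if_pos rfl]
  have hεX : ∀ k, k ≠ i0 → ε (X k) = X k := by
    intro k hk
    have : ε (X k) = if k = i0 then (C g : B) else X k := aeval_X _ k
    rw [this, if_neg hk]
  have hεC : ∀ c, ε (C c) = C c := fun c => ε.commutes c
  clear_value ε
  have claim1 : ∀ P : B, π ∣ P - ε P := by
    intro P
    induction P using MvPolynomial.induction_on with
    | C r => rw [hεC, sub_self]; exact dvd_zero _
    | add p q hp hq =>
      rw [map_add, add_sub_add_comm]
      exact dvd_add hp hq
    | mul_X p i hp =>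
      rw [map_mul]
      by_cases hi : i = i0
      · subst hi
        rw [hεX0]
        have : p * X i - ε p * C g = (p - ε p) * X i + ε p * π := by rw [hπ]; ring
        rw [this]
        exact dvd_add (Dvd.dvd.mul_right hp _) (Dvd.intro_left _ rfl)
      · rw [hεX i hi, ← sub_mul]
        exact Dvd.dvd.mul_right hp _
  have claim1' : ∀ P : B, ε P = 0 → π ∣ P := by
    intro P hP
    have := claim1 P
    rwa [hP, sub_zero] at this
  have hεπ : ε π = 0 := by rw [hπ, map_sub, hεX0, hεC, sub_self]
  have claim2 : ∀ P : MvPolynomial (Fin n) F, ε (sb γ (insert i0 Z) P) = sb γ Z P := by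
    intro P
    induction P using MvPolynomial.induction_on with
    | C r => rw [sb_C, sb_C, hεC]
    | add p q hp hq => rw [map_add, map_add, map_add, hp, hq]
    | mul_X p i hp =>
      rw [map_mul, map_mul, map_mul, hp]
      by_cases hi : i = i0
      · subst hi
        rw [sb_X_mem γ (Finset.mem_insert_self _ _), hεX0, sb_X_not_mem γ hi0]
      · by_cases hiZ : i ∈ Z
        · rw [sb_X_mem γ (Finset.mem_insert_of_mem hiZ), hεX i hi, sb_X_mem γ hiZ]
        · have hni : i ∉ insert i0 Z := by simp [hi, hiZ]
          rw [sb_X_not_mem γ hni, hεC, sb_X_not_mem γ hiZ]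
  have hpde' : sb γ (insert i0 Z) μ * pderiv i0 Ψ =
      ∑ p, sb γ (insert i0 Z) (m p) * pderiv (κ p) Ψ := by
    have h1 := congrArg (sb γ (insert i0 Z)) hpde
    rw [map_mul, map_sum] at h1
    rw [hΨ, pderiv_sb γ (Finset.mem_insert_self _ _), h1]
    apply Finset.sum_congr rfl
    intro p _
    rw [map_mul, pderiv_sb γ (Finset.mem_insert_of_mem (hκ p))]
  have hcoef : coeff (Finsupp.single i0 1) π = 1 := by
    have h : (0 : Fin n →₀ ℕ) ≠ Finsupp.single i0 1 := by
      intro h
      have := DFunLike.congr_fun h i0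
      simp at this
    rw [hπ, coeff_sub, coeff_C, if_neg h, sub_zero, coeff_X, if_pos rfl]
  have hπ0 : π ≠ 0 := by
    intro h0
    rw [h0, coeff_zero] at hcoef
    exact zero_ne_one hcoef
  have hdπ0 : pderiv i0 π = 1 := by
    rw [hπ, map_sub, pderiv_X_self, pderiv_C, sub_zero]
  have hdπ : ∀ p, pderiv (κ p) π = 0 := by
    intro p
    have hne : i0 ≠ κ p := by
      rintro rfl
      exact hi0 (hκ p)
    rw [hπ, map_sub, pderiv_X_of_ne hne, pderiv_C, sub_zero]
  have claim3 : ∀ N : ℕ, π ^ (N + 1) ∣ Ψ := by
    intro N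
    induction N with
    | zero =>
      rw [zero_add, pow_one]
      apply claim1'
      rw [hΨ, claim2, hQ]
    | succ N ih =>
      obtain ⟨Y, hY⟩ := ih
      have h1 : pderiv i0 Ψ = π ^ N * ((N + 1 : ℕ) * Y + π * pderiv i0 Y) := by
        rw [hY, pderiv_mul, pderiv_pow, hdπ0, Nat.add_sub_cancel]
        ring
      have h2 : ∀ p, pderiv (κ p) Ψ = π ^ N * (π * pderiv (κ p) Y) := by
        intro p
        rw [hY, pderiv_mul, pderiv_pow, hdπ, Nat.add_sub_cancel]
        ring
      have h3 : π ^ N * (sb γ (insert i0 Z) μ * ((N + 1 : ℕ) * Y + π * pderiv i0 Y)) =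
          π ^ N * (π * ∑ p, sb γ (insert i0 Z) (m p) * pderiv (κ p) Y) := by
        rw [h1] at hpde'
        simp only [h2] at hpde'
        rw [Finset.mul_sum, Finset.mul_sum]
        calc π ^ N * (sb γ (insert i0 Z) μ * ((N + 1 : ℕ) * Y + π * pderiv i0 Y))
            = sb γ (insert i0 Z) μ * (π ^ N * ((N + 1 : ℕ) * Y + π * pderiv i0 Y)) := by ring
          _ = _ := hpde'
          _ = _ := by
            apply Finset.sum_congr rfl
            intro p _
            ring
      have h4 := mul_left_cancel₀ (pow_ne_zero N hπ0) h3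
      have h5 := congrArg ε h4
      rw [map_mul, claim2, map_add, map_mul, map_mul, hεπ, zero_mul, add_zero, map_mul, hεπ,
        zero_mul] at h5
      have h6 : ε Y = 0 := by
        rcases mul_eq_zero.1 h5 with h | h
        · exact absurd h hμ
        · rcases mul_eq_zero.1 h with h | h
          · exfalso
            rw [map_natCast] at h
            exact Nat.succ_ne_zero N (by exact_mod_cast h)
          · exact h
      obtain ⟨W, hW⟩ := claim1' Y h6
      exact ⟨W, by rw [hY, hW]; ring⟩
  by_contra hne
  have h1 := totalDegree_le_of_dvd_of_isDomain (claim3 Ψ.totalDegree) hne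
  have h2 : ∀ N : ℕ, N ≤ (π ^ N).totalDegree := by
    intro N
    induction N with
    | zero => simp
    | succ N ih =>
      rw [pow_succ, totalDegree_mul_of_isDomain (pow_ne_zero _ hπ0) hπ0]
      have h3 : 1 ≤ π.totalDegree := by
        have h4 : coeff (Finsupp.single i0 1) π ≠ 0 := by
          rw [hcoef]; exact one_ne_zero
        have h5 := le_totalDegree (mem_support_iff.2 h4)
        simpa using h5
      omega
  have := h2 (Ψ.totalDegree + 1)
  omega

end

end Pool.Agent.H530R2
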