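import Mathlib
import Pool.Agent.H530R2.Nst2

/-!
The system of substitutions for blocks of variables, each block entering through one polynomial.
-/

namespace Pool.Agent.H530R2

open MvPolynomial

section sbfree

variable {F R R' : Type*} [Field F] [CommRing R] [IsDomain R] [Algebra F R] [CommRing R']
  [Algebra F R'] {r : ℕ}

omit [IsDomain R] in
theorem sb_map (γ' : Fin r → R') (φ : R' →ₐ[F] R) (Z : Finset (Fin r))
    (Q : MvPolynomial (Fin r) F) :
    map (φ : R' →+* R) (sb γ' Z Q) = sb (fun i => φ (γ' i)) Z Q := by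
  induction Q using MvPolynomial.induction_on with
  | C x => rw [sb_C, sb_C, map_C]; congr 1; exact φ.commutes x
  | add p q hp hq => rw [map_add, map_add, map_add, hp, hq]
  | mul_X p i hp =>
    rw [map_mul, map_mul, map_mul, hp]
    by_cases hi : i ∈ Z
    · rw [sb_X_mem _ hi, sb_X_mem _ hi, map_X]
    · rw [sb_X_not_mem _ hi, sb_X_not_mem _ hi, map_C]; rfl

/-- Freeing a variable whose value becomes a nonconstant polynomial in a new indeterminate. -/
theorem sb_free (γ' : Fin r → R') (γ : Fin r → R) (ψ : R' →ₐ[F] Polynomial R) (k : Fin r)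
    (Z : Finset (Fin r)) (hk : k ∉ Z) (h1 : ∀ l, l ≠ k → l ∉ Z → ψ (γ' l) = Polynomial.C (γ l))
    (h2 : (ψ (γ' k)).natDegree ≠ 0) (Q : MvPolynomial (Fin r) F) (h : sb γ' Z Q = 0) :
    sb γ (insert k Z) Q = 0 := by
  classical
  let Ω : MvPolynomial (Fin r) R' →+* Polynomial (MvPolynomial (Fin r) R) :=
    eval₂Hom ((Polynomial.mapRingHom (C : R →+* MvPolynomial (Fin r) R)).comp
      (ψ : R' →+* Polynomial R)) (fun i => Polynomial.C (X i))
  let Θ : MvPolynomial (Fin r) R →+* Polynomial (MvPolynomial (Fin r) R) :=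
    eval₂Hom (Polynomial.C.comp (C : R →+* MvPolynomial (Fin r) R))
      (fun i => if i = k then Polynomial.X else Polynomial.C (X i))
  have hΩC : ∀ x, Ω (C x) = (ψ x).map C := fun x => eval₂Hom_C _ _ x
  have hΩX : ∀ i, Ω (X i) = Polynomial.C (X i) := fun i => eval₂Hom_X' _ _ i
  have hΘC : ∀ x, Θ (C x) = Polynomial.C (C x) := fun x => eval₂Hom_C _ _ x
  have hΘXk : Θ (X k) = Polynomial.X := by
    have : Θ (X k) = if k = k then Polynomial.X else Polynomial.C (X k) := eval₂Hom_X' _ _ k
    rw [this, if_pos rfl]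
  have hΘX : ∀ i, i ≠ k → Θ (X i) = Polynomial.C (X i) := by
    intro i hi
    have : Θ (X i) = if i = k then Polynomial.X else Polynomial.C (X i) := eval₂Hom_X' _ _ i
    rw [this, if_neg hi]
  clear_value Ω Θ
  have key : ∀ P : MvPolynomial (Fin r) F, Ω (sb γ' Z P) =
      (Θ (sb γ (insert k Z) P)).comp ((ψ (γ' k)).map C) := by
    intro P
    induction P using MvPolynomial.induction_on with
    | C x =>
      rw [sb_C, sb_C, hΩC, hΘC, Polynomial.C_comp]
      have : ψ (algebraMap F R' x) = Polynomial.C (algebraMap F R x) := by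
        rw [AlgHom.commutes, Polynomial.algebraMap_apply]
      rw [this, Polynomial.map_C]
    | add p q hp hq => rw [map_add, map_add, map_add, map_add, Polynomial.add_comp, hp, hq]
    | mul_X p i hp =>
      rw [map_mul, map_mul, map_mul, map_mul, Polynomial.mul_comp, hp]
      congr 1
      by_cases hi : i ∈ Z
      · have hik : i ≠ k := by rintro rfl; exact hk hi
        rw [sb_X_mem _ hi, sb_X_mem _ (Finset.mem_insert_of_mem hi), hΩX, hΘX i hik,
          Polynomial.C_comp]
      · by_cases hik : i = k
        · subst hik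
          rw [sb_X_not_mem _ hi, sb_X_mem _ (Finset.mem_insert_self _ _), hΩC, hΘXk,
            Polynomial.X_comp]
        · have hni : i ∉ insert k Z := by simp [hi, hik]
          rw [sb_X_not_mem _ hi, sb_X_not_mem _ hni, hΩC, hΘC, Polynomial.C_comp, h1 i hik hi,
            Polynomial.map_C]
  have h3 := key Q
  rw [h, map_zero] at h3
  have hinj : ∀ P, Θ P = 0 → P = 0 := by
    intro P hP
    have hev : ∀ P, (Θ P).eval (X k) = P := by
      intro P
      induction P using MvPolynomial.induction_on with
      | C x => rw [hΘC, Polynomial.eval_C]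
      | add p q hp hq => rw [map_add, Polynomial.eval_add, hp, hq]
      | mul_X p i hp =>
        rw [map_mul, Polynomial.eval_mul, hp]
        by_cases hi : i = k
        · subst hi; rw [hΘXk, Polynomial.eval_X]
        · rw [hΘX i hi, Polynomial.eval_C]
    rw [← hev P, hP, Polynomial.eval_zero]
  rcases Polynomial.comp_eq_zero_iff.1 h3.symm with h4 | ⟨_, h4⟩
  · exact hinj _ h4
  · exfalso
    apply h2
    have h5 := congrArg Polynomial.natDegree h4
    rwa [Polynomial.natDegree_C, Polynomial.natDegree_map_eq_of_injective (C_injective _ _)] at h5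

end sbfree

section seeds

variable {F : Type*} [Field F] {n : ℕ} (a : Fin n → F)

theorem exists_theta (j : ℕ) : ∃ θ : MvPolynomial (Fin (j + 1) ⊕ Fin (j + 1)) F →ₐ[F]
    MvPolynomial (Fin j ⊕ Fin j) F, ∀ f, θ (gen a (j + 1) f) = gen a j f := by
  let θ : MvPolynomial (Fin (j + 1) ⊕ Fin (j + 1)) F →ₐ[F] MvPolynomial (Fin j ⊕ Fin j) F :=
    MvPolynomial.aeval (Sum.elim
      (fun l => Fin.lastCases (0 : MvPolynomial (Fin j ⊕ Fin j) F)
        (fun l' => MvPolynomial.X (Sum.inl l')) l)
      (fun l => Fin.lastCases (0 : MvPolynomial (Fin j ⊕ Fin j) F)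
        (fun l' => MvPolynomial.X (Sum.inr l')) l))
  have e1 : ∀ l : Fin j, θ (MvPolynomial.X (Sum.inl l.castSucc)) = MvPolynomial.X (Sum.inl l) := by
    intro l; simp [θ]
  have e2 : θ (MvPolynomial.X (Sum.inl (Fin.last j))) = 0 := by simp [θ]
  have e3 : ∀ l : Fin j, θ (MvPolynomial.X (Sum.inr l.castSucc)) = MvPolynomial.X (Sum.inr l) := by
    intro l; simp [θ]
  have e5 : ∀ c, θ (MvPolynomial.C c) = MvPolynomial.C c := fun c => θ.commutes c
  refine ⟨θ, ?_⟩
  clear_value θ
  have h : θ.comp (gen a (j + 1)) = gen a j := by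
    apply MvPolynomial.algHom_ext
    intro i
    simp only [AlgHom.comp_apply, gen, MvPolynomial.aeval_X, Fin.sum_univ_castSucc, map_add,
      map_sum, map_mul, map_prod, map_sub, e1, e2, e3, e5, zero_mul, add_zero]
  intro f
  rw [← h, AlgHom.comp_apply]

theorem exists_psi (ha : Function.Injective a) (j : ℕ) (t : Fin n) :
    ∃ (c : F) (ψ : MvPolynomial (Fin (j + 1) ⊕ Fin (j + 1)) F →ₐ[F]
      Polynomial (MvPolynomial (Fin j ⊕ Fin j) F)), c ≠ 0 ∧
      (∀ f ∈ supported F ({t}ᶜ : Set (Fin n)), ψ (gen a (j + 1) f) = Polynomial.C (gen a j f)) ∧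
      (∀ f, (Polynomial.derivative (ψ (gen a (j + 1) f))).eval 0 =
        C c * gen a j (pderiv t f)) := by
  classical
  let ψ : MvPolynomial (Fin (j + 1) ⊕ Fin (j + 1)) F →ₐ[F]
      Polynomial (MvPolynomial (Fin j ⊕ Fin j) F) :=
    MvPolynomial.aeval (Sum.elim
      (fun l => Fin.lastCases (Polynomial.X : Polynomial (MvPolynomial (Fin j ⊕ Fin j) F))
        (fun l' => Polynomial.C (MvPolynomial.X (Sum.inl l'))) l)
      (fun l => Fin.lastCases
        (Polynomial.C (MvPolynomial.C (a t)) : Polynomial (MvPolynomial (Fin j ⊕ Fin j) F))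
        (fun l' => Polynomial.C (MvPolynomial.X (Sum.inr l'))) l))
  have e1 : ∀ l : Fin j, ψ (MvPolynomial.X (Sum.inl l.castSucc)) =
      Polynomial.C (MvPolynomial.X (Sum.inl l)) := by
    intro l; simp [ψ]
  have e2 : ψ (MvPolynomial.X (Sum.inl (Fin.last j))) = Polynomial.X := by simp [ψ]
  have e3 : ∀ l : Fin j, ψ (MvPolynomial.X (Sum.inr l.castSucc)) =
      Polynomial.C (MvPolynomial.X (Sum.inr l)) := by
    intro l; simp [ψ]
  have e4 : ψ (MvPolynomial.X (Sum.inr (Fin.last j))) =
      Polynomial.C (MvPolynomial.C (a t)) := by simp [ψ]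
  have e5 : ∀ c, ψ (MvPolynomial.C c) = Polynomial.C (MvPolynomial.C c) := fun c => ψ.commutes c
  refine ⟨∏ i' ∈ Finset.univ.erase t, (a t - a i'), ψ, ?_, ?_, ?_⟩
  · rw [Finset.prod_ne_zero_iff]
    intro i' hi'
    rw [sub_ne_zero]
    intro heq
    exact (Finset.ne_of_mem_erase hi') (ha heq).symm
  all_goals
    clear_value ψ
    have hψ : ∀ i, ψ (gen a (j + 1) (MvPolynomial.X i)) =
        Polynomial.C (gen a j (MvPolynomial.X i)) + Polynomial.X *
          Polynomial.C (MvPolynomial.C (∏ i' ∈ Finset.univ.erase i, (a t - a i'))) := by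
      intro i
      simp only [gen, MvPolynomial.aeval_X, Fin.sum_univ_castSucc, map_add,
        map_sum, map_mul, map_prod, map_sub, e1, e2, e3, e4, e5]
    have hzero : ∀ i, i ≠ t → ∏ i' ∈ Finset.univ.erase i, (a t - a i') = 0 := by
      intro i hi
      apply Finset.prod_eq_zero (i := t)
      · simp [hi.symm]
      · simp
  · intro f hf
    have hf' : f ∈ Algebra.adjoin F (MvPolynomial.X '' ({t}ᶜ : Set (Fin n))) := hf
    clear hf
    induction hf' using Algebra.adjoin_induction with
    | mem y hy =>
      obtain ⟨i, hi, rfl⟩ := hy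
      rw [hψ, hzero i hi, map_zero, map_zero, mul_zero, add_zero]
    | algebraMap x =>
      rw [AlgHom.commutes, AlgHom.commutes, AlgHom.commutes, Polynomial.algebraMap_apply]
    | add y z _ _ hy hz => simp only [map_add, hy, hz]
    | mul y z _ _ hy hz => simp only [map_mul, hy, hz]
  · have hev : ∀ f, (ψ (gen a (j + 1) f)).eval 0 = gen a j f := by
      intro f
      induction f using MvPolynomial.induction_on with
      | C x =>
        have h1 : gen a (j + 1) (C x) = C x := (gen a (j + 1)).commutes x
        have h2 : gen a j (C x) = C x := (gen a j).commutes x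
        rw [h1, h2, e5, Polynomial.eval_C]
      | add p q hp hq => rw [map_add, map_add, map_add, Polynomial.eval_add, hp, hq]
      | mul_X p i hp =>
        rw [map_mul, map_mul, map_mul, Polynomial.eval_mul, hp, hψ]
        simp
    intro f
    induction f using MvPolynomial.induction_on with
    | C x =>
      have h1 : gen a (j + 1) (C x) = C x := (gen a (j + 1)).commutes x
      rw [h1, e5, Polynomial.derivative_C, Polynomial.eval_zero, pderiv_C, map_zero, mul_zero]
    | add p q hp hq =>
      rw [map_add, map_add, Polynomial.derivative_add, Polynomial.eval_add, hp, hq, map_add,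
        map_add, mul_add]
    | mul_X p i hp =>
      rw [map_mul, map_mul, Polynomial.derivative_mul, Polynomial.eval_add, Polynomial.eval_mul,
        Polynomial.eval_mul, hp, hev, hev, pderiv_mul, map_add, map_mul, map_mul, hψ]
      by_cases hi : i = t
      · rw [hi, pderiv_X_self, map_one]
        generalize (∏ i' ∈ Finset.univ.erase t, (a t - a i')) = c0
        rw [Polynomial.derivative_add, Polynomial.derivative_C, Polynomial.derivative_mul, Polynomial.derivative_X,
          Polynomial.derivative_C]
        simp only [Polynomial.eval_mul, Polynomial.eval_C, Polynomial.eval_one, mul_zero,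
          add_zero, zero_add, one_mul]
        ring
      · rw [pderiv_X_of_ne hi, hzero i hi]
        simp
        ring

end seeds

end Pool.Agent.H530R2
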