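import Mathlib
import Pool.Agent.H530R2.Nst3

/-!
Programs reading polynomials in pairwise independent directions: a polynomial computed by such a
program which vanishes on the generator is zero.
-/

namespace Pool.Agent.H530R2

open MvPolynomial

section blocks

variable {F : Type*} [Field F] [CharZero F] {n r : ℕ} (a : Fin n → F)

omit [CharZero F] in
theorem genI_le {j j' : ℕ} (h : j ≤ j') : genI a j' ≤ genI a j := by
  induction j', h using Nat.le_induction with
  | base => exact le_rfl
  | succ b _ ih => exact (genI_anti a b).trans ih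

omit [CharZero F] in
theorem sb_mono1 (j : ℕ) (G : Fin r → MvPolynomial (Fin n) F) (Z : Finset (Fin r))
    (Q : MvPolynomial (Fin r) F) (h : sb (fun k => gen a (j + 1) (G k)) Z Q = 0) :
    sb (fun k => gen a j (G k)) Z Q = 0 := by
  obtain ⟨θ, hθ⟩ := exists_theta a j
  have h1 := congrArg (map (θ : MvPolynomial (Fin (j + 1) ⊕ Fin (j + 1)) F →+*
    MvPolynomial (Fin j ⊕ Fin j) F)) h
  rw [sb_map, map_zero] at h1
  simpa only [hθ] using h1

/-- The system of substitutions of polynomials `G k` for the variables outside the free set;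
variables in `Cst` are always free. -/
noncomputable def blockVan (ha : Function.Injective a) (m : ℕ)
    (G : Fin r → MvPolynomial (Fin n) F) (Cst : Finset (Fin r)) (t : Fin r → Fin n)
    (ht : ∀ k, k ∉ Cst → pderiv (t k) (G k) ∉ genI a m)
    (hsup : ∀ k, k ∉ Cst → ∀ l, l ≠ k → G l ∈ supported F ({t k}ᶜ : Set (Fin n))) :
    Van F r where
  van j Z Q := sb (fun k => gen a (m + j) (G k)) (Z ∪ Cst) Q = 0
  mono1 j Z Q h := sb_mono1 a (m + j) G (Z ∪ Cst) Q h
  free j Z i Q h := by
    by_cases hi : i ∈ Z ∪ Cst
    · have h1 : insert i Z ∪ Cst = Z ∪ Cst := by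
        rw [Finset.insert_union, Finset.insert_eq_of_mem hi]
      rw [h1]
      exact sb_mono1 a (m + j) G (Z ∪ Cst) Q h
    · obtain ⟨c, ψ, hc, h1, h2⟩ := exists_psi a ha (m + j) (t i)
      rw [Finset.insert_union]
      have hiC : i ∉ Cst := fun hc => hi (Finset.mem_union_right _ hc)
      refine sb_free _ _ ψ i (Z ∪ Cst) hi (fun l hl _ => h1 _ (hsup i hiC l hl)) ?_ Q h
      intro hdeg
      obtain ⟨x, hx⟩ := Polynomial.natDegree_eq_zero.1 hdeg
      have h3 := h2 (G i)
      rw [← hx, Polynomial.derivative_C, Polynomial.eval_zero] at h3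
      have h4 : gen a (m + j) (pderiv (t i) (G i)) = 0 := by
        rcases mul_eq_zero.1 h3.symm with h | h
        · exact absurd (C_eq_zero.1 h) hc
        · exact h
      exact ht i hiC (genI_le a (Nat.le_add_right m j) h4)
  lossless j Z i0 hi0 Q μ ρ κ hκ mm hpde hQ hμ := by
    by_cases hi : i0 ∈ Cst
    · have h1 : insert i0 Z ∪ Cst = Z ∪ Cst := by
        rw [Finset.insert_union, Finset.insert_eq_of_mem (Finset.mem_union_right _ hi)]
      rw [h1]
      exact hQ
    · rw [Finset.insert_union]
      refine sb_lossless _ (Z := Z ∪ Cst) ?_ κ (fun p => Finset.mem_union_left _ (hκ p)) mm hpde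
        hQ hμ
      rw [Finset.mem_union]
      tauto
  supp j Z Q hQ h := sb_supported_eq_zero _ (supported_mono (by simp) hQ) h

end blocks

end Pool.Agent.H530R2
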