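import Mathlib
import Pool.Agent.H530R2.Nst4

/-!
Programs with a bounded number of registers which read given elements once.
-/

namespace Pool.Agent.H530R2

open MvPolynomial

/-- The contents of the `w` registers after `k` steps of a program reading `x 0, x 1, …`. -/
noncomputable def run {R A : Type*} [CommRing R] [CommRing A] [Algebra R A] {w r : ℕ}
    (c₀ : Fin w → R) (upd : Fin r → Fin w → MvPolynomial (Option (Fin w)) R) (x : Fin r → A) :
    ℕ → Fin w → A
  | 0 => fun s => algebraMap R A (c₀ s)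
  | k + 1 => fun s =>
      if h : k < r then
        aeval (fun o => Option.elim o (x ⟨k, h⟩) (run c₀ upd x k)) (upd ⟨k, h⟩ s)
      else run c₀ upd x k s

theorem aeval_map_nat {R A R' A' τ : Type*} [CommRing R] [CommRing A] [Algebra R A] [CommRing R']
    [CommRing A'] [Algebra R' A'] (ρ : R →+* R') (φ : A →+* A')
    (hc : ∀ y, φ (algebraMap R A y) = algebraMap R' A' (ρ y)) (f : τ → A) (f' : τ → A')
    (hf : ∀ i, φ (f i) = f' i) (P : MvPolynomial τ R) :
    φ (aeval f P) = aeval f' (map ρ P) := by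
  induction P using MvPolynomial.induction_on with
  | C y => rw [map_C, aeval_C, aeval_C, hc]
  | add p q hp hq => rw [map_add, map_add, map_add, map_add, hp, hq]
  | mul_X p i hp => rw [map_mul, map_mul, map_mul, map_mul, hp, map_X, aeval_X, aeval_X, hf]

theorem run_map {R A R' A' : Type*} [CommRing R] [CommRing A] [Algebra R A] [CommRing R']
    [CommRing A'] [Algebra R' A'] {w r : ℕ} (ρ : R →+* R') (φ : A →+* A')
    (hc : ∀ y, φ (algebraMap R A y) = algebraMap R' A' (ρ y))
    (c₀ : Fin w → R) (upd : Fin r → Fin w → MvPolynomial (Option (Fin w)) R) (x : Fin r → A)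
    (x' : Fin r → A') (hx : ∀ k, φ (x k) = x' k) (k : ℕ) (s : Fin w) :
    φ (run c₀ upd x k s) = run (fun s => ρ (c₀ s)) (fun k s => map ρ (upd k s)) x' k s := by
  induction k generalizing s with
  | zero => exact hc _
  | succ k ih =>
    simp only [run]
    split_ifs with h
    · apply aeval_map_nat ρ φ hc
      rintro (_ | o)
      · exact hx _
      · exact ih o
    · exact ih s

/-- the output of a program -/
noncomputable def outp {R A : Type*} [CommRing R] [CommRing A] [Algebra R A] {w r : ℕ}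
    (c₀ : Fin w → R) (upd : Fin r → Fin w → MvPolynomial (Option (Fin w)) R)
    (Φ : MvPolynomial (Fin w) R) (x : Fin r → A) : A := aeval (run c₀ upd x r) Φ

theorem outp_map {R A R' A' : Type*} [CommRing R] [CommRing A] [Algebra R A] [CommRing R']
    [CommRing A'] [Algebra R' A'] {w r : ℕ} (ρ : R →+* R') (φ : A →+* A')
    (hc : ∀ y, φ (algebraMap R A y) = algebraMap R' A' (ρ y))
    (c₀ : Fin w → R) (upd : Fin r → Fin w → MvPolynomial (Option (Fin w)) R)
    (Φ : MvPolynomial (Fin w) R) (x : Fin r → A) (x' : Fin r → A') (hx : ∀ k, φ (x k) = x' k) :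
    φ (outp c₀ upd Φ x) =
      outp (fun s => ρ (c₀ s)) (fun k s => map ρ (upd k s)) (map ρ Φ) x' := by
  unfold outp
  apply aeval_map_nat ρ φ hc
  exact fun s => run_map ρ φ hc c₀ upd x x' hx r s

theorem outp_alg {R A A' : Type*} [CommRing R] [CommRing A] [Algebra R A]
    [CommRing A'] [Algebra R A'] {w r : ℕ} (φ : A →ₐ[R] A')
    (c₀ : Fin w → R) (upd : Fin r → Fin w → MvPolynomial (Option (Fin w)) R)
    (Φ : MvPolynomial (Fin w) R) (x : Fin r → A) :
    φ (outp c₀ upd Φ x) = outp c₀ upd Φ (fun k => φ (x k)) := by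
  have h := outp_map (RingHom.id R) (φ : A →+* A') (fun y => φ.commutes y) c₀ upd Φ x
    (fun k => φ (x k)) (fun _ => rfl)
  simp only [map_id, RingHom.id_apply] at h
  exact h

section zero

variable {F : Type*} [Field F] [CharZero F] {n r w : ℕ} (a : Fin n → F)

omit [CharZero F] in
theorem run_supp (c₀ : Fin w → F) (upd : Fin r → Fin w → MvPolynomial (Option (Fin w)) F)
    (x : Fin r → MvPolynomial (Fin r) F)
    (hx : ∀ k, x k ∈ Algebra.adjoin F (X '' ({k} : Set (Fin r)) : Set (MvPolynomial (Fin r) F)))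
    (b : ℕ) (s : Fin w) :
    run c₀ upd x b s ∈ supported F (Zs (1 : Equiv.Perm (Fin r)) b : Set (Fin r)) := by
  induction b generalizing s with
  | zero => exact Subalgebra.algebraMap_mem _ _
  | succ b ih =>
    have hmono : supported F (Zs (1 : Equiv.Perm (Fin r)) b : Set (Fin r)) ≤
        supported F (Zs (1 : Equiv.Perm (Fin r)) (b + 1) : Set (Fin r)) :=
      supported_mono (by exact_mod_cast Zs_mono (σ := 1) (Nat.le_succ b))
    simp only [run]
    split_ifs with h
    · have h1 : (Algebra.adjoin F (Set.range fun o : Option (Fin w) =>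
          Option.elim o (x ⟨b, h⟩) (run c₀ upd x b))) ≤
          supported F (Zs (1 : Equiv.Perm (Fin r)) (b + 1) : Set (Fin r)) := by
        apply Algebra.adjoin_le
        rintro _ ⟨o, rfl⟩
        rcases o with _ | s
        · have h2 : Algebra.adjoin F (X '' ({⟨b, h⟩} : Set (Fin r)) :
              Set (MvPolynomial (Fin r) F)) ≤
              supported F (Zs (1 : Equiv.Perm (Fin r)) (b + 1) : Set (Fin r)) := by
            apply supported_mono
            rw [Set.singleton_subset_iff, Finset.mem_coe, Zs_succ _ h]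
            exact Finset.mem_insert_self _ _
          exact h2 (hx _)
        · exact hmono (ih s)
      apply h1
      rw [Algebra.adjoin_range_eq_range_aeval]
      exact ⟨_, rfl⟩
    · exact hmono (ih s)

omit [CharZero F] in
theorem run_step (c₀ : Fin w → F) (upd : Fin r → Fin w → MvPolynomial (Option (Fin w)) F)
    (x : Fin r → MvPolynomial (Fin r) F)
    (hx : ∀ k, x k ∈ Algebra.adjoin F (X '' ({k} : Set (Fin r)) : Set (MvPolynomial (Fin r) F)))
    (b : ℕ) (hb : b < r) (s : Fin w) :
    run c₀ upd x (b + 1) s ∈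
      Algebra.adjoin F (Set.range (run c₀ upd x b) ∪
        X '' {(1 : Equiv.Perm (Fin r)) ⟨b, hb⟩}) := by
  simp only [run]
  rw [dif_pos hb]
  have h1 : (Algebra.adjoin F (Set.range fun o : Option (Fin w) =>
      Option.elim o (x ⟨b, hb⟩) (run c₀ upd x b))) ≤
      Algebra.adjoin F (Set.range (run c₀ upd x b) ∪ X '' {(1 : Equiv.Perm (Fin r)) ⟨b, hb⟩}) := by
    apply Algebra.adjoin_le
    rintro _ ⟨o, rfl⟩
    rcases o with _ | s
    · exact Algebra.adjoin_mono (Set.subset_union_right) (hx ⟨b, hb⟩)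
    · exact Algebra.subset_adjoin (Or.inl ⟨s, rfl⟩)
  apply h1
  rw [Algebra.adjoin_range_eq_range_aeval]
  exact ⟨_, rfl⟩

/-- A program over blocks which are pairwise independent in the directions `t k` and which
vanishes on the generator is zero. -/
theorem prog_zero (ha : Function.Injective a) (m : ℕ)
    (G : Fin r → MvPolynomial (Fin n) F) (Cst : Finset (Fin r)) (κ : Fin r → F)
    (hC : ∀ k, k ∈ Cst → G k = C (κ k)) (t : Fin r → Fin n)
    (ht : ∀ k, k ∉ Cst → pderiv (t k) (G k) ∉ genI a m)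
    (hsup : ∀ k, k ∉ Cst → ∀ l, l ≠ k → G l ∈ supported F ({t k}ᶜ : Set (Fin n)))
    (c₀ : Fin w → F) (upd : Fin r → Fin w → MvPolynomial (Option (Fin w)) F)
    (Φ : MvPolynomial (Fin w) F) (h : outp c₀ upd Φ G ∈ genI a (m + jcost (w + 1) w)) :
    outp c₀ upd Φ G = 0 := by
  classical
  let x : Fin r → MvPolynomial (Fin r) F := fun k => if k ∈ Cst then C (κ k) else X k
  have hx1 : ∀ k, k ∈ Cst → x k = C (κ k) := fun k hk => if_pos hk
  have hx2 : ∀ k, k ∉ Cst → x k = X k := fun k hk => if_neg hk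
  clear_value x
  have hx : ∀ k, x k ∈ Algebra.adjoin F
      (X '' ({k} : Set (Fin r)) : Set (MvPolynomial (Fin r) F)) := by
    intro k
    by_cases hk : k ∈ Cst
    · rw [hx1 k hk]; exact Subalgebra.algebraMap_mem _ _
    · rw [hx2 k hk]; exact Algebra.subset_adjoin ⟨k, rfl, rfl⟩
  have hst := fun b hb s => run_step c₀ upd x hx b hb s
  have hsys : Sys (1 : Equiv.Perm (Fin r)) (run c₀ upd x) (run c₀ upd x) :=
    Sys.base (fun b s => run_supp c₀ upd x hx b s) hst
  have hctrl : Ctrl ((Zs (1 : Equiv.Perm (Fin r)) r \ Zs 1 0 : Finset (Fin r)) : Set (Fin r))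
      (run c₀ upd x r) (outp c₀ upd Φ x) := by
    refine (ctrl_of_adjoin (W := ∅) ?_).mono (by simp)
    rw [Set.image_empty, Set.union_empty, Algebra.adjoin_range_eq_range_aeval]
    exact ⟨Φ, rfl⟩
  have haG : aeval G (outp c₀ upd Φ x) = outp c₀ upd Φ G := by
    rw [outp_alg]
    congr 1
    funext k
    by_cases hk : k ∈ Cst
    · rw [hx1 k hk, hC k hk, aeval_C]; rfl
    · rw [hx2 k hk, aeval_X]
  have hstart : (blockVan a ha m G Cst t ht hsup).van (0 + jcost (w + 1) (Fintype.card (Fin w)))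
      (Zs (1 : Equiv.Perm (Fin r)) 0) (outp c₀ upd Φ x) := by
    show sb (fun k => gen a (m + (0 + jcost (w + 1) (Fintype.card (Fin w)))) (G k))
      (Zs (1 : Equiv.Perm (Fin r)) 0 ∪ Cst) (outp c₀ upd Φ x) = 0
    rw [Zs_zero, Finset.empty_union, Fintype.card_fin, zero_add]
    have h0 : gen a (m + jcost (w + 1) w) (outp c₀ upd Φ G) = 0 := h
    rw [outp_alg] at h0 ⊢
    have h1 := congrArg (C : _ →+* MvPolynomial (Fin r)
      (MvPolynomial (Fin (m + jcost (w + 1) w) ⊕ Fin (m + jcost (w + 1) w)) F)) h0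
    rw [map_zero] at h1
    rw [← h1]
    have h2 := outp_alg (Algebra.ofId _ _ |>.restrictScalars F : (MvPolynomial (Fin (m + jcost (w + 1) w) ⊕ Fin (m + jcost (w + 1) w)) F)
      →ₐ[F] MvPolynomial (Fin r)
      (MvPolynomial (Fin (m + jcost (w + 1) w) ⊕ Fin (m + jcost (w + 1) w)) F)) c₀ upd Φ
      (fun k => gen a (m + jcost (w + 1) w) (G k))
    refine Eq.trans ?_ h2.symm
    congr 1
    funext k
    by_cases hk : k ∈ Cst
    · rw [hx1 k hk, hC k hk, sb_C]
      have h3 : gen a (m + jcost (w + 1) w) (C (κ k)) = C (κ k) :=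
        (gen a (m + jcost (w + 1) w)).commutes _
      show C (algebraMap F _ (κ k)) = C (gen a (m + jcost (w + 1) w) (C (κ k)))
      rw [h3]
      rfl
    · rw [hx2 k hk, sb_X_not_mem _ hk]
      rfl
  have h1 := Van.jet_dec (blockVan a ha m G Cst t ht hsup) (σ := 1) (p := run c₀ upd x)
    (w + 1) (by simp) hst (Fin w) (run c₀ upd x) hsys 0 r (Nat.zero_le _) le_rfl
    (Or.inr (by simp)) _ hctrl 0 hstart
  have h2 : outp c₀ upd Φ x = 0 := by
    refine Van.supp _ 0 _ _ ?_ h1
    rw [Zs_last, Finset.coe_univ, supported_univ]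
    trivial
  rw [← haG, h2, map_zero]

end zero

end Pool.Agent.H530R2
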