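import Mathlib
import Pool.Agent.H530R2.SV

/-!
The image of the generator consists of the points `p(a_i)/q(a_i)`.
-/

namespace Pool.Agent.H530R2

open Polynomial

section spec

variable {F A L E : Type*} [Field F] [CommRing A] [Field L] [Field E]
  [Algebra F A] [Algebra A L] [IsFractionRing A L] [Algebra F L] [IsScalarTower F A L]
  [Algebra F E]

/-- A polynomial relation between fractions survives a specialisation at which the denominators
do not vanish. -/
theorem spec_zero (ρ : A →ₐ[F] E) {ι : Type*} (u d : ι → A) (hd : ∀ i, ρ (d i) ≠ 0)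
    (f : MvPolynomial ι F)
    (h : MvPolynomial.aeval (fun i => algebraMap A L (u i) / algebraMap A L (d i)) f = 0) :
    MvPolynomial.aeval (fun i => ρ (u i) / ρ (d i)) f = 0 := by
  let M : Submonoid A := (nonZeroDivisors E).comap (ρ : A →* E)
  have hM : ∀ x : A, x ∈ M → ρ x ≠ 0 := by
    intro x hx
    exact nonZeroDivisors.ne_zero hx
  have hM0 : ∀ x : A, x ∈ M → algebraMap A L x ≠ 0 := by
    intro x hx h0
    rw [FaithfulSMul.algebraMap_eq_zero_iff] at h0
    subst h0
    exact hM 0 hx (map_zero _)
  have hdM : ∀ i, d i ∈ M := by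
    intro i
    exact mem_nonZeroDivisors_of_ne_zero (hd i)
  have hL : ∀ y : M, IsUnit ((IsScalarTower.toAlgHom F A L) (y : A)) := by
    intro y
    rw [isUnit_iff_ne_zero]
    exact hM0 y y.2
  have hE : ∀ y : M, IsUnit (ρ (y : A)) := by
    intro y
    rw [isUnit_iff_ne_zero]
    exact hM y y.2
  let φL : Localization M →ₐ[F] L := IsLocalization.liftAlgHom (M := M)
    (f := IsScalarTower.toAlgHom F A L) hL
  let φE : Localization M →ₐ[F] E := IsLocalization.liftAlgHom (M := M) (f := ρ) hE
  have hφL : ∀ (x : A) (y : M), φL (IsLocalization.mk' (Localization M) x y) =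
      algebraMap A L x / algebraMap A L y := by
    intro x y
    simp only [φL, IsLocalization.liftAlgHom_apply]
    rw [IsLocalization.lift_mk'_spec]
    show algebraMap A L x = algebraMap A L y * _
    rw [mul_div_cancel₀]
    exact hM0 y y.2
  have hφE : ∀ (x : A) (y : M), φE (IsLocalization.mk' (Localization M) x y) =
      ρ x / ρ y := by
    intro x y
    simp only [φE, IsLocalization.liftAlgHom_apply]
    rw [IsLocalization.lift_mk'_spec]
    show ρ x = ρ y * _
    rw [mul_div_cancel₀]
    exact hM y y.2
  clear_value φL φE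
  have hinj : ∀ b, φL b = 0 → b = 0 := by
    intro b hb
    obtain ⟨x, y, rfl⟩ := IsLocalization.exists_mk'_eq M b
    rw [hφL, div_eq_zero_iff] at hb
    rcases hb with hb | hb
    · rw [FaithfulSMul.algebraMap_eq_zero_iff] at hb
      rw [hb, IsLocalization.mk'_zero]
    · exact absurd hb (hM0 y y.2)
  have h1 : φL (MvPolynomial.aeval (fun i => IsLocalization.mk' (Localization M) (u i)
      (⟨d i, hdM i⟩ : M)) f) = 0 := by
    rw [← AlgHom.comp_apply, MvPolynomial.comp_aeval]
    simp only [hφL]
    exact h
  have h2 := hinj _ h1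
  have h3 := congrArg φE h2
  rw [← AlgHom.comp_apply, MvPolynomial.comp_aeval, map_zero] at h3
  simp only [hφE] at h3
  exact h3

end spec

section universal

variable {F : Type*} [Field F] {n : ℕ} (a : Fin n → F)

/-- Split denominators with distinct roots. -/
theorem universal_distinct {m : ℕ} {f : MvPolynomial (Fin n) F} (hf : f ∈ genI a m)
    {E : Type*} [Field E] [Algebra F E] (z : Fin m → E) (hz : Function.Injective z)
    (hza : ∀ i l, algebraMap F E (a i) ≠ z l) (p : E[X]) (hp : p.degree < m) :
    MvPolynomial.aeval (fun i => p.eval (algebraMap F E (a i)) /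
      ∏ l, (algebraMap F E (a i) - z l)) f = 0 := by
  classical
  set P : E → E := fun t => ∏ i, (t - algebraMap F E (a i)) with hP
  have hPz : ∀ l, P (z l) ≠ 0 := by
    intro l
    rw [hP, Finset.prod_ne_zero_iff]
    intro i _
    rw [sub_ne_zero]
    exact (hza i l).symm
  set y : Fin m → E := fun l => -(Lagrange.nodalWeight Finset.univ z l * p.eval (z l) / P (z l))
    with hy
  have h0 : gen a m f = 0 := hf
  have h1 := congrArg (MvPolynomial.aeval (Sum.elim y z) :
    MvPolynomial (Fin m ⊕ Fin m) F →ₐ[F] E) h0
  rw [map_zero, gen, ← AlgHom.comp_apply, MvPolynomial.comp_aeval] at h1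
  convert h1 using 3
  funext i
  simp only [map_sum, map_mul, map_prod, map_sub, MvPolynomial.aeval_X, MvPolynomial.aeval_C,
    Sum.elim_inl, Sum.elim_inr]
  have hint : p = Lagrange.interpolate Finset.univ z (fun l => p.eval (z l)) := by
    apply Lagrange.eq_interpolate
    · exact hz.injOn
    · simpa using hp
  have h2 : p.eval (algebraMap F E (a i)) = (∏ l, (algebraMap F E (a i) - z l)) *
      ∑ l, Lagrange.nodalWeight Finset.univ z l * (algebraMap F E (a i) - z l)⁻¹ *
        p.eval (z l) := by
    conv_lhs => rw [hint]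
    rw [Lagrange.eval_interpolate_not_at_node, Lagrange.eval_nodal]
    intro l _
    exact hza i l
  rw [h2, mul_div_cancel_left₀]
  · apply Finset.sum_congr rfl
    intro l _
    have h3 : P (z l) = (z l - algebraMap F E (a i)) *
        ∏ i' ∈ Finset.univ.erase i, (z l - algebraMap F E (a i')) := by
      rw [hP]
      exact (Finset.mul_prod_erase Finset.univ _ (Finset.mem_univ i)).symm
    have h4 := hPz l
    rw [hy]
    simp only
    rw [h3] at h4 ⊢
    have h5 := left_ne_zero_of_mul h4
    have h6 := right_ne_zero_of_mul h4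
    have h7 : algebraMap F E (a i) - z l ≠ 0 := by
      rw [sub_ne_zero]; exact hza i l
    field_simp
    ring
  · rw [Finset.prod_ne_zero_iff]
    intro l _
    rw [sub_ne_zero]
    exact hza i l

/-- Split denominators. -/
theorem universal_split [Infinite F] {m : ℕ} {f : MvPolynomial (Fin n) F} (hf : f ∈ genI a m)
    {E : Type*} [Field E] [Algebra F E] (z : Fin m → E)
    (hza : ∀ i l, algebraMap F E (a i) ≠ z l) (p : E[X]) (hp : p.degree < m) :
    MvPolynomial.aeval (fun i => p.eval (algebraMap F E (a i)) /
      ∏ l, (algebraMap F E (a i) - z l)) f = 0 := by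
  classical
  let c : Fin m ↪ F := (Fin.valEmbedding).trans (Infinite.natEmbedding F)
  let z' : Fin m → E[X] := fun l => C (z l) + C (algebraMap F E (c l)) * X
  have hinj : Function.Injective (algebraMap E[X] (RatFunc E)) :=
    FaithfulSMul.algebraMap_injective _ _
  obtain ⟨ρ, hρC, hρX⟩ : ∃ ρ : E[X] →ₐ[F] E, (∀ x, ρ (C x) = x) ∧ ρ X = 0 :=
    ⟨(Polynomial.aeval (R := E) (0 : E)).restrictScalars F, fun x => by simp, by simp⟩
  have haF : ∀ x : F, algebraMap F (RatFunc E) x =
      algebraMap E[X] (RatFunc E) (C (algebraMap F E x)) := by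
    intro x
    rw [IsScalarTower.algebraMap_apply F E[X] (RatFunc E), Polynomial.algebraMap_apply]
  have haE : ∀ x : E, algebraMap E (RatFunc E) x = algebraMap E[X] (RatFunc E) (C x) := by
    intro x
    rw [IsScalarTower.algebraMap_apply E E[X] (RatFunc E), Polynomial.algebraMap_apply,
      Algebra.algebraMap_self, RingHom.id_apply]
  have hpe : ∀ i, (p.map (algebraMap E (RatFunc E))).eval (algebraMap F (RatFunc E) (a i)) =
      algebraMap E[X] (RatFunc E) (C (p.eval (algebraMap F E (a i)))) := by
    intro i
    rw [haF, ← haE, Polynomial.eval_map_apply, ← haE]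
  have hd : ∀ i, ρ (∏ l, (C (algebraMap F E (a i)) - z' l)) =
      ∏ l, (algebraMap F E (a i) - z l) := by
    intro i
    simp only [z', map_prod, map_sub, map_add, map_mul, hρC, hρX, mul_zero, add_zero]
  have h1 := universal_distinct a hf (E := RatFunc E)
    (fun l => algebraMap E[X] (RatFunc E) (z' l)) ?_ ?_
    (p.map (algebraMap E (RatFunc E))) ?_
  · have h2 := spec_zero (F := F) (A := E[X]) (L := RatFunc E) (E := E) ρ
      (fun i => C (p.eval (algebraMap F E (a i))))
      (fun i => ∏ l, (C (algebraMap F E (a i)) - z' l)) ?_ f ?_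
    · simp only [hρC, hd] at h2
      exact h2
    · intro i
      rw [hd, Finset.prod_ne_zero_iff]
      intro l _
      rw [sub_ne_zero]
      exact hza i l
    · simp only [hpe] at h1
      simp only [haF] at h1
      simp only [map_prod, map_sub]
      exact h1
  · intro l l' hll
    have h2 := hinj hll
    have h3 := congrArg (fun t => Polynomial.coeff t 1) h2
    simp [z', Polynomial.coeff_C] at h3
    exact h3
  · intro i l h
    rw [haF] at h
    have h2 := hinj h
    have h3 := congrArg (fun t => Polynomial.coeff t 0) h2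
    simp [z'] at h3
    exact hza i l h3
  · rw [Polynomial.degree_map]; exact hp

/-- All denominators. -/
theorem universal [Infinite F] {m : ℕ} {f : MvPolynomial (Fin n) F} (hf : f ∈ genI a m)
    {E : Type*} [Field E] [Algebra F E] (p q : E[X]) (hp : p.degree < m) (hq : q.Monic)
    (hqm : q.natDegree = m) (hqa : ∀ i, q.eval (algebraMap F E (a i)) ≠ 0) :
    MvPolynomial.aeval (fun i => p.eval (algebraMap F E (a i)) /
      q.eval (algebraMap F E (a i))) f = 0 := by
  classical
  set φ := algebraMap E (AlgebraicClosure E) with hφ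
  have hsplit : (q.map φ).Splits := IsAlgClosed.splits _
  have hmon : (q.map φ).Monic := hq.map _
  obtain ⟨l, hl⟩ : ∃ l : List (AlgebraicClosure E), (l : Multiset _) = (q.map φ).roots :=
    Quotient.exists_rep _
  have hcard : l.length = m := by
    rw [← hqm, ← Polynomial.natDegree_map φ, hsplit.natDegree_eq_card_roots, ← hl]
    simp
  subst hcard
  have hev : ∀ x, (q.map φ).eval x = ∏ k : Fin l.length, (x - l.get k) := by
    intro x
    have h1 := hsplit.eq_prod_roots_of_monic hmon
    rw [h1, ← hl]
    rw [Polynomial.eval_multiset_prod, Multiset.map_map, Multiset.map_coe, Multiset.prod_coe]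
    conv_lhs => rw [← List.ofFn_get l]
    rw [List.map_ofFn, List.prod_ofFn]
    simp
  have hqe : ∀ i, (q.map φ).eval (algebraMap F (AlgebraicClosure E) (a i)) =
      φ (q.eval (algebraMap F E (a i))) := by
    intro i
    rw [IsScalarTower.algebraMap_apply F E (AlgebraicClosure E), Polynomial.eval_map_apply]
  have hpe : ∀ i, (p.map φ).eval (algebraMap F (AlgebraicClosure E) (a i)) =
      φ (p.eval (algebraMap F E (a i))) := by
    intro i
    rw [IsScalarTower.algebraMap_apply F E (AlgebraicClosure E), Polynomial.eval_map_apply]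
  have hza : ∀ i k, algebraMap F (AlgebraicClosure E) (a i) ≠ l.get k := by
    intro i k h
    apply hqa i
    apply (map_eq_zero φ).1
    rw [← hqe, hev, h]
    exact Finset.prod_eq_zero (Finset.mem_univ k) (sub_self _)
  have h1 := universal_split a hf (E := AlgebraicClosure E) (fun k => l.get k) hza (p.map φ) ?_
  · simp only [← hev, hqe, hpe, ← map_div₀] at h1
    apply (algebraMap E (AlgebraicClosure E)).injective
    rw [map_zero, ← h1]
    exact (MvPolynomial.aeval_algebraMap_apply _ _ _).symm
  · rw [Polynomial.degree_map]; exact hp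

end universal

end Pool.Agent.H530R2
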