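import Mathlib
import Pool.Agent.H530R2.Rat1

/-!
A generic point of the image of the generator, and a two-parameter family through it.
-/

namespace Pool.Agent.H530R2

open Polynomial

section genpt

variable {F : Type*} [Field F] {n : ℕ}

/-- `∏_{t ∈ T} (x - a t)` -/
def nodeProd {K : Type*} [Field K] [Algebra F K] (a : Fin n → F) (T : Finset (Fin n)) (x : K) : K :=
  ∏ t ∈ T, (x - algebraMap F K (a t))

/-- A generic point of the image of the generator. -/
structure GenPt (a : Fin n → F) (m : ℕ) (K : Type*) [Field K] [Algebra F K] where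
  /-- numerator -/
  p : K[X]
  /-- denominator -/
  q : K[X]
  hp : p.degree < m
  hq : q.Monic
  hqm : q.natDegree = m
  hq0 : ∀ i, q.eval (algebraMap F K (a i)) ≠ 0
  hsep : ∀ (T : Finset (Fin n)) (i j : Fin n), i ∉ T → j ∉ T → i ≠ j →
    q.eval (algebraMap F K (a i)) / nodeProd a T (algebraMap F K (a i)) ≠
    q.eval (algebraMap F K (a j)) / nodeProd a T (algebraMap F K (a j))
  hgen : ∀ f, MvPolynomial.aeval (fun i => p.eval (algebraMap F K (a i)) /
    q.eval (algebraMap F K (a i))) f = 0 → f ∈ genI a m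

theorem nodeProd_ne_zero {K : Type*} [Field K] [Algebra F K] (a : Fin n → F)
    (ha : Function.Injective a) {T : Finset (Fin n)} {i : Fin n} (hi : i ∉ T) :
    nodeProd a T (algebraMap F K (a i)) ≠ 0 := by
  unfold nodeProd
  rw [Finset.prod_ne_zero_iff]
  intro t ht
  rw [← map_sub, Ne, map_eq_zero, sub_eq_zero]
  intro h
  rw [ha h] at hi
  exact hi ht

theorem nodeProd_eq_zero {K : Type*} [Field K] [Algebra F K] (a : Fin n → F)
    {T : Finset (Fin n)} {i : Fin n} (hi : i ∈ T) :
    nodeProd a T (algebraMap F K (a i)) = 0 :=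
  Finset.prod_eq_zero hi (sub_self _)

theorem exists_genPt (a : Fin n → F) (ha : Function.Injective a) (m : ℕ) (hm : 0 < m)
    (K : Type*) [Field K] [Algebra F K] [Algebra (MvPolynomial (Fin m ⊕ Fin m) F) K]
    [IsScalarTower F (MvPolynomial (Fin m ⊕ Fin m) F) K]
    [IsFractionRing (MvPolynomial (Fin m ⊕ Fin m) F) K] :
    Nonempty (GenPt a m K) := by
  classical
  have hinj : Function.Injective (algebraMap (MvPolynomial (Fin m ⊕ Fin m) F) K) :=
    FaithfulSMul.algebraMap_injective _ _
  have haK : ∀ x : F, algebraMap F K x =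
      algebraMap (MvPolynomial (Fin m ⊕ Fin m) F) K (MvPolynomial.C x) := by
    intro x
    rw [IsScalarTower.algebraMap_apply F (MvPolynomial (Fin m ⊕ Fin m) F) K]; rfl
  obtain ⟨z, hz⟩ : ∃ z : Fin m → K, ∀ l, z l =
    algebraMap (MvPolynomial (Fin m ⊕ Fin m) F) K (MvPolynomial.X (Sum.inr l)) := ⟨_, fun l => rfl⟩
  obtain ⟨y, hy⟩ : ∃ y : Fin m → K, ∀ l, y l =
    algebraMap (MvPolynomial (Fin m ⊕ Fin m) F) K (MvPolynomial.X (Sum.inl l)) := ⟨_, fun l => rfl⟩
  have hza : ∀ i l, algebraMap F K (a i) - z l ≠ 0 := by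
    intro i l h
    rw [sub_eq_zero, haK, hz] at h
    have h1 := hinj h
    have h2 := congrArg (MvPolynomial.eval (fun _ => a i + 1)) h1
    rw [MvPolynomial.eval_C, MvPolynomial.eval_X] at h2
    exact one_ne_zero (left_eq_add.1 h2)
  obtain ⟨q, hq⟩ : ∃ q : K[X], q = ∏ l, (X - C (z l)) := ⟨_, rfl⟩
  obtain ⟨p, hp⟩ : ∃ p : K[X], p = -∑ l, C (y l * ∏ i, (z l - algebraMap F K (a i))) *
    ∏ l' ∈ Finset.univ.erase l, (X - C (z l')) := ⟨_, rfl⟩
  have hqe : ∀ x, q.eval x = ∏ l, (x - z l) := by
    intro x
    simp [hq, Polynomial.eval_prod]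
  have hpe : ∀ x, p.eval x = -∑ l, (y l * ∏ i, (z l - algebraMap F K (a i))) *
      ∏ l' ∈ Finset.univ.erase l, (x - z l') := by
    intro x
    simp [hp, Polynomial.eval_prod, Polynomial.eval_finsetSum]
  refine ⟨⟨p, q, ?_, ?_, ?_, ?_, ?_, ?_⟩⟩
  · rw [hp, Polynomial.degree_neg]
    refine lt_of_le_of_lt (Polynomial.degree_sum_le _ _) ?_
    rw [Finset.sup_lt_iff (by exact_mod_cast WithBot.bot_lt_coe m)]
    intro l _
    refine lt_of_le_of_lt (Polynomial.degree_mul_le _ _) ?_
    have h1 : (∏ l' ∈ Finset.univ.erase l, (X - C (z l'))).degree = ((m - 1 : ℕ) : WithBot ℕ) := by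
      rw [Polynomial.degree_prod]
      simp [Finset.card_erase_of_mem]
    rw [h1]
    refine lt_of_le_of_lt (add_le_add_left Polynomial.degree_C_le _) ?_
    rw [zero_add]
    exact_mod_cast Nat.sub_lt hm one_pos
  · rw [hq]; exact Polynomial.monic_prod_of_monic _ _ fun l _ => Polynomial.monic_X_sub_C _
  · rw [hq, Polynomial.natDegree_prod_of_monic _ _ fun l _ => Polynomial.monic_X_sub_C _]
    simp
  · intro i
    rw [hqe, Finset.prod_ne_zero_iff]
    intro l _
    exact hza i l
  · intro T i j hi hj hij h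
    rw [div_eq_div_iff (nodeProd_ne_zero a ha hi) (nodeProd_ne_zero a ha hj), hqe, hqe] at h
    unfold nodeProd at h
    simp only [hz, haK, ← map_sub, ← map_prod, ← map_mul] at h
    have h1 := hinj h
    have h2 := congrArg (MvPolynomial.eval (fun _ => a i)) h1
    simp only [map_mul, map_prod, map_sub, MvPolynomial.eval_C, MvPolynomial.eval_X, sub_self,
      Finset.prod_const, Finset.card_univ, Fintype.card_fin, zero_pow hm.ne', zero_mul] at h2
    have h3 := h2.symm
    rw [mul_eq_zero] at h3
    rcases h3 with h3 | h3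
    · have h4 := (pow_eq_zero_iff hm.ne').1 h3
      rw [sub_eq_zero] at h4
      exact hij (ha h4).symm
    · have h4 := nodeProd_ne_zero (K := F) a ha hi
      unfold nodeProd at h4
      exact h4 h3
  · intro f hf
    have h1 : ∀ i, p.eval (algebraMap F K (a i)) / q.eval (algebraMap F K (a i)) =
        algebraMap (MvPolynomial (Fin m ⊕ Fin m) F) K (∑ l : Fin m, MvPolynomial.X (Sum.inl l) *
    ∏ i' ∈ Finset.univ.erase i, (MvPolynomial.X (Sum.inr l) - MvPolynomial.C (a i'))) := by
      intro i
      rw [hpe, hqe, neg_div, Finset.sum_div, ← Finset.sum_neg_distrib, map_sum]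
      apply Finset.sum_congr rfl
      intro l _
      rw [← Finset.mul_prod_erase Finset.univ (fun l => algebraMap F K (a i) - z l)
        (Finset.mem_univ l), ← Finset.mul_prod_erase Finset.univ
        (fun i => z l - algebraMap F K (a i)) (Finset.mem_univ i)]
      simp only [map_mul, map_prod, map_sub, ← haK, ← hz, ← hy]
      have h2 : ∏ l' ∈ Finset.univ.erase l, (algebraMap F K (a i) - z l') ≠ 0 := by
        rw [Finset.prod_ne_zero_iff]
        intro l' _
        exact hza i l'
      have h3 := hza i l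
      generalize (∏ l' ∈ Finset.univ.erase l, (algebraMap F K (a i) - z l')) = A at h2 ⊢
      generalize (∏ x ∈ Finset.univ.erase i, (z l - algebraMap F K (a x))) = B
      field_simp
      ring
    simp only [h1] at hf
    show gen a m f = 0
    apply hinj
    rw [map_zero, ← hf]
    exact (MvPolynomial.aeval_algebraMap_apply _ _ _).symm

end genpt

section family

variable {F : Type*} [Field F] {n : ℕ} {a : Fin n → F} {m : ℕ} {K : Type*} [Field K] [Algebra F K]

namespace GenPt

variable (G : GenPt a m K)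

/-- value at the generic point -/
noncomputable def xi (i : Fin n) : K :=
  G.p.eval (algebraMap F K (a i)) / G.q.eval (algebraMap F K (a i))

/-- shifted numerator -/
noncomputable def be (T : Finset (Fin n)) (i : Fin n) : K :=
  G.p.eval (algebraMap F K (a i)) / nodeProd a T (algebraMap F K (a i))

/-- shifted denominator -/
noncomputable def ga (T : Finset (Fin n)) (i : Fin n) : K :=
  G.q.eval (algebraMap F K (a i)) / nodeProd a T (algebraMap F K (a i))

/-- `s + γ_i` -/
noncomputable def den (T : Finset (Fin n)) (i : Fin n) : K[X] := X + C (G.ga T i)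

/-- the points of the family -/
noncomputable def pt (T : Finset (Fin n)) (i : Fin n) : (RatFunc K)[X] :=
  if i ∈ T then C (algebraMap K[X] (RatFunc K) (C (G.xi i)))
  else (X + C (algebraMap K[X] (RatFunc K) (C (G.be T i)))) *
    C ((algebraMap K[X] (RatFunc K) (G.den T i))⁻¹)

/-- evaluation on the family -/
noncomputable def ev (T : Finset (Fin n)) : MvPolynomial (Fin n) F →ₐ[F] (RatFunc K)[X] :=
  MvPolynomial.aeval (G.pt T)

theorem den_ne_zero (T : Finset (Fin n)) (i : Fin n) : G.den T i ≠ 0 :=
  Polynomial.X_add_C_ne_zero _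

theorem den_map_ne_zero (T : Finset (Fin n)) (i : Fin n) :
    algebraMap K[X] (RatFunc K) (G.den T i) ≠ 0 := by
  rw [Ne, FaithfulSMul.algebraMap_eq_zero_iff]
  exact G.den_ne_zero T i

/-- If `f` vanishes on the family, then it vanishes at the generic point. -/
theorem mem_of_ev (ha : Function.Injective a) (T : Finset (Fin n)) {f : MvPolynomial (Fin n) F}
    (hf : G.ev T f = 0) : f ∈ genI a m := by
  apply G.hgen
  obtain ⟨ρ, hρC, hρX⟩ : ∃ ρ : K[X] →ₐ[F] K, (∀ x, ρ (C x) = x) ∧ ρ X = 0 :=
    ⟨(Polynomial.aeval (R := K) (0 : K)).restrictScalars F, fun x => by simp, by simp⟩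
  classical
  let u : Fin n → K[X] := fun i => if i ∈ T then C (G.xi i) else C (G.be T i)
  let d : Fin n → K[X] := fun i => if i ∈ T then 1 else G.den T i
  have h1 := spec_zero (F := F) (A := K[X]) (L := RatFunc K) (E := K) ρ u d ?_ f ?_
  · convert h1 using 3
    funext i
    simp only [u, d]
    split_ifs with hi
    · rw [hρC, map_one, div_one]; rfl
    · rw [den, map_add, hρX, hρC, hρC, zero_add, be, ga, div_div_div_cancel_right₀]
      exact nodeProd_ne_zero a ha hi
  · intro i
    simp only [d]
    split_ifs with hi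
    · rw [map_one]; exact one_ne_zero
    · rw [den, map_add, hρX, hρC, zero_add, ga]
      exact div_ne_zero (G.hq0 i) (nodeProd_ne_zero a ha hi)
  · have h2 := congrArg ((Polynomial.aeval (R := RatFunc K) (0 : RatFunc K)).restrictScalars F) hf
    rw [map_zero, ev, ← AlgHom.comp_apply, MvPolynomial.comp_aeval] at h2
    convert h2 using 3
    funext i
    simp only [u, d, pt]
    split_ifs with hi
    · simp
    · simp [div_eq_mul_inv]

/-- If `f` is killed by the generator, then it vanishes on the family. -/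
theorem ev_of_mem [Infinite F] (ha : Function.Injective a) (T : Finset (Fin n)) (hT : T.card < m)
    {f : MvPolynomial (Fin n) F} (hf : f ∈ genI a m) : G.ev T f = 0 := by
  classical
  have hinj : Function.Injective (algebraMap (RatFunc K)[X] (RatFunc (RatFunc K))) :=
    FaithfulSMul.algebraMap_injective _ _
  have hφ : ∀ x : K, algebraMap K (RatFunc (RatFunc K)) x =
      algebraMap (RatFunc K)[X] (RatFunc (RatFunc K)) (C (algebraMap K[X] (RatFunc K) (C x))) := by
    intro x
    rw [IsScalarTower.algebraMap_apply K (RatFunc K)[X] (RatFunc (RatFunc K)),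
      Polynomial.algebraMap_apply, IsScalarTower.algebraMap_apply K K[X] (RatFunc K),
      Polynomial.algebraMap_apply, Algebra.algebraMap_self, RingHom.id_apply]
  have haF : ∀ x : F, algebraMap F (RatFunc (RatFunc K)) x =
      algebraMap K (RatFunc (RatFunc K)) (algebraMap F K x) := by
    intro x
    rw [hφ, IsScalarTower.algebraMap_apply F (RatFunc K)[X] (RatFunc (RatFunc K)),
      Polynomial.algebraMap_apply, IsScalarTower.algebraMap_apply F K[X] (RatFunc K),
      Polynomial.algebraMap_apply]
  obtain ⟨lam, hlam⟩ : ∃ lam : RatFunc (RatFunc K), lam =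
    algebraMap (RatFunc K)[X] (RatFunc (RatFunc K)) X := ⟨_, rfl⟩
  obtain ⟨s, hs⟩ : ∃ s : RatFunc (RatFunc K), s =
    algebraMap (RatFunc K)[X] (RatFunc (RatFunc K)) (C (algebraMap K[X] (RatFunc K) X)) :=
    ⟨_, rfl⟩
  obtain ⟨PT, hPT⟩ : ∃ PT : (RatFunc (RatFunc K))[X], PT =
    ∏ t ∈ T, (X - C (algebraMap F (RatFunc (RatFunc K)) (a t))) := ⟨_, rfl⟩
  have hPTe : ∀ i, PT.eval (algebraMap F (RatFunc (RatFunc K)) (a i)) =
      algebraMap K (RatFunc (RatFunc K)) (nodeProd a T (algebraMap F K (a i))) := by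
    intro i
    rw [hPT, Polynomial.eval_prod, nodeProd, map_prod]
    simp only [eval_sub, eval_X, eval_C, map_sub, haF]
  have hPTd : PT.degree < m := by
    rw [hPT, Polynomial.degree_prod]
    simpa using hT
  have hqd : (G.q.map (algebraMap K (RatFunc (RatFunc K)))).degree = m := by
    rw [Polynomial.degree_map, Polynomial.degree_eq_natDegree G.hq.ne_zero, G.hqm]
  have hsd : ∀ c : RatFunc (RatFunc K), (C c * PT).degree < m := by
    intro c
    refine lt_of_le_of_lt ((Polynomial.degree_mul_le _ _).trans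
      (add_le_add_left Polynomial.degree_C_le _)) ?_
    rw [zero_add]; exact hPTd
  have hqe : ∀ i, (G.q.map (algebraMap K (RatFunc (RatFunc K))) + C s * PT).eval
      (algebraMap F (RatFunc (RatFunc K)) (a i)) =
      algebraMap K (RatFunc (RatFunc K)) (G.q.eval (algebraMap F K (a i))) +
        s * algebraMap K (RatFunc (RatFunc K)) (nodeProd a T (algebraMap F K (a i))) := by
    intro i
    rw [eval_add, eval_mul, eval_C, hPTe, haF, Polynomial.eval_map_apply]
  have hpe : ∀ i, (G.p.map (algebraMap K (RatFunc (RatFunc K))) + C lam * PT).eval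
      (algebraMap F (RatFunc (RatFunc K)) (a i)) =
      algebraMap K (RatFunc (RatFunc K)) (G.p.eval (algebraMap F K (a i))) +
        lam * algebraMap K (RatFunc (RatFunc K)) (nodeProd a T (algebraMap F K (a i))) := by
    intro i
    rw [eval_add, eval_mul, eval_C, hPTe, haF, Polynomial.eval_map_apply]
  have hdenE : ∀ i, i ∉ T → s + algebraMap K (RatFunc (RatFunc K)) (G.ga T i) ≠ 0 := by
    intro i _ h
    rw [hs, hφ, ← map_add, ← C_add, ← map_add] at h
    have h1 : (C (algebraMap K[X] (RatFunc K) (X + C (G.ga T i))) : (RatFunc K)[X]) = 0 := by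
      apply hinj
      rw [map_zero]; exact h
    rw [C_eq_zero] at h1
    exact G.den_map_ne_zero T i h1
  have hga : ∀ i, i ∉ T → G.q.eval (algebraMap F K (a i)) =
      G.ga T i * nodeProd a T (algebraMap F K (a i)) := by
    intro i hi
    rw [ga, div_mul_cancel₀]
    exact nodeProd_ne_zero a ha hi
  have hbe : ∀ i, i ∉ T → G.p.eval (algebraMap F K (a i)) =
      G.be T i * nodeProd a T (algebraMap F K (a i)) := by
    intro i hi
    rw [be, div_mul_cancel₀]
    exact nodeProd_ne_zero a ha hi
  have hNP : ∀ i, i ∉ T → algebraMap K (RatFunc (RatFunc K))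
      (nodeProd a T (algebraMap F K (a i))) ≠ 0 := by
    intro i hi
    rw [Ne, map_eq_zero]
    exact nodeProd_ne_zero a ha hi
  have h1 := universal a hf (E := RatFunc (RatFunc K))
    (G.p.map (algebraMap K (RatFunc (RatFunc K))) + C lam * PT)
    (G.q.map (algebraMap K (RatFunc (RatFunc K))) + C s * PT) ?_ ?_ ?_ ?_
  · apply hinj
    rw [map_zero, ← h1, ev]
    rw [← MvPolynomial.aeval_algebraMap_apply]
    congr 2
    funext i
    rw [hpe, hqe]
    simp only [Function.comp_apply, pt]
    split_ifs with hi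
    · rw [nodeProd_eq_zero a hi, map_zero, mul_zero, mul_zero, add_zero, add_zero, ← map_div₀,
        hφ]
      rfl
    · rw [map_mul, map_add, ← hφ, ← hlam, hga i hi, hbe i hi, map_mul, map_mul, ← add_mul,
        ← add_mul, mul_div_mul_right _ _ (hNP i hi)]
      have h2 : algebraMap (RatFunc K)[X] (RatFunc (RatFunc K))
          (C ((algebraMap K[X] (RatFunc K)) (G.den T i))⁻¹) =
          (s + algebraMap K (RatFunc (RatFunc K)) (G.ga T i))⁻¹ := by
        apply eq_inv_of_mul_eq_one_left
        rw [hs, hφ, ← map_add, ← C_add, ← map_add, ← map_mul, ← C_mul]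
        have h3 : X + C (G.ga T i) = G.den T i := rfl
        rw [h3, inv_mul_cancel₀ (G.den_map_ne_zero T i), C_1, map_one]
      rw [h2, div_eq_mul_inv, add_comm lam, add_comm s]
  · refine lt_of_le_of_lt (Polynomial.degree_add_le _ _) (max_lt ?_ (hsd _))
    rw [Polynomial.degree_map]; exact G.hp
  · apply Polynomial.Monic.add_of_left (G.hq.map _)
    rw [hqd]; exact hsd _
  · rw [Polynomial.natDegree_add_eq_left_of_degree_lt, Polynomial.natDegree_map, G.hqm]
    rw [hqd]; exact hsd _
  · intro i
    rw [hqe]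
    by_cases hi : i ∈ T
    · rw [nodeProd_eq_zero a hi, map_zero, mul_zero, add_zero, Ne, map_eq_zero]
      exact G.hq0 i
    · rw [hga i hi, map_mul, ← add_mul]
      rw [add_comm]
      exact mul_ne_zero (hdenE i hi) (hNP i hi)

end GenPt

end family

end Pool.Agent.H530R2
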