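import Mathlib
import Pool.Agent.H530R2.Rat2

/-!
Poles along the family: rigidity and independence.
-/

namespace Pool.Agent.H530R2

open Polynomial IsDedekindDomain

section valuations

variable {F : Type*} [Field F] {K : Type*} [Field K] [Algebra F K]

/-- A nonzero rational function has a pole somewhere or does not vanish at infinity. -/
theorem eq_zero_of_valuations [DecidableEq (RatFunc K)] (c : RatFunc K)
    (h1 : RatFunc.inftyValuation K c < 1)
    (h2 : ∀ v : HeightOneSpectrum K[X], v.valuation (RatFunc K) c ≤ 1) : c = 0 := by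
  obtain ⟨N, rfl⟩ := HeightOneSpectrum.mem_integers_of_valuation_le_one (RatFunc K) c h2
  by_contra h0
  have hN : N ≠ 0 := by
    rintro rfl
    exact h0 (map_zero _)
  rw [RatFunc.inftyValuation_apply, RatFunc.inftyValuation.polynomial _ hN] at h1
  rw [← WithZero.exp_zero, WithZero.exp_lt_exp] at h1
  omega

variable {Γ : Type*} [LinearOrderedCommGroupWithZero Γ] (w : Valuation (RatFunc K) Γ)

theorem infty_const [DecidableEq (RatFunc K)] (x : K) :
    RatFunc.inftyValuation K (algebraMap K[X] (RatFunc K) (C x)) ≤ 1 := by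
  by_cases hx : x = 0
  · subst hx; simp
  · have := RatFunc.inftyValuation.C K hx
    rw [← RatFunc.algebraMap_C] at this
    exact this.le

theorem infty_den [DecidableEq (RatFunc K)] (x : K) :
    RatFunc.inftyValuation K ((algebraMap K[X] (RatFunc K) (X + C x))⁻¹) < 1 := by
  rw [map_inv₀, RatFunc.inftyValuation_apply, RatFunc.inftyValuation.polynomial _
    (Polynomial.X_add_C_ne_zero x), Polynomial.natDegree_X_add_C, ← WithZero.exp_neg,
    ← WithZero.exp_zero, WithZero.exp_lt_exp]
  omega

theorem height_const (v : HeightOneSpectrum K[X]) (x : K) :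
    v.valuation (RatFunc K) (algebraMap K[X] (RatFunc K) (C x)) ≤ 1 :=
  v.valuation_le_one _

theorem valF (hw : ∀ x : K, w (algebraMap K[X] (RatFunc K) (C x)) ≤ 1) (x : F) :
    w (algebraMap F (RatFunc K) x) ≤ 1 := by
  rw [IsScalarTower.algebraMap_apply F K[X] (RatFunc K), Polynomial.algebraMap_apply]
  exact hw _

/-- values at integral points -/
theorem val_aeval_le (hw : ∀ x : K, w (algebraMap K[X] (RatFunc K) (C x)) ≤ 1)
    {σ : Type*} (x : σ → RatFunc K) (hx : ∀ i, w (x i) ≤ 1) (f : MvPolynomial σ F) :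
    w (MvPolynomial.aeval x f) ≤ 1 := by
  induction f using MvPolynomial.induction_on with
  | C r => rw [MvPolynomial.aeval_C]; exact valF w hw r
  | add p q hp hq =>
    rw [map_add]
    exact (w.map_add _ _).trans (max_le hp hq)
  | mul_X p i hp =>
    rw [map_mul, MvPolynomial.aeval_X, map_mul]
    exact mul_le_one' hp (hx i)

theorem val_aeval_sub_lt (hw : ∀ x : K, w (algebraMap K[X] (RatFunc K) (C x)) ≤ 1)
    {σ : Type*} (x x' : σ → RatFunc K) (hx : ∀ i, w (x i) ≤ 1) (hx' : ∀ i, w (x' i) ≤ 1)
    (hxx : ∀ i, w (x i - x' i) < 1) (f : MvPolynomial σ F) :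
    w (MvPolynomial.aeval x f - MvPolynomial.aeval x' f) < 1 := by
  induction f using MvPolynomial.induction_on with
  | C r => rw [MvPolynomial.aeval_C, MvPolynomial.aeval_C, sub_self, map_zero]; exact zero_lt_one
  | add p q hp hq =>
    rw [map_add, map_add, add_sub_add_comm]
    exact w.map_add_lt hp hq
  | mul_X p i hp =>
    rw [map_mul, MvPolynomial.aeval_X, map_mul, MvPolynomial.aeval_X]
    have h : MvPolynomial.aeval x p * x i - MvPolynomial.aeval x' p * x' i =
      (MvPolynomial.aeval x p - MvPolynomial.aeval x' p) * x i +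
        MvPolynomial.aeval x' p * (x i - x' i) := by ring
    rw [h]
    apply w.map_add_lt
    · rw [map_mul]
      exact mul_lt_one_of_nonneg_of_lt_one_left zero_le hp (hx i)
    · rw [map_mul]
      exact mul_lt_one_of_nonneg_of_lt_one_right (val_aeval_le w hw x' hx' p) zero_le (hxx i)

/-- all coefficients integral -/
def CoI (g : (RatFunc K)[X]) : Prop := ∀ k, w (g.coeff k) ≤ 1

/-- all coefficients integral, those of positive degree strictly so -/
def CoS (g : (RatFunc K)[X]) : Prop := CoI w g ∧ ∀ k, 1 ≤ k → w (g.coeff k) < 1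

variable {w}

theorem CoI.add {g h : (RatFunc K)[X]} (hg : CoI w g) (hh : CoI w h) : CoI w (g + h) := by
  intro k
  rw [coeff_add]
  exact (w.map_add _ _).trans (max_le (hg k) (hh k))

theorem CoI.mul {g h : (RatFunc K)[X]} (hg : CoI w g) (hh : CoI w h) : CoI w (g * h) := by
  intro k
  rw [coeff_mul]
  apply w.map_sum_le
  intro i _
  rw [map_mul]
  exact mul_le_one' (hg _) (hh _)

theorem CoI.of_C {c : RatFunc K} (hc : w c ≤ 1) : CoI w (C c) := by
  intro k
  rw [coeff_C]
  split_ifs
  · exact hc
  · rw [map_zero]; exact zero_le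

theorem CoS.add {g h : (RatFunc K)[X]} (hg : CoS w g) (hh : CoS w h) : CoS w (g + h) := by
  refine ⟨hg.1.add hh.1, fun k hk => ?_⟩
  rw [coeff_add]
  exact w.map_add_lt (hg.2 k hk) (hh.2 k hk)

theorem CoS.mul {g h : (RatFunc K)[X]} (hg : CoS w g) (hh : CoS w h) : CoS w (g * h) := by
  refine ⟨hg.1.mul hh.1, fun k hk => ?_⟩
  rw [coeff_mul]
  apply w.map_sum_lt one_ne_zero
  intro i hi
  rw [Finset.HasAntidiagonal.mem_antidiagonal] at hi
  rw [map_mul]
  by_cases h1 : 1 ≤ i.1
  · exact mul_lt_one_of_nonneg_of_lt_one_left zero_le (hg.2 _ h1) (hh.1 _)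
  · exact mul_lt_one_of_nonneg_of_lt_one_right (hg.1 _) zero_le (hh.2 _ (by omega))

theorem CoS.of_C {c : RatFunc K} (hc : w c ≤ 1) : CoS w (C c) := by
  refine ⟨CoI.of_C hc, fun k hk => ?_⟩
  rw [coeff_C, if_neg (by omega), map_zero]
  exact zero_lt_one

end valuations

section family

variable {F : Type*} [Field F] {n : ℕ} {a : Fin n → F} {m : ℕ} {K : Type*} [Field K] [Algebra F K]

/-- set the variables outside `T` to zero -/
noncomputable def cut (F : Type*) [Field F] {n : ℕ} (T : Finset (Fin n)) :
    MvPolynomial (Fin n) F →ₐ[F] MvPolynomial (Fin n) F :=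
  MvPolynomial.aeval fun i => if i ∈ T then MvPolynomial.X i else 0

namespace GenPt

variable (G : GenPt a m K)

theorem pt_mem {T : Finset (Fin n)} {i : Fin n} (hi : i ∈ T) :
    G.pt T i = C (algebraMap K[X] (RatFunc K) (C (G.xi i))) := by
  rw [pt, if_pos hi]

theorem pt_not_mem {T : Finset (Fin n)} {i : Fin n} (hi : i ∉ T) :
    G.pt T i = (X + C (algebraMap K[X] (RatFunc K) (C (G.be T i)))) *
    C ((algebraMap K[X] (RatFunc K) (G.den T i))⁻¹) := by
  rw [pt, if_neg hi]

/-- a predicate closed under ring operations holds on the image of the polynomials in the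
variables where it holds -/
theorem ev_closed (T : Finset (Fin n)) (P : (RatFunc K)[X] → Prop)
    (hadd : ∀ x y, P x → P y → P (x + y)) (hmul : ∀ x y, P x → P y → P (x * y))
    (hF : ∀ r : F, P (C (algebraMap F (RatFunc K) r)))
    (f : MvPolynomial (Fin n) F) (hf : ∀ i ∈ f.vars, P (G.pt T i)) : P (G.ev T f) := by
  have h0 : f ∈ Algebra.adjoin F (MvPolynomial.X '' (f.vars : Set (Fin n))) :=
    MvPolynomial.mem_supported_vars f
  generalize f.vars = V at h0 hf
  induction h0 using Algebra.adjoin_induction with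
  | mem y hy =>
    obtain ⟨i, hi, rfl⟩ := hy
    rw [ev, MvPolynomial.aeval_X]
    exact hf i hi
  | algebraMap r =>
    rw [AlgHom.commutes, Polynomial.algebraMap_apply]
    exact hF r
  | add y z _ _ hy hz =>
    rw [map_add]; exact hadd _ _ hy hz
  | mul y z _ _ hy hz =>
    rw [map_mul]; exact hmul _ _ hy hz

theorem CoS_ev [DecidableEq (RatFunc K)] (T : Finset (Fin n)) (f : MvPolynomial (Fin n) F) :
    CoS (RatFunc.inftyValuation K) (G.ev T f) := by
  apply G.ev_closed T
  · intro x y hx hy; exact hx.add hy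
  · intro x y hx hy; exact hx.mul hy
  · intro r; exact CoS.of_C (valF _ infty_const r)
  · intro i _
    by_cases hi : i ∈ T
    · rw [G.pt_mem hi]; exact CoS.of_C (infty_const _)
    · rw [G.pt_not_mem hi]
      have hd := infty_den (G.ga T i)
      have hd' : (RatFunc.inftyValuation K) ((algebraMap K[X] (RatFunc K) (G.den T i))⁻¹) < 1 := hd
      have hk : ∀ k, RatFunc.inftyValuation K (((X + C (algebraMap K[X] (RatFunc K)
          (C (G.be T i)))) * C ((algebraMap K[X] (RatFunc K) (G.den T i))⁻¹)).coeff k) < 1 := by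
        intro k
        rw [coeff_mul_C, map_mul]
        apply mul_lt_one_of_nonneg_of_lt_one_right _ zero_le hd'
        rw [coeff_add, coeff_C, coeff_X]
        refine (Valuation.map_add _ _ _).trans (max_le ?_ ?_)
        · split_ifs <;> simp
        · split_ifs
          · exact infty_const _
          · simp
      exact ⟨fun k => (hk k).le, fun k _ => hk k⟩

theorem CoI_pt (T : Finset (Fin n)) (v : HeightOneSpectrum K[X]) (i : Fin n)
    (hi : i ∉ T → G.den T i ∉ v.asIdeal) : CoI (v.valuation (RatFunc K)) (G.pt T i) := by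
  by_cases hiT : i ∈ T
  · rw [G.pt_mem hiT]; exact CoI.of_C (height_const v _)
  · rw [G.pt_not_mem hiT]
    apply CoI.mul
    · apply CoI.add
      · intro k
        rw [coeff_X]
        split_ifs <;> simp
      · exact CoI.of_C (height_const v _)
    · apply CoI.of_C
      rw [map_inv₀, (HeightOneSpectrum.valuation_eq_one_iff_notMem v).2 (hi hiT), inv_one]

theorem CoI_ev (T : Finset (Fin n)) (v : HeightOneSpectrum K[X]) (f : MvPolynomial (Fin n) F)
    (hf : ∀ i ∈ f.vars, i ∉ T → G.den T i ∉ v.asIdeal) :
    CoI (v.valuation (RatFunc K)) (G.ev T f) := by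
  apply G.ev_closed T
  · intro x y hx hy; exact hx.add hy
  · intro x y hx hy; exact hx.mul hy
  · intro r; exact CoI.of_C (valF _ (height_const v) r)
  · intro i hi; exact G.CoI_pt T v i (hf i hi)

theorem den_inj {T : Finset (Fin n)} (v : HeightOneSpectrum K[X]) {i j : Fin n} (hi : i ∉ T)
    (hj : j ∉ T) (hiv : G.den T i ∈ v.asIdeal) (hjv : G.den T j ∈ v.asIdeal) : i = j := by
  by_contra hij
  have h1 := G.hsep T i j hi hj hij
  have h2 := v.asIdeal.sub_mem hiv hjv
  have h3 : G.den T i - G.den T j = C (G.ga T i - G.ga T j) := by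
    rw [den, den, C_sub]; ring
  rw [h3] at h2
  have h4 : G.ga T i - G.ga T j ≠ 0 := sub_ne_zero.2 h1
  have h5 : IsUnit (C (G.ga T i - G.ga T j)) := by
    rw [Polynomial.isUnit_C]
    exact isUnit_iff_ne_zero.2 h4
  exact v.isPrime.ne_top (Ideal.eq_top_of_isUnit_mem _ h2 h5)

theorem ev_cut_const (T : Finset (Fin n)) (f : MvPolynomial (Fin n) F) :
    G.ev T (cut F T f) = C (algebraMap K[X] (RatFunc K) (C (MvPolynomial.aeval
      (fun i => if i ∈ T then G.xi i else 0) f))) := by
  induction f using MvPolynomial.induction_on with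
  | C r =>
    have h1 : cut F T (MvPolynomial.C r) = MvPolynomial.C r := (cut F T).commutes r
    have h2 : G.ev T (MvPolynomial.C r) = C (algebraMap F (RatFunc K) r) := by
      rw [ev, MvPolynomial.aeval_C, Polynomial.algebraMap_apply]
    rw [h1, h2, MvPolynomial.aeval_C, IsScalarTower.algebraMap_apply F K[X] (RatFunc K),
      Polynomial.algebraMap_apply]
  | add p q hp hq => rw [map_add, map_add, hp, hq]; simp only [map_add]
  | mul_X p i hp =>
    rw [map_mul, map_mul, hp, map_mul, MvPolynomial.aeval_X, cut, MvPolynomial.aeval_X]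
    split_ifs with hi
    · rw [ev, MvPolynomial.aeval_X, G.pt_mem hi]
      simp only [map_mul]
    · simp

/-- Rigidity: a polynomial whose values on the family do not depend on `λ` agrees with its cut
modulo the polynomials killed by the generator. -/
theorem rigid (ha : Function.Injective a) (T : Finset (Fin n)) (f : MvPolynomial (Fin n) F)
    (hf : (G.ev T f).natDegree = 0) : f - cut F T f ∈ genI a m := by
  classical
  apply G.mem_of_ev ha T
  obtain ⟨c, hc⟩ : ∃ c, G.ev T (f - cut F T f) = C c := by
    rw [map_sub, ev_cut_const, Polynomial.eq_C_of_natDegree_eq_zero hf, ← C_sub]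
    exact ⟨_, rfl⟩
  rw [hc, C_eq_zero]
  -- numerical values of `λ`
  have hval : ∀ lam : RatFunc K, c = MvPolynomial.aeval
      (fun i => (G.pt T i).eval lam) (f - cut F T f) := by
    intro lam
    have h1 := congrArg ((Polynomial.aeval (R := RatFunc K) lam).restrictScalars F) hc
    rw [ev, ← AlgHom.comp_apply, MvPolynomial.comp_aeval] at h1
    simp only [AlgHom.coe_restrictScalars', Polynomial.coe_aeval_eq_eval, eval_C] at h1
    exact h1.symm
  apply eq_zero_of_valuations
  · have h1 := hval 0
    rw [map_sub] at h1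
    have h2 : MvPolynomial.aeval (fun i => (G.pt T i).eval (0 : RatFunc K)) (cut F T f) =
        MvPolynomial.aeval (fun i => if i ∈ T then (G.pt T i).eval (0 : RatFunc K) else 0) f := by
      rw [cut, ← AlgHom.comp_apply, MvPolynomial.comp_aeval]
      congr 2
      funext i
      split_ifs <;> simp
    rw [h2] at h1
    rw [h1]
    have hpt : ∀ i, i ∉ T → RatFunc.inftyValuation K ((G.pt T i).eval (0 : RatFunc K)) < 1 := by
      intro i hi
      rw [G.pt_not_mem hi, eval_mul, eval_add, eval_X, eval_C, eval_C, zero_add, map_mul]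
      exact mul_lt_one_of_nonneg_of_lt_one_right (infty_const _) zero_le (infty_den _)
    have hpt' : ∀ i, i ∈ T → RatFunc.inftyValuation K ((G.pt T i).eval (0 : RatFunc K)) ≤ 1 := by
      intro i hi
      rw [G.pt_mem hi, eval_C]
      exact infty_const _
    apply val_aeval_sub_lt _ infty_const
    · intro i
      by_cases hi : i ∈ T
      · exact hpt' i hi
      · exact (hpt i hi).le
    · intro i
      split_ifs with hi
      · exact hpt' i hi
      · rw [map_zero]; exact zero_le
    · intro i
      split_ifs with hi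
      · rw [sub_self, map_zero]; exact zero_lt_one
      · rw [sub_zero]; exact hpt i hi
  · intro v
    obtain ⟨b, hb⟩ : ∃ b : K, ∀ j, j ∉ T → G.den T j ∈ v.asIdeal → G.be T j + b = 0 := by
      by_cases h : ∃ i, i ∉ T ∧ G.den T i ∈ v.asIdeal
      · obtain ⟨i, hi, hiv⟩ := h
        refine ⟨-G.be T i, fun j hj hjv => ?_⟩
        rw [G.den_inj v hi hj hiv hjv, add_neg_cancel]
      · push Not at h
        exact ⟨0, fun j hj hjv => absurd hjv (h j hj)⟩
    rw [hval (algebraMap K[X] (RatFunc K) (C b))]
    apply val_aeval_le _ (height_const v)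
    intro i
    by_cases hi : i ∈ T
    · rw [G.pt_mem hi, eval_C]; exact height_const v _
    · rw [G.pt_not_mem hi, eval_mul, eval_add, eval_X, eval_C, eval_C, ← map_add, ← C_add,
        add_comm b]
      by_cases hv : G.den T i ∈ v.asIdeal
      · rw [hb i hi hv, C_0, map_zero, zero_mul, map_zero]; exact zero_le
      · rw [map_mul, map_inv₀, (HeightOneSpectrum.valuation_eq_one_iff_notMem v).2 hv, inv_one,
          mul_one]
        exact height_const v _

/-- A coefficient of positive degree in `λ` has a pole, where the polynomials sharing only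
variables in `T` are regular. -/
theorem exists_pole (T : Finset (Fin n)) (f g : MvPolynomial (Fin n) F)
    (hfg : f.vars ∩ g.vars ⊆ T) (hf : (G.ev T f).natDegree ≠ 0) :
    ∃ v : HeightOneSpectrum K[X], 1 < v.valuation (RatFunc K) (G.ev T f).leadingCoeff ∧
      CoI (v.valuation (RatFunc K)) (G.ev T g) := by
  classical
  have h0 : (G.ev T f).leadingCoeff ≠ 0 := by
    rw [Ne, leadingCoeff_eq_zero]
    intro h; rw [h] at hf; exact hf natDegree_zero
  have h1 : RatFunc.inftyValuation K (G.ev T f).leadingCoeff < 1 :=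
    (G.CoS_ev T f).2 _ (Nat.one_le_iff_ne_zero.2 hf)
  have h2 : ∃ v : HeightOneSpectrum K[X],
      1 < v.valuation (RatFunc K) (G.ev T f).leadingCoeff := by
    by_contra h
    push Not at h
    exact h0 (eq_zero_of_valuations _ h1 h)
  obtain ⟨v, hv⟩ := h2
  refine ⟨v, hv, ?_⟩
  obtain ⟨i, hif, hiT, hiv⟩ : ∃ i, i ∈ f.vars ∧ i ∉ T ∧ G.den T i ∈ v.asIdeal := by
    by_contra h
    push Not at h
    exact absurd (G.CoI_ev T v f h _) (not_le.2 hv)
  apply G.CoI_ev
  intro j hjg hjT hjv
  have hij := G.den_inj v hiT hjT hiv hjv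
  subst hij
  exact hiT (hfg (Finset.mem_inter.2 ⟨hif, hjg⟩))

end GenPt

end family

end Pool.Agent.H530R2
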