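import Mathlib
import Pool.Agent.H530R2.Rat3

/-!
Independence of two λ-dependent polynomials along the family, and the closure properties of the
class of polynomials on which the generator is faithful.
-/

namespace Pool.Agent.H530R2

open Polynomial IsDedekindDomain

section indep

variable {K : Type*} [Field K]

theorem coeff_pow_mul_pow {L : Type*} [Field L] (P Q : L[X]) (a b W : ℕ)
    (hW : a * P.natDegree + b * Q.natDegree ≤ W) :
    (P ^ a * Q ^ b).coeff W = if a * P.natDegree + b * Q.natDegree = W then
      P.leadingCoeff ^ a * Q.leadingCoeff ^ b else 0 := by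
  have h1 : (P ^ a * Q ^ b).natDegree ≤ a * P.natDegree + b * Q.natDegree := by
    refine Polynomial.natDegree_mul_le.trans ?_
    exact add_le_add Polynomial.natDegree_pow_le Polynomial.natDegree_pow_le
  split_ifs with h
  · rw [← h]
    rw [← leadingCoeff_pow, ← leadingCoeff_pow, ← leadingCoeff_mul]
    rw [← natDegree_pow, ← natDegree_pow]
    by_cases hP : P ^ a = 0
    · rw [hP]; simp
    by_cases hQ : Q ^ b = 0
    · rw [hQ]; simp
    rw [← natDegree_mul hP hQ]
    rfl
  · apply coeff_eq_zero_of_natDegree_lt
    omega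

/-- Two polynomials in `λ` over `K(s)` of positive degree are algebraically independent over `K`,
if the leading coefficient of the first has a pole at which the second one is regular. -/
theorem indep_of_pole (P Q : (RatFunc K)[X]) (hQ : Q.natDegree ≠ 0)
    (v : HeightOneSpectrum K[X]) (hv : 1 < v.valuation (RatFunc K) P.leadingCoeff)
    (hvQ : v.valuation (RatFunc K) Q.leadingCoeff ≤ 1)
    (H : MvPolynomial (Fin 2) K) (h : MvPolynomial.eval₂
      ((C : RatFunc K →+* (RatFunc K)[X]).comp ((algebraMap K[X] (RatFunc K)).comp C))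
      ![P, Q] H = 0) : H = 0 := by
  classical
  by_contra hH
  have hQ0 : Q.leadingCoeff ≠ 0 := by
    rw [Ne, leadingCoeff_eq_zero]
    rintro rfl
    exact hQ natDegree_zero
  have hne : H.support.Nonempty := by
    rw [Finset.nonempty_iff_ne_empty, Ne, MvPolynomial.support_eq_empty]
    exact hH
  let wt : (Fin 2 →₀ ℕ) → ℕ := fun s => s 0 * P.natDegree + s 1 * Q.natDegree
  obtain ⟨s0, hs0, hmax⟩ := H.support.exists_max_image wt hne
  obtain ⟨s1, hs1, hmax1⟩ := (H.support.filter fun s => wt s = wt s0).exists_max_image
    (fun s => s 0) ⟨s0, by simp [hs0]⟩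
  rw [Finset.mem_filter] at hs1
  rw [MvPolynomial.eval₂_eq'] at h
  have hc := congrArg (fun g => Polynomial.coeff g (wt s0)) h
  simp only [Polynomial.finsetSum_coeff, coeff_zero, Fin.prod_univ_two, Matrix.cons_val_zero,
    Matrix.cons_val_one, RingHom.comp_apply, coeff_C_mul] at hc
  have hterm : ∀ s ∈ H.support, algebraMap K[X] (RatFunc K) (C (H.coeff s)) *
      (P ^ s 0 * Q ^ s 1).coeff (wt s0) = if wt s = wt s0 then
        algebraMap K[X] (RatFunc K) (C (H.coeff s)) *
          (P.leadingCoeff ^ s 0 * Q.leadingCoeff ^ s 1) else 0 := by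
    intro s hs
    rw [coeff_pow_mul_pow P Q (s 0) (s 1) (wt s0) (hmax s hs)]
    show _ * (if wt s = wt s0 then _ else _) = _
    split_ifs
    · rfl
    · rw [mul_zero]
  rw [Finset.sum_congr rfl hterm, ← Finset.sum_filter,
    ← Finset.add_sum_erase _ _ (Finset.mem_filter.2 hs1)] at hc
  have hval1 : v.valuation (RatFunc K) (algebraMap K[X] (RatFunc K) (C (H.coeff s1))) = 1 := by
    rw [HeightOneSpectrum.valuation_eq_one_iff_notMem v]
    intro hmem
    apply v.isPrime.ne_top
    apply Ideal.eq_top_of_isUnit_mem _ hmem
    rw [Polynomial.isUnit_C, isUnit_iff_ne_zero]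
    exact MvPolynomial.mem_support_iff.1 hs1.1
  have hpos : 0 < v.valuation (RatFunc K) Q.leadingCoeff := by
    rw [zero_lt_iff, Valuation.ne_zero_iff]
    exact hQ0
  have hlt : v.valuation (RatFunc K) (∑ s ∈ (H.support.filter fun s => wt s = wt s0).erase s1,
      algebraMap K[X] (RatFunc K) (C (H.coeff s)) *
          (P.leadingCoeff ^ s 0 * Q.leadingCoeff ^ s 1)) <
      v.valuation (RatFunc K) (algebraMap K[X] (RatFunc K) (C (H.coeff s1)) *
          (P.leadingCoeff ^ s1 0 * Q.leadingCoeff ^ s1 1)) := by
    rw [map_mul _ (algebraMap K[X] (RatFunc K) (C (H.coeff s1))), hval1, one_mul, map_mul,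
      map_pow, map_pow]
    apply Valuation.map_sum_lt'
    · exact mul_pos (pow_pos (zero_lt_one.trans hv) _) (pow_pos hpos _)
    · intro s hs
      rw [Finset.mem_erase, Finset.mem_filter] at hs
      obtain ⟨hne', hsH, hsw⟩ := hs
      have h0 : s 0 ≤ s1 0 := hmax1 s (Finset.mem_filter.2 ⟨hsH, hsw⟩)
      have hw : s 0 * P.natDegree + s 1 * Q.natDegree =
          s1 0 * P.natDegree + s1 1 * Q.natDegree := by
        have := hs1.2
        simp only [wt] at this hsw
        omega
      have h00 : s 0 < s1 0 := by
        rcases h0.lt_or_eq with h0 | h0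
        · exact h0
        · exfalso
          apply hne'
          rw [h0] at hw
          have h3 : s 1 * Q.natDegree = s1 1 * Q.natDegree := by omega
          have h4 := Nat.eq_of_mul_eq_mul_right (Nat.pos_of_ne_zero hQ) h3
          ext i
          fin_cases i
          · exact h0
          · exact h4
      have h11 : s1 1 ≤ s 1 := by
        by_contra hcon
        push Not at hcon
        have h5 : s 0 * P.natDegree ≤ s1 0 * P.natDegree := Nat.mul_le_mul_right _ h0
        have h6 : s 1 * Q.natDegree < s1 1 * Q.natDegree :=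
          Nat.mul_lt_mul_of_pos_right hcon (Nat.pos_of_ne_zero hQ)
        omega
      rw [map_mul, map_mul, map_pow, map_pow]
      have h7 : v.valuation (RatFunc K) (algebraMap K[X] (RatFunc K) (C (H.coeff s))) ≤ 1 :=
        height_const v _
      calc v.valuation (RatFunc K) (algebraMap K[X] (RatFunc K) (C (H.coeff s))) *
            (v.valuation (RatFunc K) P.leadingCoeff ^ s 0 *
              v.valuation (RatFunc K) Q.leadingCoeff ^ s 1) ≤
            1 * (v.valuation (RatFunc K) P.leadingCoeff ^ s 0 *
              v.valuation (RatFunc K) Q.leadingCoeff ^ s 1) := mul_le_mul_left h7 _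
        _ ≤ v.valuation (RatFunc K) P.leadingCoeff ^ s 0 *
              v.valuation (RatFunc K) Q.leadingCoeff ^ s1 1 := by
            rw [one_mul]
            apply mul_le_mul_right
            exact pow_le_pow_right_of_le_one' hvQ h11
        _ < _ := by
            apply mul_lt_mul_of_pos_right _ (pow_pos hpos _)
            exact pow_lt_pow_right₀ hv h00
  have hzero := eq_neg_of_add_eq_zero_left hc
  rw [hzero, Valuation.map_neg] at hlt
  exact lt_irrefl _ hlt

end indep

end Pool.Agent.H530R2
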