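import Mathlib
import Pool.Agent.H530R2.Rat4

/-!
Closure properties of the class of polynomials on which the generator is faithful.
-/

namespace Pool.Agent.H530R2

open Polynomial IsDedekindDomain

section small

variable {F : Type*} [Field F] {n : ℕ}

theorem aeval_congr_supported {A : Type*} [CommRing A] [Algebra F A] {S : Set (Fin n)}
    {f : MvPolynomial (Fin n) F} (hf : f ∈ MvPolynomial.supported F S) (x y : Fin n → A)
    (hxy : ∀ i ∈ S, x i = y i) : MvPolynomial.aeval x f = MvPolynomial.aeval y f := by
  have hf' : f ∈ Algebra.adjoin F (MvPolynomial.X '' S) := hf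
  clear hf
  induction hf' using Algebra.adjoin_induction with
  | mem z hz =>
    obtain ⟨i, hi, rfl⟩ := hz
    rw [MvPolynomial.aeval_X, MvPolynomial.aeval_X]
    exact hxy i hi
  | algebraMap r => rw [AlgHom.commutes, AlgHom.commutes]
  | add y z _ _ hy hz => rw [map_add, map_add, hy, hz]
  | mul y z _ _ hy hz => rw [map_mul, map_mul, hy, hz]

/-- The generator is faithful on polynomials in at most `m` variables. -/
theorem small_support [Infinite F] (a : Fin n → F) (ha : Function.Injective a) {m : ℕ}
    {S : Finset (Fin n)} (hS : S.card ≤ m) {f : MvPolynomial (Fin n) F}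
    (hfS : f ∈ MvPolynomial.supported F (S : Set (Fin n))) (hf : f ∈ genI a m) : f = 0 := by
  classical
  obtain ⟨ζ, hζ⟩ : ∃ ζ : F, ζ ∉ Set.range a := (Set.finite_range a).infinite_compl.nonempty
  apply MvPolynomial.funext
  intro c
  rw [map_zero]
  obtain ⟨q, hq⟩ : ∃ q : F[X], q = (X - C ζ) ^ m := ⟨_, rfl⟩
  have hqe : ∀ i, q.eval (a i) ≠ 0 := by
    intro i
    rw [hq, eval_pow, eval_sub, eval_X, eval_C]
    apply pow_ne_zero
    rw [sub_ne_zero]
    rintro h
    exact hζ ⟨i, h⟩
  have h1 := universal a hf (E := F) (Lagrange.interpolate S a fun t => c t * q.eval (a t)) q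
    (lt_of_lt_of_le (Lagrange.degree_interpolate_lt _ ha.injOn) (by exact_mod_cast hS))
    (by rw [hq]; exact (monic_X_sub_C ζ).pow m)
    (by rw [hq, natDegree_pow, natDegree_X_sub_C, mul_one]) (fun i => hqe i)
  rw [aeval_congr_supported hfS _ c] at h1
  · rw [← MvPolynomial.coe_aeval_eq_eval]; exact h1
  · intro i hi
    show (Lagrange.interpolate S a fun t => c t * q.eval (a t)).eval (a i) / q.eval (a i) = c i
    rw [Lagrange.eval_interpolate_at_node _ ha.injOn hi, mul_div_cancel_right₀ _ (hqe i)]

end small

section hit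

variable {F : Type*} [Field F] {n : ℕ} (a : Fin n → F) (m : ℕ)

/-- The generator is faithful on `f` relative to the variables in `T`. -/
def Hit (T : Finset (Fin n)) (f : MvPolynomial (Fin n) F) : Prop :=
  f - cut F T f ∈ genI a m → f = cut F T f

variable {a m}

theorem cut_supported (T : Finset (Fin n)) (f : MvPolynomial (Fin n) F) :
    cut F T f ∈ MvPolynomial.supported F (T : Set (Fin n)) := by
  induction f using MvPolynomial.induction_on with
  | C r => rw [show cut F T (MvPolynomial.C r) = MvPolynomial.C r from (cut F T).commutes r]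
           exact Subalgebra.algebraMap_mem _ _
  | add p q hp hq => rw [map_add]; exact add_mem hp hq
  | mul_X p i hp =>
    rw [map_mul]
    apply mul_mem hp
    rw [cut, MvPolynomial.aeval_X]
    split_ifs with hi
    · exact MvPolynomial.X_mem_supported.2 hi
    · exact zero_mem _

theorem cut_eq_self {T : Finset (Fin n)} {f : MvPolynomial (Fin n) F}
    (hf : f ∈ MvPolynomial.supported F (T : Set (Fin n))) : cut F T f = f := by
  rw [cut, aeval_congr_supported hf _ MvPolynomial.X, MvPolynomial.aeval_X_left, AlgHom.id_apply]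
  intro i hi
  rw [if_pos (by exact_mod_cast hi)]

variable {K : Type*} [Field K] [Algebra F K] (G : GenPt a m K)

/-- constants along the family -/
theorem ev_supported {T : Finset (Fin n)} {f : MvPolynomial (Fin n) F}
    (hf : f ∈ MvPolynomial.supported F (T : Set (Fin n))) :
    G.ev T f = C (algebraMap K[X] (RatFunc K) (C (MvPolynomial.aeval G.xi f))) := by
  have h1 := G.ev_cut_const T f
  rw [cut_eq_self hf] at h1
  rw [h1, aeval_congr_supported hf _ G.xi]
  intro i hi
  rw [if_pos (by exact_mod_cast hi)]

theorem xi_inj [Infinite F] (ha : Function.Injective a) {T : Finset (Fin n)} (hT : T.card ≤ m)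
    {f : MvPolynomial (Fin n) F} (hf : f ∈ MvPolynomial.supported F (T : Set (Fin n)))
    (h : MvPolynomial.aeval G.xi f = 0) : f = 0 :=
  small_support a ha hT hf (G.hgen f h)

/-- a polynomial which does not depend on `λ` lies in `F[x_T]` -/
theorem Hit.eq_cut {T : Finset (Fin n)} {f : MvPolynomial (Fin n) F} (ha : Function.Injective a)
    (hf : Hit a m T f) (h0 : (G.ev T f).natDegree = 0) : f = cut F T f :=
  hf (G.rigid ha T f h0)

theorem Hit.const (T : Finset (Fin n)) (r : F) : Hit a m T (MvPolynomial.C r) := by
  intro _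
  exact ((cut F T).commutes r).symm

include G in
theorem Hit.var [Infinite F] (ha : Function.Injective a) {T : Finset (Fin n)} (hT : T.card < m)
    (i : Fin n) : Hit a m T (MvPolynomial.X i) := by
  intro h
  by_cases hi : i ∈ T
  · rw [cut, MvPolynomial.aeval_X, if_pos hi]
  · exfalso
    have h1 : cut F T (MvPolynomial.X i) = 0 := by rw [cut, MvPolynomial.aeval_X, if_neg hi]
    rw [h1, sub_zero] at h
    have h2 := G.ev_of_mem ha T hT h
    rw [GenPt.ev, MvPolynomial.aeval_X, G.pt_not_mem hi, mul_eq_zero] at h2
    rcases h2 with h2 | h2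
    · exact Polynomial.X_add_C_ne_zero _ h2
    · rw [C_eq_zero, inv_eq_zero] at h2
      exact G.den_map_ne_zero T i h2

include G in
theorem Hit.mul [Infinite F] (ha : Function.Injective a) {T : Finset (Fin n)} (hT : T.card < m)
    {f g : MvPolynomial (Fin n) F} (hf : Hit a m T f) (hg : Hit a m T g) :
    Hit a m T (f * g) := by
  intro h
  have h1 := G.ev_of_mem ha T hT h
  rw [map_sub, sub_eq_zero, G.ev_cut_const, map_mul] at h1
  by_cases hz : G.ev T f * G.ev T g = 0
  · rw [mul_eq_zero] at hz
    have hz' : f * g = 0 := by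
      rcases hz with hz | hz
      · have h2 := hf.eq_cut G ha (by rw [hz]; exact natDegree_zero)
        have h3 : f ∈ MvPolynomial.supported F (T : Set (Fin n)) := by
          rw [h2]; exact cut_supported T f
        rw [ev_supported G h3, C_eq_zero, FaithfulSMul.algebraMap_eq_zero_iff, C_eq_zero] at hz
        rw [xi_inj G ha hT.le h3 hz, zero_mul]
      · have h2 := hg.eq_cut G ha (by rw [hz]; exact natDegree_zero)
        have h3 : g ∈ MvPolynomial.supported F (T : Set (Fin n)) := by
          rw [h2]; exact cut_supported T g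
        rw [ev_supported G h3, C_eq_zero, FaithfulSMul.algebraMap_eq_zero_iff, C_eq_zero] at hz
        rw [xi_inj G ha hT.le h3 hz, mul_zero]
    rw [hz', map_zero]
  · rw [mul_eq_zero, not_or] at hz
    have h2 := congrArg natDegree h1
    rw [natDegree_mul hz.1 hz.2, natDegree_C] at h2
    have h3 := hf.eq_cut G ha (by omega)
    have h4 := hg.eq_cut G ha (by omega)
    rw [map_mul, ← h3, ← h4]

/-- The coefficients in `F[x_S]` at the generic point. -/
noncomputable def kap (S : Finset (Fin n)) :
    MvPolynomial.supported F (S : Set (Fin n)) →ₐ[F] K :=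
  (MvPolynomial.aeval G.xi).comp (MvPolynomial.supported F (S : Set (Fin n))).val

theorem kap_inj [Infinite F] (ha : Function.Injective a) {S : Finset (Fin n)} (hS : S.card ≤ m) :
    Function.Injective (kap G S) := by
  rw [injective_iff_map_eq_zero]
  intro f hf
  have := xi_inj G ha hS f.2 hf
  exact Subtype.ext this

theorem ev_kap {S : Finset (Fin n)} (f : MvPolynomial.supported F (S : Set (Fin n))) :
    G.ev S (f : MvPolynomial (Fin n) F) = C (algebraMap K[X] (RatFunc K) (C (kap G S f))) :=
  ev_supported G f.2

theorem ev_aeval_one {S : Finset (Fin n)} (V : MvPolynomial (Fin n) F)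
    (h : (MvPolynomial.supported F (S : Set (Fin n)))[X]) :
    G.ev S (Polynomial.aeval V h) = (h.map ((algebraMap K[X] (RatFunc K)).comp
      ((C : K →+* K[X]).comp (kap G S : _ →+* K)))).comp (G.ev S V) := by
  have hcomp : ((G.ev S : MvPolynomial (Fin n) F →+* (RatFunc K)[X])).comp
      (algebraMap (MvPolynomial.supported F (S : Set (Fin n))) (MvPolynomial (Fin n) F)) =
      (C : RatFunc K →+* (RatFunc K)[X]).comp ((algebraMap K[X] (RatFunc K)).comp
        ((C : K →+* K[X]).comp (kap G S : _ →+* K))) := by
    ext1 f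
    exact ev_kap G f
  rw [Polynomial.comp, Polynomial.eval₂_map, ← hcomp, Polynomial.aeval_def]
  exact Polynomial.hom_eval₂ _ _ _ _

/-- One argument. -/
theorem joint_one [Infinite F] (ha : Function.Injective a) {S : Finset (Fin n)} (hS : S.card < m)
    {V : MvPolynomial (Fin n) F} (hV : Hit a m S V)
    (h : (MvPolynomial.supported F (S : Set (Fin n)))[X])
    (h0 : G.ev S (Polynomial.aeval V h) = 0) : Polynomial.aeval V h = 0 := by
  by_cases hd : (G.ev S V).natDegree = 0
  · have h1 := hV.eq_cut G ha hd
    have h2 : V ∈ MvPolynomial.supported F (S : Set (Fin n)) := by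
      rw [h1]; exact cut_supported S V
    have h3 : Polynomial.aeval V h ∈ MvPolynomial.supported F (S : Set (Fin n)) := by
      rw [Polynomial.aeval_eq_sum_range]
      apply sum_mem
      intro k _
      rw [Algebra.smul_def]
      exact mul_mem (h.coeff k).2 (pow_mem h2 k)
    rw [ev_supported G h3, C_eq_zero, FaithfulSMul.algebraMap_eq_zero_iff, C_eq_zero] at h0
    exact xi_inj G ha hS.le h3 h0
  · rw [ev_aeval_one, Polynomial.comp_eq_zero_iff] at h0
    rcases h0 with h0 | ⟨_, h0⟩
    · have hinj : Function.Injective ((algebraMap K[X] (RatFunc K)).comp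
        ((C : K →+* K[X]).comp
          (kap G S : MvPolynomial.supported F (S : Set (Fin n)) →+* K))) := by
        rw [injective_iff_map_eq_zero]
        intro x hx
        have hx' : algebraMap K[X] (RatFunc K) (C (kap G S x)) = 0 := hx
        rw [FaithfulSMul.algebraMap_eq_zero_iff, C_eq_zero] at hx'
        exact kap_inj G ha hS.le (by rw [hx', map_zero])
      rw [(Polynomial.map_eq_zero_iff hinj).1 h0, map_zero]
    · exfalso
      apply hd
      rw [h0, natDegree_C]

theorem ev_aeval_two {S : Finset (Fin n)} (U V : MvPolynomial (Fin n) F)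
    (h : MvPolynomial (Fin 2) (MvPolynomial.supported F (S : Set (Fin n)))) :
    G.ev S (MvPolynomial.aeval ![U, V] h) = MvPolynomial.eval₂
      ((C : RatFunc K →+* (RatFunc K)[X]).comp ((algebraMap K[X] (RatFunc K)).comp C))
      ![G.ev S U, G.ev S V] (MvPolynomial.map (kap G S : _ →+* K) h) := by
  have hcomp : ((G.ev S : MvPolynomial (Fin n) F →+* (RatFunc K)[X])).comp
      (algebraMap (MvPolynomial.supported F (S : Set (Fin n))) (MvPolynomial (Fin n) F)) =
      ((C : RatFunc K →+* (RatFunc K)[X]).comp ((algebraMap K[X] (RatFunc K)).comp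
        (C : K →+* K[X]))).comp (kap G S : _ →+* K) := by
    ext1 f
    exact ev_kap G f
  rw [MvPolynomial.eval₂_map, ← hcomp, MvPolynomial.aeval_def]
  have h1 : ![G.ev S U, G.ev S V] = (G.ev S : MvPolynomial (Fin n) F →+* (RatFunc K)[X]) ∘
      ![U, V] := by
    funext i
    fin_cases i <;> rfl
  rw [h1]
  exact MvPolynomial.eval₂_comp_left _ _ _ _

/-- Two arguments sharing only variables in `S`. -/
theorem joint_two [Infinite F] (ha : Function.Injective a) {S : Finset (Fin n)} (hS : S.card < m)
    {U V : MvPolynomial (Fin n) F} (hU : Hit a m S U) (hV : Hit a m S V)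
    (hUV : U.vars ∩ V.vars ⊆ S)
    (h : MvPolynomial (Fin 2) (MvPolynomial.supported F (S : Set (Fin n))))
    (h0 : G.ev S (MvPolynomial.aeval ![U, V] h) = 0) : MvPolynomial.aeval ![U, V] h = 0 := by
  by_cases hdU : (G.ev S U).natDegree = 0
  · have h1 := hU.eq_cut G ha hdU
    have h2 : U ∈ MvPolynomial.supported F (S : Set (Fin n)) := by
      rw [h1]; exact cut_supported S U
    have h3 : Polynomial.aeval V (MvPolynomial.aeval ![C
      (⟨U, h2⟩ : MvPolynomial.supported F (S : Set (Fin n))), X] h) =
        MvPolynomial.aeval ![U, V] h := by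
      rw [← AlgHom.comp_apply, MvPolynomial.comp_aeval]
      congr 2
      funext i
      fin_cases i
      · show Polynomial.aeval V (C _) = U
        rw [Polynomial.aeval_C]; rfl
      · show Polynomial.aeval V X = V
        rw [Polynomial.aeval_X]
    rw [← h3] at h0 ⊢
    exact joint_one G ha hS hV _ h0
  by_cases hdV : (G.ev S V).natDegree = 0
  · have h1 := hV.eq_cut G ha hdV
    have h2 : V ∈ MvPolynomial.supported F (S : Set (Fin n)) := by
      rw [h1]; exact cut_supported S V
    have h3 : Polynomial.aeval U (MvPolynomial.aeval ![X, C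
      (⟨V, h2⟩ : MvPolynomial.supported F (S : Set (Fin n)))] h) =
        MvPolynomial.aeval ![U, V] h := by
      rw [← AlgHom.comp_apply, MvPolynomial.comp_aeval]
      congr 2
      funext i
      fin_cases i
      · show Polynomial.aeval U X = U
        rw [Polynomial.aeval_X]
      · show Polynomial.aeval U (C _) = V
        rw [Polynomial.aeval_C]; rfl
    rw [← h3] at h0 ⊢
    exact joint_one G ha hS hU _ h0
  obtain ⟨v, hv, hvV⟩ := G.exists_pole S U V hUV hdU
  rw [ev_aeval_two] at h0
  have h4 := indep_of_pole _ _ hdV v hv (hvV _) _ h0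
  have h5 : h = 0 := by
    apply MvPolynomial.map_injective _ (kap_inj G ha hS.le)
    rw [map_zero]; exact h4
  rw [h5, map_zero]

theorem cut_supported' (T : Finset (Fin n)) {A : Set (Fin n)} {f : MvPolynomial (Fin n) F}
    (hf : f ∈ MvPolynomial.supported F A) :
    cut F T f ∈ MvPolynomial.supported F (A ∩ (T : Set (Fin n))) := by
  have hf' : f ∈ Algebra.adjoin F (MvPolynomial.X '' A) := hf
  clear hf
  induction hf' using Algebra.adjoin_induction with
  | mem z hz =>
    obtain ⟨i, hi, rfl⟩ := hz
    rw [cut, MvPolynomial.aeval_X]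
    split_ifs with hiT
    · exact MvPolynomial.X_mem_supported.2 ⟨hi, hiT⟩
    · exact zero_mem _
  | algebraMap r => rw [AlgHom.commutes]; exact Subalgebra.algebraMap_mem _ _
  | add y z _ _ hy hz => rw [map_add]; exact add_mem hy hz
  | mul y z _ _ hy hz => rw [map_mul]; exact mul_mem hy hz

include G in
theorem Hit.gate [Infinite F] (ha : Function.Injective a) {T S : Finset (Fin n)}
    (hS : S.card < m) {U V : MvPolynomial (Fin n) F} (hU : Hit a m S U) (hV : Hit a m S V)
    (hUV : U.vars ∩ V.vars ⊆ S) (hT : T ∩ (U.vars ∪ V.vars) ⊆ S)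
    (h : MvPolynomial (Fin 2) (MvPolynomial.supported F (S : Set (Fin n)))) :
    Hit a m T (MvPolynomial.aeval ![U, V] h) := by
  classical
  intro hmem
  have hW : MvPolynomial.aeval ![U, V] h ∈
      MvPolynomial.supported F ((S : Set (Fin n)) ∪ (U.vars ∪ V.vars : Finset (Fin n))) := by
    rw [MvPolynomial.aeval_def, MvPolynomial.eval₂_eq']
    apply sum_mem
    intro s _
    apply mul_mem
    · exact MvPolynomial.supported_mono (by simp) (h.coeff s).2
    · apply prod_mem
      intro i _
      apply pow_mem
      fin_cases i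
      · exact MvPolynomial.supported_mono (fun j hj => Or.inr (Finset.mem_coe.2
          (Finset.mem_union_left _ hj))) (MvPolynomial.mem_supported_vars U)
      · exact MvPolynomial.supported_mono (fun j hj => Or.inr (Finset.mem_coe.2
          (Finset.mem_union_right _ hj))) (MvPolynomial.mem_supported_vars V)
  have hw : cut F T (MvPolynomial.aeval ![U, V] h) ∈
      MvPolynomial.supported F (S : Set (Fin n)) := by
    refine MvPolynomial.supported_mono ?_ (cut_supported' T hW)
    rintro i ⟨hi | hi, hiT⟩
    · exact hi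
    · have : i ∈ T ∩ (U.vars ∪ V.vars) := Finset.mem_inter.2 ⟨hiT, hi⟩
      exact hT this
  have h1 : MvPolynomial.aeval ![U, V] (h - MvPolynomial.C ⟨_, hw⟩) =
      MvPolynomial.aeval ![U, V] h - cut F T (MvPolynomial.aeval ![U, V] h) := by
    rw [map_sub, MvPolynomial.aeval_C]; rfl
  have h2 := joint_two G ha hS hU hV hUV (h - MvPolynomial.C ⟨_, hw⟩) (by
    rw [h1]; exact G.ev_of_mem ha S hS hmem)
  rw [h1, sub_eq_zero] at h2
  exact h2

include G in
theorem Hit.eq_zero [Infinite F] (ha : Function.Injective a) {T : Finset (Fin n)}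
    (hT : T.card < m) {f : MvPolynomial (Fin n) F} (hf : Hit a m T f) (h : f ∈ genI a m) :
    f = 0 := by
  have h1 := hf.eq_cut G ha (by rw [G.ev_of_mem ha T hT h]; exact natDegree_zero)
  refine small_support a ha hT.le ?_ h
  rw [h1]
  exact cut_supported T f

end hit

end Pool.Agent.H530R2
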