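import Mathlib
import Pool.Agent.H530R2.Nst5
import Pool.Agent.H530R2.Rat5

/-!
Nonvanishing derivatives and specialisation of the shared variables.
-/

namespace Pool.Agent.H530R2

open MvPolynomial

section lemmaD

variable {F : Type*} [Field F] {n : ℕ} {a : Fin n → F} {m : ℕ} {K : Type*} [Field K] [Algebra F K]
  (G : GenPt a m K)

theorem derivative_ev (T : Finset (Fin n)) (f : MvPolynomial (Fin n) F) :
    Polynomial.derivative (G.ev T f) =
      ∑ i, G.ev T (pderiv i f) * Polynomial.derivative (G.pt T i) := by
  classical
  induction f using MvPolynomial.induction_on with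
  | C r =>
    have h2 : G.ev T (C r) = Polynomial.C (algebraMap F (RatFunc K) r) := by
      rw [GenPt.ev, aeval_C, Polynomial.algebraMap_apply]
    rw [h2, Polynomial.derivative_C]
    symm
    apply Finset.sum_eq_zero
    intro i _
    rw [pderiv_C, map_zero, zero_mul]
  | add p q hp hq =>
    rw [map_add, Polynomial.derivative_add, hp, hq, ← Finset.sum_add_distrib]
    apply Finset.sum_congr rfl
    intro i _
    rw [map_add, map_add, add_mul]
  | mul_X p i hp =>
    have hX : G.ev T (X i) = G.pt T i := by rw [GenPt.ev, aeval_X]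
    rw [map_mul, Polynomial.derivative_mul, hp, hX]
    have h1 : ∀ j, G.ev T (pderiv j (p * X i)) * Polynomial.derivative (G.pt T j) =
        (G.ev T (pderiv j p) * Polynomial.derivative (G.pt T j)) * G.pt T i +
          G.ev T p * (if j = i then Polynomial.derivative (G.pt T j) else 0) := by
      intro j
      rw [pderiv_mul, map_add, map_mul, map_mul, hX]
      by_cases hj : j = i
      · rw [hj, pderiv_X_self, map_one, if_pos rfl]; ring
      · rw [pderiv_X_of_ne (fun h => hj h.symm), map_zero, if_neg hj]; ring
    simp only [h1]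
    rw [Finset.sum_add_distrib, ← Finset.sum_mul, ← Finset.mul_sum, Finset.sum_ite_eq']
    simp

include G in
/-- A polynomial which really depends on variables outside `S` has a derivative in such a
direction on which the generator does not vanish. -/
theorem Hit.exists_deriv [CharZero F] (ha : Function.Injective a) {S : Finset (Fin n)}
    (hS : S.card < m) {g : MvPolynomial (Fin n) F} (hg : Hit a m S g) (hne : g ≠ cut F S g) :
    ∃ t, t ∉ S ∧ pderiv t g ∉ genI a m := by
  have : CharZero K := charZero_of_injective_algebraMap (algebraMap F K).injective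
  by_contra hcon
  push Not at hcon
  apply hne
  apply hg.eq_cut G ha
  have hd : Polynomial.derivative (G.ev S g) = 0 := by
    rw [derivative_ev]
    apply Finset.sum_eq_zero
    intro i _
    by_cases hi : i ∈ S
    · rw [G.pt_mem hi, Polynomial.derivative_C, mul_zero]
    · rw [G.ev_of_mem ha S hS (hcon i hi), zero_mul]
  exact Polynomial.derivative_eq_zero.1 hd

end lemmaD

section spec

variable {F : Type*} [Field F] {n : ℕ} (a : Fin n → F)

/-- replace the variables in `S` by numbers -/
noncomputable def sps (s : Fin n → F) (S : Finset (Fin n)) :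
    MvPolynomial (Fin n) F →ₐ[F] MvPolynomial (Fin n) F :=
  aeval fun i => if i ∈ S then C (s i) else X i

theorem sps_X_mem (s : Fin n → F) {S : Finset (Fin n)} {i : Fin n} (h : i ∈ S) :
    sps s S (X i) = C (s i) := by
  simp [sps, h]

theorem sps_X_not_mem (s : Fin n → F) {S : Finset (Fin n)} {i : Fin n} (h : i ∉ S) :
    sps s S (X i) = X i := by
  simp [sps, h]

theorem sps_C (s : Fin n → F) (S : Finset (Fin n)) (r : F) : sps s S (C r) = C r :=
  (sps s S).commutes r

theorem sps_supported (s : Fin n → F) (S : Finset (Fin n)) {f : MvPolynomial (Fin n) F}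
    (hf : f ∈ supported F (S : Set (Fin n))) : sps s S f = C (eval s f) := by
  have h1 : sps s S f = aeval (fun i => (C (s i) : MvPolynomial (Fin n) F)) f := by
    apply aeval_congr_supported hf
    intro i hi
    rw [if_pos (by exact_mod_cast hi)]
  rw [h1]
  clear h1 hf
  induction f using MvPolynomial.induction_on with
  | C r => rw [aeval_C, eval_C]; rfl
  | add p q hp hq => rw [map_add, map_add, map_add, hp, hq]
  | mul_X p i hp => rw [map_mul, map_mul, map_mul, hp, aeval_X, eval_X]

theorem eval_sps (s : Fin n → F) (S : Finset (Fin n)) (f : MvPolynomial (Fin n) F) :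
    eval s (sps s S f) = eval s f := by
  induction f using MvPolynomial.induction_on with
  | C r => rw [sps_C]
  | add p q hp hq => rw [map_add, map_add, map_add, hp, hq]
  | mul_X p i hp =>
    rw [map_mul, map_mul, map_mul, hp]
    by_cases hi : i ∈ S
    · rw [sps_X_mem s hi, eval_C, eval_X]
    · rw [sps_X_not_mem s hi]

theorem pderiv_sps (s : Fin n → F) {S : Finset (Fin n)} {t : Fin n} (ht : t ∉ S)
    (f : MvPolynomial (Fin n) F) : pderiv t (sps s S f) = sps s S (pderiv t f) := by
  induction f using MvPolynomial.induction_on with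
  | C r => rw [sps_C, pderiv_C, map_zero]
  | add p q hp hq => rw [map_add, map_add, map_add, map_add, hp, hq]
  | mul_X p i hp =>
    rw [map_mul, pderiv_mul, pderiv_mul, map_add, map_mul, map_mul, hp]
    congr 2
    by_cases hi : i ∈ S
    · rw [sps_X_mem s hi, pderiv_C, pderiv_X_of_ne, map_zero]
      rintro rfl
      exact ht hi
    · rw [sps_X_not_mem s hi]
      by_cases hit : i = t
      · subst hit; rw [pderiv_X_self, map_one]
      · rw [pderiv_X_of_ne hit, map_zero]

theorem sps_mem_supported (s : Fin n → F) (S : Finset (Fin n)) {A : Set (Fin n)}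
    {f : MvPolynomial (Fin n) F} (hf : f ∈ supported F A) : sps s S f ∈ supported F A := by
  have hf' : f ∈ Algebra.adjoin F (X '' A : Set (MvPolynomial (Fin n) F)) := hf
  clear hf
  induction hf' using Algebra.adjoin_induction with
  | mem z hz =>
    obtain ⟨i, hi, rfl⟩ := hz
    by_cases hiS : i ∈ S
    · rw [sps_X_mem s hiS]; exact Subalgebra.algebraMap_mem _ _
    · rw [sps_X_not_mem s hiS]; exact X_mem_supported.2 hi
  | algebraMap r => rw [AlgHom.commutes]; exact Subalgebra.algebraMap_mem _ _
  | add y z _ _ hy hz => rw [map_add]; exact add_mem hy hz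
  | mul y z _ _ hy hz => rw [map_mul]; exact mul_mem hy hz

theorem eval_hyb (s : Fin n → F) (j : ℕ) (S : Finset (Fin n)) (f : MvPolynomial (Fin n) F) :
    eval (fun i => C (s i)) (hyb a j S f) = gen a j (sps s S f) := by
  induction f using MvPolynomial.induction_on with
  | C r =>
    rw [hyb_C, sps_C, eval_C]
    exact ((gen a j).commutes r).symm
  | add p q hp hq => rw [map_add, map_add, map_add, map_add, hp, hq]
  | mul_X p i hp =>
    rw [map_mul, map_mul, map_mul, map_mul, hp]
    congr 1
    by_cases hi : i ∈ S
    · rw [hyb_X_mem a _ hi, sps_X_mem s hi, eval_X]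
      exact ((gen a j).commutes _).symm
    · rw [hyb_X_not_mem a _ hi, sps_X_not_mem s hi, eval_C]

theorem gen_of_hyb (j : ℕ) (S : Finset (Fin n)) (f : MvPolynomial (Fin n) F)
    (h : hyb a j S f = 0) : gen a j f = 0 := by
  have key : ∀ f, eval (fun i => gen a j (X i)) (hyb a j S f) = gen a j f := by
    intro f
    induction f using MvPolynomial.induction_on with
    | C r =>
      rw [hyb_C, eval_C]
      exact ((gen a j).commutes r).symm
    | add p q hp hq => rw [map_add, map_add, map_add, hp, hq]
    | mul_X p i hp =>
      rw [map_mul, map_mul, map_mul, hp]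
      congr 1
      by_cases hi : i ∈ S
      · rw [hyb_X_mem a _ hi, eval_X]
      · rw [hyb_X_not_mem a _ hi, eval_C]
  rw [← key, h, map_zero]

theorem hyb_of_gen (ha : Function.Injective a) (j : ℕ) (S : Finset (Fin n))
    (f : MvPolynomial (Fin n) F) (h : gen a (j + S.card) f = 0) : hyb a j S f = 0 := by
  classical
  induction S using Finset.induction_on generalizing j with
  | empty => rw [hyb_empty, show gen a j f = 0 from h, map_zero]
  | insert i S hi ih =>
    apply hyb_free a ha
    apply ih
    rw [Finset.card_insert_of_notMem hi, show j + (S.card + 1) = j + 1 + S.card by omega] at h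
    exact h

/-- simultaneous nonvanishing at numerical values of the shared variables -/
theorem exists_spec [Infinite F] {ι : Type*} (I : Finset ι) (j : ℕ) (S : Finset (Fin n))
    (W : MvPolynomial (Fin n) F) (hW : W ≠ 0) (D : ι → MvPolynomial (Fin n) F)
    (hD : ∀ k ∈ I, D k ∉ genI a j) :
    ∃ s : Fin n → F, eval s W ≠ 0 ∧ ∀ k ∈ I, gen a j (sps s S (D k)) ≠ 0 := by
  classical
  obtain ⟨P, hP⟩ : ∃ P : MvPolynomial (Fin n) (MvPolynomial (Fin j ⊕ Fin j) F),
    P = map C W * ∏ k ∈ I, hyb a j S (D k) := ⟨_, rfl⟩
  have hP0 : P ≠ 0 := by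
    rw [hP]
    apply mul_ne_zero
    · intro h
      exact hW (map_injective _ (C_injective _ _) (by rw [h, map_zero]))
    · rw [Finset.prod_ne_zero_iff]
      intro k hk h
      exact hD k hk (gen_of_hyb a j S (D k) h)
  by_contra hcon
  push Not at hcon
  apply hP0
  refine funext_set (fun _ => Set.range (C : F → MvPolynomial (Fin j ⊕ Fin j) F))
    (fun _ => Set.infinite_range_of_injective (C_injective _ _)) ?_
  intro x hx
  rw [map_zero]
  have hx' : ∀ i, ∃ y : F, C y = x i := fun i => hx i (Set.mem_univ _)
  choose s hs using hx'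
  have hxs : x = fun i => C (s i) := funext fun i => (hs i).symm
  rw [hxs, hP, map_mul, map_prod]
  by_cases h1 : eval s W = 0
  · have h2 : eval (fun i => (C (s i) : MvPolynomial (Fin j ⊕ Fin j) F)) (map C W) =
        C (eval s W) := by
      rw [eval_map]
      exact (eval₂_comp_left (C : F →+* MvPolynomial (Fin j ⊕ Fin j) F) (RingHom.id F) s W).symm
    rw [h2, h1, map_zero, zero_mul]
  · obtain ⟨k, hk, h2⟩ := hcon s h1
    rw [Finset.prod_eq_zero hk, mul_zero]
    rw [eval_hyb]
    exact h2

end spec

end Pool.Agent.H530R2
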