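import Mathlib
import Pool.Agent.H530R2.Nst6

/-!
The class of polynomials on which the generator is faithful is closed under programs with a
bounded number of registers, at the cost of a bounded number of seeds.
-/

namespace Pool.Agent.H530R2

open MvPolynomial

section

variable {F : Type*} [Field F] {n : ℕ} {a : Fin n → F} {m : ℕ}

theorem aeval_mem_of {τ : Type*} {S : Finset (Fin n)} (B : Subalgebra F (MvPolynomial (Fin n) F))
    (hB : supported F (S : Set (Fin n)) ≤ B) (f : τ → MvPolynomial (Fin n) F)
    (hf : ∀ i, f i ∈ B) (P : MvPolynomial τ (supported F (S : Set (Fin n)))) :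
    aeval f P ∈ B := by
  induction P using MvPolynomial.induction_on with
  | C y => rw [aeval_C]; exact hB y.2
  | add p q hp hq => rw [map_add]; exact add_mem hp hq
  | mul_X p i hp => rw [map_mul, aeval_X]; exact mul_mem hp (hf i)

theorem outp_mem {S : Finset (Fin n)} (B : Subalgebra F (MvPolynomial (Fin n) F))
    (hB : supported F (S : Set (Fin n)) ≤ B) {r w : ℕ} (c₀ : Fin w → supported F (S : Set (Fin n)))
    (upd : Fin r → Fin w → MvPolynomial (Option (Fin w)) (supported F (S : Set (Fin n))))
    (Φ : MvPolynomial (Fin w) (supported F (S : Set (Fin n))))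
    (g : Fin r → MvPolynomial (Fin n) F) (hg : ∀ k, g k ∈ B) :
    outp c₀ upd Φ g ∈ B := by
  have h1 : ∀ k s, run c₀ upd g k s ∈ B := by
    intro k
    induction k with
    | zero => exact fun s => hB (c₀ s).2
    | succ k ih =>
      intro s
      simp only [run]
      split_ifs with h
      · apply aeval_mem_of B hB
        rintro (_ | o)
        · exact hg _
        · exact ih o
      · exact ih s
  exact aeval_mem_of B hB _ (h1 r) Φ

variable {K : Type*} [Field K] [Algebra F K] (G : GenPt a m K)

include G in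
theorem prog_core [CharZero F] (ha : Function.Injective a) {S : Finset (Fin n)} {c : ℕ}
    (hSm : S.card < m) (hSc : S.card ≤ c) {r w : ℕ} (g : Fin r → MvPolynomial (Fin n) F)
    (hg : ∀ k, Hit a m S (g k)) (hgg : ∀ k l, k ≠ l → (g k).vars ∩ (g l).vars ⊆ S)
    (c₀ : Fin w → supported F (S : Set (Fin n)))
    (upd : Fin r → Fin w → MvPolynomial (Option (Fin w)) (supported F (S : Set (Fin n))))
    (Φ : MvPolynomial (Fin w) (supported F (S : Set (Fin n))))
    (h : outp c₀ upd Φ g ∈ genI a (m + jcost (w + 1) w + c)) : outp c₀ upd Φ g = 0 := by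
  classical
  by_contra hne
  have hinf : Infinite F := inferInstance
  -- the directions
  have hdir : ∀ k, ∃ t, g k ≠ cut F S (g k) → t ∉ S ∧ pderiv t (g k) ∉ genI a m := by
    intro k
    by_cases hk : g k = cut F S (g k)
    · rcases Nat.eq_zero_or_pos n with hn | hn
      · exfalso
        subst hn
        -- no variables: every polynomial is constant
        apply hne
        obtain ⟨y, hy⟩ : ∃ y, outp c₀ upd Φ g = C y := ⟨_, MvPolynomial.eq_C_of_isEmpty _⟩
        have h2 : gen a (m + jcost (w + 1) w + c) (outp c₀ upd Φ g) = 0 := h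
        rw [hy] at h2 ⊢
        have h3 : gen a (m + jcost (w + 1) w + c) (C y) = C y := (gen a _).commutes y
        rw [h3, C_eq_zero] at h2
        rw [h2, map_zero]
      · exact ⟨⟨0, hn⟩, fun hc => absurd hk hc⟩
    · obtain ⟨t, ht⟩ := (hg k).exists_deriv G ha hSm hk
      exact ⟨t, fun _ => ht⟩
  choose t ht using hdir
  obtain ⟨Cst, hCst⟩ : ∃ Cst : Finset (Fin r), ∀ k, k ∈ Cst ↔ g k = cut F S (g k) :=
    ⟨Finset.univ.filter fun k => g k = cut F S (g k), fun k => by simp⟩
  have ht' : ∀ k, k ∉ Cst → t k ∉ S ∧ pderiv (t k) (g k) ∉ genI a m := by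
    intro k hk
    exact ht k (fun hc => hk ((hCst k).2 hc))
  obtain ⟨s, hs1, hs2⟩ := exists_spec (a := a) (Cstᶜ) m S (outp c₀ upd Φ g) hne
    (fun k => pderiv (t k) (g k)) (fun k hk => (ht' k (Finset.mem_compl.1 hk)).2)
  -- specialise
  have hmap := outp_map (R := supported F (S : Set (Fin n))) (R' := F)
    ((eval s).comp (algebraMap (supported F (S : Set (Fin n))) (MvPolynomial (Fin n) F)))
    (sps s S : MvPolynomial (Fin n) F →+* MvPolynomial (Fin n) F)
    (fun y => sps_supported s S y.2) c₀ upd Φ g (fun k => sps s S (g k)) (fun _ => rfl)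
  have hzero : gen a (m + jcost (w + 1) w) (sps s S (outp c₀ upd Φ g)) = 0 := by
    rw [← eval_hyb]
    rw [hyb_of_gen a ha (m + jcost (w + 1) w) S _ _, map_zero]
    exact genI_le a (Nat.add_le_add_left hSc _) h
  have h0 : outp (fun i => (eval s).comp (algebraMap (supported F (S : Set (Fin n)))
      (MvPolynomial (Fin n) F)) (c₀ i)) (fun k i => map ((eval s).comp
      (algebraMap (supported F (S : Set (Fin n))) (MvPolynomial (Fin n) F))) (upd k i))
      (map ((eval s).comp
      (algebraMap (supported F (S : Set (Fin n))) (MvPolynomial (Fin n) F))) Φ)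
      (fun k => sps s S (g k)) = 0 := by
    apply prog_zero a ha m (fun k => sps s S (g k)) Cst (fun k => eval s (g k)) ?_ t ?_ ?_
    · show gen a _ _ = 0
      rw [← hmap]
      exact hzero
    · intro k hk
      apply sps_supported
      rw [(hCst k).1 hk]
      exact cut_supported S (g k)
    · intro k hk
      have h1 := hs2 k (Finset.mem_compl.2 hk)
      show gen a m (pderiv (t k) (sps s S (g k))) ≠ 0
      rw [pderiv_sps s (ht' k hk).1]
      exact h1
    · intro k hk l hl
      apply sps_mem_supported
      have h1 : t k ∈ (g k).vars := by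
        by_contra hc
        apply (ht' k hk).2
        rw [pderiv_eq_zero_of_notMem_vars hc]
        exact Ideal.zero_mem _
      have h2 : t k ∉ (g l).vars := by
        intro hc
        exact (ht' k hk).1 (hgg k l hl.symm (Finset.mem_inter.2 ⟨h1, hc⟩))
      refine supported_mono ?_ (mem_supported_vars (g l))
      intro i hi
      rw [Set.mem_compl_iff, Set.mem_singleton_iff]
      rintro rfl
      exact h2 hi
  apply hs1
  rw [← eval_sps s S]
  have h1 : sps s S (outp c₀ upd Φ g) = 0 := by
    have : (sps s S : MvPolynomial (Fin n) F →+* MvPolynomial (Fin n) F) (outp c₀ upd Φ g) = 0 := by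
      rw [hmap]; exact h0
    exact this
  rw [h1, map_zero]

include G in
theorem Hit.prog [CharZero F] (ha : Function.Injective a) {S T : Finset (Fin n)} {c : ℕ}
    (hSm : S.card < m) (hSc : S.card ≤ c) {r w : ℕ} (g : Fin r → MvPolynomial (Fin n) F)
    (hg : ∀ k, Hit a m S (g k)) (hgg : ∀ k l, k ≠ l → (g k).vars ∩ (g l).vars ⊆ S)
    (hT : ∀ k, T ∩ (g k).vars ⊆ S)
    (c₀ : Fin w → supported F (S : Set (Fin n)))
    (upd : Fin r → Fin w → MvPolynomial (Option (Fin w)) (supported F (S : Set (Fin n))))
    (Φ : MvPolynomial (Fin w) (supported F (S : Set (Fin n)))) :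
    Hit a (m + jcost (w + 1) w + c) T (outp c₀ upd Φ g) := by
  classical
  intro hmem
  have hW : outp c₀ upd Φ g ∈ supported F ((S : Set (Fin n)) ∪ ⋃ k, ((g k).vars : Set (Fin n))) := by
    apply outp_mem (S := S) _ (supported_mono Set.subset_union_left)
    intro k
    exact supported_mono ((Set.subset_iUnion (fun k => ((g k).vars : Set (Fin n))) k).trans
      Set.subset_union_right) (mem_supported_vars (g k))
  have hw : cut F T (outp c₀ upd Φ g) ∈ supported F (S : Set (Fin n)) := by
    refine supported_mono ?_ (cut_supported' T hW)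
    rintro i ⟨hi | hi, hiT⟩
    · exact hi
    · obtain ⟨k, hk⟩ := Set.mem_iUnion.1 hi
      exact hT k (Finset.mem_inter.2 ⟨hiT, hk⟩)
  have h1 : outp c₀ upd (Φ - C ⟨_, hw⟩) g =
      outp c₀ upd Φ g - cut F T (outp c₀ upd Φ g) := by
    unfold outp
    rw [map_sub, aeval_C]; rfl
  have h2 := prog_core G ha hSm hSc g hg hgg c₀ upd (Φ - C ⟨_, hw⟩) (by rw [h1]; exact hmem)
  rw [h1, sub_eq_zero] at h2
  exact h2

theorem Hit.mono {m' : ℕ} (hm : m ≤ m') {T : Finset (Fin n)} {f : MvPolynomial (Fin n) F}
    (hf : Hit a m T f) : Hit a m' T f := fun h => hf (genI_le a hm h)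

end

end Pool.Agent.H530R2
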