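import Mathlib
import Pool.Agent.H530R2.SV

/-!
Read-once oblivious programs in a fixed order: closure properties.
-/

namespace Pool.Agent.H530R2

open Module Polynomial Matrix

section

variable {F : Type*} [Field F] {n : ℕ}

/-- the layer matrices in the order `σ`, as a sequence -/
noncomputable def toSeq {w : ℕ} (σ : Equiv.Perm (Fin n))
    (N : Fin n → Matrix (Fin w) (Fin w) F[X]) : ℕ → Matrix (Fin w) (Fin w) F[X] :=
  fun k => if h : k < n then N (σ ⟨k, h⟩) else 1

/-- the polynomial computed by a read-once oblivious program of width `w` in the order `σ`;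
the layer matrix `N i` belongs to the variable `i` -/
noncomputable def roVal {w : ℕ} (σ : Equiv.Perm (Fin n))
    (N : Fin n → Matrix (Fin w) (Fin w) F[X]) (u v : Fin w → F) : MvPolynomial (Fin n) F :=
  emb _ u ⬝ᵥ (Pr (pv σ) (toSeq σ N) 0 n *ᵥ emb _ v)

/-- computed in the order `σ` with width `w`, and with constant matrices outside `V` -/
def IsRO (σ : Equiv.Perm (Fin n)) (w : ℕ) (V : Set (Fin n)) (f : MvPolynomial (Fin n) F) : Prop :=
  ∃ (N : Fin n → Matrix (Fin w) (Fin w) F[X]) (u v : Fin w → F),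
    (∀ i, i ∉ V → ∃ M : Matrix (Fin w) (Fin w) F, N i = M.map Polynomial.C) ∧ f = roVal σ N u v

theorem pv_mem_supported (σ : Equiv.Perm (Fin n)) (k : ℕ) (hk : k < n) :
    (pv σ k : MvPolynomial (Fin n) F) = MvPolynomial.X (σ ⟨k, hk⟩) := by
  unfold pv; rw [dif_pos hk]

theorem Nh_mem_supported {w : ℕ} (σ : Equiv.Perm (Fin n)) (V : Set (Fin n))
    (N : Fin n → Matrix (Fin w) (Fin w) F[X])
    (hN : ∀ i, i ∉ V → ∃ M : Matrix (Fin w) (Fin w) F, N i = M.map Polynomial.C)
    (k : ℕ) (f g : Fin w) :
    Nh (pv σ) (toSeq σ N) k f g ∈ MvPolynomial.supported F V := by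
  unfold Nh toSeq
  rw [Matrix.map_apply]
  split_ifs with h
  · by_cases hV : σ ⟨k, h⟩ ∈ V
    · have h1 : (pv σ k : MvPolynomial (Fin n) F) ∈ MvPolynomial.supported F V := by
        rw [pv_mem_supported σ k h, MvPolynomial.X_mem_supported]
        exact hV
      exact (Algebra.adjoin_le (S := MvPolynomial.supported F V) (by simpa using h1))
        (Polynomial.aeval_mem_adjoin_singleton F (pv σ k))
    · obtain ⟨M, hM⟩ := hN _ hV
      rw [hM]
      simp only [Matrix.map_apply, Polynomial.aeval_C]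
      exact Subalgebra.algebraMap_mem _ _
  · rw [Matrix.one_apply]
    split_ifs
    · rw [map_one]; exact Subalgebra.one_mem _
    · rw [map_zero]; exact Subalgebra.zero_mem _

theorem IsRO.mem_supported {σ : Equiv.Perm (Fin n)} {w : ℕ} {V : Set (Fin n)}
    {f : MvPolynomial (Fin n) F} (h : IsRO σ w V f) : f ∈ MvPolynomial.supported F V := by
  obtain ⟨N, u, v, hN, rfl⟩ := h
  have hPr : ∀ m i j, Pr (pv σ) (toSeq σ N) 0 m i j ∈ MvPolynomial.supported F V := by
    intro m
    induction m with
    | zero =>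
      intro i j
      rw [Pr_zero, Matrix.one_apply]
      split_ifs
      · exact Subalgebra.one_mem _
      · exact Subalgebra.zero_mem _
    | succ m ih =>
      intro i j
      rw [Pr_succ, Matrix.mul_apply]
      exact Subalgebra.sum_mem _ fun l _ => Subalgebra.mul_mem _ (ih _ _)
        (Nh_mem_supported σ V N hN _ _ _)
  unfold roVal Matrix.mulVec dotProduct emb
  refine Subalgebra.sum_mem _ fun i _ => Subalgebra.mul_mem _ (Subalgebra.algebraMap_mem _ _) ?_
  exact Subalgebra.sum_mem _ fun j _ => Subalgebra.mul_mem _ (hPr _ _ _)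
    (Subalgebra.algebraMap_mem _ _)

theorem Pr_congr {A : Type*} [CommRing A] [Algebra F A] {w : ℕ} (x : ℕ → A)
    (N N' : ℕ → Matrix (Fin w) (Fin w) F[X]) (a m : ℕ)
    (h : ∀ k, a ≤ k → k < a + m → N k = N' k) : Pr x N a m = Pr x N' a m := by
  induction m with
  | zero => rfl
  | succ m ih =>
    rw [Pr_succ, Pr_succ, ih (fun k h1 h2 => h k h1 (by omega))]
    unfold Nh
    rw [h (a + m) (by omega) (by omega)]

theorem IsRO.zero (σ : Equiv.Perm (Fin n)) (w : ℕ) (V : Set (Fin n)) :
    IsRO σ w V (0 : MvPolynomial (Fin n) F) := by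
  refine ⟨fun _ => 0, 0, 0, fun i _ => ⟨0, by simp⟩, ?_⟩
  unfold roVal
  simp [emb, dotProduct]

theorem IsRO.smul {σ : Equiv.Perm (Fin n)} {w : ℕ} {V : Set (Fin n)}
    {f : MvPolynomial (Fin n) F} (h : IsRO σ w V f) (c : F) : IsRO σ w V (c • f) := by
  obtain ⟨N, u, v, hN, rfl⟩ := h
  refine ⟨N, c • u, v, hN, ?_⟩
  unfold roVal
  simp only [emb, dotProduct, Pi.smul_apply, smul_eq_mul, map_mul, Algebra.smul_def,
    Finset.mul_sum]
  apply Finset.sum_congr rfl
  intro i _
  ring

theorem IsRO.mono_V {σ : Equiv.Perm (Fin n)} {w : ℕ} {V V' : Set (Fin n)} (hV : V ⊆ V')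
    {f : MvPolynomial (Fin n) F} (h : IsRO σ w V f) : IsRO σ w V' f := by
  obtain ⟨N, u, v, hN, rfl⟩ := h
  exact ⟨N, u, v, fun i hi => hN i (fun h' => hi (hV h')), rfl⟩

/-- block diagonal sum of two programs -/
theorem IsRO.add {σ : Equiv.Perm (Fin n)} {w w' : ℕ} {V : Set (Fin n)}
    {f g : MvPolynomial (Fin n) F} (hf : IsRO σ w V f) (hg : IsRO σ w' V g) :
    IsRO σ (w + w') V (f + g) := by
  obtain ⟨N, u, v, hN, rfl⟩ := hf
  obtain ⟨N', u', v', hN', rfl⟩ := hg
  set e := (finSumFinEquiv : Fin w ⊕ Fin w' ≃ Fin (w + w')) with he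
  refine ⟨fun i => Matrix.reindex e e (Matrix.fromBlocks (N i) 0 0 (N' i)),
    (Sum.elim u u') ∘ e.symm, (Sum.elim v v') ∘ e.symm, ?_, ?_⟩
  · intro i hi
    obtain ⟨M, hM⟩ := hN i hi
    obtain ⟨M', hM'⟩ := hN' i hi
    refine ⟨Matrix.reindex e e (Matrix.fromBlocks M 0 0 M'), ?_⟩
    ext a b
    simp only [Matrix.reindex_apply, Matrix.submatrix_apply, Matrix.map_apply, hM, hM']
    rcases e.symm a with a | a <;> rcases e.symm b with b | b <;> simp
  · have key : ∀ m, Pr (pv σ) (toSeq σ fun i =>
        Matrix.reindex e e (Matrix.fromBlocks (N i) 0 0 (N' i))) 0 m =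
        Matrix.reindex e e (Matrix.fromBlocks (Pr (pv σ) (toSeq σ N) 0 m) 0 0
          (Pr (pv σ) (toSeq σ N') 0 m) : Matrix _ _ (MvPolynomial (Fin n) F)) := by
      intro m
      induction m with
      | zero =>
        rw [Pr_zero, Pr_zero, Pr_zero, Matrix.fromBlocks_one]
        simp
      | succ m ih =>
        rw [Pr_succ, Pr_succ, Pr_succ, ih]
        have hNh : Nh (pv σ) (toSeq σ fun i =>
            Matrix.reindex e e (Matrix.fromBlocks (N i) 0 0 (N' i))) (0 + m) =
            Matrix.reindex e e (Matrix.fromBlocks (Nh (pv σ) (toSeq σ N) (0 + m)) 0 0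
              (Nh (pv σ) (toSeq σ N') (0 + m)) : Matrix _ _ (MvPolynomial (Fin n) F)) := by
          unfold Nh toSeq
          split_ifs with h
          · ext a b
            simp only [Matrix.reindex_apply, Matrix.submatrix_apply, Matrix.map_apply]
            rcases e.symm a with a | a <;> rcases e.symm b with b | b <;> simp
          · ext a b
            simp only [Matrix.reindex_apply, Matrix.submatrix_apply, Matrix.map_apply]
            rw [← e.apply_symm_apply a, ← e.apply_symm_apply b]
            rcases e.symm a with a | a <;> rcases e.symm b with b | b <;>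
              simp [Matrix.one_apply]
        rw [hNh]
        simp only [Matrix.reindex_apply]
        rw [Matrix.submatrix_mul_equiv, Matrix.fromBlocks_multiply]
        simp
    unfold roVal
    rw [key n]
    simp only [dotProduct, Matrix.mulVec, Matrix.reindex_apply, Matrix.submatrix_apply, emb,
      Function.comp]
    rw [← Equiv.sum_comp e, Fintype.sum_sum_type]
    simp only [Equiv.symm_apply_apply, Sum.elim_inl, Sum.elim_inr]
    congr 1
    · apply Finset.sum_congr rfl
      intro i _
      rw [← Equiv.sum_comp e, Fintype.sum_sum_type]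
      simp
    · apply Finset.sum_congr rfl
      intro i _
      rw [← Equiv.sum_comp e, Fintype.sum_sum_type]
      simp

theorem IsRO.mono {σ : Equiv.Perm (Fin n)} {w w' : ℕ} (hw : w ≤ w') {V : Set (Fin n)}
    {f : MvPolynomial (Fin n) F} (h : IsRO σ w V f) : IsRO σ w' V f := by
  obtain ⟨d, rfl⟩ := Nat.exists_eq_add_of_le hw
  have := h.add (IsRO.zero σ d V)
  simpa using this

theorem IsRO.sum {σ : Equiv.Perm (Fin n)} {w : ℕ} {V : Set (Fin n)} (t : ℕ)
    (c : Fin t → F) (f : Fin t → MvPolynomial (Fin n) F) (h : ∀ s, IsRO σ w V (f s)) :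
    IsRO σ (w * t) V (∑ s, c s • f s) := by
  induction t with
  | zero => simpa using IsRO.zero σ (w * 0) V
  | succ t ih =>
    rw [Fin.sum_univ_castSucc, Nat.mul_succ]
    exact (ih (fun s => c s.castSucc) (fun s => f s.castSucc) (fun s => h _)).add
      ((h _).smul _)

/-- expansion in one variable -/
theorem IsRO.split {σ : Equiv.Perm (Fin n)} {w : ℕ} {V : Set (Fin n)}
    {f : MvPolynomial (Fin n) F} (h : IsRO σ w V f) (i : Fin n) :
    ∃ Q : (MvPolynomial (Fin n) F)[X], Q.eval (MvPolynomial.X i) = f ∧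
      ∀ e, IsRO σ w (V \ {i}) (Q.coeff e) := by
  obtain ⟨N, u, v, hN, rfl⟩ := h
  set k : ℕ := (σ.symm i).val with hk
  have hkn : k < n := (σ.symm i).isLt
  have hσk : σ ⟨k, hkn⟩ = i := by simp [hk]
  -- the layer matrix at `i` replaced
  let Ne : ℕ → Fin n → Matrix (Fin w) (Fin w) F[X] := fun e =>
    Function.update N i (((N i).map fun p => p.coeff e).map Polynomial.C)
  have hsplit : ∀ N0 : ℕ → Matrix (Fin w) (Fin w) F[X], Pr (pv σ) N0 0 n =
      (Pr (pv σ) N0 0 k * Nh (pv σ) N0 k * Pr (pv σ) N0 (k + 1) (n - (k + 1)) :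
        Matrix _ _ (MvPolynomial (Fin n) F)) := by
    intro N0
    have h1 := Pr_add (pv σ : ℕ → MvPolynomial (Fin n) F) N0 0 (k + 1) (n - (k + 1))
    rw [show k + 1 + (n - (k + 1)) = n by omega, Pr_succ] at h1
    simpa using h1
  have hpre : ∀ e, Pr (pv σ) (toSeq σ (Ne e)) 0 k = (Pr (pv σ) (toSeq σ N) 0 k :
      Matrix _ _ (MvPolynomial (Fin n) F)) := by
    intro e
    apply Pr_congr
    intro k' _ hk'
    unfold toSeq
    split_ifs with h'
    · have hne : σ ⟨k', h'⟩ ≠ i := by
        rw [← hσk]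
        intro heq
        have := σ.injective heq
        simp only [Fin.mk.injEq] at this
        omega
      simp only [Ne, Function.update_of_ne hne]
    · rfl
  have hsuf : ∀ e, Pr (pv σ) (toSeq σ (Ne e)) (k + 1) (n - (k + 1)) =
      (Pr (pv σ) (toSeq σ N) (k + 1) (n - (k + 1)) : Matrix _ _ (MvPolynomial (Fin n) F)) := by
    intro e
    apply Pr_congr
    intro k' hk1 _
    unfold toSeq
    split_ifs with h'
    · have hne : σ ⟨k', h'⟩ ≠ i := by
        rw [← hσk]
        intro heq
        have := σ.injective heq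
        simp only [Fin.mk.injEq] at this
        omega
      simp only [Ne, Function.update_of_ne hne]
    · rfl
  set D : ℕ := (Finset.univ.sup fun a => Finset.univ.sup fun b => (N i a b).natDegree) + 1 with hD
  have hdeg : ∀ a b, (N i a b).natDegree < D := by
    intro a b
    rw [hD]
    refine Nat.lt_succ_of_le ?_
    refine le_trans ?_ (Finset.le_sup (f := fun a => Finset.univ.sup fun b =>
      (N i a b).natDegree) (Finset.mem_univ a))
    exact Finset.le_sup (f := fun b => (N i a b).natDegree) (Finset.mem_univ b)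
  have hlayer : (Nh (pv σ) (toSeq σ N) k : Matrix (Fin w) (Fin w) (MvPolynomial (Fin n) F)) =
      ∑ e ∈ Finset.range D, (MvPolynomial.X i : MvPolynomial (Fin n) F) ^ e •
        (Nh (pv σ) (toSeq σ (Ne e)) k : Matrix (Fin w) (Fin w) (MvPolynomial (Fin n) F)) := by
    refine Matrix.ext fun a b => ?_
    rw [Matrix.sum_apply]
    simp only [Nh, toSeq, dif_pos hkn, Matrix.map_apply, Matrix.smul_apply, hσk, Ne,
      Function.update_self, pv_mem_supported σ k hkn, Polynomial.aeval_C]
    rw [Polynomial.aeval_eq_sum_range' (hdeg a b)]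
    apply Finset.sum_congr rfl
    intro e _
    rw [Algebra.smul_def, smul_eq_mul, mul_comm]
  have hval : roVal σ N u v = ∑ e ∈ Finset.range D, (MvPolynomial.X i) ^ e *
      roVal σ (Ne e) u v := by
    unfold roVal
    rw [hsplit, hlayer]
    simp only [hsplit (toSeq σ (Ne _)), hpre, hsuf]
    rw [Finset.mul_sum, Finset.sum_mul, Matrix.sum_mulVec, dotProduct_sum]
    apply Finset.sum_congr rfl
    intro e _
    rw [Matrix.mul_smul, Matrix.smul_mul, Matrix.smul_mulVec, dotProduct_smul, smul_eq_mul]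
  have hIs : ∀ e : ℕ, IsRO (F := F) σ w (V \ {i}) (roVal σ (Ne e) u v) := by
    intro e
    refine ⟨Ne e, u, v, ?_, rfl⟩
    intro i' hi'
    by_cases h' : i' = i
    · subst h'
      exact ⟨_, by simp only [Ne, Function.update_self]; rfl⟩
    · obtain ⟨M, hM⟩ := hN i' (fun hc => hi' ⟨hc, h'⟩)
      exact ⟨M, by simp only [Ne, Function.update_of_ne h', hM]⟩
  refine ⟨∑ e ∈ Finset.range D, Polynomial.monomial e (roVal σ (Ne e) u v), ?_, ?_⟩
  · rw [Polynomial.eval_finsetSum, hval]
    apply Finset.sum_congr rfl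
    intro e _
    rw [Polynomial.eval_monomial, mul_comm]
  · intro e
    rw [Polynomial.finsetSum_coeff]
    simp only [Polynomial.coeff_monomial]
    by_cases he : e < D
    · rw [Finset.sum_eq_single e]
      · simpa using hIs e
      · intro b _ hb
        rw [if_neg hb]
      · intro hb
        exact absurd (Finset.mem_range.2 he) hb
    · rw [Finset.sum_eq_zero]
      · exact IsRO.zero _ _ _
      · intro b hb
        rw [if_neg]
        rintro rfl
        exact he (Finset.mem_range.1 hb)

end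

end Pool.Agent.H530R2
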