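import Mathlib
import Pool.Agent.H530R2.Nst8
import Pool.Agent.H530R2.SumRO

/-!
Linear programs (products of matrices) over blocks.
-/

namespace Pool.Agent.H530R2

open MvPolynomial

/-- the product of the first `k` layers of a linear program which reads `x 0, x 1, …` -/
noncomputable def lrun {R A : Type*} [CommRing R] [CommRing A] [Algebra R A] {w r : ℕ}
    (M : Fin r → Matrix (Fin w) (Fin w) (Polynomial R)) (x : Fin r → A) :
    ℕ → Matrix (Fin w) (Fin w) A
  | 0 => 1
  | k + 1 => if h : k < r then lrun M x k * (M ⟨k, h⟩).map (Polynomial.aeval (x ⟨k, h⟩))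
      else lrun M x k

/-- the output of a linear program -/
noncomputable def lout {R A : Type*} [CommRing R] [CommRing A] [Algebra R A] {w r : ℕ}
    (M : Fin r → Matrix (Fin w) (Fin w) (Polynomial R)) (u v : Fin w → R) (x : Fin r → A) : A :=
  ∑ i, ∑ j, algebraMap R A (u i) * lrun M x r i j * algebraMap R A (v j)

theorem paeval_map_nat {R A R' A' : Type*} [CommRing R] [CommRing A] [Algebra R A] [CommRing R']
    [CommRing A'] [Algebra R' A'] (ρ : R →+* R') (φ : A →+* A')
    (hc : ∀ y, φ (algebraMap R A y) = algebraMap R' A' (ρ y)) (f : A) (f' : A')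
    (hf : φ f = f') (P : Polynomial R) :
    φ (Polynomial.aeval f P) = Polynomial.aeval f' (P.map ρ) := by
  induction P using Polynomial.induction_on' with
  | add p q hp hq => rw [map_add, map_add, Polynomial.map_add, map_add, hp, hq]
  | monomial k y =>
    rw [Polynomial.map_monomial, Polynomial.aeval_monomial, Polynomial.aeval_monomial, map_mul,
      map_pow, hc, hf]

theorem lrun_map {R A R' A' : Type*} [CommRing R] [CommRing A] [Algebra R A] [CommRing R']
    [CommRing A'] [Algebra R' A'] {w r : ℕ} (ρ : R →+* R') (φ : A →+* A')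
    (hc : ∀ y, φ (algebraMap R A y) = algebraMap R' A' (ρ y))
    (M : Fin r → Matrix (Fin w) (Fin w) (Polynomial R)) (x : Fin r → A) (x' : Fin r → A')
    (hx : ∀ k, φ (x k) = x' k) (k : ℕ) :
    (lrun M x k).map φ = lrun (fun k => (M k).map (Polynomial.map ρ)) x' k := by
  induction k with
  | zero =>
    simp only [lrun]
    exact Matrix.map_one φ (map_zero φ) (map_one φ)
  | succ k ih =>
    simp only [lrun]
    split_ifs with h
    · rw [Matrix.map_mul, ih]
      congr 1
      ext i j
      simp only [Matrix.map_apply]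
      exact paeval_map_nat ρ φ hc _ _ (hx _) _
    · exact ih

theorem lout_map {R A R' A' : Type*} [CommRing R] [CommRing A] [Algebra R A] [CommRing R']
    [CommRing A'] [Algebra R' A'] {w r : ℕ} (ρ : R →+* R') (φ : A →+* A')
    (hc : ∀ y, φ (algebraMap R A y) = algebraMap R' A' (ρ y))
    (M : Fin r → Matrix (Fin w) (Fin w) (Polynomial R)) (u v : Fin w → R) (x : Fin r → A)
    (x' : Fin r → A') (hx : ∀ k, φ (x k) = x' k) :
    φ (lout M u v x) =
      lout (fun k => (M k).map (Polynomial.map ρ)) (fun i => ρ (u i)) (fun i => ρ (v i)) x' := by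
  unfold lout
  rw [map_sum]
  apply Finset.sum_congr rfl
  intro i _
  rw [map_sum]
  apply Finset.sum_congr rfl
  intro j _
  rw [map_mul, map_mul, hc, hc, ← lrun_map ρ φ hc M x x' hx r]
  rfl

theorem lout_alg {R A A' : Type*} [CommRing R] [CommRing A] [Algebra R A]
    [CommRing A'] [Algebra R A'] {w r : ℕ} (φ : A →ₐ[R] A')
    (M : Fin r → Matrix (Fin w) (Fin w) (Polynomial R)) (u v : Fin w → R) (x : Fin r → A) :
    φ (lout M u v x) = lout M u v (fun k => φ (x k)) := by
  have h := lout_map (RingHom.id R) (φ : A →+* A') (fun y => φ.commutes y) M u v x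
    (fun k => φ (x k)) (fun _ => rfl)
  have h2 : (fun k => (M k).map (Polynomial.map (RingHom.id R))) = M := by
    funext k
    ext i j : 2
    simp
  rw [h2] at h
  exact h

theorem lrun_congr {R A : Type*} [CommRing R] [CommRing A] [Algebra R A] {w r : ℕ}
    (M M' : Fin r → Matrix (Fin w) (Fin w) (Polynomial R)) (x x' : Fin r → A)
    (h : ∀ k, (M k).map (Polynomial.aeval (x k)) = (M' k).map (Polynomial.aeval (x' k))) (k : ℕ) :
    lrun M x k = lrun M' x' k := by
  induction k with
  | zero => rfl
  | succ k ih =>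
    simp only [lrun, ih]
    split_ifs with hk
    · rw [h]
    · rfl

theorem lout_congr {R A : Type*} [CommRing R] [CommRing A] [Algebra R A] {w r : ℕ}
    (M M' : Fin r → Matrix (Fin w) (Fin w) (Polynomial R)) (u v : Fin w → R) (x x' : Fin r → A)
    (h : ∀ k, (M k).map (Polynomial.aeval (x k)) = (M' k).map (Polynomial.aeval (x' k))) :
    lout M u v x = lout M' u v x' := by
  unfold lout
  rw [lrun_congr M M' x x' h]

section zero

variable {F : Type*} [Field F] [CharZero F] {n r w : ℕ} (a : Fin n → F)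

/-- A linear program over blocks which are pairwise independent in the directions `t k` and which
vanishes on the generator is zero. -/
theorem lin_zero (ha : Function.Injective a) (m : ℕ)
    (G : Fin r → MvPolynomial (Fin n) F) (Cst : Finset (Fin r)) (κ : Fin r → F)
    (hC : ∀ k, k ∈ Cst → G k = C (κ k)) (t : Fin r → Fin n)
    (ht : ∀ k, k ∉ Cst → pderiv (t k) (G k) ∉ genI a m)
    (hsup : ∀ k, k ∉ Cst → ∀ l, l ≠ k → G l ∈ supported F ({t k}ᶜ : Set (Fin n)))
    (M : Fin r → Matrix (Fin w) (Fin w) (Polynomial F)) (u v : Fin w → F)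
    (h : lout M u v G ∈ genI a (m + lcost w w)) : lout M u v G = 0 := by
  classical
  let M' : Fin r → Matrix (Fin w) (Fin w) (Polynomial F) := fun k =>
    if k ∈ Cst then (M k).map (fun p => Polynomial.C (p.eval (κ k))) else M k
  have hM1 : ∀ k, k ∈ Cst → M' k = (M k).map (fun p => Polynomial.C (p.eval (κ k))) :=
    fun k hk => if_pos hk
  have hM2 : ∀ k, k ∉ Cst → M' k = M k := fun k hk => if_neg hk
  clear_value M'
  have hMG : lout M u v G = lout M' u v G := by
    apply lout_congr
    intro k
    by_cases hk : k ∈ Cst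
    · rw [hM1 k hk, hC k hk]
      ext1 i j
      simp only [Matrix.map_apply, Polynomial.aeval_C]
      rw [show (C (κ k) : MvPolynomial (Fin n) F) = algebraMap F _ (κ k) from rfl,
        Polynomial.aeval_algebraMap_apply, Polynomial.coe_aeval_eq_eval]
    · rw [hM2 k hk]
  rw [hMG] at h ⊢
  have haG : aeval G (lout M' u v (X : Fin r → MvPolynomial (Fin r) F)) = lout M' u v G := by
    rw [lout_alg]
    congr 1
    funext k
    rw [aeval_X]
  set P := lout M' u v (X : Fin r → MvPolynomial (Fin r) F) with hP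
  obtain ⟨N, hN⟩ : ∃ N : ℕ → Matrix (Fin w) (Fin w) (Polynomial F),
    ∀ k (hk : k < r), N k = M' ⟨k, hk⟩ := ⟨fun k => if hk : k < r then M' ⟨k, hk⟩ else 1,
      fun k hk => dif_pos hk⟩
  have hPr : ∀ k, k ≤ r → Pr (pv (1 : Equiv.Perm (Fin r))) N 0 k =
      lrun M' (X : Fin r → MvPolynomial (Fin r) F) k := by
    intro k
    induction k with
    | zero => intro _; rfl
    | succ k ih =>
      intro hk
      have hk' : k < r := hk
      rw [Pr_succ, ih hk'.le, lrun, dif_pos hk', Nh, zero_add, hN k hk']
      congr 2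
      unfold pv
      rw [dif_pos hk']
      rfl
  have hstart : (blockVan a ha m G Cst t ht hsup).van (0 + lcost w w)
      (Zs (1 : Equiv.Perm (Fin r)) 0) P := by
    show sb (fun k => gen a (m + (0 + lcost w w)) (G k))
      (Zs (1 : Equiv.Perm (Fin r)) 0 ∪ Cst) P = 0
    rw [Zs_zero, Finset.empty_union, zero_add]
    have h0 : gen a (m + lcost w w) (lout M' u v G) = 0 := h
    rw [lout_alg] at h0
    rw [hP, lout_alg]
    have h1 := congrArg (C : _ →+* MvPolynomial (Fin r)
      (MvPolynomial (Fin (m + lcost w w) ⊕ Fin (m + lcost w w)) F)) h0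
    rw [map_zero] at h1
    rw [← h1]
    have h2 := lout_alg (Algebra.ofId _ _ |>.restrictScalars F :
      (MvPolynomial (Fin (m + lcost w w) ⊕ Fin (m + lcost w w)) F)
      →ₐ[F] MvPolynomial (Fin r)
      (MvPolynomial (Fin (m + lcost w w) ⊕ Fin (m + lcost w w)) F)) M' u v
      (fun k => gen a (m + lcost w w) (G k))
    refine Eq.trans ?_ h2.symm
    apply lout_congr
    intro k
    by_cases hk : k ∈ Cst
    · rw [hM1 k hk]
      ext1 i j
      simp only [Matrix.map_apply, Polynomial.aeval_C]
    · rw [sb_X_not_mem _ hk]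
      rfl
  have hsum : P = ∑ i, ∑ j, C (u i) * en (1 : Equiv.Perm (Fin r)) N 0 (r - 0) (i, j) * C (v j) := by
    rw [hP, lout]
    unfold en
    rw [Nat.sub_zero, hPr r le_rfl]
    rfl
  have hP0 : P = 0 := by
    by_cases hrk : rk (pv (1 : Equiv.Perm (Fin r)) : ℕ → MvPolynomial (Fin r) F) N 0 r = 0
    · have h3 := rk_zero_imp (pv (1 : Equiv.Perm (Fin r)) : ℕ → MvPolynomial (Fin r) F) N 0 r hrk
      rw [hsum]
      unfold en
      rw [Nat.sub_zero, h3]
      simp
    · have hctrl : Ctrl ((Zs (1 : Equiv.Perm (Fin r)) r \ Zs 1 0 : Finset (Fin r)) : Set (Fin r))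
          (en (1 : Equiv.Perm (Fin r)) N 0 (r - 0)) P := by
        refine (ctrl_of_adjoin (W := ∅) ?_).mono (by simp)
        rw [Set.image_empty, Set.union_empty, hsum]
        refine Subalgebra.sum_mem _ fun i _ => Subalgebra.sum_mem _ fun j _ => ?_
        refine Subalgebra.mul_mem _ (Subalgebra.mul_mem _ (Subalgebra.algebraMap_mem _ _) ?_)
          (Subalgebra.algebraMap_mem _ _)
        exact Algebra.subset_adjoin ⟨(i, j), rfl⟩
      have h1 := Van.lin_dec (w := w) (blockVan a ha m G Cst t ht hsup) 1 N w le_rfl 0 r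
        (Nat.zero_le _) le_rfl (Or.inr (by rw [Nat.sub_zero]; omega)) P hctrl 0 hstart
      refine Van.supp _ 0 _ _ ?_ h1
      rw [Zs_last, Finset.coe_univ, supported_univ]
      trivial
  rw [← haG, hP0, map_zero]

end zero

end Pool.Agent.H530R2
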