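import Mathlib
import Pool.Agent.H530R2.Nst9
import Pool.Agent.H530R2.DecLin

/-!
Systems of prime ideals for the substitutions, and the associated chains of primes.
-/

namespace Pool.Agent.H530R2

open MvPolynomial

/-- A decreasing system of prime ideals `I j Z` (level `j`, free variables `Z`) with the
properties of the kernels of substitutions. -/
structure VanI (F : Type*) [Field F] (n : ℕ) where
  /-- the ideals -/
  I : ℕ → Finset (Fin n) → Ideal (MvPolynomial (Fin n) F)
  prime : ∀ j Z, (I j Z).IsPrime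
  anti : ∀ j Z, I (j + 1) Z ≤ I j Z
  free : ∀ j Z i Q, Q ∈ I (j + 1) Z → Q ∈ I j (insert i Z)
  lossless : ∀ j (Z : Finset (Fin n)) (i0 : Fin n), i0 ∉ Z →
    ∀ (Q μ : MvPolynomial (Fin n) F) (ρ : ℕ) (κ : Fin ρ → Fin n), (∀ p, κ p ∈ Z) →
    ∀ m : Fin ρ → MvPolynomial (Fin n) F, μ * pderiv i0 Q = ∑ p, m p * pderiv (κ p) Q →
    Q ∈ I j Z → μ ∉ I j Z → Q ∈ I j (insert i0 Z)
  supp : ∀ j (Z : Finset (Fin n)) (Q : MvPolynomial (Fin n) F),
    Q ∈ supported F (Z : Set (Fin n)) → Q ∈ I j Z → Q = 0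
  disj : ∀ j (Z : Finset (Fin n)) (Q : MvPolynomial (Fin n) F),
    Q ∈ supported F {k : Fin n | k ∉ Z} → (Q ∈ I j Z ↔ Q ∈ I j ∅)
  coef : ∀ j (Z : Finset (Fin n)) (i0 : Fin n), i0 ∈ Z → ∀ (D : ℕ)
    (c : ℕ → MvPolynomial (Fin n) F), (∀ e, c e ∈ supported F {k : Fin n | k ≠ i0}) →
    (∑ e ∈ Finset.range D, c e * X i0 ^ e) ∈ I j Z → ∀ e < D, c e ∈ I j Z

variable {F : Type*} [Field F] {n : ℕ}

/-- forget the ideal structure -/
def VanI.toVan (V : VanI F n) : Van F n where
  van j Z Q := Q ∈ V.I j Z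
  mono1 j Z _ h := V.anti j Z h
  free := V.free
  lossless := V.lossless
  supp := V.supp

theorem VanI.mono (V : VanI F n) {j j' : ℕ} (hj : j ≤ j') (Z : Finset (Fin n)) :
    V.I j' Z ≤ V.I j Z := by
  induction j', hj using Nat.le_induction with
  | base => exact le_rfl
  | succ b _ ih => exact (V.anti b Z).trans ih

/-- the chain of primes for the order `σ` -/
noncomputable def VanI.chain (V : VanI F n) (σ : Equiv.Perm (Fin n)) :
    PrimeChain F (MvPolynomial (Fin n) F) n (pv σ) where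
  S := pS F σ
  S_anti := by
    intro k
    apply MvPolynomial.supported_mono
    intro i hi
    simp only [Set.mem_ofPred_eq] at hi ⊢
    omega
  x_mem := by
    intro k
    unfold pv
    split_ifs with h
    · unfold pS
      rw [MvPolynomial.X_mem_supported]
      simp
    · exact Subalgebra.zero_mem _
  I := fun j => V.I j ∅
  prime := fun j => V.prime j ∅
  anti := fun j => V.anti j ∅
  free := by
    intro j k hk Q hQ h e
    have hpv : (pv σ k : MvPolynomial (Fin n) F) = X (σ ⟨k, hk⟩) := by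
      unfold pv; rw [dif_pos hk]
    have hsub : pS F σ (k + 1) ≤ supported F {l : Fin n | l ≠ σ ⟨k, hk⟩} := by
      apply supported_mono
      intro l hl
      simp only [Set.mem_ofPred_eq] at hl ⊢
      rintro rfl
      simp at hl
    have h1 := V.free j ∅ (σ ⟨k, hk⟩) _ h
    rw [Polynomial.eval_eq_sum_range, hpv] at h1
    by_cases he : e < Q.natDegree + 1
    · have h2 := V.coef j (insert (σ ⟨k, hk⟩) ∅) (σ ⟨k, hk⟩) (Finset.mem_insert_self _ _)
        (Q.natDegree + 1) (fun e => Q.coeff e) (fun e => hsub (hQ e)) h1 e he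
      refine (V.disj j (insert (σ ⟨k, hk⟩) ∅) _ ?_).1 h2
      refine supported_mono ?_ (hQ e)
      intro l hl
      simp only [Set.mem_ofPred_eq, Finset.mem_insert, Finset.notMem_empty, or_false] at hl ⊢
      rintro rfl
      simp at hl
    · rw [Polynomial.coeff_eq_zero_of_natDegree_lt (by omega)]
      exact Ideal.zero_mem _

end Pool.Agent.H530R2
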