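import Mathlib
import Pool.Agent.H530R2.NstV

/-!
The decoupling property for an abstract system of prime ideals.
-/

namespace Pool.Agent.H530R2

open Module

section

variable {F : Type*} [Field F] {n : ℕ} {w : ℕ}

theorem VanI.coef_extract (V : VanI F n) (σ : Equiv.Perm (Fin n))
    (N : ℕ → Matrix (Fin w) (Fin w) (Polynomial F)) (j : ℕ) (m : ℕ) :
    ∀ (a0 : ℕ), a0 + m ≤ n → ∀ (R : Submodule F ((Unit → Fin w) → F))
      (p : (Unit → Fin w) → MvPolynomial (Fin n) F), (∀ i, p i ∈ pS F σ (a0 + m)) →
      (∀ r ∈ R, (emb _ r ⬝ᵥ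
        (tp Unit (Pr (pv σ) N a0 m)).mulVec p) ∈ V.I j (Zs σ (a0 + m))) →
      ∀ r ∈ CSn Unit N a0 m R, (emb _ r ⬝ᵥ p) ∈ V.I j (Zs σ (a0 + m)) := by
  induction m with
  | zero =>
    intro a0 _ R p _ h r hr
    have := h r hr
    rwa [Pr_zero, tp_one, Matrix.one_mulVec] at this
  | succ m ih =>
    intro a0 ham R p hp h r hr
    rw [CSn_succ'] at hr
    have ha0n : a0 < n := by omega
    set i0 := σ ⟨a0, ha0n⟩ with hi0
    have hi0Z : i0 ∈ Zs σ (a0 + (m + 1)) := by
      rw [mem_Zs, hi0]; simp
    have h1 : a0 + 1 + m = a0 + (m + 1) := by ring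
    have hp' : ∀ i, p i ∈ pS F σ (a0 + 1 + m) := by
      intro i; rw [h1]; exact hp i
    have := ih (a0 + 1) (by omega) (step Unit N a0 R) p hp' ?_ r hr
    · rwa [h1] at this
    · intro r' hr'
      rw [h1]
      set q := (tp Unit (Pr (pv σ : ℕ → MvPolynomial (Fin n) F) N (a0 + 1) m)).mulVec p with hq
      -- it suffices to treat the generators
      have hgen : ∀ r0 ∈ R, ∀ e, (emb _ (Matrix.vecMul r0 (coefM Unit N a0 e)) ⬝ᵥ q) ∈
          V.I j (Zs σ (a0 + (m + 1))) := by
        intro r0 hr0 e
        have h2 := h r0 hr0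
        rw [Pr_succ', tp_mul, ← Matrix.mulVec_mulVec, ← hq, emb_vecMul_tp_Nh] at h2
        by_cases he : e < dB N Unit a0
        · have hpv : (pv σ a0 : MvPolynomial (Fin n) F) = MvPolynomial.X i0 := by
            unfold pv; rw [dif_pos ha0n]
          rw [hpv] at h2
          refine V.coef j _ i0 hi0Z _ (fun e => emb _ (Matrix.vecMul r0 (coefM Unit N a0 e)) ⬝ᵥ q)
            ?_ h2 e he
          intro e'
          have hqS : ∀ t, q t ∈ pS F σ (a0 + 1) := by
            intro t
            have hPrS : ∀ f g, Pr (pv σ : ℕ → MvPolynomial (Fin n) F) N (a0 + 1) m f g ∈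
                pS F σ (a0 + 1) := by
              intro f g
              refine Algebra.adjoin_mono ?_ (en_mem σ N (a0 + 1) m (f, g))
              apply Set.image_mono
              intro k hk
              exact hk.1
            rw [hq]
            refine Subalgebra.sum_mem _ fun l _ => Subalgebra.mul_mem _ ?_ ?_
            · change tp Unit (Pr (pv σ : ℕ → MvPolynomial (Fin n) F) N (a0 + 1) m) t l ∈
                pS F σ (a0 + 1)
              rw [tp_apply]
              exact Subalgebra.prod_mem _ fun s _ => hPrS _ _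
            · have := hp' l
              refine MvPolynomial.supported_mono ?_ this
              intro k hk
              simp only [Set.mem_ofPred_eq] at hk ⊢
              omega
          have hsub : pS F σ (a0 + 1) ≤ MvPolynomial.supported F {k : Fin n | k ≠ i0} := by
            apply MvPolynomial.supported_mono
            intro k hk
            simp only [Set.mem_ofPred_eq] at hk ⊢
            rintro rfl
            rw [hi0] at hk
            simp at hk
          exact Subalgebra.sum_mem _ fun t _ => Subalgebra.mul_mem _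
            (Subalgebra.algebraMap_mem _ _) (hsub (hqS t))
        · rw [coefM_eq_zero N Unit a0 e (not_lt.1 he)]
          simp [emb, dotProduct]
      unfold step at hr'
      induction hr' using Submodule.span_induction with
      | mem x hx =>
        obtain ⟨r0, hr0, e, rfl⟩ := hx
        exact hgen r0 hr0 e
      | zero =>
        have : emb (MvPolynomial (Fin n) F) (0 : (Unit → Fin w) → F) ⬝ᵥ q = 0 := by
          simp [emb, dotProduct]
        rw [this]
        exact Ideal.zero_mem _
      | add x y _ _ hx hy =>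
        have : emb (MvPolynomial (Fin n) F) (x + y) ⬝ᵥ q = emb _ x ⬝ᵥ q + emb _ y ⬝ᵥ q := by
          simp [emb, dotProduct, add_mul, Finset.sum_add_distrib]
        rw [this]
        exact Ideal.add_mem _ hx hy
      | smul c x _ hx =>
        have : emb (MvPolynomial (Fin n) F) (c • x) ⬝ᵥ q =
            algebraMap F _ c * (emb _ x ⬝ᵥ q) := by
          simp [emb, dotProduct, Finset.mul_sum, mul_assoc]
        rw [this]
        exact Ideal.mul_mem_left _ _ hx

theorem VanI.Dec_lin (V : VanI F n)
    (σ : Equiv.Perm (Fin n)) (N : ℕ → Matrix (Fin w) (Fin w) (Polynomial F)) :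
    Dec N (V.chain σ) 1 Unit (lcost w w) := by
  intro a0 m hm hr R j p hp hk
  have hpS : ∀ i, p i ∈ pS F σ (a0 + m) := hp
  have hQ : ∀ r ∈ R, (emb _ r ⬝ᵥ
      (tp Unit (Pr (pv σ) N a0 m)).mulVec p) ∈ V.I j (Zs σ (a0 + m)) := by
    intro r hr0
    have h1 : (emb _ r ⬝ᵥ
      (tp Unit (Pr (pv σ) N a0 m)).mulVec p) ∈ V.I (j + lcost w w) ∅ := hk r hr0
    have hen : ∀ f g, Pr (pv σ : ℕ → MvPolynomial (Fin n) F) N a0 m f g ∈
        Algebra.adjoin F (Set.range (en (F := F) σ N a0 m) ∪
          MvPolynomial.X '' {k : Fin n | k ∉ Zs σ (a0 + m)}) :=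
      fun f g => Algebra.subset_adjoin (Or.inl ⟨(f, g), rfl⟩)
    have hpA : ∀ i, p i ∈ Algebra.adjoin F (Set.range (en (F := F) σ N a0 m) ∪
          MvPolynomial.X '' {k : Fin n | k ∉ Zs σ (a0 + m)}) := by
      intro i
      refine Algebra.adjoin_mono ?_ (hpS i)
      refine (Set.image_mono ?_).trans Set.subset_union_right
      intro k hk
      simp only [Set.mem_ofPred_eq, mem_Zs] at hk ⊢
      omega
    have hmem : emb _ r ⬝ᵥ (tp Unit (Pr (pv σ) N a0 m)).mulVec p ∈
        Algebra.adjoin F (Set.range (en (F := F) σ N a0 m) ∪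
          MvPolynomial.X '' {k : Fin n | k ∉ Zs σ (a0 + m)}) := by
      refine Subalgebra.sum_mem _ fun t _ => Subalgebra.mul_mem _
        (Subalgebra.algebraMap_mem _ _) (Subalgebra.sum_mem _ fun l _ =>
          Subalgebra.mul_mem _ ?_ (hpA l))
      change tp Unit (Pr (pv σ : ℕ → MvPolynomial (Fin n) F) N a0 m) t l ∈ _
      rw [tp_apply]
      exact Subalgebra.prod_mem _ fun s _ => hen _ _
    have hctrl : Ctrl ((Zs σ (a0 + m) \ Zs σ a0 : Finset (Fin n)) : Set (Fin n))
        (en σ N a0 (a0 + m - a0)) (emb _ r ⬝ᵥ (tp Unit (Pr (pv σ) N a0 m)).mulVec p) := by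
      rw [Nat.add_sub_cancel_left]
      refine (ctrl_of_adjoin hmem).mono ?_
      intro k hk
      rw [Finset.mem_coe, Finset.mem_sdiff] at hk
      simpa using hk.1
    have hsuppZ : emb _ r ⬝ᵥ (tp Unit (Pr (pv σ) N a0 m)).mulVec p ∈
        MvPolynomial.supported F {k : Fin n | k ∉ Zs σ a0} := by
      have hPrS : ∀ f g, Pr (pv σ : ℕ → MvPolynomial (Fin n) F) N a0 m f g ∈
          MvPolynomial.supported F {k : Fin n | k ∉ Zs σ a0} := by
        intro f g
        refine Algebra.adjoin_mono ?_ (en_mem σ N a0 m (f, g))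
        apply Set.image_mono
        intro k hk
        simp only [Set.mem_ofPred_eq, mem_Zs] at hk ⊢
        omega
      refine Subalgebra.sum_mem _ fun t _ => Subalgebra.mul_mem _
        (Subalgebra.algebraMap_mem _ _) (Subalgebra.sum_mem _ fun l _ =>
          Subalgebra.mul_mem _ ?_ ?_)
      · change tp Unit (Pr (pv σ : ℕ → MvPolynomial (Fin n) F) N a0 m) t l ∈ _
        rw [tp_apply]
        exact Subalgebra.prod_mem _ fun s _ => hPrS _ _
      · refine MvPolynomial.supported_mono ?_ (hpS l)
        intro k hk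
        simp only [Set.mem_ofPred_eq, mem_Zs] at hk ⊢
        omega
    refine Van.lin_dec V.toVan σ N w le_rfl a0 (a0 + m) (by omega) hm ?_ _ hctrl j ?_
    · rcases hr with h | h
      · left; omega
      · right
        rw [Nat.add_sub_cancel_left]
        omega
    · exact (V.disj _ _ _ hsuppZ).2 h1
  intro r hr0
  have h2 := V.coef_extract σ N j m a0 hm R p hpS hQ r hr0
  have hS : emb _ r ⬝ᵥ p ∈ MvPolynomial.supported F {k : Fin n | k ∉ Zs σ (a0 + m)} := by
    refine Subalgebra.sum_mem _ fun t _ => Subalgebra.mul_mem _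
      (Subalgebra.algebraMap_mem _ _) ?_
    refine MvPolynomial.supported_mono ?_ (hpS t)
    intro k hk
    simp only [Set.mem_ofPred_eq, mem_Zs] at hk ⊢
    omega
  exact (V.disj _ _ _ hS).1 h2

end

end Pool.Agent.H530R2
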