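import Mathlib
import Pool.Agent.H530R2.SumRO
import Pool.Agent.H530R2.DecLin

/-!
Sums of read-once oblivious programs in different orders are not killed by the generator, with a
polynomial (in the width) number of seeds for one program.
-/

namespace Pool.Agent.H530R2

open Module Polynomial Matrix

/-- number of seeds for sums of `c` programs of width `w` -/
def seeds2 : ℕ → ℕ → ℕ
  | 0, _ => 0
  | c + 1, w => lcost w w + 1 + seeds2 c (w * (w + 1))

section main

variable {F : Type*} [Field F] [CharZero F] {n : ℕ} (a : Fin n → F) (ha : Function.Injective a)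

include ha in
/-- elements of the invariant are low in the chain -/
theorem Inv_mem2 {w c : ℕ} (σ : Equiv.Perm (Fin n)) (N : ℕ → Matrix (Fin w) (Fin w) F[X])
    (σs : Fin c → Equiv.Perm (Fin n)) (u v : (Unit → Fin w) → F)
    (g : MvPolynomial (Fin n) F) (k : ℕ) (hk : k ≤ n) (hrk : k = 0 ∨ 1 ≤ rk (pv σ : ℕ → MvPolynomial (Fin n) F) N 0 k)
    {ρ : ℕ} (cc : Fin ρ → (Unit → Fin w) → F) (b G : Fin ρ → MvPolynomial (Fin n) F)
    (hli : LinearIndependent F cc)
    (hcc : ∀ l, cc l ∈ CSn Unit N 0 k (Submodule.span F {u}))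
    (hb : ∀ q : (Unit → Fin w) → MvPolynomial (Fin n) F,
      emb _ u ⬝ᵥ (tp Unit (Pr (pv σ) N 0 k) *ᵥ q) = ∑ l, b l * (emb _ (cc l) ⬝ᵥ q))
    (hg : g = ∑ l, b l * G l) (hG : ∀ l, SumRO σs w {i | k ≤ (σ.symm i).val} (G l)) (j : ℕ)
    (hf : g + emb _ u ⬝ᵥ (tp Unit (Pr (pv σ) N 0 n) *ᵥ emb _ v) ∈ genI a (j + lcost w w))
    (l : Fin ρ) :
    G l + emb _ (cc l) ⬝ᵥ (tp Unit (Pr (pv σ) N k (n - k)) *ᵥ emb _ v) ∈ genI a j := by
  classical
  have hd : ∀ l : Fin ρ, ∃ d : (Unit → Fin w) → F, ∀ l', cc l' ⬝ᵥ d = if l' = l then 1 else 0 :=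
    fun l => exists_dual cc hli _
  choose d hd using hd
  set pk : (Unit → Fin w) → MvPolynomial (Fin n) F :=
    tp Unit (Pr (pv σ) N k (n - k)) *ᵥ emb _ v with hpk
  set q : (Unit → Fin w) → MvPolynomial (Fin n) F :=
    fun t => pk t + ∑ l', G l' * algebraMap F _ (d l' t) with hq
  have hcq : ∀ l', emb (MvPolynomial (Fin n) F) (cc l') ⬝ᵥ q = emb _ (cc l') ⬝ᵥ pk + G l' := by
    intro l'
    have h1 : emb (MvPolynomial (Fin n) F) (cc l') ⬝ᵥ q = emb _ (cc l') ⬝ᵥ pk +
        ∑ l'', G l'' * algebraMap F _ (cc l' ⬝ᵥ d l'') := by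
      simp only [hq, dotProduct, emb, mul_add, Finset.sum_add_distrib, Finset.mul_sum, map_sum,
        map_mul]
      congr 1
      rw [Finset.sum_comm]
      apply Finset.sum_congr rfl
      intro l'' _
      apply Finset.sum_congr rfl
      intro t _
      ring
    rw [h1]
    congr 1
    rw [Finset.sum_eq_single l']
    · rw [hd, if_pos rfl, map_one, mul_one]
    · intro l'' _ hne
      rw [hd, if_neg (Ne.symm hne), map_zero, mul_zero]
    · intro h; exact absurd (Finset.mem_univ _) h
  set P := svChain a ha σ with hP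
  have hqS : ∀ t, q t ∈ P.S (0 + k) := by
    intro t
    rw [zero_add]
    refine Subalgebra.add_mem _ ?_ (Subalgebra.sum_mem _ fun l' _ => Subalgebra.mul_mem _
      (hG l').mem_supported (Subalgebra.algebraMap_mem _ _))
    exact mulVec_mem P (tp_mem P _ (Pr_mem N P _ _)) (fun _ => Subalgebra.algebraMap_mem _ _) t
  have hfq : emb _ u ⬝ᵥ (tp Unit (Pr (pv σ) N 0 k) *ᵥ q) =
      g + emb _ u ⬝ᵥ (tp Unit (Pr (pv σ) N 0 n) *ᵥ emb _ v) := by
    have h2 : tp Unit (Pr (pv σ) N 0 n) *ᵥ emb (MvPolynomial (Fin n) F) v =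
        tp Unit (Pr (pv σ) N 0 k) *ᵥ pk := by
      rw [hpk, Matrix.mulVec_mulVec, ← tp_mul]
      have h3 := Pr_add (pv σ : ℕ → MvPolynomial (Fin n) F) N 0 k (n - k)
      rw [show k + (n - k) = n by omega, zero_add] at h3
      rw [h3]
    rw [h2, hb, hb, hg, ← Finset.sum_add_distrib]
    apply Finset.sum_congr rfl
    intro l' _
    rw [hcq]
    ring
  have hdec := Dec_lin a ha σ N
  have k1 : Kills (Submodule.span F {u}) (tp Unit (Pr (pv σ) N 0 k) *ᵥ q)
      (P.I (j + lcost w w)) := by
    apply Kills_span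
    intro r hr
    rw [Set.mem_singleton_iff] at hr
    subst hr
    rw [hfq]
    exact hf
  have k2 := hdec 0 k (by omega) hrk _ j q hqS k1 (cc l) (hcc l)
  rw [hcq, add_comm] at k2
  exact k2

include ha in
theorem Inv_step2 {w c : ℕ} (σ : Equiv.Perm (Fin n)) (N : ℕ → Matrix (Fin w) (Fin w) F[X])
    (σs : Fin c → Equiv.Perm (Fin n)) (u v : (Unit → Fin w) → F)
    (g : MvPolynomial (Fin n) F) (k : ℕ) (hk : k < n) (hrk : k = 0 ∨ 1 ≤ rk (pv σ : ℕ → MvPolynomial (Fin n) F) N 0 k)
    (M : ℕ)
    (hIH : ∀ f : MvPolynomial (Fin n) F, SumRO σs (w * (w + 1)) Set.univ f → f ∈ genI a M → f = 0)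
    (hf : g + emb _ u ⬝ᵥ (tp Unit (Pr (pv σ) N 0 n) *ᵥ emb _ v) ∈ genI a (M + 1 + lcost w w))
    (hinv : Inv σ N σs u g k) : Inv σ N σs u g (k + 1) := by
  classical
  obtain ⟨ρ, cc, b, G, hli, hcc, hb, hg, hG⟩ := hinv
  have hmem := Inv_mem2 a ha σ N σs u v g k hk.le hrk cc b G hli hcc hb hg hG (M + 1) hf
  set P := svChain a ha σ with hP
  have hpv := pv_mem_supported (F := F) σ k hk
  choose Q hQ1 hQ2 using fun l => (hG l).split (σ ⟨k, hk⟩)
  have hV : ({i | k ≤ (σ.symm i).val} \ {σ ⟨k, hk⟩} : Set (Fin n)) ⊆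
      {i | k + 1 ≤ (σ.symm i).val} := by
    rintro i ⟨hi1, hi2⟩
    simp only [Set.mem_ofPred_eq, Set.mem_singleton_iff] at hi1 hi2 ⊢
    have : (σ.symm i).val ≠ k := by
      intro h
      apply hi2
      rw [← σ.apply_symm_apply i]
      congr 1
      exact Fin.ext h
    omega
  have hQ3 : ∀ l e, SumRO σs w {i | k + 1 ≤ (σ.symm i).val} ((Q l).coeff e) :=
    fun l e => (hQ2 l e).mono_V hV
  set p1 : (Unit → Fin w) → MvPolynomial (Fin n) F :=
    tp Unit (Pr (pv σ) N (k + 1) (n - (k + 1))) *ᵥ emb _ v with hp1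
  have hp1S : ∀ t, p1 t ∈ P.S (k + 1) :=
    mulVec_mem P (tp_mem P _ (Pr_mem N P _ _)) (fun _ => Subalgebra.algebraMap_mem _ _)
  set ξ : Fin ρ × ℕ → (Unit → Fin w) → F := fun y => cc y.1 ᵥ* coefM Unit N k y.2 with hξ
  -- Claim 1
  have claim1 : ∀ l e, (Q l).coeff e + emb _ (ξ (l, e)) ⬝ᵥ p1 ∈ genI a M := by
    intro l e
    set Q' : (MvPolynomial (Fin n) F)[X] := ∑ e ∈ Finset.range (dB N Unit k),
      Polynomial.monomial e (emb _ (ξ (l, e)) ⬝ᵥ p1) with hQ'
    have hcoef : ∀ e, Q'.coeff e = emb _ (ξ (l, e)) ⬝ᵥ p1 := by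
      intro e
      rw [hQ', Polynomial.finsetSum_coeff]
      simp only [Polynomial.coeff_monomial]
      by_cases he : e < dB N Unit k
      · rw [Finset.sum_eq_single e]
        · simp
        · intro b _ hb
          rw [if_neg hb]
        · intro hb
          exact absurd (Finset.mem_range.2 he) hb
      · rw [Finset.sum_eq_zero]
        · have h0 : ξ (l, e) = 0 := by
            simp only [hξ, coefM_eq_zero N Unit k e (not_lt.1 he), Matrix.vecMul_zero]
          rw [h0]
          simp [emb, dotProduct]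
        · intro b hb
          rw [if_neg]
          rintro rfl
          exact he (Finset.mem_range.1 hb)
    have h1 : (Q l + Q').eval (pv σ k) ∈ genI a (M + 1) := by
      have h2 := hmem l
      have h3 : Q'.eval (pv σ k) = emb _ (cc l) ⬝ᵥ (tp Unit (Pr (pv σ) N k (n - k)) *ᵥ emb _ v) := by
        have h4 : Pr (pv σ : ℕ → MvPolynomial (Fin n) F) N k (n - k) =
            Nh (pv σ) N k * Pr (pv σ) N (k + 1) (n - (k + 1)) := by
          rw [← Pr_succ', show n - (k + 1) + 1 = n - k by omega]
        rw [h4, tp_mul, ← Matrix.mulVec_mulVec, ← hp1, emb_vecMul_tp_Nh, hQ',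
          Polynomial.eval_finsetSum]
        simp only [Polynomial.eval_monomial]
        rfl
      rw [Polynomial.eval_add, h3, hpv, hQ1]
      exact h2
    have h5 := P.free M k hk (Q l + Q') (fun e => by
      rw [Polynomial.coeff_add, hcoef]
      exact Subalgebra.add_mem _ (hQ3 l e).mem_supported (dot_mem_S P (k + 1) _ _ hp1S)) h1 e
    rw [Polynomial.coeff_add, hcoef] at h5
    exact h5
  -- basis of the new coefficient space
  obtain ⟨ρ', c', hc', hspan', hli'⟩ : ∃ (ρ' : ℕ) (c' : Fin ρ' → (Unit → Fin w) → F),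
      (∀ t, c' t ∈ Set.range ξ) ∧
      Submodule.span F (Set.range c') = Submodule.span F (Set.range ξ) ∧
      LinearIndependent F c' := ⟨_, Submodule.exists_fun_fin_finrank_span_eq F (Set.range ξ)⟩
  have hρ'w : ρ' ≤ w := by
    have := hli'.fintype_card_le_finrank
    rw [Module.finrank_fintype_fun_eq_card, Fintype.card_fun, Fintype.card_fin,
      Fintype.card_fin, Fintype.card_unit, pow_one] at this
    exact this
  have hc'' : ∀ t, ∃ y : Fin ρ × ℕ, ξ y = c' t := fun t => hc' t
  choose y hy using hc''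
  have hlam0 : ∀ z : Fin ρ × ℕ, ∃ lam : Fin ρ' → F, ∑ t, lam t • c' t = ξ z := by
    intro z
    apply (Submodule.mem_span_range_iff_exists_fun F).1
    rw [hspan']
    exact Submodule.subset_span ⟨z, rfl⟩
  choose lam hlam using hlam0
  set G' : Fin ρ' → MvPolynomial (Fin n) F := fun t => (Q (y t).1).coeff (y t).2 with hG'
  have hG'R : ∀ t, SumRO σs w {i | k + 1 ≤ (σ.symm i).val} (G' t) := fun t => hQ3 _ _
  have hembsum : ∀ z : Fin ρ × ℕ, ∀ q : (Unit → Fin w) → MvPolynomial (Fin n) F,
      emb _ (ξ z) ⬝ᵥ q = ∑ t, algebraMap F _ (lam z t) * (emb _ (c' t) ⬝ᵥ q) := by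
    intro z q
    rw [← hlam z]
    simp only [emb, dotProduct, Finset.sum_apply, Pi.smul_apply, smul_eq_mul, map_sum, map_mul,
      Finset.sum_mul, Finset.mul_sum]
    rw [Finset.sum_comm]
    apply Finset.sum_congr rfl
    intro t _
    apply Finset.sum_congr rfl
    intro i _
    ring
  -- Claim 2
  have claim2 : ∀ z : Fin ρ × ℕ, (Q z.1).coeff z.2 = ∑ t, lam z t • G' t := by
    intro z
    rw [← sub_eq_zero]
    apply hIH
    · have h1 : SumRO σs (w + w * ρ') {i | k + 1 ≤ (σ.symm i).val}
          ((Q z.1).coeff z.2 + ∑ t, (- lam z t) • G' t) :=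
        (hQ3 z.1 z.2).add (SumRO.sum ρ' _ _ hG'R)
      have h2 : (Q z.1).coeff z.2 - ∑ t, lam z t • G' t =
          (Q z.1).coeff z.2 + ∑ t, (- lam z t) • G' t := by
        simp only [neg_smul, Finset.sum_neg_distrib, sub_eq_add_neg]
      rw [h2]
      refine (h1.mono ?_).mono_V (Set.subset_univ _)
      calc w + w * ρ' ≤ w + w * w := Nat.add_le_add_left (Nat.mul_le_mul_left _ hρ'w) _
        _ = w * (w + 1) := by ring
    · have h3 : (Q z.1).coeff z.2 - ∑ t, lam z t • G' t =
          ((Q z.1).coeff z.2 + emb _ (ξ z) ⬝ᵥ p1) -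
            ∑ t, algebraMap F _ (lam z t) * (G' t + emb _ (c' t) ⬝ᵥ p1) := by
        rw [hembsum z p1]
        simp only [mul_add, Finset.sum_add_distrib, Algebra.smul_def]
        ring
      rw [h3]
      refine Ideal.sub_mem _ (claim1 z.1 z.2) (Ideal.sum_mem _ fun t _ =>
        Ideal.mul_mem_left _ _ ?_)
      rw [← hy t]
      exact claim1 (y t).1 (y t).2
  -- new data
  set D : ℕ := max (dB N Unit k) ((Finset.univ.sup fun l => (Q l).natDegree) + 1) with hD
  have hQD : ∀ l, (Q l).natDegree < D := by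
    intro l
    refine lt_of_le_of_lt (Finset.le_sup (f := fun l => (Q l).natDegree) (Finset.mem_univ l)) ?_
    exact lt_of_lt_of_le (Nat.lt_succ_self _) (le_max_right _ _)
  set b' : Fin ρ' → MvPolynomial (Fin n) F := fun t => ∑ l, ∑ e ∈ Finset.range D,
    b l * (pv σ k) ^ e * algebraMap F _ (lam (l, e) t) with hb'
  refine ⟨ρ', c', b', G', hli', ?_, ?_, ?_, hG'R⟩
  · intro t
    rw [← hy t]
    exact Submodule.subset_span ⟨cc (y t).1, by
      have := hcc (y t).1
      exact this, (y t).2, by rw [zero_add]⟩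
  · intro q
    rw [Pr_succ, tp_mul, ← Matrix.mulVec_mulVec, hb, zero_add]
    have h1 : ∀ l, emb _ (cc l) ⬝ᵥ (tp Unit (Nh (pv σ) N k) *ᵥ q) =
        ∑ e ∈ Finset.range D, (emb _ (ξ (l, e)) ⬝ᵥ q) * (pv σ k) ^ e := by
      intro l
      rw [emb_vecMul_tp_Nh]
      apply Finset.sum_subset
      · intro e he
        exact Finset.mem_range.2 (lt_of_lt_of_le (Finset.mem_range.1 he) (le_max_left _ _))
      · intro e _ he
        have h0 : cc l ᵥ* coefM Unit N k e = 0 := by
          rw [coefM_eq_zero N Unit k e (not_lt.1 (fun h => he (Finset.mem_range.2 h))),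
            Matrix.vecMul_zero]
        rw [h0]
        simp [emb, dotProduct]
    simp only [h1, hembsum, hb', Finset.sum_mul, Finset.mul_sum]
    rw [Finset.sum_congr rfl (fun l _ => Finset.sum_comm), Finset.sum_comm]
    apply Finset.sum_congr rfl
    intro t _
    apply Finset.sum_congr rfl
    intro l _
    apply Finset.sum_congr rfl
    intro e _
    ring
  · have h1 : ∀ l, G l = ∑ e ∈ Finset.range D, (∑ t, lam (l, e) t • G' t) * (pv σ k) ^ e := by
      intro l
      rw [← hQ1 l, ← hpv, Polynomial.eval_eq_sum_range' (hQD l)]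
      apply Finset.sum_congr rfl
      intro e _
      rw [claim2 (l, e)]
    rw [hg]
    simp only [h1, hb', Finset.sum_mul, Finset.mul_sum]
    rw [Finset.sum_congr rfl (fun l _ => Finset.sum_comm), Finset.sum_comm]
    apply Finset.sum_congr rfl
    intro t _
    apply Finset.sum_congr rfl
    intro l _
    apply Finset.sum_congr rfl
    intro e _
    rw [Algebra.smul_def]
    ring

include ha in
/-- **Main theorem.** A sum of `c` read-once oblivious programs of width `w`, in arbitrary
orders, which vanishes on the generator with `seeds2 c w` seed pairs is zero. -/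
theorem sumRO2_eq_zero (c : ℕ) : ∀ (w : ℕ) (σs : Fin c → Equiv.Perm (Fin n))
    (f : MvPolynomial (Fin n) F), SumRO σs w Set.univ f → f ∈ genI a (seeds2 c w) → f = 0 := by
  induction c with
  | zero =>
    rintro w σs f ⟨A, hA, rfl⟩ _
    simp
  | succ c ih =>
    rintro w σs f ⟨A, hA, rfl⟩ hf
    set σ := σs (Fin.last c) with hσ
    set σs' : Fin c → Equiv.Perm (Fin n) := fun i => σs i.castSucc with hσs'
    set g : MvPolynomial (Fin n) F := ∑ i : Fin c, A i.castSucc with hg
    have hgR : SumRO σs' w Set.univ g := ⟨fun i => A i.castSucc, fun i => hA _, rfl⟩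
    obtain ⟨N0, u0, v0, _, hh⟩ := hA (Fin.last c)
    set N := toSeq σ N0 with hN
    set u : (Unit → Fin w) → F := fun t => u0 (t ()) with hu
    set v : (Unit → Fin w) → F := fun t => v0 (t ()) with hv
    have hh2 : A (Fin.last c) = emb _ u ⬝ᵥ (tp Unit (Pr (pv σ) N 0 n) *ᵥ emb _ v) := by
      rw [hh, roVal, dot_unit]
    rw [Fin.sum_univ_castSucc, ← hg] at hf ⊢
    rw [seeds2] at hf
    set M := seeds2 c (w * (w + 1)) with hM
    have hIH : ∀ f : MvPolynomial (Fin n) F, SumRO σs' (w * (w + 1)) Set.univ f →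
        f ∈ genI a M → f = 0 := ih (w * (w + 1)) σs'
    have hanti : ∀ {j j' : ℕ}, j ≤ j' → genI a j' ≤ genI a j := by
      intro j j' h
      exact I_antitone (svChain a ha σ) h
    by_cases hzero : A (Fin.last c) = 0
    · rw [hzero, add_zero] at hf ⊢
      apply hIH g (hgR.mono _) (hanti (by omega) hf)
      nlinarith
    · rw [hh2] at hf hzero ⊢
      rw [show lcost w w + 1 + M = M + 1 + lcost w w by ring] at hf
      have hu0 : u ≠ 0 := by
        intro h0
        apply hzero
        rw [h0]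
        simp [emb, dotProduct]
      have hrkn : 1 ≤ rk (pv σ : ℕ → MvPolynomial (Fin n) F) N 0 n := by
        by_contra hlt
        apply hzero
        have h0 : rk (pv σ : ℕ → MvPolynomial (Fin n) F) N 0 n = 0 := by omega
        rw [rk_zero_imp _ _ _ _ h0]
        by_cases hn0 : n = 0
        · subst hn0
          -- the empty product is the identity; rank zero forces width zero
          have hw1 := rk_zero_imp _ _ _ _ h0
          rw [Pr_zero] at hw1
          have : tp Unit (0 : Matrix (Fin w) (Fin w) (MvPolynomial (Fin 0) F)) = 0 := by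
            ext s t
            simp [tp_apply]
          rw [this]
          simp [emb, dotProduct]
        · have : tp Unit (0 : Matrix (Fin w) (Fin w) (MvPolynomial (Fin n) F)) = 0 := by
            ext s t
            simp [tp_apply]
          rw [this]
          simp [emb, dotProduct]
      have hrk : ∀ k ≤ n, 1 ≤ rk (pv σ : ℕ → MvPolynomial (Fin n) F) N 0 k := by
        intro k hk
        have := rk_le_left (pv σ : ℕ → MvPolynomial (Fin n) F) N 0 k (n - k)
        rw [show k + (n - k) = n by omega] at this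
        omega
      have hinv : ∀ k ≤ n, Inv σ N σs' u g k := by
        intro k
        induction k with
        | zero =>
          intro _
          refine ⟨1, fun _ => u, fun _ => 1, fun _ => g, ?_, ?_, ?_, ?_, ?_⟩
          · exact LinearIndependent.of_subsingleton (i := (0 : Fin 1)) hu0
          · intro _
            exact Submodule.subset_span rfl
          · intro q
            rw [Pr_zero, tp_one, Matrix.one_mulVec]
            simp
          · simp
          · intro _
            exact hgR.mono_V (fun i _ => Nat.zero_le _)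
        | succ k ihk =>
          intro hk
          exact Inv_step2 a ha σ N σs' u v g k (by omega) (Or.inr (hrk k (by omega))) M hIH hf
            (ihk (by omega))
      obtain ⟨ρ, cc, b, G, hli, hcc, hb, hg2, hG⟩ := hinv n le_rfl
      have hmem := Inv_mem2 a ha σ N σs' u v g n le_rfl (Or.inr hrkn) cc b G hli hcc hb hg2 hG
        (M + 1) hf
      rw [hb, hg2, ← Finset.sum_add_distrib]
      apply Finset.sum_eq_zero
      intro l _
      rw [← mul_add]
      have h1 := hmem l
      rw [Nat.sub_self, Pr_zero, tp_one, Matrix.one_mulVec] at h1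
      have hconst : ∃ γ : F, G l = algebraMap F _ γ := by
        have h2 := (hG l).mem_supported
        have h3 : ({i | n ≤ (σ.symm i).val} : Set (Fin n)) = ∅ := by
          ext i
          simp only [Set.mem_ofPred_eq, Set.mem_empty_iff_false, iff_false, not_le]
          exact (σ.symm i).isLt
        rw [h3, MvPolynomial.supported_empty] at h2
        obtain ⟨γ, hγ⟩ := Algebra.mem_bot.1 h2
        exact ⟨γ, hγ.symm⟩
      obtain ⟨γ, hγ⟩ := hconst
      have h4 : G l + emb _ (cc l) ⬝ᵥ emb _ v = algebraMap F _ (γ + cc l ⬝ᵥ v) := by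
        rw [hγ]
        simp [emb, dotProduct]
      rw [h4] at h1 ⊢
      rw [const_mem_I (svChain a ha σ) h1, map_zero, mul_zero]

end main

end Pool.Agent.H530R2
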