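import Mathlib
import Pool.Agent.H530R2.NstX

/-!
The system of prime ideals for blocks.
-/

namespace Pool.Agent.H530R2

open MvPolynomial

section

variable {F R : Type*} [Field F] [CommRing R] [IsDomain R] [Algebra F R] {n : ℕ} (γ : Fin n → R)

omit [IsDomain R] in
/-- coefficients in a free variable -/
theorem sb_coeff {Z : Finset (Fin n)} {i0 : Fin n} (hi0 : i0 ∈ Z)
    (D : ℕ) (c : ℕ → MvPolynomial (Fin n) F)
    (hc : ∀ e, c e ∈ supported F {k : Fin n | k ≠ i0})
    (h : sb γ Z (∑ e ∈ Finset.range D, c e * (X i0) ^ e) = 0) (e : ℕ)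
    (he : e < D) : sb γ Z (c e) = 0 := by
  let B := MvPolynomial (Fin n) R
  let Θ : B →+* Polynomial B := eval₂Hom
    (Polynomial.C.comp (C : R →+* B))
    (fun k => if k = i0 then Polynomial.X else Polynomial.C (X k))
  have hΘX0 : Θ (X i0) = Polynomial.X := by
    have : Θ (X i0) = if i0 = i0 then Polynomial.X else
        Polynomial.C (X i0) := eval₂Hom_X' _ _ i0
    rw [this, if_pos rfl]
  have hΘX : ∀ k, k ≠ i0 → Θ (X k) = Polynomial.C (X k) := by
    intro k hk
    have : Θ (X k) = if k = i0 then Polynomial.X else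
        Polynomial.C (X k) := eval₂Hom_X' _ _ k
    rw [this, if_neg hk]
  have hΘC : ∀ r : R, Θ (C r) = Polynomial.C (C r) := by
    intro r
    exact eval₂Hom_C _ _ r
  clear_value Θ
  have key : ∀ P ∈ supported F {k : Fin n | k ≠ i0},
      Θ (sb γ Z P) = Polynomial.C (sb γ Z P) := by
    intro P hP
    have h' : P ∈ Algebra.adjoin F (X '' {k : Fin n | k ≠ i0} :
        Set (MvPolynomial (Fin n) F)) := hP
    clear hP
    induction h' using Algebra.adjoin_induction with
    | mem x hx =>
      obtain ⟨i, hi, rfl⟩ := hx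
      by_cases hiZ : i ∈ Z
      · rw [sb_X_mem γ hiZ]; exact hΘX i hi
      · rw [sb_X_not_mem γ hiZ]; exact hΘC _
    | algebraMap r =>
      have : (algebraMap F (MvPolynomial (Fin n) F)) r = C r := rfl
      rw [this, sb_C]
      exact hΘC _
    | add x y _ _ hx hy => rw [map_add, map_add, hx, hy, map_add]
    | mul x y _ _ hx hy => rw [map_mul, map_mul, hx, hy, map_mul]
  have h1 := congrArg Θ h
  rw [map_sum, map_sum, map_zero] at h1
  have h2 : ∑ e ∈ Finset.range D, Polynomial.C (sb γ Z (c e)) * (Polynomial.X : Polynomial B) ^ e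
      = 0 := by
    rw [← h1]
    apply Finset.sum_congr rfl
    intro e _
    rw [map_mul, map_mul, map_pow, map_pow, key _ (hc e), sb_X_mem γ hi0, hΘX0]
  have h3 := congrArg (fun p => Polynomial.coeff p e) h2
  simp only [Polynomial.finsetSum_coeff, Polynomial.coeff_C_mul, Polynomial.coeff_X_pow,
    Polynomial.coeff_zero, mul_ite, mul_one, mul_zero] at h3
  rw [Finset.sum_ite_eq, if_pos (Finset.mem_range.2 he)] at h3
  exact h3

omit [IsDomain R] in
theorem sb_disj (Z Cst : Finset (Fin n)) {Q : MvPolynomial (Fin n) F}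
    (h : Q ∈ supported F {k : Fin n | k ∉ Z}) : sb γ (Z ∪ Cst) Q = sb γ (∅ ∪ Cst) Q := by
  apply aeval_congr_supported h
  intro i hi
  simp only [Set.mem_ofPred_eq] at hi
  simp [hi]

end

section blocks

variable {F : Type*} [Field F] [CharZero F] {n r : ℕ} (a : Fin n → F)

/-- The system of prime ideals of the substitutions of polynomials `G k` for the variables
outside the free set; variables in `Cst` are always free. -/
noncomputable def blockVanI (ha : Function.Injective a) (m : ℕ)
    (G : Fin r → MvPolynomial (Fin n) F) (Cst : Finset (Fin r)) (t : Fin r → Fin n)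
    (ht : ∀ k, k ∉ Cst → pderiv (t k) (G k) ∉ genI a m)
    (hsup : ∀ k, k ∉ Cst → ∀ l, l ≠ k → G l ∈ supported F ({t k}ᶜ : Set (Fin n))) :
    VanI F r where
  I j Z := RingHom.ker (sb (fun k => gen a (m + j) (G k)) (Z ∪ Cst))
  prime _ _ := RingHom.ker_isPrime _
  anti j Z _ h := (blockVan a ha m G Cst t ht hsup).mono1 j Z _ h
  free := (blockVan a ha m G Cst t ht hsup).free
  lossless := (blockVan a ha m G Cst t ht hsup).lossless
  supp := (blockVan a ha m G Cst t ht hsup).supp
  disj j Z Q h := by
    rw [RingHom.mem_ker, RingHom.mem_ker, sb_disj _ Z Cst h]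
  coef j Z i0 hi0 D c hc h e he :=
    sb_coeff _ (Z := Z ∪ Cst) (Finset.mem_union_left _ hi0) D c hc h e he

end blocks

end Pool.Agent.H530R2
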