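import Mathlib
import Pool.Agent.H530R2.NstY

/-!
Systems of prime ideals of substitutions with the lossless property for systems of equations.
-/

namespace Pool.Agent.H530R2

open MvPolynomial

section

variable {F R : Type*} [Field F] [CommRing R] [IsDomain R] [Algebra F R] {n : ℕ} (γ : Fin n → R)

/-- A first order linear system of differential equations frees a variable at no cost, if its
leading coefficient does not vanish. -/
theorem sb_losslessV [CharZero F] {Z : Finset (Fin n)} {i0 : Fin n} (hi0 : i0 ∉ Z) {d : ℕ}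
    {f : Fin d → MvPolynomial (Fin n) F} {μ : MvPolynomial (Fin n) F} {ρ : Type*} [Fintype ρ]
    (κ : ρ → Fin n) (hκ : ∀ p, κ p ∈ Z) (m : ρ → MvPolynomial (Fin n) F)
    (c : Fin d → Fin d → MvPolynomial (Fin n) F)
    (hpde : ∀ l, μ * pderiv i0 (f l) = ∑ p, m p * pderiv (κ p) (f l) + ∑ l', c l l' * f l')
    (hf : ∀ l, sb γ Z (f l) = 0) (hμ : sb γ Z μ ≠ 0) (l : Fin d) :
    sb γ (insert i0 Z) (f l) = 0 := by
  have hch : CharZero R := charZero_of_injective_algebraMap (algebraMap F R).injective
  let B := MvPolynomial (Fin n) R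
  let g : R := γ i0
  let ε : B →ₐ[R] B := aeval (fun k => if k = i0 then (C g : B) else X k)
  set π : B := X i0 - C g with hπ
  set Ψ : Fin d → B := fun l => sb γ (insert i0 Z) (f l) with hΨ
  have hεX0 : ε (X i0) = C g := by
    have : ε (X i0) = if i0 = i0 then (C g : B) else X i0 := aeval_X _ i0
    rw [this, if_pos rfl]
  have hεX : ∀ k, k ≠ i0 → ε (X k) = X k := by
    intro k hk
    have : ε (X k) = if k = i0 then (C g : B) else X k := aeval_X _ k
    rw [this, if_neg hk]
  have hεC : ∀ c, ε (C c) = C c := fun c => ε.commutes c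
  clear_value ε
  have claim1 : ∀ P : B, π ∣ P - ε P := by
    intro P
    induction P using MvPolynomial.induction_on with
    | C r => rw [hεC, sub_self]; exact dvd_zero _
    | add p q hp hq =>
      rw [map_add, add_sub_add_comm]
      exact dvd_add hp hq
    | mul_X p i hp =>
      rw [map_mul]
      by_cases hi : i = i0
      · subst hi
        rw [hεX0]
        have : p * X i - ε p * C g = (p - ε p) * X i + ε p * π := by rw [hπ]; ring
        rw [this]
        exact dvd_add (Dvd.dvd.mul_right hp _) (Dvd.intro_left _ rfl)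
      · rw [hεX i hi, ← sub_mul]
        exact Dvd.dvd.mul_right hp _
  have claim1' : ∀ P : B, ε P = 0 → π ∣ P := by
    intro P hP
    have := claim1 P
    rwa [hP, sub_zero] at this
  have hεπ : ε π = 0 := by rw [hπ, map_sub, hεX0, hεC, sub_self]
  have claim2 : ∀ P : MvPolynomial (Fin n) F, ε (sb γ (insert i0 Z) P) = sb γ Z P := by
    intro P
    induction P using MvPolynomial.induction_on with
    | C r => rw [sb_C, sb_C, hεC]
    | add p q hp hq => rw [map_add, map_add, map_add, hp, hq]
    | mul_X p i hp =>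
      rw [map_mul, map_mul, map_mul, hp]
      by_cases hi : i = i0
      · subst hi
        rw [sb_X_mem γ (Finset.mem_insert_self _ _), hεX0, sb_X_not_mem γ hi0]
      · by_cases hiZ : i ∈ Z
        · rw [sb_X_mem γ (Finset.mem_insert_of_mem hiZ), hεX i hi, sb_X_mem γ hiZ]
        · have hni : i ∉ insert i0 Z := by simp [hi, hiZ]
          rw [sb_X_not_mem γ hni, hεC, sb_X_not_mem γ hiZ]
  have hpde' : ∀ l, sb γ (insert i0 Z) μ * pderiv i0 (Ψ l) =
      ∑ p, sb γ (insert i0 Z) (m p) * pderiv (κ p) (Ψ l) +
        ∑ l', sb γ (insert i0 Z) (c l l') * Ψ l' := by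
    intro l
    have h1 := congrArg (sb γ (insert i0 Z)) (hpde l)
    rw [map_mul, map_add, map_sum, map_sum] at h1
    simp only [hΨ]
    rw [pderiv_sb γ (Finset.mem_insert_self _ _), h1]
    congr 1
    · apply Finset.sum_congr rfl
      intro p _
      rw [map_mul, pderiv_sb γ (Finset.mem_insert_of_mem (hκ p))]
    · apply Finset.sum_congr rfl
      intro p _
      rw [map_mul]
  have hcoef : coeff (Finsupp.single i0 1) π = 1 := by
    have h : (0 : Fin n →₀ ℕ) ≠ Finsupp.single i0 1 := by
      intro h
      have := DFunLike.congr_fun h i0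
      simp at this
    rw [hπ, coeff_sub, coeff_C, if_neg h, sub_zero, coeff_X, if_pos rfl]
  have hπ0 : π ≠ 0 := by
    intro h0
    rw [h0, coeff_zero] at hcoef
    exact zero_ne_one hcoef
  have hdπ0 : pderiv i0 π = 1 := by
    rw [hπ, map_sub, pderiv_X_self, pderiv_C, sub_zero]
  have hdπ : ∀ p, pderiv (κ p) π = 0 := by
    intro p
    have hne : i0 ≠ κ p := by
      rintro rfl
      exact hi0 (hκ p)
    rw [hπ, map_sub, pderiv_X_of_ne hne, pderiv_C, sub_zero]
  have claim3 : ∀ N : ℕ, ∀ l, π ^ (N + 1) ∣ Ψ l := by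
    intro N
    induction N with
    | zero =>
      intro l
      rw [zero_add, pow_one]
      apply claim1'
      simp only [hΨ]
      rw [claim2, hf l]
    | succ N ih =>
      choose Y hY using ih
      intro l
      have h1 : pderiv i0 (Ψ l) = π ^ N * ((N + 1 : ℕ) * Y l + π * pderiv i0 (Y l)) := by
        rw [hY l, pderiv_mul, pderiv_pow, hdπ0, Nat.add_sub_cancel]
        ring
      have h2 : ∀ p, pderiv (κ p) (Ψ l) = π ^ N * (π * pderiv (κ p) (Y l)) := by
        intro p
        rw [hY l, pderiv_mul, pderiv_pow, hdπ, Nat.add_sub_cancel]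
        ring
      have h3 : π ^ N * (sb γ (insert i0 Z) μ * ((N + 1 : ℕ) * Y l + π * pderiv i0 (Y l))) =
          π ^ N * (π * (∑ p, sb γ (insert i0 Z) (m p) * pderiv (κ p) (Y l) +
            ∑ l', sb γ (insert i0 Z) (c l l') * Y l')) := by
        have h4 := hpde' l
        rw [h1] at h4
        simp only [h2] at h4
        calc π ^ N * (sb γ (insert i0 Z) μ * ((N + 1 : ℕ) * Y l + π * pderiv i0 (Y l)))
            = sb γ (insert i0 Z) μ * (π ^ N * ((N + 1 : ℕ) * Y l + π * pderiv i0 (Y l))) := by
              ring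
          _ = _ := h4
          _ = _ := by
            rw [mul_add, mul_add, Finset.mul_sum, Finset.mul_sum, Finset.mul_sum, Finset.mul_sum]
            congr 1
            · apply Finset.sum_congr rfl
              intro p _
              ring
            · apply Finset.sum_congr rfl
              intro p _
              rw [hY p]
              ring
      have h4 := mul_left_cancel₀ (pow_ne_zero N hπ0) h3
      have h5 := congrArg ε h4
      rw [map_mul, claim2, map_add, map_mul, map_mul, hεπ, zero_mul, add_zero, map_mul, hεπ,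
        zero_mul] at h5
      have h6 : ε (Y l) = 0 := by
        rcases mul_eq_zero.1 h5 with h | h
        · exact absurd h hμ
        · rcases mul_eq_zero.1 h with h | h
          · exfalso
            rw [map_natCast] at h
            exact Nat.succ_ne_zero N (by exact_mod_cast h)
          · exact h
      obtain ⟨W, hW⟩ := claim1' (Y l) h6
      exact ⟨W, by rw [hY l, hW]; ring⟩
  show Ψ l = 0
  by_contra hne
  have h1 := totalDegree_le_of_dvd_of_isDomain (claim3 (Ψ l).totalDegree l) hne
  have h2 : ∀ N : ℕ, N ≤ (π ^ N).totalDegree := by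
    intro N
    induction N with
    | zero => simp
    | succ N ih =>
      rw [pow_succ, totalDegree_mul_of_isDomain (pow_ne_zero _ hπ0) hπ0]
      have h3 : 1 ≤ π.totalDegree := by
        have h4 : coeff (Finsupp.single i0 1) π ≠ 0 := by
          rw [hcoef]; exact one_ne_zero
        have h5 := le_totalDegree (mem_support_iff.2 h4)
        simpa using h5
      omega
  have := h2 ((Ψ l).totalDegree + 1)
  omega

end

/-- A decreasing system of prime ideals `I j Z` (level `j`, free variables `Z`) with the
properties of the kernels of substitutions, for systems of differential equations. -/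
structure VanM (F : Type*) [Field F] (n : ℕ) where
  /-- the ideals -/
  I : ℕ → Finset (Fin n) → Ideal (MvPolynomial (Fin n) F)
  prime : ∀ j Z, (I j Z).IsPrime
  anti : ∀ j Z, I (j + 1) Z ≤ I j Z
  free : ∀ j Z i Q, Q ∈ I (j + 1) Z → Q ∈ I j (insert i Z)
  der : ∀ j (Z : Finset (Fin n)) k, k ∈ Z → ∀ Q ∈ I j Z, pderiv k Q ∈ I j Z
  lossless : ∀ j (Z : Finset (Fin n)) (i0 : Fin n), i0 ∉ Z →
    ∀ (ρ : ℕ) (κ : Fin ρ → Fin n), (∀ p, κ p ∈ Z) →
    ∀ (d : ℕ) (f : Fin d → MvPolynomial (Fin n) F) (μ : MvPolynomial (Fin n) F)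
      (m : Fin ρ → MvPolynomial (Fin n) F) (c : Fin d → Fin d → MvPolynomial (Fin n) F),
      (∀ l, μ * pderiv i0 (f l) = ∑ p, m p * pderiv (κ p) (f l) + ∑ l', c l l' * f l') →
      (∀ l, f l ∈ I j Z) → μ ∉ I j Z → ∀ l, f l ∈ I j (insert i0 Z)
  supp : ∀ j (Z : Finset (Fin n)) (Q : MvPolynomial (Fin n) F),
    Q ∈ supported F (Z : Set (Fin n)) → Q ∈ I j Z → Q = 0

theorem VanM.mono {F : Type*} [Field F] {n : ℕ} (V : VanM F n) {j j' : ℕ} (hj : j ≤ j')
    (Z : Finset (Fin n)) : V.I j' Z ≤ V.I j Z := by
  induction j', hj using Nat.le_induction with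
  | base => exact le_rfl
  | succ b _ ih => exact (V.anti b Z).trans ih

section blocks

variable {F : Type*} [Field F] [CharZero F] {n r : ℕ} (a : Fin n → F)

/-- The system of prime ideals of the substitutions of polynomials `G k` for the variables
outside the free set; variables in `Cst` are always free. -/
noncomputable def blockVanM (ha : Function.Injective a) (m : ℕ)
    (G : Fin r → MvPolynomial (Fin n) F) (Cst : Finset (Fin r)) (t : Fin r → Fin n)
    (ht : ∀ k, k ∉ Cst → pderiv (t k) (G k) ∉ genI a m)
    (hsup : ∀ k, k ∉ Cst → ∀ l, l ≠ k → G l ∈ supported F ({t k}ᶜ : Set (Fin n))) :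
    VanM F r where
  I j Z := RingHom.ker (sb (fun k => gen a (m + j) (G k)) (Z ∪ Cst))
  prime _ _ := RingHom.ker_isPrime _
  anti j Z _ h := (blockVan a ha m G Cst t ht hsup).mono1 j Z _ h
  free := (blockVan a ha m G Cst t ht hsup).free
  der j Z k hk Q hQ := by
    rw [RingHom.mem_ker] at hQ ⊢
    rw [← pderiv_sb _ (Finset.mem_union_left _ hk), hQ, map_zero]
  lossless j Z i0 hi0 ρ κ hκ d f μ mm c hpde hf hμ l := by
    by_cases hi : i0 ∈ Cst
    · have h1 : insert i0 Z ∪ Cst = Z ∪ Cst := by
        rw [Finset.insert_union, Finset.insert_eq_of_mem (Finset.mem_union_right _ hi)]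
      rw [h1]
      exact hf l
    · rw [Finset.insert_union]
      refine sb_losslessV _ (Z := Z ∪ Cst) ?_ κ (fun p => Finset.mem_union_left _ (hκ p)) mm c hpde
        hf hμ l
      rw [Finset.mem_union]
      tauto
  supp := (blockVan a ha m G Cst t ht hsup).supp

end blocks

end Pool.Agent.H530R2
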