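import Mathlib
import Pool.Agent.H530R2.Mul1

/-!
Vector fields, closures of vectors of polynomials under vector fields, and Cramer's rule.
-/

namespace Pool.Agent.H530R2

open MvPolynomial Module

section cramer

variable {A : Type*} [CommRing A] [IsDomain A] {ι τ : Type*} [Fintype ι]

/-- a vector over the fraction field -/
noncomputable def frv {A : Type*} [CommRing A] [IsDomain A] {ι : Type*} (u : ι → A) :
    ι → FractionRing A := fun i => algebraMap A (FractionRing A) (u i)

/-- Cramer's rule for all vectors in the span of a family. -/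
theorem cramer_unif (v : τ → ι → A) (S : Set τ) :
    ∃ (ρ : ℕ) (κ : Fin ρ → τ) (g : Fin ρ → ι), ρ ≤ Fintype.card ι ∧ (∀ q, κ q ∈ S) ∧
      (Matrix.of fun q l => v (κ q) (g l)).det ≠ 0 ∧
      ∀ u : ι → A, frv u ∈ Submodule.span (FractionRing A) ((fun k => frv (v k)) '' S) →
        ∀ i, (Matrix.of fun q l => v (κ q) (g l)).det * u i =
          ∑ q, Matrix.vecMul (fun l => u (g l))
            (Matrix.of fun q l => v (κ q) (g l)).adjugate q * v (κ q) i := by
  classical
  set K := FractionRing A with hK
  obtain ⟨f, hf, hfspan, hfli⟩ := Submodule.exists_fun_fin_finrank_span_eq K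
    ((fun k => frv (v k)) '' S)
  choose κ hκS hκ using hf
  obtain ⟨g, hg⟩ := exists_minor_ne_zero f hfli
  set φ := algebraMap A K with hφ
  have hinj : Function.Injective φ := IsFractionRing.injective _ K
  set Z := (Matrix.of fun q l => v (κ q) (g l)) with hZ
  have hZmap : (Matrix.of fun i l => f i (g l)) = Z.map φ := by
    ext i l
    simp only [Matrix.of_apply, Matrix.map_apply, hZ, ← hκ i]
    rfl
  have hdet : φ Z.det = (Z.map φ).det := by
    rw [← RingHom.mapMatrix_apply, ← RingHom.map_det]
  have hZ0 : Z.det ≠ 0 := by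
    intro h0
    apply hg
    rw [hZmap, ← hdet, h0, map_zero]
  refine ⟨_, κ, g, ?_, hκS, hZ0, ?_⟩
  · exact (Submodule.finrank_le _).trans (le_of_eq (Module.finrank_fintype_fun_eq_card _))
  intro u hu
  rw [← hfspan] at hu
  obtain ⟨c, hc⟩ := (Submodule.mem_span_range_iff_exists_fun K).1 hu
  set m : Fin _ → A := Matrix.vecMul (fun l => u (g l)) Z.adjugate with hm
  have hcZ : Matrix.vecMul c (Z.map φ) = fun l => φ (u (g l)) := by
    funext l
    have := congrFun hc (g l)
    simp only [Finset.sum_apply, Pi.smul_apply, smul_eq_mul] at this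
    rw [← hZmap]
    simp only [Matrix.vecMul, dotProduct, Matrix.of_apply]
    rw [this]
    rfl
  have hmc : ∀ i, φ (m i) = φ Z.det * c i := by
    intro i
    have h1 : Matrix.vecMul (fun l => φ (u (g l))) (Z.map φ).adjugate =
        (Z.map φ).det • c := by
      rw [← hcZ, Matrix.vecMul_vecMul, Matrix.mul_adjugate, Matrix.vecMul_smul,
        Matrix.vecMul_one]
    have h3 : (Z.map φ).adjugate = Z.adjugate.map φ := by
      have := RingHom.map_adjugate φ Z
      simpa [RingHom.mapMatrix_apply] using this.symm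
    have h4 := congrFun h1 i
    rw [← hdet, h3] at h4
    simp only [Pi.smul_apply, smul_eq_mul] at h4
    rw [← h4, hm]
    simp [Matrix.vecMul, dotProduct, map_sum]
  intro i
  apply hinj
  rw [map_mul, map_sum]
  have := congrFun hc i
  simp only [Finset.sum_apply, Pi.smul_apply, smul_eq_mul] at this
  have h5 : φ (u i) = ∑ q, c q * f q i := this.symm
  rw [h5, Finset.mul_sum]
  apply Finset.sum_congr rfl
  intro q _
  rw [map_mul, hmc q, ← hκ q]
  simp only [frv]
  ring

theorem frv_add (u v : ι → A) : frv (u + v) = frv u + frv v := by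
  funext i; simp [frv]

theorem frv_smul (c : A) (u : ι → A) :
    frv (fun i => c * u i) = algebraMap A (FractionRing A) c • frv u := by
  funext i; simp [frv]

/-- divide by a nonzero element -/
theorem mem_of_smul {E : Submodule (FractionRing A) (ι → FractionRing A)} {c : A} (hc : c ≠ 0)
    {u : ι → FractionRing A} (h : algebraMap A (FractionRing A) c • u ∈ E) : u ∈ E := by
  have h1 : algebraMap A (FractionRing A) c ≠ 0 := by
    rw [Ne, FaithfulSMul.algebraMap_eq_zero_iff]; exact hc
  have h2 := E.smul_mem (algebraMap A (FractionRing A) c)⁻¹ h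
  rwa [smul_smul, inv_mul_cancel₀ h1, one_smul] at h2

end cramer

section fields

variable {F : Type*} [Field F] {n : ℕ}

/-- the vector field `γ` applied to `g` -/
noncomputable def fld (γ : Fin n → MvPolynomial (Fin n) F) (g : MvPolynomial (Fin n) F) :
    MvPolynomial (Fin n) F := ∑ k, γ k * pderiv k g

theorem fld_add (γ : Fin n → MvPolynomial (Fin n) F) (g h : MvPolynomial (Fin n) F) :
    fld γ (g + h) = fld γ g + fld γ h := by
  simp only [fld, map_add, mul_add, Finset.sum_add_distrib]

theorem fld_mul (γ : Fin n → MvPolynomial (Fin n) F) (g h : MvPolynomial (Fin n) F) :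
    fld γ (g * h) = fld γ g * h + g * fld γ h := by
  simp only [fld, pderiv_mul, Finset.sum_mul, Finset.mul_sum]
  rw [← Finset.sum_add_distrib]
  apply Finset.sum_congr rfl
  intro k _
  ring

theorem fld_zero (γ : Fin n → MvPolynomial (Fin n) F) : fld γ 0 = 0 := by
  simp [fld]

theorem fld_sum (γ : Fin n → MvPolynomial (Fin n) F) {ι : Type*} (s : Finset ι)
    (g : ι → MvPolynomial (Fin n) F) : fld γ (∑ i ∈ s, g i) = ∑ i ∈ s, fld γ (g i) := by
  classical
  induction s using Finset.induction_on with
  | empty => simp [fld_zero]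
  | insert a s ha ih => rw [Finset.sum_insert ha, fld_add, ih, Finset.sum_insert ha]

/-- vector fields in the directions of `S` killing the family `J` -/
def Kil {ι : Type*} (S : Finset (Fin n)) (J : ι → MvPolynomial (Fin n) F)
    (γ : Fin n → MvPolynomial (Fin n) F) : Prop :=
  (∀ k, k ∉ S → γ k = 0) ∧ ∀ i, fld γ (J i) = 0

/-- closure of a vector of polynomials under the vector fields killing `J` -/
inductive Cl {ι : Type*} {Q : ℕ} (S : Finset (Fin n)) (J : ι → MvPolynomial (Fin n) F)
    (P : Fin Q → MvPolynomial (Fin n) F) : (Fin Q → MvPolynomial (Fin n) F) → Prop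
  | base : Cl S J P P
  | der (γ : Fin n → MvPolynomial (Fin n) F) (u : Fin Q → MvPolynomial (Fin n) F) :
      Kil S J γ → Cl S J P u → Cl S J P (fun q => fld γ (u q))

variable {ι : Type*} {Q : ℕ}

theorem Kil.mono {S S' : Finset (Fin n)} (h : S ⊆ S') {J : ι → MvPolynomial (Fin n) F}
    {γ : Fin n → MvPolynomial (Fin n) F} (hγ : Kil S J γ) : Kil S' J γ :=
  ⟨fun k hk => hγ.1 k (fun h' => hk (h h')), hγ.2⟩

theorem Cl.mono {S S' : Finset (Fin n)} (h : S ⊆ S') {J : ι → MvPolynomial (Fin n) F}
    {P u : Fin Q → MvPolynomial (Fin n) F} (hu : Cl S J P u) : Cl S' J P u := by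
  induction hu with
  | base => exact Cl.base
  | der γ u hγ _ ih => exact Cl.der γ u (hγ.mono h) ih

/-- the span of the closure -/
noncomputable def csp (S : Finset (Fin n)) (J : ι → MvPolynomial (Fin n) F)
    (P : Fin Q → MvPolynomial (Fin n) F) :
    Submodule (FractionRing (MvPolynomial (Fin n) F))
      (Fin Q → FractionRing (MvPolynomial (Fin n) F)) :=
  Submodule.span _ (frv '' {u | Cl S J P u})

/-- the rank of the closure -/
noncomputable def cr (S : Finset (Fin n)) (J : ι → MvPolynomial (Fin n) F)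
    (P : Fin Q → MvPolynomial (Fin n) F) : ℕ :=
  finrank (FractionRing (MvPolynomial (Fin n) F)) (csp S J P)

theorem cr_le (S : Finset (Fin n)) (J : ι → MvPolynomial (Fin n) F)
    (P : Fin Q → MvPolynomial (Fin n) F) : cr S J P ≤ Q := by
  unfold cr
  refine (Submodule.finrank_le _).trans ?_
  rw [Module.finrank_fintype_fun_eq_card, Fintype.card_fin]

theorem csp_mono {S S' : Finset (Fin n)} (h : S ⊆ S') (J : ι → MvPolynomial (Fin n) F)
    (P : Fin Q → MvPolynomial (Fin n) F) : csp S J P ≤ csp S' J P := by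
  unfold csp
  apply Submodule.span_mono
  apply Set.image_mono
  intro u hu
  exact Cl.mono h hu

theorem cr_mono {S S' : Finset (Fin n)} (h : S ⊆ S') (J : ι → MvPolynomial (Fin n) F)
    (P : Fin Q → MvPolynomial (Fin n) F) : cr S J P ≤ cr S' J P :=
  Submodule.finrank_mono (csp_mono h J P)

theorem csp_eq {S S' : Finset (Fin n)} (h : S ⊆ S') {J : ι → MvPolynomial (Fin n) F}
    {P : Fin Q → MvPolynomial (Fin n) F} (hc : cr S' J P ≤ cr S J P) :
    csp S J P = csp S' J P :=
  Submodule.eq_of_le_of_finrank_le (csp_mono h J P) hc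

/-- controlled polynomials are killed by the vector fields killing the family -/
theorem fld_ctrl {ι : Type} [Fintype ι] {T : Set (Fin n)} {S : Finset (Fin n)}
    (hS : (S : Set (Fin n)) ⊆ T)
    {J : ι → MvPolynomial (Fin n) F} {E : MvPolynomial (Fin n) F} (hE : Ctrl T J E)
    {γ : Fin n → MvPolynomial (Fin n) F} (hγ : Kil S J γ) : fld γ E = 0 := by
  obtain ⟨u, hu⟩ := hE
  have h1 : fld γ E = ∑ i, u i * fld γ (J i) := by
    simp only [fld, Finset.mul_sum]
    rw [Finset.sum_comm]
    apply Finset.sum_congr rfl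
    intro k _
    by_cases hk : k ∈ S
    · rw [hu k (hS hk), Finset.mul_sum]
      apply Finset.sum_congr rfl
      intro i _
      ring
    · rw [hγ.1 k hk, zero_mul]
      symm
      apply Finset.sum_eq_zero
      intro i _
      rw [zero_mul, mul_zero]
  rw [h1]
  apply Finset.sum_eq_zero
  intro i _
  rw [hγ.2 i, mul_zero]

/-- the ideals are stable under vector fields in free directions -/
theorem VanM.fld_mem (V : VanM F n) {j : ℕ} {Z S : Finset (Fin n)} (hS : S ⊆ Z)
    {γ : Fin n → MvPolynomial (Fin n) F} (hγ : ∀ k, k ∉ S → γ k = 0)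
    {f : MvPolynomial (Fin n) F} (hf : f ∈ V.I j Z) : fld γ f ∈ V.I j Z := by
  unfold fld
  apply Ideal.sum_mem
  intro k _
  by_cases hk : k ∈ S
  · exact Ideal.mul_mem_left _ _ (V.der j Z k (hS hk) f hf)
  · rw [hγ k hk, zero_mul]; exact Ideal.zero_mem _

/-- the closure stays in the ideal -/
theorem VanM.cl_mem (V : VanM F n) {j : ℕ} {Z S : Finset (Fin n)} (hS : S ⊆ Z)
    {J : ι → MvPolynomial (Fin n) F} {E P : Fin Q → MvPolynomial (Fin n) F}
    (hE : ∀ q γ, Kil S J γ → fld γ (E q) = 0) (hf : ∑ q, E q * P q ∈ V.I j Z)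
    {u : Fin Q → MvPolynomial (Fin n) F} (hu : Cl S J P u) : ∑ q, E q * u q ∈ V.I j Z := by
  induction hu with
  | base => exact hf
  | der γ u hγ _ ih =>
    have h1 : ∑ q, E q * fld γ (u q) = fld γ (∑ q, E q * u q) := by
      rw [fld_sum]
      apply Finset.sum_congr rfl
      intro q _
      rw [fld_mul, hE q γ hγ, zero_mul, zero_add]
    rw [h1]
    exact V.fld_mem hS hγ.1 ih

end fields

end Pool.Agent.H530R2
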