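import Mathlib
import Pool.Agent.H530R2.Mul2

/-!
Words in a family of vector fields span the closure.
-/

namespace Pool.Agent.H530R2

open MvPolynomial Module

section words

variable {F : Type*} [Field F] {n : ℕ} {ι : Type} [Fintype ι] {Q : ℕ}

/-- words in a family of vector fields -/
inductive Wd (Λ : Fin n → Fin n → MvPolynomial (Fin n) F) (S : Finset (Fin n))
    (P : Fin Q → MvPolynomial (Fin n) F) : ℕ → (Fin Q → MvPolynomial (Fin n) F) → Prop
  | base (q : ℕ) : Wd Λ S P q P
  | step (q : ℕ) (k : Fin n) (u : Fin Q → MvPolynomial (Fin n) F) : k ∈ S → Wd Λ S P q u →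
      Wd Λ S P (q + 1) (fun i => fld (Λ k) (u i))

variable {Λ : Fin n → Fin n → MvPolynomial (Fin n) F} {S : Finset (Fin n)}
    {P : Fin Q → MvPolynomial (Fin n) F}

theorem Wd.succ {q : ℕ} {u : Fin Q → MvPolynomial (Fin n) F} (h : Wd Λ S P q u) :
    Wd Λ S P (q + 1) u := by
  induction h with
  | base q => exact Wd.base _
  | step q k u hk _ ih => exact Wd.step _ k u hk ih

theorem Wd.mono {q q' : ℕ} (hq : q ≤ q') {u : Fin Q → MvPolynomial (Fin n) F}
    (h : Wd Λ S P q u) : Wd Λ S P q' u := by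
  induction q', hq using Nat.le_induction with
  | base => exact h
  | succ b _ ih => exact ih.succ

/-- the span of the words of bounded length -/
noncomputable def wsp (Λ : Fin n → Fin n → MvPolynomial (Fin n) F) (S : Finset (Fin n))
    (P : Fin Q → MvPolynomial (Fin n) F) (q : ℕ) :
    Submodule (FractionRing (MvPolynomial (Fin n) F))
      (Fin Q → FractionRing (MvPolynomial (Fin n) F)) :=
  Submodule.span _ (frv '' {u | Wd Λ S P q u})

theorem wsp_mono (q : ℕ) : wsp Λ S P q ≤ wsp Λ S P (q + 1) := by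
  unfold wsp
  apply Submodule.span_mono
  apply Set.image_mono
  intro u hu
  exact Wd.succ hu

theorem wsp_stat : ∃ q, q ≤ Q ∧ wsp Λ S P (q + 1) = wsp Λ S P q := by
  by_contra hcon
  push Not at hcon
  have h1 : ∀ q, q ≤ Q + 1 → q ≤ finrank (FractionRing (MvPolynomial (Fin n) F))
      (wsp Λ S P q) := by
    intro q
    induction q with
    | zero => intro _; exact Nat.zero_le _
    | succ q ih =>
      intro hq
      have h2 := ih (by omega)
      have h3 : wsp Λ S P q < wsp Λ S P (q + 1) :=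
        lt_of_le_of_ne (wsp_mono q) (fun h => hcon q (by omega) h.symm)
      have h4 := Submodule.finrank_lt_finrank_of_lt h3
      omega
  have h5 := h1 (Q + 1) le_rfl
  have h6 : finrank (FractionRing (MvPolynomial (Fin n) F)) (wsp Λ S P (Q + 1)) ≤ Q := by
    refine (Submodule.finrank_le _).trans ?_
    rw [Module.finrank_fintype_fun_eq_card, Fintype.card_fin]
  omega

theorem frv_inj {A : Type*} [CommRing A] [IsDomain A] {ι : Type*} {u v : ι → A}
    (h : frv u = frv v) : u = v := by
  funext i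
  exact IsFractionRing.injective A (FractionRing A) (congrFun h i)

/-- clearing denominators -/
theorem exists_clear {A : Type*} [CommRing A] [IsDomain A] {ι : Type*} [Fintype ι] (T : Set (ι → A))
    (x : ι → FractionRing A) (hx : x ∈ Submodule.span (FractionRing A) (frv '' T)) :
    ∃ δ : A, δ ≠ 0 ∧ ∃ y ∈ Submodule.span A T, algebraMap A (FractionRing A) δ • x = frv y := by
  induction hx using Submodule.span_induction with
  | mem x hx =>
    obtain ⟨u, hu, rfl⟩ := hx
    exact ⟨1, one_ne_zero, u, Submodule.subset_span hu, by rw [map_one, one_smul]⟩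
  | zero => exact ⟨1, one_ne_zero, 0, Submodule.zero_mem _, by
      rw [smul_zero]; funext i; simp [frv]⟩
  | add x y _ _ hx hy =>
    obtain ⟨d, hd, u, hu, hdu⟩ := hx
    obtain ⟨e, he, v, hv, hev⟩ := hy
    refine ⟨d * e, mul_ne_zero hd he, e • u + d • v, Submodule.add_mem _
      (Submodule.smul_mem _ _ hu) (Submodule.smul_mem _ _ hv), ?_⟩
    rw [frv_add, smul_add]
    have h1 : frv (e • u) = algebraMap A (FractionRing A) e • frv u := frv_smul e u
    have h2 : frv (d • v) = algebraMap A (FractionRing A) d • frv v := frv_smul d v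
    rw [h1, h2, ← hdu, ← hev, smul_smul, smul_smul, ← map_mul, ← map_mul, mul_comm e d]
  | smul c x _ hx =>
    obtain ⟨d, hd, u, hu, hdu⟩ := hx
    obtain ⟨a, b, hb, rfl⟩ := IsFractionRing.div_surjective (A := A) c
    have hb0 : b ≠ 0 := nonZeroDivisors.ne_zero hb
    have hb1 : algebraMap A (FractionRing A) b ≠ 0 := by
      rw [Ne, FaithfulSMul.algebraMap_eq_zero_iff]; exact hb0
    refine ⟨b * d, mul_ne_zero hb0 hd, a • u, Submodule.smul_mem _ _ hu, ?_⟩
    have h1 : frv (a • u) = algebraMap A (FractionRing A) a • frv u := frv_smul a u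
    rw [h1, ← hdu, smul_smul, smul_smul]
    congr 1
    rw [map_mul]
    field_simp

/-- one more field -/
theorem wsp_step {q : ℕ} {k : Fin n} (hk : k ∈ S) {u : Fin Q → MvPolynomial (Fin n) F}
    (hu : frv u ∈ wsp Λ S P q) : frv (fun i => fld (Λ k) (u i)) ∈ wsp Λ S P (q + 1) := by
  obtain ⟨δ, hδ, y, hy, hδy⟩ := exists_clear _ _ hu
  have h1 : (fun i => δ * u i) = y := by
    apply frv_inj
    rw [frv_smul, hδy]
  have h2 : frv y ∈ wsp Λ S P q ∧ frv (fun i => fld (Λ k) (y i)) ∈ wsp Λ S P (q + 1) := by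
    clear hδy h1 hδ
    induction hy using Submodule.span_induction with
    | mem x hx =>
      exact ⟨Submodule.subset_span ⟨x, hx, rfl⟩, Submodule.subset_span ⟨_, Wd.step q k x hk hx, rfl⟩⟩
    | zero =>
      have h0 : frv (0 : Fin Q → MvPolynomial (Fin n) F) = 0 := by funext i; simp [frv]
      refine ⟨by rw [h0]; exact Submodule.zero_mem _, ?_⟩
      have h3 : (fun i => fld (Λ k) ((0 : Fin Q → MvPolynomial (Fin n) F) i)) = 0 := by
        funext i
        exact fld_zero _
      rw [h3, h0]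
      exact Submodule.zero_mem _
    | add x y _ _ hx hy =>
      refine ⟨by rw [frv_add]; exact Submodule.add_mem _ hx.1 hy.1, ?_⟩
      have h3 : (fun i => fld (Λ k) ((x + y) i)) =
          (fun i => fld (Λ k) (x i)) + fun i => fld (Λ k) (y i) := by
        funext i
        exact fld_add _ _ _
      rw [h3, frv_add]
      exact Submodule.add_mem _ hx.2 hy.2
    | smul c x _ hx =>
      have h4 : frv (c • x) = algebraMap (MvPolynomial (Fin n) F) _ c • frv x := frv_smul c x
      refine ⟨by rw [h4]; exact Submodule.smul_mem _ _ hx.1, ?_⟩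
      have h3 : (fun i => fld (Λ k) ((c • x) i)) =
          (fun i => fld (Λ k) c * x i) + fun i => c * fld (Λ k) (x i) := by
        funext i
        exact fld_mul _ _ _
      rw [h3, frv_add, frv_smul, frv_smul]
      exact Submodule.add_mem _ (Submodule.smul_mem _ _ (wsp_mono q hx.1))
        (Submodule.smul_mem _ _ hx.2)
  apply mem_of_smul hδ
  have h5 : algebraMap (MvPolynomial (Fin n) F) (FractionRing (MvPolynomial (Fin n) F)) δ •
      frv (fun i => fld (Λ k) (u i)) =
      frv (fun i => fld (Λ k) (y i)) -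
        algebraMap (MvPolynomial (Fin n) F) (FractionRing (MvPolynomial (Fin n) F))
          (fld (Λ k) δ) • frv u := by
    rw [← frv_smul, ← frv_smul, eq_sub_iff_add_eq, ← frv_add, ← h1]
    congr 1
    funext i
    simp only [Pi.add_apply]
    rw [fld_mul]
    ring
  rw [h5]
  exact Submodule.sub_mem _ h2.2 (Submodule.smul_mem _ _ (wsp_mono q hu))

theorem Wd.cl {J : ι → MvPolynomial (Fin n) F} (hΛ : ∀ k ∈ S, Kil S J (Λ k)) {q : ℕ}
    {u : Fin Q → MvPolynomial (Fin n) F} (h : Wd Λ S P q u) : Cl S J P u := by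
  induction h with
  | base => exact Cl.base
  | step q k u hk _ ih => exact Cl.der _ _ (hΛ k hk) ih

/-- words span the closure -/
theorem csp_eq_wsp {J : ι → MvPolynomial (Fin n) F} {μ : MvPolynomial (Fin n) F} (hμ : μ ≠ 0)
    (hΛ : ∀ k ∈ S, Kil S J (Λ k))
    (hrel : ∀ γ, Kil S J γ → ∀ f, μ * fld γ f = ∑ k, γ k * fld (Λ k) f)
    {q : ℕ} (hq : wsp Λ S P (q + 1) = wsp Λ S P q) : csp S J P = wsp Λ S P q := by
  apply le_antisymm
  · unfold csp
    apply Submodule.span_le.2
    rintro _ ⟨u, hu, rfl⟩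
    show frv u ∈ wsp Λ S P q
    have hu' : Cl S J P u := hu
    clear hu
    induction hu' with
    | base => exact Submodule.subset_span ⟨P, Wd.base q, rfl⟩
    | der γ u hγ _ ih =>
      apply mem_of_smul hμ
      have h1 : algebraMap (MvPolynomial (Fin n) F) (FractionRing (MvPolynomial (Fin n) F)) μ •
          frv (fun i => fld γ (u i)) =
          ∑ k, algebraMap (MvPolynomial (Fin n) F) (FractionRing (MvPolynomial (Fin n) F)) (γ k) •
            frv (fun i => fld (Λ k) (u i)) := by
        funext i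
        simp only [Finset.sum_apply, Pi.smul_apply, smul_eq_mul, frv]
        rw [← map_mul, hrel γ hγ, map_sum]
        apply Finset.sum_congr rfl
        intro k _
        rw [map_mul]
      rw [h1]
      refine Submodule.sum_mem _ fun k _ => ?_
      by_cases hk : k ∈ S
      · rw [← hq]
        exact Submodule.smul_mem _ _ (wsp_step hk ih)
      · rw [hγ.1 k hk, map_zero, zero_smul]
        exact Submodule.zero_mem _
  · unfold wsp
    apply Submodule.span_mono
    apply Set.image_mono
    intro u hu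
    exact Wd.cl hΛ hu

end words

section cramerfields

variable {F : Type*} [Field F] {n : ℕ} {ι : Type} [Fintype ι] {Q : ℕ} {ρ₀ : ℕ}

/-- the minor -/
noncomputable def cmu (J : ι → MvPolynomial (Fin n) F) (κ : Fin ρ₀ → Fin n) (g : Fin ρ₀ → ι) :
    MvPolynomial (Fin n) F := (Matrix.of fun q l => pderiv (κ q) (J (g l))).det

/-- the coefficients of Cramer's rule -/
noncomputable def cmm (J : ι → MvPolynomial (Fin n) F) (κ : Fin ρ₀ → Fin n) (g : Fin ρ₀ → ι)
    (k : Fin n) (p : Fin ρ₀) : MvPolynomial (Fin n) F :=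
  Matrix.vecMul (fun l => pderiv k (J (g l)))
    (Matrix.of fun q l => pderiv (κ q) (J (g l))).adjugate p

/-- the fields of Cramer's rule -/
noncomputable def clam (J : ι → MvPolynomial (Fin n) F) (κ : Fin ρ₀ → Fin n) (g : Fin ρ₀ → ι)
    (k : Fin n) : Fin n → MvPolynomial (Fin n) F :=
  fun l => (if l = k then cmu J κ g else 0) - ∑ p, if l = κ p then cmm J κ g k p else 0

theorem fld_clam (J : ι → MvPolynomial (Fin n) F) (κ : Fin ρ₀ → Fin n) (g : Fin ρ₀ → ι)
    (k : Fin n) (f : MvPolynomial (Fin n) F) :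
    fld (clam J κ g k) f = cmu J κ g * pderiv k f - ∑ p, cmm J κ g k p * pderiv (κ p) f := by
  classical
  unfold fld clam
  simp only [sub_mul, Finset.sum_sub_distrib, ite_mul, zero_mul, Finset.sum_mul]
  rw [Finset.sum_ite_eq' Finset.univ k, if_pos (Finset.mem_univ _), Finset.sum_comm]
  congr 1
  apply Finset.sum_congr rfl
  intro p _
  rw [Finset.sum_ite_eq' Finset.univ (κ p), if_pos (Finset.mem_univ _)]

theorem clam_combo {J : ι → MvPolynomial (Fin n) F} (κ : Fin ρ₀ → Fin n) (g : Fin ρ₀ → ι)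
    {S : Finset (Fin n)} (γ : Fin n → MvPolynomial (Fin n) F) (hγ : Kil S J γ)
    (f : MvPolynomial (Fin n) F) :
    cmu J κ g * fld γ f = ∑ k, γ k * fld (clam J κ g k) f := by
  classical
  simp only [fld_clam, mul_sub, Finset.sum_sub_distrib]
  have h1 : ∑ k, γ k * ∑ p, cmm J κ g k p * pderiv (κ p) f = 0 := by
    simp only [Finset.mul_sum]
    rw [Finset.sum_comm]
    apply Finset.sum_eq_zero
    intro p _
    have h2 : ∑ k, γ k * cmm J κ g k p = 0 := by
      simp only [cmm, Matrix.vecMul, dotProduct, Finset.mul_sum]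
      rw [Finset.sum_comm]
      apply Finset.sum_eq_zero
      intro l _
      have h3 := hγ.2 (g l)
      unfold fld at h3
      have h4 : ∑ k, γ k * (pderiv k (J (g l)) *
          (Matrix.of fun q l => pderiv (κ q) (J (g l))).adjugate l p) =
          (∑ k, γ k * pderiv k (J (g l))) *
            (Matrix.of fun q l => pderiv (κ q) (J (g l))).adjugate l p := by
        rw [Finset.sum_mul]
        apply Finset.sum_congr rfl
        intro k _
        ring
      rw [h4, h3, zero_mul]
    have h5 : ∑ k, γ k * (cmm J κ g k p * pderiv (κ p) f) =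
        (∑ k, γ k * cmm J κ g k p) * pderiv (κ p) f := by
      rw [Finset.sum_mul]
      apply Finset.sum_congr rfl
      intro k _
      ring
    rw [h5, h2, zero_mul]
  rw [h1, sub_zero]
  unfold fld
  rw [Finset.mul_sum]
  apply Finset.sum_congr rfl
  intro k _
  ring

/-- all data of Cramer's rule for the fields and for the words -/
theorem exists_words (J : ι → MvPolynomial (Fin n) F) (S : Finset (Fin n))
    (P : Fin Q → MvPolynomial (Fin n) F) :
    ∃ (ρ₀ : ℕ) (κ : Fin ρ₀ → Fin n) (g : Fin ρ₀ → ι), ρ₀ ≤ Fintype.card ι ∧ (∀ q, κ q ∈ S) ∧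
      cmu J κ g ≠ 0 ∧
      (∀ k, dv J k ∈ sp S J → ∀ i, cmu J κ g * pderiv k (J i) =
        ∑ p, cmm J κ g k p * pderiv (κ p) (J i)) ∧
      ∃ (ρ : ℕ) (u : Fin ρ → Fin Q → MvPolynomial (Fin n) F) (g' : Fin ρ → Fin Q), ρ ≤ Q ∧
        (∀ l, Wd (clam J κ g) S P Q (u l)) ∧ (∀ l, Cl S J P (u l)) ∧
        (Matrix.of fun i l => u i (g' l)).det ≠ 0 ∧
        ∀ z : Fin Q → MvPolynomial (Fin n) F, frv z ∈ csp S J P →
          ∃ c : Fin ρ → MvPolynomial (Fin n) F, ∀ i,
            (Matrix.of fun i l => u i (g' l)).det * z i = ∑ l, c l * u l i := by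
  classical
  obtain ⟨ρ₀, κ, g, hρ₀, hκ, hμ, hrel⟩ := cramer_unif
    (fun (k : Fin n) (i : ι) => pderiv k (J i)) (S : Set (Fin n))
  have hrel' : ∀ k, dv J k ∈ sp S J → ∀ i, cmu J κ g * pderiv k (J i) =
        ∑ p, cmm J κ g k p * pderiv (κ p) (J i) := by
    intro k hk i
    exact hrel (fun i => pderiv k (J i)) hk i
  have hΛ : ∀ k ∈ S, Kil S J (clam J κ g k) := by
    intro k hk
    refine ⟨?_, ?_⟩
    · intro l hl
      unfold clam
      rw [if_neg (by rintro rfl; exact hl hk), zero_sub, neg_eq_zero]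
      apply Finset.sum_eq_zero
      intro p _
      rw [if_neg]
      rintro rfl
      exact hl (hκ p)
    · intro i
      rw [fld_clam, hrel' k ?_ i, sub_self]
      exact Submodule.subset_span ⟨k, by exact_mod_cast hk, rfl⟩
  obtain ⟨q, hqQ, hq⟩ := wsp_stat (Λ := clam J κ g) (S := S) (P := P)
  have hcsp := csp_eq_wsp (J := J) hμ hΛ (fun γ hγ f => clam_combo κ g γ hγ f) hq
  obtain ⟨ρ, κ', g', hρ, hκ', hΔ, hrelΔ⟩ := cramer_unif
    (fun (u : Fin Q → MvPolynomial (Fin n) F) => u) {u | Wd (clam J κ g) S P q u}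
  refine ⟨ρ₀, κ, g, hρ₀, fun q => by exact_mod_cast hκ q, hμ, hrel', ρ, κ', g', ?_,
    fun l => (hκ' l).mono hqQ, fun l => Wd.cl hΛ (hκ' l), hΔ, ?_⟩
  · rwa [Fintype.card_fin] at hρ
  · intro z hz
    refine ⟨_, hrelΔ z ?_⟩
    rw [hcsp] at hz
    exact hz

end cramerfields

end Pool.Agent.H530R2
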