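import Mathlib
import Pool.Agent.H530R2.NstY

/-!
Polynomials which can be tested over every system of substitutions at a given cost.
-/

namespace Pool.Agent.H530R2

open MvPolynomial

section cheap

variable {F : Type*} [Field F] {r : ℕ}

/-- `P` costs at most `e` seeds. -/
def Cheap (e : ℕ) (P : MvPolynomial (Fin r) F) : Prop :=
  ∀ V : VanI F r, P ∈ V.I e ∅ → P = 0

/-- replace the variables in `Cst` by constants -/
noncomputable def csub (Cst : Finset (Fin r)) (κ : Fin r → F) :
    MvPolynomial (Fin r) F →ₐ[F] MvPolynomial (Fin r) F :=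
  aeval fun k => if k ∈ Cst then C (κ k) else X k

theorem Cheap.mono {e e' : ℕ} (he : e ≤ e') {P : MvPolynomial (Fin r) F} (h : Cheap e P) :
    Cheap e' P := fun V hV => h V (V.mono he ∅ hV)

/-- few variables -/
theorem cheap_few {e : ℕ} (he : r ≤ e) (P : MvPolynomial (Fin r) F) : Cheap e P := by
  classical
  intro V hV
  have key : ∀ Z : Finset (Fin r), ∀ j, P ∈ V.I (j + Z.card) ∅ → P ∈ V.I j Z := by
    intro Z
    induction Z using Finset.induction_on with
    | empty => intro j h; simpa using h
    | insert i Z hi ih =>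
      intro j h
      apply V.free
      apply ih
      rw [Finset.card_insert_of_notMem hi, show j + (Z.card + 1) = j + 1 + Z.card by omega] at h
      exact h
  have h1 := key Finset.univ 0 (by
    rw [Finset.card_univ, Fintype.card_fin, zero_add]
    exact V.mono he ∅ hV)
  refine V.supp 0 Finset.univ P ?_ h1
  rw [Finset.coe_univ, supported_univ]
  trivial

variable {w : ℕ}

/-- register programs -/
theorem cheap_run (c₀ : Fin w → F) (upd : Fin r → Fin w → MvPolynomial (Option (Fin w)) F)
    (Φ : MvPolynomial (Fin w) F) (Cst : Finset (Fin r)) (κ : Fin r → F) :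
    Cheap (jcost (w + 1) w) (csub Cst κ (outp c₀ upd Φ X)) := by
  classical
  intro V hV
  rw [csub, outp_alg] at hV ⊢
  simp only [aeval_X] at hV ⊢
  obtain ⟨x, hxe⟩ : ∃ x : Fin r → MvPolynomial (Fin r) F,
    x = fun k => if k ∈ Cst then C (κ k) else X k := ⟨_, rfl⟩
  rw [← hxe] at hV ⊢
  have hx : ∀ k, x k ∈ Algebra.adjoin F
      (X '' ({k} : Set (Fin r)) : Set (MvPolynomial (Fin r) F)) := by
    intro k
    rw [hxe]
    simp only
    split_ifs with hk
    · exact Subalgebra.algebraMap_mem _ _
    · exact Algebra.subset_adjoin ⟨k, rfl, rfl⟩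
  have hst := fun b hb s => run_step c₀ upd x hx b hb s
  have hsys : Sys (1 : Equiv.Perm (Fin r)) (run c₀ upd x) (run c₀ upd x) :=
    Sys.base (fun b s => run_supp c₀ upd x hx b s) hst
  have hctrl : Ctrl ((Zs (1 : Equiv.Perm (Fin r)) r \ Zs 1 0 : Finset (Fin r)) : Set (Fin r))
      (run c₀ upd x r) (outp c₀ upd Φ x) := by
    refine (ctrl_of_adjoin (W := ∅) ?_).mono (by simp)
    rw [Set.image_empty, Set.union_empty, Algebra.adjoin_range_eq_range_aeval]
    exact ⟨Φ, rfl⟩
  have h1 := Van.jet_dec V.toVan (σ := 1) (p := run c₀ upd x)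
    (w + 1) (by simp) hst (Fin w) (run c₀ upd x) hsys 0 r (Nat.zero_le _) le_rfl
    (Or.inr (by simp)) _ hctrl 0 (by rw [Fintype.card_fin, zero_add, Zs_zero]; exact hV)
  refine V.supp 0 _ _ ?_ h1
  rw [Zs_last, Finset.coe_univ, supported_univ]
  trivial

/-- linear programs, up to constants -/
theorem cheap_lin (M : Fin r → Matrix (Fin w) (Fin w) (Polynomial F)) (u v : Fin w → F)
    (Cst : Finset (Fin r)) (κ : Fin r → F) (y : F) :
    Cheap (lcost w w) (csub Cst κ (lout M u v X - C y)) := by
  classical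
  intro V hV
  have hyC : csub Cst κ (C y) = C y := (csub Cst κ).commutes y
  rw [map_sub, hyC] at hV ⊢
  have hM : ∃ M' : Fin r → Matrix (Fin w) (Fin w) (Polynomial F),
      csub Cst κ (lout M u v X) = lout M' u v (X : Fin r → MvPolynomial (Fin r) F) := by
    refine ⟨fun k => if k ∈ Cst then (M k).map (fun p => Polynomial.C (p.eval (κ k))) else M k, ?_⟩
    rw [csub, lout_alg]
    apply lout_congr
    intro k
    rw [aeval_X]
    split_ifs with hk
    · ext1 i j
      simp only [Matrix.map_apply, Polynomial.aeval_C]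
      rw [show (C (κ k) : MvPolynomial (Fin r) F) = algebraMap F _ (κ k) from rfl,
        Polynomial.aeval_algebraMap_apply, Polynomial.coe_aeval_eq_eval]
    · rfl
  obtain ⟨M', hM'⟩ := hM
  rw [hM'] at hV ⊢
  obtain ⟨N, hN⟩ : ∃ N : ℕ → Matrix (Fin w) (Fin w) (Polynomial F),
    ∀ k (hk : k < r), N k = M' ⟨k, hk⟩ := ⟨fun k => if hk : k < r then M' ⟨k, hk⟩ else 1,
      fun k hk => dif_pos hk⟩
  have hPr : ∀ k, k ≤ r → Pr (pv (1 : Equiv.Perm (Fin r))) N 0 k =
      lrun M' (X : Fin r → MvPolynomial (Fin r) F) k := by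
    intro k
    induction k with
    | zero => intro _; rfl
    | succ k ih =>
      intro hk
      have hk' : k < r := hk
      rw [Pr_succ, ih hk'.le, lrun, dif_pos hk', Nh, zero_add, hN k hk']
      congr 2
      unfold pv
      rw [dif_pos hk']
      rfl
  have hsum : lout M' u v (X : Fin r → MvPolynomial (Fin r) F) =
      ∑ i, ∑ j, C (u i) * en (1 : Equiv.Perm (Fin r)) N 0 (r - 0) (i, j) * C (v j) := by
    rw [lout]
    unfold en
    rw [Nat.sub_zero, hPr r le_rfl]
    rfl
  by_cases hrk : rk (pv (1 : Equiv.Perm (Fin r)) : ℕ → MvPolynomial (Fin r) F) N 0 r = 0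
  · have h3 := rk_zero_imp (pv (1 : Equiv.Perm (Fin r)) : ℕ → MvPolynomial (Fin r) F) N 0 r hrk
    have h4 : lout M' u v (X : Fin r → MvPolynomial (Fin r) F) = 0 := by
      rw [hsum]
      unfold en
      rw [Nat.sub_zero, h3]
      simp
    rw [h4, zero_sub] at hV ⊢
    refine V.supp _ ∅ _ ?_ hV
    exact neg_mem (Subalgebra.algebraMap_mem _ _)
  · have hctrl : Ctrl ((Zs (1 : Equiv.Perm (Fin r)) r \ Zs 1 0 : Finset (Fin r)) : Set (Fin r))
        (en (1 : Equiv.Perm (Fin r)) N 0 (r - 0)) (lout M' u v X - C y) := by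
      refine (ctrl_of_adjoin (W := ∅) ?_).mono (by simp)
      rw [Set.image_empty, Set.union_empty, hsum]
      refine sub_mem (Subalgebra.sum_mem _ fun i _ => Subalgebra.sum_mem _ fun j _ => ?_)
        (Subalgebra.algebraMap_mem _ _)
      refine Subalgebra.mul_mem _ (Subalgebra.mul_mem _ (Subalgebra.algebraMap_mem _ _) ?_)
        (Subalgebra.algebraMap_mem _ _)
      exact Algebra.subset_adjoin ⟨(i, j), rfl⟩
    have h1 := Van.lin_dec (w := w) V.toVan 1 N w le_rfl 0 r
      (Nat.zero_le _) le_rfl (Or.inr (by rw [Nat.sub_zero]; omega)) _ hctrl 0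
      (by rw [zero_add, Zs_zero]; exact hV)
    refine V.supp 0 _ _ ?_ h1
    rw [Zs_last, Finset.coe_univ, supported_univ]
    trivial

theorem csub_lout (M : Fin r → Matrix (Fin w) (Fin w) (Polynomial F)) (u v : Fin w → F)
    (σ : Equiv.Perm (Fin r)) (Cst : Finset (Fin r)) (κ : Fin r → F) :
    ∃ M' : Fin r → Matrix (Fin w) (Fin w) (Polynomial F),
      csub Cst κ (lout M u v (fun k => X (σ k))) =
        lout M' u v (fun k => (X (σ k) : MvPolynomial (Fin r) F)) := by
  classical
  refine ⟨fun k => if σ k ∈ Cst then (M k).map (fun p => Polynomial.C (p.eval (κ (σ k))))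
    else M k, ?_⟩
  rw [csub, lout_alg]
  apply lout_congr
  intro k
  rw [aeval_X]
  split_ifs with hk
  · ext1 i j
    simp only [Matrix.map_apply, Polynomial.aeval_C]
    rw [show (C (κ (σ k)) : MvPolynomial (Fin r) F) = algebraMap F _ (κ (σ k)) from rfl,
      Polynomial.aeval_algebraMap_apply, Polynomial.coe_aeval_eq_eval]
  · rfl

theorem isRO_lout (M : Fin r → Matrix (Fin w) (Fin w) (Polynomial F)) (u v : Fin w → F)
    (σ : Equiv.Perm (Fin r)) :
    IsRO σ w Set.univ (lout M u v (fun k => (X (σ k) : MvPolynomial (Fin r) F))) := by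
  refine ⟨fun i => M (σ.symm i), u, v, fun i hi => absurd (Set.mem_univ i) hi, ?_⟩
  have key : ∀ k, k ≤ r → Pr (pv σ) (toSeq σ fun i => M (σ.symm i)) 0 k =
      lrun M (fun k => (X (σ k) : MvPolynomial (Fin r) F)) k := by
    intro k
    induction k with
    | zero => intro _; rfl
    | succ k ih =>
      intro hk
      have hk' : k < r := hk
      rw [Pr_succ, ih hk'.le, lrun, dif_pos hk', Nh, zero_add, toSeq, dif_pos hk',
        Equiv.symm_apply_apply]
      congr 2
      unfold pv
      rw [dif_pos hk']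
  unfold roVal lout
  rw [key r le_rfl]
  simp only [dotProduct, Matrix.mulVec, emb, Finset.mul_sum, mul_assoc]

theorem isRO_const (σ : Equiv.Perm (Fin r)) (y : F) :
    IsRO σ 1 Set.univ (C y : MvPolynomial (Fin r) F) := by
  have h1 : ∀ k, lrun (fun _ : Fin r => (1 : Matrix (Fin 1) (Fin 1) (Polynomial F)))
      (fun k => (X (σ k) : MvPolynomial (Fin r) F)) k = 1 := by
    intro k
    induction k with
    | zero => rfl
    | succ k ih =>
      simp only [lrun, ih]
      split_ifs
      · rw [Matrix.map_one _ (map_zero _) (map_one _), mul_one]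
      · rfl
  have h2 : (C y : MvPolynomial (Fin r) F) =
      lout (fun _ : Fin r => (1 : Matrix (Fin 1) (Fin 1) (Polynomial F))) (fun _ => y)
        (fun _ => 1) (fun k => (X (σ k) : MvPolynomial (Fin r) F)) := by
    unfold lout
    rw [h1]
    simp
  rw [h2]
  exact isRO_lout _ _ _ σ

/-- sums of linear programs in different orders, up to constants -/
theorem cheap_sum {c : ℕ} (σ : Fin c → Equiv.Perm (Fin r))
    (M : Fin c → Fin r → Matrix (Fin w) (Fin w) (Polynomial F)) (u v : Fin c → Fin w → F)
    (Cst : Finset (Fin r)) (κ : Fin r → F) (y : F) :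
    Cheap (seeds2 c (w + 1))
      (csub Cst κ (∑ i, lout (M i) (u i) (v i) (fun k => X (σ i k)) - C y)) := by
  classical
  intro V hV
  have hyC : csub Cst κ (C y) = C y := (csub Cst κ).commutes y
  rw [map_sub, map_sum, hyC] at hV ⊢
  have h1 : ∀ i, IsRO (σ i) w Set.univ (csub Cst κ (lout (M i) (u i) (v i)
      (fun k => X (σ i k)))) := by
    intro i
    obtain ⟨M', hM'⟩ := csub_lout (M i) (u i) (v i) (σ i) Cst κ
    rw [hM']
    exact isRO_lout _ _ _ _
  cases c with
  | zero =>
    rw [Fin.sum_univ_zero, zero_sub] at hV ⊢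
    refine V.supp _ ∅ _ ?_ hV
    exact neg_mem (Subalgebra.algebraMap_mem _ _)
  | succ c =>
    refine V.sum_eq_zero (c + 1) (w + 1) σ _ ?_ hV
    refine ⟨fun i => if i = 0 then csub Cst κ (lout (M i) (u i) (v i)
      (fun k => X (σ i k))) + C (-y) else csub Cst κ (lout (M i) (u i) (v i)
      (fun k => X (σ i k))), ?_, ?_⟩
    · intro i
      by_cases hi : i = 0
      · simp only [hi, if_true]
        exact (h1 0).add (isRO_const _ _)
      · simp only [hi, if_false]
        exact (h1 i).mono (Nat.le_succ w)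
    · rw [Fin.sum_univ_succ, Fin.sum_univ_succ (n := c) (f := fun i => if i = 0 then _ else _)]
      simp only [if_true, Fin.succ_ne_zero, if_false, map_neg]
      ring

end cheap

section core

variable {F : Type*} [Field F] [CharZero F] {n r : ℕ} {a : Fin n → F}

/-- A cheap polynomial in blocks which are pairwise independent in the directions `t k` vanishes
if it vanishes on the generator. -/
theorem core_zero (ha : Function.Injective a) (m e : ℕ)
    (G : Fin r → MvPolynomial (Fin n) F) (Cst : Finset (Fin r)) (κ : Fin r → F)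
    (hC : ∀ k, k ∈ Cst → G k = C (κ k)) (t : Fin r → Fin n)
    (ht : ∀ k, k ∉ Cst → pderiv (t k) (G k) ∉ genI a m)
    (hsup : ∀ k, k ∉ Cst → ∀ l, l ≠ k → G l ∈ supported F ({t k}ᶜ : Set (Fin n)))
    (P : MvPolynomial (Fin r) F) (hP : Cheap e (csub Cst κ P))
    (h : aeval G P ∈ genI a (m + e)) : aeval G P = 0 := by
  classical
  have haG : aeval G (csub Cst κ P) = aeval G P := by
    rw [csub, ← AlgHom.comp_apply, comp_aeval]
    congr 2
    funext k
    split_ifs with hk
    · rw [hC k hk, aeval_C]; rfl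
    · rw [aeval_X]
  have hstart : csub Cst κ P ∈ (blockVanI a ha m G Cst t ht hsup).I e ∅ := by
    show sb (fun k => gen a (m + e) (G k)) (∅ ∪ Cst) (csub Cst κ P) = 0
    rw [Finset.empty_union]
    have h0 : gen a (m + e) (aeval G P) = 0 := h
    have h2 : (sb (fun k => gen a (m + e) (G k)) Cst).comp (csub Cst κ) =
        ((Algebra.ofId (MvPolynomial (Fin (m + e) ⊕ Fin (m + e)) F)
          (MvPolynomial (Fin r) (MvPolynomial (Fin (m + e) ⊕ Fin (m + e)) F))).restrictScalars
            F).comp ((gen a (m + e)).comp (aeval G)) := by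
      apply algHom_ext
      intro k
      simp only [AlgHom.comp_apply, csub, aeval_X]
      split_ifs with hk
      · rw [hC k hk, sb_C]
        have h3 : gen a (m + e) (C (κ k)) = C (κ k) := (gen a (m + e)).commutes _
        rw [h3]
        rfl
      · rw [sb_X_not_mem _ hk]
        rfl
    have h4 := congrArg (fun φ => φ P) h2
    simp only [AlgHom.comp_apply] at h4
    rw [h4, h0, map_zero]
  have h5 := hP _ hstart
  rw [← haG, h5, map_zero]

variable {K : Type*} [Field K] [Algebra F K] {m : ℕ} (G : GenPt a m K)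

include G in
/-- The gate theorem: a polynomial with coefficients in `F[x_S]` in blocks sharing only variables
in `S`, which is cheap at all values of the variables in `S`. -/
theorem gate_zero (ha : Function.Injective a) {S : Finset (Fin n)} {c e : ℕ}
    (hSm : S.card < m) (hSc : S.card ≤ c) (g : Fin r → MvPolynomial (Fin n) F)
    (hg : ∀ k, Hit a m S (g k)) (hgg : ∀ k l, k ≠ l → (g k).vars ∩ (g l).vars ⊆ S)
    (P : MvPolynomial (Fin r) (supported F (S : Set (Fin n))))
    (hP : ∀ (s : Fin n → F) (Cst : Finset (Fin r)) (κ : Fin r → F),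
      Cheap e (csub Cst κ (map ((eval s).comp
      (algebraMap (supported F (S : Set (Fin n))) (MvPolynomial (Fin n) F))) P)))
    (h : aeval g P ∈ genI a (m + e + c)) : aeval g P = 0 := by
  classical
  by_contra hne
  have hinf : Infinite F := inferInstance
  -- the directions
  have hdir : ∀ k, ∃ t, g k ≠ cut F S (g k) → t ∉ S ∧ pderiv t (g k) ∉ genI a m := by
    intro k
    by_cases hk : g k = cut F S (g k)
    · rcases Nat.eq_zero_or_pos n with hn | hn
      · exfalso
        subst hn
        apply hne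
        obtain ⟨y, hy⟩ : ∃ y, aeval g P = C y := ⟨_, MvPolynomial.eq_C_of_isEmpty _⟩
        have h2 : gen a (m + e + c) (aeval g P) = 0 := h
        rw [hy] at h2 ⊢
        have h3 : gen a (m + e + c) (C y) = C y := (gen a _).commutes y
        rw [h3, C_eq_zero] at h2
        rw [h2, map_zero]
      · exact ⟨⟨0, hn⟩, fun hc => absurd hk hc⟩
    · obtain ⟨t, ht⟩ := (hg k).exists_deriv G ha hSm hk
      exact ⟨t, fun _ => ht⟩
  choose t ht using hdir
  obtain ⟨Cst, hCst⟩ : ∃ Cst : Finset (Fin r), ∀ k, k ∈ Cst ↔ g k = cut F S (g k) :=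
    ⟨Finset.univ.filter fun k => g k = cut F S (g k), fun k => by simp⟩
  have ht' : ∀ k, k ∉ Cst → t k ∉ S ∧ pderiv (t k) (g k) ∉ genI a m := by
    intro k hk
    exact ht k (fun hc => hk ((hCst k).2 hc))
  obtain ⟨s, hs1, hs2⟩ := exists_spec (a := a) (Cstᶜ) m S (aeval g P) hne
    (fun k => pderiv (t k) (g k)) (fun k hk => (ht' k (Finset.mem_compl.1 hk)).2)
  -- specialise
  have hmap := aeval_map_nat (R := supported F (S : Set (Fin n))) (R' := F)
    ((eval s).comp (algebraMap (supported F (S : Set (Fin n))) (MvPolynomial (Fin n) F)))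
    (sps s S : MvPolynomial (Fin n) F →+* MvPolynomial (Fin n) F)
    (fun y => sps_supported s S y.2) g (fun k => sps s S (g k)) (fun _ => rfl) P
  have hzero : gen a (m + e) (sps s S (aeval g P)) = 0 := by
    rw [← eval_hyb]
    rw [hyb_of_gen a ha (m + e) S _ _, map_zero]
    exact genI_le a (Nat.add_le_add_left hSc _) h
  have h0 : aeval (fun k => sps s S (g k)) (map ((eval s).comp
      (algebraMap (supported F (S : Set (Fin n))) (MvPolynomial (Fin n) F))) P) = 0 := by
    apply core_zero ha m e (fun k => sps s S (g k)) Cst (fun k => eval s (g k)) ?_ t ?_ ?_ _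
      (hP s Cst _)
    · show gen a _ _ = 0
      rw [← hmap]
      exact hzero
    · intro k hk
      apply sps_supported
      rw [(hCst k).1 hk]
      exact cut_supported S (g k)
    · intro k hk
      have h1 := hs2 k (Finset.mem_compl.2 hk)
      show gen a m (pderiv (t k) (sps s S (g k))) ≠ 0
      rw [pderiv_sps s (ht' k hk).1]
      exact h1
    · intro k hk l hl
      apply sps_mem_supported
      have h1 : t k ∈ (g k).vars := by
        by_contra hc
        apply (ht' k hk).2
        rw [pderiv_eq_zero_of_notMem_vars hc]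
        exact Ideal.zero_mem _
      have h2 : t k ∉ (g l).vars := by
        intro hc
        exact (ht' k hk).1 (hgg k l hl.symm (Finset.mem_inter.2 ⟨h1, hc⟩))
      refine supported_mono ?_ (mem_supported_vars (g l))
      intro i hi
      rw [Set.mem_compl_iff, Set.mem_singleton_iff]
      rintro rfl
      exact h2 hi
  apply hs1
  rw [← eval_sps s S]
  have h1 : sps s S (aeval g P) = 0 := by
    have : (sps s S : MvPolynomial (Fin n) F →+* MvPolynomial (Fin n) F) (aeval g P) = 0 := by
      rw [hmap]; exact h0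
    exact this
  rw [h1, map_zero]

include G in
theorem Hit.poly (ha : Function.Injective a) {S T : Finset (Fin n)} {c e : ℕ}
    (hSm : S.card < m) (hSc : S.card ≤ c) (g : Fin r → MvPolynomial (Fin n) F)
    (hg : ∀ k, Hit a m S (g k)) (hgg : ∀ k l, k ≠ l → (g k).vars ∩ (g l).vars ⊆ S)
    (hT : ∀ k, T ∩ (g k).vars ⊆ S)
    (P : MvPolynomial (Fin r) (supported F (S : Set (Fin n))))
    (hP : ∀ (y : supported F (S : Set (Fin n))) (s : Fin n → F) (Cst : Finset (Fin r))
      (κ : Fin r → F), Cheap e (csub Cst κ (map ((eval s).comp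
      (algebraMap (supported F (S : Set (Fin n))) (MvPolynomial (Fin n) F))) (P - C y)))) :
    Hit a (m + e + c) T (aeval g P) := by
  classical
  intro hmem
  have hW : aeval g P ∈ supported F ((S : Set (Fin n)) ∪ ⋃ k, ((g k).vars : Set (Fin n))) := by
    apply aeval_mem_of (S := S) _ (supported_mono Set.subset_union_left)
    intro k
    exact supported_mono ((Set.subset_iUnion (fun k => ((g k).vars : Set (Fin n))) k).trans
      Set.subset_union_right) (mem_supported_vars (g k))
  have hw : cut F T (aeval g P) ∈ supported F (S : Set (Fin n)) := by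
    refine supported_mono ?_ (cut_supported' T hW)
    rintro i ⟨hi | hi, hiT⟩
    · exact hi
    · obtain ⟨k, hk⟩ := Set.mem_iUnion.1 hi
      exact hT k (Finset.mem_inter.2 ⟨hiT, hk⟩)
  obtain ⟨y, hy⟩ : ∃ y : supported F (S : Set (Fin n)),
    (y : MvPolynomial (Fin n) F) = cut F T (aeval g P) := ⟨⟨_, hw⟩, rfl⟩
  have h1 : aeval g (P - C y) = aeval g P - cut F T (aeval g P) := by
    rw [map_sub, aeval_C, ← hy]; rfl
  have h2 := gate_zero G ha hSm hSc g hg hgg (P - C y) (hP y) (by rw [h1]; exact hmem)
  rw [h1, sub_eq_zero] at h2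
  exact h2

end core

end Pool.Agent.H530R2
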