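import Mathlib
import Pool.Agent.H530R2.Mul3
import Pool.Agent.H530R2.Nst10

/-!
Products and derivatives of read-once oblivious programs; programs with several passes.
-/

namespace Pool.Agent.H530R2

open Module Polynomial Matrix

section ro

variable {F : Type*} [Field F] {n : ℕ}

/-- Kronecker product of two programs -/
theorem IsRO.mul {σ : Equiv.Perm (Fin n)} {w w' : ℕ} {V : Set (Fin n)}
    {f g : MvPolynomial (Fin n) F} (hf : IsRO σ w V f) (hg : IsRO σ w' V g) :
    IsRO σ (w * w') V (f * g) := by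
  obtain ⟨N, u, v, hN, rfl⟩ := hf
  obtain ⟨N', u', v', hN', rfl⟩ := hg
  set e := (finProdFinEquiv : Fin w × Fin w' ≃ Fin (w * w')) with he
  refine ⟨fun i => Matrix.reindex e e (Matrix.kroneckerMap (· * ·) (N i) (N' i)),
    (fun x => u x.1 * u' x.2) ∘ e.symm, (fun x => v x.1 * v' x.2) ∘ e.symm, ?_, ?_⟩
  · intro i hi
    obtain ⟨M, hM⟩ := hN i hi
    obtain ⟨M', hM'⟩ := hN' i hi
    refine ⟨Matrix.reindex e e (Matrix.kroneckerMap (· * ·) M M'), ?_⟩
    ext a b
    simp only [Matrix.reindex_apply, Matrix.submatrix_apply, Matrix.map_apply, hM, hM',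
      Matrix.kroneckerMap_apply, map_mul]
  · have key : ∀ m, Pr (pv σ) (toSeq σ fun i =>
        Matrix.reindex e e (Matrix.kroneckerMap (· * ·) (N i) (N' i))) 0 m =
        Matrix.reindex e e (Matrix.kroneckerMap (· * ·) (Pr (pv σ) (toSeq σ N) 0 m)
          (Pr (pv σ) (toSeq σ N') 0 m) : Matrix _ _ (MvPolynomial (Fin n) F)) := by
      intro m
      induction m with
      | zero =>
        rw [Pr_zero, Pr_zero, Pr_zero]
        have h1 : Matrix.kroneckerMap (· * ·) (1 : Matrix (Fin w) (Fin w)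
            (MvPolynomial (Fin n) F)) (1 : Matrix (Fin w') (Fin w')
            (MvPolynomial (Fin n) F)) = 1 := Matrix.one_kronecker_one
        rw [h1]
        simp
      | succ m ih =>
        rw [Pr_succ, Pr_succ, Pr_succ, ih]
        have hNh : Nh (pv σ) (toSeq σ fun i =>
            Matrix.reindex e e (Matrix.kroneckerMap (· * ·) (N i) (N' i))) (0 + m) =
            Matrix.reindex e e (Matrix.kroneckerMap (· * ·) (Nh (pv σ) (toSeq σ N) (0 + m))
              (Nh (pv σ) (toSeq σ N') (0 + m)) : Matrix _ _ (MvPolynomial (Fin n) F)) := by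
          unfold Nh toSeq
          split_ifs with h
          · ext a b
            simp only [Matrix.reindex_apply, Matrix.submatrix_apply, Matrix.map_apply,
              Matrix.kroneckerMap_apply, map_mul]
          · rw [Matrix.map_one _ (map_zero _) (map_one _), Matrix.map_one _ (map_zero _)
              (map_one _), Matrix.map_one _ (map_zero _) (map_one _)]
            have h1 : Matrix.kroneckerMap (· * ·) (1 : Matrix (Fin w) (Fin w)
                (MvPolynomial (Fin n) F)) (1 : Matrix (Fin w') (Fin w')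
                (MvPolynomial (Fin n) F)) = 1 := Matrix.one_kronecker_one
            rw [h1]
            simp
        rw [hNh]
        simp only [Matrix.reindex_apply]
        rw [Matrix.submatrix_mul_equiv]
        congr 1
        exact (Matrix.mul_kronecker_mul _ _ _ _).symm
    unfold roVal
    rw [key n]
    simp only [dotProduct, Matrix.mulVec, Matrix.reindex_apply, Matrix.submatrix_apply, emb,
      Function.comp, Matrix.kroneckerMap_apply]
    rw [← Equiv.sum_comp e, Fintype.sum_prod_type, Finset.sum_mul_sum]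
    apply Finset.sum_congr rfl
    intro x _
    apply Finset.sum_congr rfl
    intro x' _
    rw [← Equiv.sum_comp e, Fintype.sum_prod_type]
    simp only [Equiv.symm_apply_apply]
    rw [mul_mul_mul_comm, Finset.sum_mul_sum, map_mul]
    congr 1
    apply Finset.sum_congr rfl
    intro y _
    apply Finset.sum_congr rfl
    intro y' _
    rw [map_mul]
    ring

/-- the derivative of a program -/
theorem IsRO.pderiv {σ : Equiv.Perm (Fin n)} {w : ℕ}
    {f : MvPolynomial (Fin n) F} (h : IsRO σ w Set.univ f) (i : Fin n) :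
    IsRO σ w Set.univ (MvPolynomial.pderiv i f) := by
  obtain ⟨N, u, v, hN, rfl⟩ := h
  set k : ℕ := (σ.symm i).val with hk
  have hkn : k < n := (σ.symm i).isLt
  have hσk : σ ⟨k, hkn⟩ = i := by simp [hk]
  set N' : Fin n → Matrix (Fin w) (Fin w) F[X] :=
    Function.update N i ((N i).map (fun p => Polynomial.derivative p)) with hN'
  have hne : ∀ m (hm : m < n), m ≠ k → σ ⟨m, hm⟩ ≠ i := by
    intro m hm hmk heq
    apply hmk
    rw [← hσk] at heq
    have := σ.injective heq
    simpa using this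
  have hNh : ∀ m, m ≠ k → (Nh (pv σ) (toSeq σ N') m : Matrix _ _ (MvPolynomial (Fin n) F)) =
      Nh (pv σ) (toSeq σ N) m := by
    intro m hm
    unfold Nh toSeq
    split_ifs with h
    · rw [hN', Function.update_of_ne (hne m h hm)]
    · rfl
  have hNh0 : ∀ m, m ≠ k → ∀ a b, MvPolynomial.pderiv i
      ((Nh (pv σ) (toSeq σ N) m : Matrix _ _ (MvPolynomial (Fin n) F)) a b) = 0 := by
    intro m hm a b
    unfold Nh toSeq
    rw [Matrix.map_apply]
    split_ifs with h
    · rw [Derivation.map_aeval, pv_mem_supported σ m h, MvPolynomial.pderiv_X_of_ne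
        (hne m h hm), smul_zero]
    · rw [Matrix.one_apply]
      split_ifs
      · rw [map_one, Derivation.map_one_eq_zero]
      · rw [map_zero, map_zero]
  have hNhk : ∀ a b, MvPolynomial.pderiv i
      ((Nh (pv σ) (toSeq σ N) k : Matrix _ _ (MvPolynomial (Fin n) F)) a b) =
      (Nh (pv σ) (toSeq σ N') k : Matrix _ _ (MvPolynomial (Fin n) F)) a b := by
    intro a b
    unfold Nh toSeq
    rw [Matrix.map_apply, Matrix.map_apply, dif_pos hkn, dif_pos hkn, Derivation.map_aeval,
      pv_mem_supported σ k hkn, hσk, MvPolynomial.pderiv_X_self, hN', Function.update_self,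
      Matrix.map_apply, smul_eq_mul, mul_one]
  have hPr : (Pr (pv σ) (toSeq σ N) 0 k : Matrix _ _ (MvPolynomial (Fin n) F)) =
      Pr (pv σ) (toSeq σ N') 0 k := by
    apply Pr_congr
    intro k' _ hk'
    have hk'n : k' < n := by omega
    unfold toSeq
    rw [dif_pos hk'n, dif_pos hk'n, hN', Function.update_of_ne (hne k' hk'n (by omega))]
  have key : ∀ m a b, MvPolynomial.pderiv i
      ((Pr (pv σ) (toSeq σ N) 0 m : Matrix _ _ (MvPolynomial (Fin n) F)) a b) =
      if k < m then (Pr (pv σ) (toSeq σ N') 0 m : Matrix _ _ (MvPolynomial (Fin n) F)) a b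
        else 0 := by
    intro m
    induction m with
    | zero =>
      intro a b
      rw [Pr_zero, if_neg (Nat.not_lt_zero _), Matrix.one_apply]
      split_ifs
      · rw [Derivation.map_one_eq_zero]
      · rw [map_zero]
    | succ m ih =>
      intro a b
      rw [Pr_succ, Pr_succ, zero_add, Matrix.mul_apply, Matrix.mul_apply, map_sum]
      simp only [MvPolynomial.pderiv_mul, ih]
      rcases lt_trichotomy m k with h | h | h
      · rw [if_neg (by omega)]
        apply Finset.sum_eq_zero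
        intro l _
        rw [if_neg (by omega), hNh0 m (by omega), zero_mul, mul_zero, add_zero]
      · subst h
        rw [if_pos (Nat.lt_succ_self _)]
        apply Finset.sum_congr rfl
        intro l _
        rw [if_neg (lt_irrefl _), zero_mul, zero_add, hNhk, hPr]
      · rw [if_pos (by omega)]
        apply Finset.sum_congr rfl
        intro l _
        rw [if_pos h, hNh0 m (by omega), mul_zero, add_zero, hNh m (by omega)]
  refine ⟨N', u, v, fun j hj => absurd (Set.mem_univ j) hj, ?_⟩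
  unfold roVal
  have hc : ∀ r : F, MvPolynomial.pderiv i (algebraMap F (MvPolynomial (Fin n) F) r) = 0 :=
    fun r => Derivation.map_algebraMap _ r
  simp only [dotProduct, Matrix.mulVec, emb, map_sum, MvPolynomial.pderiv_mul, key, if_pos hkn,
    hc, zero_mul, mul_zero, zero_add, add_zero]

/-- one program for several polynomials -/
theorem IsRO.joint {σ : Equiv.Perm (Fin n)} {w m : ℕ} {f : Fin m → MvPolynomial (Fin n) F}
    (h : ∀ i, IsRO σ w Set.univ (f i)) :
    ∃ (N : Fin n → Matrix (Fin (w * m)) (Fin (w * m)) F[X]) (u v : Fin m → Fin (w * m) → F),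
      ∀ i, f i = roVal σ N (u i) (v i) := by
  choose N u v hN hf using h
  set e := (finProdFinEquiv : Fin w × Fin m ≃ Fin (w * m)) with he
  refine ⟨fun k => Matrix.reindex e e (Matrix.blockDiagonal fun i => N i k),
    fun i => (fun x => if x.2 = i then u i x.1 else 0) ∘ e.symm,
    fun i => (fun x => if x.2 = i then v i x.1 else 0) ∘ e.symm, ?_⟩
  have key : ∀ q, Pr (pv σ) (toSeq σ fun k =>
      Matrix.reindex e e (Matrix.blockDiagonal fun i => N i k)) 0 q =
      Matrix.reindex e e (Matrix.blockDiagonal fun i => Pr (pv σ) (toSeq σ (N i)) 0 q :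
        Matrix _ _ (MvPolynomial (Fin n) F)) := by
    intro q
    induction q with
    | zero =>
      simp only [Pr_zero]
      have h1 : Matrix.blockDiagonal (fun _ : Fin m => (1 : Matrix (Fin w) (Fin w)
          (MvPolynomial (Fin n) F))) = 1 := Matrix.blockDiagonal_one
      rw [h1]
      simp
    | succ q ih =>
      rw [Pr_succ, ih]
      have hNh : Nh (pv σ) (toSeq σ fun k =>
          Matrix.reindex e e (Matrix.blockDiagonal fun i => N i k)) (0 + q) =
          Matrix.reindex e e (Matrix.blockDiagonal fun i => Nh (pv σ) (toSeq σ (N i)) (0 + q) :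
            Matrix _ _ (MvPolynomial (Fin n) F)) := by
        unfold Nh toSeq
        split_ifs with h
        · ext a b
          simp only [Matrix.reindex_apply, Matrix.submatrix_apply, Matrix.map_apply,
            Matrix.blockDiagonal_apply]
          split_ifs
          · rfl
          · rw [map_zero]
        · simp only [Matrix.map_one _ (map_zero _) (map_one _)]
          have h1 : Matrix.blockDiagonal (fun _ : Fin m => (1 : Matrix (Fin w) (Fin w)
              (MvPolynomial (Fin n) F))) = 1 := Matrix.blockDiagonal_one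
          rw [h1]
          simp
      rw [hNh]
      simp only [Matrix.reindex_apply, Pr_succ]
      rw [Matrix.submatrix_mul_equiv, ← Matrix.blockDiagonal_mul]
  intro i
  rw [hf i]
  unfold roVal
  rw [key n]
  simp only [dotProduct, Matrix.mulVec, Matrix.reindex_apply, Matrix.submatrix_apply, emb,
    Function.comp, Matrix.blockDiagonal_apply]
  rw [← Equiv.sum_comp e, Fintype.sum_prod_type]
  apply Finset.sum_congr rfl
  intro x _
  rw [Finset.sum_eq_single i]
  · simp only [Equiv.symm_apply_apply, if_true]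
    congr 1
    rw [← Equiv.sum_comp e, Fintype.sum_prod_type]
    apply Finset.sum_congr rfl
    intro y _
    rw [Finset.sum_eq_single i]
    · simp only [Equiv.symm_apply_apply, if_true]
    · intro j _ hj
      simp only [Equiv.symm_apply_apply]
      rw [if_neg (Ne.symm hj), zero_mul]
    · intro h; exact absurd (Finset.mem_univ _) h
  · intro j _ hj
    simp only [Equiv.symm_apply_apply, if_neg hj, map_zero, zero_mul]
  · intro h; exact absurd (Finset.mem_univ _) h

end ro

section sp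

/-- sums of at most `W` products -/
def SP {R : Type*} [CommRing R] (𝒜 ℬ : Set R) (W : ℕ) (f : R) : Prop :=
  ∃ (ι : Type) (_ : Fintype ι) (a b : ι → R), Fintype.card ι ≤ W ∧ (∀ i, a i ∈ 𝒜) ∧
    (∀ i, b i ∈ ℬ) ∧ f = ∑ i, a i * b i

variable {R : Type*} [CommRing R] {𝒜 ℬ 𝒜' ℬ' 𝒜'' ℬ'' : Set R} {W W' : ℕ} {f g : R}

theorem SP.mono (h : SP 𝒜 ℬ W f) (hW : W ≤ W') (h𝒜 : 𝒜 ⊆ 𝒜') (hℬ : ℬ ⊆ ℬ') : SP 𝒜' ℬ' W' f := by
  obtain ⟨ι, _, a, b, hc, ha, hb, rfl⟩ := h
  exact ⟨ι, _, a, b, hc.trans hW, fun i => h𝒜 (ha i), fun i => hℬ (hb i), rfl⟩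

theorem SP.zero : SP 𝒜 ℬ W 0 :=
  ⟨Empty, inferInstance, Empty.elim, Empty.elim, by simp, fun i => i.elim, fun i => i.elim,
    by simp⟩

theorem SP.one_term {a b : R} (ha : a ∈ 𝒜) (hb : b ∈ ℬ) (hW : 1 ≤ W) : SP 𝒜 ℬ W (a * b) :=
  ⟨Unit, inferInstance, fun _ => a, fun _ => b, by simpa using hW, fun _ => ha, fun _ => hb,
    by simp⟩

theorem SP.add (hf : SP 𝒜 ℬ W f) (hg : SP 𝒜 ℬ W' g) : SP 𝒜 ℬ (W + W') (f + g) := by
  obtain ⟨ι, _, a, b, hc, ha, hb, rfl⟩ := hf
  obtain ⟨ι', _, a', b', hc', ha', hb', rfl⟩ := hg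
  refine ⟨ι ⊕ ι', inferInstance, Sum.elim a a', Sum.elim b b', ?_, ?_, ?_, ?_⟩
  · rw [Fintype.card_sum]; omega
  · rintro (i | i)
    · exact ha i
    · exact ha' i
  · rintro (i | i)
    · exact hb i
    · exact hb' i
  · rw [Fintype.sum_sum_type]
    rfl

theorem SP.sum {κ : Type*} (s : Finset κ) (f : κ → R) (h : ∀ k ∈ s, SP 𝒜 ℬ W (f k)) :
    SP 𝒜 ℬ (s.card * W) (∑ k ∈ s, f k) := by
  classical
  induction s using Finset.induction_on with
  | empty => simp only [Finset.sum_empty]; exact SP.zero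
  | insert k s hk ih =>
    rw [Finset.sum_insert hk, Finset.card_insert_of_notMem hk, add_mul, one_mul, add_comm]
    exact (h k (Finset.mem_insert_self _ _)).add (ih fun k' hk' => h k'
      (Finset.mem_insert_of_mem hk')) |>.mono (by omega) le_rfl le_rfl

theorem SP.mul (hf : SP 𝒜 ℬ W f) (hg : SP 𝒜' ℬ' W' g)
    (h𝒜 : ∀ a ∈ 𝒜, ∀ a' ∈ 𝒜', a * a' ∈ 𝒜'') (hℬ : ∀ b ∈ ℬ, ∀ b' ∈ ℬ', b * b' ∈ ℬ'') :
    SP 𝒜'' ℬ'' (W * W') (f * g) := by
  obtain ⟨ι, _, a, b, hc, ha, hb, rfl⟩ := hf
  obtain ⟨ι', _, a', b', hc', ha', hb', rfl⟩ := hg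
  refine ⟨ι × ι', inferInstance, fun x => a x.1 * a' x.2, fun x => b x.1 * b' x.2, ?_,
    fun x => h𝒜 _ (ha _) _ (ha' _), fun x => hℬ _ (hb _) _ (hb' _), ?_⟩
  · rw [Fintype.card_prod]; exact Nat.mul_le_mul hc hc'
  · rw [Fintype.sum_prod_type, Finset.sum_mul_sum]
    apply Finset.sum_congr rfl
    intro i _
    apply Finset.sum_congr rfl
    intro j _
    ring

theorem SP.smul (hf : SP 𝒜 ℬ W f) (c : R) (h𝒜 : ∀ a ∈ 𝒜, c * a ∈ 𝒜) : SP 𝒜 ℬ W (c * f) := by
  obtain ⟨ι, _, a, b, hc, ha, hb, rfl⟩ := hf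
  refine ⟨ι, inferInstance, fun x => c * a x, b, hc, fun x => h𝒜 _ (ha _), hb, ?_⟩
  rw [Finset.mul_sum]
  apply Finset.sum_congr rfl
  intro i _
  ring

theorem SP.der {K : Type*} [CommRing K] [Algebra K R] (D : Derivation K R R) (hf : SP 𝒜 ℬ W f)
    (h𝒜 : ∀ a ∈ 𝒜, a ∈ 𝒜' ∧ D a ∈ 𝒜') (hℬ : ∀ b ∈ ℬ, b ∈ ℬ' ∧ D b ∈ ℬ') :
    SP 𝒜' ℬ' (2 * W) (D f) := by
  obtain ⟨ι, _, a, b, hc, ha, hb, rfl⟩ := hf
  refine ⟨ι ⊕ ι, inferInstance, Sum.elim (fun i => D (a i)) a, Sum.elim b (fun i => D (b i)), ?_,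
    ?_, ?_, ?_⟩
  · rw [Fintype.card_sum]; omega
  · rintro (i | i)
    · exact (h𝒜 _ (ha i)).2
    · exact (h𝒜 _ (ha i)).1
  · rintro (i | i)
    · exact (hℬ _ (hb i)).1
    · exact (hℬ _ (hb i)).2
  · rw [Fintype.sum_sum_type, map_sum, ← Finset.sum_add_distrib]
    apply Finset.sum_congr rfl
    intro i _
    simp only [Sum.elim_inl, Sum.elim_inr, Derivation.leibniz, smul_eq_mul]
    ring

/-- representation with exactly `W` terms -/
theorem SP.toFin (hf : SP 𝒜 ℬ W f) (h𝒜 : (0 : R) ∈ 𝒜) (hℬ : (0 : R) ∈ ℬ) :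
    ∃ a b : Fin W → R, (∀ i, a i ∈ 𝒜) ∧ (∀ i, b i ∈ ℬ) ∧ f = ∑ i, a i * b i := by
  classical
  obtain ⟨ι, _, a, b, hc, ha, hb, rfl⟩ := hf
  obtain ⟨e⟩ : Nonempty (ι ↪ Fin W) := by
    rw [Function.Embedding.nonempty_iff_card_le, Fintype.card_fin]; exact hc
  refine ⟨Function.extend e a 0, Function.extend e b 0, ?_, ?_, ?_⟩
  · intro i
    by_cases hi : ∃ x, e x = i
    · obtain ⟨x, rfl⟩ := hi
      rw [e.injective.extend_apply]; exact ha x
    · rw [Function.extend_apply' _ _ _ hi]; exact h𝒜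
  · intro i
    by_cases hi : ∃ x, e x = i
    · obtain ⟨x, rfl⟩ := hi
      rw [e.injective.extend_apply]; exact hb x
    · rw [Function.extend_apply' _ _ _ hi]; exact hℬ
  · symm
    rw [← Finset.sum_subset (Finset.subset_univ (Finset.univ.map e))]
    · rw [Finset.sum_map]
      apply Finset.sum_congr rfl
      intro x _
      rw [e.injective.extend_apply, e.injective.extend_apply]
    · intro i _ hi
      have hi' : ¬ ∃ x, e x = i := by
        rintro ⟨x, rfl⟩
        exact hi (Finset.mem_map_of_mem _ (Finset.mem_univ _))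
      rw [Function.extend_apply' _ _ _ hi', Function.extend_apply' _ _ _ hi']
      simp

end sp

section pass

variable {F : Type*} [Field F] {n : ℕ}

/-- polynomials computed by programs with several passes in the given orders -/
def Pass : List (Equiv.Perm (Fin n)) → ℕ → Set (MvPolynomial (Fin n) F)
  | [], _ => {f | ∃ y, f = MvPolynomial.C y}
  | σ :: L, W => {f | SP {g | IsRO σ W Set.univ g} (Pass L W) W f}

theorem Pass.zero (L : List (Equiv.Perm (Fin n))) (W : ℕ) :
    (0 : MvPolynomial (Fin n) F) ∈ Pass L W := by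
  cases L with
  | nil => exact ⟨0, (map_zero _).symm⟩
  | cons σ L => exact SP.zero

theorem Pass.mono {W W' : ℕ} (hW : W ≤ W') (L : List (Equiv.Perm (Fin n))) :
    (Pass L W : Set (MvPolynomial (Fin n) F)) ⊆ Pass L W' := by
  induction L with
  | nil => exact fun f hf => hf
  | cons σ L ih => exact fun f hf => SP.mono hf hW (fun g hg => IsRO.mono hW hg) ih

theorem Pass.const {W : ℕ} (hW : 1 ≤ W) (L : List (Equiv.Perm (Fin n))) (y : F) :
    (MvPolynomial.C y : MvPolynomial (Fin n) F) ∈ Pass L W := by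
  induction L with
  | nil => exact ⟨y, rfl⟩
  | cons σ L ih =>
    have h1 : (MvPolynomial.C y : MvPolynomial (Fin n) F) =
        MvPolynomial.C 1 * MvPolynomial.C y := by
      rw [← map_mul, one_mul]
    show SP _ _ _ _
    rw [h1]
    exact SP.one_term (IsRO.mono hW (isRO_const σ 1)) ih hW

theorem Pass.add {W W' : ℕ} {L : List (Equiv.Perm (Fin n))} {f g : MvPolynomial (Fin n) F}
    (hf : f ∈ Pass L W) (hg : g ∈ Pass L W') : f + g ∈ Pass L (W + W') := by
  cases L with
  | nil =>
    obtain ⟨y, rfl⟩ := hf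
    obtain ⟨z, rfl⟩ := hg
    exact ⟨y + z, (map_add _ _ _).symm⟩
  | cons σ L =>
    refine SP.add (SP.mono hf le_rfl ?_ ?_) (SP.mono hg le_rfl ?_ ?_)
    · exact fun g hg => IsRO.mono (Nat.le_add_right _ _) hg
    · exact Pass.mono (Nat.le_add_right _ _) L
    · exact fun g hg => IsRO.mono (Nat.le_add_left _ _) hg
    · exact Pass.mono (Nat.le_add_left _ _) L

theorem Pass.mul {W W' : ℕ} {L : List (Equiv.Perm (Fin n))} :
    ∀ f ∈ (Pass L W : Set (MvPolynomial (Fin n) F)), ∀ g ∈ (Pass L W' : Set (MvPolynomial (Fin n) F)),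
      f * g ∈ Pass L (W * W') := by
  induction L with
  | nil =>
    rintro f ⟨y, rfl⟩ g ⟨z, rfl⟩
    exact ⟨y * z, (map_mul _ _ _).symm⟩
  | cons σ L ih =>
    intro f hf g hg
    exact SP.mul hf hg (fun a ha a' ha' => IsRO.mul ha ha') ih

theorem Pass.pderiv {W : ℕ} {L : List (Equiv.Perm (Fin n))} (i : Fin n) :
    ∀ f ∈ (Pass L W : Set (MvPolynomial (Fin n) F)), MvPolynomial.pderiv i f ∈ Pass L (2 * W) := by
  induction L with
  | nil =>
    rintro f ⟨y, rfl⟩
    exact ⟨0, by rw [MvPolynomial.pderiv_C, map_zero]⟩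
  | cons σ L ih =>
    intro f hf
    refine SP.der _ hf ?_ ?_
    · intro a ha
      exact ⟨IsRO.mono (by omega) ha, IsRO.mono (by omega) (IsRO.pderiv ha i)⟩
    · intro b hb
      exact ⟨Pass.mono (by omega) L hb, ih b hb⟩

end pass

end Pool.Agent.H530R2
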