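import Mathlib
import Pool.Agent.H530R2.Mul4

/-!
Representations of words and of their minors by programs with several passes.
-/

namespace Pool.Agent.H530R2

open MvPolynomial Module

section rep

variable {F : Type*} [Field F] {n : ℕ}

/-- representations with coefficients in a subalgebra -/
def Rep (𝔸 : Subalgebra F (MvPolynomial (Fin n) F)) (L : List (Equiv.Perm (Fin n))) (W : ℕ)
    (f : MvPolynomial (Fin n) F) : Prop := SP (𝔸 : Set (MvPolynomial (Fin n) F)) (Pass L W) W f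

variable {𝔸 : Subalgebra F (MvPolynomial (Fin n) F)} {L : List (Equiv.Perm (Fin n))} {W W' : ℕ}
  {f g : MvPolynomial (Fin n) F}

theorem Rep.mono (h : Rep 𝔸 L W f) (hW : W ≤ W') : Rep 𝔸 L W' f :=
  SP.mono h hW le_rfl (Pass.mono hW L)

theorem Rep.zero : Rep 𝔸 L W 0 := SP.zero

theorem Rep.add (hf : Rep 𝔸 L W f) (hg : Rep 𝔸 L W' g) : Rep 𝔸 L (W + W') (f + g) :=
  SP.add (SP.mono hf le_rfl le_rfl (Pass.mono (Nat.le_add_right _ _) L))
    (SP.mono hg le_rfl le_rfl (Pass.mono (Nat.le_add_left _ _) L))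

theorem Rep.smul (hf : Rep 𝔸 L W f) {c : MvPolynomial (Fin n) F} (hc : c ∈ 𝔸) :
    Rep 𝔸 L W (c * f) :=
  SP.smul hf c fun _ ha => 𝔸.mul_mem hc ha

theorem Rep.neg (hf : Rep 𝔸 L W f) : Rep 𝔸 L W (-f) := by
  have := hf.smul (c := -1) (𝔸.neg_mem 𝔸.one_mem)
  rwa [neg_one_mul] at this

theorem Rep.mul (hf : Rep 𝔸 L W f) (hg : Rep 𝔸 L W' g) : Rep 𝔸 L (W * W') (f * g) :=
  SP.mul hf hg (fun _ ha _ hb => 𝔸.mul_mem ha hb) Pass.mul

theorem Rep.pderiv (hf : Rep 𝔸 L W f) (k : Fin n)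
    (h𝔸 : ∀ a ∈ 𝔸, MvPolynomial.pderiv k a ∈ 𝔸) :
    Rep 𝔸 L (2 * W) (MvPolynomial.pderiv k f) :=
  SP.der _ hf (fun a ha => ⟨ha, h𝔸 a ha⟩)
    (fun b hb => ⟨Pass.mono (by omega) L hb, Pass.pderiv k b hb⟩)

theorem Rep.ofMem (hW : 1 ≤ W) (hf : f ∈ (Pass L W : Set (MvPolynomial (Fin n) F))) :
    Rep 𝔸 L W f := by
  have := SP.one_term (𝒜 := (𝔸 : Set (MvPolynomial (Fin n) F))) (ℬ := Pass L W) (a := 1)
    𝔸.one_mem hf hW
  rwa [one_mul] at this

theorem Rep.one (hW : 1 ≤ W) : Rep 𝔸 L W 1 := by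
  have := Rep.ofMem (𝔸 := 𝔸) hW (Pass.const hW L (1 : F))
  rwa [map_one] at this

theorem Rep.sum {κ : Type*} (s : Finset κ) (f : κ → MvPolynomial (Fin n) F)
    (h : ∀ k ∈ s, Rep 𝔸 L W (f k)) (hs : s.card ≤ W') : Rep 𝔸 L (W' * W) (∑ k ∈ s, f k) := by
  rcases Nat.eq_zero_or_pos W' with h0 | h0
  · have : s = ∅ := Finset.card_eq_zero.1 (by omega)
    subst this
    rw [Finset.sum_empty]
    exact Rep.zero
  · have h1 := SP.sum (𝒜 := (𝔸 : Set (MvPolynomial (Fin n) F))) (ℬ := Pass L W) s f h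
    exact h1.mono (Nat.mul_le_mul_right _ hs) le_rfl
      (Pass.mono (Nat.le_mul_of_pos_left _ h0) L)

theorem Rep.prod {κ : Type*} (s : Finset κ) (f : κ → MvPolynomial (Fin n) F)
    (h : ∀ k ∈ s, Rep 𝔸 L W (f k)) : Rep 𝔸 L (W ^ s.card) (∏ k ∈ s, f k) := by
  classical
  induction s using Finset.induction_on with
  | empty => rw [Finset.prod_empty, Finset.card_empty, pow_zero]; exact Rep.one le_rfl
  | insert k s hk ih =>
    rw [Finset.prod_insert hk, Finset.card_insert_of_notMem hk, pow_succ, mul_comm]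
    rw [mul_comm]
    have h1 := (h k (Finset.mem_insert_self _ _)).mul
      (ih fun k' hk' => h k' (Finset.mem_insert_of_mem hk'))
    rwa [mul_comm (W ^ s.card) W]

/-- representation of a determinant -/
theorem Rep.det {ρ Q : ℕ} (hρ : ρ ≤ Q) (hW : 1 ≤ W)
    {M : Matrix (Fin ρ) (Fin ρ) (MvPolynomial (Fin n) F)} (h : ∀ i j, Rep 𝔸 L W (M i j)) :
    Rep 𝔸 L (Q.factorial * W ^ Q) M.det := by
  classical
  rw [Matrix.det_apply']
  refine Rep.sum _ _ ?_ ?_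
  · intro τ _
    refine Rep.smul ?_ (𝔸.intCast_mem _)
    refine (Rep.prod _ _ fun i _ => h _ _).mono ?_
    rw [Finset.card_univ, Fintype.card_fin]
    exact Nat.pow_le_pow_right hW hρ
  · rw [Finset.card_univ, Fintype.card_perm, Fintype.card_fin]
    exact Nat.factorial_le hρ

variable {ι : Type} [Fintype ι] {Q ρ₀ : ℕ}

theorem det_mem' {ρ : ℕ} {M : Matrix (Fin ρ) (Fin ρ) (MvPolynomial (Fin n) F)}
    (h : ∀ i j, M i j ∈ 𝔸) : M.det ∈ 𝔸 := by
  classical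
  rw [Matrix.det_apply']
  exact Subalgebra.sum_mem _ fun τ _ => Subalgebra.mul_mem _ (Subalgebra.intCast_mem _ _)
    (Subalgebra.prod_mem _ fun i _ => h _ _)

theorem adj_mem' {ρ : ℕ} {M : Matrix (Fin ρ) (Fin ρ) (MvPolynomial (Fin n) F)}
    (h : ∀ i j, M i j ∈ 𝔸) (i j : Fin ρ) : M.adjugate i j ∈ 𝔸 := by
  classical
  rw [Matrix.adjugate_apply]
  apply det_mem'
  intro a b
  rw [Matrix.updateRow_apply]
  split_ifs
  · rw [Pi.single_apply]
    split_ifs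
    · exact 𝔸.one_mem
    · exact 𝔸.zero_mem
  · exact h a b

/-- representation of words -/
theorem Rep.word {J : ι → MvPolynomial (Fin n) F} {κ : Fin ρ₀ → Fin n} {g : Fin ρ₀ → ι}
    {S : Finset (Fin n)} {P : Fin Q → MvPolynomial (Fin n) F} (hκ : ∀ q, κ q ∈ S)
    (hJ : ∀ k ∈ S, ∀ i, MvPolynomial.pderiv k (J i) ∈ 𝔸)
    (h𝔸 : ∀ k ∈ S, ∀ a ∈ 𝔸, MvPolynomial.pderiv k a ∈ 𝔸) (hρ₀ : ρ₀ ≤ Fintype.card ι)
    (hW : 1 ≤ W) (hP : ∀ i, P i ∈ (Pass L W : Set (MvPolynomial (Fin n) F))) {q : ℕ}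
    {u : Fin Q → MvPolynomial (Fin n) F} (h : Wd (clam J κ g) S P q u) (i : Fin Q) :
    Rep 𝔸 L (((1 + Fintype.card ι) * 2) ^ q * W) (u i) := by
  classical
  induction h with
  | base q =>
    refine (Rep.ofMem hW (hP i)).mono ?_
    exact Nat.le_mul_of_pos_left _ (by positivity)
  | step q k u hk _ ih =>
    show Rep 𝔸 L (((1 + Fintype.card ι) * 2) ^ (q + 1) * W) (fld (clam J κ g k) (u i))
    rw [fld_clam]
    have hent : ∀ q l, (Matrix.of fun q l => MvPolynomial.pderiv (κ q) (J (g l))) q l ∈ 𝔸 :=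
      fun q l => hJ _ (hκ q) _
    have hμ : cmu J κ g ∈ 𝔸 := det_mem' hent
    have hm : ∀ p, cmm J κ g k p ∈ 𝔸 := by
      intro p
      unfold cmm Matrix.vecMul dotProduct
      exact Subalgebra.sum_mem _ fun l _ => Subalgebra.mul_mem _ (hJ k hk _)
        (adj_mem' hent _ _)
    have h1 : ∀ k' ∈ S, Rep 𝔸 L (2 * (((1 + Fintype.card ι) * 2) ^ q * W))
        (MvPolynomial.pderiv k' (u i)) := fun k' hk' => ih.pderiv k' (h𝔸 k' hk')
    have h2 : Rep 𝔸 L (Fintype.card ι * (2 * (((1 + Fintype.card ι) * 2) ^ q * W)))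
        (∑ p, cmm J κ g k p * MvPolynomial.pderiv (κ p) (u i)) := by
      refine Rep.sum _ _ (fun p _ => (h1 _ (hκ p)).smul (hm p)) ?_
      rw [Finset.card_univ, Fintype.card_fin]
      exact hρ₀
    have h3 := ((h1 k hk).smul hμ).add h2.neg
    rw [← sub_eq_add_neg] at h3
    refine h3.mono (le_of_eq ?_)
    ring

end rep

end Pool.Agent.H530R2
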