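import Mathlib
import Pool.Agent.H530R2.Mul5

/-!
The lossless step for programs with several passes.
-/

namespace Pool.Agent.H530R2

open MvPolynomial Module

section transfer

variable {F : Type*} [Field F] {n : ℕ} {ι : Type} [Fintype ι] {Q : ℕ}

theorem kil_transfer {J J' : ι → MvPolynomial (Fin n) F} {S : Finset (Fin n)}
    (Φ : (ι → FractionRing (MvPolynomial (Fin n) F)) →ₗ[FractionRing (MvPolynomial (Fin n) F)]
      (ι → FractionRing (MvPolynomial (Fin n) F)))
    (hΦ : ∀ k ∈ S, Φ (dv J k) = dv J' k) {γ : Fin n → MvPolynomial (Fin n) F}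
    (h : Kil S J γ) : Kil S J' γ := by
  refine ⟨h.1, ?_⟩
  have h1 : ∀ i, ∑ k, γ k * pderiv k (J i) = 0 := h.2
  rw [rel_iff] at h1
  show ∀ i, ∑ k, γ k * pderiv k (J' i) = 0
  rw [rel_iff]
  have h2 := congrArg Φ h1
  rw [map_zero, map_sum] at h2
  rw [← h2]
  apply Finset.sum_congr rfl
  intro k _
  rw [LinearMap.map_smul]
  by_cases hk : k ∈ S
  · rw [hΦ k hk]
  · rw [h.1 k hk, map_zero, zero_smul, zero_smul]

theorem cl_transfer {J J' : ι → MvPolynomial (Fin n) F} {S : Finset (Fin n)}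
    (Φ : (ι → FractionRing (MvPolynomial (Fin n) F)) →ₗ[FractionRing (MvPolynomial (Fin n) F)]
      (ι → FractionRing (MvPolynomial (Fin n) F)))
    (hΦ : ∀ k ∈ S, Φ (dv J k) = dv J' k) {P u : Fin Q → MvPolynomial (Fin n) F}
    (h : Cl S J P u) : Cl S J' P u := by
  induction h with
  | base => exact Cl.base
  | der γ u hγ _ ih => exact Cl.der γ u (kil_transfer Φ hΦ hγ) ih

theorem csp_transfer {J J' : ι → MvPolynomial (Fin n) F} {S : Finset (Fin n)}
    (Φ Ψ : (ι → FractionRing (MvPolynomial (Fin n) F)) →ₗ[FractionRing (MvPolynomial (Fin n) F)]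
      (ι → FractionRing (MvPolynomial (Fin n) F)))
    (hΦ : ∀ k ∈ S, Φ (dv J k) = dv J' k) (hΨ : ∀ k ∈ S, Ψ (dv J' k) = dv J k)
    (P : Fin Q → MvPolynomial (Fin n) F) : csp S J P = csp S J' P := by
  unfold csp
  congr 2
  ext u
  exact ⟨fun h => cl_transfer Φ hΦ h, fun h => cl_transfer Ψ hΨ h⟩

omit [Fintype ι] in
theorem sp_transfer {J J' : ι → MvPolynomial (Fin n) F} {S : Finset (Fin n)}
    (Φ : (ι → FractionRing (MvPolynomial (Fin n) F)) →ₗ[FractionRing (MvPolynomial (Fin n) F)]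
      (ι → FractionRing (MvPolynomial (Fin n) F)))
    (hΦ : ∀ k ∈ S, Φ (dv J k) = dv J' k) : sp S J' = (sp S J).map Φ := by
  unfold sp
  rw [Submodule.map_span, ← Set.image_comp]
  congr 1
  apply Set.image_congr
  intro k hk
  exact (hΦ k (by exact_mod_cast hk)).symm

end transfer

section step

variable {F : Type*} [Field F] {n : ℕ} {ι : Type} [Fintype ι] {Q : ℕ}

/-- the lossless step -/
theorem VanM.lossless_step (V : VanM F n) {j : ℕ} {Z : Finset (Fin n)} {i0 : Fin n}
    (hi0 : i0 ∉ Z) {S : Finset (Fin n)} (hS : S ⊆ Z) {J : ι → MvPolynomial (Fin n) F}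
    {E P : Fin Q → MvPolynomial (Fin n) F} (hB : dv J i0 ∈ sp S J)
    (hE : ∀ q, Ctrl ((insert i0 S : Finset (Fin n)) : Set (Fin n)) J (E q))
    (hcr : csp (insert i0 S) J P = csp S J P)
    (hf : ∑ q, E q * P q ∈ V.I j Z)
    {ρ₀ : ℕ} {κ : Fin ρ₀ → Fin n} {g : Fin ρ₀ → ι} (hκ : ∀ q, κ q ∈ S)
    (hrel : ∀ k, dv J k ∈ sp S J → ∀ i, cmu J κ g * pderiv k (J i) =
        ∑ p, cmm J κ g k p * pderiv (κ p) (J i))
    {ρ : ℕ} {u : Fin ρ → Fin Q → MvPolynomial (Fin n) F} {g' : Fin ρ → Fin Q}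
    (hu : ∀ l, Cl S J P (u l))
    (hspan : ∀ z : Fin Q → MvPolynomial (Fin n) F, frv z ∈ csp S J P →
          ∃ c : Fin ρ → MvPolynomial (Fin n) F, ∀ i,
            (Matrix.of fun i l => u i (g' l)).det * z i = ∑ l, c l * u l i)
    (hμ : cmu J κ g ∉ V.I j Z) (hΔ : (Matrix.of fun i l => u i (g' l)).det ∉ V.I j Z) :
    ∑ q, E q * P q ∈ V.I j (insert i0 Z) := by
  classical
  set Δ := (Matrix.of fun i l => u i (g' l)).det with hΔdef
  set U : Fin (ρ + 1) → Fin Q → MvPolynomial (Fin n) F := Fin.cons P u with hU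
  have hUcl : ∀ l, Cl S J P (U l) := by
    intro l
    refine Fin.cases ?_ (fun l => ?_) l
    · exact Cl.base
    · exact hu l
  have hkil : Kil (insert i0 S) J (clam J κ g i0) := by
    refine ⟨?_, ?_⟩
    · intro l hl
      rw [Finset.mem_insert, not_or] at hl
      unfold clam
      rw [if_neg hl.1, zero_sub, neg_eq_zero]
      apply Finset.sum_eq_zero
      intro p _
      rw [if_neg]
      rintro rfl
      exact hl.2 (hκ p)
    · intro i
      rw [fld_clam, hrel i0 hB i, sub_self]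
  have hE0 : ∀ q, fld (clam J κ g i0) (E q) = 0 := fun q => fld_ctrl le_rfl (hE q) hkil
  have hE' : ∀ q γ, Kil S J γ → fld γ (E q) = 0 := by
    intro q γ hγ
    exact fld_ctrl le_rfl (hE q) (hγ.mono (Finset.subset_insert _ _))
  have hz : ∀ l, ∃ c : Fin ρ → MvPolynomial (Fin n) F, ∀ i,
      Δ * fld (clam J κ g i0) (U l i) = ∑ l', c l' * u l' i := by
    intro l
    refine hspan (fun i => fld (clam J κ g i0) (U l i)) ?_
    rw [← hcr]
    refine Submodule.subset_span ⟨_, ?_, rfl⟩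
    exact Cl.der _ _ hkil ((hUcl l).mono (Finset.subset_insert _ _))
  choose c hc using hz
  have hmem : ∀ l, ∑ q, E q * U l q ∈ V.I j Z := fun l => V.cl_mem hS hE' hf (hUcl l)
  have hprime := V.prime j Z
  have hmul : Δ * cmu J κ g ∉ V.I j Z := by
    intro h
    rcases hprime.mem_or_mem h with h | h
    · exact hΔ h
    · exact hμ h
  have hpde : ∀ l, (Δ * cmu J κ g) * pderiv i0 (∑ q, E q * U l q) =
      ∑ p, (Δ * cmm J κ g i0 p) * pderiv (κ p) (∑ q, E q * U l q) +
        ∑ l', (Fin.cons 0 (c l) : Fin (ρ + 1) → MvPolynomial (Fin n) F) l' *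
          (∑ q, E q * U l' q) := by
    intro l
    have h1 : Δ * fld (clam J κ g i0) (∑ q, E q * U l q) =
        ∑ l', c l l' * ∑ q, E q * u l' q := by
      rw [fld_sum, Finset.mul_sum]
      have h2 : ∀ q, Δ * fld (clam J κ g i0) (E q * U l q) =
          ∑ l', c l l' * (E q * u l' q) := by
        intro q
        rw [fld_mul, hE0 q, zero_mul, zero_add, mul_left_comm, hc l q, Finset.mul_sum]
        apply Finset.sum_congr rfl
        intro l' _
        ring
      simp only [h2]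
      rw [Finset.sum_comm]
      apply Finset.sum_congr rfl
      intro l' _
      rw [Finset.mul_sum]
    rw [Fin.sum_univ_succ]
    simp only [Fin.cons_zero, Fin.cons_succ, zero_mul, zero_add]
    have h3 : ∀ l' : Fin ρ, U l'.succ = u l' := fun l' => rfl
    simp only [h3]
    rw [← h1, fld_clam, mul_sub, Finset.mul_sum]
    simp only [mul_assoc]
    ring
  have := V.lossless j Z i0 hi0 ρ₀ κ (fun p => hS (hκ p)) (ρ + 1)
    (fun l => ∑ q, E q * U l q) (Δ * cmu J κ g) (fun p => Δ * cmm J κ g i0 p)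
    (fun l => Fin.cons 0 (c l)) hpde hmem hmul 0
  exact this

end step

section ring

variable {F : Type*} [Field F] {n : ℕ} {w : ℕ}

/-- the coefficient ring of the words -/
noncomputable def wring (σ : Equiv.Perm (Fin n)) (N : ℕ → Matrix (Fin w) (Fin w) (Polynomial F))
    (t b' : ℕ) : Subalgebra F (MvPolynomial (Fin n) F) :=
  Algebra.adjoin F (Set.range (en σ N (t + 1) (b' - 1 - (t + 1))) ∪
    X '' {k : Fin n | k ∈ Zs σ (t + 1) ∨ k ∉ Zs σ (b' - 1)}) ⊓
      supported F (Zs σ b' : Set (Fin n))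

theorem wring_pderiv (σ : Equiv.Perm (Fin n)) (N : ℕ → Matrix (Fin w) (Fin w) (Polynomial F))
    (t b' : ℕ) {k : Fin n} (hk : k ∈ Zs σ (t + 1)) (x : MvPolynomial (Fin n) F)
    (hx : x ∈ wring σ N t b') : pderiv k x ∈ wring σ N t b' := by
  refine ⟨?_, pderiv_mem_supported k hx.2⟩
  refine pderiv_mem_of_adjoin k (fun x hx => Algebra.subset_adjoin hx) ?_ hx.1
  rintro x (⟨i, rfl⟩ | ⟨l, _, rfl⟩)
  · rw [pderiv_en_zero σ N _ _ _ hk]
    exact Subalgebra.zero_mem _
  · exact pderiv_X_mem _ _ _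

theorem wring_ctrl (σ : Equiv.Perm (Fin n)) (N : ℕ → Matrix (Fin w) (Fin w) (Polynomial F))
    (t b' : ℕ) {x : MvPolynomial (Fin n) F} (hx : x ∈ wring σ N t b') :
    Ctrl ((Zs σ (b' - 1) \ Zs σ (t + 1) : Finset (Fin n)) : Set (Fin n))
      (en σ N (t + 1) (b' - 1 - (t + 1))) x := by
  refine (ctrl_of_adjoin hx.1).mono ?_
  intro k hk
  rw [Finset.mem_coe, Finset.mem_sdiff] at hk
  simp only [Set.mem_compl_iff, Set.mem_ofPred_eq, not_or, not_not]
  exact ⟨hk.2, hk.1⟩

theorem wring_en (σ : Equiv.Perm (Fin n)) (N : ℕ → Matrix (Fin w) (Fin w) (Polynomial F))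
    {a' t b' : ℕ} (hat : a' ≤ t) (htb : t + 1 < b') {k : Fin n} (hk : k ∈ Zs σ (t + 1))
    (i : Fin w × Fin w) : pderiv k (en σ N a' (b' - a') i) ∈ wring σ N t b' := by
  have hsplit3 : b' - a' = (t + 1 - a') + (b' - (t + 1)) := by omega
  have hat1 : a' + (t + 1 - a') = t + 1 := by omega
  have hab' : a' + (b' - a') = b' := by omega
  constructor
  · have hκ' : k ∈ Zs σ (a' + (t + 1 - a')) := by rwa [hat1]
    rw [hsplit3, pderiv_en_split (F := F) σ N a' (t + 1 - a') (b' - (t + 1)) _ hκ']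
    refine Subalgebra.sum_mem _ fun l' _ => Subalgebra.mul_mem _ ?_ ?_
    · have h3 : MvPolynomial.pderiv k (en (F := F) σ N a' (t + 1 - a')
          (i.1, l')) ∈ MvPolynomial.supported F (Zs σ (t + 1) : Set (Fin n)) := by
        apply pderiv_mem_supported
        have := en_supp (F := F) σ N a' (t + 1 - a') (i.1, l')
        rwa [hat1] at this
      refine Algebra.adjoin_mono ?_ h3
      refine (Set.image_mono ?_).trans Set.subset_union_right
      intro k hk
      exact Or.inl (by exact_mod_cast hk)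
    · rw [hat1]
      have h4 : b' - (t + 1) = (b' - 1 - (t + 1)) + 1 := by omega
      rw [h4]
      refine Algebra.adjoin_mono ?_ (en_split_left (F := F) σ N (t + 1)
        (b' - 1 - (t + 1)) 1 (l', i.2))
      apply Set.union_subset_union_right
      apply Set.image_mono
      intro k hk
      right
      have h5 : t + 1 + (b' - 1 - (t + 1)) = b' - 1 := by omega
      rwa [h5] at hk
  · apply pderiv_mem_supported
    have := en_supp (F := F) σ N a' (b' - a') i
    rwa [hab'] at this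

end ring

section phi

variable {F : Type*} [Field F] {n : ℕ} {w : ℕ}

/-- recovering the derivatives at an earlier time with the same rank -/
theorem exists_phi (σ : Equiv.Perm (Fin n)) (N : ℕ → Matrix (Fin w) (Fin w) (Polynomial F))
    {a' t b' b : ℕ} (hat : a' ≤ t) (htb : t + 1 ≤ b') (hb : b' ≤ b)
    (hr : rk (pv σ : ℕ → MvPolynomial (Fin n) F) N (t + 1) (b' - (t + 1)) =
      rk (pv σ : ℕ → MvPolynomial (Fin n) F) N (t + 1) (b - (t + 1))) :
    ∃ Φ : (Fin w × Fin w → FractionRing (MvPolynomial (Fin n) F)) →ₗ[FractionRing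
      (MvPolynomial (Fin n) F)] (Fin w × Fin w → FractionRing (MvPolynomial (Fin n) F)),
      ∀ k ∈ Zs σ (t + 1), Φ (dv (en (F := F) σ N a' (b - a')) k) =
        dv (en (F := F) σ N a' (b' - a')) k := by
  classical
  have hsplit : b - a' = (t + 1 - a') + (b - (t + 1)) := by omega
  have hat1 : a' + (t + 1 - a') = t + 1 := by omega
  have hsplit2 : b - (t + 1) = (b' - (t + 1)) + (b - b') := by omega
  have htb' : t + 1 + (b' - (t + 1)) = b' := by omega
  have hsplit3 : b' - a' = (t + 1 - a') + (b' - (t + 1)) := by omega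
  obtain ⟨G, hG⟩ := exists_right_factor
    (PrK (pv σ : ℕ → MvPolynomial (Fin n) F) N (t + 1) (b' - (t + 1)))
    (PrK (pv σ : ℕ → MvPolynomial (Fin n) F) N b' (b - b')) (by
      have h1 := PrK_add (pv σ : ℕ → MvPolynomial (Fin n) F) N (t + 1)
        (b' - (t + 1)) (b - b')
      rw [← hsplit2, htb'] at h1
      rw [← h1, ← rk_eq, ← rk_eq, hr])
  refine ⟨mulR G, fun k hk => ?_⟩
  have hk' : k ∈ Zs σ (a' + (t + 1 - a')) := by rwa [hat1]
  have h1 := dv_en_split (F := F) σ N a' (t + 1 - a') (b - (t + 1)) hk'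
  have h2 := dv_en_split (F := F) σ N a' (t + 1 - a') (b' - (t + 1)) hk'
  rw [← hsplit, hat1] at h1
  rw [← hsplit3, hat1] at h2
  rw [h1, h2]
  have h3 : PrK (pv σ : ℕ → MvPolynomial (Fin n) F) N (t + 1) (b - (t + 1)) * G =
      PrK (pv σ : ℕ → MvPolynomial (Fin n) F) N (t + 1) (b' - (t + 1)) := by
    have h4 := PrK_add (pv σ : ℕ → MvPolynomial (Fin n) F) N (t + 1)
      (b' - (t + 1)) (b - b')
    rw [← hsplit2, htb'] at h4
    rw [h4]
    exact hG
  funext q
  have h5 : ∀ l, (PrK (pv σ : ℕ → MvPolynomial (Fin n) F) N (t + 1) (b' - (t + 1)))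
      l q.2 = ∑ l', (PrK (pv σ : ℕ → MvPolynomial (Fin n) F) N (t + 1)
        (b - (t + 1))) l l' * G l' q.2 := by
    intro l
    rw [← h3, Matrix.mul_apply]
  simp only [mulR, LinearMap.coe_mk, AddHom.coe_mk]
  have h6 : ∀ l, ((Pr (pv σ : ℕ → MvPolynomial (Fin n) F) N (t + 1)
      (b' - (t + 1))).map (algebraMap (MvPolynomial (Fin n) F)
        (FractionRing (MvPolynomial (Fin n) F)))) l q.2 =
      ∑ l', ((Pr (pv σ : ℕ → MvPolynomial (Fin n) F) N (t + 1)
      (b - (t + 1))).map (algebraMap (MvPolynomial (Fin n) F)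
        (FractionRing (MvPolynomial (Fin n) F)))) l l' * G l' q.2 := h5
  simp only [h6, Finset.sum_mul, Finset.mul_sum]
  rw [Finset.sum_comm]
  apply Finset.sum_congr rfl
  intro l _
  apply Finset.sum_congr rfl
  intro l' _
  ring

end phi

end Pool.Agent.H530R2
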