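import Mathlib
import Pool.Agent.H530R2.Mul6

/-!
The decoupling theorem with coefficients computed by programs with several passes.
-/

namespace Pool.Agent.H530R2

open MvPolynomial Module

universe v

/-- combinations of programs with `c` passes with coefficients in the free variables vanish if
they belong to the ideals -/
def HRel (F : Type v) [Field F] (c : ℕ) : Prop :=
  ∀ Q W : ℕ, ∃ e : ℕ, ∀ (n : ℕ) (V : VanM F n) (L : List (Equiv.Perm (Fin n))), L.length = c →
    ∀ (Y : Finset (Fin n)) (E P : Fin Q → MvPolynomial (Fin n) F),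
      (∀ q, E q ∈ supported F (Y : Set (Fin n))) → (∀ q, P q ∈ Pass L W) →
      ∑ q, E q * P q ∈ V.I e Y → ∑ q, E q * P q = 0

/-- the decoupling statement -/
def DecM (F : Type v) [Field F] (c w s : ℕ) : Prop :=
  ∀ Q W : ℕ, ∃ e : ℕ, ∀ (n : ℕ) (V : VanM F n) (L : List (Equiv.Perm (Fin n))), L.length = c →
    ∀ (σ : Equiv.Perm (Fin n)) (N : ℕ → Matrix (Fin w) (Fin w) (Polynomial F))
      (Y : Finset (Fin n)) (a' b : ℕ), a' ≤ b → b ≤ n →
      (a' = b ∨ w + 1 ≤ rk (pv σ : ℕ → MvPolynomial (Fin n) F) N a' (b - a') + s) →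
      ∀ (E P : Fin Q → MvPolynomial (Fin n) F),
      (∀ q, Ctrl (((Zs σ b \ Zs σ a') \ Y : Finset (Fin n)) : Set (Fin n))
        (en σ N a' (b - a')) (E q)) →
      (∀ q, P q ∈ Pass L W) → ∀ j, ∑ q, E q * P q ∈ V.I (j + e) (Y ∪ Zs σ a') →
      ∑ q, E q * P q ∈ V.I j (Y ∪ Zs σ b)

variable {F : Type v} [Field F]

theorem HRel.zero : HRel F 0 := by
  intro Q W
  refine ⟨0, ?_⟩
  intro n V L hL Y E P hE hP h
  have hL' : L = [] := List.length_eq_zero_iff.1 hL
  subst hL'
  refine V.supp 0 Y _ ?_ h
  refine Subalgebra.sum_mem _ fun q _ => Subalgebra.mul_mem _ (hE q) ?_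
  obtain ⟨y, hy⟩ := hP q
  rw [hy]
  exact Subalgebra.algebraMap_mem _ _

theorem DecM.zero (c w : ℕ) : DecM F c w 0 := by
  intro Q W
  refine ⟨0, ?_⟩
  intro n V L hL σ N Y a' b hab hbn hor E P hE hP j h0
  rcases hor with rfl | h
  · exact h0
  · exfalso
    have h2 : rk (pv σ : ℕ → MvPolynomial (Fin n) F) N a' (b - a') ≤ w := by
      rw [rk_eq]
      refine (Matrix.rank_le_card_width _).trans ?_
      rw [Fintype.card_fin]
    omega

/-- represented elements of the ideals vanish -/
theorem rep_zero {n w : ℕ} (V : VanM F n) {L : List (Equiv.Perm (Fin n))}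
    {σ : Equiv.Perm (Fin n)} {N : ℕ → Matrix (Fin w) (Fin w) (Polynomial F)}
    {Y : Finset (Fin n)} {t b' : ℕ} (htb : t + 1 < b') (hb'n : b' ≤ n) {M e e' : ℕ}
    (hdec : ∀ (E P : Fin M → MvPolynomial (Fin n) F),
      (∀ q, Ctrl (((Zs σ (b' - 1) \ Zs σ (t + 1)) \ Y : Finset (Fin n)) : Set (Fin n))
        (en σ N (t + 1) (b' - 1 - (t + 1))) (E q)) →
      (∀ q, P q ∈ Pass L M) → ∀ j, ∑ q, E q * P q ∈ V.I (j + e) (Y ∪ Zs σ (t + 1)) →
      ∑ q, E q * P q ∈ V.I j (Y ∪ Zs σ (b' - 1)))
    (hH : ∀ (Y : Finset (Fin n)) (E P : Fin M → MvPolynomial (Fin n) F),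
      (∀ q, E q ∈ supported F (Y : Set (Fin n))) → (∀ q, P q ∈ Pass L M) →
      ∑ q, E q * P q ∈ V.I e' Y → ∑ q, E q * P q = 0)
    {x : MvPolynomial (Fin n) F} (hx : Rep (wring σ N t b') L M x)
    (hmem : x ∈ V.I (e' + 1 + e + 1) (Y ∪ Zs σ t)) : x = 0 := by
  classical
  have htn : t < n := by omega
  have hb'n' : b' - 1 < n := by omega
  obtain ⟨c, p, hc, hp, rfl⟩ := SP.toFin hx (Subalgebra.zero_mem _) (Pass.zero L M)
  have h1 : ∑ q, c q * p q ∈ V.I (e' + 1 + e) (Y ∪ Zs σ (t + 1)) := by
    rw [Zs_succ σ htn, Finset.union_insert]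
    exact V.free _ _ _ _ hmem
  have h2 := hdec c p (fun q => (wring_ctrl σ N t b' (hc q)).mono (by
    rw [Finset.coe_sdiff]
    exact Set.sdiff_subset)) hp (e' + 1) h1
  have h3 : ∑ q, c q * p q ∈ V.I e' (Y ∪ Zs σ b') := by
    have := V.free e' _ (σ ⟨b' - 1, hb'n'⟩) _ h2
    rwa [← Finset.union_insert, ← Zs_succ σ hb'n', Nat.sub_add_cancel (by omega)] at this
  refine hH (Y ∪ Zs σ b') c p (fun q => ?_) hp h3
  have := (hc q).2
  exact supported_mono (by
    rw [Finset.coe_union]
    exact Set.subset_union_right) this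

theorem DecM.succ {c w s : ℕ} (hH : HRel F c) (hs : s + 1 ≤ w) (ih : DecM F c w s) :
    DecM F c w (s + 1) := by
  classical
  intro Q W
  set M₀ := ((1 + Fintype.card (Fin w × Fin w)) * 2) ^ Q * (W + 1) with hM₀
  have hM₀1 : 1 ≤ M₀ := Nat.mul_pos (by positivity) (Nat.succ_pos W)
  set M := Q.factorial * M₀ ^ Q with hM
  have hM1 : 1 ≤ M := Nat.mul_pos (Nat.factorial_pos _) (pow_pos hM₀1 _)
  obtain ⟨eA, hA⟩ := ih Q W
  obtain ⟨eΔ, hdecΔ⟩ := ih M M
  obtain ⟨eH, hHe⟩ := hH M M
  refine ⟨(eA + (eH + 1 + eΔ + 1) + 1) + w * (w - s) + Q, ?_⟩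
  intro n V L hL σ N Y a' b hab hbn hor E P hE hP j h0
  by_cases hA0 : a' = b ∨ w + 1 ≤ rk (pv σ : ℕ → MvPolynomial (Fin n) F) N a' (b - a') + s
  · exact hA n V L hL σ N Y a' b hab hbn hA0 E P hE hP j (V.mono (by omega) _ h0)
  push Not at hA0
  obtain ⟨hne, hlt⟩ := hA0
  have hr : rk (pv σ : ℕ → MvPolynomial (Fin n) F) N a' (b - a') + s = w := by
    rcases hor with h | h
    · exact absurd h hne
    · omega
  set J := en (F := F) σ N a' (b - a') with hJ
  have claim : ∀ d t : ℕ, t + d = b → a' ≤ t → ∀ j,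
      ∑ q, E q * P q ∈ V.I (j + (eA + (eH + 1 + eΔ + 1) + 1) +
        (w * (w - s) - er ((Zs σ t \ Zs σ a') \ Y) J) + (Q - cr ((Zs σ t \ Zs σ a') \ Y) J P))
        (Y ∪ Zs σ t) → ∑ q, E q * P q ∈ V.I j (Y ∪ Zs σ b) := by
    intro d
    induction d with
    | zero =>
      intro t htb hat j h
      have : t = b := by omega
      subst this
      exact V.mono (by omega) _ h
    | succ d ihd =>
      intro t htb hat j h
      have htn : t < n := by omega
      set i0 := σ ⟨t, htn⟩ with hi0
      have hZ : Zs σ (t + 1) = insert i0 (Zs σ t) := Zs_succ σ htn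
      have hi0Z : i0 ∉ Zs σ t := not_mem_Zs σ htn le_rfl
      have hi0Za : i0 ∉ Zs σ a' := not_mem_Zs σ htn hat
      have hi0b : i0 ∈ Zs σ b := by
        rw [mem_Zs, hi0]; simp; omega
      have hZY : Y ∪ Zs σ (t + 1) = insert i0 (Y ∪ Zs σ t) := by
        rw [hZ, Finset.union_insert]
      by_cases hi0Y : i0 ∈ Y
      · have h1 : Y ∪ Zs σ (t + 1) = Y ∪ Zs σ t := by
          rw [hZY, Finset.insert_eq_of_mem (Finset.mem_union_left _ hi0Y)]
        have h2 : (Zs σ (t + 1) \ Zs σ a') \ Y = (Zs σ t \ Zs σ a') \ Y := by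
          ext k
          simp only [Finset.mem_sdiff, hZ, Finset.mem_insert]
          constructor
          · rintro ⟨⟨hk | hk, h3⟩, h4⟩
            · rw [hk] at h4; exact absurd hi0Y h4
            · exact ⟨⟨hk, h3⟩, h4⟩
          · rintro ⟨⟨hk, h3⟩, h4⟩
            exact ⟨⟨Or.inr hk, h3⟩, h4⟩
        refine ihd (t + 1) (by omega) (by omega) j ?_
        rw [h1, h2]
        exact h
      set S := (Zs σ t \ Zs σ a') \ Y with hS
      have hS1 : (Zs σ (t + 1) \ Zs σ a') \ Y = insert i0 S := by
        ext k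
        simp only [Finset.mem_sdiff, hZ, Finset.mem_insert, hS]
        constructor
        · rintro ⟨⟨hk | hk, h3⟩, h4⟩
          · exact Or.inl hk
          · exact Or.inr ⟨⟨hk, h3⟩, h4⟩
        · rintro (hk | ⟨⟨hk, h3⟩, h4⟩)
          · rw [hk]; exact ⟨⟨Or.inl rfl, hi0Za⟩, hi0Y⟩
          · exact ⟨⟨Or.inr hk, h3⟩, h4⟩
      have hSt1 : insert i0 S ⊆ Zs σ (t + 1) := by
        rw [← hS1]
        exact Finset.sdiff_subset.trans Finset.sdiff_subset
      have hSZ : S ⊆ Y ∪ Zs σ t :=
        (Finset.sdiff_subset.trans Finset.sdiff_subset).trans Finset.subset_union_right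
      have hi0YZ : i0 ∉ Y ∪ Zs σ t := by
        rw [Finset.mem_union]; tauto
      have hsplit : b - a' = (t + 1 - a') + (b - (t + 1)) := by omega
      have hat1 : a' + (t + 1 - a') = t + 1 := by omega
      by_cases hA' : t + 1 = b ∨
          w + 1 ≤ rk (pv σ : ℕ → MvPolynomial (Fin n) F) N (t + 1) (b - (t + 1)) + s
      · have h1 : ∑ q, E q * P q ∈ V.I (j + eA) (Y ∪ Zs σ (t + 1)) := by
          rw [hZY]
          apply V.free
          exact V.mono (by omega) _ h
        refine hA n V L hL σ N Y (t + 1) b (by omega) hbn hA' E P ?_ hP j h1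
        intro q
        refine Ctrl.trans (J' := J) ?_ ((hE q).mono ?_)
        · intro i
          rw [hJ, hsplit]
          have := ctrl_of_adjoin (en_split_right (F := F) σ N a' (t + 1 - a')
            (b - (t + 1)) i)
          rw [hat1] at this
          refine this.mono ?_
          intro k hk
          rw [Finset.mem_coe, Finset.mem_sdiff, Finset.mem_sdiff] at hk
          simpa using hk.1.2
        · intro k hk
          rw [Finset.mem_coe, Finset.mem_sdiff, Finset.mem_sdiff] at hk ⊢
          exact ⟨⟨hk.1.1, fun hc => hk.1.2 (Zs_mono (by omega) hc)⟩, hk.2⟩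
      push Not at hA'
      obtain ⟨htb1, hlt1⟩ := hA'
      have hge1 : rk (pv σ : ℕ → MvPolynomial (Fin n) F) N a' (b - a') ≤
          rk (pv σ : ℕ → MvPolynomial (Fin n) F) N (t + 1) (b - (t + 1)) := by
        have := rk_le_right (pv σ : ℕ → MvPolynomial (Fin n) F) N a' (t + 1 - a')
          (b - (t + 1))
        rwa [← hsplit, hat1] at this
      have her1 : rk (pv σ : ℕ → MvPolynomial (Fin n) F) N (t + 1) (b - (t + 1)) + s = w := by
        omega
      have hrw : rk (pv σ : ℕ → MvPolynomial (Fin n) F) N (t + 1) (b - (t + 1)) = w - s := by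
        omega
      have hle2 : er (insert i0 S) J ≤ w * (w - s) := by
        rw [← hrw, hJ, hsplit]
        have := er_en_le (F := F) σ N a' (t + 1 - a') (b - (t + 1))
          (S := insert i0 S) (by rw [hat1]; exact hSt1)
        rwa [hat1] at this
      have hcle : cr (insert i0 S) J P ≤ Q := cr_le _ _ _
      have hcmono : cr S J P ≤ cr (insert i0 S) J P := cr_mono (Finset.subset_insert _ _) _ _
      have hemono : er S J ≤ er (insert i0 S) J := er_mono (Finset.subset_insert _ _) _
      by_cases hjump : er S J < er (insert i0 S) J ∨ cr S J P < cr (insert i0 S) J P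
      · refine ihd (t + 1) (by omega) (by omega) j ?_
        rw [hS1, hZY]
        apply V.free
        refine V.mono ?_ _ h
        rcases hjump with h1 | h1
        · omega
        · omega
      push Not at hjump
      obtain ⟨hj1, hj2⟩ := hjump
      -- a lossless step
      have hspeq : sp S J = sp (insert i0 S) J := by
        apply Submodule.eq_of_le_of_finrank_le
        · unfold sp
          apply Submodule.span_mono
          apply Set.image_mono
          exact_mod_cast Finset.subset_insert _ _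
        · exact hj1
      have hcspeq : csp S J P = csp (insert i0 S) J P := csp_eq (Finset.subset_insert _ _) hj2
      have hB : dv J i0 ∈ sp S J := by
        rw [hspeq]
        exact Submodule.subset_span ⟨i0, by
          rw [Finset.mem_coe]; exact Finset.mem_insert_self _ _, rfl⟩
      -- minimal time with the same rank
      have hex : ∃ c, t + 1 < c ∧
          rk (pv σ : ℕ → MvPolynomial (Fin n) F) N (t + 1) (c - (t + 1)) + s ≤ w :=
        ⟨b, by omega, by omega⟩
      set b' := Nat.find hex with hb'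
      have hb'1 : t + 1 < b' := (Nat.find_spec hex).1
      have hb'2 : rk (pv σ : ℕ → MvPolynomial (Fin n) F) N (t + 1) (b' - (t + 1)) + s ≤ w :=
        (Nat.find_spec hex).2
      have hb'b : b' ≤ b := Nat.find_min' hex ⟨by omega, by omega⟩
      have hb'3 : t + 1 = b' - 1 ∨
          w + 1 ≤ rk (pv σ : ℕ → MvPolynomial (Fin n) F) N (t + 1) (b' - 1 - (t + 1)) + s := by
        by_cases h1 : t + 1 = b' - 1
        · exact Or.inl h1
        · right
          have h2 := Nat.find_min hex (m := b' - 1) (by omega)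
          push Not at h2
          have := h2 (by omega)
          omega
      clear_value b'
      have hsplit2 : b - (t + 1) = (b' - (t + 1)) + (b - b') := by omega
      have her2 : rk (pv σ : ℕ → MvPolynomial (Fin n) F) N (t + 1) (b' - (t + 1)) =
          rk (pv σ : ℕ → MvPolynomial (Fin n) F) N (t + 1) (b - (t + 1)) := by
        have := rk_le_left (pv σ : ℕ → MvPolynomial (Fin n) F) N (t + 1) (b' - (t + 1))
          (b - b')
        rw [← hsplit2] at this
        omega
      have hsplit4 : b - a' = (b' - a') + (b - b') := by omega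
      have hab' : a' + (b' - a') = b' := by omega
      set J' := en (F := F) σ N a' (b' - a') with hJ'
      obtain ⟨Φ, hΦ⟩ := exists_phi (F := F) σ N hat (by omega) hb'b her2
      have hΨ : ∀ k ∈ Zs σ (t + 1), mulR (K := FractionRing (MvPolynomial (Fin n) F))
          ((Pr (pv σ) N b' (b - b')).map (algebraMap (MvPolynomial (Fin n) F)
            (FractionRing (MvPolynomial (Fin n) F)))) (dv J' k) = dv J k := by
        intro k hk
        have hk' : k ∈ Zs σ (a' + (b' - a')) := by
          rw [hab']; exact Zs_mono (by omega) hk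
        have := dv_en_split (F := F) σ N a' (b' - a') (b - b') hk'
        rw [← hsplit4, hab'] at this
        exact this.symm
      have hB' : dv J' i0 ∈ sp S J' := by
        rw [← hΦ i0 (hSt1 (Finset.mem_insert_self _ _)),
          sp_transfer Φ (fun k hk => hΦ k (hSt1 (Finset.mem_insert_of_mem hk)))]
        exact Submodule.mem_map_of_mem hB
      have hcsp' : csp (insert i0 S) J' P = csp S J' P := by
        rw [← csp_transfer Φ _ (fun k hk => hΦ k (hSt1 hk)) (fun k hk => hΨ k (hSt1 hk)) P,
          ← csp_transfer Φ _ (fun k hk => hΦ k (hSt1 (Finset.mem_insert_of_mem hk)))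
            (fun k hk => hΨ k (hSt1 (Finset.mem_insert_of_mem hk))) P]
        exact hcspeq.symm
      obtain ⟨ρ₀, κ, g, hρ₀, hκ, hμ0, hrel, ρ, u, g', hρ, huW, huC, hΔ0, hspan⟩ :=
        exists_words J' S P
      have hSt : S ⊆ Zs σ (t + 1) := (Finset.subset_insert _ _).trans hSt1
      have hκ' : ∀ q, κ q ∈ Zs σ (t + 1) := fun q => hSt (hκ q)
      have hdec' := fun (E P : Fin M → MvPolynomial (Fin n) F) => hdecΔ n V L hL σ N Y (t + 1)
        (b' - 1) (by omega) (by omega) hb'3 E P
      have hH' := hHe n V L hL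
      have hent : ∀ q l, (Matrix.of fun q l => pderiv (κ q) (J' (g l))) q l ∈ wring σ N t b' :=
        fun q l => wring_en σ N hat hb'1 (hκ' q) (g l)
      have hμmem : cmu J' κ g ∈ wring σ N t b' := det_mem' hent
      have hμ : cmu J' κ g ∉ V.I (j + (eA + (eH + 1 + eΔ + 1) + 1) +
          (w * (w - s) - er S J) + (Q - cr S J P)) (Y ∪ Zs σ t) := by
        intro hmem
        apply hμ0
        have hrep : Rep (wring σ N t b') L M (cmu J' κ g) := by
          have := (Rep.one (𝔸 := wring σ N t b') (L := L) hM1).smul hμmem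
          rwa [mul_one] at this
        exact rep_zero V hb'1 (by omega) hdec' hH' hrep (V.mono (by omega) _ hmem)
      have hΔ : (Matrix.of fun i l => u i (g' l)).det ∉ V.I (j + (eA + (eH + 1 + eΔ + 1) + 1) +
          (w * (w - s) - er S J) + (Q - cr S J P)) (Y ∪ Zs σ t) := by
        intro hmem
        apply hΔ0
        have hrep : Rep (wring σ N t b') L M (Matrix.of fun i l => u i (g' l)).det := by
          refine Rep.det hρ hM₀1 fun i l => ?_
          exact Rep.word (J := J') hκ (fun k hk i => wring_en σ N hat hb'1 (hSt hk) i)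
            (fun k hk a ha => wring_pderiv σ N t b' (hSt hk) a ha) hρ₀ (Nat.succ_pos W)
            (fun i => Pass.mono (Nat.le_succ W) L (hP i)) (huW i) _
        exact rep_zero V hb'1 (by omega) hdec' hH' hrep (V.mono (by omega) _ hmem)
      have hE' : ∀ q, Ctrl ((insert i0 S : Finset (Fin n)) : Set (Fin n)) J' (E q) := by
        intro q
        have hsub : ((insert i0 S : Finset (Fin n)) : Set (Fin n)) ⊆
            (((Zs σ b \ Zs σ a') \ Y : Finset (Fin n)) : Set (Fin n)) := by
          rw [← hS1]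
          intro k hk
          rw [Finset.mem_coe, Finset.mem_sdiff, Finset.mem_sdiff] at hk ⊢
          exact ⟨⟨Zs_mono (by omega) hk.1.1, hk.1.2⟩, hk.2⟩
        refine Ctrl.trans (J' := J) ?_ ((hE q).mono hsub)
        intro i
        rw [hJ, hsplit4]
        have := ctrl_of_adjoin (en_split_left (F := F) σ N a' (b' - a') (b - b') i)
        rw [hab'] at this
        refine this.mono ?_
        intro k hk
        have hk' : k ∈ Zs σ b' := Zs_mono (by omega) (hSt1 (Finset.mem_coe.1 hk))
        simpa using hk'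
      have h8 := V.lossless_step hi0YZ hSZ hB' hE' hcsp' h hκ hrel huC hspan hμ hΔ
      refine ihd (t + 1) (by omega) (by omega) j ?_
      rw [hS1, hZY]
      refine V.mono ?_ _ h8
      omega
  refine claim (b - a') a' (by omega) le_rfl j ?_
  refine V.mono ?_ _ h0
  omega

theorem DecM.all {c : ℕ} (hH : HRel F c) (w s : ℕ) (hs : s ≤ w) : DecM F c w s := by
  induction s with
  | zero => exact DecM.zero c w
  | succ s ih => exact DecM.succ hH hs (ih (by omega))

end Pool.Agent.H530R2
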