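import Mathlib
import Pool.Agent.H530R2.Mul7

/-!
Programs with a constant number of passes do not vanish on the ideals.
-/

namespace Pool.Agent.H530R2

open MvPolynomial Module

universe v

variable {F : Type v} [Field F]

theorem HRel.succ {c : ℕ} (hH : HRel F c) : HRel F (c + 1) := by
  classical
  intro Q W
  obtain ⟨e, he⟩ := DecM.all hH (W * (Q * W)) (W * (Q * W)) le_rfl (Q * W) W
  refine ⟨e, ?_⟩
  intro n V L hL Y E P hE hP h
  obtain ⟨σ, L', rfl⟩ : ∃ σ L', L = σ :: L' := by
    cases L with
    | nil => simp at hL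
    | cons σ L' => exact ⟨σ, L', rfl⟩
  have hL' : L'.length = c := by simpa using hL
  choose A B hA hB hAB using fun q => SP.toFin (hP q) (IsRO.zero σ W Set.univ) (Pass.zero L' W)
  set eq := (finProdFinEquiv : Fin Q × Fin W ≃ Fin (Q * W)) with heq
  set A' : Fin (Q * W) → MvPolynomial (Fin n) F := fun i => A (eq.symm i).1 (eq.symm i).2 with hA'
  set B' : Fin (Q * W) → MvPolynomial (Fin n) F := fun i => B (eq.symm i).1 (eq.symm i).2 with hB'
  set E' : Fin (Q * W) → MvPolynomial (Fin n) F := fun i => E (eq.symm i).1 with hE'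
  have hsum : ∑ q, E q * P q = ∑ i, (E' i * A' i) * B' i := by
    rw [← Equiv.sum_comp eq, Fintype.sum_prod_type]
    apply Finset.sum_congr rfl
    intro q _
    rw [hAB q, Finset.mul_sum]
    apply Finset.sum_congr rfl
    intro r _
    simp only [hA', hB', hE', Equiv.symm_apply_apply]
    ring
  rw [hsum] at h ⊢
  obtain ⟨N, u, v, hN⟩ := IsRO.joint (f := A') (fun i => hA _ _)
  by_cases hrk : rk (pv σ : ℕ → MvPolynomial (Fin n) F) (toSeq σ N) 0 n = 0
  · have h3 := rk_zero_imp (pv σ : ℕ → MvPolynomial (Fin n) F) (toSeq σ N) 0 n hrk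
    apply Finset.sum_eq_zero
    intro i _
    have h4 : A' i = 0 := by
      rw [hN i]
      unfold roVal
      rw [h3]
      simp
    rw [h4, mul_zero, zero_mul]
  · have hctrl : ∀ i, Ctrl (((Zs σ n \ Zs σ 0) \ Y : Finset (Fin n)) : Set (Fin n))
        (en σ (toSeq σ N) 0 (n - 0)) (E' i * A' i) := by
      intro i
      refine (ctrl_of_adjoin (W := (Y : Set (Fin n))) ?_).mono ?_
      · refine Subalgebra.mul_mem _ ?_ ?_
        · exact Algebra.adjoin_mono Set.subset_union_right (hE _)
        · rw [hN i]
          unfold roVal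
          simp only [dotProduct, Matrix.mulVec, emb]
          refine Subalgebra.sum_mem _ fun x _ => Subalgebra.mul_mem _
            (Subalgebra.algebraMap_mem _ _) (Subalgebra.sum_mem _ fun y _ =>
              Subalgebra.mul_mem _ ?_ (Subalgebra.algebraMap_mem _ _))
          exact Algebra.subset_adjoin (Or.inl ⟨(x, y), rfl⟩)
      · intro k hk
        rw [Finset.mem_coe, Finset.mem_sdiff] at hk
        exact hk.2
    have h1 := he n V L' hL' σ (toSeq σ N) Y 0 n (Nat.zero_le _) le_rfl
      (Or.inr (by rw [Nat.sub_zero]; omega)) (fun i => E' i * A' i) B' hctrl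
      (fun i => hB _ _) 0 (by rw [zero_add, Zs_zero, Finset.union_empty]; exact h)
    refine V.supp 0 _ _ ?_ h1
    rw [Zs_last, Finset.union_eq_right.2 (Finset.subset_univ _), Finset.coe_univ, supported_univ]
    trivial

/-- Programs with a constant number of passes and constant width are not in the ideals. -/
theorem HRel.all (F : Type v) [Field F] (c : ℕ) : HRel F c := by
  induction c with
  | zero => exact HRel.zero
  | succ c ih => exact HRel.succ ih

end Pool.Agent.H530R2

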