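import Mathlib
import Pool.Agent.H530R2.Mul8

/-!
The Jacobian criterion (one direction) and composites of bounded transcendence degree.
-/

namespace Pool.Agent.H530R2

open MvPolynomial Module

section jac

variable {F : Type*} [Field F] {n : ℕ}

theorem pderiv_comp {ι : Type*} [Fintype ι] (g : ι → MvPolynomial (Fin n) F) (k : Fin n)
    (R : MvPolynomial ι F) : pderiv k (aeval g R) = ∑ i, aeval g (pderiv i R) * pderiv k (g i) := by
  classical
  induction R using MvPolynomial.induction_on with
  | C r =>
    rw [aeval_C]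
    have h1 : ∀ i, aeval g (pderiv i (C r : MvPolynomial ι F)) * pderiv k (g i) = 0 := by
      intro i
      rw [pderiv_C, map_zero, zero_mul]
    simp only [h1, Finset.sum_const_zero]
    exact Derivation.map_algebraMap _ r
  | add p q hp hq =>
    rw [map_add, map_add, hp, hq, ← Finset.sum_add_distrib]
    apply Finset.sum_congr rfl
    intro i _
    rw [map_add, map_add, add_mul]
  | mul_X p j hp =>
    rw [map_mul, pderiv_mul, hp, aeval_X, Finset.sum_mul]
    have h1 : ∀ i, aeval g (pderiv i (p * X j)) * pderiv k (g i) =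
        aeval g (pderiv i p) * pderiv k (g i) * g j +
          (if i = j then aeval g p * pderiv k (g j) else 0) := by
      intro i
      rw [pderiv_mul, map_add, map_mul, map_mul, aeval_X]
      by_cases hij : i = j
      · subst hij
        rw [pderiv_X_self, map_one, if_pos rfl]; ring
      · rw [pderiv_X_of_ne (fun h => hij h.symm), map_zero, if_neg hij]; ring
    simp only [h1, Finset.sum_add_distrib, Finset.sum_ite_eq', Finset.mem_univ, if_true]

theorem eq_C_of_pderiv_zero [CharZero F] {ι : Type*} {p : MvPolynomial ι F}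
    (h : ∀ i, pderiv i p = 0) : p = C (coeff 0 p) := by
  classical
  ext m
  rw [coeff_C]
  by_cases hm : m = 0
  · rw [if_pos hm.symm, hm]
  · rw [if_neg (Ne.symm hm)]
    obtain ⟨i, hi⟩ : ∃ i, m i ≠ 0 := by
      by_contra hcon
      push Not at hcon
      exact hm (Finsupp.ext hcon)
    have h1 := coeff_pderiv (i := i) p (m - Finsupp.single i 1)
    have h2 : m - Finsupp.single i 1 + Finsupp.single i 1 = m := by
      apply tsub_add_cancel_of_le
      intro j
      by_cases hj : j = i
      · subst hj; rw [Finsupp.single_eq_same]; omega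
      · rw [Finsupp.single_eq_of_ne hj]; exact Nat.zero_le _
    rw [h i, coeff_zero, h2] at h1
    rcases mul_eq_zero.1 h1.symm with h3 | h3
    · exact h3
    · exfalso
      have h4 : ((((m - Finsupp.single i 1 : ι →₀ ℕ) i + 1 : ℕ)) : F) = 0 := by
        push_cast
        exact h3
      rw [Nat.cast_eq_zero] at h4
      exact Nat.succ_ne_zero _ h4

theorem totalDegree_pderiv_lt {ι : Type*} {p : MvPolynomial ι F} {d : ℕ}
    (h : p.totalDegree ≤ d + 1) (i : ι) : (pderiv i p).totalDegree ≤ d := by
  classical
  unfold totalDegree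
  apply Finset.sup_le
  intro m hm
  rw [MvPolynomial.mem_support_iff, coeff_pderiv] at hm
  have h1 : coeff (m + Finsupp.single i 1) p ≠ 0 := left_ne_zero_of_mul hm
  have h2 := (le_totalDegree (MvPolynomial.mem_support_iff.2 h1)).trans h
  rw [Finsupp.sum_add_index' (fun _ => rfl) (fun _ _ _ => rfl),
    Finsupp.sum_single_index rfl] at h2
  omega

/-- a nonvanishing minor of the Jacobian matrix gives algebraic independence -/
theorem algIndep_of_det [CharZero F] {ρ : ℕ} (g : Fin ρ → MvPolynomial (Fin n) F)
    (κ : Fin ρ → Fin n) (h : (Matrix.of fun q l => pderiv (κ q) (g l)).det ≠ 0) :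
    AlgebraicIndependent F g := by
  classical
  rw [algebraicIndependent_iff]
  have key : ∀ d : ℕ, ∀ p : MvPolynomial (Fin ρ) F, p.totalDegree ≤ d → aeval g p = 0 → p = 0 := by
    intro d
    induction d with
    | zero =>
      intro p hp h0
      have h1 : p = C (coeff 0 p) := totalDegree_eq_zero_iff_eq_C.1 (Nat.le_zero.1 hp)
      rw [h1, aeval_C] at h0
      rw [h1]
      have h2 : coeff 0 p = 0 := by
        have h3 : (C (coeff 0 p) : MvPolynomial (Fin n) F) = 0 := h0
        rwa [C_eq_zero] at h3
      rw [h2, C_0]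
    | succ d ih =>
      intro p hp h0
      have h1 : ∀ q, ∑ l, aeval g (pderiv l p) * pderiv (κ q) (g l) = 0 := by
        intro q
        rw [← pderiv_comp, h0, map_zero]
      have h2 : (fun l => aeval g (pderiv l p)) = 0 := by
        apply Matrix.eq_zero_of_mulVec_eq_zero h
        funext q
        simp only [Matrix.mulVec, dotProduct, Matrix.of_apply, Pi.zero_apply]
        rw [← h1 q]
        apply Finset.sum_congr rfl
        intro l _
        ring
      have h3 : ∀ l, pderiv l p = 0 := fun l =>
        ih _ (totalDegree_pderiv_lt hp l) (congrFun h2 l)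
      have h4 := eq_C_of_pderiv_zero h3
      refine ih p ?_ h0
      rw [h4, totalDegree_C]
      exact Nat.zero_le _
  intro p hp
  exact key _ p le_rfl hp

end jac

section append

variable {F : Type*} [Field F] {n : ℕ}

theorem Pass.append_left {W : ℕ} (hW : 1 ≤ W) (L L' : List (Equiv.Perm (Fin n))) :
    (Pass L' W : Set (MvPolynomial (Fin n) F)) ⊆ Pass (L ++ L') W := by
  induction L with
  | nil => exact fun f hf => hf
  | cons σ L ih =>
    intro f hf
    have h1 : f = C 1 * f := by rw [C_1, one_mul]
    show SP _ _ _ _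
    rw [h1]
    exact SP.one_term (IsRO.mono hW (isRO_const σ 1)) (ih hf) hW

theorem Pass.append_right {W : ℕ} (hW : 1 ≤ W) (L L' : List (Equiv.Perm (Fin n))) :
    (Pass L W : Set (MvPolynomial (Fin n) F)) ⊆ Pass (L ++ L') W := by
  induction L with
  | nil =>
    rintro f ⟨y, rfl⟩
    exact Pass.const hW _ y
  | cons σ L ih => exact fun f hf => SP.mono hf le_rfl le_rfl ih

/-- a finite product of programs in different orders -/
theorem Pass.prod {W c : ℕ} (hW : 1 ≤ W) (ρ : ℕ) (L : Fin ρ → List (Equiv.Perm (Fin n)))
    (hL : ∀ i, (L i).length = c) :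
    ∃ L' : List (Equiv.Perm (Fin n)), L'.length = ρ * c ∧
      ∀ i, (Pass (L i) W : Set (MvPolynomial (Fin n) F)) ⊆ Pass L' W := by
  induction ρ with
  | zero => exact ⟨[], by simp, fun i => i.elim0⟩
  | succ ρ ih =>
    obtain ⟨L', hL', hsub⟩ := ih (fun i => L i.succ) (fun i => hL _)
    refine ⟨L 0 ++ L', ?_, ?_⟩
    · rw [List.length_append, hL', hL 0]; ring
    · intro i
      refine Fin.cases ?_ (fun i => ?_) i
      · exact Pass.append_right hW _ _
      · exact (hsub i).trans (Pass.append_left hW _ _)

/-- pad a list of orders -/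
theorem Pass.pad {W c c' : ℕ} (hW : 1 ≤ W) (hc : c ≤ c') (L : List (Equiv.Perm (Fin n)))
    (hL : L.length = c) : ∃ L' : List (Equiv.Perm (Fin n)), L'.length = c' ∧
      (Pass L W : Set (MvPolynomial (Fin n) F)) ⊆ Pass L' W := by
  refine ⟨L ++ List.replicate (c' - c) 1, ?_, Pass.append_right hW _ _⟩
  rw [List.length_append, List.length_replicate, hL]
  omega

end append

section composite

variable {F : Type*} [Field F] [CharZero F]

/-- the number of seeds for composites -/
theorem exists_seeds (F : Type*) [Field F] [CharZero F] (c W r : ℕ) : ∃ m : ℕ,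
    ∀ (n : ℕ) (V : VanM F n) (N : ℕ) (g : Fin N → MvPolynomial (Fin n) F),
      (∀ i, ∃ L : List (Equiv.Perm (Fin n)), L.length = c ∧ g i ∈ Pass L W) →
      (∀ s : Fin (r + 1) → Fin N, ¬ AlgebraicIndependent F (fun i => g (s i))) →
      ∀ Φ : MvPolynomial (Fin N) F, aeval g Φ ∈ V.I m ∅ → aeval g Φ = 0 := by
  classical
  set W₁ := r.factorial * (2 * (W + 1)) ^ r with hW₁
  obtain ⟨e, he⟩ := HRel.all F (r * c) W₁ W₁
  refine ⟨e + r, ?_⟩
  intro n V N g hg htr Φ hmem
  choose L hL hgL using hg
  -- the maximal minor
  obtain ⟨ρ, κ, g', _, _, hdet, hrel⟩ := cramer_unif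
    (fun (k : Fin n) (i : Fin N) => pderiv k (g i)) (Set.univ : Set (Fin n))
  have hρ : ρ ≤ r := by
    by_contra hcon
    push Not at hcon
    have hind := algIndep_of_det (fun l => g (g' l)) κ hdet
    have hle : r + 1 ≤ ρ := hcon
    apply htr (fun i => g' (Fin.castLE hle i))
    exact hind.comp _ (Fin.castLE_injective hle)
  set μ := (Matrix.of fun q l => pderiv (κ q) (g (g' l))).det with hμ
  -- the minor is computed by a program with several passes
  obtain ⟨L', hL', hsub⟩ := Pass.prod (F := F) (W := 2 * (W + 1)) (by omega) ρ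
    (fun l => L (g' l)) (fun l => hL _)
  obtain ⟨L'', hL'', hsub'⟩ := Pass.pad (F := F) (W := 2 * (W + 1)) (c := ρ * c) (c' := r * c)
    (by omega) (Nat.mul_le_mul_right _ hρ) L' hL'
  have hμP : Rep (⊥ : Subalgebra F (MvPolynomial (Fin n) F)) L'' W₁ μ := by
    refine Rep.det hρ (by omega) fun q l => Rep.ofMem (by omega) ?_
    apply hsub'
    apply hsub l
    exact Pass.mono (by omega) _ (Pass.pderiv (κ q) _ (hgL (g' l)))
  have hnon : ∀ Y, μ ∉ V.I e Y := by
    intro Y hY
    apply hdet
    obtain ⟨x, p, hx, hp, hxp⟩ := SP.toFin hμP (Subalgebra.zero_mem _) (Pass.zero L'' W₁)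
    rw [hxp] at hY
    have := he n V L'' hL'' Y x p (fun q => (bot_le : (⊥ : Subalgebra F _) ≤ _) (hx q)) hp hY
    rw [← hxp] at this
    exact this
  -- free the directions `κ`
  have hfree : ∀ (s : ℕ) (hs : s ≤ ρ), aeval g Φ ∈
      V.I (e + (r - s)) (Finset.univ.image (fun q : Fin s => κ (Fin.castLE hs q))) := by
    intro s
    induction s with
    | zero =>
      intro hs
      simpa using hmem
    | succ s ih =>
      intro hs
      have h1 := ih (by omega)
      have h2 : e + (r - s) = (e + (r - (s + 1))) + 1 := by omega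
      rw [h2] at h1
      have h3 := V.free _ _ (κ ⟨s, by omega⟩) _ h1
      have h4 : insert (κ ⟨s, by omega⟩) (Finset.univ.image
          (fun q : Fin s => κ (Fin.castLE (by omega : s ≤ ρ) q))) =
          Finset.univ.image (fun q : Fin (s + 1) => κ (Fin.castLE hs q)) := by
        ext k
        simp only [Finset.mem_insert, Finset.mem_image, Finset.mem_univ, true_and]
        constructor
        · rintro (rfl | ⟨q, rfl⟩)
          · exact ⟨Fin.last s, rfl⟩
          · exact ⟨q.castSucc, rfl⟩
        · rintro ⟨q, rfl⟩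
          refine Fin.lastCases ?_ (fun q => ?_) q
          · exact Or.inl rfl
          · exact Or.inr ⟨q, rfl⟩
      rw [← h4]
      exact h3
  have h0 := V.mono (show e ≤ e + (r - ρ) by omega) _ (hfree ρ le_rfl)
  set Z₀ := Finset.univ.image (fun q : Fin ρ => κ (Fin.castLE le_rfl q)) with hZ₀
  have hκZ : ∀ q, κ q ∈ Z₀ := fun q => Finset.mem_image.2 ⟨q, Finset.mem_univ _, rfl⟩
  -- the other directions
  have hall : ∀ T : Finset (Fin n), aeval g Φ ∈ V.I e (T ∪ Z₀) := by
    intro T
    induction T using Finset.induction_on with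
    | empty => rw [Finset.empty_union]; exact h0
    | insert i T _ ih =>
      rw [Finset.insert_union]
      by_cases hi : i ∈ T ∪ Z₀
      · rwa [Finset.insert_eq_of_mem hi]
      · have hrel' := hrel (fun l => pderiv i (g l)) (Submodule.subset_span
          ⟨i, Set.mem_univ _, rfl⟩)
        have hpde : μ * pderiv i (aeval g Φ) = ∑ q, Matrix.vecMul
            (fun l => pderiv i (g (g' l)))
            (Matrix.of fun q l => pderiv (κ q) (g (g' l))).adjugate q *
              pderiv (κ q) (aeval g Φ) := by
          simp only [pderiv_comp g _ Φ]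
          rw [Finset.mul_sum]
          simp only [Finset.mul_sum]
          rw [Finset.sum_comm]
          apply Finset.sum_congr rfl
          intro l _
          rw [mul_left_comm, hrel' l, Finset.mul_sum]
          apply Finset.sum_congr rfl
          intro q _
          ring
        have := V.lossless e (T ∪ Z₀) i hi ρ κ
          (fun q => Finset.mem_union_right _ (hκZ q)) 1 (fun _ => aeval g Φ) μ _ (fun _ _ => 0)
          (fun _ => by simpa using hpde) (fun _ => ih) (hnon _) 0
        exact this
  refine V.supp e (Finset.univ ∪ Z₀) _ ?_ (hall _)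
  rw [Finset.union_eq_left.2 (Finset.subset_univ _), Finset.coe_univ, supported_univ]
  trivial

end composite

end Pool.Agent.H530R2
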