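import Mathlib
import Pool.Agent.H530R2.Mul9

/-!
Register programs reading every variable once, and programs with several passes made of them.
-/

namespace Pool.Agent.H530R2

open MvPolynomial Module

section reg

variable {F : Type*} [Field F] {n : ℕ}

/-- the contents of registers: every register is a polynomial in the previous contents and the
variable which is read -/
structure RegSeq (σ : Equiv.Perm (Fin n)) {τ : Type} (p : ℕ → τ → MvPolynomial (Fin n) F) :
    Prop where
  init : ∀ i, ∃ y, p 0 i = C y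
  stepm : ∀ b (hb : b < n) i, p (b + 1) i ∈
    Algebra.adjoin F (Set.range (p b) ∪ X '' {σ ⟨b, hb⟩})

/-- outputs of register programs with `w` registers reading the variables in the order `σ` -/
def IsReg (σ : Equiv.Perm (Fin n)) (w : ℕ) (f : MvPolynomial (Fin n) F) : Prop :=
  ∃ p : ℕ → Fin w → MvPolynomial (Fin n) F, RegSeq σ p ∧ f ∈ Algebra.adjoin F (Set.range (p n))

theorem RegSeq.supp {σ : Equiv.Perm (Fin n)} {τ : Type} {p : ℕ → τ → MvPolynomial (Fin n) F}
    (h : RegSeq σ p) (b : ℕ) (hb : b ≤ n) (i : τ) : p b i ∈ supported F (Zs σ b : Set (Fin n)) := by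
  induction b generalizing i with
  | zero =>
    obtain ⟨y, hy⟩ := h.init i
    rw [hy]
    exact Subalgebra.algebraMap_mem _ _
  | succ b ih =>
    refine (Algebra.adjoin_le ?_) (h.stepm b (by omega) i)
    rintro x (⟨i', rfl⟩ | ⟨l, hl, rfl⟩)
    · exact supported_mono (by
        intro k hk
        exact_mod_cast Zs_mono (Nat.le_succ b) (Finset.mem_coe.1 hk)) (ih (by omega) i')
    · rw [Set.mem_singleton_iff] at hl
      subst hl
      refine (X_mem_supported).2 ?_
      rw [Finset.mem_coe, Zs_succ σ (by omega : b < n)]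
      exact Finset.mem_insert_self _ _

/-- reindexing of registers -/
theorem IsReg.of_equiv {σ : Equiv.Perm (Fin n)} {w : ℕ} {τ : Type} (e : τ ≃ Fin w)
    {p : ℕ → τ → MvPolynomial (Fin n) F} (h : RegSeq σ p) {f : MvPolynomial (Fin n) F}
    (hf : f ∈ Algebra.adjoin F (Set.range (p n))) : IsReg σ w f := by
  have hr : ∀ b, Set.range (fun i => p b (e.symm i)) = Set.range (p b) := by
    intro b
    exact e.symm.surjective.range_comp (p b)
  refine ⟨fun b i => p b (e.symm i), ⟨fun i => h.init _, ?_⟩, ?_⟩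
  · intro b hb i
    rw [hr b]
    exact h.stepm b hb _
  · rw [hr n]
    exact hf

/-- joint registers -/
theorem RegSeq.joint {σ : Equiv.Perm (Fin n)} {κ : Type} {τ : κ → Type}
    {p : (k : κ) → ℕ → τ k → MvPolynomial (Fin n) F} (h : ∀ k, RegSeq σ (p k)) :
    RegSeq σ (fun b (x : Σ k, τ k) => p x.1 b x.2) := by
  refine ⟨fun x => (h x.1).init x.2, ?_⟩
  intro b hb x
  refine Algebra.adjoin_mono ?_ ((h x.1).stepm b hb x.2)
  apply Set.union_subset_union_left
  rintro _ ⟨i, rfl⟩
  exact ⟨⟨x.1, i⟩, rfl⟩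

theorem RegSeq.sum {σ : Equiv.Perm (Fin n)} {τ τ' : Type}
    {p : ℕ → τ → MvPolynomial (Fin n) F} {p' : ℕ → τ' → MvPolynomial (Fin n) F}
    (h : RegSeq σ p) (h' : RegSeq σ p') :
    RegSeq σ (fun b => Sum.elim (p b) (p' b)) := by
  refine ⟨?_, ?_⟩
  · rintro (i | i)
    · exact h.init i
    · exact h'.init i
  · rintro b hb (i | i)
    · refine Algebra.adjoin_mono ?_ (h.stepm b hb i)
      apply Set.union_subset_union_left
      rintro _ ⟨i, rfl⟩
      exact ⟨Sum.inl i, rfl⟩
    · refine Algebra.adjoin_mono ?_ (h'.stepm b hb i)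
      apply Set.union_subset_union_left
      rintro _ ⟨i, rfl⟩
      exact ⟨Sum.inr i, rfl⟩

theorem IsReg.both {σ : Equiv.Perm (Fin n)} {w w' : ℕ} {f g : MvPolynomial (Fin n) F}
    (hf : IsReg σ w f) (hg : IsReg σ w' g) :
    ∃ p : ℕ → (Fin w ⊕ Fin w') → MvPolynomial (Fin n) F, RegSeq σ p ∧
      f ∈ Algebra.adjoin F (Set.range (p n)) ∧ g ∈ Algebra.adjoin F (Set.range (p n)) := by
  obtain ⟨p, hp, hf⟩ := hf
  obtain ⟨p', hp', hg⟩ := hg
  refine ⟨_, hp.sum hp', ?_, ?_⟩
  · refine Algebra.adjoin_mono ?_ hf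
    rintro _ ⟨i, rfl⟩
    exact ⟨Sum.inl i, rfl⟩
  · refine Algebra.adjoin_mono ?_ hg
    rintro _ ⟨i, rfl⟩
    exact ⟨Sum.inr i, rfl⟩

theorem IsReg.const (σ : Equiv.Perm (Fin n)) (w : ℕ) (y : F) :
    IsReg σ w (C y : MvPolynomial (Fin n) F) :=
  ⟨fun _ _ => 0, ⟨fun _ => ⟨0, (map_zero _).symm⟩, fun _ _ _ => Subalgebra.zero_mem _⟩,
    Subalgebra.algebraMap_mem _ y⟩

theorem IsReg.add {σ : Equiv.Perm (Fin n)} {w w' : ℕ} {f g : MvPolynomial (Fin n) F}
    (hf : IsReg σ w f) (hg : IsReg σ w' g) : IsReg σ (w + w') (f + g) := by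
  obtain ⟨p, hp, h1, h2⟩ := hf.both hg
  exact IsReg.of_equiv finSumFinEquiv hp (Subalgebra.add_mem _ h1 h2)

theorem IsReg.mul {σ : Equiv.Perm (Fin n)} {w w' : ℕ} {f g : MvPolynomial (Fin n) F}
    (hf : IsReg σ w f) (hg : IsReg σ w' g) : IsReg σ (w + w') (f * g) := by
  obtain ⟨p, hp, h1, h2⟩ := hf.both hg
  exact IsReg.of_equiv finSumFinEquiv hp (Subalgebra.mul_mem _ h1 h2)

theorem IsReg.mono {σ : Equiv.Perm (Fin n)} {w w' : ℕ} (hw : w ≤ w')
    {f : MvPolynomial (Fin n) F} (hf : IsReg σ w f) : IsReg σ w' f := by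
  obtain ⟨d, rfl⟩ := Nat.exists_eq_add_of_le hw
  have := hf.add (IsReg.const σ d 0)
  rwa [map_zero, add_zero] at this

theorem IsReg.pderiv {σ : Equiv.Perm (Fin n)} {w : ℕ} {f : MvPolynomial (Fin n) F}
    (hf : IsReg σ w f) (k : Fin n) : IsReg σ (2 * w) (MvPolynomial.pderiv k f) := by
  obtain ⟨p, hp, hf⟩ := hf
  have h1 : RegSeq σ (fun b => Sum.elim (p b) (fun i => MvPolynomial.pderiv k (p b i))) := by
    refine ⟨?_, ?_⟩
    · rintro (i | i)
      · exact hp.init i
      · obtain ⟨y, hy⟩ := hp.init i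
        exact ⟨0, by simp only [Sum.elim_inr]; rw [hy, pderiv_C, map_zero]⟩
    · intro b hb
      have hmono : Algebra.adjoin F (Set.range (p b) ∪ X '' {σ ⟨b, hb⟩}) ≤
          Algebra.adjoin F (Set.range (Sum.elim (p b) (fun i => MvPolynomial.pderiv k (p b i))) ∪
            X '' {σ ⟨b, hb⟩}) := by
        apply Algebra.adjoin_mono
        apply Set.union_subset_union_left
        rintro _ ⟨i, rfl⟩
        exact ⟨Sum.inl i, rfl⟩
      rintro (i | i)
      · exact hmono (hp.stepm b hb i)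
      · refine pderiv_mem_of_adjoin k (fun x hx => hmono (Algebra.subset_adjoin hx)) ?_
          (hp.stepm b hb i)
        rintro x (⟨i', rfl⟩ | ⟨l, _, rfl⟩)
        · exact Algebra.subset_adjoin (Or.inl ⟨Sum.inr i', rfl⟩)
        · exact pderiv_X_mem _ _ _
  have h2 : IsReg σ (w + w) (MvPolynomial.pderiv k f) := by
    refine IsReg.of_equiv finSumFinEquiv h1 ?_
    refine pderiv_mem_of_adjoin k (fun x hx => ?_) ?_ hf
    · obtain ⟨i, rfl⟩ := hx
      exact Algebra.subset_adjoin ⟨Sum.inl i, rfl⟩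
    · rintro x ⟨i, rfl⟩
      exact Algebra.subset_adjoin ⟨Sum.inr i, rfl⟩
  rwa [two_mul]

end reg

section low

variable {F : Type*} [Field F] {n : ℕ}

/-- all monomials have fewer than `W` variables -/
def Low (W : ℕ) (f : MvPolynomial (Fin n) F) : Prop := ∀ s ∈ f.support, s.support.card < W

theorem Low.add {W W' : ℕ} {f g : MvPolynomial (Fin n) F} (hf : Low W f) (hg : Low W' g) :
    Low (W + W') (f + g) := by
  classical
  intro s hs
  rcases Finset.mem_union.1 (support_add hs) with h | h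
  · have := hf s h; omega
  · have := hg s h; omega

theorem Low.mul {W W' : ℕ} {f g : MvPolynomial (Fin n) F} (hf : Low W f) (hg : Low W' g) :
    Low ((W + 1) * (W' + 1)) (f * g) := by
  classical
  intro s hs
  obtain ⟨s1, h1, s2, h2, rfl⟩ := Finset.mem_add.1 (support_mul f g hs)
  have h3 := hf s1 h1
  have h4 := hg s2 h2
  have h5 : (s1 + s2).support.card ≤ s1.support.card + s2.support.card :=
    (Finset.card_le_card Finsupp.support_add).trans (Finset.card_union_le _ _)
  nlinarith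

theorem Low.mono {W W' : ℕ} (hW : W ≤ W') {f : MvPolynomial (Fin n) F} (hf : Low W f) :
    Low W' f := fun s hs => (hf s hs).trans_le hW

theorem Low.const {W : ℕ} (hW : 1 ≤ W) (y : F) : Low W (C y : MvPolynomial (Fin n) F) := by
  classical
  intro s hs
  rw [MvPolynomial.mem_support_iff, coeff_C] at hs
  by_cases h : 0 = s
  · subst h
    simp only [Finsupp.support_zero, Finset.card_empty]
    omega
  · rw [if_neg h] at hs
    exact absurd rfl hs

theorem Low.zero (W : ℕ) : Low W (0 : MvPolynomial (Fin n) F) := by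
  intro s hs
  simp at hs

theorem Low.pderiv {W : ℕ} {f : MvPolynomial (Fin n) F} (hf : Low W f) (k : Fin n) :
    Low W (MvPolynomial.pderiv k f) := by
  classical
  intro s hs
  rw [MvPolynomial.mem_support_iff, coeff_pderiv] at hs
  have h1 : coeff (s + Finsupp.single k 1) f ≠ 0 := left_ne_zero_of_mul hs
  have h2 := hf _ (MvPolynomial.mem_support_iff.2 h1)
  refine lt_of_le_of_lt (Finset.card_le_card ?_) h2
  intro i hi
  rw [Finsupp.mem_support_iff] at hi ⊢
  rw [Finsupp.add_apply]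
  omega

end low

section qpass

variable {F : Type*} [Field F] {n : ℕ}

/-- sums of products of outputs of register programs in the given orders and polynomials with
small monomials -/
def QPass : List (Equiv.Perm (Fin n)) → ℕ → Set (MvPolynomial (Fin n) F)
  | [], W => {f | Low W f}
  | σ :: L, W => {f | SP {g | IsReg σ W g} (QPass L W) W f}

theorem QPass.zero (L : List (Equiv.Perm (Fin n))) (W : ℕ) :
    (0 : MvPolynomial (Fin n) F) ∈ QPass L W := by
  cases L with
  | nil => exact Low.zero W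
  | cons σ L => exact SP.zero

theorem QPass.mono {W W' : ℕ} (hW : W ≤ W') (L : List (Equiv.Perm (Fin n))) :
    (QPass L W : Set (MvPolynomial (Fin n) F)) ⊆ QPass L W' := by
  induction L with
  | nil => exact fun f hf => Low.mono hW hf
  | cons σ L ih => exact fun f hf => SP.mono hf hW (fun g hg => IsReg.mono hW hg) ih

theorem QPass.low {W : ℕ} (hW : 1 ≤ W) (L : List (Equiv.Perm (Fin n)))
    {f : MvPolynomial (Fin n) F} (hf : Low W f) : f ∈ QPass L W := by
  induction L with
  | nil => exact hf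
  | cons σ L ih =>
    have h1 : f = C 1 * f := by rw [C_1, one_mul]
    show SP _ _ _ _
    rw [h1]
    exact SP.one_term (IsReg.const σ W 1) ih hW

theorem QPass.const {W : ℕ} (hW : 1 ≤ W) (L : List (Equiv.Perm (Fin n))) (y : F) :
    (C y : MvPolynomial (Fin n) F) ∈ QPass L W := QPass.low hW L (Low.const hW y)

theorem QPass.add {W W' : ℕ} {L : List (Equiv.Perm (Fin n))} {f g : MvPolynomial (Fin n) F}
    (hf : f ∈ QPass L W) (hg : g ∈ QPass L W') : f + g ∈ QPass L (W + W') := by
  cases L with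
  | nil => exact Low.add hf hg
  | cons σ L =>
    refine SP.add (SP.mono hf le_rfl ?_ ?_) (SP.mono hg le_rfl ?_ ?_)
    · exact fun g hg => IsReg.mono (Nat.le_add_right _ _) hg
    · exact QPass.mono (Nat.le_add_right _ _) L
    · exact fun g hg => IsReg.mono (Nat.le_add_left _ _) hg
    · exact QPass.mono (Nat.le_add_left _ _) L

theorem QPass.mul {W W' : ℕ} {L : List (Equiv.Perm (Fin n))} :
    ∀ f ∈ (QPass L W : Set (MvPolynomial (Fin n) F)),
      ∀ g ∈ (QPass L W' : Set (MvPolynomial (Fin n) F)),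
      f * g ∈ QPass L ((W + 1) * (W' + 1)) := by
  induction L with
  | nil => exact fun f hf g hg => Low.mul hf hg
  | cons σ L ih =>
    intro f hf g hg
    refine SP.mono (SP.mul hf hg (𝒜'' := {g | IsReg σ ((W + 1) * (W' + 1)) g}) ?_ ih) ?_ le_rfl
      le_rfl
    · intro a ha a' ha'
      exact IsReg.mono (by nlinarith) (IsReg.mul ha ha')
    · nlinarith

theorem QPass.pderiv {W : ℕ} {L : List (Equiv.Perm (Fin n))} (i : Fin n) :
    ∀ f ∈ (QPass L W : Set (MvPolynomial (Fin n) F)),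
      MvPolynomial.pderiv i f ∈ QPass L (2 * W) := by
  induction L with
  | nil => exact fun f hf => (Low.pderiv hf i).mono (by omega)
  | cons σ L ih =>
    intro f hf
    refine SP.der _ hf ?_ ?_
    · intro a ha
      exact ⟨IsReg.mono (by omega) ha, IsReg.pderiv ha i⟩
    · intro b hb
      exact ⟨QPass.mono (by omega) L hb, ih b hb⟩

theorem QPass.append_left {W : ℕ} (hW : 1 ≤ W) (L L' : List (Equiv.Perm (Fin n))) :
    (QPass L' W : Set (MvPolynomial (Fin n) F)) ⊆ QPass (L ++ L') W := by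
  induction L with
  | nil => exact fun f hf => hf
  | cons σ L ih =>
    intro f hf
    have h1 : f = C 1 * f := by rw [C_1, one_mul]
    show SP _ _ _ _
    rw [h1]
    exact SP.one_term (IsReg.const σ W 1) (ih hf) hW

theorem QPass.append_right {W : ℕ} (hW : 1 ≤ W) (L L' : List (Equiv.Perm (Fin n))) :
    (QPass L W : Set (MvPolynomial (Fin n) F)) ⊆ QPass (L ++ L') W := by
  induction L with
  | nil => exact fun f hf => QPass.low hW _ hf
  | cons σ L ih => exact fun f hf => SP.mono hf le_rfl le_rfl ih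

/-- one list of orders for several polynomials -/
theorem QPass.prod {W c : ℕ} (hW : 1 ≤ W) (ρ : ℕ) (L : Fin ρ → List (Equiv.Perm (Fin n)))
    (hL : ∀ i, (L i).length = c) :
    ∃ L' : List (Equiv.Perm (Fin n)), L'.length = ρ * c ∧
      ∀ i, (QPass (L i) W : Set (MvPolynomial (Fin n) F)) ⊆ QPass L' W := by
  induction ρ with
  | zero => exact ⟨[], by simp, fun i => i.elim0⟩
  | succ ρ ih =>
    obtain ⟨L', hL', hsub⟩ := ih (fun i => L i.succ) (fun i => hL _)
    refine ⟨L 0 ++ L', ?_, ?_⟩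
    · rw [List.length_append, hL', hL 0]; ring
    · intro i
      refine Fin.cases ?_ (fun i => ?_) i
      · exact QPass.append_right hW _ _
      · exact (hsub i).trans (QPass.append_left hW _ _)

/-- pad a list of orders -/
theorem QPass.pad {W c c' : ℕ} (hW : 1 ≤ W) (hc : c ≤ c') (L : List (Equiv.Perm (Fin n)))
    (hL : L.length = c) : ∃ L' : List (Equiv.Perm (Fin n)), L'.length = c' ∧
      (QPass L W : Set (MvPolynomial (Fin n) F)) ⊆ QPass L' W := by
  refine ⟨L ++ List.replicate (c' - c) 1, ?_, QPass.append_right hW _ _⟩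
  rw [List.length_append, List.length_replicate, hL]
  omega

end qpass

section rep

variable {F : Type*} [Field F] {n : ℕ}

/-- representations with coefficients in a subalgebra -/
def QRep (𝔸 : Subalgebra F (MvPolynomial (Fin n) F)) (L : List (Equiv.Perm (Fin n))) (W : ℕ)
    (f : MvPolynomial (Fin n) F) : Prop := SP (𝔸 : Set (MvPolynomial (Fin n) F)) (QPass L W) W f

variable {𝔸 : Subalgebra F (MvPolynomial (Fin n) F)} {L : List (Equiv.Perm (Fin n))} {W W' : ℕ}
  {f g : MvPolynomial (Fin n) F}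

theorem QRep.mono (h : QRep 𝔸 L W f) (hW : W ≤ W') : QRep 𝔸 L W' f :=
  SP.mono h hW le_rfl (QPass.mono hW L)

theorem QRep.zero : QRep 𝔸 L W 0 := SP.zero

theorem QRep.smul (hf : QRep 𝔸 L W f) {c : MvPolynomial (Fin n) F} (hc : c ∈ 𝔸) :
    QRep 𝔸 L W (c * f) :=
  SP.smul hf c fun _ ha => 𝔸.mul_mem hc ha

theorem QRep.mul (hf : QRep 𝔸 L W f) (hg : QRep 𝔸 L W' g) :
    QRep 𝔸 L ((W + 1) * (W' + 1)) (f * g) :=
  SP.mono (SP.mul hf hg (fun _ ha _ hb => 𝔸.mul_mem ha hb) QPass.mul) (by nlinarith) le_rfl le_rfl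

theorem QRep.ofMem (hW : 1 ≤ W) (hf : f ∈ (QPass L W : Set (MvPolynomial (Fin n) F))) :
    QRep 𝔸 L W f := by
  have := SP.one_term (𝒜 := (𝔸 : Set (MvPolynomial (Fin n) F))) (ℬ := QPass L W) (a := 1)
    𝔸.one_mem hf hW
  rwa [one_mul] at this

theorem QRep.one (hW : 1 ≤ W) : QRep 𝔸 L W 1 := by
  have := QRep.ofMem (𝔸 := 𝔸) hW (QPass.const hW L (1 : F))
  rwa [map_one] at this

theorem QRep.ofRing (hW : 1 ≤ W) (hf : f ∈ 𝔸) : QRep 𝔸 L W f := by
  have := (QRep.one (𝔸 := 𝔸) (L := L) hW).smul hf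
  rwa [mul_one] at this

theorem QRep.sum {κ : Type*} (s : Finset κ) (f : κ → MvPolynomial (Fin n) F)
    (h : ∀ k ∈ s, QRep 𝔸 L W (f k)) (hs : s.card ≤ W') : QRep 𝔸 L (W' * W) (∑ k ∈ s, f k) := by
  rcases Nat.eq_zero_or_pos W' with h0 | h0
  · have : s = ∅ := Finset.card_eq_zero.1 (by omega)
    subst this
    rw [Finset.sum_empty]
    exact QRep.zero
  · have h1 := SP.sum (𝒜 := (𝔸 : Set (MvPolynomial (Fin n) F))) (ℬ := QPass L W) s f h
    exact h1.mono (Nat.mul_le_mul_right _ hs) le_rfl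
      (QPass.mono (Nat.le_mul_of_pos_left _ h0) L)

/-- the parameter of a product -/
def pw (W : ℕ) : ℕ → ℕ
  | 0 => 1
  | k + 1 => (W + 1) * (pw W k + 1)

theorem pw_pos (W k : ℕ) : 1 ≤ pw W k := by
  cases k with
  | zero => exact le_rfl
  | succ k => simp only [pw]; nlinarith [Nat.zero_le (pw W k)]

theorem pw_mono (W : ℕ) {k k' : ℕ} (h : k ≤ k') : pw W k ≤ pw W k' := by
  induction k', h using Nat.le_induction with
  | base => exact le_rfl
  | succ b _ ih => simp only [pw]; nlinarith [Nat.zero_le (pw W b)]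

theorem QRep.prod {κ : Type*} (s : Finset κ) (f : κ → MvPolynomial (Fin n) F)
    (h : ∀ k ∈ s, QRep 𝔸 L W (f k)) : QRep 𝔸 L (pw W s.card) (∏ k ∈ s, f k) := by
  classical
  induction s using Finset.induction_on with
  | empty => rw [Finset.prod_empty, Finset.card_empty]; exact QRep.one le_rfl
  | insert k s hk ih =>
    rw [Finset.prod_insert hk, Finset.card_insert_of_notMem hk]
    exact (h k (Finset.mem_insert_self _ _)).mul
      (ih fun k' hk' => h k' (Finset.mem_insert_of_mem hk'))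

/-- representation of a determinant -/
theorem QRep.det {ρ Q : ℕ} (hρ : ρ ≤ Q)
    {M : Matrix (Fin ρ) (Fin ρ) (MvPolynomial (Fin n) F)} (h : ∀ i j, QRep 𝔸 L W (M i j)) :
    QRep 𝔸 L (Q.factorial * pw W Q) M.det := by
  classical
  rw [Matrix.det_apply']
  refine QRep.sum _ _ ?_ ?_
  · intro τ _
    refine QRep.smul ?_ (𝔸.intCast_mem _)
    refine (QRep.prod _ _ fun i _ => h _ _).mono ?_
    rw [Finset.card_univ, Fintype.card_fin]
    exact pw_mono W hρ
  · rw [Finset.card_univ, Fintype.card_perm, Fintype.card_fin]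
    exact Nat.factorial_le hρ

end rep

end Pool.Agent.H530R2
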