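import Mathlib
import Pool.Agent.H530R2.Reg1

/-!
The decoupling theorem for register programs with coefficients computed by programs with several
passes.
-/

namespace Pool.Agent.H530R2

open MvPolynomial Module

universe v

section fields

variable {F : Type*} [Field F] {n : ℕ} {ρ : ℕ}

/-- the field of a relation -/
noncomputable def cfield (κ : Fin ρ → Fin n) (m : Fin ρ → MvPolynomial (Fin n) F)
    (μ : MvPolynomial (Fin n) F) (i0 : Fin n) : Fin n → MvPolynomial (Fin n) F :=
  fun k => (if k = i0 then μ else 0) - ∑ p, if k = κ p then m p else 0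

theorem fld_cfield (κ : Fin ρ → Fin n) (m : Fin ρ → MvPolynomial (Fin n) F)
    (μ : MvPolynomial (Fin n) F) (i0 : Fin n) (f : MvPolynomial (Fin n) F) :
    fld (cfield κ m μ i0) f = μ * pderiv i0 f - ∑ p, m p * pderiv (κ p) f := by
  classical
  unfold fld cfield
  simp only [sub_mul, Finset.sum_sub_distrib, ite_mul, zero_mul, Finset.sum_mul]
  rw [Finset.sum_ite_eq' Finset.univ i0, if_pos (Finset.mem_univ _), Finset.sum_comm]
  congr 1
  apply Finset.sum_congr rfl
  intro p _
  rw [Finset.sum_ite_eq' Finset.univ (κ p), if_pos (Finset.mem_univ _)]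

theorem cfield_supp {S : Finset (Fin n)} (κ : Fin ρ → Fin n) (hκ : ∀ q, κ q ∈ S)
    (m : Fin ρ → MvPolynomial (Fin n) F) (μ : MvPolynomial (Fin n) F) (i0 : Fin n) (k : Fin n)
    (hk : k ∉ insert i0 S) : cfield κ m μ i0 k = 0 := by
  rw [Finset.mem_insert, not_or] at hk
  unfold cfield
  rw [if_neg hk.1, zero_sub, neg_eq_zero]
  apply Finset.sum_eq_zero
  intro p _
  rw [if_neg]
  rintro rfl
  exact hk.2 (hκ p)

/-- transfer of a dependence between two families -/
theorem dep_transfer {ι ι' : Type} [Fintype ι] {G : ι → MvPolynomial (Fin n) F}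
    {G' : ι' → MvPolynomial (Fin n) F} {S : Finset (Fin n)} {i0 : Fin n}
    (h : ∀ γ, Kil (insert i0 S) G γ → ∀ i, fld γ (G' i) = 0)
    (hB : dv G i0 ∈ sp S G) : dv G' i0 ∈ sp S G' := by
  classical
  obtain ⟨ρ, κ, g, m, _, hκ, hμ0, hrel⟩ := cramer_rel hB
  set ν := (Matrix.of fun q l => pderiv (κ q) (G (g l))).det with hν
  have h3 := h (cfield κ m ν i0) ⟨cfield_supp κ hκ m ν i0, fun i => by
    rw [fld_cfield, hrel i, sub_self]⟩
  have h4 : ∀ i, ν * pderiv i0 (G' i) = ∑ q, m q * pderiv (κ q) (G' i) := by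
    intro i
    have := h3 i
    rw [fld_cfield] at this
    exact sub_eq_zero.1 this
  set φ := algebraMap (MvPolynomial (Fin n) F)
    (FractionRing (MvPolynomial (Fin n) F)) with hφ
  have hφν : φ ν ≠ 0 := by
    intro h0
    apply hμ0
    exact IsFractionRing.injective _ (FractionRing (MvPolynomial (Fin n) F))
      (by rw [← hφ, h0, map_zero])
  have h5 : dv G' i0 = ∑ q, ((φ ν)⁻¹ * φ (m q)) • dv G' (κ q) := by
    funext i
    have h6 := congrArg φ (h4 i)
    rw [map_mul, map_sum] at h6
    simp only [Finset.sum_apply, Pi.smul_apply, smul_eq_mul, dv]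
    rw [← hφ]
    calc φ (pderiv i0 (G' i)) = (φ ν)⁻¹ * (φ ν * φ (pderiv i0 (G' i))) := by
          rw [← mul_assoc, inv_mul_cancel₀ hφν, one_mul]
      _ = _ := by
          rw [h6, Finset.mul_sum]
          apply Finset.sum_congr rfl
          intro q _
          rw [map_mul]
          ring
  rw [h5]
  refine Submodule.sum_mem _ fun q _ => Submodule.smul_mem _ _ ?_
  exact Submodule.subset_span ⟨κ q, by exact_mod_cast hκ q, rfl⟩

end fields

/-- combinations of programs with `c` passes with coefficients in the free variables vanish if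
they belong to the ideals -/
def QRel (F : Type v) [Field F] (c : ℕ) : Prop :=
  ∀ Q W : ℕ, ∃ e : ℕ, ∀ (n : ℕ) (V : VanM F n) (L : List (Equiv.Perm (Fin n))), L.length = c →
    ∀ (Y : Finset (Fin n)) (E P : Fin Q → MvPolynomial (Fin n) F),
      (∀ q, E q ∈ supported F (Y : Set (Fin n))) → (∀ q, P q ∈ QPass L W) →
      ∑ q, E q * P q ∈ V.I e Y → ∑ q, E q * P q = 0

/-- the decoupling statement -/
def DecR (F : Type v) [Field F] (c w s : ℕ) : Prop :=
  ∀ l Q W : ℕ, ∃ e : ℕ, ∀ (n : ℕ) (V : VanM F n) (L : List (Equiv.Perm (Fin n))), L.length = c →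
    ∀ (σ : Equiv.Perm (Fin n)) (p : ℕ → Fin w → MvPolynomial (Fin n) F),
      (∀ b (hb : b < n) i, p (b + 1) i ∈
        Algebra.adjoin F (Set.range (p b) ∪ X '' {σ ⟨b, hb⟩})) →
    ∀ (ι : Type) [Fintype ι] (J : ℕ → ι → MvPolynomial (Fin n) F), Sys σ p J →
      Fintype.card ι ≤ l →
      ∀ (Y : Finset (Fin n)) (a' b : ℕ), a' ≤ b → b ≤ n →
      (a' = b ∨ w + 1 ≤ er (Zs σ a') (p b) + s) →
      ∀ (E P : Fin Q → MvPolynomial (Fin n) F),
      (∀ q, Ctrl (((Zs σ b \ Zs σ a') \ Y : Finset (Fin n)) : Set (Fin n)) (J b) (E q)) →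
      (∀ q, P q ∈ QPass L W) → ∀ j, ∑ q, E q * P q ∈ V.I (j + e) (Y ∪ Zs σ a') →
      ∑ q, E q * P q ∈ V.I j (Y ∪ Zs σ b)

variable {F : Type v} [Field F]

theorem DecR.zero (c w : ℕ) : DecR F c w 0 := by
  intro l Q W
  refine ⟨0, ?_⟩
  intro n V L hL σ p hp ι _ J hJ hcard Y a' b hab hbn hor E P hE hP j h0
  rcases hor with rfl | h
  · exact h0
  · exfalso
    have h2 := er_le_card (Zs σ a') (p b)
    rw [Fintype.card_fin] at h2
    omega

/-- represented elements of the ideals vanish -/
theorem qrep_zero {n : ℕ} (V : VanM F n) {L : List (Equiv.Perm (Fin n))}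
    {σ : Equiv.Perm (Fin n)} {w : ℕ} {p : ℕ → Fin w → MvPolynomial (Fin n) F} {ι : Type}
    [Fintype ι] {J : ℕ → ι → MvPolynomial (Fin n) F} (hJ : Sys σ p J)
    {Y : Finset (Fin n)} {t b' : ℕ} (htb : t + 1 < b') (hb'n : b' ≤ n) {M e e' : ℕ}
    (hdec : ∀ (E P : Fin M → MvPolynomial (Fin n) F),
      (∀ q, Ctrl (((Zs σ (b' - 1) \ Zs σ (t + 1)) \ Y : Finset (Fin n)) : Set (Fin n))
        (J (b' - 1)) (E q)) →
      (∀ q, P q ∈ QPass L M) → ∀ j, ∑ q, E q * P q ∈ V.I (j + e) (Y ∪ Zs σ (t + 1)) →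
      ∑ q, E q * P q ∈ V.I j (Y ∪ Zs σ (b' - 1)))
    (hH : ∀ (Y : Finset (Fin n)) (E P : Fin M → MvPolynomial (Fin n) F),
      (∀ q, E q ∈ supported F (Y : Set (Fin n))) → (∀ q, P q ∈ QPass L M) →
      ∑ q, E q * P q ∈ V.I e' Y → ∑ q, E q * P q = 0)
    {x : MvPolynomial (Fin n) F}
    (hx : QRep (Algebra.adjoin F (Set.range (J b'))) L M x)
    (hmem : x ∈ V.I (e' + 1 + e + 1) (Y ∪ Zs σ t)) : x = 0 := by
  classical
  have htn : t < n := by omega
  have hb'n' : b' - 1 < n := by omega
  obtain ⟨c, P, hc, hP, rfl⟩ := SP.toFin hx (Subalgebra.zero_mem _) (QPass.zero L M)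
  have h1 : ∑ q, c q * P q ∈ V.I (e' + 1 + e) (Y ∪ Zs σ (t + 1)) := by
    rw [Zs_succ σ htn, Finset.union_insert]
    exact V.free _ _ _ _ hmem
  have hctrl : ∀ q, Ctrl (((Zs σ (b' - 1) \ Zs σ (t + 1)) \ Y : Finset (Fin n)) : Set (Fin n))
      (J (b' - 1)) (c q) := by
    intro q
    have h2 : c q ∈ Algebra.adjoin F (Set.range (J (b' - 1)) ∪ X '' {σ ⟨b' - 1, hb'n'⟩}) := by
      refine (Algebra.adjoin_le ?_) (hc q)
      rintro _ ⟨i, rfl⟩
      have := hJ.stepm (b' - 1) hb'n' i
      rwa [Nat.sub_add_cancel (by omega)] at this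
    refine (ctrl_of_adjoin h2).mono ?_
    intro k hk
    rw [Finset.mem_coe, Finset.mem_sdiff, Finset.mem_sdiff] at hk
    rw [Set.mem_compl_iff, Set.mem_singleton_iff]
    rintro rfl
    exact not_mem_Zs σ hb'n' le_rfl hk.1.1
  have h2 := hdec c P hctrl hP (e' + 1) h1
  have h3 : ∑ q, c q * P q ∈ V.I e' (Y ∪ Zs σ b') := by
    have := V.free e' _ (σ ⟨b' - 1, hb'n'⟩) _ h2
    rwa [← Finset.union_insert, ← Zs_succ σ hb'n', Nat.sub_add_cancel (by omega)] at this
  refine hH (Y ∪ Zs σ b') c P (fun q => ?_) hP h3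
  have h4 : c q ∈ supported F (Zs σ b' : Set (Fin n)) := by
    refine (Algebra.adjoin_le ?_) (hc q)
    rintro _ ⟨i, rfl⟩
    exact hJ.supp b' i
  exact supported_mono (by
    rw [Finset.coe_union]
    exact Set.subset_union_right) h4

theorem DecR.succ {c w s : ℕ} (hH : QRel F c) (ih : DecR F c w s) :
    DecR F c w (s + 1) := by
  classical
  intro l Q W
  set M := (l + Q).factorial * pw (2 * (W + 1)) (l + Q) with hM
  obtain ⟨eA, hA⟩ := ih l Q W
  obtain ⟨eΔ, hdecΔ⟩ := ih (l + (l + Q) * l) M M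
  obtain ⟨eH, hHe⟩ := hH M M
  refine ⟨(eA + (eH + 1 + eΔ + 1) + 1) + (l + Q), ?_⟩
  intro n V L hL σ p hp ι _ J hJ hcard Y a' b hab hbn hor E P hE hP j h0
  by_cases hA0 : a' = b ∨ w + 1 ≤ er (Zs σ a') (p b) + s
  · exact hA n V L hL σ p hp ι J hJ hcard Y a' b hab hbn hA0 E P hE hP j
      (V.mono (by omega) _ h0)
  push Not at hA0
  obtain ⟨hne, hlt⟩ := hA0
  have hr : er (Zs σ a') (p b) + s = w := by
    rcases hor with h | h
    · exact absurd h hne
    · omega
  set G : ι ⊕ Fin Q → MvPolynomial (Fin n) F := Sum.elim (J b) P with hG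
  have hGcard : ∀ S : Finset (Fin n), er S G ≤ l + Q := by
    intro S
    have := er_le_card S G
    rw [Fintype.card_sum, Fintype.card_fin] at this
    omega
  have claim : ∀ d t : ℕ, t + d = b → a' ≤ t → ∀ j,
      ∑ q, E q * P q ∈ V.I (j + (eA + (eH + 1 + eΔ + 1) + 1) +
        ((l + Q) - er ((Zs σ t \ Zs σ a') \ Y) G))
        (Y ∪ Zs σ t) → ∑ q, E q * P q ∈ V.I j (Y ∪ Zs σ b) := by
    intro d
    induction d with
    | zero =>
      intro t htb hat j h
      have : t = b := by omega
      subst this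
      exact V.mono (by omega) _ h
    | succ d ihd =>
      intro t htb hat j h
      have htn : t < n := by omega
      set i0 := σ ⟨t, htn⟩ with hi0
      have hZ : Zs σ (t + 1) = insert i0 (Zs σ t) := Zs_succ σ htn
      have hi0Z : i0 ∉ Zs σ t := not_mem_Zs σ htn le_rfl
      have hi0Za : i0 ∉ Zs σ a' := not_mem_Zs σ htn hat
      have hZY : Y ∪ Zs σ (t + 1) = insert i0 (Y ∪ Zs σ t) := by
        rw [hZ, Finset.union_insert]
      by_cases hi0Y : i0 ∈ Y
      · have h1 : Y ∪ Zs σ (t + 1) = Y ∪ Zs σ t := by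
          rw [hZY, Finset.insert_eq_of_mem (Finset.mem_union_left _ hi0Y)]
        have h2 : (Zs σ (t + 1) \ Zs σ a') \ Y = (Zs σ t \ Zs σ a') \ Y := by
          ext k
          simp only [Finset.mem_sdiff, hZ, Finset.mem_insert]
          constructor
          · rintro ⟨⟨hk | hk, h3⟩, h4⟩
            · rw [hk] at h4; exact absurd hi0Y h4
            · exact ⟨⟨hk, h3⟩, h4⟩
          · rintro ⟨⟨hk, h3⟩, h4⟩
            exact ⟨⟨Or.inr hk, h3⟩, h4⟩
        refine ihd (t + 1) (by omega) (by omega) j ?_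
        rw [h1, h2]
        exact h
      set S := (Zs σ t \ Zs σ a') \ Y with hS
      have hS1 : (Zs σ (t + 1) \ Zs σ a') \ Y = insert i0 S := by
        ext k
        simp only [Finset.mem_sdiff, hZ, Finset.mem_insert, hS]
        constructor
        · rintro ⟨⟨hk | hk, h3⟩, h4⟩
          · exact Or.inl hk
          · exact Or.inr ⟨⟨hk, h3⟩, h4⟩
        · rintro (hk | ⟨⟨hk, h3⟩, h4⟩)
          · rw [hk]; exact ⟨⟨Or.inl rfl, hi0Za⟩, hi0Y⟩
          · exact ⟨⟨Or.inr hk, h3⟩, h4⟩
      have hSt1 : insert i0 S ⊆ Zs σ (t + 1) := by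
        rw [← hS1]
        exact Finset.sdiff_subset.trans Finset.sdiff_subset
      have hSZ : S ⊆ Y ∪ Zs σ t :=
        (Finset.sdiff_subset.trans Finset.sdiff_subset).trans Finset.subset_union_right
      have hi0YZ : i0 ∉ Y ∪ Zs σ t := by
        rw [Finset.mem_union]; tauto
      by_cases hA' : t + 1 = b ∨ w + 1 ≤ er (Zs σ (t + 1)) (p b) + s
      · have h1 : ∑ q, E q * P q ∈ V.I (j + eA) (Y ∪ Zs σ (t + 1)) := by
          rw [hZY]
          apply V.free
          exact V.mono (by omega) _ h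
        refine hA n V L hL σ p hp ι J hJ hcard Y (t + 1) b (by omega) hbn hA' E P ?_ hP j h1
        intro q
        refine (hE q).mono ?_
        intro k hk
        rw [Finset.mem_coe, Finset.mem_sdiff, Finset.mem_sdiff] at hk ⊢
        exact ⟨⟨hk.1.1, fun hc => hk.1.2 (Zs_mono (by omega) hc)⟩, hk.2⟩
      push Not at hA'
      obtain ⟨htb1, hlt1⟩ := hA'
      have hge1 : er (Zs σ a') (p b) ≤ er (Zs σ (t + 1)) (p b) :=
        er_mono (Zs_mono (by omega)) _
      have her1 : er (Zs σ (t + 1)) (p b) + s = w := by omega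
      have hcle := hGcard (insert i0 S)
      have hemono : er S G ≤ er (insert i0 S) G := er_mono (Finset.subset_insert _ _) _
      by_cases hjump : er S G < er (insert i0 S) G
      · refine ihd (t + 1) (by omega) (by omega) j ?_
        rw [hS1, hZY]
        apply V.free
        refine V.mono ?_ _ h
        omega
      push Not at hjump
      -- a lossless step
      have hspeq : sp S G = sp (insert i0 S) G := by
        apply Submodule.eq_of_le_of_finrank_le
        · unfold sp
          apply Submodule.span_mono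
          apply Set.image_mono
          exact_mod_cast Finset.subset_insert _ _
        · exact hjump
      have hB : dv G i0 ∈ sp S G := by
        rw [hspeq]
        exact Submodule.subset_span ⟨i0, by
          rw [Finset.mem_coe]; exact Finset.mem_insert_self _ _, rfl⟩
      -- minimal time with the same rank
      have hex : ∃ c, t + 1 < c ∧ er (Zs σ (t + 1)) (p c) + s ≤ w :=
        ⟨b, by omega, by omega⟩
      set b' := Nat.find hex with hb'
      have hb'1 : t + 1 < b' := (Nat.find_spec hex).1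
      have hb'2 : er (Zs σ (t + 1)) (p b') + s ≤ w := (Nat.find_spec hex).2
      have hb'b : b' ≤ b := Nat.find_min' hex ⟨by omega, by omega⟩
      have hb'3 : t + 1 = b' - 1 ∨ w + 1 ≤ er (Zs σ (t + 1)) (p (b' - 1)) + s := by
        by_cases h1 : t + 1 = b' - 1
        · exact Or.inl h1
        · right
          have h2 := Nat.find_min hex (m := b' - 1) (by omega)
          push Not at h2
          have := h2 (by omega)
          omega
      clear_value b'
      have her2 : er (Zs σ (t + 1)) (p b') = er (Zs σ (t + 1)) (p b) := by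
        have := er_anti hp hb'b hbn (S := Zs σ (t + 1)) (Zs_mono (by omega))
        omega
      set G' : ι ⊕ Fin Q → MvPolynomial (Fin n) F := Sum.elim (J b') P with hG'
      have hB' : dv G' i0 ∈ sp S G' := by
        refine dep_transfer ?_ hB
        intro γ hγ
        have h1 : ∀ i, ∑ k, γ k * pderiv k (J b i) = 0 := fun i => hγ.2 (Sum.inl i)
        have h2 := hJ.etale (t + 1) b' b (by omega) hb'b hbn her2 γ
          (fun k hk => hγ.1 k (fun hc => hk (hSt1 hc))) h1
        rintro (i | q)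
        · exact h2 i
        · exact hγ.2 (Sum.inr q)
      obtain ⟨ρ, κ, g, m, hρ, hκ, hμ0, hrel⟩ := cramer_rel hB'
      set μ := (Matrix.of fun q l => pderiv (κ q) (G' (g l))).det with hμ
      have hρ' : ρ ≤ l + Q := by
        rw [Fintype.card_sum, Fintype.card_fin] at hρ
        omega
      -- the minor does not vanish
      have hJ' := hJ.prol κ
      have hcard' : Fintype.card (ι ⊕ Fin ρ × ι) ≤ l + (l + Q) * l := by
        rw [Fintype.card_sum, Fintype.card_prod, Fintype.card_fin]
        exact Nat.add_le_add hcard (Nat.mul_le_mul hρ' hcard)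
      have hnon : μ ∉ V.I (j + (eA + (eH + 1 + eΔ + 1) + 1) +
          ((l + Q) - er S G)) (Y ∪ Zs σ t) := by
        intro hmem
        apply hμ0
        have hrep : QRep (Algebra.adjoin F (Set.range (prol κ J b'))) L M μ := by
          refine QRep.det hρ' fun q q' => ?_
          simp only [Matrix.of_apply, hG']
          rcases g q' with i | r
          · refine QRep.ofRing (by omega) ?_
            exact Algebra.subset_adjoin ⟨Sum.inr (q, i), rfl⟩
          · refine QRep.ofMem (by omega) ?_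
            exact QPass.mono (by omega) L (QPass.pderiv (κ q) _ (hP r))
        exact qrep_zero V hJ' hb'1 (by omega)
          (fun E P => hdecΔ n V L hL σ p hp _ _ hJ' hcard' Y (t + 1) (b' - 1) (by omega)
            (by omega) hb'3 E P) (hHe n V L hL) hrep (V.mono (by omega) _ hmem)
      -- the differential relation
      have hE' : ∀ q, Ctrl ((insert i0 S : Finset (Fin n)) : Set (Fin n)) (J b') (E q) := by
        intro q
        have hsub : ((insert i0 S : Finset (Fin n)) : Set (Fin n)) ⊆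
            (((Zs σ b \ Zs σ a') \ Y : Finset (Fin n)) : Set (Fin n)) := by
          rw [← hS1]
          intro k hk
          rw [Finset.mem_coe, Finset.mem_sdiff, Finset.mem_sdiff] at hk ⊢
          exact ⟨⟨Zs_mono (by omega) hk.1.1, hk.1.2⟩, hk.2⟩
        refine Ctrl.trans (J' := J b) ?_ ((hE q).mono hsub)
        intro i
        refine (ctrl_chain hJ.stepm hb'b hbn i).mono ?_
        intro k hk
        exact_mod_cast Zs_mono (by omega) (hSt1 (Finset.mem_coe.1 hk))
      have hkil : Kil (insert i0 S) G' (cfield κ m μ i0) :=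
        ⟨cfield_supp κ hκ m μ i0, fun i => by rw [fld_cfield, hrel i, sub_self]⟩
      have hkilJ : Kil (insert i0 S) (J b') (cfield κ m μ i0) :=
        ⟨hkil.1, fun i => hkil.2 (Sum.inl i)⟩
      have hpde : μ * pderiv i0 (∑ q, E q * P q) = ∑ x, m x * pderiv (κ x) (∑ q, E q * P q) := by
        rw [← sub_eq_zero, ← fld_cfield, fld_sum]
        apply Finset.sum_eq_zero
        intro q _
        rw [fld_mul, fld_ctrl le_rfl (hE' q) hkilJ, zero_mul, zero_add]
        have h1 : fld (cfield κ m μ i0) (P q) = 0 := hkil.2 (Sum.inr q)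
        rw [h1, mul_zero]
      have h8 := V.lossless _ (Y ∪ Zs σ t) i0 hi0YZ ρ κ (fun q => hSZ (hκ q)) 1
        (fun _ => ∑ q, E q * P q) μ m (fun _ _ => 0) (fun _ => by simpa using hpde)
        (fun _ => h) hnon 0
      refine ihd (t + 1) (by omega) (by omega) j ?_
      rw [hS1, hZY]
      refine V.mono ?_ _ h8
      omega
  refine claim (b - a') a' (by omega) le_rfl j ?_
  refine V.mono ?_ _ h0
  omega

theorem DecR.all {c : ℕ} (hH : QRel F c) (w s : ℕ) : DecR F c w s := by
  induction s with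
  | zero => exact DecR.zero c w
  | succ s ih => exact DecR.succ hH ih

end Pool.Agent.H530R2
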