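import Mathlib
import Pool.Agent.H530R2.Reg2

/-!
Programs with a constant number of passes and registers do not vanish on the ideals; composites.
-/

namespace Pool.Agent.H530R2

open MvPolynomial Module

universe v

section low

variable {F : Type*} [Field F] [CharZero F] {n : ℕ}

theorem mem_supported_of_pderiv {Y : Finset (Fin n)} {f : MvPolynomial (Fin n) F}
    (h : ∀ i, i ∉ Y → pderiv i f = 0) : f ∈ supported F (Y : Set (Fin n)) := by
  classical
  rw [mem_supported]
  intro i hi
  by_contra hiY
  obtain ⟨s, hs, his⟩ := (mem_vars_iff_mem_support _).1 hi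
  rw [Finsupp.mem_support_iff] at his
  have h1 := coeff_pderiv (i := i) f (s - Finsupp.single i 1)
  have h2 : s - Finsupp.single i 1 + Finsupp.single i 1 = s := by
    apply tsub_add_cancel_of_le
    intro j
    by_cases hj : j = i
    · subst hj; rw [Finsupp.single_eq_same]; omega
    · rw [Finsupp.single_eq_of_ne hj]; exact Nat.zero_le _
  rw [h i (by exact_mod_cast hiY), coeff_zero, h2] at h1
  rcases mul_eq_zero.1 h1.symm with h3 | h3
  · exact (MvPolynomial.mem_support_iff.1 hs) h3
  · have h4 : ((((s - Finsupp.single i 1 : Fin n →₀ ℕ) i + 1 : ℕ)) : F) = 0 := by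
      push_cast
      exact h3
    rw [Nat.cast_eq_zero] at h4
    exact Nat.succ_ne_zero _ h4

/-- polynomials with few variables outside the free set in every monomial -/
theorem VanM.low_zero (V : VanM F n) (W : ℕ) : ∀ (Y : Finset (Fin n))
    (f : MvPolynomial (Fin n) F), (∀ s ∈ f.support, (s.support \ Y).card ≤ W) →
    f ∈ V.I W Y → f = 0 := by
  classical
  induction W with
  | zero =>
    intro Y f hf hmem
    refine V.supp 0 Y f ?_ hmem
    rw [mem_supported]
    intro i hi
    obtain ⟨s, hs, his⟩ := (mem_vars_iff_mem_support _).1 hi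
    have h1 := hf s hs
    rw [Nat.le_zero, Finset.card_eq_zero, Finset.sdiff_eq_empty_iff_subset] at h1
    exact_mod_cast h1 his
  | succ W ih =>
    intro Y f hf hmem
    refine V.supp (W + 1) Y f ?_ hmem
    apply mem_supported_of_pderiv
    intro i hi
    have h1 : f ∈ V.I W (insert i Y) := V.free W Y i f hmem
    refine ih (insert i Y) _ ?_ (V.der W (insert i Y) i (Finset.mem_insert_self _ _) f h1)
    intro s hs
    rw [MvPolynomial.mem_support_iff, coeff_pderiv] at hs
    have h2 : coeff (s + Finsupp.single i 1) f ≠ 0 := left_ne_zero_of_mul hs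
    have h3 := hf _ (MvPolynomial.mem_support_iff.2 h2)
    have h4 : insert i (s.support \ insert i Y) ⊆ (s + Finsupp.single i 1).support \ Y := by
      intro k hk
      rw [Finset.mem_insert] at hk
      rw [Finset.mem_sdiff, Finsupp.mem_support_iff, Finsupp.add_apply]
      rcases hk with rfl | hk
      · rw [Finsupp.single_eq_same]
        exact ⟨by omega, hi⟩
      · rw [Finset.mem_sdiff, Finsupp.mem_support_iff, Finset.mem_insert, not_or] at hk
        exact ⟨by omega, hk.2.2⟩
    have h5 := Finset.card_le_card h4
    rw [Finset.card_insert_of_notMem (by simp)] at h5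
    omega

theorem QRel.zero (F : Type v) [Field F] [CharZero F] : QRel F 0 := by
  classical
  intro Q W
  refine ⟨W, ?_⟩
  intro n V L hL Y E P hE hP h
  have hL' : L = [] := List.length_eq_zero_iff.1 hL
  subst hL'
  refine V.low_zero W Y _ ?_ h
  have key : ∀ T : Finset (Fin Q), ∀ s ∈ (∑ q ∈ T, E q * P q).support,
      (s.support \ Y).card ≤ W := by
    intro T
    induction T using Finset.induction_on with
    | empty =>
      intro s hs
      simp at hs
    | insert q T hq ih =>
      intro s hs
      rw [Finset.sum_insert hq] at hs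
      rcases Finset.mem_union.1 (support_add hs) with h1 | h1
      · obtain ⟨s1, h2, s2, h3, rfl⟩ := Finset.mem_add.1 (support_mul _ _ h1)
        have h4 : s1.support ⊆ Y := by
          intro i hi
          have := (mem_supported.1 (hE q)) (Finset.mem_coe.2 ((mem_vars_iff_mem_support _).2 ⟨s1, h2, hi⟩))
          exact_mod_cast this
        have h5 : s2.support.card < W := hP q s2 h3
        have h6 : (s1 + s2).support \ Y ⊆ s2.support := by
          intro i hi
          rw [Finset.mem_sdiff, Finsupp.mem_support_iff, Finsupp.add_apply] at hi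
          rw [Finsupp.mem_support_iff]
          intro h7
          apply hi.2
          apply h4
          rw [Finsupp.mem_support_iff]
          omega
        have := Finset.card_le_card h6
        omega
      · exact ih s h1
  exact key Finset.univ

end low

variable {F : Type v} [Field F]

theorem QRel.succ {c : ℕ} (hH : QRel F c) : QRel F (c + 1) := by
  classical
  intro Q W
  obtain ⟨e, he⟩ := DecR.all hH ((Q * W) * W) ((Q * W) * W + 1) ((Q * W) * W) (Q * W) W
  refine ⟨e, ?_⟩
  intro n V L hL Y E P hE hP h
  obtain ⟨σ, L', rfl⟩ : ∃ σ L', L = σ :: L' := by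
    cases L with
    | nil => simp at hL
    | cons σ L' => exact ⟨σ, L', rfl⟩
  have hL' : L'.length = c := by simpa using hL
  have hz : IsReg σ W (0 : MvPolynomial (Fin n) F) := by
    have := IsReg.const σ W (0 : F)
    rwa [map_zero] at this
  choose A B hA hB hAB using fun q => SP.toFin (hP q) hz (QPass.zero L' W)
  set eq := (finProdFinEquiv : Fin Q × Fin W ≃ Fin (Q * W)) with heq
  set A' : Fin (Q * W) → MvPolynomial (Fin n) F := fun i => A (eq.symm i).1 (eq.symm i).2 with hA'
  set B' : Fin (Q * W) → MvPolynomial (Fin n) F := fun i => B (eq.symm i).1 (eq.symm i).2 with hB'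
  set E' : Fin (Q * W) → MvPolynomial (Fin n) F := fun i => E (eq.symm i).1 with hE'
  have hsum : ∑ q, E q * P q = ∑ i, (E' i * A' i) * B' i := by
    rw [← Equiv.sum_comp eq, Fintype.sum_prod_type]
    apply Finset.sum_congr rfl
    intro q _
    rw [hAB q, Finset.mul_sum]
    apply Finset.sum_congr rfl
    intro r _
    simp only [hA', hB', hE', Equiv.symm_apply_apply]
    ring
  rw [hsum] at h ⊢
  have hA'' : ∀ i, IsReg σ W (A' i) := fun i => hA _ _
  choose p hp hpA using hA''
  -- joint registers
  set e2 := (finProdFinEquiv : Fin (Q * W) × Fin W ≃ Fin ((Q * W) * W)) with he2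
  set P₀ : ℕ → Fin ((Q * W) * W) → MvPolynomial (Fin n) F :=
    fun b x => p (e2.symm x).1 (min b n) (e2.symm x).2 with hP₀
  have hst : ∀ b (hb : b < n) i, P₀ (b + 1) i ∈
      Algebra.adjoin F (Set.range (P₀ b) ∪ X '' {σ ⟨b, hb⟩}) := by
    intro b hb i
    simp only [hP₀]
    rw [Nat.min_eq_left (by omega : b + 1 ≤ n), Nat.min_eq_left (by omega : b ≤ n)]
    refine Algebra.adjoin_mono ?_ ((hp (e2.symm i).1).stepm b hb (e2.symm i).2)
    apply Set.union_subset_union_left
    rintro _ ⟨x, rfl⟩
    exact ⟨e2 ((e2.symm i).1, x), by simp only [Equiv.symm_apply_apply]⟩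
  have hsupp : ∀ b i, P₀ b i ∈ supported F (Zs σ b : Set (Fin n)) := by
    intro b i
    refine supported_mono ?_ ((hp (e2.symm i).1).supp (min b n) (Nat.min_le_right _ _) _)
    intro k hk
    exact_mod_cast Zs_mono (Nat.min_le_left _ _) (Finset.mem_coe.1 hk)
  have hsys : Sys σ P₀ P₀ := Sys.base hsupp hst
  have hctrl : ∀ i, Ctrl (((Zs σ n \ Zs σ 0) \ Y : Finset (Fin n)) : Set (Fin n))
      (P₀ n) (E' i * A' i) := by
    intro i
    refine (ctrl_of_adjoin (W := (Y : Set (Fin n))) ?_).mono ?_
    · refine Subalgebra.mul_mem _ ?_ ?_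
      · exact Algebra.adjoin_mono Set.subset_union_right (hE _)
      · refine Algebra.adjoin_mono ?_ (hpA i)
        refine Set.Subset.trans ?_ Set.subset_union_left
        rintro _ ⟨x, rfl⟩
        exact ⟨e2 (i, x), by simp only [hP₀, Equiv.symm_apply_apply, Nat.min_self]⟩
    · intro k hk
      rw [Finset.mem_coe, Finset.mem_sdiff] at hk
      exact hk.2
  have h1 := he n V L' hL' σ P₀ hst (Fin ((Q * W) * W)) P₀ hsys (by rw [Fintype.card_fin]) Y 0 n
    (Nat.zero_le _) le_rfl (Or.inr (by omega)) (fun i => E' i * A' i) B' hctrl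
    (fun i => hB _ _) 0 (by rw [zero_add, Zs_zero, Finset.union_empty]; exact h)
  refine V.supp 0 _ _ ?_ h1
  rw [Zs_last, Finset.union_eq_right.2 (Finset.subset_univ _), Finset.coe_univ, supported_univ]
  trivial

/-- Programs with a constant number of passes and registers are not in the ideals. -/
theorem QRel.all (F : Type v) [Field F] [CharZero F] (c : ℕ) : QRel F c := by
  induction c with
  | zero => exact QRel.zero F
  | succ c ih => exact QRel.succ ih

end Pool.Agent.H530R2
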