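import Mathlib
import Pool.Agent.H530R2.Reg3

/-!
Composites of bounded transcendence degree.
-/

namespace Pool.Agent.H530R2

open MvPolynomial Module

universe v

section comp

variable {F : Type v} [Field F] [CharZero F] {n : ℕ}

/-- composites of bounded transcendence degree, if the minors of the Jacobian matrix do not
belong to the ideals -/
theorem comp_zero (V : VanM F n) {N : ℕ} (g : Fin N → MvPolynomial (Fin n) F) (r e : ℕ)
    (htr : ∀ s : Fin (r + 1) → Fin N, ¬ AlgebraicIndependent F (fun i => g (s i)))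
    (hmin : ∀ (ρ : ℕ) (κ : Fin ρ → Fin n) (g' : Fin ρ → Fin N), ρ ≤ r →
      (Matrix.of fun q l => pderiv (κ q) (g (g' l))).det ≠ 0 →
      ∀ Y, (Matrix.of fun q l => pderiv (κ q) (g (g' l))).det ∉ V.I e Y)
    (Φ : MvPolynomial (Fin N) F) (Y : Finset (Fin n)) (hmem : aeval g Φ ∈ V.I (e + r) Y) :
    aeval g Φ = 0 := by
  classical
  -- the maximal minor
  obtain ⟨ρ, κ, g', _, _, hdet, hrel⟩ := cramer_unif
    (fun (k : Fin n) (i : Fin N) => pderiv k (g i)) (Set.univ : Set (Fin n))
  have hρ : ρ ≤ r := by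
    by_contra hcon
    push Not at hcon
    have hind := algIndep_of_det (fun l => g (g' l)) κ hdet
    have hle : r + 1 ≤ ρ := hcon
    apply htr (fun i => g' (Fin.castLE hle i))
    exact hind.comp _ (Fin.castLE_injective hle)
  have hnon := hmin ρ κ g' hρ hdet
  set μ := (Matrix.of fun q l => pderiv (κ q) (g (g' l))).det with hμ
  -- free the directions `κ`
  have hfree : ∀ (s : ℕ) (hs : s ≤ ρ), aeval g Φ ∈
      V.I (e + (r - s)) (Finset.univ.image (fun q : Fin s => κ (Fin.castLE hs q)) ∪ Y) := by
    intro s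
    induction s with
    | zero =>
      intro hs
      simpa using hmem
    | succ s ih =>
      intro hs
      have h1 := ih (by omega)
      have h2 : e + (r - s) = (e + (r - (s + 1))) + 1 := by omega
      rw [h2] at h1
      have h3 := V.free _ _ (κ ⟨s, by omega⟩) _ h1
      have h4 : insert (κ ⟨s, by omega⟩) (Finset.univ.image
          (fun q : Fin s => κ (Fin.castLE (by omega : s ≤ ρ) q)) ∪ Y) =
          Finset.univ.image (fun q : Fin (s + 1) => κ (Fin.castLE hs q)) ∪ Y := by
        ext k
        simp only [Finset.mem_insert, Finset.mem_union, Finset.mem_image, Finset.mem_univ,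
          true_and]
        constructor
        · rintro (rfl | ⟨q, rfl⟩ | h)
          · exact Or.inl ⟨Fin.last s, rfl⟩
          · exact Or.inl ⟨q.castSucc, rfl⟩
          · exact Or.inr h
        · rintro (⟨q, rfl⟩ | h)
          · refine Fin.lastCases ?_ (fun q => ?_) q
            · exact Or.inl rfl
            · exact Or.inr (Or.inl ⟨q, rfl⟩)
          · exact Or.inr (Or.inr h)
      rw [← h4]
      exact h3
  have h0 := V.mono (show e ≤ e + (r - ρ) by omega) _ (hfree ρ le_rfl)
  set Z₀ := Finset.univ.image (fun q : Fin ρ => κ (Fin.castLE le_rfl q)) ∪ Y with hZ₀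
  have hκZ : ∀ q, κ q ∈ Z₀ := fun q => Finset.mem_union_left _
    (Finset.mem_image.2 ⟨q, Finset.mem_univ _, rfl⟩)
  -- the other directions
  have hall : ∀ T : Finset (Fin n), aeval g Φ ∈ V.I e (T ∪ Z₀) := by
    intro T
    induction T using Finset.induction_on with
    | empty => rw [Finset.empty_union]; exact h0
    | insert i T _ ih =>
      rw [Finset.insert_union]
      by_cases hi : i ∈ T ∪ Z₀
      · rwa [Finset.insert_eq_of_mem hi]
      · have hrel' := hrel (fun l => pderiv i (g l)) (Submodule.subset_span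
          ⟨i, Set.mem_univ _, rfl⟩)
        have hpde : μ * pderiv i (aeval g Φ) = ∑ q, Matrix.vecMul
            (fun l => pderiv i (g (g' l)))
            (Matrix.of fun q l => pderiv (κ q) (g (g' l))).adjugate q *
              pderiv (κ q) (aeval g Φ) := by
          simp only [pderiv_comp g _ Φ]
          rw [Finset.mul_sum]
          simp only [Finset.mul_sum]
          rw [Finset.sum_comm]
          apply Finset.sum_congr rfl
          intro l _
          rw [mul_left_comm, hrel' l, Finset.mul_sum]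
          apply Finset.sum_congr rfl
          intro q _
          ring
        have := V.lossless e (T ∪ Z₀) i hi ρ κ
          (fun q => Finset.mem_union_right _ (hκZ q)) 1 (fun _ => aeval g Φ) μ _ (fun _ _ => 0)
          (fun _ => by simpa using hpde) (fun _ => ih) (hnon _) 0
        exact this
  refine V.supp e (Finset.univ ∪ Z₀) _ ?_ (hall _)
  rw [Finset.union_eq_left.2 (Finset.subset_univ _), Finset.coe_univ, supported_univ]
  trivial

/-- programs with several passes: composites of bounded transcendence degree -/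
theorem exists_seedsQ (F : Type v) [Field F] [CharZero F] (c W r : ℕ) : ∃ m : ℕ,
    ∀ (n : ℕ) (V : VanM F n) (N : ℕ) (g : Fin N → MvPolynomial (Fin n) F),
      (∀ i, ∃ L : List (Equiv.Perm (Fin n)), L.length = c ∧ g i ∈ QPass L W) →
      (∀ s : Fin (r + 1) → Fin N, ¬ AlgebraicIndependent F (fun i => g (s i))) →
      ∀ (Φ : MvPolynomial (Fin N) F) (Y : Finset (Fin n)), aeval g Φ ∈ V.I m Y →
        aeval g Φ = 0 := by
  classical
  set W₁ := r.factorial * pw (2 * (W + 1)) r with hW₁
  obtain ⟨e, he⟩ := QRel.all F (r * c) W₁ W₁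
  refine ⟨e + r, ?_⟩
  intro n V N g hg htr Φ Y hmem
  choose L hL hgL using hg
  refine comp_zero V g r e htr ?_ Φ Y hmem
  intro ρ κ g' hρ hdet Y' hY'
  apply hdet
  obtain ⟨L', hL', hsub⟩ := QPass.prod (F := F) (W := 2 * (W + 1)) (by omega) ρ
    (fun l => L (g' l)) (fun l => hL _)
  obtain ⟨L'', hL'', hsub'⟩ := QPass.pad (F := F) (W := 2 * (W + 1)) (c := ρ * c) (c' := r * c)
    (by omega) (Nat.mul_le_mul_right _ hρ) L' hL'
  have hμP : QRep (⊥ : Subalgebra F (MvPolynomial (Fin n) F)) L'' W₁
      (Matrix.of fun q l => pderiv (κ q) (g (g' l))).det := by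
    refine QRep.det hρ fun q l => QRep.ofMem (by omega) ?_
    apply hsub'
    apply hsub l
    exact QPass.mono (by omega) _ (QPass.pderiv (κ q) _ (hgL (g' l)))
  obtain ⟨x, p, hx, hp, hxp⟩ := SP.toFin hμP (Subalgebra.zero_mem _) (QPass.zero L'' W₁)
  rw [hxp] at hY'
  have := he n V L'' hL'' Y' x p (fun q => (bot_le : (⊥ : Subalgebra F _) ≤ _) (hx q)) hp hY'
  rw [← hxp] at this
  exact this

/-- simple polynomials: few variables in every monomial, or outputs of read-once register
programs -/
def Elem (W : ℕ) (f : MvPolynomial (Fin n) F) : Prop :=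
  Low W f ∨ ∃ σ : Equiv.Perm (Fin n), IsReg σ W f

/-- polynomials in at most `W` simple polynomials -/
def Gen (W : ℕ) (f : MvPolynomial (Fin n) F) : Prop :=
  ∃ (ι : Type) (_ : Fintype ι) (A : ι → MvPolynomial (Fin n) F), Fintype.card ι ≤ W ∧
    (∀ i, Elem W (A i)) ∧ f ∈ Algebra.adjoin F (Set.range A)

omit [CharZero F] in
theorem Elem.mono {W W' : ℕ} (hW : W ≤ W') {f : MvPolynomial (Fin n) F} (h : Elem W f) :
    Elem W' f := by
  rcases h with h | ⟨σ, h⟩
  · exact Or.inl (h.mono hW)
  · exact Or.inr ⟨σ, IsReg.mono hW h⟩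

omit [CharZero F] in
theorem Elem.pderiv {W : ℕ} {f : MvPolynomial (Fin n) F} (h : Elem W f) (k : Fin n) :
    Elem (2 * W) (MvPolynomial.pderiv k f) := by
  rcases h with h | ⟨σ, h⟩
  · exact Or.inl ((h.pderiv k).mono (by omega))
  · exact Or.inr ⟨σ, IsReg.pderiv h k⟩

/-- Polynomials in boundedly many simple polynomials are not in the ideals. -/
theorem exists_seedsG (F : Type v) [Field F] [CharZero F] (W : ℕ) : ∃ m : ℕ,
    ∀ (n : ℕ) (V : VanM F n) (f : MvPolynomial (Fin n) F), Gen W f →
      ∀ Y : Finset (Fin n), f ∈ V.I m Y → f = 0 := by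
  classical
  obtain ⟨m, hm⟩ := exists_seedsQ F 1 (W + 1) W
  refine ⟨m, ?_⟩
  intro n V f hf Y hmem
  obtain ⟨ι, _, A, hc, hA, hf⟩ := hf
  obtain ⟨e⟩ : Nonempty (ι ↪ Fin W) := by
    rw [Function.Embedding.nonempty_iff_card_le, Fintype.card_fin]; exact hc
  set g : Fin W → MvPolynomial (Fin n) F := Function.extend e A 0 with hg
  have hg1 : ∀ i, g (e i) = A i := fun i => e.injective.extend_apply A 0 i
  have hf' : f ∈ Algebra.adjoin F (Set.range g) := by
    refine Algebra.adjoin_mono ?_ hf
    rintro _ ⟨i, rfl⟩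
    exact ⟨e i, hg1 i⟩
  rw [Algebra.adjoin_range_eq_range_aeval] at hf'
  obtain ⟨Φ, hΦ⟩ := hf'
  have hΦ' : aeval g Φ = f := hΦ
  rw [← hΦ'] at hmem ⊢
  refine hm n V W g ?_ ?_ Φ Y hmem
  · intro i
    by_cases hi : ∃ x, e x = i
    · obtain ⟨x, rfl⟩ := hi
      rw [hg1]
      rcases hA x with h | ⟨σ, h⟩
      · exact ⟨[1], rfl, QPass.low (by omega) _ (h.mono (Nat.le_succ W))⟩
      · refine ⟨[σ], rfl, ?_⟩
        have h1 : A x = A x * C 1 := by rw [C_1, mul_one]
        show SP _ _ _ _
        rw [h1]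
        exact SP.one_term (IsReg.mono (Nat.le_succ W) h) (QPass.const (by omega) [] 1) (by omega)
    · have h0 : g i = 0 := Function.extend_apply' _ _ _ hi
      rw [h0]
      exact ⟨[1], rfl, QPass.zero _ _⟩
  · intro s hind
    have h1 := hind.injective
    have h2 : Function.Injective s := by
      intro x y hxy
      apply h1
      simp only [hxy]
    have h3 := Fintype.card_le_of_injective s h2
    rw [Fintype.card_fin, Fintype.card_fin] at h3
    omega

/-- Composites of bounded transcendence degree of polynomials in boundedly many simple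
polynomials are not in the ideals. -/
theorem exists_seedsC (F : Type v) [Field F] [CharZero F] (W r : ℕ) : ∃ m : ℕ,
    ∀ (n : ℕ) (V : VanM F n) (N : ℕ) (g : Fin N → MvPolynomial (Fin n) F),
      (∀ i, Gen W (g i)) →
      (∀ s : Fin (r + 1) → Fin N, ¬ AlgebraicIndependent F (fun i => g (s i))) →
      ∀ (Φ : MvPolynomial (Fin N) F) (Y : Finset (Fin n)), aeval g Φ ∈ V.I m Y →
        aeval g Φ = 0 := by
  classical
  set W₁ := 2 * W + r * W * (r + 1) with hW₁
  obtain ⟨e, he⟩ := exists_seedsG F W₁
  refine ⟨e + r, ?_⟩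
  intro n V N g hg htr Φ Y hmem
  refine comp_zero V g r e htr ?_ Φ Y hmem
  intro ρ κ g' hρ hdet Y' hY'
  apply hdet
  refine he n V _ ?_ Y' hY'
  choose ι hι A hc hA hgA using hg
  -- the simple polynomials and their derivatives
  refine ⟨Σ l : Fin ρ, ι (g' l) × Option (Fin ρ), inferInstance,
    fun x => match x.2.2 with
      | none => A (g' x.1) x.2.1
      | some q => pderiv (κ q) (A (g' x.1) x.2.1), ?_, ?_, ?_⟩
  · rw [Fintype.card_sigma]
    calc ∑ l : Fin ρ, Fintype.card (ι (g' l) × Option (Fin ρ))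
        ≤ ∑ l : Fin ρ, W * (r + 1) := by
          apply Finset.sum_le_sum
          intro l _
          rw [Fintype.card_prod, Fintype.card_option, Fintype.card_fin]
          exact Nat.mul_le_mul (hc _) (by omega)
      _ = ρ * (W * (r + 1)) := by rw [Finset.sum_const, Finset.card_univ, Fintype.card_fin,
            smul_eq_mul]
      _ ≤ r * (W * (r + 1)) := Nat.mul_le_mul_right _ hρ
      _ ≤ W₁ := by rw [hW₁, ← mul_assoc]; exact Nat.le_add_left _ _
  · rintro ⟨l, i, q⟩
    cases q with
    | none => exact (hA (g' l) i).mono (by omega)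
    | some q => exact ((hA (g' l) i).pderiv (κ q)).mono (by omega)
  · apply det_mem'
    intro q l
    simp only [Matrix.of_apply]
    refine pderiv_mem_of_adjoin (κ q) ?_ ?_ (hgA (g' l))
    · rintro _ ⟨i, rfl⟩
      exact Algebra.subset_adjoin ⟨⟨l, i, none⟩, rfl⟩
    · rintro _ ⟨i, rfl⟩
      exact Algebra.subset_adjoin ⟨⟨l, i, some q⟩, rfl⟩

end comp

end Pool.Agent.H530R2
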