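import Mathlib
import Pool.Agent.H530R2.Reg4

/-!
Formulas of constant depth with product gates of bounded occurrence over simple polynomials.
-/

namespace Pool.Agent.H530R2

open MvPolynomial Module

universe v

section cl

variable {F : Type v} [Field F] {n : ℕ}

/-- polynomials in at most `W` elements of `𝒯` -/
def Pol (𝒯 : Set (MvPolynomial (Fin n) F)) (W : ℕ) (f : MvPolynomial (Fin n) F) : Prop :=
  ∃ (ι : Type) (_ : Fintype ι) (T : ι → MvPolynomial (Fin n) F), Fintype.card ι ≤ W ∧
    (∀ i, T i ∈ 𝒯) ∧ f ∈ Algebra.adjoin F (Set.range T)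

theorem Pol.mono {𝒯 𝒯' : Set (MvPolynomial (Fin n) F)} {W W' : ℕ} (h : 𝒯 ⊆ 𝒯') (hW : W ≤ W')
    {f : MvPolynomial (Fin n) F} (hf : Pol 𝒯 W f) : Pol 𝒯' W' f := by
  obtain ⟨ι, _, T, hc, hT, hf⟩ := hf
  exact ⟨ι, _, T, hc.trans hW, fun i => h (hT i), hf⟩

theorem Pol.single {𝒯 : Set (MvPolynomial (Fin n) F)} {W : ℕ} (hW : 1 ≤ W)
    {f : MvPolynomial (Fin n) F} (hf : f ∈ 𝒯) : Pol 𝒯 W f :=
  ⟨Unit, inferInstance, fun _ => f, by simpa using hW, fun _ => hf,
    Algebra.subset_adjoin ⟨(), rfl⟩⟩

theorem Pol.comb {𝒯 : Set (MvPolynomial (Fin n) F)} {W K : ℕ} {ι : Type} [Fintype ι]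
    (hι : Fintype.card ι ≤ K) {g : ι → MvPolynomial (Fin n) F} (hg : ∀ i, Pol 𝒯 W (g i))
    {f : MvPolynomial (Fin n) F} (hf : f ∈ Algebra.adjoin F (Set.range g)) :
    Pol 𝒯 (K * W) f := by
  choose τ hτ T hc hT hgT using hg
  refine ⟨Σ i, τ i, inferInstance, fun x => T x.1 x.2, ?_, fun x => hT _ _, ?_⟩
  · rw [Fintype.card_sigma]
    calc ∑ i : ι, Fintype.card (τ i) ≤ ∑ _i : ι, W := Finset.sum_le_sum fun i _ => hc i
      _ = Fintype.card ι * W := by rw [Finset.sum_const, Finset.card_univ, smul_eq_mul]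
      _ ≤ K * W := Nat.mul_le_mul_right _ hι
  · refine (Algebra.adjoin_le ?_) hf
    rintro _ ⟨i, rfl⟩
    refine Algebra.adjoin_mono ?_ (hgT i)
    rintro _ ⟨x, rfl⟩
    exact ⟨⟨i, x⟩, rfl⟩

/-- products of polynomials in `𝒟`, every variable occurring in at most `W` factors -/
def OccProd (W : ℕ) (𝒟 : Set (MvPolynomial (Fin n) F)) (T : MvPolynomial (Fin n) F) : Prop :=
  ∃ (s : ℕ) (f : Fin s → MvPolynomial (Fin n) F), (∀ j, f j ∈ 𝒟) ∧
    (∀ k : Fin n, (Finset.univ.filter fun j => k ∈ (f j).vars).card ≤ W) ∧ T = ∏ j, f j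

/-- formulas of depth `D` -/
def Lev : ℕ → ℕ → Set (MvPolynomial (Fin n) F)
  | 0, W => {f | Pol {g | Elem W g} W f}
  | D + 1, W => {f | Pol {g | OccProd W (Lev D W) g} W f}

theorem OccProd.mono {W W' : ℕ} (hW : W ≤ W') {𝒟 𝒟' : Set (MvPolynomial (Fin n) F)}
    (h : 𝒟 ⊆ 𝒟') {T : MvPolynomial (Fin n) F} (hT : OccProd W 𝒟 T) : OccProd W' 𝒟' T := by
  obtain ⟨s, f, hf, ho, rfl⟩ := hT
  exact ⟨s, f, fun j => h (hf j), fun k => (ho k).trans hW, rfl⟩

theorem OccProd.single {W : ℕ} (hW : 1 ≤ W) {𝒟 : Set (MvPolynomial (Fin n) F)}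
    {f : MvPolynomial (Fin n) F} (hf : f ∈ 𝒟) : OccProd W 𝒟 f := by
  classical
  refine ⟨1, fun _ => f, fun _ => hf, fun k => ?_, by simp⟩
  refine (Finset.card_le_univ _).trans ?_
  simpa using hW

theorem Lev.mono (D : ℕ) {W W' : ℕ} (hW : W ≤ W') :
    (Lev D W : Set (MvPolynomial (Fin n) F)) ⊆ Lev D W' := by
  induction D with
  | zero => exact fun f hf => Pol.mono (fun g hg => Elem.mono hW hg) hW hf
  | succ D ih => exact fun f hf => Pol.mono (fun g hg => OccProd.mono hW ih hg) hW hf

theorem Lev.comb (D : ℕ) {W K : ℕ} (hK : 1 ≤ K) {ι : Type} [Fintype ι]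
    (hι : Fintype.card ι ≤ K) {g : ι → MvPolynomial (Fin n) F} (hg : ∀ i, g i ∈ Lev D W)
    {f : MvPolynomial (Fin n) F} (hf : f ∈ Algebra.adjoin F (Set.range g)) :
    f ∈ Lev D (K * W) := by
  have hW : W ≤ K * W := Nat.le_mul_of_pos_left _ hK
  cases D with
  | zero => exact Pol.mono (fun g hg => Elem.mono hW hg) le_rfl (Pol.comb hι hg hf)
  | succ D =>
    exact Pol.mono (fun g hg => OccProd.mono hW (Lev.mono D hW) hg) le_rfl (Pol.comb hι hg hf)

/-- the parameter of the derivatives -/
def drB : ℕ → ℕ → ℕ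
  | 0, W => 2 * W
  | D + 1, W => W * (1 + 2 * W) + drB D W + 1

omit [Field F] in
theorem drB_le (D W : ℕ) : W ≤ drB D W ∨ D = 0 := by
  cases D with
  | zero => exact Or.inr rfl
  | succ D => left; simp only [drB]; nlinarith [Nat.zero_le (drB D W)]

theorem le_drB (D W : ℕ) : W ≤ drB D W := by
  cases D with
  | zero => simp only [drB]; omega
  | succ D => simp only [drB]; nlinarith [Nat.zero_le (drB D W)]

/-- splitting off the factors containing given variables -/
theorem OccProd.split {W : ℕ} {𝒟 : Set (MvPolynomial (Fin n) F)} {T : MvPolynomial (Fin n) F}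
    (hT : OccProd W 𝒟 T) {ρ : ℕ} (κ : Fin ρ → Fin n) :
    ∃ (U : MvPolynomial (Fin n) F) (ι : Type) (_ : Fintype ι) (f : ι → MvPolynomial (Fin n) F),
      OccProd W 𝒟 U ∧ (∀ q, pderiv (κ q) U = 0) ∧ (∀ j, f j ∈ 𝒟) ∧
      Fintype.card ι ≤ ρ * W ∧ T = U * ∏ j, f j ∧
      ∃ (s : ℕ) (g : Fin s → MvPolynomial (Fin n) F), (∀ j, g j ∈ 𝒟) ∧ U = ∏ j, g j := by
  classical
  obtain ⟨s, f, hf, ho, rfl⟩ := hT
  set rel : Fin s → Prop := fun j => ∃ q, κ q ∈ (f j).vars with hrel
  set R : Finset (Fin s) := Finset.univ.filter rel with hR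
  set R' : Finset (Fin s) := Finset.univ.filter (fun j => ¬ rel j) with hR'
  obtain ⟨e⟩ : Nonempty (Fin R'.card ≃ {j // j ∈ R'}) := ⟨(Finset.equivFin R').symm⟩
  have hU : ∏ j ∈ R', f j = ∏ x : Fin R'.card, f (e x).1 := by
    rw [← Finset.prod_coe_sort, ← Equiv.prod_comp e]
  refine ⟨∏ x : Fin R'.card, f (e x).1, {j // j ∈ R}, inferInstance, fun j => f j.1, ?_, ?_,
    fun j => hf _, ?_, ?_, ⟨R'.card, fun x => f (e x).1, fun j => hf _, rfl⟩⟩
  · refine ⟨R'.card, fun x => f (e x).1, fun j => hf _, fun k => ?_, rfl⟩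
    refine le_trans ?_ (ho k)
    refine Finset.card_le_card_of_injOn (fun x => (e x).1) ?_ ?_
    · intro x hx
      rw [Finset.mem_coe, Finset.mem_filter] at hx ⊢
      exact ⟨Finset.mem_univ _, hx.2⟩
    · intro x _ y _ hxy
      exact e.injective (Subtype.ext hxy)
  · intro q
    rw [← hU]
    have : ∀ S : Finset (Fin s), (∀ j ∈ S, pderiv (κ q) (f j) = 0) →
        pderiv (κ q) (∏ j ∈ S, f j) = 0 := by
      intro S
      induction S using Finset.induction_on with
      | empty => intro _; rw [Finset.prod_empty, Derivation.map_one_eq_zero]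
      | insert j S hj ih =>
        intro h
        rw [Finset.prod_insert hj, pderiv_mul, h j (Finset.mem_insert_self _ _),
          ih (fun j' hj' => h j' (Finset.mem_insert_of_mem hj')), zero_mul, mul_zero, add_zero]
    apply this
    intro j hj
    rw [hR', Finset.mem_filter] at hj
    apply pderiv_eq_zero_of_notMem_vars
    intro h
    exact hj.2 ⟨q, h⟩
  · rw [Fintype.card_coe]
    have h1 : R ⊆ Finset.univ.biUnion (fun q : Fin ρ =>
        Finset.univ.filter fun j => κ q ∈ (f j).vars) := by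
      intro j hj
      rw [hR, Finset.mem_filter] at hj
      obtain ⟨q, hq⟩ := hj.2
      rw [Finset.mem_biUnion]
      exact ⟨q, Finset.mem_univ _, Finset.mem_filter.2 ⟨Finset.mem_univ _, hq⟩⟩
    refine (Finset.card_le_card h1).trans (Finset.card_biUnion_le.trans ?_)
    calc ∑ q : Fin ρ, (Finset.univ.filter fun j => κ q ∈ (f j).vars).card
        ≤ ∑ _q : Fin ρ, W := Finset.sum_le_sum fun q _ => ho (κ q)
      _ = ρ * W := by rw [Finset.sum_const, Finset.card_univ, Fintype.card_fin, smul_eq_mul]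
  · rw [← hU, Finset.prod_coe_sort R f, mul_comm]
    rw [hR, hR', Finset.prod_filter_mul_prod_filter_not]

/-- derivatives of formulas -/
theorem Lev.pderiv (D : ℕ) : ∀ (W : ℕ) (k : Fin n), ∀ f ∈ (Lev D W : Set (MvPolynomial (Fin n) F)),
    MvPolynomial.pderiv k f ∈ Lev D (drB D W) := by
  classical
  induction D with
  | zero =>
    intro W k f hf
    obtain ⟨ι, _, A, hc, hA, hf⟩ := hf
    refine ⟨ι ⊕ ι, inferInstance, Sum.elim A (fun i => MvPolynomial.pderiv k (A i)), ?_, ?_, ?_⟩
    · rw [Fintype.card_sum]; simp only [drB]; omega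
    · rintro (i | i)
      · exact (hA i).mono (by simp only [drB]; omega)
      · exact (hA i).pderiv k
    · refine pderiv_mem_of_adjoin k ?_ ?_ hf
      · rintro _ ⟨i, rfl⟩
        exact Algebra.subset_adjoin ⟨Sum.inl i, rfl⟩
      · rintro _ ⟨i, rfl⟩
        exact Algebra.subset_adjoin ⟨Sum.inr i, rfl⟩
  | succ D ih =>
    intro W k f hf
    obtain ⟨ι, _, T, hc, hT, hf⟩ := hf
    choose U τ hτ g hU hUk hg hcard hTU _ using fun i => (hT i).split (fun _ : Fin 1 => k)
    have hcard' : ∀ i, Fintype.card (τ i) ≤ W := fun i => by simpa using hcard i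
    have hmono : (Lev D W : Set (MvPolynomial (Fin n) F)) ⊆ Lev D (drB (D + 1) W) :=
      Lev.mono D (le_drB (D + 1) W)
    have hB : drB D W ≤ drB (D + 1) W := by simp only [drB]; omega
    refine ⟨Σ i, Option (τ i × Bool), inferInstance, fun x => match x.2 with
      | none => U x.1
      | some (j, true) => g x.1 j
      | some (j, false) => MvPolynomial.pderiv k (g x.1 j), ?_, ?_, ?_⟩
    · rw [Fintype.card_sigma]
      calc ∑ i : ι, Fintype.card (Option (τ i × Bool)) ≤ ∑ _i : ι, (1 + 2 * W) := by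
            apply Finset.sum_le_sum
            intro i _
            rw [Fintype.card_option, Fintype.card_prod, Fintype.card_bool]
            have := hcard' i
            omega
        _ = Fintype.card ι * (1 + 2 * W) := by
            rw [Finset.sum_const, Finset.card_univ, smul_eq_mul]
        _ ≤ W * (1 + 2 * W) := Nat.mul_le_mul_right _ hc
        _ ≤ drB (D + 1) W := by simp only [drB]; omega
    · rintro ⟨i, x⟩
      match x with
      | none => exact OccProd.mono (le_drB (D + 1) W) hmono (hU i)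
      | some (j, true) => exact OccProd.single (by simp only [drB]; omega) (hmono (hg i j))
      | some (j, false) =>
        exact OccProd.single (by simp only [drB]; omega)
          (Lev.mono D hB (ih W k _ (hg i j)))
    · have hTmem : ∀ i, T i ∈ Algebra.adjoin F (Set.range (fun x : Σ i, Option (τ i × Bool) =>
          match x.2 with
          | none => U x.1
          | some (j, true) => g x.1 j
          | some (j, false) => MvPolynomial.pderiv k (g x.1 j))) := by
        intro i
        rw [hTU i]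
        refine Subalgebra.mul_mem _ (Algebra.subset_adjoin ⟨⟨i, none⟩, rfl⟩)
          (Subalgebra.prod_mem _ fun j _ => Algebra.subset_adjoin ⟨⟨i, some (j, true)⟩, rfl⟩)
      refine pderiv_mem_of_adjoin k ?_ ?_ hf
      · rintro _ ⟨i, rfl⟩
        exact hTmem i
      · rintro _ ⟨i, rfl⟩
        rw [hTU i, pderiv_mul, hUk i 0, zero_mul, zero_add]
        refine Subalgebra.mul_mem _ (Algebra.subset_adjoin ⟨⟨i, none⟩, rfl⟩) ?_
        have hp : ∀ S : Finset (τ i), ∏ j ∈ S, g i j ∈ Algebra.adjoin F (Set.range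
            (fun x : Σ i, Option (τ i × Bool) => match x.2 with
              | none => U x.1
              | some (j, true) => g x.1 j
              | some (j, false) => MvPolynomial.pderiv k (g x.1 j))) ∧
            MvPolynomial.pderiv k (∏ j ∈ S, g i j) ∈ Algebra.adjoin F (Set.range
            (fun x : Σ i, Option (τ i × Bool) => match x.2 with
              | none => U x.1
              | some (j, true) => g x.1 j
              | some (j, false) => MvPolynomial.pderiv k (g x.1 j))) := by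
          intro S
          induction S using Finset.induction_on with
          | empty =>
            rw [Finset.prod_empty, Derivation.map_one_eq_zero]
            exact ⟨Subalgebra.one_mem _, Subalgebra.zero_mem _⟩
          | insert j S hj ihS =>
            rw [Finset.prod_insert hj]
            refine ⟨Subalgebra.mul_mem _ (Algebra.subset_adjoin ⟨⟨i, some (j, true)⟩, rfl⟩) ihS.1,
              ?_⟩
            rw [pderiv_mul]
            exact Subalgebra.add_mem _
              (Subalgebra.mul_mem _ (Algebra.subset_adjoin ⟨⟨i, some (j, false)⟩, rfl⟩) ihS.1)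
              (Subalgebra.mul_mem _ (Algebra.subset_adjoin ⟨⟨i, some (j, true)⟩, rfl⟩) ihS.2)
        exact (hp Finset.univ).2

end cl

end Pool.Agent.H530R2
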