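import Mathlib
import Pool.Agent.H530R2.Reg5

/-!
Formulas of constant depth are not in the ideals.
-/

namespace Pool.Agent.H530R2

open MvPolynomial Module

universe v

theorem not_algIndep_of_lt {F : Type v} [Field F] {n N r : ℕ} (hN : N ≤ r)
    (g : Fin N → MvPolynomial (Fin n) F) (s : Fin (r + 1) → Fin N) :
    ¬ AlgebraicIndependent F (fun i => g (s i)) := by
  intro hind
  have h1 := hind.injective
  have h2 : Function.Injective s := by
    intro x y hxy
    apply h1
    simp only [hxy]
  have h3 := Fintype.card_le_of_injective s h2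
  rw [Fintype.card_fin, Fintype.card_fin] at h3
  omega

/-- Formulas of depth `D` are not in the ideals. -/
theorem exists_seedsD (F : Type v) [Field F] [CharZero F] (D : ℕ) : ∀ W : ℕ, ∃ m : ℕ,
    ∀ (n : ℕ) (V : VanM F n), ∀ f ∈ (Lev D W : Set (MvPolynomial (Fin n) F)),
      ∀ Y : Finset (Fin n), f ∈ V.I m Y → f = 0 := by
  classical
  induction D with
  | zero =>
    intro W
    obtain ⟨m, hm⟩ := exists_seedsG F W
    exact ⟨m, fun n V f hf Y h => hm n V f hf Y h⟩
  | succ D ih =>
    intro W
    set K := W * (W * W * (1 + W)) + 1 with hK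
    obtain ⟨m₁, h₁⟩ := ih W
    obtain ⟨m₂, h₂⟩ := ih (K * drB D W)
    refine ⟨m₁ + m₂ + W, ?_⟩
    intro n V f hf Y hmem
    obtain ⟨ι, _, T, hc, hT, hf⟩ := hf
    set g : Fin (Fintype.card ι) → MvPolynomial (Fin n) F :=
      fun i => T ((Fintype.equivFin ι).symm i) with hg
    have hr : Set.range g = Set.range T := (Fintype.equivFin ι).symm.surjective.range_comp T
    rw [← hr, Algebra.adjoin_range_eq_range_aeval] at hf
    obtain ⟨Φ, hΦ⟩ := hf
    have hΦ' : aeval g Φ = f := hΦ
    rw [← hΦ'] at hmem ⊢
    refine comp_zero V g W (m₁ + m₂) (not_algIndep_of_lt hc g) ?_ Φ Y hmem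
    intro ρ κ g' hρ hdet Y' hY'
    choose U τ hτ h hU hUk hh hcard hTU hprod using
      fun l => (hT ((Fintype.equivFin ι).symm (g' l))).split κ
    -- factor the minor
    have hfac : (Matrix.of fun q l => pderiv (κ q) (g (g' l))).det =
        (∏ l, U l) * (Matrix.of fun q l => pderiv (κ q) (∏ j, h l j)).det := by
      rw [← Matrix.det_mul_row]
      congr 1
      ext1 q l
      simp only [Matrix.of_apply, hg]
      rw [hTU l, pderiv_mul, hUk l q, zero_mul, zero_add]
    rw [hfac] at hdet hY'
    have hdetU := left_ne_zero_of_mul hdet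
    have hdet' := right_ne_zero_of_mul hdet
    have hprime := V.prime (m₁ + m₂) Y'
    rcases hprime.mem_or_mem hY' with h3 | h3
    · -- a factor without the variables
      rw [Ideal.IsPrime.prod_mem_iff] at h3
      obtain ⟨l, _, h3⟩ := h3
      obtain ⟨s, u, hu, hUu⟩ := hprod l
      have hUl : U l ≠ 0 := (Finset.prod_ne_zero_iff.1 hdetU) l (Finset.mem_univ _)
      rw [hUu] at h3 hUl
      rw [Ideal.IsPrime.prod_mem_iff] at h3
      obtain ⟨j, _, h3⟩ := h3
      have hj := (Finset.prod_ne_zero_iff.1 hUl) j (Finset.mem_univ _)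
      exact hj (h₁ n V _ (hu j) Y' (V.mono (by omega) _ h3))
    · -- the remaining minor
      apply hdet'
      refine h₂ n V _ ?_ Y' (V.mono (by omega) _ h3)
      refine Lev.comb D (ι := Σ l : Fin ρ, τ l × Option (Fin ρ)) (g := fun x =>
        match x.2.2 with
        | none => h x.1 x.2.1
        | some q => pderiv (κ q) (h x.1 x.2.1)) (K := K) (by omega) ?_ ?_ ?_
      · rw [Fintype.card_sigma]
        calc ∑ l : Fin ρ, Fintype.card (τ l × Option (Fin ρ))
            ≤ ∑ _l : Fin ρ, (W * W * (1 + W)) := by
              apply Finset.sum_le_sum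
              intro l _
              rw [Fintype.card_prod, Fintype.card_option, Fintype.card_fin]
              exact Nat.mul_le_mul ((hcard l).trans (Nat.mul_le_mul_right _ hρ)) (by omega)
          _ = ρ * (W * W * (1 + W)) := by
              rw [Finset.sum_const, Finset.card_univ, Fintype.card_fin, smul_eq_mul]
          _ ≤ W * (W * W * (1 + W)) := Nat.mul_le_mul_right _ hρ
          _ ≤ K := Nat.le_succ _
      · rintro ⟨l, j, q⟩
        cases q with
        | none => exact Lev.mono D (le_drB D W) (hh l j)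
        | some q => exact Lev.pderiv D W (κ q) _ (hh l j)
      · apply det_mem'
        intro q l
        simp only [Matrix.of_apply]
        have hp : ∀ S : Finset (τ l), ∏ j ∈ S, h l j ∈ Algebra.adjoin F (Set.range
            (fun x : Σ l : Fin ρ, τ l × Option (Fin ρ) => match x.2.2 with
              | none => h x.1 x.2.1
              | some q => pderiv (κ q) (h x.1 x.2.1))) ∧
            pderiv (κ q) (∏ j ∈ S, h l j) ∈ Algebra.adjoin F (Set.range
            (fun x : Σ l : Fin ρ, τ l × Option (Fin ρ) => match x.2.2 with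
              | none => h x.1 x.2.1
              | some q => pderiv (κ q) (h x.1 x.2.1))) := by
          intro S
          induction S using Finset.induction_on with
          | empty =>
            rw [Finset.prod_empty, Derivation.map_one_eq_zero]
            exact ⟨Subalgebra.one_mem _, Subalgebra.zero_mem _⟩
          | insert j S hj ihS =>
            rw [Finset.prod_insert hj]
            refine ⟨Subalgebra.mul_mem _ (Algebra.subset_adjoin ⟨⟨l, j, none⟩, rfl⟩) ihS.1, ?_⟩
            rw [pderiv_mul]
            exact Subalgebra.add_mem _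
              (Subalgebra.mul_mem _ (Algebra.subset_adjoin ⟨⟨l, j, some q⟩, rfl⟩) ihS.1)
              (Subalgebra.mul_mem _ (Algebra.subset_adjoin ⟨⟨l, j, none⟩, rfl⟩) ihS.2)
        exact (hp Finset.univ).2

/-- Composites of bounded transcendence degree of formulas of depth `D` are not in the
ideals. -/
theorem exists_seedsE (F : Type v) [Field F] [CharZero F] (D W r : ℕ) : ∃ m : ℕ,
    ∀ (n : ℕ) (V : VanM F n) (N : ℕ) (g : Fin N → MvPolynomial (Fin n) F),
      (∀ i, g i ∈ Lev D W) →
      (∀ s : Fin (r + 1) → Fin N, ¬ AlgebraicIndependent F (fun i => g (s i))) →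
      ∀ (Φ : MvPolynomial (Fin N) F) (Y : Finset (Fin n)), aeval g Φ ∈ V.I m Y →
        aeval g Φ = 0 := by
  classical
  obtain ⟨e, he⟩ := exists_seedsD F D ((r * r + 1) * drB D W)
  refine ⟨e + r, ?_⟩
  intro n V N g hg htr Φ Y hmem
  refine comp_zero V g r e htr ?_ Φ Y hmem
  intro ρ κ g' hρ hdet Y' hY'
  apply hdet
  refine he n V _ ?_ Y' hY'
  refine Lev.comb D (ι := Fin ρ × Fin ρ) (g := fun x => pderiv (κ x.1) (g (g' x.2)))
    (by omega) ?_ (fun x => Lev.pderiv D W _ _ (hg _)) ?_
  · rw [Fintype.card_prod, Fintype.card_fin]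
    exact (Nat.mul_le_mul hρ hρ).trans (Nat.le_succ _)
  · apply det_mem'
    intro q l
    exact Algebra.subset_adjoin ⟨(q, l), rfl⟩

end Pool.Agent.H530R2
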