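import Mathlib
import Pool.Agent.H530R2.Reg6

/-!
Families of polynomials evolving with inputs from disjoint blocks of variables.
-/

namespace Pool.Agent.H530R2

open MvPolynomial Module

universe v

section

variable {F : Type v} [Field F] {n : ℕ}

/-- the variables in the blocks before `b` -/
def Zb (β : Fin n → ℕ) (b : ℕ) : Finset (Fin n) := Finset.univ.filter fun k => β k < b

/-- the block `b` -/
def Bb (β : Fin n → ℕ) (b : ℕ) : Finset (Fin n) := Finset.univ.filter fun k => β k = b

theorem mem_Zb {β : Fin n → ℕ} {b : ℕ} {k : Fin n} : k ∈ Zb β b ↔ β k < b := by simp [Zb]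

theorem mem_Bb {β : Fin n → ℕ} {b : ℕ} {k : Fin n} : k ∈ Bb β b ↔ β k = b := by simp [Bb]

theorem Zb_mono {β : Fin n → ℕ} {b b' : ℕ} (h : b ≤ b') : Zb β b ⊆ Zb β b' := by
  intro k hk
  rw [mem_Zb] at hk ⊢
  omega

theorem Zb_succ (β : Fin n → ℕ) (b : ℕ) : Zb β (b + 1) = Zb β b ∪ Bb β b := by
  ext k
  rw [Finset.mem_union, mem_Zb, mem_Zb, mem_Bb]
  omega

theorem Zb_zero (β : Fin n → ℕ) : Zb β 0 = ∅ := by
  ext k
  simp [mem_Zb]

/-- A family evolving with inputs from disjoint blocks; `p` controls the loss of rank. -/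
structure SysB (β : Fin n → ℕ) {ι₀ : Type} (p : ℕ → ι₀ → MvPolynomial (Fin n) F)
    {ι κ : Type} (J : ℕ → ι → MvPolynomial (Fin n) F) (inp : ℕ → κ → MvPolynomial (Fin n) F) :
    Prop where
  supp : ∀ b i, J b i ∈ supported F (Zb β b : Set (Fin n))
  isupp : ∀ b i, inp b i ∈ supported F (Bb β b : Set (Fin n))
  stepm : ∀ b i, J (b + 1) i ∈ Algebra.adjoin F (Set.range (J b) ∪ Set.range (inp b))
  etale : ∀ t c b, t ≤ c → c ≤ b → er (Zb β t) (p c) = er (Zb β t) (p b) →
    ∀ γ : Fin n → MvPolynomial (Fin n) F, (∀ k, k ∉ Zb β t → γ k = 0) →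
      (∀ i, ∑ k, γ k * pderiv k (J b i) = 0) → ∀ i, ∑ k, γ k * pderiv k (J c i) = 0

theorem SysB.prol {β : Fin n → ℕ} {ι₀ : Type} {p : ℕ → ι₀ → MvPolynomial (Fin n) F}
    {ι κ' : Type} {J : ℕ → ι → MvPolynomial (Fin n) F}
    {inp : ℕ → κ' → MvPolynomial (Fin n) F} (h : SysB β p J inp) {ρ : ℕ}
    (κ : Fin ρ → Fin n) :
    SysB β p (Pool.Agent.H530R2.prol κ J) (Pool.Agent.H530R2.prol κ inp) where
  supp := by
    rintro b (i | ⟨q, i⟩)
    · exact h.supp b i
    · exact pderiv_mem_supported _ (h.supp b i)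
  isupp := by
    rintro b (i | ⟨q, i⟩)
    · exact h.isupp b i
    · exact pderiv_mem_supported _ (h.isupp b i)
  stepm := by
    intro b
    have hmono : Algebra.adjoin F (Set.range (J b) ∪ Set.range (inp b)) ≤
        Algebra.adjoin F (Set.range (Pool.Agent.H530R2.prol κ J b) ∪
          Set.range (Pool.Agent.H530R2.prol κ inp b)) := by
      apply Algebra.adjoin_mono
      apply Set.union_subset_union
      · rintro _ ⟨i, rfl⟩
        exact ⟨Sum.inl i, rfl⟩
      · rintro _ ⟨i, rfl⟩
        exact ⟨Sum.inl i, rfl⟩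
    rintro (i | ⟨q, i⟩)
    · exact hmono (h.stepm b i)
    · refine pderiv_mem_of_adjoin (κ q) ?_ ?_ (h.stepm b i)
      · intro x hx
        exact hmono (Algebra.subset_adjoin hx)
      · rintro x (⟨i', rfl⟩ | ⟨i', rfl⟩)
        · exact Algebra.subset_adjoin (Or.inl ⟨Sum.inr (q, i'), rfl⟩)
        · exact Algebra.subset_adjoin (Or.inr ⟨Sum.inr (q, i'), rfl⟩)
  etale := by
    intro t c b htc hcb her γ hγ hrel
    have hb1 : ∀ i, ∑ k, γ k * pderiv k (J b i) = 0 := fun i => hrel (Sum.inl i)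
    have hb2 : ∀ q i, ∑ k, γ k * pderiv k (pderiv (κ q) (J b i)) = 0 :=
      fun q i => hrel (Sum.inr (q, i))
    have hc1 := h.etale t c b htc hcb her γ hγ hb1
    have hleib : ∀ (l : Fin n) (P : MvPolynomial (Fin n) F),
        pderiv l (∑ k, γ k * pderiv k P) =
          ∑ k, (pderiv l (γ k)) * pderiv k P + ∑ k, γ k * pderiv k (pderiv l P) := by
      intro l P
      rw [map_sum, ← Finset.sum_add_distrib]
      apply Finset.sum_congr rfl
      intro k _
      rw [pderiv_mul, pderiv_comm' l k]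
    rintro (i | ⟨q, i⟩)
    · exact hc1 i
    · show ∑ k, γ k * pderiv k (pderiv (κ q) (J c i)) = 0
      have h1 : ∀ i, ∑ k, (pderiv (κ q) (γ k)) * pderiv k (J b i) = 0 := by
        intro i
        have h2 := hleib (κ q) (J b i)
        rw [hb1 i, map_zero, hb2 q i, add_zero] at h2
        exact h2.symm
      have h3 := h.etale t c b htc hcb her (fun k => pderiv (κ q) (γ k))
        (fun k hk => by simp only [hγ k hk, map_zero]) h1 i
      have h4 := hleib (κ q) (J c i)
      rw [hc1 i, map_zero, h3, zero_add] at h4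
      exact h4.symm

/-- the state at a later time -/
theorem adjoin_chainB {β : Fin n → ℕ} {ι κ : Type} {J : ℕ → ι → MvPolynomial (Fin n) F}
    {inp : ℕ → κ → MvPolynomial (Fin n) F}
    (hi : ∀ b i, inp b i ∈ supported F (Bb β b : Set (Fin n)))
    (hst : ∀ b i, J (b + 1) i ∈ Algebra.adjoin F (Set.range (J b) ∪ Set.range (inp b)))
    {c b : ℕ} (hcb : c ≤ b) (i : ι) :
    J b i ∈ Algebra.adjoin F (Set.range (J c) ∪ X '' {k | k ∉ Zb β c}) := by
  induction b, hcb using Nat.le_induction generalizing i with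
  | base => exact Algebra.subset_adjoin (Or.inl ⟨i, rfl⟩)
  | succ b hcb ih =>
    refine (Algebra.adjoin_le ?_) (hst b i)
    rintro x (⟨i', rfl⟩ | ⟨i', rfl⟩)
    · exact ih i'
    · refine Algebra.adjoin_mono ?_ (hi b i')
      refine (Set.image_mono ?_).trans Set.subset_union_right
      intro k hk
      rw [Finset.mem_coe, mem_Bb] at hk
      show k ∉ Zb β c
      rw [mem_Zb]
      omega

theorem ctrl_chainB {β : Fin n → ℕ} {ι κ : Type} [Fintype ι]
    {J : ℕ → ι → MvPolynomial (Fin n) F} {inp : ℕ → κ → MvPolynomial (Fin n) F}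
    (hi : ∀ b i, inp b i ∈ supported F (Bb β b : Set (Fin n)))
    (hst : ∀ b i, J (b + 1) i ∈ Algebra.adjoin F (Set.range (J b) ∪ Set.range (inp b)))
    {c b : ℕ} (hcb : c ≤ b) (i : ι) : Ctrl (Zb β c : Set (Fin n)) (J c) (J b i) := by
  refine (ctrl_of_adjoin (adjoin_chainB hi hst hcb i)).mono ?_
  intro k hk
  simpa using hk

/-- the state as a function of the input of one block -/
theorem adjoin_blockB {β : Fin n → ℕ} {ι₀ : Type} {p : ℕ → ι₀ → MvPolynomial (Fin n) F}
    {ι κ : Type} {J : ℕ → ι → MvPolynomial (Fin n) F}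
    {inp : ℕ → κ → MvPolynomial (Fin n) F} (h : SysB β p J inp) (t b : ℕ) (i : ι) :
    J b i ∈ Algebra.adjoin F (Set.range (inp t) ∪ X '' {k | k ∉ Bb β t}) := by
  induction b generalizing i with
  | zero =>
    refine Algebra.adjoin_mono ?_ (h.supp 0 i)
    refine (Set.image_mono ?_).trans Set.subset_union_right
    intro k hk
    rw [Finset.mem_coe, mem_Zb] at hk
    omega
  | succ b ih =>
    refine (Algebra.adjoin_le ?_) (h.stepm b i)
    rintro x (⟨i', rfl⟩ | ⟨i', rfl⟩)
    · exact ih i'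
    · by_cases hbt : b = t
      · subst hbt
        exact Algebra.subset_adjoin (Or.inl ⟨i', rfl⟩)
      · refine Algebra.adjoin_mono ?_ (h.isupp b i')
        refine (Set.image_mono ?_).trans Set.subset_union_right
        intro k hk
        rw [Finset.mem_coe, mem_Bb] at hk
        show k ∉ Bb β t
        rw [mem_Bb]
        omega

/-- the linear map relating derivatives of two families -/
theorem exists_linear' {ι : Type} [Fintype ι] {J J' : ι → MvPolynomial (Fin n) F}
    {T : Set (Fin n)} (h : ∀ i, Ctrl T J (J' i)) :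
    ∃ L : (ι → FractionRing (MvPolynomial (Fin n) F)) →ₗ[FractionRing (MvPolynomial (Fin n) F)]
      (ι → FractionRing (MvPolynomial (Fin n) F)), ∀ k ∈ T, dv J' k = L (dv J k) := by
  classical
  choose u hu using h
  refine ⟨Matrix.toLin' (Matrix.of fun i i' => algebraMap _ _ (u i i')), fun k hk => ?_⟩
  funext i
  simp only [dv, Matrix.toLin'_apply, Matrix.mulVec, dotProduct, Matrix.of_apply]
  rw [hu i k hk, map_sum]
  apply Finset.sum_congr rfl
  intro i' _
  rw [map_mul]

theorem er_anti' {ι : Type} [Fintype ι] {J J' : ι → MvPolynomial (Fin n) F}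
    {T : Set (Fin n)} (h : ∀ i, Ctrl T J (J' i)) {S : Finset (Fin n)}
    (hS : (S : Set (Fin n)) ⊆ T) : er S J' ≤ er S J := by
  obtain ⟨L, hL⟩ := exists_linear' h
  unfold er
  rw [sp_transfer L (fun k hk => (hL k (hS (by exact_mod_cast hk))).symm)]
  exact Submodule.finrank_map_le _ _

/-- the base family is a system over itself -/
theorem SysB.base {β : Fin n → ℕ} {ι κ : Type} [Fintype ι]
    {p : ℕ → ι → MvPolynomial (Fin n) F} {inp : ℕ → κ → MvPolynomial (Fin n) F}
    (hsupp : ∀ b i, p b i ∈ supported F (Zb β b : Set (Fin n)))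
    (hi : ∀ b i, inp b i ∈ supported F (Bb β b : Set (Fin n)))
    (hst : ∀ b i, p (b + 1) i ∈ Algebra.adjoin F (Set.range (p b) ∪ Set.range (inp b))) :
    SysB β p p inp where
  supp := hsupp
  isupp := hi
  stepm := hst
  etale := by
    intro t c b htc hcb her γ hγ hrel
    obtain ⟨L, hL⟩ := exists_linear' (fun i => ctrl_chainB hi hst hcb i)
    rw [rel_iff] at hrel ⊢
    have hS : Zb β t ⊆ Zb β c := Zb_mono htc
    have hmem : ∑ k, (algebraMap _ (FractionRing (MvPolynomial (Fin n) F)) (γ k)) •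
        dv (p c) k ∈ sp (Zb β t) (p c) := by
      refine Submodule.sum_mem _ fun k _ => ?_
      by_cases hk : k ∈ Zb β t
      · exact Submodule.smul_mem _ _ (Submodule.subset_span ⟨k, by exact_mod_cast hk, rfl⟩)
      · rw [hγ k hk, map_zero, zero_smul]
        exact Submodule.zero_mem _
    refine injOn_of_finrank_map L (sp (Zb β t) (p c)) ?_ _ hmem ?_
    · rw [← sp_transfer L (fun k hk => (hL k (by exact_mod_cast hS hk)).symm)]
      exact her.symm
    · rw [map_sum, ← hrel]
      apply Finset.sum_congr rfl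
      intro k _
      rw [LinearMap.map_smul]
      by_cases hk : k ∈ Zb β t
      · rw [hL k (by exact_mod_cast hS hk)]
      · rw [hγ k hk, map_zero, zero_smul, zero_smul]

end

section free

variable {F : Type v} [Field F] {n : ℕ}

/-- combinations with controlled coefficients are controlled by the larger family -/
theorem ctrl_comb {ι : Type} [Fintype ι] {Q : ℕ} {T : Set (Fin n)}
    {G : ι → MvPolynomial (Fin n) F} {E P : Fin Q → MvPolynomial (Fin n) F}
    (hE : ∀ q, Ctrl T G (E q)) : Ctrl T (Sum.elim G P) (∑ q, E q * P q) := by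
  choose u hu using hE
  refine ⟨Sum.elim (fun i => ∑ q, u q i * P q) E, ?_⟩
  intro k hk
  rw [Fintype.sum_sum_type]
  simp only [Sum.elim_inl, Sum.elim_inr, map_sum, pderiv_mul]
  rw [Finset.sum_add_distrib]
  congr 1
  simp only [hu _ k hk, Finset.sum_mul]
  rw [Finset.sum_comm]
  apply Finset.sum_congr rfl
  intro i _
  apply Finset.sum_congr rfl
  intro q _
  ring

/-- a controlled polynomial in a dependent direction -/
theorem ctrl_pde {ι : Type} [Fintype ι] {T : Set (Fin n)}
    {G : ι → MvPolynomial (Fin n) F} {f : MvPolynomial (Fin n) F} (hf : Ctrl T G f)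
    {ρ : ℕ} {κ : Fin ρ → Fin n} {m : Fin ρ → MvPolynomial (Fin n) F}
    {μ : MvPolynomial (Fin n) F} {i0 : Fin n} (hi0 : i0 ∈ T) (hκ : ∀ q, κ q ∈ T)
    (hrel : ∀ i, μ * pderiv i0 (G i) = ∑ q, m q * pderiv (κ q) (G i)) :
    μ * pderiv i0 f = ∑ q, m q * pderiv (κ q) f := by
  obtain ⟨u, hu⟩ := hf
  rw [hu i0 hi0, Finset.mul_sum]
  have h7 : ∀ q, m q * pderiv (κ q) f = ∑ i, u i * (m q * pderiv (κ q) (G i)) := by
    intro q
    rw [hu (κ q) (hκ q), Finset.mul_sum]
    apply Finset.sum_congr rfl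
    intro i _
    ring
  simp only [h7]
  rw [Finset.sum_comm]
  apply Finset.sum_congr rfl
  intro i _
  rw [← Finset.mul_sum, ← hrel i]
  ring

/-- scalar lossless step -/
theorem VanM.lossless1 (V : VanM F n) {j : ℕ} {Z : Finset (Fin n)} {i0 : Fin n} (hi0 : i0 ∉ Z)
    {ρ : ℕ} {κ : Fin ρ → Fin n} (hκ : ∀ p, κ p ∈ Z) {f μ : MvPolynomial (Fin n) F}
    {m : Fin ρ → MvPolynomial (Fin n) F}
    (hpde : μ * pderiv i0 f = ∑ p, m p * pderiv (κ p) f) (hf : f ∈ V.I j Z)
    (hμ : μ ∉ V.I j Z) : f ∈ V.I j (insert i0 Z) :=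
  V.lossless j Z i0 hi0 ρ κ hκ 1 (fun _ => f) μ m (fun _ _ => 0)
    (fun _ => by simpa using hpde) (fun _ => hf) hμ 0

/-- freeing a set of directions for a controlled polynomial, if the minors of the family do not
belong to the ideals -/
theorem VanM.free_block (V : VanM F n) {ι : Type} [Fintype ι] {G : ι → MvPolynomial (Fin n) F}
    {B Y : Finset (Fin n)} {f : MvPolynomial (Fin n) F} (hf : Ctrl (B : Set (Fin n)) G f)
    {r e : ℕ} (hr : Fintype.card ι ≤ r)
    (hmin : ∀ (ρ : ℕ) (κ : Fin ρ → Fin n) (g' : Fin ρ → ι), ρ ≤ r →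
      (Matrix.of fun q l => pderiv (κ q) (G (g' l))).det ≠ 0 →
      ∀ Y, (Matrix.of fun q l => pderiv (κ q) (G (g' l))).det ∉ V.I e Y)
    {j : ℕ} (h : f ∈ V.I (j + (e + r)) Y) : f ∈ V.I j (Y ∪ B) := by
  classical
  obtain ⟨ρ, κ, g', hρ, hκ, hdet, hrel⟩ := cramer_unif
    (fun (k : Fin n) (i : ι) => pderiv k (G i)) (B : Set (Fin n))
  have hρr : ρ ≤ r := hρ.trans hr
  have hnon := hmin ρ κ g' hρr hdet
  set μ := (Matrix.of fun q l => pderiv (κ q) (G (g' l))).det with hμ
  have hfree : ∀ (s : ℕ) (hs : s ≤ ρ), f ∈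
      V.I (j + e + (r - s)) (Finset.univ.image (fun q : Fin s => κ (Fin.castLE hs q)) ∪ Y) := by
    intro s
    induction s with
    | zero =>
      intro hs
      have h1 : (Finset.univ.image (fun q : Fin 0 => κ (Fin.castLE hs q)) ∪ Y) = Y := by simp
      rw [h1]
      exact V.mono (by omega) _ h
    | succ s ih =>
      intro hs
      have h1 := ih (by omega)
      have h2 : j + e + (r - s) = (j + e + (r - (s + 1))) + 1 := by omega
      rw [h2] at h1
      have h3 := V.free _ _ (κ ⟨s, by omega⟩) _ h1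
      have h4 : insert (κ ⟨s, by omega⟩) (Finset.univ.image
          (fun q : Fin s => κ (Fin.castLE (by omega : s ≤ ρ) q)) ∪ Y) =
          Finset.univ.image (fun q : Fin (s + 1) => κ (Fin.castLE hs q)) ∪ Y := by
        ext k
        simp only [Finset.mem_insert, Finset.mem_union, Finset.mem_image, Finset.mem_univ,
          true_and]
        constructor
        · rintro (rfl | ⟨q, rfl⟩ | h)
          · exact Or.inl ⟨Fin.last s, rfl⟩
          · exact Or.inl ⟨q.castSucc, rfl⟩
          · exact Or.inr h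
        · rintro (⟨q, rfl⟩ | h)
          · refine Fin.lastCases ?_ (fun q => ?_) q
            · exact Or.inl rfl
            · exact Or.inr (Or.inl ⟨q, rfl⟩)
          · exact Or.inr (Or.inr h)
      rw [← h4]
      exact h3
  have h0 := V.mono (show j + e ≤ j + e + (r - ρ) by omega) _ (hfree ρ le_rfl)
  set Z₀ := Finset.univ.image (fun q : Fin ρ => κ (Fin.castLE le_rfl q)) ∪ Y with hZ₀
  have hκZ : ∀ q, κ q ∈ Z₀ := fun q => Finset.mem_union_left _
    (Finset.mem_image.2 ⟨q, Finset.mem_univ _, rfl⟩)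
  have hall : ∀ T : Finset (Fin n), T ⊆ B → f ∈ V.I (j + e) (T ∪ Z₀) := by
    intro T
    induction T using Finset.induction_on with
    | empty => intro _; rw [Finset.empty_union]; exact h0
    | insert i T _ ih =>
      intro hTB
      have ih' := ih (fun k hk => hTB (Finset.mem_insert_of_mem hk))
      have hiB : i ∈ B := hTB (Finset.mem_insert_self _ _)
      rw [Finset.insert_union]
      by_cases hi : i ∈ T ∪ Z₀
      · rwa [Finset.insert_eq_of_mem hi]
      · have hrel' := hrel (fun l => pderiv i (G l)) (Submodule.subset_span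
          ⟨i, by exact_mod_cast hiB, rfl⟩)
        exact V.lossless1 hi (fun q => Finset.mem_union_right _ (hκZ q))
          (ctrl_pde hf (by exact_mod_cast hiB) hκ hrel') ih'
          (fun hc => hnon _ (V.mono (Nat.le_add_left _ _) _ hc))
  have h1 := hall B le_rfl
  have h2 : B ∪ Z₀ = Y ∪ B := by
    rw [hZ₀, ← Finset.union_assoc, Finset.union_comm]
    congr 1
    apply Finset.union_eq_left.2
    intro k hk
    obtain ⟨q, _, rfl⟩ := Finset.mem_image.1 hk
    exact_mod_cast hκ (Fin.castLE le_rfl q)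
  rw [h2] at h1
  exact V.mono (Nat.le_add_right _ _) _ h1

end free

end Pool.Agent.H530R2
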