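import Mathlib
import Pool.Agent.H530R2.Blk1

/-!
Good families of classes of polynomials, register programs reading them in disjoint blocks, and
programs with several passes.
-/

namespace Pool.Agent.H530R2

open MvPolynomial Module

universe v

/-- families of classes of polynomials which are closed under bounded combinations and
derivatives and do not meet the ideals -/
structure Good (F : Type v) [Field F] where
  /-- the classes -/
  K : ∀ n : ℕ, ℕ → Set (MvPolynomial (Fin n) F)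
  mono : ∀ {n W W' : ℕ}, W ≤ W' → K n W ⊆ K n W'
  /-- the parameter of combinations -/
  comb : ℕ → ℕ → ℕ
  comb_mem : ∀ {n W k : ℕ} {ι : Type} [Fintype ι] {g : ι → MvPolynomial (Fin n) F}
    {f : MvPolynomial (Fin n) F}, Fintype.card ι ≤ k → (∀ i, g i ∈ K n W) →
    f ∈ Algebra.adjoin F (Set.range g) → f ∈ K n (comb k W)
  /-- the parameter of derivatives -/
  der : ℕ → ℕ
  der_mem : ∀ {n W : ℕ} (k : Fin n) {f : MvPolynomial (Fin n) F}, f ∈ K n W →
    MvPolynomial.pderiv k f ∈ K n (der W)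
  seeds : ∀ W : ℕ, ∃ m : ℕ, ∀ (n : ℕ) (V : VanM F n), ∀ f ∈ K n W,
    ∀ Y : Finset (Fin n), f ∈ V.I m Y → f = 0

section reg

variable {F : Type v} [Field F] (𝔎 : Good F) {n : ℕ}

theorem Good.const_mem {W : ℕ} (hW : 𝔎.comb 0 0 ≤ W) (y : F) :
    (C y : MvPolynomial (Fin n) F) ∈ 𝔎.K n W :=
  𝔎.mono hW (𝔎.comb_mem (ι := Empty) (g := Empty.elim) (by simp) (fun i => i.elim)
    (Subalgebra.algebraMap_mem _ y))

/-- registers with inputs from disjoint blocks -/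
structure RegB (β : Fin n → ℕ) (u : ℕ) {τ κ : Type} (p : ℕ → τ → MvPolynomial (Fin n) F)
    (inp : ℕ → κ → MvPolynomial (Fin n) F) : Prop where
  init : ∀ i, ∃ y, p 0 i = C y
  imem : ∀ b i, inp b i ∈ 𝔎.K n u
  isupp : ∀ b i, inp b i ∈ supported F (Bb β b : Set (Fin n))
  stepm : ∀ b i, p (b + 1) i ∈ Algebra.adjoin F (Set.range (p b) ∪ Set.range (inp b))

/-- outputs of register programs with at most `w` registers and at most `w` inputs at every time,
reading the blocks in the order of their numbers -/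
def IsRegB (β : Fin n → ℕ) (R w : ℕ) (f : MvPolynomial (Fin n) F) : Prop :=
  ∃ (p inp : ℕ → Fin w → MvPolynomial (Fin n) F), RegB 𝔎 β w p inp ∧
    f ∈ Algebra.adjoin F (Set.range (p R))

variable {𝔎}

theorem RegB.supp {β : Fin n → ℕ} {u : ℕ} {τ κ : Type} {p : ℕ → τ → MvPolynomial (Fin n) F}
    {inp : ℕ → κ → MvPolynomial (Fin n) F} (h : RegB 𝔎 β u p inp) (b : ℕ) (i : τ) :
    p b i ∈ supported F (Zb β b : Set (Fin n)) := by
  induction b generalizing i with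
  | zero =>
    obtain ⟨y, hy⟩ := h.init i
    rw [hy]
    exact Subalgebra.algebraMap_mem _ _
  | succ b ih =>
    refine (Algebra.adjoin_le ?_) (h.stepm b i)
    rintro x (⟨i', rfl⟩ | ⟨i', rfl⟩)
    · exact supported_mono (by exact_mod_cast Zb_mono (Nat.le_succ b)) (ih i')
    · refine supported_mono ?_ (h.isupp b i')
      rw [Zb_succ]
      exact_mod_cast Finset.subset_union_right

/-- padding and reindexing -/
theorem RegB.toFin {β : Fin n → ℕ} {u R w : ℕ} {τ κ : Type} [Fintype τ] [Fintype κ]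
    {p : ℕ → τ → MvPolynomial (Fin n) F} {inp : ℕ → κ → MvPolynomial (Fin n) F}
    (h : RegB 𝔎 β u p inp) {f : MvPolynomial (Fin n) F}
    (hf : f ∈ Algebra.adjoin F (Set.range (p R))) (hu : u ≤ w) (hτ : Fintype.card τ ≤ w)
    (hκ : Fintype.card κ ≤ w) (hc : 𝔎.comb 0 0 ≤ w) : IsRegB 𝔎 β R w f := by
  classical
  obtain ⟨e⟩ : Nonempty (τ ↪ Fin w) := by
    rw [Function.Embedding.nonempty_iff_card_le, Fintype.card_fin]; exact hτ
  obtain ⟨e'⟩ : Nonempty (κ ↪ Fin w) := by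
    rw [Function.Embedding.nonempty_iff_card_le, Fintype.card_fin]; exact hκ
  have h0 : ∀ b, (0 : MvPolynomial (Fin n) F) ∈ 𝔎.K n w ∧
      (0 : MvPolynomial (Fin n) F) ∈ supported F (Bb β b : Set (Fin n)) := by
    intro b
    refine ⟨?_, Subalgebra.zero_mem _⟩
    have := 𝔎.const_mem (n := n) hc 0
    rwa [C_0] at this
  have hr : ∀ b, Set.range (p b) ⊆ Set.range (Function.extend e (p b) 0) := by
    intro b
    rintro _ ⟨i, rfl⟩
    exact ⟨e i, e.injective.extend_apply _ _ _⟩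
  have hr' : ∀ b, Set.range (inp b) ⊆ Set.range (Function.extend e' (inp b) 0) := by
    intro b
    rintro _ ⟨i, rfl⟩
    exact ⟨e' i, e'.injective.extend_apply _ _ _⟩
  refine ⟨fun b => Function.extend e (p b) 0, fun b => Function.extend e' (inp b) 0,
    ⟨?_, ?_, ?_, ?_⟩, Algebra.adjoin_mono (hr R) hf⟩
  · intro i
    by_cases hi : ∃ x, e x = i
    · obtain ⟨x, rfl⟩ := hi
      rw [e.injective.extend_apply]
      exact h.init x
    · exact ⟨0, by rw [Function.extend_apply' _ _ _ hi, map_zero]; rfl⟩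
  · intro b i
    by_cases hi : ∃ x, e' x = i
    · obtain ⟨x, rfl⟩ := hi
      rw [e'.injective.extend_apply]
      exact 𝔎.mono hu (h.imem b x)
    · rw [Function.extend_apply' _ _ _ hi]
      exact (h0 b).1
  · intro b i
    by_cases hi : ∃ x, e' x = i
    · obtain ⟨x, rfl⟩ := hi
      rw [e'.injective.extend_apply]
      exact h.isupp b x
    · rw [Function.extend_apply' _ _ _ hi]
      exact (h0 b).2
  · intro b i
    by_cases hi : ∃ x, e x = i
    · obtain ⟨x, rfl⟩ := hi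
      rw [e.injective.extend_apply]
      exact Algebra.adjoin_mono (Set.union_subset_union (hr b) (hr' b)) (h.stepm b x)
    · rw [Function.extend_apply' _ _ _ hi]
      exact Subalgebra.zero_mem _

theorem RegB.sum {β : Fin n → ℕ} {u u' : ℕ} {τ τ' κ κ' : Type}
    {p : ℕ → τ → MvPolynomial (Fin n) F} {inp : ℕ → κ → MvPolynomial (Fin n) F}
    {p' : ℕ → τ' → MvPolynomial (Fin n) F} {inp' : ℕ → κ' → MvPolynomial (Fin n) F}
    (h : RegB 𝔎 β u p inp) (h' : RegB 𝔎 β u' p' inp') :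
    RegB 𝔎 β (u + u') (fun b => Sum.elim (p b) (p' b)) (fun b => Sum.elim (inp b) (inp' b)) := by
  refine ⟨?_, ?_, ?_, ?_⟩
  · rintro (i | i)
    · exact h.init i
    · exact h'.init i
  · rintro b (i | i)
    · exact 𝔎.mono (Nat.le_add_right _ _) (h.imem b i)
    · exact 𝔎.mono (Nat.le_add_left _ _) (h'.imem b i)
  · rintro b (i | i)
    · exact h.isupp b i
    · exact h'.isupp b i
  · rintro b (i | i)
    · refine Algebra.adjoin_mono ?_ (h.stepm b i)
      apply Set.union_subset_union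
      · rintro _ ⟨i, rfl⟩
        exact ⟨Sum.inl i, rfl⟩
      · rintro _ ⟨i, rfl⟩
        exact ⟨Sum.inl i, rfl⟩
    · refine Algebra.adjoin_mono ?_ (h'.stepm b i)
      apply Set.union_subset_union
      · rintro _ ⟨i, rfl⟩
        exact ⟨Sum.inr i, rfl⟩
      · rintro _ ⟨i, rfl⟩
        exact ⟨Sum.inr i, rfl⟩

/-- derivatives of the registers -/
theorem RegB.pderiv {β : Fin n → ℕ} {u : ℕ} {τ κ : Type}
    {p : ℕ → τ → MvPolynomial (Fin n) F} {inp : ℕ → κ → MvPolynomial (Fin n) F}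
    (h : RegB 𝔎 β u p inp) (k : Fin n) :
    RegB 𝔎 β (u + 𝔎.der u)
      (fun b => Sum.elim (p b) (fun i => MvPolynomial.pderiv k (p b i)))
      (fun b => Sum.elim (inp b) (fun i => MvPolynomial.pderiv k (inp b i))) := by
  refine ⟨?_, ?_, ?_, ?_⟩
  · rintro (i | i)
    · exact h.init i
    · obtain ⟨y, hy⟩ := h.init i
      exact ⟨0, by simp only [Sum.elim_inr]; rw [hy, pderiv_C, map_zero]⟩
  · rintro b (i | i)
    · exact 𝔎.mono (Nat.le_add_right _ _) (h.imem b i)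
    · exact 𝔎.mono (Nat.le_add_left _ _) (𝔎.der_mem k (h.imem b i))
  · rintro b (i | i)
    · exact h.isupp b i
    · exact pderiv_mem_supported k (h.isupp b i)
  · intro b
    have hmono : Algebra.adjoin F (Set.range (p b) ∪ Set.range (inp b)) ≤
        Algebra.adjoin F (Set.range (Sum.elim (p b) (fun i => MvPolynomial.pderiv k (p b i))) ∪
          Set.range (Sum.elim (inp b) (fun i => MvPolynomial.pderiv k (inp b i)))) := by
      apply Algebra.adjoin_mono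
      apply Set.union_subset_union
      · rintro _ ⟨i, rfl⟩
        exact ⟨Sum.inl i, rfl⟩
      · rintro _ ⟨i, rfl⟩
        exact ⟨Sum.inl i, rfl⟩
    rintro (i | i)
    · exact hmono (h.stepm b i)
    · refine pderiv_mem_of_adjoin k (fun x hx => hmono (Algebra.subset_adjoin hx)) ?_ (h.stepm b i)
      rintro x (⟨i', rfl⟩ | ⟨i', rfl⟩)
      · exact Algebra.subset_adjoin (Or.inl ⟨Sum.inr i', rfl⟩)
      · exact Algebra.subset_adjoin (Or.inr ⟨Sum.inr i', rfl⟩)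

variable (𝔎) in
/-- lower bound for the parameters -/
def Good.c0 : ℕ := 𝔎.comb 0 0 + 1

theorem IsRegB.mono {β : Fin n → ℕ} {R w w' : ℕ} (hw : w ≤ w') (hc : 𝔎.c0 ≤ w')
    {f : MvPolynomial (Fin n) F} (hf : IsRegB 𝔎 β R w f) : IsRegB 𝔎 β R w' f := by
  obtain ⟨p, inp, h, hf⟩ := hf
  exact h.toFin hf hw (by rw [Fintype.card_fin]; exact hw) (by rw [Fintype.card_fin]; exact hw)
    (by unfold Good.c0 at hc; omega)

theorem IsRegB.const {w : ℕ} (hw : 𝔎.c0 ≤ w) (β : Fin n → ℕ) (R : ℕ) (y : F) :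
    IsRegB 𝔎 β R w (C y : MvPolynomial (Fin n) F) := by
  have h0 : (0 : MvPolynomial (Fin n) F) ∈ 𝔎.K n w := by
    have := 𝔎.const_mem (n := n) (W := w) (by unfold Good.c0 at hw; omega) 0
    rwa [C_0] at this
  exact ⟨fun _ _ => 0, fun _ _ => 0, ⟨fun _ => ⟨0, (map_zero _).symm⟩, fun _ _ => h0,
    fun _ _ => Subalgebra.zero_mem _, fun _ _ => Subalgebra.zero_mem _⟩,
    Subalgebra.algebraMap_mem _ y⟩

theorem IsRegB.both {β : Fin n → ℕ} {R w w' w'' : ℕ} {f g x : MvPolynomial (Fin n) F}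
    (hf : IsRegB 𝔎 β R w f) (hg : IsRegB 𝔎 β R w' g) (hw : w + w' ≤ w'') (hc : 𝔎.c0 ≤ w'')
    (hx : x ∈ Algebra.adjoin F ({f, g} : Set (MvPolynomial (Fin n) F))) :
    IsRegB 𝔎 β R w'' x := by
  obtain ⟨p, inp, h, hf⟩ := hf
  obtain ⟨p', inp', h', hg⟩ := hg
  refine (h.sum h').toFin (R := R) ?_ hw ?_ ?_ (by unfold Good.c0 at hc; omega)
  · refine (Algebra.adjoin_le ?_) hx
    rintro y hy
    rcases hy with rfl | rfl
    · refine Algebra.adjoin_mono ?_ hf
      rintro _ ⟨i, rfl⟩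
      exact ⟨Sum.inl i, rfl⟩
    · refine Algebra.adjoin_mono ?_ hg
      rintro _ ⟨i, rfl⟩
      exact ⟨Sum.inr i, rfl⟩
  · rw [Fintype.card_sum, Fintype.card_fin, Fintype.card_fin]; exact hw
  · rw [Fintype.card_sum, Fintype.card_fin, Fintype.card_fin]; exact hw

theorem IsRegB.mul {β : Fin n → ℕ} {R w w' w'' : ℕ} {f g : MvPolynomial (Fin n) F}
    (hf : IsRegB 𝔎 β R w f) (hg : IsRegB 𝔎 β R w' g) (hw : w + w' ≤ w'') (hc : 𝔎.c0 ≤ w'') :
    IsRegB 𝔎 β R w'' (f * g) :=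
  hf.both hg hw hc (Subalgebra.mul_mem _ (Algebra.subset_adjoin (Or.inl rfl))
    (Algebra.subset_adjoin (Or.inr rfl)))

/-- growth of the parameter for derivatives -/
def Good.dg (𝔎 : Good F) (W : ℕ) : ℕ := 2 * W + 𝔎.der W + 𝔎.c0

theorem IsRegB.pderiv {β : Fin n → ℕ} {R w : ℕ} {f : MvPolynomial (Fin n) F}
    (hf : IsRegB 𝔎 β R w f) (k : Fin n) : IsRegB 𝔎 β R (𝔎.dg w) (MvPolynomial.pderiv k f) := by
  obtain ⟨p, inp, h, hf⟩ := hf
  refine (h.pderiv k).toFin (R := R) ?_ ?_ ?_ ?_ ?_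
  · refine pderiv_mem_of_adjoin k (fun x hx => ?_) ?_ hf
    · obtain ⟨i, rfl⟩ := hx
      exact Algebra.subset_adjoin ⟨Sum.inl i, rfl⟩
    · rintro x ⟨i, rfl⟩
      exact Algebra.subset_adjoin ⟨Sum.inr i, rfl⟩
  · unfold Good.dg; omega
  · rw [Fintype.card_sum, Fintype.card_fin]; unfold Good.dg; omega
  · rw [Fintype.card_sum, Fintype.card_fin]; unfold Good.dg; omega
  · unfold Good.dg Good.c0; omega

end reg

section qpass

variable {F : Type v} [Field F] (𝔎 : Good F) {n : ℕ}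

/-- sums of products of outputs of register programs in the given orders of blocks and
elements of the classes -/
def PassB : List ((Fin n → ℕ) × ℕ) → ℕ → Set (MvPolynomial (Fin n) F)
  | [], W => 𝔎.K n W
  | β :: L, W => {f | SP {g | IsRegB 𝔎 β.1 β.2 W g} (PassB L W) W f}

variable {𝔎}

theorem PassB.mono {W W' : ℕ} (hW : W ≤ W') (hc : 𝔎.c0 ≤ W') (L : List ((Fin n → ℕ) × ℕ)) :
    PassB 𝔎 L W ⊆ PassB 𝔎 L W' := by
  induction L with
  | nil => exact fun f hf => 𝔎.mono hW hf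
  | cons β L ih => exact fun f hf => SP.mono hf hW (fun g hg => IsRegB.mono hW hc hg) ih

/-- growth of the parameter for products -/
def Good.mg (𝔎 : Good F) (W W' : ℕ) : ℕ :=
  𝔎.comb 2 (W + W') + (W + 1) * (W' + 1) + 𝔎.c0

theorem Good.c0_pos : 1 ≤ 𝔎.c0 := Nat.succ_pos _

theorem PassB.ofK {W : ℕ} (hW : 𝔎.c0 ≤ W) (L : List ((Fin n → ℕ) × ℕ))
    {f : MvPolynomial (Fin n) F} (hf : f ∈ 𝔎.K n W) : f ∈ PassB 𝔎 L W := by
  have h1 : 1 ≤ W := 𝔎.c0_pos.trans hW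
  induction L with
  | nil => exact hf
  | cons β L ih =>
    have h2 : f = C 1 * f := by rw [C_1, one_mul]
    show SP _ _ _ _
    rw [h2]
    exact SP.one_term (IsRegB.const hW _ _ 1) ih h1

theorem PassB.const {W : ℕ} (hW : 𝔎.c0 ≤ W) (L : List ((Fin n → ℕ) × ℕ)) (y : F) :
    (C y : MvPolynomial (Fin n) F) ∈ PassB 𝔎 L W :=
  PassB.ofK hW L (𝔎.const_mem (by unfold Good.c0 at hW; omega) y)

theorem PassB.zero {W : ℕ} (hW : 𝔎.c0 ≤ W) (L : List ((Fin n → ℕ) × ℕ)) :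
    (0 : MvPolynomial (Fin n) F) ∈ PassB 𝔎 L W := by
  have := PassB.const (n := n) hW L 0
  rwa [C_0] at this

theorem PassB.mul {W W' : ℕ} {L : List ((Fin n → ℕ) × ℕ)} :
    ∀ f ∈ PassB 𝔎 L W, ∀ g ∈ PassB 𝔎 L W', f * g ∈ PassB 𝔎 L (𝔎.mg W W') := by
  induction L with
  | nil =>
    intro f hf g hg
    have h1 : f * g ∈ 𝔎.K n (𝔎.comb 2 (W + W')) := by
      refine 𝔎.comb_mem (ι := Bool) (g := fun b => if b then f else g) (by simp) ?_ ?_
      · intro b
        cases b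
        · simpa using 𝔎.mono (Nat.le_add_left _ _) hg
        · simpa using 𝔎.mono (Nat.le_add_right _ _) hf
      · exact Subalgebra.mul_mem _ (Algebra.subset_adjoin ⟨true, rfl⟩)
          (Algebra.subset_adjoin ⟨false, rfl⟩)
    exact 𝔎.mono (by unfold Good.mg; omega) h1
  | cons β L ih =>
    intro f hf g hg
    have h3 : W + W' ≤ 𝔎.mg W W' := by unfold Good.mg; nlinarith
    have h4 : 𝔎.c0 ≤ 𝔎.mg W W' := by unfold Good.mg; omega
    refine SP.mono (SP.mul hf hg (𝒜'' := {g | IsRegB 𝔎 β.1 β.2 (𝔎.mg W W') g}) ?_ ih) ?_ le_rfl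
      le_rfl
    · intro a ha a' ha'
      exact IsRegB.mul ha ha' h3 h4
    · unfold Good.mg; nlinarith

theorem PassB.pderiv {W : ℕ} {L : List ((Fin n → ℕ) × ℕ)} (i : Fin n) :
    ∀ f ∈ PassB 𝔎 L W, MvPolynomial.pderiv i f ∈ PassB 𝔎 L (𝔎.dg W) := by
  have h1 : W ≤ 𝔎.dg W := by unfold Good.dg; omega
  have h2 : 𝔎.c0 ≤ 𝔎.dg W := by unfold Good.dg; omega
  induction L with
  | nil => exact fun f hf => 𝔎.mono (by unfold Good.dg; omega) (𝔎.der_mem i hf)
  | cons β L ih =>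
    intro f hf
    refine SP.mono (SP.der _ hf (𝒜' := {g | IsRegB 𝔎 β.1 β.2 (𝔎.dg W) g})
      (ℬ' := PassB 𝔎 L (𝔎.dg W)) ?_ ?_) ?_ le_rfl le_rfl
    · intro a ha
      exact ⟨IsRegB.mono h1 h2 ha, IsRegB.pderiv ha i⟩
    · intro b hb
      exact ⟨PassB.mono h1 h2 L hb, ih b hb⟩
    · unfold Good.dg; omega

theorem PassB.append_left {W : ℕ} (hW : 𝔎.c0 ≤ W) (L L' : List ((Fin n → ℕ) × ℕ)) :
    PassB 𝔎 L' W ⊆ PassB 𝔎 (L ++ L') W := by
  induction L with
  | nil => exact fun f hf => hf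
  | cons β L ih =>
    intro f hf
    have h1 : f = C 1 * f := by rw [C_1, one_mul]
    show SP _ _ _ _
    rw [h1]
    exact SP.one_term (IsRegB.const hW _ _ 1) (ih hf) (𝔎.c0_pos.trans hW)

theorem PassB.append_right {W : ℕ} (hW : 𝔎.c0 ≤ W) (L L' : List ((Fin n → ℕ) × ℕ)) :
    PassB 𝔎 L W ⊆ PassB 𝔎 (L ++ L') W := by
  induction L with
  | nil => exact fun f hf => PassB.ofK hW _ hf
  | cons β L ih => exact fun f hf => SP.mono hf le_rfl le_rfl ih

/-- one list of orders for several polynomials -/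
theorem PassB.prod {W c : ℕ} (hW : 𝔎.c0 ≤ W) (ρ : ℕ) (L : Fin ρ → List ((Fin n → ℕ) × ℕ))
    (hL : ∀ i, (L i).length = c) :
    ∃ L' : List ((Fin n → ℕ) × ℕ), L'.length = ρ * c ∧
      ∀ i, PassB 𝔎 (L i) W ⊆ PassB 𝔎 L' W := by
  induction ρ with
  | zero => exact ⟨[], by simp, fun i => i.elim0⟩
  | succ ρ ih =>
    obtain ⟨L', hL', hsub⟩ := ih (fun i => L i.succ) (fun i => hL _)
    refine ⟨L 0 ++ L', ?_, ?_⟩
    · rw [List.length_append, hL', hL 0]; ring
    · intro i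
      refine Fin.cases ?_ (fun i => ?_) i
      · exact PassB.append_right hW _ _
      · exact (hsub i).trans (PassB.append_left hW _ _)

/-- pad a list of orders -/
theorem PassB.pad {W c c' : ℕ} (hW : 𝔎.c0 ≤ W) (hc : c ≤ c') (L : List ((Fin n → ℕ) × ℕ))
    (hL : L.length = c) : ∃ L' : List ((Fin n → ℕ) × ℕ), L'.length = c' ∧
      PassB 𝔎 L W ⊆ PassB 𝔎 L' W := by
  refine ⟨L ++ List.replicate (c' - c) (fun _ => 0, 0), ?_, PassB.append_right hW _ _⟩
  rw [List.length_append, List.length_replicate, hL]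
  omega

end qpass

section rep

variable {F : Type v} [Field F] (𝔎 : Good F) {n : ℕ}

/-- representations with coefficients in a subalgebra -/
def RepB (𝔸 : Subalgebra F (MvPolynomial (Fin n) F)) (L : List ((Fin n → ℕ) × ℕ)) (W : ℕ)
    (f : MvPolynomial (Fin n) F) : Prop := SP (𝔸 : Set (MvPolynomial (Fin n) F)) (PassB 𝔎 L W) W f

variable {𝔎} {𝔸 : Subalgebra F (MvPolynomial (Fin n) F)} {L : List ((Fin n → ℕ) × ℕ)}
  {W W' : ℕ} {f g : MvPolynomial (Fin n) F}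

theorem RepB.mono (h : RepB 𝔎 𝔸 L W f) (hW : W ≤ W') (hc : 𝔎.c0 ≤ W') : RepB 𝔎 𝔸 L W' f :=
  SP.mono h hW le_rfl (PassB.mono hW hc L)

theorem RepB.smul (hf : RepB 𝔎 𝔸 L W f) {c : MvPolynomial (Fin n) F} (hc : c ∈ 𝔸) :
    RepB 𝔎 𝔸 L W (c * f) :=
  SP.smul hf c fun _ ha => 𝔸.mul_mem hc ha

theorem RepB.mul (hf : RepB 𝔎 𝔸 L W f) (hg : RepB 𝔎 𝔸 L W' g) :
    RepB 𝔎 𝔸 L (𝔎.mg W W') (f * g) :=
  SP.mono (SP.mul hf hg (fun _ ha _ hb => 𝔸.mul_mem ha hb) PassB.mul)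
    (by unfold Good.mg; nlinarith) le_rfl le_rfl

theorem RepB.ofMem (hW : 1 ≤ W) (hf : f ∈ PassB 𝔎 L W) : RepB 𝔎 𝔸 L W f := by
  have := SP.one_term (𝒜 := (𝔸 : Set (MvPolynomial (Fin n) F))) (ℬ := PassB 𝔎 L W) (a := 1)
    𝔸.one_mem hf hW
  rwa [one_mul] at this

theorem RepB.one (hW : 𝔎.c0 ≤ W) : RepB 𝔎 𝔸 L W 1 := by
  have := RepB.ofMem (𝔸 := 𝔸) (𝔎.c0_pos.trans hW) (PassB.const hW L (1 : F))
  rwa [map_one] at this

theorem RepB.ofRing (hW : 𝔎.c0 ≤ W) (hf : f ∈ 𝔸) : RepB 𝔎 𝔸 L W f := by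
  have := (RepB.one (𝔸 := 𝔸) (L := L) hW).smul hf
  rwa [mul_one] at this

theorem RepB.sum {κ : Type*} (s : Finset κ) (f : κ → MvPolynomial (Fin n) F)
    (h : ∀ k ∈ s, RepB 𝔎 𝔸 L W (f k)) (hs : s.card ≤ W') (hW : 𝔎.c0 ≤ W) :
    RepB 𝔎 𝔸 L (W' * W) (∑ k ∈ s, f k) := by
  rcases Nat.eq_zero_or_pos W' with h0 | h0
  · have : s = ∅ := Finset.card_eq_zero.1 (by omega)
    subst this
    rw [Finset.sum_empty]
    exact SP.zero
  · have h1 := SP.sum (𝒜 := (𝔸 : Set (MvPolynomial (Fin n) F))) (ℬ := PassB 𝔎 L W) s f h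
    exact h1.mono (Nat.mul_le_mul_right _ hs) le_rfl
      (PassB.mono (Nat.le_mul_of_pos_left _ h0) (hW.trans (Nat.le_mul_of_pos_left _ h0)) L)

/-- the parameter of a product -/
def Good.pg (𝔎 : Good F) (W : ℕ) : ℕ → ℕ
  | 0 => 𝔎.c0
  | k + 1 => 𝔎.mg W (𝔎.pg W k)

theorem Good.c0_le_pg (W k : ℕ) : 𝔎.c0 ≤ 𝔎.pg W k := by
  cases k with
  | zero => exact le_rfl
  | succ k => simp only [Good.pg]; unfold Good.mg; omega

theorem Good.pg_mono (W : ℕ) {k k' : ℕ} (h : k ≤ k') : 𝔎.pg W k ≤ 𝔎.pg W k' := by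
  induction k', h using Nat.le_induction with
  | base => exact le_rfl
  | succ b _ ih =>
    simp only [Good.pg]
    unfold Good.mg
    nlinarith [Nat.zero_le (𝔎.pg W b)]

theorem RepB.prod {κ : Type*} (s : Finset κ) (f : κ → MvPolynomial (Fin n) F)
    (h : ∀ k ∈ s, RepB 𝔎 𝔸 L W (f k)) : RepB 𝔎 𝔸 L (𝔎.pg W s.card) (∏ k ∈ s, f k) := by
  classical
  induction s using Finset.induction_on with
  | empty => rw [Finset.prod_empty, Finset.card_empty]; exact RepB.one le_rfl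
  | insert k s hk ih =>
    rw [Finset.prod_insert hk, Finset.card_insert_of_notMem hk]
    exact (h k (Finset.mem_insert_self _ _)).mul
      (ih fun k' hk' => h k' (Finset.mem_insert_of_mem hk'))

/-- representation of a determinant -/
theorem RepB.det {ρ Q : ℕ} (hρ : ρ ≤ Q)
    {M : Matrix (Fin ρ) (Fin ρ) (MvPolynomial (Fin n) F)} (h : ∀ i j, RepB 𝔎 𝔸 L W (M i j)) :
    RepB 𝔎 𝔸 L (Q.factorial * 𝔎.pg W Q) M.det := by
  classical
  rw [Matrix.det_apply']
  refine RepB.sum _ _ ?_ ?_ (𝔎.c0_le_pg W Q)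
  · intro τ _
    refine RepB.smul ?_ (𝔸.intCast_mem _)
    refine (RepB.prod _ _ fun i _ => h _ _).mono ?_ (𝔎.c0_le_pg W Q)
    rw [Finset.card_univ, Fintype.card_fin]
    exact 𝔎.pg_mono W hρ
  · rw [Finset.card_univ, Fintype.card_perm, Fintype.card_fin]
    exact Nat.factorial_le hρ

end rep

end Pool.Agent.H530R2
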