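import Mathlib
import Pool.Agent.H530R2.Blk2

/-!
The decoupling theorem for register programs reading polynomials in disjoint blocks.
-/

namespace Pool.Agent.H530R2

open MvPolynomial Module

universe v

/-- combinations of programs with `c` passes with coefficients in the free variables vanish if
they belong to the ideals -/
def RelB {F : Type v} [Field F] (𝔎 : Good F) (c : ℕ) : Prop :=
  ∀ Q W : ℕ, ∃ e : ℕ, ∀ (n : ℕ) (V : VanM F n) (L : List ((Fin n → ℕ) × ℕ)), L.length = c →
    ∀ (Y : Finset (Fin n)) (E P : Fin Q → MvPolynomial (Fin n) F),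
      (∀ q, E q ∈ supported F (Y : Set (Fin n))) → (∀ q, P q ∈ PassB 𝔎 L W) →
      ∑ q, E q * P q ∈ V.I e Y → ∑ q, E q * P q = 0

/-- the decoupling statement -/
def DecB {F : Type v} [Field F] (𝔎 : Good F) (c w s : ℕ) : Prop :=
  ∀ l k u Q W : ℕ, ∃ e : ℕ, ∀ (n : ℕ) (V : VanM F n) (L : List ((Fin n → ℕ) × ℕ)),
    L.length = c →
    ∀ (β : Fin n → ℕ) (p : ℕ → Fin w → MvPolynomial (Fin n) F),
      (∀ c b, c ≤ b → ∀ S : Finset (Fin n), S ⊆ Zb β c → er S (p b) ≤ er S (p c)) →
    ∀ (ι κ : Type) [Fintype ι] [Fintype κ] (J : ℕ → ι → MvPolynomial (Fin n) F)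
      (inp : ℕ → κ → MvPolynomial (Fin n) F), SysB β p J inp →
      Fintype.card ι ≤ l → Fintype.card κ ≤ k → (∀ b i, inp b i ∈ 𝔎.K n u) →
      ∀ (Y : Finset (Fin n)) (a' b : ℕ), a' ≤ b →
      (a' = b ∨ w + 1 ≤ er (Zb β a') (p b) + s) →
      ∀ (E P : Fin Q → MvPolynomial (Fin n) F),
      (∀ q, Ctrl (((Zb β b \ Zb β a') \ Y : Finset (Fin n)) : Set (Fin n)) (J b) (E q)) →
      (∀ q, P q ∈ PassB 𝔎 L W) → ∀ j, ∑ q, E q * P q ∈ V.I (j + e) (Y ∪ Zb β a') →
      ∑ q, E q * P q ∈ V.I j (Y ∪ Zb β b)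

variable {F : Type v} [Field F] {𝔎 : Good F}

theorem DecB.zero (c w : ℕ) : DecB 𝔎 c w 0 := by
  intro l k u Q W
  refine ⟨0, ?_⟩
  intro n V L hL β p hp ι κ _ _ J inp hJ hl hk hu Y a' b hab hor E P hE hP j h0
  rcases hor with rfl | h
  · exact h0
  · exfalso
    have h2 := er_le_card (Zb β a') (p b)
    rw [Fintype.card_fin] at h2
    omega

/-- freeing a block -/
theorem bfree {c : ℕ} (hH : RelB 𝔎 c) (k u Q W : ℕ) : ∃ e : ℕ, ∀ (n : ℕ) (V : VanM F n)
    (L : List ((Fin n → ℕ) × ℕ)), L.length = c → ∀ (κ : Type) [Fintype κ],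
    Fintype.card κ ≤ k → ∀ (G : κ → MvPolynomial (Fin n) F), (∀ i, G i ∈ 𝔎.K n u) →
    ∀ (B Y : Finset (Fin n)) (E P : Fin Q → MvPolynomial (Fin n) F),
      (∀ q, Ctrl (B : Set (Fin n)) G (E q)) → (∀ q, P q ∈ PassB 𝔎 L W) →
      ∀ j, ∑ q, E q * P q ∈ V.I (j + e) Y → ∑ q, E q * P q ∈ V.I j (Y ∪ B) := by
  classical
  set W₀ := 𝔎.der u + 𝔎.dg W + 𝔎.c0 with hW₀
  set M := (k + Q).factorial * 𝔎.pg W₀ (k + Q) with hM
  obtain ⟨e, he⟩ := hH M M
  have hM0 : 𝔎.c0 ≤ M := (𝔎.c0_le_pg W₀ (k + Q)).trans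
    (Nat.le_mul_of_pos_left _ (Nat.factorial_pos _))
  refine ⟨e + (k + Q), ?_⟩
  intro n V L hL κ _ hκ G hG B Y E P hE hP j h
  refine V.free_block (G := Sum.elim G P) (ctrl_comb hE) (r := k + Q) (e := e) ?_ ?_ h
  · rw [Fintype.card_sum, Fintype.card_fin]; omega
  · intro ρ κ' g' hρ hdet Y' hY'
    apply hdet
    have hrep : RepB 𝔎 (⊥ : Subalgebra F (MvPolynomial (Fin n) F)) L M
        (Matrix.of fun q l => pderiv (κ' q) (Sum.elim G P (g' l))).det := by
      refine RepB.det hρ fun q l => ?_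
      simp only [Matrix.of_apply]
      rcases g' l with i | r
      · refine RepB.ofMem (𝔎.c0_pos.trans (by omega)) ?_
        exact PassB.ofK (by omega) L (𝔎.mono (by omega) (𝔎.der_mem (κ' q) (hG i)))
      · refine RepB.ofMem (𝔎.c0_pos.trans (by omega)) ?_
        exact PassB.mono (by omega) (by omega) L (PassB.pderiv (κ' q) _ (hP r))
    obtain ⟨x, p, hx, hp, hxp⟩ := SP.toFin hrep (Subalgebra.zero_mem _) (PassB.zero hM0 L)
    rw [hxp] at hY' ⊢
    exact he n V L hL Y' x p (fun q => (bot_le : (⊥ : Subalgebra F _) ≤ _) (hx q)) hp hY'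

/-- represented elements of the ideals vanish -/
theorem brep_zero {n : ℕ} (V : VanM F n) {L : List ((Fin n → ℕ) × ℕ)} {β : Fin n → ℕ}
    {w : ℕ} {p : ℕ → Fin w → MvPolynomial (Fin n) F} {ι κ : Type}
    {J : ℕ → ι → MvPolynomial (Fin n) F} [Fintype ι] {inp : ℕ → κ → MvPolynomial (Fin n) F}
    [Fintype κ] (hJ : SysB β p J inp) {Y Y₁ : Finset (Fin n)} {t b' : ℕ} (htb : t + 1 < b')
    {M e eG e' : ℕ} (hM0 : 𝔎.c0 ≤ M) (hY₁ : Y₁ ∪ Bb β t = Y ∪ Zb β (t + 1))
    (hdec : ∀ (E P : Fin M → MvPolynomial (Fin n) F),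
      (∀ q, Ctrl (((Zb β (b' - 1) \ Zb β (t + 1)) \ Y : Finset (Fin n)) : Set (Fin n))
        (J (b' - 1)) (E q)) →
      (∀ q, P q ∈ PassB 𝔎 L M) → ∀ j, ∑ q, E q * P q ∈ V.I (j + e) (Y ∪ Zb β (t + 1)) →
      ∑ q, E q * P q ∈ V.I j (Y ∪ Zb β (b' - 1)))
    (hH : ∀ (Y : Finset (Fin n)) (E P : Fin M → MvPolynomial (Fin n) F),
      (∀ q, E q ∈ supported F (Y : Set (Fin n))) → (∀ q, P q ∈ PassB 𝔎 L M) →
      ∑ q, E q * P q ∈ V.I e' Y → ∑ q, E q * P q = 0)
    (hG : ∀ t', ∀ (B Y : Finset (Fin n)) (E P : Fin M → MvPolynomial (Fin n) F),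
      (∀ q, Ctrl (B : Set (Fin n)) (inp t') (E q)) → (∀ q, P q ∈ PassB 𝔎 L M) →
      ∀ j, ∑ q, E q * P q ∈ V.I (j + eG) Y → ∑ q, E q * P q ∈ V.I j (Y ∪ B))
    {x : MvPolynomial (Fin n) F}
    (hx : RepB 𝔎 (Algebra.adjoin F (Set.range (J b'))) L M x)
    (hmem : x ∈ V.I (e' + eG + e + eG) Y₁) : x = 0 := by
  classical
  obtain ⟨x, P', hxr, hP', rfl⟩ := SP.toFin hx (Subalgebra.zero_mem _)
    (PassB.zero hM0 L)
  have hctl : ∀ t' q, Ctrl ((Bb β t' : Finset (Fin n)) : Set (Fin n)) (inp t') (x q) := by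
    intro t' q
    have h1 : x q ∈ Algebra.adjoin F (Set.range (inp t') ∪ X '' {y | y ∉ Bb β t'}) := by
      refine (Algebra.adjoin_le ?_) (hxr q)
      rintro _ ⟨i, rfl⟩
      exact adjoin_blockB hJ t' b' i
    refine (ctrl_of_adjoin h1).mono ?_
    intro y hy
    simpa using hy
  -- free the block of `t`
  have h1 := hG t (Bb β t) Y₁ x P' (hctl t) hP' (e' + eG + e) hmem
  rw [hY₁] at h1
  -- decoupling
  have hctlJ : ∀ q, Ctrl (((Zb β (b' - 1) \ Zb β (t + 1)) \ Y : Finset (Fin n)) :
      Set (Fin n)) (J (b' - 1)) (x q) := by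
    intro q
    have h3 : x q ∈ Algebra.adjoin F (Set.range (J (b' - 1)) ∪
        X '' {y | y ∉ Zb β (b' - 1)}) := by
      refine (Algebra.adjoin_le ?_) (hxr q)
      rintro _ ⟨i, rfl⟩
      exact adjoin_chainB hJ.isupp hJ.stepm (Nat.sub_le _ _) i
    refine (ctrl_of_adjoin h3).mono ?_
    intro y hy
    rw [Finset.mem_coe, Finset.mem_sdiff, Finset.mem_sdiff] at hy
    simpa using hy.1.1
  have h3 := hdec x P' hctlJ hP' (e' + eG) h1
  -- free the last block
  have h4 := hG (b' - 1) (Bb β (b' - 1)) (Y ∪ Zb β (b' - 1)) x P' (hctl (b' - 1)) hP' e' h3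
  have h5 : Y ∪ Zb β (b' - 1) ∪ Bb β (b' - 1) = Y ∪ Zb β b' := by
    rw [Finset.union_assoc, ← Zb_succ, Nat.sub_add_cancel (by omega)]
  rw [h5] at h4
  refine hH (Y ∪ Zb β b') x P' (fun q => ?_) hP' h4
  have h6 : x q ∈ supported F (Zb β b' : Set (Fin n)) := by
    refine (Algebra.adjoin_le ?_) (hxr q)
    rintro _ ⟨i, rfl⟩
    exact hJ.supp b' i
  exact supported_mono (by
    rw [Finset.coe_union]
    exact Set.subset_union_right) h6

/-- set identities -/
theorem setB1 {n : ℕ} {β : Fin n → ℕ} {t a' : ℕ} {T Y : Finset (Fin n)} {i0 : Fin n}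
    (hi0Y : i0 ∈ Y) : Y ∪ (Zb β t ∪ insert i0 T) = Y ∪ (Zb β t ∪ T) ∧
      ((Zb β t ∪ insert i0 T) \ Zb β a') \ Y = ((Zb β t ∪ T) \ Zb β a') \ Y := by
  constructor
  · ext x
    simp only [Finset.mem_union, Finset.mem_insert]
    constructor
    · rintro (h | h | rfl | h) <;> tauto
    · tauto
  · ext x
    simp only [Finset.mem_sdiff, Finset.mem_union, Finset.mem_insert]
    constructor
    · rintro ⟨⟨h | rfl | h, h3⟩, h4⟩
      · tauto
      · exact absurd hi0Y h4
      · tauto
    · tauto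

theorem setB2 {n : ℕ} {β : Fin n → ℕ} {t a' : ℕ} {T Y : Finset (Fin n)} {i0 : Fin n}
    (hi0Y : i0 ∉ Y) (hi0Za : i0 ∉ Zb β a') :
    ((Zb β t ∪ insert i0 T) \ Zb β a') \ Y = insert i0 (((Zb β t ∪ T) \ Zb β a') \ Y) := by
  ext x
  simp only [Finset.mem_sdiff, Finset.mem_union, Finset.mem_insert]
  constructor
  · rintro ⟨⟨h | h | h, h3⟩, h4⟩
    · tauto
    · tauto
    · tauto
  · rintro (rfl | ⟨⟨h, h3⟩, h4⟩)
    · exact ⟨⟨Or.inr (Or.inl rfl), hi0Za⟩, hi0Y⟩
    · exact ⟨⟨by tauto, h3⟩, h4⟩

theorem setB3 {n : ℕ} {β : Fin n → ℕ} {t : ℕ} {T Y : Finset (Fin n)}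
    (hTt : ∀ x ∈ T, β x = t) : Y ∪ (Zb β t ∪ T) ∪ Bb β t = Y ∪ Zb β (t + 1) := by
  rw [Zb_succ]
  ext y
  simp only [Finset.mem_union]
  constructor
  · rintro ((h | h | h) | h)
    · tauto
    · tauto
    · exact Or.inr (Or.inr (mem_Bb.2 (hTt y h)))
    · tauto
  · tauto

theorem setB4 {n : ℕ} {β : Fin n → ℕ} {t : ℕ} {Y : Finset (Fin n)} :
    Y ∪ Zb β t ∪ (Bb β t \ Y) = Y ∪ Zb β (t + 1) := by
  rw [Zb_succ]
  ext x
  simp only [Finset.mem_union, Finset.mem_sdiff]
  tauto

theorem DecB.succ {c w s : ℕ} (hH : RelB 𝔎 c) (ih : DecB 𝔎 c w s) :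
    DecB 𝔎 c w (s + 1) := by
  classical
  intro l k u Q W
  set l' := l + (l + Q) * l with hl'
  set k' := k + (l + Q) * k with hk'
  set u' := u + 𝔎.der u with hu'
  set W₀ := 𝔎.dg W + 𝔎.c0 with hW₀
  set M := (l + Q).factorial * 𝔎.pg W₀ (l + Q) with hM
  have hM0 : 𝔎.c0 ≤ M := (𝔎.c0_le_pg W₀ (l + Q)).trans
    (Nat.le_mul_of_pos_left _ (Nat.factorial_pos _))
  obtain ⟨eA, hA⟩ := ih l k u Q W
  obtain ⟨eΔ, hdecΔ⟩ := ih l' k' u' M M
  obtain ⟨eH, hHe⟩ := hH M M
  obtain ⟨eF, hF⟩ := bfree hH k u Q W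
  obtain ⟨eG, hGf⟩ := bfree hH k' u' M M
  refine ⟨(eA + eF + (eH + eG + eΔ + eG)) + (l + Q), ?_⟩
  intro n V L hL β p hp ι κ _ _ J inp hJ hl hk hu Y a' b hab hor E P hE hP j h0
  by_cases hA0 : a' = b ∨ w + 1 ≤ er (Zb β a') (p b) + s
  · exact hA n V L hL β p hp ι κ J inp hJ hl hk hu Y a' b hab hA0 E P hE hP j
      (V.mono (by omega) _ h0)
  push Not at hA0
  obtain ⟨hne, hlt⟩ := hA0
  have hr : er (Zb β a') (p b) + s = w := by
    rcases hor with h | h
    · exact absurd h hne
    · omega
  set G : ι ⊕ Fin Q → MvPolynomial (Fin n) F := Sum.elim (J b) P with hG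
  have hGcard : ∀ S : Finset (Fin n), er S G ≤ l + Q := by
    intro S
    have := er_le_card S G
    rw [Fintype.card_sum, Fintype.card_fin] at this
    omega
  have claim : ∀ d t : ℕ, t + d = b → a' ≤ t → ∀ j,
      ∑ q, E q * P q ∈ V.I (j + (eA + eF + (eH + eG + eΔ + eG)) +
        ((l + Q) - er ((Zb β t \ Zb β a') \ Y) G))
        (Y ∪ Zb β t) → ∑ q, E q * P q ∈ V.I j (Y ∪ Zb β b) := by
    intro d
    induction d with
    | zero =>
      intro t htb hat j h
      have : t = b := by omega
      subst this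
      exact V.mono (by omega) _ h
    | succ d ihd =>
      intro t htb hat j h
      by_cases hA' : t + 1 = b ∨ w + 1 ≤ er (Zb β (t + 1)) (p b) + s
      · -- free the block
        have hctl : ∀ q, Ctrl ((Bb β t \ Y : Finset (Fin n)) : Set (Fin n)) (inp t) (E q) := by
          intro q
          refine Ctrl.trans (J' := J b) ?_ ((hE q).mono ?_)
          · intro i
            refine (ctrl_of_adjoin (adjoin_blockB hJ t b i)).mono ?_
            intro x hx
            rw [Finset.mem_coe, Finset.mem_sdiff] at hx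
            simpa using hx.1
          · intro x hx
            rw [Finset.mem_coe, Finset.mem_sdiff, mem_Bb] at hx
            rw [Finset.mem_coe, Finset.mem_sdiff, Finset.mem_sdiff, mem_Zb, mem_Zb]
            exact ⟨⟨by omega, by omega⟩, hx.2⟩
        have h1 : ∑ q, E q * P q ∈ V.I (j + eA) (Y ∪ Zb β (t + 1)) := by
          have h2 := hF n V L hL κ hk (inp t) (hu t) (Bb β t \ Y) (Y ∪ Zb β t) E P hctl hP
            (j + eA) (V.mono (by omega) _ h)
          rwa [setB4] at h2
        refine hA n V L hL β p hp ι κ J inp hJ hl hk hu Y (t + 1) b (by omega) hA' E P ?_ hP j h1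
        intro q
        refine (hE q).mono ?_
        intro x hx
        rw [Finset.mem_coe, Finset.mem_sdiff, Finset.mem_sdiff] at hx ⊢
        exact ⟨⟨hx.1.1, fun hc => hx.1.2 (Zb_mono (by omega) hc)⟩, hx.2⟩
      push Not at hA'
      obtain ⟨htb1, hlt1⟩ := hA'
      have hge1 : er (Zb β a') (p b) ≤ er (Zb β (t + 1)) (p b) :=
        er_mono (Zb_mono (by omega)) _
      have her1 : er (Zb β (t + 1)) (p b) + s = w := by omega
      -- minimal time with the same rank
      have hex : ∃ c, t + 1 < c ∧ er (Zb β (t + 1)) (p c) + s ≤ w :=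
        ⟨b, by omega, by omega⟩
      set b' := Nat.find hex with hb'
      have hb'1 : t + 1 < b' := (Nat.find_spec hex).1
      have hb'2 : er (Zb β (t + 1)) (p b') + s ≤ w := (Nat.find_spec hex).2
      have hb'b : b' ≤ b := Nat.find_min' hex ⟨by omega, by omega⟩
      have hb'3 : t + 1 = b' - 1 ∨ w + 1 ≤ er (Zb β (t + 1)) (p (b' - 1)) + s := by
        by_cases h1 : t + 1 = b' - 1
        · exact Or.inl h1
        · right
          have h2 := Nat.find_min hex (m := b' - 1) (by omega)
          push Not at h2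
          have := h2 (by omega)
          omega
      clear_value b'
      have her2 : er (Zb β (t + 1)) (p b') = er (Zb β (t + 1)) (p b) := by
        have := hp b' b hb'b (Zb β (t + 1)) (Zb_mono (by omega))
        omega
      set G' : ι ⊕ Fin Q → MvPolynomial (Fin n) F := Sum.elim (J b') P with hG'
      -- the inner induction over the block
      have inner : ∀ T : Finset (Fin n), T ⊆ Bb β t →
          ∑ q, E q * P q ∈ V.I (j + (eA + eF + (eH + eG + eΔ + eG)) +
            ((l + Q) - er (((Zb β t ∪ T) \ Zb β a') \ Y) G)) (Y ∪ (Zb β t ∪ T)) := by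
        intro T
        induction T using Finset.induction_on with
        | empty =>
          intro _
          rw [Finset.union_empty]
          exact h
        | insert i0 T hi0T ihT =>
          intro hTB
          have ihT' := ihT (fun x hx => hTB (Finset.mem_insert_of_mem hx))
          have hi0B : β i0 = t := mem_Bb.1 (hTB (Finset.mem_insert_self _ _))
          have hTt : ∀ x ∈ T, β x = t := fun x hx => mem_Bb.1 (hTB (Finset.mem_insert_of_mem hx))
          by_cases hi0Y : i0 ∈ Y
          · rw [(setB1 (a' := a') hi0Y).1, (setB1 (a' := a') hi0Y).2]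
            exact ihT'
          set S := ((Zb β t ∪ T) \ Zb β a') \ Y with hS
          have hi0Z : i0 ∉ Zb β t := by rw [mem_Zb]; omega
          have hi0Za : i0 ∉ Zb β a' := by rw [mem_Zb]; omega
          have hS1 : ((Zb β t ∪ insert i0 T) \ Zb β a') \ Y = insert i0 S := setB2 hi0Y hi0Za
          have hSt1 : insert i0 S ⊆ Zb β (t + 1) := by
            intro x hx
            rw [Finset.mem_insert] at hx
            rw [mem_Zb]
            rcases hx with rfl | hx
            · omega
            · rw [hS, Finset.mem_sdiff, Finset.mem_sdiff, Finset.mem_union] at hx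
              rcases hx.1.1 with h3 | h3
              · rw [mem_Zb] at h3; omega
              · have := hTt x h3; omega
          have hSZ : S ⊆ Y ∪ (Zb β t ∪ T) :=
            (Finset.sdiff_subset.trans Finset.sdiff_subset).trans Finset.subset_union_right
          have hi0YZ : i0 ∉ Y ∪ (Zb β t ∪ T) := by
            rw [Finset.mem_union, Finset.mem_union]
            exact fun hc => hc.elim hi0Y (fun hc => hc.elim hi0Z hi0T)
          have hZY : Y ∪ (Zb β t ∪ insert i0 T) = insert i0 (Y ∪ (Zb β t ∪ T)) := by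
            rw [Finset.union_insert, Finset.union_insert]
          have hcle := hGcard (insert i0 S)
          have hemono : er S G ≤ er (insert i0 S) G := er_mono (Finset.subset_insert _ _) _
          rw [hS1, hZY]
          by_cases hjump : er S G < er (insert i0 S) G
          · apply V.free
            refine V.mono ?_ _ ihT'
            omega
          push Not at hjump
          -- a lossless step
          have hspeq : sp S G = sp (insert i0 S) G := by
            apply Submodule.eq_of_le_of_finrank_le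
            · unfold sp
              apply Submodule.span_mono
              apply Set.image_mono
              exact_mod_cast Finset.subset_insert _ _
            · exact hjump
          have hB : dv G i0 ∈ sp S G := by
            rw [hspeq]
            exact Submodule.subset_span ⟨i0, by
              rw [Finset.mem_coe]; exact Finset.mem_insert_self _ _, rfl⟩
          have hB' : dv G' i0 ∈ sp S G' := by
            refine dep_transfer ?_ hB
            intro γ hγ
            have h1 : ∀ i, ∑ x, γ x * pderiv x (J b i) = 0 := fun i => hγ.2 (Sum.inl i)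
            have h2 := hJ.etale (t + 1) b' b (by omega) hb'b her2 γ
              (fun x hx => hγ.1 x (fun hc => hx (hSt1 hc))) h1
            rintro (i | q)
            · exact h2 i
            · exact hγ.2 (Sum.inr q)
          obtain ⟨ρ, κ', g, m, hρ, hκ, hμ0, hrel⟩ := cramer_rel hB'
          set μ := (Matrix.of fun q l => pderiv (κ' q) (G' (g l))).det with hμ
          have hρ' : ρ ≤ l + Q := by
            rw [Fintype.card_sum, Fintype.card_fin] at hρ
            omega
          -- the minor does not vanish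
          have hJ' := hJ.prol κ'
          have hcard' : Fintype.card (ι ⊕ Fin ρ × ι) ≤ l' := by
            rw [Fintype.card_sum, Fintype.card_prod, Fintype.card_fin]
            exact Nat.add_le_add hl (Nat.mul_le_mul hρ' hl)
          have hcard'' : Fintype.card (κ ⊕ Fin ρ × κ) ≤ k' := by
            rw [Fintype.card_sum, Fintype.card_prod, Fintype.card_fin]
            exact Nat.add_le_add hk (Nat.mul_le_mul hρ' hk)
          have hinp' : ∀ b i, prol κ' inp b i ∈ 𝔎.K n u' := by
            rintro b (i | ⟨q, i⟩)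
            · exact 𝔎.mono (by omega) (hu b i)
            · exact 𝔎.mono (by omega) (𝔎.der_mem (κ' q) (hu b i))
          have ht1b : t + 1 ≤ b' - 1 := by omega
          have hle3 : eH + eG + eΔ + eG ≤ j + (eA + eF + (eH + eG + eΔ + eG)) +
              ((l + Q) - er S G) := by omega
          have hnon : μ ∉ V.I (j + (eA + eF + (eH + eG + eΔ + eG)) +
              ((l + Q) - er S G)) (Y ∪ (Zb β t ∪ T)) := by
            intro hmem
            apply hμ0
            have hrep : RepB 𝔎 (Algebra.adjoin F (Set.range (prol κ' J b'))) L M μ := by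
              refine RepB.det hρ' fun q q' => ?_
              simp only [Matrix.of_apply, hG']
              rcases g q' with i | r
              · refine RepB.ofRing (by omega) ?_
                exact Algebra.subset_adjoin ⟨Sum.inr (q, i), rfl⟩
              · refine RepB.ofMem (𝔎.c0_pos.trans (by omega)) ?_
                exact PassB.mono (by omega) (by omega) L (PassB.pderiv (κ' q) _ (hP r))
            exact brep_zero V hJ' hb'1 hM0 (setB3 hTt)
              (fun E P => hdecΔ n V L hL β p hp _ _ _ _ hJ' hcard' hcard'' hinp' Y (t + 1)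
                (b' - 1) ht1b hb'3 E P) (hHe n V L hL)
              (fun t' => hGf n V L hL _ hcard'' (prol κ' inp t') (hinp' t')) hrep
              (V.mono hle3 _ hmem)
          -- the differential relation
          have hE' : ∀ q, Ctrl ((insert i0 S : Finset (Fin n)) : Set (Fin n)) (J b') (E q) := by
            intro q
            have hsub : ((insert i0 S : Finset (Fin n)) : Set (Fin n)) ⊆
                (((Zb β b \ Zb β a') \ Y : Finset (Fin n)) : Set (Fin n)) := by
              rw [← hS1]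
              intro x hx
              have hx1 := hSt1 (by rw [← hS1]; exact Finset.mem_coe.1 hx)
              rw [Finset.mem_coe, Finset.mem_sdiff, Finset.mem_sdiff] at hx ⊢
              exact ⟨⟨Zb_mono (by omega) hx1, hx.1.2⟩, hx.2⟩
            refine Ctrl.trans (J' := J b) ?_ ((hE q).mono hsub)
            intro i
            refine (ctrl_chainB hJ.isupp hJ.stepm hb'b i).mono ?_
            intro x hx
            exact_mod_cast Zb_mono (by omega) (hSt1 (Finset.mem_coe.1 hx))
          have hpde := ctrl_pde (ctrl_comb (P := P) hE') (by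
              rw [Finset.mem_coe]; exact Finset.mem_insert_self _ _)
            (fun q => by rw [Finset.mem_coe]; exact Finset.mem_insert_of_mem (hκ q)) hrel
          have h8 := V.lossless1 hi0YZ (fun q => hSZ (hκ q)) hpde ihT' hnon
          refine V.mono ?_ _ h8
          omega
      have h9 := inner (Bb β t) le_rfl
      rw [← Zb_succ] at h9
      exact ihd (t + 1) (by omega) (by omega) j h9
  refine claim (b - a') a' (by omega) le_rfl j ?_
  refine V.mono ?_ _ h0
  omega

theorem DecB.all {c : ℕ} (hH : RelB 𝔎 c) (w s : ℕ) : DecB 𝔎 c w s := by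
  induction s with
  | zero => exact DecB.zero c w
  | succ s ih => exact DecB.succ hH ih

end Pool.Agent.H530R2
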