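import Mathlib
import Pool.Agent.H530R2.Blk3

/-!
The next good family: polynomials in boundedly many product gates of bounded occurrence and
outputs of register programs reading members of the family in disjoint blocks.
-/

namespace Pool.Agent.H530R2

open MvPolynomial Module

universe v

section rel

variable {F : Type v} [Field F] {𝔎 : Good F}

theorem adj_prod {n : ℕ} {τ : Type} {h : τ → MvPolynomial (Fin n) F}
    {𝔸 : Subalgebra F (MvPolynomial (Fin n) F)} (k : Fin n) (h1 : ∀ j, h j ∈ 𝔸)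
    (h2 : ∀ j, pderiv k (h j) ∈ 𝔸) (S : Finset τ) : pderiv k (∏ j ∈ S, h j) ∈ 𝔸 := by
  classical
  have key : ∏ j ∈ S, h j ∈ 𝔸 ∧ pderiv k (∏ j ∈ S, h j) ∈ 𝔸 := by
    induction S using Finset.induction_on with
    | empty =>
      rw [Finset.prod_empty, Derivation.map_one_eq_zero]
      exact ⟨Subalgebra.one_mem _, Subalgebra.zero_mem _⟩
    | insert j S hj ihS =>
      rw [Finset.prod_insert hj]
      refine ⟨Subalgebra.mul_mem _ (h1 j) ihS.1, ?_⟩
      rw [pderiv_mul]
      exact Subalgebra.add_mem _ (Subalgebra.mul_mem _ (h2 j) ihS.1)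
        (Subalgebra.mul_mem _ (h1 j) ihS.2)
  exact key.2

theorem RelB.zero (𝔎 : Good F) : RelB 𝔎 0 := by
  classical
  intro Q W
  obtain ⟨e, he⟩ := 𝔎.seeds (𝔎.comb (Q * Q) (𝔎.der W))
  refine ⟨e + Q, ?_⟩
  intro n V L hL Y E P hE hP h
  have hL' : L = [] := List.length_eq_zero_iff.1 hL
  subst hL'
  have hctl : Ctrl (((Finset.univ \ Y : Finset (Fin n))) : Set (Fin n)) P (∑ q, E q * P q) := by
    refine ⟨E, ?_⟩
    intro k hk
    rw [Finset.mem_coe, Finset.mem_sdiff] at hk
    rw [map_sum]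
    apply Finset.sum_congr rfl
    intro q _
    have h1 : pderiv k (E q) = 0 := by
      apply pderiv_eq_zero_of_notMem_vars
      intro hc
      exact hk.2 (by exact_mod_cast (mem_supported.1 (hE q)) (Finset.mem_coe.2 hc))
    rw [pderiv_mul, h1, zero_mul, zero_add]
  have h1 : ∑ q, E q * P q ∈ V.I 0 (Y ∪ (Finset.univ \ Y)) := by
    refine V.free_block hctl (r := Q) (e := e) (by rw [Fintype.card_fin]) ?_
      (by rw [zero_add]; exact h)
    intro ρ κ g' hρ hdet Y' hY'
    apply hdet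
    refine he n V _ ?_ Y' hY'
    refine 𝔎.comb_mem (ι := Fin ρ × Fin ρ) (g := fun x => pderiv (κ x.1) (P (g' x.2))) ?_
      (fun x => 𝔎.der_mem _ (hP _)) ?_
    · rw [Fintype.card_prod, Fintype.card_fin]
      exact Nat.mul_le_mul hρ hρ
    · apply det_mem'
      intro q l
      exact Algebra.subset_adjoin ⟨(q, l), rfl⟩
  refine V.supp 0 _ _ ?_ h1
  rw [Finset.union_sdiff_of_subset (Finset.subset_univ _), Finset.coe_univ, supported_univ]
  trivial

theorem RelB.succ {c : ℕ} (hH : RelB 𝔎 c) : RelB 𝔎 (c + 1) := by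
  classical
  intro Q W₀
  set W := W₀ + 𝔎.c0 with hW
  obtain ⟨e, he⟩ := DecB.all hH ((Q * W) * W) ((Q * W) * W + 1) ((Q * W) * W) ((Q * W) * W) W
    (Q * W) W
  obtain ⟨eH, hHe⟩ := hH (Q * W) W
  refine ⟨eH + e, ?_⟩
  intro n V L hL Y E P hE hP h
  obtain ⟨β, L', rfl⟩ : ∃ β L', L = β :: L' := by
    cases L with
    | nil => simp at hL
    | cons σ L' => exact ⟨σ, L', rfl⟩
  have hL' : L'.length = c := by simpa using hL
  have hc0 : 𝔎.c0 ≤ W := Nat.le_add_left _ _
  have hP' : ∀ q, P q ∈ PassB 𝔎 (β :: L') W := fun q =>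
    PassB.mono (Nat.le_add_right _ _) hc0 _ (hP q)
  have hz : IsRegB 𝔎 β.1 β.2 W (0 : MvPolynomial (Fin n) F) := by
    have := IsRegB.const hc0 β.1 β.2 (0 : F)
    rwa [map_zero] at this
  choose A B hA hB hAB using fun q => SP.toFin (hP' q) hz (PassB.zero hc0 L')
  set eq := (finProdFinEquiv : Fin Q × Fin W ≃ Fin (Q * W)) with heq
  set A' : Fin (Q * W) → MvPolynomial (Fin n) F := fun i => A (eq.symm i).1 (eq.symm i).2 with hA'
  set B' : Fin (Q * W) → MvPolynomial (Fin n) F := fun i => B (eq.symm i).1 (eq.symm i).2 with hB'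
  set E' : Fin (Q * W) → MvPolynomial (Fin n) F := fun i => E (eq.symm i).1 with hE'
  have hsum : ∑ q, E q * P q = ∑ i, (E' i * A' i) * B' i := by
    rw [← Equiv.sum_comp eq, Fintype.sum_prod_type]
    apply Finset.sum_congr rfl
    intro q _
    rw [hAB q, Finset.mul_sum]
    apply Finset.sum_congr rfl
    intro r _
    simp only [hA', hB', hE', Equiv.symm_apply_apply]
    ring
  rw [hsum] at h ⊢
  have hA'' : ∀ i, IsRegB 𝔎 β.1 β.2 W (A' i) := fun i => hA _ _
  choose p inp hp hpA using hA''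
  -- joint registers
  set e2 := (finProdFinEquiv : Fin (Q * W) × Fin W ≃ Fin ((Q * W) * W)) with he2
  set P₀ : ℕ → Fin ((Q * W) * W) → MvPolynomial (Fin n) F :=
    fun b x => p (e2.symm x).1 b (e2.symm x).2 with hP₀
  set I₀ : ℕ → Fin ((Q * W) * W) → MvPolynomial (Fin n) F :=
    fun b x => inp (e2.symm x).1 b (e2.symm x).2 with hI₀
  have hst : ∀ b i, P₀ (b + 1) i ∈ Algebra.adjoin F (Set.range (P₀ b) ∪ Set.range (I₀ b)) := by
    intro b i
    refine Algebra.adjoin_mono ?_ ((hp (e2.symm i).1).stepm b (e2.symm i).2)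
    apply Set.union_subset_union
    · rintro _ ⟨x, rfl⟩
      exact ⟨e2 ((e2.symm i).1, x), by simp only [hP₀, Equiv.symm_apply_apply]⟩
    · rintro _ ⟨x, rfl⟩
      exact ⟨e2 ((e2.symm i).1, x), by simp only [hI₀, Equiv.symm_apply_apply]⟩
  have hsupp : ∀ b i, P₀ b i ∈ supported F (Zb β.1 b : Set (Fin n)) :=
    fun b i => (hp (e2.symm i).1).supp b _
  have hisupp : ∀ b i, I₀ b i ∈ supported F (Bb β.1 b : Set (Fin n)) :=
    fun b i => (hp (e2.symm i).1).isupp b _
  have hsys : SysB β.1 P₀ P₀ I₀ := SysB.base hsupp hisupp hst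
  have hanti : ∀ c b, c ≤ b → ∀ S : Finset (Fin n), S ⊆ Zb β.1 c →
      er S (P₀ b) ≤ er S (P₀ c) := by
    intro c b hcb S hS
    exact er_anti' (fun i => ctrl_chainB hisupp hst hcb i) (by exact_mod_cast hS)
  -- the final time
  set T := β.2 with hT
  have hctrl : ∀ i, Ctrl (((Zb β.1 T \ Zb β.1 0) \ Y : Finset (Fin n)) : Set (Fin n))
      (P₀ T) (E' i * A' i) := by
    intro i
    refine (ctrl_of_adjoin (W := (Y : Set (Fin n))) ?_).mono ?_
    · refine Subalgebra.mul_mem _ ?_ ?_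
      · exact Algebra.adjoin_mono Set.subset_union_right (hE _)
      · refine Algebra.adjoin_mono ?_ (hpA i)
        refine Set.Subset.trans ?_ Set.subset_union_left
        rintro _ ⟨x, rfl⟩
        exact ⟨e2 (i, x), by simp only [hP₀, Equiv.symm_apply_apply]⟩
    · intro k hk
      rw [Finset.mem_coe, Finset.mem_sdiff] at hk
      exact hk.2
  have hcard : Fintype.card (Fin ((Q * W) * W)) ≤ (Q * W) * W := by rw [Fintype.card_fin]
  have h0 : Y ∪ Zb β.1 0 = Y := by rw [Zb_zero, Finset.union_empty]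
  have h1 : ∑ i, (E' i * A' i) * B' i ∈ V.I eH (Y ∪ Zb β.1 T) := by
    refine he n V L' hL' β.1 P₀ hanti _ _ P₀ I₀ hsys hcard hcard
      (fun b i => (hp (e2.symm i).1).imem b _) Y 0 T (Nat.zero_le _) (Or.inr (by omega)) _ B'
      hctrl (fun i => hB _ _) eH ?_
    rw [h0]
    exact h
  refine hHe n V L' hL' (Y ∪ Zb β.1 T) _ B' (fun i => ?_) (fun i => hB _ _) h1
  have hAs : A' i ∈ supported F (Zb β.1 T : Set (Fin n)) := by
    refine (Algebra.adjoin_le ?_) (hpA i)
    rintro _ ⟨x, rfl⟩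
    exact (hp i).supp T x
  refine Subalgebra.mul_mem _ (supported_mono ?_ (hE _)) (supported_mono ?_ hAs)
  · rw [Finset.coe_union]
    exact Set.subset_union_left
  · rw [Finset.coe_union]
    exact Set.subset_union_right

theorem RelB.all (𝔎 : Good F) (c : ℕ) : RelB 𝔎 c := by
  induction c with
  | zero => exact RelB.zero 𝔎
  | succ c ih => exact RelB.succ ih

end rel

end Pool.Agent.H530R2
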