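import Mathlib
import Pool.Agent.H530R2.Blk4

/-!
The next good family: polynomials in boundedly many gates, where a gate is a product of bounded
occurrence or the output of a register program reading members of the family in disjoint blocks.
-/

namespace Pool.Agent.H530R2

open MvPolynomial Module

universe v

section gate

variable {F : Type v} [Field F] (𝔎 : Good F) {n : ℕ}

/-- gates over a good family -/
def Gate (n W : ℕ) : Set (MvPolynomial (Fin n) F) :=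
  {f | OccProd W (𝔎.K n W) f ∨ ∃ (β : Fin n → ℕ) (R : ℕ), IsRegB 𝔎 β R (W + 𝔎.c0) f}

variable {𝔎}

theorem Gate.mono {W W' : ℕ} (hW : W ≤ W') : Gate 𝔎 n W ⊆ Gate 𝔎 n W' := by
  rintro f (hf | ⟨β, R, hf⟩)
  · exact Or.inl (OccProd.mono hW (𝔎.mono hW) hf)
  · exact Or.inr ⟨β, R, IsRegB.mono (by omega) (by omega) hf⟩

theorem Gate.ofK {W : ℕ} (hW : 1 ≤ W) {f : MvPolynomial (Fin n) F} (hf : f ∈ 𝔎.K n W) :
    f ∈ Gate 𝔎 n W :=
  Or.inl (OccProd.single hW hf)

variable (𝔎) in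
/-- the parameter of the split -/
def Good.sg (Q W : ℕ) : ℕ := 𝔎.comb (2 * (Q * W)) (W + 𝔎.der W) + 𝔎.dg (W + 𝔎.c0) + 𝔎.c0

theorem gate_split {W : ℕ} {T : MvPolynomial (Fin n) F} (hT : T ∈ Gate 𝔎 n W) {ρ Q : ℕ}
    (hρ : ρ ≤ Q) (κ : Fin ρ → Fin n) :
    ∃ (U R : MvPolynomial (Fin n) F) (β : (Fin n → ℕ) × ℕ),
      T = U * R ∧ (∀ q, pderiv (κ q) U = 0) ∧
      (∃ (s : ℕ) (g : Fin s → MvPolynomial (Fin n) F), (∀ j, g j ∈ 𝔎.K n W) ∧ U = ∏ j, g j) ∧
      (∀ q, pderiv (κ q) R ∈ PassB 𝔎 [β] (𝔎.sg Q W)) := by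
  classical
  have hc : 𝔎.c0 ≤ 𝔎.sg Q W := by unfold Good.sg; omega
  rcases hT with hT | ⟨β, R, hT⟩
  · obtain ⟨U, ι, _, f, hU, hUk, hf, hcard, hTU, hprod⟩ := hT.split κ
    refine ⟨U, ∏ j, f j, (fun _ => 0, 0), hTU, hUk, hprod, fun q => ?_⟩
    refine PassB.ofK hc _ ?_
    refine 𝔎.mono (show 𝔎.comb (2 * (Q * W)) (W + 𝔎.der W) ≤ 𝔎.sg Q W by
      unfold Good.sg; omega) ?_
    refine 𝔎.comb_mem (ι := ι ⊕ ι) (g := Sum.elim f (fun j => pderiv (κ q) (f j))) ?_ ?_ ?_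
    · rw [Fintype.card_sum]
      have := hcard.trans (Nat.mul_le_mul_right W hρ)
      omega
    · rintro (j | j)
      · exact 𝔎.mono (Nat.le_add_right _ _) (hf j)
      · exact 𝔎.mono (Nat.le_add_left _ _) (𝔎.der_mem _ (hf j))
    · refine adj_prod (κ q) (fun j => ?_) (fun j => ?_) _
      · exact Algebra.subset_adjoin ⟨Sum.inl j, rfl⟩
      · exact Algebra.subset_adjoin ⟨Sum.inr j, rfl⟩
  · refine ⟨1, T, (β, R), (one_mul _).symm, fun q => Derivation.map_one_eq_zero _,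
      ⟨0, Fin.elim0, fun j => j.elim0, by simp⟩, fun q => ?_⟩
    have h1 : pderiv (κ q) T = pderiv (κ q) T * C 1 := by rw [C_1, mul_one]
    show SP _ _ _ _
    rw [h1]
    refine SP.one_term ?_ (PassB.const hc [] 1) (𝔎.c0_pos.trans hc)
    exact IsRegB.mono (by unfold Good.sg; omega) hc (IsRegB.pderiv hT (κ q))

/-- derivatives of gates -/
theorem gate_der {W : ℕ} {T : MvPolynomial (Fin n) F} (hT : T ∈ Gate 𝔎 n W) (k : Fin n) :
    ∃ (τ : Type) (_ : Fintype τ) (G : τ → MvPolynomial (Fin n) F),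
      Fintype.card τ ≤ 2 * W + 2 ∧
      (∀ i, G i ∈ Gate 𝔎 n (W + 𝔎.der W + 𝔎.dg (W + 𝔎.c0) + 1)) ∧
      T ∈ Algebra.adjoin F (Set.range G) ∧ pderiv k T ∈ Algebra.adjoin F (Set.range G) := by
  classical
  rcases hT with hT | ⟨β, R, hT⟩
  · obtain ⟨U, ι, _, f, hU, hUk, hf, hcard, hTU, _⟩ := hT.split (fun _ : Fin 1 => k)
    rw [one_mul] at hcard
    refine ⟨Option (ι ⊕ ι), inferInstance,
      fun x => Option.elim x U (Sum.elim f (fun j => pderiv k (f j))), ?_, ?_, ?_, ?_⟩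
    · rw [Fintype.card_option, Fintype.card_sum]; omega
    · rintro (_ | j | j)
      · exact Gate.mono (by omega) (Or.inl hU)
      · exact Gate.ofK (by omega) (𝔎.mono (by omega) (hf j))
      · exact Gate.ofK (by omega) (𝔎.mono (by omega) (𝔎.der_mem k (hf j)))
    · rw [hTU]
      exact Subalgebra.mul_mem _ (Algebra.subset_adjoin ⟨none, rfl⟩)
        (Subalgebra.prod_mem _ fun j _ => Algebra.subset_adjoin ⟨some (Sum.inl j), rfl⟩)
    · rw [hTU, pderiv_mul, hUk 0, zero_mul, zero_add]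
      refine Subalgebra.mul_mem _ (Algebra.subset_adjoin ⟨none, rfl⟩)
        (adj_prod k (fun j => ?_) (fun j => ?_) _)
      · exact Algebra.subset_adjoin ⟨some (Sum.inl j), rfl⟩
      · exact Algebra.subset_adjoin ⟨some (Sum.inr j), rfl⟩
  · refine ⟨Bool, inferInstance, fun b => if b then T else pderiv k T, ?_, ?_, ?_, ?_⟩
    · rw [Fintype.card_bool]; omega
    · intro b
      cases b
      · simp only [Bool.false_eq_true, if_false]
        exact Or.inr ⟨β, R, IsRegB.mono (by omega) (by omega) (IsRegB.pderiv hT k)⟩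
      · simp only [if_true]
        exact Gate.mono (by omega) (Or.inr ⟨β, R, hT⟩)
    · exact Algebra.subset_adjoin ⟨true, by simp⟩
    · exact Algebra.subset_adjoin ⟨false, by simp⟩

theorem next_seeds [CharZero F] (𝔎 : Good F) (W : ℕ) : ∃ m : ℕ, ∀ (n : ℕ) (V : VanM F n),
    ∀ f : MvPolynomial (Fin n) F, Pol (Gate 𝔎 n W) W f → ∀ Y : Finset (Fin n), f ∈ V.I m Y →
      f = 0 := by
  classical
  set W₂ := 𝔎.sg W W with hW₂
  set M := W.factorial * 𝔎.pg W₂ W with hM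
  have hW₂c : 𝔎.c0 ≤ W₂ := by rw [hW₂]; unfold Good.sg; omega
  have hMc : 𝔎.c0 ≤ M := (𝔎.c0_le_pg W₂ W).trans
    (Nat.le_mul_of_pos_left _ (Nat.factorial_pos _))
  obtain ⟨m₁, h₁⟩ := 𝔎.seeds W
  obtain ⟨m₂, h₂⟩ := RelB.all 𝔎 (W * 1) M M
  refine ⟨m₁ + m₂ + W, ?_⟩
  intro n V f hf Y hmem
  obtain ⟨ι, _, T, hc, hT, hf⟩ := hf
  set g : Fin (Fintype.card ι) → MvPolynomial (Fin n) F :=
    fun i => T ((Fintype.equivFin ι).symm i) with hg
  have hr : Set.range g = Set.range T := (Fintype.equivFin ι).symm.surjective.range_comp T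
  rw [← hr, Algebra.adjoin_range_eq_range_aeval] at hf
  obtain ⟨Φ, hΦ⟩ := hf
  have hΦ' : aeval g Φ = f := hΦ
  rw [← hΦ'] at hmem ⊢
  refine comp_zero V g W (m₁ + m₂) (not_algIndep_of_lt hc g) ?_ Φ Y hmem
  intro ρ κ g' hρ hdet Y' hY'
  choose U R β hTU hUk hprod hR using
    fun l => gate_split (hT ((Fintype.equivFin ι).symm (g' l))) hρ κ
  -- factor the minor
  have hfac : (Matrix.of fun q l => pderiv (κ q) (g (g' l))).det =
      (∏ l, U l) * (Matrix.of fun q l => pderiv (κ q) (R l)).det := by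
    rw [← Matrix.det_mul_row]
    congr 1
    ext1 q l
    simp only [Matrix.of_apply, hg]
    rw [hTU l, pderiv_mul, hUk l q, zero_mul, zero_add]
  rw [hfac] at hdet hY'
  have hdetU := left_ne_zero_of_mul hdet
  have hdet' := right_ne_zero_of_mul hdet
  have hprime := V.prime (m₁ + m₂) Y'
  rcases hprime.mem_or_mem hY' with h3 | h3
  · rw [Ideal.IsPrime.prod_mem_iff] at h3
    obtain ⟨l, _, h3⟩ := h3
    obtain ⟨s, u, hu, hUu⟩ := hprod l
    have hUl : U l ≠ 0 := (Finset.prod_ne_zero_iff.1 hdetU) l (Finset.mem_univ _)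
    rw [hUu] at h3 hUl
    rw [Ideal.IsPrime.prod_mem_iff] at h3
    obtain ⟨j, _, h3⟩ := h3
    have hj := (Finset.prod_ne_zero_iff.1 hUl) j (Finset.mem_univ _)
    exact hj (h₁ n V _ (hu j) Y' (V.mono (by omega) _ h3))
  · apply hdet'
    obtain ⟨L', hL', hsub⟩ := PassB.prod (𝔎 := 𝔎) (W := W₂) (c := 1) hW₂c ρ
      (fun l => [β l]) (fun l => rfl)
    obtain ⟨L'', hL'', hsub'⟩ := PassB.pad (𝔎 := 𝔎) (W := W₂) (c := ρ * 1) (c' := W * 1)
      hW₂c (Nat.mul_le_mul_right _ hρ) L' hL'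
    have hμP : RepB 𝔎 (⊥ : Subalgebra F (MvPolynomial (Fin n) F)) L'' M
        (Matrix.of fun q l => pderiv (κ q) (R l)).det := by
      refine RepB.det hρ fun q l => RepB.ofMem (𝔎.c0_pos.trans hW₂c) ?_
      apply hsub'
      exact hsub l (hR l q)
    obtain ⟨x, p, hx, hp, hxp⟩ := SP.toFin hμP (Subalgebra.zero_mem _) (PassB.zero hMc L'')
    rw [hxp] at h3 ⊢
    exact h₂ n V L'' hL'' Y' x p (fun q => (bot_le : (⊥ : Subalgebra F _) ≤ _) (hx q)) hp
      (V.mono (by omega) _ h3)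

/-- the next family -/
def Good.next [CharZero F] (𝔎 : Good F) : Good F where
  K n W := {f | Pol (Gate 𝔎 n W) W f}
  mono := fun hW f hf => Pol.mono (Gate.mono hW) hW hf
  comb k W := k * W + W
  comb_mem := by
    intro n W k ι _ g f hι hg hf
    exact Pol.mono (Gate.mono (Nat.le_add_left _ _)) (Nat.le_add_right _ _) (Pol.comb hι hg hf)
  der W := W * (2 * W + 2) + (W + 𝔎.der W + 𝔎.dg (W + 𝔎.c0) + 1)
  der_mem := by
    classical
    intro n W k f hf
    obtain ⟨ι, _, T, hc, hT, hf⟩ := hf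
    choose τ hτ G hcard hG hTG hdG using fun i => gate_der (hT i) k
    refine ⟨Σ i, τ i, inferInstance, fun x => G x.1 x.2, ?_, ?_, ?_⟩
    · rw [Fintype.card_sigma]
      calc ∑ i : ι, Fintype.card (τ i) ≤ ∑ _i : ι, (2 * W + 2) :=
            Finset.sum_le_sum fun i _ => hcard i
        _ = Fintype.card ι * (2 * W + 2) := by
            rw [Finset.sum_const, Finset.card_univ, smul_eq_mul]
        _ ≤ W * (2 * W + 2) := Nat.mul_le_mul_right _ hc
        _ ≤ _ := Nat.le_add_right _ _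
    · rintro ⟨i, x⟩
      exact Gate.mono (Nat.le_add_left _ _) (hG i x)
    · refine pderiv_mem_of_adjoin k ?_ ?_ hf
      · rintro _ ⟨i, rfl⟩
        refine Algebra.adjoin_mono ?_ (hTG i)
        rintro _ ⟨x, rfl⟩
        exact ⟨⟨i, x⟩, rfl⟩
      · rintro _ ⟨i, rfl⟩
        refine Algebra.adjoin_mono ?_ (hdG i)
        rintro _ ⟨x, rfl⟩
        exact ⟨⟨i, x⟩, rfl⟩
  seeds W := next_seeds 𝔎 W

/-- the base family -/
def Good.base (F : Type v) [Field F] [CharZero F] : Good F where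
  K n W := {f | Pol {g : MvPolynomial (Fin n) F | Low W g} W f}
  mono := fun hW f hf => Pol.mono (fun g hg => Low.mono hW hg) hW hf
  comb k W := k * W + W
  comb_mem := by
    intro n W k ι _ g f hι hg hf
    exact Pol.mono (fun g hg => Low.mono (Nat.le_add_left _ _) hg) (Nat.le_add_right _ _)
      (Pol.comb hι hg hf)
  der W := 2 * W
  der_mem := by
    classical
    intro n W k f hf
    obtain ⟨ι, _, A, hc, hA, hf⟩ := hf
    refine ⟨ι ⊕ ι, inferInstance, Sum.elim A (fun i => MvPolynomial.pderiv k (A i)), ?_, ?_, ?_⟩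
    · rw [Fintype.card_sum]; omega
    · rintro (i | i)
      · exact Low.mono (by omega) (hA i)
      · exact Low.mono (by omega) (Low.pderiv (hA i) k)
    · refine pderiv_mem_of_adjoin k ?_ ?_ hf
      · rintro _ ⟨i, rfl⟩
        exact Algebra.subset_adjoin ⟨Sum.inl i, rfl⟩
      · rintro _ ⟨i, rfl⟩
        exact Algebra.subset_adjoin ⟨Sum.inr i, rfl⟩
  seeds W := by
    obtain ⟨m, hm⟩ := exists_seedsG F W
    refine ⟨m, fun n V f hf Y h => hm n V f ?_ Y h⟩
    obtain ⟨ι, _, A, hc, hA, hf⟩ := hf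
    exact ⟨ι, _, A, hc, fun i => Or.inl (hA i), hf⟩

/-- the family of depth `D` -/
def goodD (F : Type v) [Field F] [CharZero F] : ℕ → Good F
  | 0 => Good.base F
  | D + 1 => (goodD F D).next

/-- Composites of bounded transcendence degree of members of a good family. -/
theorem Good.comp [CharZero F] (𝔎 : Good F) (W r : ℕ) : ∃ m : ℕ,
    ∀ (n : ℕ) (V : VanM F n) (N : ℕ) (g : Fin N → MvPolynomial (Fin n) F),
      (∀ i, g i ∈ 𝔎.K n W) →
      (∀ s : Fin (r + 1) → Fin N, ¬ AlgebraicIndependent F (fun i => g (s i))) →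
      ∀ (Φ : MvPolynomial (Fin N) F) (Y : Finset (Fin n)), aeval g Φ ∈ V.I m Y →
        aeval g Φ = 0 := by
  classical
  obtain ⟨e, he⟩ := 𝔎.seeds (𝔎.comb (r * r) (𝔎.der W))
  refine ⟨e + r, ?_⟩
  intro n V N g hg htr Φ Y hmem
  refine comp_zero V g r e htr ?_ Φ Y hmem
  intro ρ κ g' hρ hdet Y' hY'
  apply hdet
  refine he n V _ ?_ Y' hY'
  refine 𝔎.comb_mem (ι := Fin ρ × Fin ρ) (g := fun x => pderiv (κ x.1) (g (g' x.2)))
    ?_ (fun x => 𝔎.der_mem _ (hg _)) ?_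
  · rw [Fintype.card_prod, Fintype.card_fin]
    exact Nat.mul_le_mul hρ hρ
  · apply det_mem'
    intro q l
    exact Algebra.subset_adjoin ⟨(q, l), rfl⟩

end gate

end Pool.Agent.H530R2
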