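import Mathlib
import Pool.Agent.H530R2.SumRO

/-!
From the generator to an explicit finite set of integer points.
-/

namespace Pool.Agent.H530R2

open Module

section degree

variable {F : Type*} [Field F] {n : ℕ}

theorem degreeOf_aeval_le {τ : Type*} (g : Fin n → MvPolynomial τ F) (v : τ) (B : ℕ)
    (hB : ∀ i, (g i).degreeOf v ≤ B) (f : MvPolynomial (Fin n) F) :
    (MvPolynomial.aeval g f).degreeOf v ≤ B * f.totalDegree := by
  rw [MvPolynomial.aeval_def, MvPolynomial.eval₂_eq']
  refine (MvPolynomial.degreeOf_sum_le _ _ _).trans (Finset.sup_le fun s hs => ?_)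
  rw [MvPolynomial.algebraMap_eq]
  refine (MvPolynomial.degreeOf_C_mul_le _ _ _).trans ?_
  refine (MvPolynomial.degreeOf_prod_le _ _ _).trans ?_
  calc ∑ i, ((g i) ^ (s i)).degreeOf v ≤ ∑ i, s i * B := by
        apply Finset.sum_le_sum
        intro i _
        exact (MvPolynomial.degreeOf_pow_le _ _ _).trans (Nat.mul_le_mul_left _ (hB i))
    _ = B * ∑ i, s i := by rw [← Finset.sum_mul, mul_comm]
    _ ≤ B * f.totalDegree := by
        apply Nat.mul_le_mul_left
        have := MvPolynomial.le_totalDegree hs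
        rwa [Finsupp.sum_fintype _ _ (fun _ => rfl)] at this

theorem degreeOf_gen_inl (a : Fin n → F) (m : ℕ) (l : Fin m) (f : MvPolynomial (Fin n) F) :
    (gen a m f).degreeOf (Sum.inl l) ≤ f.totalDegree := by
  have := degreeOf_aeval_le (fun i => ∑ l : Fin m, MvPolynomial.X (Sum.inl l) *
    ∏ i' ∈ Finset.univ.erase i, (MvPolynomial.X (Sum.inr l) - MvPolynomial.C (a i')))
    (Sum.inl l) 1 ?_ f
  · rwa [one_mul] at this
  · intro i
    refine (MvPolynomial.degreeOf_sum_le _ _ _).trans (Finset.sup_le fun l' _ => ?_)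
    refine (MvPolynomial.degreeOf_mul_le _ _ _).trans ?_
    have h1 : (MvPolynomial.X (Sum.inl l') : MvPolynomial (Fin m ⊕ Fin m) F).degreeOf
        (Sum.inl l) ≤ 1 := by
      classical
      rw [MvPolynomial.degreeOf_X]; split_ifs <;> simp
    have h2 : (∏ i' ∈ Finset.univ.erase i, ((MvPolynomial.X (Sum.inr l') :
        MvPolynomial (Fin m ⊕ Fin m) F) - MvPolynomial.C (a i'))).degreeOf (Sum.inl l) ≤ 0 := by
      refine (MvPolynomial.degreeOf_prod_le _ _ _).trans (le_of_eq (Finset.sum_eq_zero ?_))
      intro i' _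
      have := MvPolynomial.degreeOf_sub_le (Sum.inl l) (MvPolynomial.X (Sum.inr l') :
        MvPolynomial (Fin m ⊕ Fin m) F) (MvPolynomial.C (a i'))
      rw [MvPolynomial.degreeOf_C, MvPolynomial.degreeOf_X_of_ne (by simp)] at this
      simpa using this
    omega

theorem degreeOf_gen_inr (a : Fin n → F) (m : ℕ) (l : Fin m) (f : MvPolynomial (Fin n) F) :
    (gen a m f).degreeOf (Sum.inr l) ≤ n * f.totalDegree := by
  refine degreeOf_aeval_le _ (Sum.inr l) n ?_ f
  intro i
  refine (MvPolynomial.degreeOf_sum_le _ _ _).trans (Finset.sup_le fun l' _ => ?_)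
  refine (MvPolynomial.degreeOf_mul_le _ _ _).trans ?_
  have h1 : (MvPolynomial.X (Sum.inl l') : MvPolynomial (Fin m ⊕ Fin m) F).degreeOf
      (Sum.inr l) = 0 := MvPolynomial.degreeOf_X_of_ne (by simp)
  rw [h1, zero_add]
  refine (MvPolynomial.degreeOf_prod_le _ _ _).trans ?_
  calc ∑ i' ∈ Finset.univ.erase i, ((MvPolynomial.X (Sum.inr l') :
        MvPolynomial (Fin m ⊕ Fin m) F) - MvPolynomial.C (a i')).degreeOf (Sum.inr l)
      ≤ ∑ i' ∈ Finset.univ.erase i, 1 := by
        apply Finset.sum_le_sum
        intro i' _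
        refine (MvPolynomial.degreeOf_sub_le _ _ _).trans ?_
        classical
        rw [MvPolynomial.degreeOf_C, MvPolynomial.degreeOf_X]
        split_ifs <;> simp
    _ ≤ n := by
        rw [Finset.sum_const, smul_eq_mul, mul_one]
        refine (Finset.card_le_univ _).trans ?_
        simp

end degree

/-- A point of the generator with integer seeds. -/
def hitPoint (n m : ℕ) (y z : Fin m → ℕ) : Fin n → ℤ :=
  fun i => ∑ l : Fin m, (y l : ℤ) * ∏ k ∈ Finset.univ.erase i, ((z l : ℤ) - (k.val : ℤ))

/-- The explicit set of points: `y` ranges over `{0,…,D}^m` and `z` over `{0,…,nD}^m`. -/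
def hitSet (n m D : ℕ) : Finset (Fin n → ℤ) :=
  ((Fintype.piFinset fun _ : Fin m => Finset.range (D + 1)) ×ˢ
    (Fintype.piFinset fun _ : Fin m => Finset.range (n * D + 1))).image
    fun yz => hitPoint n m yz.1 yz.2

theorem hitSet_card (n m D : ℕ) : (hitSet n m D).card ≤ ((D + 1) * (n * D + 1)) ^ m := by
  unfold hitSet
  refine Finset.card_image_le.trans ?_
  rw [Finset.card_product, Fintype.card_piFinset, Fintype.card_piFinset]
  simp [mul_pow]

theorem hitSet_bound (n m D : ℕ) (p : Fin n → ℤ) (hp : p ∈ hitSet n m D) (i : Fin n) :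
    |p i| ≤ (m * D * (n * D + n) ^ (n - 1) : ℕ) := by
  unfold hitSet at hp
  rw [Finset.mem_image] at hp
  obtain ⟨⟨y, z⟩, hyz, rfl⟩ := hp
  rw [Finset.mem_product, Fintype.mem_piFinset, Fintype.mem_piFinset] at hyz
  obtain ⟨hy, hz⟩ := hyz
  simp only [Finset.mem_range] at hy hz
  unfold hitPoint
  calc |∑ l : Fin m, (y l : ℤ) * ∏ k ∈ Finset.univ.erase i, ((z l : ℤ) - (k.val : ℤ))|
      ≤ ∑ l : Fin m, |(y l : ℤ) * ∏ k ∈ Finset.univ.erase i, ((z l : ℤ) - (k.val : ℤ))| :=
        Finset.abs_sum_le_sum_abs _ _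
    _ ≤ ∑ l : Fin m, ((D : ℤ) * ((n * D + n : ℕ) : ℤ) ^ (n - 1)) := by
        apply Finset.sum_le_sum
        intro l _
        rw [abs_mul]
        apply mul_le_mul
        · rw [abs_of_nonneg (by positivity)]
          have := hy l
          exact_mod_cast Nat.lt_succ_iff.1 this
        · rw [Finset.abs_prod]
          calc ∏ k ∈ Finset.univ.erase i, |(z l : ℤ) - (k.val : ℤ)|
              ≤ ∏ k ∈ Finset.univ.erase i, ((n * D + n : ℕ) : ℤ) := by
                apply Finset.prod_le_prod
                · intro k _; exact abs_nonneg _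
                · intro k _
                  have h1 := hz l
                  have h2 := k.isLt
                  rw [abs_le]
                  constructor <;> push_cast <;> nlinarith [Nat.zero_le (n * D)]
            _ = ((n * D + n : ℕ) : ℤ) ^ (n - 1) := by
                rw [Finset.prod_const, Finset.card_erase_of_mem (Finset.mem_univ _)]
                simp
        · positivity
        · positivity
    _ = (m * D * (n * D + n) ^ (n - 1) : ℕ) := by
        rw [Finset.sum_const]
        simp
        ring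

theorem nodes_injective (n : ℕ) : Function.Injective (fun i : Fin n => ((i.val : ℕ) : ℂ)) := by
  intro i j h
  have h' : ((i.val : ℕ) : ℂ) = ((j.val : ℕ) : ℂ) := h
  exact Fin.ext (by exact_mod_cast h')

/-- Polynomials not killed by the generator are hit by the explicit set. -/
theorem exists_hit (n m D : ℕ) (f : MvPolynomial (Fin n) ℂ) (hD : f.totalDegree ≤ D)
    (hf : f ∉ genI (fun i : Fin n => ((i.val : ℕ) : ℂ)) m) :
    ∃ p ∈ hitSet n m D, MvPolynomial.eval (fun i => (p i : ℂ)) f ≠ 0 := by
  classical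
  by_contra hcon
  push Not at hcon
  apply hf
  show gen (fun i : Fin n => ((i.val : ℕ) : ℂ)) m f = 0
  apply MvPolynomial.eq_zero_of_eval_zero_at_prod_finset _
    (Sum.elim (fun _ : Fin m => (Finset.range (D + 1)).image (fun k : ℕ => (k : ℂ)))
      (fun _ : Fin m => (Finset.range (n * D + 1)).image (fun k : ℕ => (k : ℂ))))
  · rintro (l | l)
    · rw [Sum.elim_inl, Finset.card_image_of_injective _ Nat.cast_injective, Finset.card_range]
      exact Nat.lt_succ_of_le ((degreeOf_gen_inl _ m l f).trans hD)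
    · rw [Sum.elim_inr, Finset.card_image_of_injective _ Nat.cast_injective, Finset.card_range]
      exact Nat.lt_succ_of_le ((degreeOf_gen_inr _ m l f).trans (Nat.mul_le_mul_left _ hD))
  · intro x hx
    have hy : ∀ l : Fin m, ∃ k ∈ Finset.range (D + 1), ((k : ℕ) : ℂ) = x (Sum.inl l) := by
      intro l
      have := hx (Sum.inl l)
      rw [Sum.elim_inl, Finset.mem_image] at this
      exact this
    have hz : ∀ l : Fin m, ∃ k ∈ Finset.range (n * D + 1), ((k : ℕ) : ℂ) = x (Sum.inr l) := by
      intro l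
      have := hx (Sum.inr l)
      rw [Sum.elim_inr, Finset.mem_image] at this
      exact this
    choose y hy1 hy2 using hy
    choose z hz1 hz2 using hz
    have hp : hitPoint n m y z ∈ hitSet n m D := by
      unfold hitSet
      rw [Finset.mem_image]
      refine ⟨(y, z), ?_, rfl⟩
      rw [Finset.mem_product, Fintype.mem_piFinset, Fintype.mem_piFinset]
      exact ⟨hy1, hz1⟩
    have h1 := hcon _ hp
    rw [← h1]
    have h2 : (MvPolynomial.eval x) (gen (fun i : Fin n => ((i.val : ℕ) : ℂ)) m f) =
        MvPolynomial.eval (fun i => MvPolynomial.eval x (∑ l : Fin m, MvPolynomial.X (Sum.inl l) *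
          ∏ i' ∈ Finset.univ.erase i, (MvPolynomial.X (Sum.inr l) -
            MvPolynomial.C (((i'.val : ℕ) : ℂ))))) f := by
      unfold gen
      rw [← MvPolynomial.coe_aeval_eq_eval, ← MvPolynomial.coe_aeval_eq_eval]
      rw [RingHom.coe_coe, RingHom.coe_coe, ← AlgHom.comp_apply, MvPolynomial.comp_aeval]
    rw [h2]
    congr 2
    funext i
    simp only [map_sum, map_mul, map_prod, map_sub, MvPolynomial.eval_X, MvPolynomial.eval_C,
      hitPoint, ← hy2, ← hz2]
    push_cast
    rfl

end Pool.Agent.H530R2
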