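import Mathlib
import Pool.Agent.H530R2.Blk5
import Pool.Agent.H530R2.Hit

/-!
From the good families to the hitting sets.
-/

namespace Pool.Agent.H530R2

open MvPolynomial Module

universe v

section

variable {F : Type v} [Field F] [CharZero F]

theorem Good.toNext (𝔎 : Good F) {n W W' : ℕ} (hW : W ≤ W') (hW' : 1 ≤ W')
    {f : MvPolynomial (Fin n) F} (hf : f ∈ 𝔎.K n W) : f ∈ (𝔎.next).K n W' :=
  Pol.single hW' (Gate.ofK hW' (𝔎.mono hW hf))

theorem Good.gateNext (𝔎 : Good F) {n W : ℕ} (hW : 1 ≤ W) {f : MvPolynomial (Fin n) F}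
    (hf : f ∈ Gate 𝔎 n W) : f ∈ (𝔎.next).K n W :=
  Pol.single hW hf

end

section std

variable {F : Type*} [Field F] [CharZero F] {n : ℕ} (a : Fin n → F)

/-- the system of prime ideals of the generator -/
noncomputable def stdVan (ha : Function.Injective a) : VanM F n :=
  blockVanM a ha 0 X ∅ id
    (fun k _ => by
      rw [id, pderiv_X_self]
      intro h
      have := (RingHom.mem_ker).1 h
      rw [map_one] at this
      exact one_ne_zero this)
    (fun k _ l hl => by
      apply X_mem_supported.2
      exact hl)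

theorem mem_stdVan (ha : Function.Injective a) (m : ℕ) (f : MvPolynomial (Fin n) F) :
    f ∈ (stdVan a ha).I m ∅ ↔ f ∈ genI a m := by
  show f ∈ RingHom.ker (sb (fun k => gen a (0 + m) (X k)) (∅ ∪ ∅)) ↔ _
  rw [Finset.empty_union, RingHom.mem_ker, sb_empty, C_eq_zero, Nat.zero_add]
  have h1 : aeval (fun k => gen a m (X k)) f = gen a m f := by
    have h2 := MvPolynomial.comp_aeval (R := F) (f := (X : Fin n → MvPolynomial (Fin n) F))
      (gen a m)
    have h3 := congrArg (fun ψ => ψ f) h2
    simpa using h3.symm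
  rw [h1]
  exact (RingHom.mem_ker).symm

end std

end Pool.Agent.H530R2
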