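import Mathlib
import Pool.Agent.H530R2.Nst10
import Pool.Agent.H530R2.DecLin

/-!
Polynomials with monomials in few variables, sparse polynomials, and the programs.
-/

namespace Pool.Agent.H530R2

open MvPolynomial

section leaves

variable {F : Type*} [Field F] {n : ℕ} {a : Fin n → F}

theorem coeff_cut (T : Finset (Fin n)) (f : MvPolynomial (Fin n) F) (s : Fin n →₀ ℕ) :
    coeff s (cut F T f) = if s.support ⊆ T then coeff s f else 0 := by
  classical
  induction f using MvPolynomial.induction_on' with
  | monomial t c =>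
    by_cases ht : t.support ⊆ T
    · have h1 : cut F T (monomial t c) = monomial t c := by
        apply cut_eq_self
        rw [mem_supported]
        by_cases hc : c = 0
        · rw [hc, monomial_zero, vars_0]; simp
        · rw [vars_monomial hc]; exact_mod_cast ht
      rw [h1, coeff_monomial]
      split_ifs with h2 h3 h3
      · rfl
      · subst h2; exact absurd ht h3
      · rfl
      · rfl
    · obtain ⟨i, hi, hiT⟩ := Finset.not_subset.1 ht
      have h1 : cut F T (monomial t c) = 0 := by
        rw [cut, aeval_monomial, Finsupp.prod, Finset.prod_eq_zero hi, mul_zero]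
        rw [if_neg hiT, zero_pow]
        exact Finsupp.mem_support_iff.1 hi
      rw [h1, coeff_zero, coeff_monomial]
      split_ifs with h2 h3
      · subst h3; exact absurd h2 ht
      · rfl
      · rfl
  | add p q hp hq =>
    rw [map_add, coeff_add, hp, hq, coeff_add]
    split_ifs
    · rfl
    · rw [add_zero]

theorem hyb_zero_cut (T : Finset (Fin n)) (f : MvPolynomial (Fin n) F) :
    hyb a 0 T f = map C (cut F T f) := by
  induction f using MvPolynomial.induction_on with
  | C r => rw [hyb_C, show cut F T (C r) = C r from (cut F T).commutes r, map_C]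
  | add p q hp hq => rw [map_add, map_add, map_add, hp, hq]
  | mul_X p i hp =>
    rw [map_mul, map_mul, map_mul, hp]
    congr 1
    by_cases hi : i ∈ T
    · rw [hyb_X_mem a _ hi, cut, aeval_X, if_pos hi, map_X]
    · rw [hyb_X_not_mem a _ hi, cut, aeval_X, if_neg hi, map_zero, gen, aeval_X]
      simp

/-- A polynomial with a monomial in at most `m` variables is not killed by the generator with
`m` seeds. -/
theorem not_mem_of_low (ha : Function.Injective a) {m : ℕ} {f : MvPolynomial (Fin n) F}
    {s : Fin n →₀ ℕ} (hs : s ∈ f.support) (hsm : s.support.card ≤ m) : f ∉ genI a m := by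
  classical
  intro hf
  have h1 : gen a (0 + s.support.card) f = 0 := genI_le a (by omega) hf
  have h2 := hyb_of_gen a ha 0 s.support f h1
  rw [hyb_zero_cut] at h2
  have h3 : cut F s.support f = 0 := map_injective _ (C_injective _ _) (by rw [h2, map_zero])
  have h4 := coeff_cut s.support f s
  rw [h3, coeff_zero, if_pos subset_rfl] at h4
  exact (mem_support_iff.1 hs) h4.symm

/-- polynomials all of whose monomials involve at most `m` variables -/
theorem Hit.low (ha : Function.Injective a) {m : ℕ} {T : Finset (Fin n)}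
    {f : MvPolynomial (Fin n) F} (hf : ∀ s ∈ f.support, s.support.card ≤ m) : Hit a m T f := by
  classical
  intro h
  by_contra hne
  have h0 : f - cut F T f ≠ 0 := sub_ne_zero.2 hne
  obtain ⟨s, hs⟩ := support_nonempty.2 h0
  refine not_mem_of_low ha hs ?_ h
  apply hf
  rw [mem_support_iff, coeff_sub, coeff_cut] at hs
  rw [mem_support_iff]
  split_ifs at hs with h1
  · rw [sub_self] at hs
    exact absurd rfl hs
  · rw [sub_zero] at hs
    exact hs

theorem hyb_monomial (j : ℕ) (Z : Finset (Fin n)) (s : Fin n →₀ ℕ) (c : F) :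
    hyb a j Z (monomial s c) = monomial (s.filter (· ∈ Z))
      (C c * (s.filter (· ∉ Z)).prod fun i k => gen a j (X i) ^ k) := by
  classical
  rw [hyb, aeval_monomial, ← Finsupp.prod_filter_mul_prod_filter_not (· ∈ Z)]
  have h1 : ((s.filter (· ∈ Z)).prod fun i k =>
      (if i ∈ Z then (X i : MvPolynomial (Fin n) (MvPolynomial (Fin j ⊕ Fin j) F))
        else C (gen a j (X i))) ^ k) = monomial (s.filter (· ∈ Z)) 1 := by
    rw [monomial_eq, map_one, one_mul]
    apply Finsupp.prod_congr
    intro i hi
    rw [Finsupp.support_filter, Finset.mem_filter] at hi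
    rw [if_pos hi.2]
  have h2 : ((s.filter (¬ · ∈ Z)).prod fun i k =>
      (if i ∈ Z then (X i : MvPolynomial (Fin n) (MvPolynomial (Fin j ⊕ Fin j) F))
        else C (gen a j (X i))) ^ k) =
      C ((s.filter (· ∉ Z)).prod fun i k => gen a j (X i) ^ k) := by
    rw [Finsupp.prod, Finsupp.prod, map_prod]
    apply Finset.prod_congr rfl
    intro i hi
    rw [Finsupp.support_filter, Finset.mem_filter] at hi
    rw [if_neg hi.2, map_pow]
  rw [h1, h2]
  have h3 : (algebraMap F (MvPolynomial (Fin n) (MvPolynomial (Fin j ⊕ Fin j) F))) c =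
      C (C c) := rfl
  rw [h3, mul_comm (monomial _ _), ← mul_assoc, ← map_mul, C_mul_monomial, mul_one]

/-- the part of `Q` of degree `e` in the variable `i`, divided by `X i ^ e` -/
noncomputable def xpart (Q : MvPolynomial (Fin n) F) (i : Fin n) (e : ℕ) :
    MvPolynomial (Fin n) F :=
  ∑ s ∈ Q.support.filter (fun s => s i = e), monomial (s.erase i) (coeff s Q)

theorem gen_X_ne_zero (ha : Function.Injective a) {j : ℕ} (hj : 1 ≤ j) (i : Fin n) :
    gen a j (X i) ≠ 0 := by
  intro h
  refine not_mem_of_low (m := 1) ha (f := X i) (s := Finsupp.single i 1) ?_ ?_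
    (genI_le a hj h)
  · rw [mem_support_iff, coeff_X]
    simp
  · refine (Finset.card_le_card Finsupp.support_single_subset).trans ?_
    simp

theorem const_case (ha : Function.Injective a) {j : ℕ} (hj : 1 ≤ j) (Z : Finset (Fin n))
    (Q : MvPolynomial (Fin n) F)
    (hQ : ∀ i, i ∉ Z → ∀ s1 ∈ Q.support, ∀ s2 ∈ Q.support, s1 i = s2 i)
    (h : hyb a j Z Q = 0) : Q = 0 := by
  classical
  by_contra hne
  obtain ⟨s0, hs0⟩ := support_nonempty.2 hne
  have h1 := congrArg (coeff (s0.filter (· ∈ Z))) h
  rw [← support_sum_monomial_coeff Q, map_sum, coeff_sum, coeff_zero] at h1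
  rw [Finset.sum_eq_single s0] at h1
  · rw [hyb_monomial, coeff_monomial, if_pos rfl, mul_eq_zero] at h1
    rcases h1 with h1 | h1
    · exact (mem_support_iff.1 hs0) (C_eq_zero.1 h1)
    · rw [Finsupp.prod, Finset.prod_eq_zero_iff] at h1
      obtain ⟨i, _, hi⟩ := h1
      exact absurd hi (pow_ne_zero _ (gen_X_ne_zero ha hj i))
  · intro s hs hne'
    rw [hyb_monomial, coeff_monomial, if_neg]
    intro heq
    apply hne'
    ext i
    by_cases hi : i ∈ Z
    · have := DFunLike.congr_fun heq i
      rwa [Finsupp.filter_apply_pos _ _ hi, Finsupp.filter_apply_pos _ _ hi] at this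
    · exact hQ i hi s hs s0 hs0
  · intro h2; exact absurd hs0 h2

theorem xpart_sum (Q : MvPolynomial (Fin n) F) (i : Fin n) (D : ℕ)
    (hD : ∀ s ∈ Q.support, s i < D) :
    Q = ∑ e ∈ Finset.range D, xpart Q i e * X i ^ e := by
  classical
  conv_lhs => rw [← support_sum_monomial_coeff Q]
  rw [← Finset.sum_fiberwise_of_maps_to (s := Q.support) (t := Finset.range D) (g := fun s => s i)
    (fun s hs => Finset.mem_range.2 (hD s hs))]
  apply Finset.sum_congr rfl
  intro e _
  rw [xpart, Finset.sum_mul]
  apply Finset.sum_congr rfl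
  intro s hs
  have h1 : s i = e := (Finset.mem_filter.1 hs).2
  rw [X_pow_eq_monomial, monomial_mul, mul_one, ← h1, Finsupp.erase_add_single]

theorem xpart_mem (Q : MvPolynomial (Fin n) F) (i : Fin n) (e : ℕ) :
    xpart Q i e ∈ supported F {k : Fin n | k ≠ i} := by
  classical
  refine sum_mem fun s _ => ?_
  rw [mem_supported]
  by_cases hc : coeff s Q = 0
  · rw [hc, monomial_zero, vars_0]; simp
  · rw [vars_monomial hc, Finsupp.support_erase]
    intro k hk
    rw [Finset.mem_coe, Finset.mem_erase] at hk
    exact hk.1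

theorem xpart_support (Q : MvPolynomial (Fin n) F) (i : Fin n) (e : ℕ) :
    (xpart Q i e).support.card ≤ (Q.support.filter (fun s => s i = e)).card := by
  classical
  refine (Finset.card_le_card (support_sum)).trans ?_
  refine Finset.card_biUnion_le.trans ?_
  rw [Finset.card_eq_sum_ones]
  apply Finset.sum_le_sum
  intro s _
  exact (Finset.card_le_card support_monomial_subset).trans (by simp)

theorem xpart_ne_zero (Q : MvPolynomial (Fin n) F) (i : Fin n) {s : Fin n →₀ ℕ}
    (hs : s ∈ Q.support) : xpart Q i (s i) ≠ 0 := by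
  classical
  intro h
  have h1 := congrArg (coeff (s.erase i)) h
  rw [xpart, coeff_sum, coeff_zero, Finset.sum_eq_single s] at h1
  · rw [coeff_monomial, if_pos rfl] at h1
    exact (mem_support_iff.1 hs) h1
  · intro s' hs' hne
    rw [coeff_monomial, if_neg]
    intro heq
    apply hne
    have h2 : s' i = s i := (Finset.mem_filter.1 hs').2
    ext k
    by_cases hk : k = i
    · rw [hk, h2]
    · have := DFunLike.congr_fun heq k
      rwa [Finsupp.erase_ne hk, Finsupp.erase_ne hk] at this
  · intro h2
    exact (h2 (Finset.mem_filter.2 ⟨hs, rfl⟩)).elim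

theorem sparse_zero (ha : Function.Injective a) (k : ℕ) : ∀ (Z : Finset (Fin n))
    (Q : MvPolynomial (Fin n) F), Q.support.card ≤ 2 ^ k → hyb a (k + 1) Z Q = 0 → Q = 0 := by
  classical
  induction k with
  | zero =>
    intro Z Q hQ h
    apply const_case ha le_rfl Z Q ?_ h
    intro i _ s1 h1 s2 h2
    rw [pow_zero] at hQ
    rw [Finset.card_le_one.1 hQ s1 h1 s2 h2]
  | succ k ih =>
    intro Z Q hQ h
    by_cases hc : ∀ i, i ∉ Z → ∀ s1 ∈ Q.support, ∀ s2 ∈ Q.support, s1 i = s2 i
    · exact const_case ha (by omega) Z Q hc h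
    · push Not at hc
      obtain ⟨i, hi, s1, h1, s2, h2, hne⟩ := hc
      exfalso
      have h3 := hyb_free a ha (k + 1) Z i h
      obtain ⟨D, hD⟩ : ∃ D, ∀ s ∈ Q.support, s i < D :=
        ⟨Q.support.sup (fun s => s i) + 1, fun s hs =>
          Nat.lt_succ_of_le (Finset.le_sup (f := fun s : Fin n →₀ ℕ => s i) hs)⟩
      rw [xpart_sum Q i D hD] at h3
      have h4 := fun e he => hyb_coeff a (k + 1) (Finset.mem_insert_self i Z) D
        (fun e => xpart Q i e) (fun e => xpart_mem Q i e) h3 e he
      have h5 : (Q.support.filter (fun s => s i = s1 i)).card +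
          (Q.support.filter (fun s => s i = s2 i)).card ≤ Q.support.card := by
        rw [← Finset.card_union_of_disjoint]
        · apply Finset.card_le_card
          exact Finset.union_subset (Finset.filter_subset _ _) (Finset.filter_subset _ _)
        · rw [Finset.disjoint_filter]
          intro s _ h6 h7
          exact hne (h6.symm.trans h7)
      have h6 : (Q.support.filter (fun s => s i = s1 i)).card ≤ 2 ^ k ∨
          (Q.support.filter (fun s => s i = s2 i)).card ≤ 2 ^ k := by
        rw [pow_succ] at hQ
        omega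
      rcases h6 with h6 | h6
      · exact xpart_ne_zero Q i h1 (ih _ _ ((xpart_support Q i _).trans h6)
          (h4 _ (hD s1 h1)))
      · exact xpart_ne_zero Q i h2 (ih _ _ ((xpart_support Q i _).trans h6)
          (h4 _ (hD s2 h2)))

/-- sparse polynomials -/
theorem Hit.sparse (ha : Function.Injective a) {m k : ℕ} (hk : k + 1 ≤ m) {T : Finset (Fin n)}
    {f : MvPolynomial (Fin n) F} (hf : f.support.card ≤ 2 ^ k) : Hit a m T f := by
  classical
  intro h
  have h1 : (f - cut F T f).support ⊆ f.support := by
    intro s hs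
    rw [mem_support_iff, coeff_sub, coeff_cut] at hs
    rw [mem_support_iff]
    split_ifs at hs with h1
    · rw [sub_self] at hs
      exact absurd rfl hs
    · rw [sub_zero] at hs
      exact hs
  have h2 := sparse_zero ha k ∅ (f - cut F T f) ((Finset.card_le_card h1).trans hf) (by
    rw [hyb_empty, show gen a (k + 1) (f - cut F T f) = 0 from genI_le a hk h, map_zero])
  exact sub_eq_zero.1 h2

end leaves

end Pool.Agent.H530R2
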