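import Mathlib
import Pool.Agent.H530R2.Blk1

/-!
Families of classes of polynomials, and programs reading members of them.
-/

namespace Pool.Agent.H530R2

open MvPolynomial Module

universe v

/-- families of classes of polynomials which are closed under bounded combinations and
derivatives and do not meet the ideals of the admissible systems -/
structure Fam (F : Type v) [Field F] where
  /-- admissible systems of ideals -/
  Ok : ∀ _σ n : ℕ, Set (VanM F n)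
  /-- the classes -/
  K : ∀ _σ n : ℕ, ℕ → Set (MvPolynomial (Fin n) F)
  mono : ∀ {σ n W W' : ℕ}, W ≤ W' → K σ n W ⊆ K σ n W'
  /-- the parameter of combinations -/
  comb : ℕ → ℕ → ℕ
  comb_mem : ∀ {σ n W k : ℕ} {ι : Type} [Fintype ι] {g : ι → MvPolynomial (Fin n) F}
    {f : MvPolynomial (Fin n) F}, Fintype.card ι ≤ k → (∀ i, g i ∈ K σ n W) →
    f ∈ Algebra.adjoin F (Set.range g) → f ∈ K σ n (comb k W)
  /-- the parameter of derivatives -/
  der : ℕ → ℕ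
  der_mem : ∀ {σ n W : ℕ} (k : Fin n) {f : MvPolynomial (Fin n) F}, f ∈ K σ n W →
    MvPolynomial.pderiv k f ∈ K σ n (der W)
  seeds : ∀ W : ℕ, ∃ m : ℕ, ∀ σ n : ℕ, ∀ V ∈ Ok σ n, ∀ f ∈ K σ n W,
    ∀ Y : Finset (Fin n), f ∈ V.I m Y → f = 0

section rep

variable {F : Type v} [Field F] (𝔎 : Fam F) {σ n : ℕ}

theorem Fam.const_mem {W : ℕ} (hW : 𝔎.comb 0 0 ≤ W) (y : F) :
    (C y : MvPolynomial (Fin n) F) ∈ 𝔎.K σ n W :=
  𝔎.mono hW (𝔎.comb_mem (ι := Empty) (g := Empty.elim) (by simp) (fun i => i.elim)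
    (Subalgebra.algebraMap_mem _ y))

/-- lower bound for the parameters -/
def Fam.c0 : ℕ := 𝔎.comb 0 0 + 1

theorem Fam.c0_pos : 1 ≤ 𝔎.c0 := Nat.succ_pos _

theorem Fam.const {W : ℕ} (hW : 𝔎.c0 ≤ W) (y : F) : (C y : MvPolynomial (Fin n) F) ∈ 𝔎.K σ n W :=
  𝔎.const_mem (by unfold Fam.c0 at hW; omega) y

theorem Fam.zero {W : ℕ} (hW : 𝔎.c0 ≤ W) : (0 : MvPolynomial (Fin n) F) ∈ 𝔎.K σ n W := by
  have := 𝔎.const (σ := σ) (n := n) hW 0
  rwa [C_0] at this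

/-- growth of the parameter for products -/
def Fam.mg (W W' : ℕ) : ℕ := 𝔎.comb 2 (W + W') + W * W' + 𝔎.c0

theorem Fam.mul {W W' : ℕ} {f g : MvPolynomial (Fin n) F} (hf : f ∈ 𝔎.K σ n W)
    (hg : g ∈ 𝔎.K σ n W') : f * g ∈ 𝔎.K σ n (𝔎.mg W W') := by
  have h1 : f * g ∈ 𝔎.K σ n (𝔎.comb 2 (W + W')) := by
    refine 𝔎.comb_mem (ι := Bool) (g := fun b => if b then f else g) (by simp) ?_ ?_
    · intro b
      cases b
      · simpa using 𝔎.mono (Nat.le_add_left _ _) hg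
      · simpa using 𝔎.mono (Nat.le_add_right _ _) hf
    · exact Subalgebra.mul_mem _ (Algebra.subset_adjoin ⟨true, rfl⟩)
        (Algebra.subset_adjoin ⟨false, rfl⟩)
  exact 𝔎.mono (by unfold Fam.mg; omega) h1

/-- representations with coefficients in a subalgebra -/
def RepK (σ : ℕ) (𝔸 : Subalgebra F (MvPolynomial (Fin n) F)) (W : ℕ) (f : MvPolynomial (Fin n) F) :
    Prop := SP (𝔸 : Set (MvPolynomial (Fin n) F)) (𝔎.K σ n W) W f

variable {𝔎} {𝔸 : Subalgebra F (MvPolynomial (Fin n) F)}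
  {W W' : ℕ} {f g : MvPolynomial (Fin n) F}

theorem RepK.mono (h : RepK 𝔎 σ 𝔸 W f) (hW : W ≤ W') : RepK 𝔎 σ 𝔸 W' f :=
  SP.mono h hW le_rfl (𝔎.mono hW)

theorem RepK.smul (hf : RepK 𝔎 σ 𝔸 W f) {c : MvPolynomial (Fin n) F} (hc : c ∈ 𝔸) :
    RepK 𝔎 σ 𝔸 W (c * f) :=
  SP.smul hf c fun _ ha => 𝔸.mul_mem hc ha

theorem RepK.mul (hf : RepK 𝔎 σ 𝔸 W f) (hg : RepK 𝔎 σ 𝔸 W' g) :
    RepK 𝔎 σ 𝔸 (𝔎.mg W W') (f * g) :=
  SP.mono (SP.mul hf hg (fun _ ha _ hb => 𝔸.mul_mem ha hb)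
    (ℬ'' := 𝔎.K σ n (𝔎.mg W W')) (fun _ ha _ hb => 𝔎.mul ha hb))
    (by unfold Fam.mg; omega) le_rfl le_rfl

theorem RepK.ofMem (hW : 1 ≤ W) (hf : f ∈ 𝔎.K σ n W) : RepK 𝔎 σ 𝔸 W f := by
  have := SP.one_term (𝒜 := (𝔸 : Set (MvPolynomial (Fin n) F))) (ℬ := 𝔎.K σ n W) (a := 1)
    𝔸.one_mem hf hW
  rwa [one_mul] at this

theorem RepK.one (hW : 𝔎.c0 ≤ W) : RepK 𝔎 σ 𝔸 W 1 := by
  have := RepK.ofMem (𝔸 := 𝔸) (𝔎.c0_pos.trans hW) (𝔎.const (σ := σ) (n := n) hW (1 : F))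
  rwa [map_one] at this

theorem RepK.ofRing (hW : 𝔎.c0 ≤ W) (hf : f ∈ 𝔸) : RepK 𝔎 σ 𝔸 W f := by
  have := (RepK.one (σ := σ) (𝔸 := 𝔸) hW).smul hf
  rwa [mul_one] at this

theorem RepK.sum {κ : Type*} (s : Finset κ) (f : κ → MvPolynomial (Fin n) F)
    (h : ∀ k ∈ s, RepK 𝔎 σ 𝔸 W (f k)) (hs : s.card ≤ W') :
    RepK 𝔎 σ 𝔸 (W' * W) (∑ k ∈ s, f k) := by
  rcases Nat.eq_zero_or_pos W' with h0 | h0
  · have : s = ∅ := Finset.card_eq_zero.1 (by omega)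
    subst this
    rw [Finset.sum_empty]
    exact SP.zero
  · have h1 := SP.sum (𝒜 := (𝔸 : Set (MvPolynomial (Fin n) F))) (ℬ := 𝔎.K σ n W) s f h
    exact h1.mono (Nat.mul_le_mul_right _ hs) le_rfl (𝔎.mono (Nat.le_mul_of_pos_left _ h0))

/-- the parameter of a product -/
def Fam.pg (𝔎 : Fam F) (W : ℕ) : ℕ → ℕ
  | 0 => 𝔎.c0
  | k + 1 => W + Fam.pg 𝔎 W k + 𝔎.mg W (Fam.pg 𝔎 W k)

theorem Fam.c0_le_pg (W k : ℕ) : 𝔎.c0 ≤ 𝔎.pg W k := by
  cases k with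
  | zero => exact le_rfl
  | succ k => simp only [Fam.pg]; unfold Fam.mg; omega

theorem Fam.pg_mono (W : ℕ) {k k' : ℕ} (h : k ≤ k') : 𝔎.pg W k ≤ 𝔎.pg W k' := by
  induction k', h using Nat.le_induction with
  | base => exact le_rfl
  | succ b _ ih => simp only [Fam.pg]; omega

theorem RepK.prod {κ : Type*} (s : Finset κ) (f : κ → MvPolynomial (Fin n) F)
    (h : ∀ k ∈ s, RepK 𝔎 σ 𝔸 W (f k)) : RepK 𝔎 σ 𝔸 (𝔎.pg W s.card) (∏ k ∈ s, f k) := by
  classical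
  induction s using Finset.induction_on with
  | empty => rw [Finset.prod_empty, Finset.card_empty]; exact RepK.one le_rfl
  | insert k s hk ih =>
    rw [Finset.prod_insert hk, Finset.card_insert_of_notMem hk]
    exact ((h k (Finset.mem_insert_self _ _)).mul
      (ih fun k' hk' => h k' (Finset.mem_insert_of_mem hk'))).mono
        (by simp only [Fam.pg]; omega)

/-- representation of a determinant -/
theorem RepK.det {ρ Q : ℕ} (hρ : ρ ≤ Q)
    {M : Matrix (Fin ρ) (Fin ρ) (MvPolynomial (Fin n) F)} (h : ∀ i j, RepK 𝔎 σ 𝔸 W (M i j)) :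
    RepK 𝔎 σ 𝔸 (Q.factorial * 𝔎.pg W Q) M.det := by
  classical
  rw [Matrix.det_apply']
  refine RepK.sum _ _ ?_ ?_
  · intro τ _
    refine RepK.smul ?_ (𝔸.intCast_mem _)
    refine (RepK.prod _ _ fun i _ => h _ _).mono ?_
    rw [Finset.card_univ, Fintype.card_fin]
    exact 𝔎.pg_mono W hρ
  · rw [Finset.card_univ, Fintype.card_perm, Fintype.card_fin]
    exact Nat.factorial_le hρ

/-- products of members of a subalgebra -/
theorem prod_adj {τ : Type} {h : τ → MvPolynomial (Fin n) F}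
    (k : Fin n) (h1 : ∀ j, h j ∈ 𝔸) (h2 : ∀ j, pderiv k (h j) ∈ 𝔸) (S : Finset τ) :
    pderiv k (∏ j ∈ S, h j) ∈ 𝔸 := by
  classical
  have key : ∏ j ∈ S, h j ∈ 𝔸 ∧ pderiv k (∏ j ∈ S, h j) ∈ 𝔸 := by
    induction S using Finset.induction_on with
    | empty =>
      rw [Finset.prod_empty, Derivation.map_one_eq_zero]
      exact ⟨Subalgebra.one_mem _, Subalgebra.zero_mem _⟩
    | insert j S hj ihS =>
      rw [Finset.prod_insert hj]
      refine ⟨Subalgebra.mul_mem _ (h1 j) ihS.1, ?_⟩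
      rw [pderiv_mul]
      exact Subalgebra.add_mem _ (Subalgebra.mul_mem _ (h2 j) ihS.1)
        (Subalgebra.mul_mem _ (h1 j) ihS.2)
  exact key.2

end rep

section cnt

variable {n : ℕ}

/-- the number of steps before `t` reading the variable `i` -/
def cnt (B : ℕ → Finset (Fin n)) (t : ℕ) (i : Fin n) : ℕ :=
  ((Finset.range t).filter fun t' => i ∈ B t').card

theorem cnt_zero (B : ℕ → Finset (Fin n)) (i : Fin n) : cnt B 0 i = 0 := by
  simp [cnt]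

theorem cnt_mono (B : ℕ → Finset (Fin n)) {t t' : ℕ} (h : t ≤ t') (i : Fin n) :
    cnt B t i ≤ cnt B t' i := by
  unfold cnt
  apply Finset.card_le_card
  apply Finset.filter_subset_filter
  exact Finset.range_mono h

theorem cnt_succ_of_mem {B : ℕ → Finset (Fin n)} {t : ℕ} {i : Fin n} (h : i ∈ B t) :
    cnt B (t + 1) i = cnt B t i + 1 := by
  unfold cnt
  rw [Finset.range_add_one, Finset.filter_insert, if_pos h, Finset.card_insert_of_notMem]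
  simp

theorem cnt_succ_le (B : ℕ → Finset (Fin n)) (t : ℕ) (i : Fin n) :
    cnt B (t + 1) i ≤ cnt B t i + 1 := by
  unfold cnt
  rw [Finset.range_add_one, Finset.filter_insert]
  split_ifs
  · exact Finset.card_insert_le _ _
  · omega

/-- the variables outside `Y` read more than `k` times before `t` -/
def ZK (B : ℕ → Finset (Fin n)) (Y : Finset (Fin n)) (k t : ℕ) : Finset (Fin n) :=
  Finset.univ.filter fun i => i ∉ Y ∧ k < cnt B t i

theorem mem_ZK {B : ℕ → Finset (Fin n)} {Y : Finset (Fin n)} {k t : ℕ} {i : Fin n} :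
    i ∈ ZK B Y k t ↔ i ∉ Y ∧ k < cnt B t i := by simp [ZK]

theorem ZK_mono {B : ℕ → Finset (Fin n)} {Y : Finset (Fin n)} {k t t' : ℕ} (h : t ≤ t') :
    ZK B Y k t ⊆ ZK B Y k t' := by
  intro i hi
  rw [mem_ZK] at hi ⊢
  exact ⟨hi.1, hi.2.trans_le (cnt_mono B h i)⟩

theorem ZK_zero (B : ℕ → Finset (Fin n)) (Y : Finset (Fin n)) (k : ℕ) : ZK B Y k 0 = ∅ := by
  ext i
  rw [mem_ZK, cnt_zero]
  simp

theorem ZK_not_mem {B : ℕ → Finset (Fin n)} {Y : Finset (Fin n)} {k : ℕ}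
    (hc : ∀ i, i ∉ Y → ∀ t, cnt B t i ≤ k + 1) {c b : ℕ} (hcb : c ≤ b) {i : Fin n}
    (hi : i ∈ ZK B Y k c) : i ∉ B b := by
  intro hib
  rw [mem_ZK] at hi
  have h1 := cnt_succ_of_mem hib
  have h2 := cnt_mono B hcb i
  have h3 := hc i hi.1 (b + 1)
  omega

end cnt

end Pool.Agent.H530R2
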