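import Mathlib
import Pool.Agent.H530R2.Rdk1

/-!
Programs reading every variable a bounded number of times, in any order.
-/

namespace Pool.Agent.H530R2

open MvPolynomial Module

universe v

section reg

variable {F : Type v} [Field F] (𝔎 : Fam F) {σ n : ℕ}

/-- registers `p`, which read at step `t` the polynomials `inp t` in the variables `B t` -/
structure RegK (σ : ℕ) (B : ℕ → Finset (Fin n)) (u : ℕ) {τ κ : Type} (p : ℕ → τ → MvPolynomial (Fin n) F)
    (inp : ℕ → κ → MvPolynomial (Fin n) F) : Prop where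
  init : ∀ i, ∃ y, p 0 i = C y
  imem : ∀ b i, inp b i ∈ 𝔎.K σ n u
  isupp : ∀ b i, inp b i ∈ supported F (B b : Set (Fin n))
  stepm : ∀ b i, p (b + 1) i ∈ Algebra.adjoin F (Set.range (p b) ∪ Set.range (inp b))

variable {𝔎}

/-- padding and reindexing -/
theorem RegK.toFin {B : ℕ → Finset (Fin n)} {u w : ℕ} {τ κ : Type} [Fintype τ] [Fintype κ]
    {p : ℕ → τ → MvPolynomial (Fin n) F} {inp : ℕ → κ → MvPolynomial (Fin n) F}
    (h : RegK 𝔎 σ B u p inp) (hu : u ≤ w) (hτ : Fintype.card τ ≤ w)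
    (hκ : Fintype.card κ ≤ w) (hc : 𝔎.c0 ≤ w) :
    ∃ (p' inp' : ℕ → Fin w → MvPolynomial (Fin n) F), RegK 𝔎 σ B w p' inp' ∧
      ∀ b, Set.range (p b) ⊆ Set.range (p' b) := by
  classical
  obtain ⟨e⟩ : Nonempty (τ ↪ Fin w) := by
    rw [Function.Embedding.nonempty_iff_card_le, Fintype.card_fin]; exact hτ
  obtain ⟨e'⟩ : Nonempty (κ ↪ Fin w) := by
    rw [Function.Embedding.nonempty_iff_card_le, Fintype.card_fin]; exact hκ
  have h0 : ∀ b, (0 : MvPolynomial (Fin n) F) ∈ 𝔎.K σ n w ∧
      (0 : MvPolynomial (Fin n) F) ∈ supported F (B b : Set (Fin n)) :=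
    fun b => ⟨𝔎.zero hc, Subalgebra.zero_mem _⟩
  have hr : ∀ b, Set.range (p b) ⊆ Set.range (Function.extend e (p b) 0) := by
    intro b
    rintro _ ⟨i, rfl⟩
    exact ⟨e i, e.injective.extend_apply _ _ _⟩
  have hr' : ∀ b, Set.range (inp b) ⊆ Set.range (Function.extend e' (inp b) 0) := by
    intro b
    rintro _ ⟨i, rfl⟩
    exact ⟨e' i, e'.injective.extend_apply _ _ _⟩
  refine ⟨fun b => Function.extend e (p b) 0, fun b => Function.extend e' (inp b) 0,
    ⟨?_, ?_, ?_, ?_⟩, hr⟩
  · intro i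
    by_cases hi : ∃ x, e x = i
    · obtain ⟨x, rfl⟩ := hi
      rw [e.injective.extend_apply]
      exact h.init x
    · exact ⟨0, by rw [Function.extend_apply' _ _ _ hi, map_zero]; rfl⟩
  · intro b i
    by_cases hi : ∃ x, e' x = i
    · obtain ⟨x, rfl⟩ := hi
      rw [e'.injective.extend_apply]
      exact 𝔎.mono hu (h.imem b x)
    · rw [Function.extend_apply' _ _ _ hi]
      exact (h0 b).1
  · intro b i
    by_cases hi : ∃ x, e' x = i
    · obtain ⟨x, rfl⟩ := hi
      rw [e'.injective.extend_apply]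
      exact h.isupp b x
    · rw [Function.extend_apply' _ _ _ hi]
      exact (h0 b).2
  · intro b i
    by_cases hi : ∃ x, e x = i
    · obtain ⟨x, rfl⟩ := hi
      rw [e.injective.extend_apply]
      exact Algebra.adjoin_mono (Set.union_subset_union (hr b) (hr' b)) (h.stepm b x)
    · rw [Function.extend_apply' _ _ _ hi]
      exact Subalgebra.zero_mem _

/-- derivatives of the registers -/
theorem RegK.prol {B : ℕ → Finset (Fin n)} {u : ℕ} {τ κ' : Type}
    {p : ℕ → τ → MvPolynomial (Fin n) F} {inp : ℕ → κ' → MvPolynomial (Fin n) F}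
    (h : RegK 𝔎 σ B u p inp) {ρ : ℕ} (κ : Fin ρ → Fin n) :
    RegK 𝔎 σ B (u + 𝔎.der u) (Pool.Agent.H530R2.prol κ p) (Pool.Agent.H530R2.prol κ inp) := by
  refine ⟨?_, ?_, ?_, ?_⟩
  · rintro (i | ⟨q, i⟩)
    · exact h.init i
    · obtain ⟨y, hy⟩ := h.init i
      refine ⟨0, ?_⟩
      show pderiv (κ q) (p 0 i) = C 0
      rw [hy, pderiv_C, map_zero]
  · rintro b (i | ⟨q, i⟩)
    · exact 𝔎.mono (Nat.le_add_right _ _) (h.imem b i)
    · exact 𝔎.mono (Nat.le_add_left _ _) (𝔎.der_mem _ (h.imem b i))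
  · rintro b (i | ⟨q, i⟩)
    · exact h.isupp b i
    · exact pderiv_mem_supported _ (h.isupp b i)
  · intro b
    have hmono : Algebra.adjoin F (Set.range (p b) ∪ Set.range (inp b)) ≤
        Algebra.adjoin F (Set.range (Pool.Agent.H530R2.prol κ p b) ∪
          Set.range (Pool.Agent.H530R2.prol κ inp b)) := by
      apply Algebra.adjoin_mono
      apply Set.union_subset_union
      · rintro _ ⟨i, rfl⟩
        exact ⟨Sum.inl i, rfl⟩
      · rintro _ ⟨i, rfl⟩
        exact ⟨Sum.inl i, rfl⟩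
    rintro (i | ⟨q, i⟩)
    · exact hmono (h.stepm b i)
    · refine pderiv_mem_of_adjoin (κ q) ?_ ?_ (h.stepm b i)
      · intro x hx
        exact hmono (Algebra.subset_adjoin hx)
      · rintro x (⟨i', rfl⟩ | ⟨i', rfl⟩)
        · exact Algebra.subset_adjoin (Or.inl ⟨Sum.inr (q, i'), rfl⟩)
        · exact Algebra.subset_adjoin (Or.inr ⟨Sum.inr (q, i'), rfl⟩)

/-- truncation -/
theorem RegK.trunc {B : ℕ → Finset (Fin n)} {u : ℕ} {τ κ : Type}
    {p : ℕ → τ → MvPolynomial (Fin n) F} {inp : ℕ → κ → MvPolynomial (Fin n) F}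
    (h : RegK 𝔎 σ B u p inp) (hu : 𝔎.c0 ≤ u) (R : ℕ) :
    RegK 𝔎 σ (fun t => if t < R then B t else ∅) u (fun t => p (min t R))
      (fun t => if t < R then inp t else 0) := by
  refine ⟨?_, ?_, ?_, ?_⟩
  · intro i
    rw [Nat.zero_min]
    exact h.init i
  · intro b i
    split_ifs with hb
    · exact h.imem b i
    · exact 𝔎.zero hu
  · intro b i
    by_cases hb : b < R
    · simp only [if_pos hb]
      exact h.isupp b i
    · simp only [if_neg hb]
      exact Subalgebra.zero_mem _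
  · intro b i
    by_cases hb : b < R
    · rw [min_eq_left (show b + 1 ≤ R from hb), min_eq_left hb.le, if_pos hb]
      exact h.stepm b i
    · rw [min_eq_right (show R ≤ b + 1 by omega), min_eq_right (show R ≤ b by omega)]
      exact Algebra.subset_adjoin (Or.inl ⟨i, rfl⟩)

theorem cnt_trunc (B : ℕ → Finset (Fin n)) (R t : ℕ) (i : Fin n) :
    cnt (fun t => if t < R then B t else ∅) t i ≤ cnt B R i := by
  unfold cnt
  apply Finset.card_le_card
  intro t' ht'
  rw [Finset.mem_filter] at ht' ⊢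
  by_cases h : t' < R
  · have h2 := ht'.2
    simp only [if_pos h] at h2
    exact ⟨Finset.mem_range.2 h, h2⟩
  · have h2 := ht'.2
    simp [if_neg h] at h2

/-- the registers contain polynomials in the variables read -/
theorem RegK.supp {B : ℕ → Finset (Fin n)} {u : ℕ} {τ κ : Type}
    {p : ℕ → τ → MvPolynomial (Fin n) F} {inp : ℕ → κ → MvPolynomial (Fin n) F}
    (h : RegK 𝔎 σ B u p inp) {Y : Finset (Fin n)} {R : ℕ} (hY : ∀ i, i ∉ Y → cnt B R i ≤ 0)
    {t : ℕ} (ht : t ≤ R) (i : τ) : p t i ∈ supported F (Y : Set (Fin n)) := by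
  induction t generalizing i with
  | zero =>
    obtain ⟨y, hy⟩ := h.init i
    rw [hy]
    exact Subalgebra.algebraMap_mem _ _
  | succ t ih =>
    refine (Algebra.adjoin_le ?_) (h.stepm t i)
    rintro x (⟨i', rfl⟩ | ⟨i', rfl⟩)
    · exact ih (by omega) i'
    · refine supported_mono ?_ (h.isupp t i')
      intro k hk
      by_contra hkY
      have h1 := hY k (by exact_mod_cast hkY)
      have h2 := cnt_succ_of_mem (Finset.mem_coe.1 hk)
      have h3 := cnt_mono B ht k
      omega

end reg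

section sys

variable {F : Type v} [Field F] {n : ℕ}

/-- A family evolving with inputs; `p` controls the loss of rank. -/
structure SysK (B Z : ℕ → Finset (Fin n)) {ι₀ : Type} (p : ℕ → ι₀ → MvPolynomial (Fin n) F)
    {ι κ : Type} (J : ℕ → ι → MvPolynomial (Fin n) F) (inp : ℕ → κ → MvPolynomial (Fin n) F) :
    Prop where
  isupp : ∀ b i, inp b i ∈ supported F (B b : Set (Fin n))
  stepm : ∀ b i, J (b + 1) i ∈ Algebra.adjoin F (Set.range (J b) ∪ Set.range (inp b))
  etale : ∀ t c b, t ≤ c → c ≤ b → er (Z t) (p c) = er (Z t) (p b) →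
    ∀ γ : Fin n → MvPolynomial (Fin n) F, (∀ k, k ∉ Z t → γ k = 0) →
      (∀ i, ∑ k, γ k * pderiv k (J b i) = 0) → ∀ i, ∑ k, γ k * pderiv k (J c i) = 0

theorem SysK.prol {B Z : ℕ → Finset (Fin n)} {ι₀ : Type} {p : ℕ → ι₀ → MvPolynomial (Fin n) F}
    {ι κ' : Type} {J : ℕ → ι → MvPolynomial (Fin n) F}
    {inp : ℕ → κ' → MvPolynomial (Fin n) F} (h : SysK B Z p J inp) {ρ : ℕ}
    (κ : Fin ρ → Fin n) :
    SysK B Z p (Pool.Agent.H530R2.prol κ J) (Pool.Agent.H530R2.prol κ inp) where
  isupp := by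
    rintro b (i | ⟨q, i⟩)
    · exact h.isupp b i
    · exact pderiv_mem_supported _ (h.isupp b i)
  stepm := by
    intro b
    have hmono : Algebra.adjoin F (Set.range (J b) ∪ Set.range (inp b)) ≤
        Algebra.adjoin F (Set.range (Pool.Agent.H530R2.prol κ J b) ∪
          Set.range (Pool.Agent.H530R2.prol κ inp b)) := by
      apply Algebra.adjoin_mono
      apply Set.union_subset_union
      · rintro _ ⟨i, rfl⟩
        exact ⟨Sum.inl i, rfl⟩
      · rintro _ ⟨i, rfl⟩
        exact ⟨Sum.inl i, rfl⟩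
    rintro (i | ⟨q, i⟩)
    · exact hmono (h.stepm b i)
    · refine pderiv_mem_of_adjoin (κ q) ?_ ?_ (h.stepm b i)
      · intro x hx
        exact hmono (Algebra.subset_adjoin hx)
      · rintro x (⟨i', rfl⟩ | ⟨i', rfl⟩)
        · exact Algebra.subset_adjoin (Or.inl ⟨Sum.inr (q, i'), rfl⟩)
        · exact Algebra.subset_adjoin (Or.inr ⟨Sum.inr (q, i'), rfl⟩)
  etale := by
    intro t c b htc hcb her γ hγ hrel
    have hb1 : ∀ i, ∑ k, γ k * pderiv k (J b i) = 0 := fun i => hrel (Sum.inl i)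
    have hb2 : ∀ q i, ∑ k, γ k * pderiv k (pderiv (κ q) (J b i)) = 0 :=
      fun q i => hrel (Sum.inr (q, i))
    have hc1 := h.etale t c b htc hcb her γ hγ hb1
    have hleib : ∀ (l : Fin n) (P : MvPolynomial (Fin n) F),
        pderiv l (∑ k, γ k * pderiv k P) =
          ∑ k, (pderiv l (γ k)) * pderiv k P + ∑ k, γ k * pderiv k (pderiv l P) := by
      intro l P
      rw [map_sum, ← Finset.sum_add_distrib]
      apply Finset.sum_congr rfl
      intro k _
      rw [pderiv_mul, pderiv_comm' l k]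
    rintro (i | ⟨q, i⟩)
    · exact hc1 i
    · show ∑ k, γ k * pderiv k (pderiv (κ q) (J c i)) = 0
      have h1 : ∀ i, ∑ k, (pderiv (κ q) (γ k)) * pderiv k (J b i) = 0 := by
        intro i
        have h2 := hleib (κ q) (J b i)
        rw [hb1 i, map_zero, hb2 q i, add_zero] at h2
        exact h2.symm
      have h3 := h.etale t c b htc hcb her (fun k => pderiv (κ q) (γ k))
        (fun k hk => by simp only [hγ k hk, map_zero]) h1 i
      have h4 := hleib (κ q) (J c i)
      rw [hc1 i, map_zero, h3, zero_add] at h4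
      exact h4.symm

/-- the state at a later time -/
theorem adjoin_chainK {B Z : ℕ → Finset (Fin n)} {ι κ : Type}
    {J : ℕ → ι → MvPolynomial (Fin n) F} {inp : ℕ → κ → MvPolynomial (Fin n) F}
    (hi : ∀ b i, inp b i ∈ supported F (B b : Set (Fin n)))
    (hst : ∀ b i, J (b + 1) i ∈ Algebra.adjoin F (Set.range (J b) ∪ Set.range (inp b)))
    (hZ : ∀ c b, c ≤ b → ∀ i ∈ Z c, i ∉ B b) {c b : ℕ} (hcb : c ≤ b) (i : ι) :
    J b i ∈ Algebra.adjoin F (Set.range (J c) ∪ X '' {k | k ∉ Z c}) := by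
  induction b, hcb using Nat.le_induction generalizing i with
  | base => exact Algebra.subset_adjoin (Or.inl ⟨i, rfl⟩)
  | succ b hcb ih =>
    refine (Algebra.adjoin_le ?_) (hst b i)
    rintro x (⟨i', rfl⟩ | ⟨i', rfl⟩)
    · exact ih i'
    · refine Algebra.adjoin_mono ?_ (hi b i')
      refine (Set.image_mono ?_).trans Set.subset_union_right
      intro k hk hkZ
      exact hZ c b hcb k hkZ (Finset.mem_coe.1 hk)

theorem ctrl_chainK {B Z : ℕ → Finset (Fin n)} {ι κ : Type} [Fintype ι]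
    {J : ℕ → ι → MvPolynomial (Fin n) F} {inp : ℕ → κ → MvPolynomial (Fin n) F}
    (hi : ∀ b i, inp b i ∈ supported F (B b : Set (Fin n)))
    (hst : ∀ b i, J (b + 1) i ∈ Algebra.adjoin F (Set.range (J b) ∪ Set.range (inp b)))
    (hZ : ∀ c b, c ≤ b → ∀ i ∈ Z c, i ∉ B b)
    {c b : ℕ} (hcb : c ≤ b) (i : ι) : Ctrl (Z c : Set (Fin n)) (J c) (J b i) := by
  refine (ctrl_of_adjoin (adjoin_chainK hi hst hZ hcb i)).mono ?_
  intro k hk
  simpa using hk

/-- the state after the step `t` as a function of the state and the inputs before it -/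
theorem ctrl_stepK {B Z : ℕ → Finset (Fin n)} {ι κ : Type} [Fintype ι] [Fintype κ]
    {J : ℕ → ι → MvPolynomial (Fin n) F} {inp : ℕ → κ → MvPolynomial (Fin n) F}
    (hi : ∀ b i, inp b i ∈ supported F (B b : Set (Fin n)))
    (hst : ∀ b i, J (b + 1) i ∈ Algebra.adjoin F (Set.range (J b) ∪ Set.range (inp b)))
    (hZ : ∀ c b, c ≤ b → ∀ i ∈ Z c, i ∉ B b)
    {t b : ℕ} (htb : t + 1 ≤ b) {f : MvPolynomial (Fin n) F}
    (hf : f ∈ Algebra.adjoin F (Set.range (J b))) :
    Ctrl (Z (t + 1) : Set (Fin n)) (Sum.elim (J t) (inp t)) f := by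
  have h1 : f ∈ Algebra.adjoin F (Set.range (Sum.elim (J t) (inp t)) ∪
      X '' {k | k ∉ Z (t + 1)}) := by
    refine (Algebra.adjoin_le ?_) hf
    rintro _ ⟨i, rfl⟩
    refine (Algebra.adjoin_le ?_) (adjoin_chainK hi hst hZ htb i)
    rintro x (⟨i', rfl⟩ | hx)
    · refine Algebra.adjoin_mono ?_ (hst t i')
      refine Set.Subset.trans ?_ Set.subset_union_left
      rw [Set.Sum.elim_range]
    · exact Algebra.subset_adjoin (Or.inr hx)
  refine (ctrl_of_adjoin h1).mono ?_
  intro k hk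
  simpa using hk

/-- the base family is a system over itself -/
theorem SysK.base {B Z : ℕ → Finset (Fin n)} {ι κ : Type} [Fintype ι]
    {p : ℕ → ι → MvPolynomial (Fin n) F} {inp : ℕ → κ → MvPolynomial (Fin n) F}
    (hi : ∀ b i, inp b i ∈ supported F (B b : Set (Fin n)))
    (hst : ∀ b i, p (b + 1) i ∈ Algebra.adjoin F (Set.range (p b) ∪ Set.range (inp b)))
    (hZ : ∀ c b, c ≤ b → ∀ i ∈ Z c, i ∉ B b) (hZm : ∀ c b, c ≤ b → Z c ⊆ Z b) :
    SysK B Z p p inp where
  isupp := hi
  stepm := hst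
  etale := by
    intro t c b htc hcb her γ hγ hrel
    obtain ⟨L, hL⟩ := exists_linear' (fun i => ctrl_chainK hi hst hZ hcb i)
    rw [rel_iff] at hrel ⊢
    have hS : Z t ⊆ Z c := hZm t c htc
    have hmem : ∑ k, (algebraMap _ (FractionRing (MvPolynomial (Fin n) F)) (γ k)) •
        dv (p c) k ∈ sp (Z t) (p c) := by
      refine Submodule.sum_mem _ fun k _ => ?_
      by_cases hk : k ∈ Z t
      · exact Submodule.smul_mem _ _ (Submodule.subset_span ⟨k, by exact_mod_cast hk, rfl⟩)
      · rw [hγ k hk, map_zero, zero_smul]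
        exact Submodule.zero_mem _
    refine injOn_of_finrank_map L (sp (Z t) (p c)) ?_ _ hmem ?_
    · rw [← sp_transfer L (fun k hk => (hL k (by exact_mod_cast hS hk)).symm)]
      exact her.symm
    · rw [map_sum, ← hrel]
      apply Finset.sum_congr rfl
      intro k _
      rw [LinearMap.map_smul]
      by_cases hk : k ∈ Z t
      · rw [hL k (by exact_mod_cast hS hk)]
      · rw [hγ k hk, map_zero, zero_smul, zero_smul]

/-- freeing a set of directions for a controlled polynomial, if the minors of the family do not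
belong to the ideals with larger sets of free variables -/
theorem VanM.free_block' (V : VanM F n) {ι : Type} [Fintype ι] {G : ι → MvPolynomial (Fin n) F}
    {B Y : Finset (Fin n)} {f : MvPolynomial (Fin n) F} (hf : Ctrl (B : Set (Fin n)) G f)
    {r e : ℕ} (hr : Fintype.card ι ≤ r)
    (hmin : ∀ (ρ : ℕ) (κ : Fin ρ → Fin n) (g' : Fin ρ → ι), ρ ≤ r →
      (Matrix.of fun q l => pderiv (κ q) (G (g' l))).det ≠ 0 →
      ∀ Y', Y ⊆ Y' → (Matrix.of fun q l => pderiv (κ q) (G (g' l))).det ∉ V.I e Y')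
    {j : ℕ} (h : f ∈ V.I (j + (e + r)) Y) : f ∈ V.I j (Y ∪ B) := by
  classical
  obtain ⟨ρ, κ, g', hρ, hκ, hdet, hrel⟩ := cramer_unif
    (fun (k : Fin n) (i : ι) => pderiv k (G i)) (B : Set (Fin n))
  have hρr : ρ ≤ r := hρ.trans hr
  have hnon := hmin ρ κ g' hρr hdet
  set μ := (Matrix.of fun q l => pderiv (κ q) (G (g' l))).det with hμ
  have hfree : ∀ (s : ℕ) (hs : s ≤ ρ), f ∈
      V.I (j + e + (r - s)) (Finset.univ.image (fun q : Fin s => κ (Fin.castLE hs q)) ∪ Y) := by
    intro s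
    induction s with
    | zero =>
      intro hs
      have h1 : (Finset.univ.image (fun q : Fin 0 => κ (Fin.castLE hs q)) ∪ Y) = Y := by simp
      rw [h1]
      exact V.mono (by omega) _ h
    | succ s ih =>
      intro hs
      have h1 := ih (by omega)
      have h2 : j + e + (r - s) = (j + e + (r - (s + 1))) + 1 := by omega
      rw [h2] at h1
      have h3 := V.free _ _ (κ ⟨s, by omega⟩) _ h1
      have h4 : insert (κ ⟨s, by omega⟩) (Finset.univ.image
          (fun q : Fin s => κ (Fin.castLE (by omega : s ≤ ρ) q)) ∪ Y) =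
          Finset.univ.image (fun q : Fin (s + 1) => κ (Fin.castLE hs q)) ∪ Y := by
        ext k
        simp only [Finset.mem_insert, Finset.mem_union, Finset.mem_image, Finset.mem_univ,
          true_and]
        constructor
        · rintro (rfl | ⟨q, rfl⟩ | h)
          · exact Or.inl ⟨Fin.last s, rfl⟩
          · exact Or.inl ⟨q.castSucc, rfl⟩
          · exact Or.inr h
        · rintro (⟨q, rfl⟩ | h)
          · refine Fin.lastCases ?_ (fun q => ?_) q
            · exact Or.inl rfl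
            · exact Or.inr (Or.inl ⟨q, rfl⟩)
          · exact Or.inr (Or.inr h)
      rw [← h4]
      exact h3
  have h0 := V.mono (show j + e ≤ j + e + (r - ρ) by omega) _ (hfree ρ le_rfl)
  set Z₀ := Finset.univ.image (fun q : Fin ρ => κ (Fin.castLE le_rfl q)) ∪ Y with hZ₀
  have hκZ : ∀ q, κ q ∈ Z₀ := fun q => Finset.mem_union_left _
    (Finset.mem_image.2 ⟨q, Finset.mem_univ _, rfl⟩)
  have hall : ∀ T : Finset (Fin n), T ⊆ B → f ∈ V.I (j + e) (T ∪ Z₀) := by
    intro T
    induction T using Finset.induction_on with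
    | empty => intro _; rw [Finset.empty_union]; exact h0
    | insert i T _ ih =>
      intro hTB
      have ih' := ih (fun k hk => hTB (Finset.mem_insert_of_mem hk))
      have hiB : i ∈ B := hTB (Finset.mem_insert_self _ _)
      rw [Finset.insert_union]
      by_cases hi : i ∈ T ∪ Z₀
      · rwa [Finset.insert_eq_of_mem hi]
      · have hrel' := hrel (fun l => pderiv i (G l)) (Submodule.subset_span
          ⟨i, by exact_mod_cast hiB, rfl⟩)
        exact V.lossless1 hi (fun q => Finset.mem_union_right _ (hκZ q))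
          (ctrl_pde hf (by exact_mod_cast hiB) hκ hrel') ih'
          (fun hc => hnon _ (Finset.subset_union_right.trans Finset.subset_union_right)
            (V.mono (Nat.le_add_left _ _) _ hc))
  have h1 := hall B le_rfl
  have h2 : B ∪ Z₀ = Y ∪ B := by
    rw [hZ₀, ← Finset.union_assoc, Finset.union_comm]
    congr 1
    apply Finset.union_eq_left.2
    intro k hk
    obtain ⟨q, _, rfl⟩ := Finset.mem_image.1 hk
    exact_mod_cast hκ (Fin.castLE le_rfl q)
  rw [h2] at h1
  exact V.mono (Nat.le_add_right _ _) _ h1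

end sys

end Pool.Agent.H530R2
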