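import Mathlib
import Pool.Agent.H530R2.Rdk2

/-!
The decoupling theorem for programs reading every variable at most `k` times.
-/

namespace Pool.Agent.H530R2

open MvPolynomial Module

universe v

/-- combinations of outputs of programs reading the variables outside `Y` at most `k` times and
members of the class vanish if they belong to the ideals -/
def RelK {F : Type v} [Field F] (𝔎 : Fam F) (k : ℕ) : Prop :=
  ∀ Q W : ℕ, ∃ e : ℕ, ∀ σ n : ℕ, ∀ V ∈ 𝔎.Ok σ n, ∀ (B : ℕ → Finset (Fin n))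
    (p inp : ℕ → Fin W → MvPolynomial (Fin n) F), RegK 𝔎 σ B W p inp →
    ∀ (R : ℕ) (Y : Finset (Fin n)), (∀ i, i ∉ Y → cnt B R i ≤ k) →
    ∀ (E P : Fin Q → MvPolynomial (Fin n) F),
      (∀ q, E q ∈ Algebra.adjoin F (Set.range (p R) ∪ X '' (Y : Set (Fin n)))) →
      (∀ q, P q ∈ 𝔎.K σ n W) →
      ∑ q, E q * P q ∈ V.I e Y → ∑ q, E q * P q = 0

/-- the decoupling statement -/
def DecK {F : Type v} [Field F] (𝔎 : Fam F) (k w s : ℕ) : Prop :=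
  ∀ l k' u Q W : ℕ, ∃ e : ℕ, ∀ σ n : ℕ, ∀ V ∈ 𝔎.Ok σ n, ∀ (B : ℕ → Finset (Fin n))
    (Y : Finset (Fin n)), (∀ i, i ∉ Y → ∀ t, cnt B t i ≤ k + 1) →
    ∀ (p : ℕ → Fin w → MvPolynomial (Fin n) F),
      (∀ c b, c ≤ b → ∀ S : Finset (Fin n), S ⊆ ZK B Y k c → er S (p b) ≤ er S (p c)) →
    ∀ (ι κ : Type) [Fintype ι] [Fintype κ] (J : ℕ → ι → MvPolynomial (Fin n) F)
      (inp : ℕ → κ → MvPolynomial (Fin n) F), SysK B (ZK B Y k) p J inp →
      RegK 𝔎 σ B u J inp →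
      Fintype.card ι ≤ l → Fintype.card κ ≤ k' →
      ∀ a' b : ℕ, a' ≤ b → (a' = b ∨ w + 1 ≤ er (ZK B Y k a') (p b) + s) →
      ∀ (E P : Fin Q → MvPolynomial (Fin n) F),
      (∀ q, Ctrl ((ZK B Y k b \ ZK B Y k a' : Finset (Fin n)) : Set (Fin n)) (J b) (E q)) →
      (∀ q, P q ∈ 𝔎.K σ n W) → ∀ j, ∑ q, E q * P q ∈ V.I (j + e) (Y ∪ ZK B Y k a') →
      ∑ q, E q * P q ∈ V.I j (Y ∪ ZK B Y k b)

variable {F : Type v} [Field F] {𝔎 : Fam F}

theorem DecK.zero (k w : ℕ) : DecK 𝔎 k w 0 := by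
  intro l k' u Q W
  refine ⟨0, ?_⟩
  intro σ n V hV B Y hcnt p hp ι κ _ _ J inp hJ hreg hl hk a' b hab hor E P hE hP j h0
  rcases hor with rfl | h
  · exact h0
  · exfalso
    have h2 := er_le_card (ZK B Y k a') (p b)
    rw [Fintype.card_fin] at h2
    omega

/-- a version of the induction hypothesis for families indexed by arbitrary finite types -/
theorem RelK.apply {k : ℕ} (hH : RelK 𝔎 k) (l k' u M : ℕ) : ∃ e : ℕ, ∀ σ n : ℕ, ∀ V ∈ 𝔎.Ok σ n,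
    ∀ (B : ℕ → Finset (Fin n)) (ι κ : Type) [Fintype ι] [Fintype κ]
    (J : ℕ → ι → MvPolynomial (Fin n) F) (inp : ℕ → κ → MvPolynomial (Fin n) F),
    RegK 𝔎 σ B u J inp → Fintype.card ι ≤ l → Fintype.card κ ≤ k' →
    ∀ (R : ℕ) (Y : Finset (Fin n)), (∀ i, i ∉ Y → cnt B R i ≤ k) →
    ∀ x, RepK 𝔎 σ (Algebra.adjoin F (Set.range (J R))) M x → x ∈ V.I e Y → x = 0 := by
  classical
  obtain ⟨e, he⟩ := hH (M + 𝔎.c0) (l + k' + u + M + 𝔎.c0)
  refine ⟨e, ?_⟩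
  intro σ n V hV B ι κ _ _ J inp hreg hl hk R Y hcnt x hx hmem
  obtain ⟨p, inp', hp, hr⟩ := hreg.toFin (w := l + k' + u + M + 𝔎.c0) (by omega) (by omega)
    (by omega) (by omega)
  obtain ⟨E, P, hE, hP, rfl⟩ := SP.toFin (hx.mono (Nat.le_add_right M 𝔎.c0))
    (Subalgebra.zero_mem _) (𝔎.zero (Nat.le_add_left _ _))
  refine he σ n V hV B p inp' hp R Y hcnt E P (fun q => ?_)
    (fun q => 𝔎.mono (by omega) (hP q)) hmem
  exact Algebra.adjoin_mono ((hr R).trans Set.subset_union_left) (hE q)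

/-- freeing the variables read for the last time in a step -/
theorem bfreeK {k : ℕ} (hH : RelK 𝔎 k) (l k' u Q W : ℕ) : ∃ e : ℕ, ∀ σ n : ℕ, ∀ V ∈ 𝔎.Ok σ n,
    ∀ (B : ℕ → Finset (Fin n)) (ι κ : Type) [Fintype ι] [Fintype κ]
    (J : ℕ → ι → MvPolynomial (Fin n) F) (inp : ℕ → κ → MvPolynomial (Fin n) F),
    RegK 𝔎 σ B u J inp → Fintype.card ι ≤ l → Fintype.card κ ≤ k' →
    ∀ (t : ℕ) (Y : Finset (Fin n)), (∀ i, i ∉ Y → cnt B t i ≤ k) →
    ∀ (S : Finset (Fin n)) (E P : Fin Q → MvPolynomial (Fin n) F),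
      (∀ q, Ctrl (S : Set (Fin n)) (Sum.elim (J t) (inp t)) (E q)) → (∀ q, P q ∈ 𝔎.K σ n W) →
      ∀ j, ∑ q, E q * P q ∈ V.I (j + e) Y → ∑ q, E q * P q ∈ V.I j (Y ∪ S) := by
  classical
  set r := l + k' + Q with hr
  set W₀ := 𝔎.der u + 𝔎.der W + 𝔎.c0 with hW₀
  set M := r.factorial * 𝔎.pg W₀ r with hM
  obtain ⟨e, he⟩ := hH.apply (l + r * l) (k' + r * k') (u + 𝔎.der u) M
  refine ⟨e + r, ?_⟩
  intro σ n V hV B ι κ _ _ J inp hreg hl hk t Y hcnt S E P hE hP j h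
  refine V.free_block' (G := Sum.elim (Sum.elim (J t) (inp t)) P) (ctrl_comb hE) (r := r)
    (e := e) ?_ ?_ h
  · rw [Fintype.card_sum, Fintype.card_sum, Fintype.card_fin]; omega
  · intro ρ κ' g' hρ hdet Y' hYY' hY'
    apply hdet
    have hrep : RepK 𝔎 σ (Algebra.adjoin F (Set.range (prol κ' J t))) M
        (Matrix.of fun q l => pderiv (κ' q) (Sum.elim (Sum.elim (J t) (inp t)) P (g' l))).det := by
      refine RepK.det hρ fun q l => ?_
      simp only [Matrix.of_apply]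
      rcases g' l with (i | i) | i
      · exact RepK.ofRing (by omega) (Algebra.subset_adjoin ⟨Sum.inr (q, i), rfl⟩)
      · exact RepK.ofMem (𝔎.c0_pos.trans (by omega))
          (𝔎.mono (by omega) (𝔎.der_mem (κ' q) (hreg.imem t i)))
      · exact RepK.ofMem (𝔎.c0_pos.trans (by omega))
          (𝔎.mono (by omega) (𝔎.der_mem (κ' q) (hP i)))
    refine he σ n V hV B _ _ (prol κ' J) (prol κ' inp) (hreg.prol κ') ?_ ?_ t Y'
      (fun i hi => hcnt i (fun hc => hi (hYY' hc))) _ hrep hY'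
    · rw [Fintype.card_sum, Fintype.card_prod, Fintype.card_fin]
      exact Nat.add_le_add hl (Nat.mul_le_mul hρ hl)
    · rw [Fintype.card_sum, Fintype.card_prod, Fintype.card_fin]
      exact Nat.add_le_add hk (Nat.mul_le_mul hρ hk)

/-- represented elements of the ideals vanish -/
theorem brep_zeroK {σ n : ℕ} (V : VanM F n) {B : ℕ → Finset (Fin n)} {Y : Finset (Fin n)} {k : ℕ}
    (hcnt : ∀ i, i ∉ Y → ∀ t, cnt B t i ≤ k + 1)
    {w : ℕ} {p : ℕ → Fin w → MvPolynomial (Fin n) F} {ι κ : Type}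
    {J : ℕ → ι → MvPolynomial (Fin n) F} [Fintype ι] {inp : ℕ → κ → MvPolynomial (Fin n) F}
    [Fintype κ] (hJ : SysK B (ZK B Y k) p J inp) {Y₁ : Finset (Fin n)} {t b' : ℕ}
    (htb : t + 1 < b') {M e eG e' : ℕ} (hM0 : 𝔎.c0 ≤ M)
    (hY₀ : Y ∪ ZK B Y k t ⊆ Y₁) (hY₁ : Y₁ ⊆ Y ∪ ZK B Y k (t + 1))
    (hdec : ∀ (E P : Fin M → MvPolynomial (Fin n) F),
      (∀ q, Ctrl ((ZK B Y k (b' - 1) \ ZK B Y k (t + 1) : Finset (Fin n)) : Set (Fin n))
        (J (b' - 1)) (E q)) →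
      (∀ q, P q ∈ 𝔎.K σ n M) → ∀ j, ∑ q, E q * P q ∈ V.I (j + e) (Y ∪ ZK B Y k (t + 1)) →
      ∑ q, E q * P q ∈ V.I j (Y ∪ ZK B Y k (b' - 1)))
    (hH : ∀ (R : ℕ) (Y : Finset (Fin n)), (∀ i, i ∉ Y → cnt B R i ≤ k) →
      ∀ x, RepK 𝔎 σ (Algebra.adjoin F (Set.range (J R))) M x → x ∈ V.I e' Y → x = 0)
    (hG : ∀ (t : ℕ) (Y : Finset (Fin n)), (∀ i, i ∉ Y → cnt B t i ≤ k) →
      ∀ (S : Finset (Fin n)) (E P : Fin M → MvPolynomial (Fin n) F),
      (∀ q, Ctrl (S : Set (Fin n)) (Sum.elim (J t) (inp t)) (E q)) → (∀ q, P q ∈ 𝔎.K σ n M) →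
      ∀ j, ∑ q, E q * P q ∈ V.I (j + eG) Y → ∑ q, E q * P q ∈ V.I j (Y ∪ S))
    {x : MvPolynomial (Fin n) F}
    (hx : RepK 𝔎 σ (Algebra.adjoin F (Set.range (J b'))) M x)
    (hmem : x ∈ V.I (e' + eG + e + eG) Y₁) : x = 0 := by
  classical
  have hZ : ∀ c b, c ≤ b → ∀ i ∈ ZK B Y k c, i ∉ B b :=
    fun c b hcb i hi => ZK_not_mem hcnt hcb hi
  have hcK : ∀ t i, i ∉ Y ∪ ZK B Y k t → cnt B t i ≤ k := by
    intro t i hi
    rw [Finset.mem_union, mem_ZK] at hi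
    push Not at hi
    exact hi.2 hi.1
  obtain ⟨y, P', hyr, hP', hxy⟩ := SP.toFin hx (Subalgebra.zero_mem _) (𝔎.zero hM0)
  have hctl : ∀ t', t' + 1 ≤ b' → ∀ q, Ctrl (ZK B Y k (t' + 1) : Set (Fin n))
      (Sum.elim (J t') (inp t')) (y q) :=
    fun t' ht' q => ctrl_stepK hJ.isupp hJ.stepm hZ ht' (hyr q)
  refine hH b' (Y ∪ ZK B Y k b') (hcK b') x hx ?_
  rw [hxy] at hmem ⊢
  -- free the variables completed at time `t`
  have h1 := hG t Y₁ (fun i hi => hcK t i (fun hc => hi (hY₀ hc))) (ZK B Y k (t + 1)) y P'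
    (hctl t (by omega)) hP' (e' + eG + e) hmem
  have h2 : Y₁ ∪ ZK B Y k (t + 1) = Y ∪ ZK B Y k (t + 1) := by
    apply Finset.Subset.antisymm
    · exact Finset.union_subset hY₁ Finset.subset_union_right
    · exact Finset.union_subset (Finset.subset_union_left.trans
        (hY₀.trans Finset.subset_union_left)) Finset.subset_union_right
  rw [h2] at h1
  -- decoupling
  have hctlJ : ∀ q, Ctrl ((ZK B Y k (b' - 1) \ ZK B Y k (t + 1) : Finset (Fin n)) :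
      Set (Fin n)) (J (b' - 1)) (y q) := by
    intro q
    have h3 : y q ∈ Algebra.adjoin F (Set.range (J (b' - 1)) ∪
        X '' {y | y ∉ ZK B Y k (b' - 1)}) := by
      refine (Algebra.adjoin_le ?_) (hyr q)
      rintro _ ⟨i, rfl⟩
      exact adjoin_chainK hJ.isupp hJ.stepm hZ (Nat.sub_le _ _) i
    refine (ctrl_of_adjoin h3).mono ?_
    intro y hy
    rw [Finset.mem_coe, Finset.mem_sdiff] at hy
    simpa using hy.1
  have h3 := hdec y P' hctlJ hP' (e' + eG) h1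
  -- free the variables completed at the last step
  have h4 := hG (b' - 1) (Y ∪ ZK B Y k (b' - 1)) (hcK (b' - 1)) (ZK B Y k b') y P'
    (fun q => by
      have := hctl (b' - 1) (by omega) q
      rwa [Nat.sub_add_cancel (by omega)] at this) hP' e' h3
  have h5 : Y ∪ ZK B Y k (b' - 1) ∪ ZK B Y k b' = Y ∪ ZK B Y k b' := by
    rw [Finset.union_assoc]
    congr 1
    exact Finset.union_eq_right.2 (ZK_mono (Nat.sub_le _ _))
  rwa [h5] at h4

end Pool.Agent.H530R2
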