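import Mathlib
import Pool.Agent.H530R2.Rdk4

/-!
The next family: outputs of programs reading every variable boundedly often.
-/

namespace Pool.Agent.H530R2

open MvPolynomial Module

universe v

section next

variable {F : Type v} [Field F] (𝔎 : Fam F) {σ n : ℕ}

/-- outputs of programs with at most `W` reads of every variable, up to `W` exceptional
variables -/
def Out (σ n W : ℕ) : Set (MvPolynomial (Fin n) F) :=
  {f | ∃ (B : ℕ → Finset (Fin n)) (p inp : ℕ → Fin (W + 𝔎.c0) → MvPolynomial (Fin n) F) (R : ℕ),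
    RegK 𝔎 σ B (W + 𝔎.c0) p inp ∧
    (∃ S : Finset (Fin n), S.card ≤ W ∧ ∀ i, i ∉ S → ∀ t, cnt B t i ≤ W) ∧
    f ∈ Algebra.adjoin F (Set.range (p R))}

variable {𝔎}

theorem Out.ofReg {W : ℕ} {B : ℕ → Finset (Fin n)} {u : ℕ} {τ κ : Type} [Fintype τ] [Fintype κ]
    {p : ℕ → τ → MvPolynomial (Fin n) F} {inp : ℕ → κ → MvPolynomial (Fin n) F}
    (h : RegK 𝔎 σ B u p inp) (hu : u ≤ W + 𝔎.c0) (hτ : Fintype.card τ ≤ W + 𝔎.c0)
    (hκ : Fintype.card κ ≤ W + 𝔎.c0)
    (hB : ∃ S : Finset (Fin n), S.card ≤ W ∧ ∀ i, i ∉ S → ∀ t, cnt B t i ≤ W) {R : ℕ}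
    {f : MvPolynomial (Fin n) F} (hf : f ∈ Algebra.adjoin F (Set.range (p R))) :
    f ∈ Out 𝔎 σ n W := by
  obtain ⟨p', inp', hp', hr⟩ := h.toFin hu hτ hκ (Nat.le_add_left _ _)
  exact ⟨B, p', inp', R, hp', hB, Algebra.adjoin_mono (hr R) hf⟩

theorem Out.mono {W W' : ℕ} (hW : W ≤ W') : Out 𝔎 σ n W ⊆ Out 𝔎 σ n W' := by
  rintro f ⟨B, p, inp, R, h, ⟨S, hS, hB⟩, hf⟩
  exact Out.ofReg h (by omega) (by rw [Fintype.card_fin]; omega)
    (by rw [Fintype.card_fin]; omega) ⟨S, hS.trans hW, fun i hi t => (hB i hi t).trans hW⟩ hf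

theorem Out.comb {W k : ℕ} {ι : Type} [Fintype ι] {g : ι → MvPolynomial (Fin n) F}
    {f : MvPolynomial (Fin n) F} (hι : Fintype.card ι ≤ k) (hg : ∀ i, g i ∈ Out 𝔎 σ n W)
    (hf : f ∈ Algebra.adjoin F (Set.range g)) : f ∈ Out 𝔎 σ n (k * (W + 𝔎.c0) + W) := by
  classical
  choose B p inp R h hBS hgp using hg
  choose S hS hB using hBS
  have ht : ∀ j, RegK 𝔎 σ (fun t => if t < R j then B j t else ∅) (W + 𝔎.c0)
      (fun t => p j (min t (R j))) (fun t => if t < R j then inp j t else 0) :=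
    fun j => (h j).trunc (Nat.le_add_left _ _) (R j)
  have hreg : RegK 𝔎 σ (fun t => Finset.univ.biUnion fun j : ι => if t < R j then B j t else ∅)
      (W + 𝔎.c0) (fun t (x : ι × Fin (W + 𝔎.c0)) => p x.1 (min t (R x.1)) x.2)
      (fun t (x : ι × Fin (W + 𝔎.c0)) => (if t < R x.1 then inp x.1 t else 0) x.2) := by
    refine ⟨fun x => (ht x.1).init x.2, fun b x => (ht x.1).imem b x.2, fun b x => ?_,
      fun b x => ?_⟩
    · refine supported_mono ?_ ((ht x.1).isupp b x.2)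
      exact_mod_cast Finset.subset_biUnion_of_mem
        (fun j : ι => if b < R j then B j b else ∅) (Finset.mem_univ x.1)
    · refine Algebra.adjoin_mono ?_ ((ht x.1).stepm b x.2)
      apply Set.union_subset_union
      · rintro _ ⟨i, rfl⟩
        exact ⟨(x.1, i), rfl⟩
      · rintro _ ⟨i, rfl⟩
        exact ⟨(x.1, i), rfl⟩
  have hcard : Fintype.card (ι × Fin (W + 𝔎.c0)) ≤ k * (W + 𝔎.c0) + W + 𝔎.c0 := by
    rw [Fintype.card_prod, Fintype.card_fin]
    have := Nat.mul_le_mul_right (W + 𝔎.c0) hι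
    omega
  refine Out.ofReg hreg (by omega) hcard hcard ?_ (R := ∑ j, R j) ?_
  · refine ⟨Finset.univ.biUnion S, ?_, fun i hi t => ?_⟩
    · refine Finset.card_biUnion_le.trans ?_
      calc ∑ j, (S j).card ≤ ∑ _j : ι, W := Finset.sum_le_sum fun j _ => hS j
        _ = Fintype.card ι * W := by rw [Finset.sum_const, Finset.card_univ, smul_eq_mul]
        _ ≤ k * (W + 𝔎.c0) + W :=
            (Nat.mul_le_mul hι (Nat.le_add_right _ _)).trans (Nat.le_add_right _ _)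
    have h1 : cnt (fun t => Finset.univ.biUnion fun j : ι => if t < R j then B j t else ∅) t i ≤
        ∑ j, cnt (fun t => if t < R j then B j t else ∅) t i := by
      unfold cnt
      refine (Finset.card_le_card ?_).trans Finset.card_biUnion_le
      intro t' ht'
      rw [Finset.mem_filter, Finset.mem_biUnion] at ht'
      obtain ⟨ht1, j, hj, ht2⟩ := ht'
      rw [Finset.mem_biUnion]
      exact ⟨j, hj, Finset.mem_filter.2 ⟨ht1, ht2⟩⟩
    refine h1.trans ?_
    calc ∑ j, cnt (fun t => if t < R j then B j t else ∅) t i ≤ ∑ _j : ι, W := by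
          apply Finset.sum_le_sum
          intro j _
          refine (cnt_trunc (B j) (R j) t i).trans (hB j i (fun hc => hi ?_) _)
          exact Finset.mem_biUnion.2 ⟨j, Finset.mem_univ j, hc⟩
      _ = Fintype.card ι * W := by rw [Finset.sum_const, Finset.card_univ, smul_eq_mul]
      _ ≤ k * (W + 𝔎.c0) + W :=
          (Nat.mul_le_mul hι (Nat.le_add_right _ _)).trans (Nat.le_add_right _ _)
  · refine (Algebra.adjoin_le ?_) hf
    rintro _ ⟨j, rfl⟩
    refine Algebra.adjoin_mono ?_ (hgp j)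
    rintro _ ⟨i, rfl⟩
    refine ⟨(j, i), ?_⟩
    have h1 : R j ≤ ∑ j, R j := Finset.single_le_sum (fun _ _ => Nat.zero_le _) (Finset.mem_univ j)
    simp only [min_eq_right h1]

theorem Out.der {W : ℕ} (k : Fin n) {f : MvPolynomial (Fin n) F} (hf : f ∈ Out 𝔎 σ n W) :
    pderiv k f ∈ Out 𝔎 σ n (2 * (W + 𝔎.c0) + 𝔎.der (W + 𝔎.c0)) := by
  obtain ⟨B, p, inp, R, h, ⟨S, hS, hB⟩, hf⟩ := hf
  have hcard : Fintype.card (Fin (W + 𝔎.c0) ⊕ Fin 1 × Fin (W + 𝔎.c0)) ≤
      2 * (W + 𝔎.c0) + 𝔎.der (W + 𝔎.c0) + 𝔎.c0 := by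
    rw [Fintype.card_sum, Fintype.card_prod, Fintype.card_fin, Fintype.card_fin]
    omega
  refine Out.ofReg (h.prol (fun _ : Fin 1 => k)) (by omega) hcard hcard
    ⟨S, hS.trans (by omega), fun i hi t => (hB i hi t).trans (by omega)⟩ (R := R) ?_
  refine pderiv_mem_of_adjoin k ?_ ?_ hf
  · rintro _ ⟨i, rfl⟩
    exact Algebra.subset_adjoin ⟨Sum.inl i, rfl⟩
  · rintro _ ⟨i, rfl⟩
    exact Algebra.subset_adjoin ⟨Sum.inr (0, i), rfl⟩

theorem VanM.free_set (V : VanM F n) {f : MvPolynomial (Fin n) F} (S : Finset (Fin n)) :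
    ∀ (m : ℕ) (Y : Finset (Fin n)), f ∈ V.I (m + S.card) Y → f ∈ V.I m (Y ∪ S) := by
  classical
  induction S using Finset.induction_on with
  | empty => intro m Y h; simpa using h
  | insert i S hi ih =>
    intro m Y h
    rw [Finset.card_insert_of_notMem hi] at h
    have h1 := ih (m + 1) Y (by rw [show m + 1 + S.card = m + (S.card + 1) by ring]; exact h)
    rw [Finset.union_insert]
    exact V.free _ _ i _ h1

theorem Out.seeds (𝔎 : Fam F) (W : ℕ) : ∃ m : ℕ, ∀ σ n : ℕ, ∀ V ∈ 𝔎.Ok σ n, ∀ f ∈ Out 𝔎 σ n W,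
    ∀ Y : Finset (Fin n), f ∈ V.I m Y → f = 0 := by
  obtain ⟨m, hm⟩ := RelK.all 𝔎 W 1 (W + 𝔎.c0)
  refine ⟨m + W, ?_⟩
  rintro σ n V hV f ⟨B, p, inp, R, h, ⟨S, hS, hB⟩, hf⟩ Y hmem
  have hmem' := V.free_set S m Y (V.mono (by omega) _ hmem)
  have h1 := hm σ n V hV B p inp h R (Y ∪ S)
    (fun i hi => hB i (fun hc => hi (Finset.mem_union_right _ hc)) R) (fun _ => f) (fun _ => C 1)
    (fun _ => Algebra.adjoin_mono Set.subset_union_left hf)
    (fun _ => 𝔎.const (Nat.le_add_left _ _) 1) (by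
      rw [Fin.sum_univ_one, C_1, mul_one]; exact hmem')
  rwa [Fin.sum_univ_one, C_1, mul_one] at h1

/-- the next family -/
def Fam.next (𝔎 : Fam F) : Fam F where
  Ok := 𝔎.Ok
  K := Out 𝔎
  mono := Out.mono
  comb k W := k * (W + 𝔎.c0) + W
  comb_mem := fun hι hg hf => Out.comb hι hg hf
  der W := 2 * (W + 𝔎.c0) + 𝔎.der (W + 𝔎.c0)
  der_mem := fun k _ hf => Out.der k hf
  seeds := Out.seeds 𝔎

theorem Fam.toNext (𝔎 : Fam F) {W W' : ℕ} (hW : W ≤ W') (hW' : 1 ≤ W')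
    {f : MvPolynomial (Fin n) F} (hf : f ∈ 𝔎.K σ n W) : f ∈ (𝔎.next).K σ n W' := by
  classical
  have hreg : RegK 𝔎 σ (fun t => if t = 0 then (Finset.univ : Finset (Fin n)) else ∅)
      (W + 𝔎.c0) (fun t (_ : Unit) => if t = 0 then 0 else f)
      (fun t (_ : Unit) => if t = 0 then f else 0) := by
    refine ⟨fun _ => ⟨0, by simp⟩, fun b _ => ?_, fun b _ => ?_, fun b _ => ?_⟩
    · split_ifs
      · exact 𝔎.mono (Nat.le_add_right _ _) hf
      · exact 𝔎.zero (Nat.le_add_left _ _)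
    · split_ifs
      · rw [Finset.coe_univ, supported_univ]
        trivial
      · exact Subalgebra.zero_mem _
    · rw [if_neg (Nat.succ_ne_zero b)]
      by_cases hb : b = 0
      · subst hb
        exact Algebra.subset_adjoin (Or.inr ⟨(), by simp⟩)
      · exact Algebra.subset_adjoin (Or.inl ⟨(), by simp [hb]⟩)
  have hc : Fintype.card Unit ≤ W' + 𝔎.c0 := by
    rw [Fintype.card_unit]; omega
  refine Out.ofReg hreg (by omega) hc hc ?_ (R := 1) (Algebra.subset_adjoin ⟨(), by simp⟩)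
  refine ⟨∅, by simp, fun i _ t => ?_⟩
  refine le_trans ?_ hW'
  unfold cnt
  calc _ ≤ ({0} : Finset ℕ).card := by
        apply Finset.card_le_card
        intro t' ht'
        rw [Finset.mem_filter] at ht'
        by_contra hne
        rw [Finset.mem_singleton] at hne
        have h2 := ht'.2
        simp [hne] at h2
    _ = 1 := Finset.card_singleton _

/-- Composites of bounded transcendence degree of members of a family. -/
theorem Fam.comp [CharZero F] (𝔎 : Fam F) (W r : ℕ) : ∃ m : ℕ,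
    ∀ σ n : ℕ, ∀ V ∈ 𝔎.Ok σ n, ∀ (N : ℕ) (g : Fin N → MvPolynomial (Fin n) F),
      (∀ i, g i ∈ 𝔎.K σ n W) →
      (∀ s : Fin (r + 1) → Fin N, ¬ AlgebraicIndependent F (fun i => g (s i))) →
      ∀ (Φ : MvPolynomial (Fin N) F) (Y : Finset (Fin n)), aeval g Φ ∈ V.I m Y →
        aeval g Φ = 0 := by
  classical
  obtain ⟨e, he⟩ := 𝔎.seeds (𝔎.comb (r * r) (𝔎.der W))
  refine ⟨e + r, ?_⟩
  intro σ n V hV N g hg htr Φ Y hmem
  refine comp_zero V g r e htr ?_ Φ Y hmem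
  intro ρ κ g' hρ hdet Y' hY'
  apply hdet
  refine he σ n V hV _ ?_ Y' hY'
  refine 𝔎.comb_mem (ι := Fin ρ × Fin ρ) (g := fun x => pderiv (κ x.1) (g (g' x.2)))
    ?_ (fun x => 𝔎.der_mem _ (hg _)) ?_
  · rw [Fintype.card_prod, Fintype.card_fin]
    exact Nat.mul_le_mul hρ hρ
  · apply det_mem'
    intro q l
    exact Algebra.subset_adjoin ⟨(q, l), rfl⟩

end next

end Pool.Agent.H530R2
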