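import Mathlib
import Pool.Agent.H530R2.Rdk5
import Pool.Agent.H530R2.Nst11
import Pool.Agent.H530R2.NstY
import Pool.Agent.H530R2.Hit
import Pool.Agent.H530R2.Blk6

/-!
The base family: polynomials in few polynomials with small or few monomials.
-/

namespace Pool.Agent.H530R2

open MvPolynomial Module

universe v

section scale

variable {F : Type*} [Field F] {n : ℕ}

/-- coefficients in a free variable -/
def Coef (V : VanM F n) : Prop := ∀ (j : ℕ) (Z : Finset (Fin n)) (i0 : Fin n), i0 ∈ Z →
  ∀ (D : ℕ) (c : ℕ → MvPolynomial (Fin n) F),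
    (∀ e, c e ∈ supported F {k : Fin n | k ≠ i0}) →
    ∑ e ∈ Finset.range D, c e * (X i0) ^ e ∈ V.I j Z → ∀ e < D, c e ∈ V.I j Z

/-- rescaled levels -/
def VanM.scale (V : VanM F n) (s : ℕ) (hs : 1 ≤ s) : VanM F n where
  I j Z := V.I (j * s) Z
  prime j Z := V.prime _ _
  anti j Z := V.mono (Nat.mul_le_mul_right _ (Nat.le_succ j)) Z
  free j Z i Q h := V.free _ _ _ _ (V.mono (by rw [add_mul, one_mul]; omega) _ h)
  der j Z := V.der _ _
  lossless j Z i0 h ρ κ hκ d f μ m c h1 h2 h3 := V.lossless _ _ _ h ρ κ hκ d f μ m c h1 h2 h3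
  supp j Z := V.supp _ _

/-- every monomial is a product of a monomial `a k` and a monomial in few variables, their number
bounded by the logarithm of the weight of `k` -/
def Cov (N : ℕ) (f : MvPolynomial (Fin n) F) : Prop :=
  ∃ (ι : Type) (_ : Fintype ι) (a : ι → (Fin n →₀ ℕ)) (wt : ι → ℕ), ∑ k, wt k ≤ N ∧
    ∀ x ∈ f.support, ∃ k b, x = a k + b ∧ 2 ^ b.support.card ≤ wt k

theorem xpart_supp {Q : MvPolynomial (Fin n) F} {i : Fin n} {e : ℕ} {y : Fin n →₀ ℕ}
    (hy : y ∈ (xpart Q i e).support) : ∃ x ∈ Q.support, x i = e ∧ y = x.erase i := by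
  classical
  have h1 := support_sum hy
  rw [Finset.mem_biUnion] at h1
  obtain ⟨x, hx, hyx⟩ := h1
  rw [Finset.mem_filter] at hx
  exact ⟨x, hx.1, hx.2, Finset.mem_singleton.1 (support_monomial_subset hyx)⟩

theorem cov_xpart {N : ℕ} {f : MvPolynomial (Fin n) F} {i : Fin n} {e : ℕ} {ι : Type}
    [Fintype ι] {a : ι → (Fin n →₀ ℕ)} {wt : ι → ℕ} (hN : ∑ k, wt k ≤ N)
    (hf : ∀ x ∈ f.support, ∃ k b, x = a k + b ∧ 2 ^ b.support.card ≤ wt k)
    (he : 2 * ∑ k, (if a k i = e then wt k else 0) ≤ N) :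
    ∃ N', 4 * N' ≤ 3 * N ∧ Cov N' (xpart f i e) := by
  classical
  refine ⟨∑ k, (if a k i = e then wt k else wt k / 2), ?_, ι, inferInstance,
    fun k => (a k).erase i, fun k => if a k i = e then wt k else wt k / 2, le_rfl, ?_⟩
  · have h1 : 2 * ∑ k, (if a k i = e then wt k else wt k / 2) ≤
        ∑ k, wt k + ∑ k, (if a k i = e then wt k else 0) := by
      rw [Finset.mul_sum, ← Finset.sum_add_distrib]
      apply Finset.sum_le_sum
      intro k _
      split_ifs
      · omega
      · omega
    omega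
  · intro y hy
    obtain ⟨x, hx, hxe, rfl⟩ := xpart_supp hy
    obtain ⟨k, b, hxk, hb⟩ := hf x hx
    refine ⟨k, b.erase i, ?_, ?_⟩
    · rw [hxk, Finsupp.erase_add]
    · have h2 : x i = a k i + b i := by rw [hxk, Finsupp.add_apply]
      by_cases hk : a k i = e
      · simp only [if_pos hk]
        refine le_trans (Nat.pow_le_pow_right (by omega) ?_) hb
        rw [Finsupp.support_erase]
        exact Finset.card_le_card (Finset.erase_subset _ _)
      · simp only [if_neg hk]
        have h3 : i ∈ b.support := by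
          rw [Finsupp.mem_support_iff]
          omega
        rw [Nat.le_div_iff_mul_le (by omega), Finsupp.support_erase, Finset.card_erase_of_mem h3,
          ← pow_succ]
        have h4 : 0 < b.support.card := Finset.card_pos.2 ⟨i, h3⟩
        rwa [Nat.sub_add_cancel h4]

theorem cov_zero (V : VanM F n) (hV : Coef V) (t : ℕ) : ∀ (N : ℕ) (f : MvPolynomial (Fin n) F)
    (Y : Finset (Fin n)), Cov N f → N * 3 ^ t < 4 ^ t → f ∈ V.I t Y → f = 0 := by
  classical
  induction t with
  | zero =>
    intro N f Y hf hN _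
    obtain ⟨ι, _, a, wt, hwt, hx⟩ := hf
    have hN0 : N = 0 := by simpa using hN
    by_contra hne
    obtain ⟨x, hxf⟩ := support_nonempty.2 hne
    obtain ⟨k, b, _, hb⟩ := hx x hxf
    have h1 : wt k ≤ ∑ k, wt k := Finset.single_le_sum (fun _ _ => Nat.zero_le _)
      (Finset.mem_univ k)
    have h2 : 0 < 2 ^ b.support.card := by positivity
    omega
  | succ t ih =>
    intro N f Y hf hN hmem
    by_contra hne
    by_cases hc : ∀ i, ∀ s1 ∈ f.support, ∀ s2 ∈ f.support, s1 i = s2 i
    · -- a monomial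
      obtain ⟨s0, hs0⟩ := support_nonempty.2 hne
      have h1 : f = monomial s0 (coeff s0 f) := by
        ext s
        rw [coeff_monomial]
        by_cases hs : s0 = s
        · rw [if_pos hs, hs]
        · rw [if_neg hs]
          by_contra h2
          apply hs
          ext i
          exact hc i s0 hs0 s (mem_support_iff.2 h2)
      rw [h1, monomial_eq] at hmem
      have hprime := V.prime (t + 1) Y
      rcases hprime.mem_or_mem hmem with h2 | h2
      · have h3 := V.supp (t + 1) Y _ (Subalgebra.algebraMap_mem _ _) h2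
        exact (mem_support_iff.1 hs0) (C_eq_zero.1 h3)
      · rw [Finsupp.prod, Ideal.IsPrime.prod_mem_iff] at h2
        obtain ⟨i, _, h2⟩ := h2
        have h3 := hprime.mem_of_pow_mem _ h2
        have h4 := V.free t Y i _ h3
        have h5 := V.supp t (insert i Y) _ (X_mem_supported.2 (by
          rw [Finset.mem_coe]; exact Finset.mem_insert_self _ _)) h4
        exact X_ne_zero i h5
    · push Not at hc
      obtain ⟨i, s1, h1, s2, h2, hne'⟩ := hc
      obtain ⟨ι, _, a, wt, hwt, hx⟩ := hf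
      have hsum : ∑ k, (if a k i = s1 i then wt k else 0) +
          ∑ k, (if a k i = s2 i then wt k else 0) ≤ N := by
        refine le_trans ?_ hwt
        rw [← Finset.sum_add_distrib]
        apply Finset.sum_le_sum
        intro k _
        split_ifs with h3 h4
        · exact absurd (h3.symm.trans h4) hne'
        · omega
        · omega
        · omega
      have key : ∀ s ∈ f.support, 2 * ∑ k, (if a k i = s i then wt k else 0) ≤ N → False := by
        intro s hs hle
        obtain ⟨N', hN', hcov⟩ := cov_xpart hwt hx hle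
        apply xpart_ne_zero f i hs
        refine ih N' _ (insert i Y) hcov ?_ ?_
        · rw [pow_succ, pow_succ] at hN
          have h5 : (4 * N') * 3 ^ t ≤ (3 * N) * 3 ^ t := Nat.mul_le_mul_right _ hN'
          nlinarith
        · obtain ⟨D, hD⟩ : ∃ D, ∀ s ∈ f.support, s i < D :=
            ⟨f.support.sup (fun s => s i) + 1, fun s hs =>
              Nat.lt_succ_of_le (Finset.le_sup (f := fun s : Fin n →₀ ℕ => s i) hs)⟩
          have h3 := V.free t Y i _ hmem
          rw [xpart_sum f i D hD] at h3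
          exact hV t (insert i Y) i (Finset.mem_insert_self _ _) D (fun e => xpart f i e)
            (fun e => xpart_mem f i e) h3 _ (hD s hs)
      by_cases h3 : 2 * ∑ k, (if a k i = s1 i then wt k else 0) ≤ N
      · exact key s1 h1 h3
      · exact key s2 h2 (by omega)

/-- every monomial is a product of one of few monomials and a monomial in few variables -/
def LS (s W : ℕ) (f : MvPolynomial (Fin n) F) : Prop :=
  ∃ A : Finset (Fin n →₀ ℕ), A.card ≤ 2 ^ (s * W) ∧
    ∀ x ∈ f.support, ∃ a ∈ A, ∃ b : Fin n →₀ ℕ, x = a + b ∧ b.support.card ≤ s * W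

variable {s W W' : ℕ} {f g : MvPolynomial (Fin n) F}

theorem LS.zero_of_mem {V : VanM F n} (hV : Coef V) (hs : 1 ≤ s) (hf : LS s W f)
    {Y : Finset (Fin n)} (hmem : f ∈ (V.scale s hs).I (5 * W + 1) Y) : f = 0 := by
  classical
  obtain ⟨A, hA, hx⟩ := hf
  have h1 : f ∈ V.I ((5 * W + 1) * s) Y := hmem
  have h2 : 5 * (s * W) + 1 ≤ (5 * W + 1) * s := by
    have : (5 * W + 1) * s = 5 * (s * W) + s := by ring
    omega
  refine cov_zero V hV (5 * (s * W) + 1) (4 ^ (s * W)) f Y ?_ ?_ (V.mono h2 _ h1)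
  · refine ⟨{a // a ∈ A}, inferInstance, fun a => a.1, fun _ => 2 ^ (s * W), ?_, ?_⟩
    · rw [Finset.sum_const, Finset.card_univ, Fintype.card_coe, smul_eq_mul]
      calc A.card * 2 ^ (s * W) ≤ 2 ^ (s * W) * 2 ^ (s * W) := Nat.mul_le_mul_right _ hA
        _ = 4 ^ (s * W) := by rw [← mul_pow]; norm_num
    · intro x hxf
      obtain ⟨a, ha, b, hab, hb⟩ := hx x hxf
      exact ⟨⟨a, ha⟩, b, hab, Nat.pow_le_pow_right (by omega) hb⟩
  · generalize s * W = q
    rw [pow_succ, pow_succ, pow_mul, pow_mul, ← mul_assoc, ← mul_pow]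
    norm_num
    calc 972 ^ q * 3 ≤ 1024 ^ q * 3 := Nat.mul_le_mul_right _ (Nat.pow_le_pow_left (by omega) _)
      _ < 1024 ^ q * 4 := by
          have : 0 < 1024 ^ q := by positivity
          omega

theorem LS.mono (hW : W ≤ W') (hf : LS s W f) : LS s W' f := by
  obtain ⟨A, hA, hx⟩ := hf
  refine ⟨A, hA.trans (Nat.pow_le_pow_right (by omega) (Nat.mul_le_mul_left _ hW)),
    fun x hxf => ?_⟩
  obtain ⟨a, ha, b, hab, hb⟩ := hx x hxf
  exact ⟨a, ha, b, hab, hb.trans (Nat.mul_le_mul_left _ hW)⟩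

theorem LS.of_support (h : f.support ⊆ g.support) (hg : LS s W g) : LS s W f := by
  obtain ⟨A, hA, hx⟩ := hg
  exact ⟨A, hA, fun x hxf => hx x (h hxf)⟩

theorem LS.const (y : F) : LS s W (C y : MvPolynomial (Fin n) F) := by
  classical
  refine ⟨{0}, by rw [Finset.card_singleton]; exact Nat.one_le_two_pow, fun x hx => ?_⟩
  have h1 := Finset.mem_singleton.1 (support_monomial_subset hx)
  exact ⟨0, Finset.mem_singleton_self _, 0, by rw [h1, add_zero], by simp⟩

theorem LS.mul (hf : LS s W f) (hg : LS s W' g) : LS s (W + W') (f * g) := by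
  classical
  obtain ⟨A, hA, hx⟩ := hf
  obtain ⟨A', hA', hx'⟩ := hg
  refine ⟨Finset.image₂ (· + ·) A A', ?_, ?_⟩
  · refine (Finset.card_image₂_le _ _ _).trans ((Nat.mul_le_mul hA hA').trans ?_)
    rw [← pow_add, mul_add]
  · intro x hxf
    obtain ⟨s1, h1, s2, h2, rfl⟩ := Finset.mem_add.1 (support_mul f g hxf)
    obtain ⟨a, ha, b, rfl, hb⟩ := hx s1 h1
    obtain ⟨a', ha', b', rfl, hb'⟩ := hx' s2 h2
    refine ⟨a + a', Finset.mem_image₂_of_mem ha ha', b + b', by abel, ?_⟩
    refine (Finset.card_le_card Finsupp.support_add).trans ((Finset.card_union_le _ _).trans ?_)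
    rw [mul_add]
    exact Nat.add_le_add hb hb'

theorem LS.sum {κ : Type} (hs : 1 ≤ s) {q : ℕ} (S : Finset κ) (hS : S.card ≤ q)
    {h : κ → MvPolynomial (Fin n) F} (hh : ∀ k ∈ S, LS s W (h k)) :
    LS s (W + q) (∑ k ∈ S, h k) := by
  classical
  choose! A hA hx using hh
  refine ⟨S.biUnion A, ?_, ?_⟩
  · refine Finset.card_biUnion_le.trans ?_
    calc ∑ k ∈ S, (A k).card ≤ ∑ _k ∈ S, 2 ^ (s * W) := Finset.sum_le_sum hA
      _ = S.card * 2 ^ (s * W) := by rw [Finset.sum_const, smul_eq_mul]
      _ ≤ 2 ^ (s * q) * 2 ^ (s * W) := by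
          apply Nat.mul_le_mul_right
          exact (hS.trans (Nat.lt_two_pow_self).le).trans
            (Nat.pow_le_pow_right (by omega) (Nat.le_mul_of_pos_left _ hs))
      _ = 2 ^ (s * (W + q)) := by rw [← pow_add]; congr 1; ring
  · intro x hxf
    obtain ⟨k, hk, hxk⟩ := Finset.mem_biUnion.1 (support_sum hxf)
    obtain ⟨a, ha, b, hab, hb⟩ := hx k hk x hxk
    exact ⟨a, Finset.mem_biUnion.2 ⟨k, hk, ha⟩, b, hab,
      hb.trans (Nat.mul_le_mul_left _ (Nat.le_add_right _ _))⟩

theorem LS.prod {κ : Type} (S : Finset κ) {h : κ → MvPolynomial (Fin n) F}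
    (hh : ∀ k ∈ S, LS s W (h k)) : LS s (S.card * W) (∏ k ∈ S, h k) := by
  classical
  induction S using Finset.induction_on with
  | empty =>
    rw [Finset.prod_empty, ← C_1]
    exact LS.const 1
  | insert k S hk ih =>
    rw [Finset.prod_insert hk, Finset.card_insert_of_notMem hk, add_mul, one_mul, add_comm]
    exact (hh k (Finset.mem_insert_self _ _)).mul (ih fun k' hk' =>
      hh k' (Finset.mem_insert_of_mem hk'))

theorem LS.det (hs : 1 ≤ s) {ρ Q : ℕ} (hρ : ρ ≤ Q)
    {M : Matrix (Fin ρ) (Fin ρ) (MvPolynomial (Fin n) F)} (hM : ∀ i j, LS s W (M i j)) :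
    LS s (Q * W + Q.factorial) M.det := by
  classical
  rw [Matrix.det_apply']
  refine LS.sum hs Finset.univ ?_ ?_
  · rw [Finset.card_univ, Fintype.card_perm, Fintype.card_fin]
    exact Nat.factorial_le hρ
  · intro τ _
    have h1 : LS s (Q * W) (∏ i, M (τ i) i) := by
      refine (LS.prod Finset.univ fun i _ => hM _ _).mono ?_
      rw [Finset.card_univ, Fintype.card_fin]
      exact Nat.mul_le_mul_right _ hρ
    refine LS.of_support ?_ h1
    have h2 : ((Equiv.Perm.sign τ : ℤ) : MvPolynomial (Fin n) F) =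
        C ((Equiv.Perm.sign τ : ℤ) : F) := by
      rw [map_intCast]
    rw [h2]
    intro x hx
    rw [MvPolynomial.mem_support_iff, coeff_C_mul] at hx
    exact MvPolynomial.mem_support_iff.2 (right_ne_zero_of_mul hx)

theorem LS.pderiv (hs : 1 ≤ s) (hf : LS s W f) (k : Fin n) :
    LS s (W + 1) (MvPolynomial.pderiv k f) := by
  classical
  obtain ⟨A, hA, hx⟩ := hf
  refine ⟨A ∪ A.image (fun a => a - Finsupp.single k 1), ?_, ?_⟩
  · refine (Finset.card_union_le _ _).trans ?_
    have h1 : (A.image (fun a => a - Finsupp.single k 1)).card ≤ A.card := Finset.card_image_le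
    calc A.card + (A.image (fun a => a - Finsupp.single k 1)).card
        ≤ 2 ^ 1 * 2 ^ (s * W) := by omega
      _ ≤ 2 ^ s * 2 ^ (s * W) := Nat.mul_le_mul_right _ (Nat.pow_le_pow_right (by omega) hs)
      _ = 2 ^ (s * (W + 1)) := by rw [← pow_add]; congr 1; ring
  · intro x hxf
    rw [MvPolynomial.mem_support_iff, coeff_pderiv] at hxf
    have h1 : coeff (x + Finsupp.single k 1) f ≠ 0 := left_ne_zero_of_mul hxf
    obtain ⟨a, ha, b, hab, hb⟩ := hx _ (MvPolynomial.mem_support_iff.2 h1)
    have hle : s * W ≤ s * (W + 1) := Nat.mul_le_mul_left _ (Nat.le_succ W)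
    have hk := DFunLike.congr_fun hab k
    rw [Finsupp.add_apply, Finsupp.add_apply, Finsupp.single_eq_same] at hk
    by_cases hbk : b k = 0
    · refine ⟨a - Finsupp.single k 1, Finset.mem_union_right _ (Finset.mem_image_of_mem _ ha), b,
        ?_, hb.trans hle⟩
      ext i
      have hi := DFunLike.congr_fun hab i
      rw [Finsupp.add_apply, Finsupp.add_apply] at hi
      rw [Finsupp.add_apply, Finsupp.tsub_apply]
      by_cases hik : i = k
      · subst hik
        rw [Finsupp.single_eq_same] at hi ⊢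
        omega
      · rw [Finsupp.single_apply, if_neg (Ne.symm hik)] at hi ⊢
        omega
    · refine ⟨a, Finset.mem_union_left _ ha, b - Finsupp.single k 1, ?_, ?_⟩
      · ext i
        have hi := DFunLike.congr_fun hab i
        rw [Finsupp.add_apply, Finsupp.add_apply] at hi
        rw [Finsupp.add_apply, Finsupp.tsub_apply]
        by_cases hik : i = k
        · subst hik
          rw [Finsupp.single_eq_same] at hi ⊢
          omega
        · rw [Finsupp.single_apply, if_neg (Ne.symm hik)] at hi ⊢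
          omega
      · refine le_trans (Finset.card_le_card ?_) (hb.trans hle)
        intro i hi
        rw [Finsupp.mem_support_iff, Finsupp.tsub_apply] at hi
        rw [Finsupp.mem_support_iff]
        omega

end scale

section base

/-- the base family -/
def baseFam (F : Type v) [Field F] [CharZero F] : Fam F where
  Ok σ n := {V' | ∃ V : VanM F n, Coef V ∧ V' = V.scale (σ + 1) (Nat.le_add_left 1 σ)}
  K σ n W := {f | Pol {g : MvPolynomial (Fin n) F | LS (σ + 1) W g} W f}
  mono := fun hW f hf => Pol.mono (fun g hg => LS.mono hW hg) hW hf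
  comb k W := k * W + W
  comb_mem := by
    intro σ n W k ι _ g f hι hg hf
    exact Pol.mono (fun g hg => LS.mono (Nat.le_add_left _ _) hg) (Nat.le_add_right _ _)
      (Pol.comb hι hg hf)
  der W := 2 * W + 1
  der_mem := by
    classical
    intro σ n W k f hf
    obtain ⟨ι, _, A, hc, hA, hf⟩ := hf
    refine ⟨ι ⊕ ι, inferInstance, Sum.elim A (fun i => MvPolynomial.pderiv k (A i)), ?_, ?_, ?_⟩
    · rw [Fintype.card_sum]; omega
    · rintro (i | i)
      · exact LS.mono (by omega) (hA i)
      · exact LS.mono (by omega) (LS.pderiv (Nat.le_add_left 1 σ) (hA i) k)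
    · refine pderiv_mem_of_adjoin k ?_ ?_ hf
      · rintro _ ⟨i, rfl⟩
        exact Algebra.subset_adjoin ⟨Sum.inl i, rfl⟩
      · rintro _ ⟨i, rfl⟩
        exact Algebra.subset_adjoin ⟨Sum.inr i, rfl⟩
  seeds W := by
    classical
    refine ⟨5 * (W * (W + 1) + W.factorial) + 1 + W, ?_⟩
    rintro σ n V' ⟨V, hV, rfl⟩ f hf Y hmem
    obtain ⟨ι, _, T, hc, hT, hf⟩ := hf
    set g : Fin (Fintype.card ι) → MvPolynomial (Fin n) F :=
      fun i => T ((Fintype.equivFin ι).symm i) with hg
    have hr : Set.range g = Set.range T := (Fintype.equivFin ι).symm.surjective.range_comp T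
    rw [← hr, Algebra.adjoin_range_eq_range_aeval] at hf
    obtain ⟨Φ, hΦ⟩ := hf
    have hΦ' : aeval g Φ = f := hΦ
    rw [← hΦ'] at hmem ⊢
    refine comp_zero (V.scale (σ + 1) (Nat.le_add_left 1 σ)) g W _ (not_algIndep_of_lt hc g) ?_ Φ Y hmem
    intro ρ κ g' hρ hdet Y' hY'
    apply hdet
    refine LS.zero_of_mem hV (Nat.le_add_left 1 σ) ?_ hY'
    exact LS.det (Nat.le_add_left 1 σ) hρ fun q l => LS.pderiv (Nat.le_add_left 1 σ) (hT _) _

end base

section std

variable {F : Type*} [Field F] [CharZero F] {n : ℕ} (a : Fin n → F)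

theorem stdVan_coef (ha : Function.Injective a) : Coef (stdVan a ha) := by
  intro j Z i0 hi0 D c hc h e he
  exact sb_coeff _ (Z := Z ∪ ∅) (Finset.mem_union_left _ hi0) D c hc h e he

end std

end Pool.Agent.H530R2
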