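import Mathlib
import Pool.Agent.H530R2.Rdk6
import Pool.Agent.H626R2.Loc.FDefs

/-!
Coefficients of linear programs with respect to few variables.
-/

namespace Pool.Agent.H530R2

open MvPolynomial Module

section gn

variable {F : Type} [Field F] {n : ℕ}

/-- generated by the variables in `A` and at most `c` members of `T` without variables of `A` -/
def Gn (T : Set (MvPolynomial (Fin n) F)) (A : Finset (Fin n)) (c : ℕ)
    (g : MvPolynomial (Fin n) F) : Prop :=
  ∃ G : Set (MvPolynomial (Fin n) F), G.Finite ∧ G.ncard ≤ c ∧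
    (∀ x ∈ G, x ∈ T ∧ x ∈ supported F {k : Fin n | k ∉ A}) ∧
    g ∈ Algebra.adjoin F (X '' (A : Set (Fin n)) ∪ G)

variable {T T' : Set (MvPolynomial (Fin n) F)} {A : Finset (Fin n)} {c c' : ℕ}
  {g : MvPolynomial (Fin n) F}

theorem Gn.mono (hT : T ⊆ T') (hc : c ≤ c') (h : Gn T A c g) : Gn T' A c' g := by
  obtain ⟨G, hG, hGc, hGT, hg⟩ := h
  exact ⟨G, hG, hGc.trans hc, fun x hx => ⟨hT (hGT x hx).1, (hGT x hx).2⟩, hg⟩

/-- members of `T` without variables of `A` -/
theorem Gn.self (hT : g ∈ T) (hA : g ∈ supported F {k : Fin n | k ∉ A}) (hc : 1 ≤ c) :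
    Gn T A c g := by
  refine ⟨{g}, Set.finite_singleton _, by rw [Set.ncard_singleton]; exact hc, ?_,
    Algebra.subset_adjoin (Or.inr rfl)⟩
  rintro x rfl
  exact ⟨hT, hA⟩

theorem Gn.supp (hA : g ∈ supported F (A : Set (Fin n))) : Gn T A c g := by
  refine ⟨∅, Set.finite_empty, by simp, fun x hx => absurd hx (Set.notMem_empty x), ?_⟩
  rw [Set.union_empty]
  exact hA

/-- polynomials in several polynomials -/
theorem Gn.comb {ι : Type} [Fintype ι] {h : ι → MvPolynomial (Fin n) F} {e : ℕ}
    (hι : Fintype.card ι ≤ e) (hh : ∀ i, Gn T A c (h i))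
    (hg : g ∈ Algebra.adjoin F (Set.range h)) : Gn T A (e * c) g := by
  classical
  choose G hG hGc hGT hgG using hh
  refine ⟨⋃ i, G i, Set.finite_iUnion hG, ?_, ?_, ?_⟩
  · have h1 : (⋃ i, G i).ncard ≤ ∑ i, (G i).ncard := by
      have h2 := Set.ncard_iUnion_le_of_fintype (fun i => G i)
      exact h2
    refine h1.trans ?_
    calc ∑ i, (G i).ncard ≤ ∑ _i : ι, c := Finset.sum_le_sum fun i _ => hGc i
      _ = Fintype.card ι * c := by rw [Finset.sum_const, Finset.card_univ, smul_eq_mul]
      _ ≤ e * c := Nat.mul_le_mul_right _ hι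
  · intro x hx
    obtain ⟨i, hi⟩ := Set.mem_iUnion.1 hx
    exact hGT i x hi
  · refine (Algebra.adjoin_le ?_) hg
    rintro _ ⟨i, rfl⟩
    refine Algebra.adjoin_mono ?_ (hgG i)
    exact Set.union_subset_union_right _ (Set.subset_iUnion G i)

theorem Gn.finCoef {k : ℕ} (h0 : (0 : MvPolynomial (Fin n) F) ∈ T)
    (h : ∀ A : Finset (Fin n), A.card ≤ k → Gn T A c g) :
    Pool.Agent.H626R2.Loc.FinCoef k c T g := by
  classical
  intro r hr s hs
  obtain ⟨G, hG, hGc, hGT, hg⟩ := h (Finset.univ.image s)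
    (Finset.card_image_le.trans (by rw [Finset.card_univ, Fintype.card_fin]; exact hr))
  have hfin := hG.fintype
  obtain ⟨e⟩ : Nonempty (G ↪ Fin c) := by
    rw [Function.Embedding.nonempty_iff_card_le, Fintype.card_fin, ← Nat.card_eq_fintype_card]
    exact hGc
  set Φ : Fin c → MvPolynomial (Fin n) F := Function.extend e (fun x => (x : MvPolynomial _ F)) 0
    with hΦ
  have hmem : ∀ i, Φ i ∈ T ∧ Φ i ∈ supported F {k : Fin n | k ∉ Finset.univ.image s} := by
    intro i
    by_cases hi : ∃ x, e x = i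
    · obtain ⟨x, rfl⟩ := hi
      rw [hΦ, e.injective.extend_apply]
      exact hGT x x.2
    · rw [hΦ, Function.extend_apply' _ _ _ hi]
      exact ⟨h0, Subalgebra.zero_mem _⟩
  have hg2 : g ∈ Algebra.adjoin F (Set.range (Sum.elim (fun b => X (s b)) Φ)) := by
    refine Algebra.adjoin_mono ?_ hg
    rw [Set.Sum.elim_range]
    apply Set.union_subset_union
    · rintro _ ⟨i, hi, rfl⟩
      obtain ⟨b, _, rfl⟩ := Finset.mem_image.1 (Finset.mem_coe.1 hi)
      exact ⟨b, rfl⟩
    · intro x hx
      exact ⟨e ⟨x, hx⟩, by rw [hΦ, e.injective.extend_apply]⟩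
  rw [Algebra.adjoin_range_eq_range_aeval] at hg2
  obtain ⟨P, hP⟩ := hg2
  refine ⟨Φ, P, fun i => (hmem i).1, ?_, hP.symm⟩
  intro i b hb
  have h1 := mem_supported.1 (hmem i).2 (Finset.mem_coe.2 hb)
  exact h1 (Finset.mem_image_of_mem _ (Finset.mem_univ _))

end gn

section lin

variable {F : Type} [Field F] {n u : ℕ}

/-- the contents of the registers of a linear program -/
noncomputable def lin (c₀ : Fin u → MvPolynomial (Fin n) F)
    (M : ℕ → Matrix (Fin u) (Fin u) (MvPolynomial (Fin n) F)) :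
    ℕ → Fin u → MvPolynomial (Fin n) F
  | 0 => c₀
  | b + 1 => Matrix.vecMul (lin c₀ M b) (M b)

theorem lin_succ (c₀ : Fin u → MvPolynomial (Fin n) F)
    (M : ℕ → Matrix (Fin u) (Fin u) (MvPolynomial (Fin n) F)) (b : ℕ) (j : Fin u) :
    lin c₀ M (b + 1) j = ∑ i, lin c₀ M b i * M b i j := by
  simp only [lin, Matrix.vecMul, dotProduct]

/-- a later time -/
theorem lin_add (c₀ : Fin u → MvPolynomial (Fin n) F)
    (M : ℕ → Matrix (Fin u) (Fin u) (MvPolynomial (Fin n) F)) (a t : ℕ) (j : Fin u) :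
    lin c₀ M (a + t) j =
      ∑ i, lin c₀ M a i * lin (Pi.single i 1) (fun b => M (a + b)) t j := by
  classical
  induction t generalizing j with
  | zero =>
    simp only [lin, Nat.add_zero]
    rw [Finset.sum_eq_single j]
    · rw [Pi.single_eq_same, mul_one]
    · intro i _ hij
      rw [Pi.single_eq_of_ne (Ne.symm hij), mul_zero]
    · intro h
      exact absurd (Finset.mem_univ j) h
  | succ t ih =>
    rw [← Nat.add_assoc, lin_succ]
    simp only [ih, lin_succ, Finset.mul_sum, Finset.sum_mul]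
    rw [Finset.sum_comm]
    apply Finset.sum_congr rfl
    intro i _
    apply Finset.sum_congr rfl
    intro q _
    rw [mul_assoc]

theorem lin_supp (c₀ : Fin u → MvPolynomial (Fin n) F)
    (M : ℕ → Matrix (Fin u) (Fin u) (MvPolynomial (Fin n) F)) (S : Set (Fin n)) (t : ℕ)
    (h0 : ∀ i, c₀ i ∈ supported F S) (hM : ∀ b < t, ∀ i j, M b i j ∈ supported F S) (j : Fin u) :
    lin c₀ M t j ∈ supported F S := by
  induction t generalizing j with
  | zero => exact h0 j
  | succ t ih =>
    rw [lin_succ]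
    refine Subalgebra.sum_mem _ fun i _ => Subalgebra.mul_mem _ ?_ (hM t (Nat.lt_succ_self t) i j)
    exact ih (fun b hb => hM b (by omega)) i

end lin

section seg

variable {F : Type} [Field F] {𝔎 : Fam F} {σ n u : ℕ}

/-- the variables of a matrix -/
noncomputable def mv (M : Matrix (Fin u) (Fin u) (MvPolynomial (Fin n) F)) : Finset (Fin n) := by
  classical
  exact Finset.univ.biUnion fun ij : Fin u × Fin u => (M ij.1 ij.2).vars

theorem mem_mv {M : Matrix (Fin u) (Fin u) (MvPolynomial (Fin n) F)} {k : Fin n} :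
    k ∈ mv M ↔ ∃ i j, k ∈ (M i j).vars := by
  classical
  unfold mv
  simp only [Finset.mem_biUnion, Finset.mem_univ, true_and, Prod.exists]

theorem mv_supp (M : Matrix (Fin u) (Fin u) (MvPolynomial (Fin n) F)) (i j : Fin u) :
    M i j ∈ supported F (mv M : Set (Fin n)) := by
  rw [mem_supported]
  intro k hk
  exact Finset.mem_coe.2 (mem_mv.2 ⟨i, j, Finset.mem_coe.1 hk⟩)

/-- linear programs are programs -/
theorem lin_reg {W : ℕ} {c₀ : Fin u → MvPolynomial (Fin n) F} (hc : ∀ i, ∃ y, c₀ i = C y)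
    {M : ℕ → Matrix (Fin u) (Fin u) (MvPolynomial (Fin n) F)}
    (hM : ∀ b i j, M b i j ∈ 𝔎.K σ n W) :
    RegK 𝔎 σ (fun b => mv (M b)) W (lin c₀ M) (fun b (ij : Fin u × Fin u) => M b ij.1 ij.2) := by
  refine ⟨hc, fun b ij => hM b _ _, fun b ij => mv_supp _ _ _, fun b j => ?_⟩
  rw [lin_succ]
  refine Subalgebra.sum_mem _ fun i _ => Subalgebra.mul_mem _ ?_ ?_
  · exact Algebra.subset_adjoin (Or.inl ⟨i, rfl⟩)
  · exact Algebra.subset_adjoin (Or.inr ⟨(i, j), rfl⟩)

theorem lin_out {W W' κ : ℕ} {c₀ : Fin u → MvPolynomial (Fin n) F} (hc : ∀ i, ∃ y, c₀ i = C y)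
    {M : ℕ → Matrix (Fin u) (Fin u) (MvPolynomial (Fin n) F)}
    (hM : ∀ b i j, M b i j ∈ 𝔎.K σ n W) (R : ℕ)
    (hκ : ∀ i, ((Finset.range R).filter fun b => i ∈ mv (M b)).card ≤ κ)
    (hW : W ≤ W') (hu : u * u ≤ W') (hκW : κ ≤ W') {f : MvPolynomial (Fin n) F}
    (hf : f ∈ Algebra.adjoin F (Set.range (lin c₀ M R))) : f ∈ (𝔎.next).K σ n W' := by
  have hreg := lin_reg (𝔎 := 𝔎) (σ := σ) (W := W + 𝔎.c0) hc
    (fun b i j => 𝔎.mono (Nat.le_add_right _ _) (hM b i j))
  have huu : u ≤ u * u := by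
    rcases Nat.eq_zero_or_pos u with h | h
    · subst h; simp
    · exact Nat.le_mul_of_pos_left _ h
  refine Out.ofReg (hreg.trunc (Nat.le_add_left _ _) R) (by omega) ?_ ?_
    ⟨∅, by simp, fun i _ t => ?_⟩ (R := R) ?_
  · rw [Fintype.card_fin]; omega
  · rw [Fintype.card_prod, Fintype.card_fin]; omega
  · exact (cnt_trunc _ R t i).trans ((hκ i).trans hκW)
  · simp only [min_self]
    exact hf

/-- the coefficients of a linear program with respect to the variables in `A` -/
theorem Gn.lin {W W' κ k c : ℕ} {c₀ : Fin u → MvPolynomial (Fin n) F}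
    (hc : ∀ i, ∃ y, c₀ i = C y)
    {M : ℕ → Matrix (Fin u) (Fin u) (MvPolynomial (Fin n) F)}
    (hM : ∀ b i j, M b i j ∈ 𝔎.K σ n W) (R : ℕ)
    (hκ : ∀ i, ((Finset.range R).filter fun b => i ∈ mv (M b)).card ≤ κ)
    (hW : W ≤ W') (hu : u * u ≤ W') (hκW : κ ≤ W') (hW1 : 1 ≤ W')
    {A : Finset (Fin n)} (hA : A.card ≤ k)
    (hcoef : ∀ b i j, Gn (𝔎.K σ n W) A c (M b i j)) {f : MvPolynomial (Fin n) F}
    (hf : f ∈ Algebra.adjoin F (Set.range (lin c₀ M R))) :
    Gn ((𝔎.next).K σ n W') A ((k * κ) * (u * u + u * u * c) + u * u) f := by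
  classical
  set T := (𝔎.next).K σ n W' with hT
  set al : ℕ → ℕ := fun t => ((Finset.range t).filter fun b => ¬ Disjoint A (mv (M b))).card
    with hal
  -- entries of segments
  have hseg : ∀ a t, a + t ≤ R → (∀ b, a ≤ b → b < a + t → Disjoint A (mv (M b))) →
      ∀ i j, H530R2.lin (Pi.single i 1) (fun b => M (a + b)) t j ∈ T ∧
        H530R2.lin (Pi.single i 1) (fun b => M (a + b)) t j ∈ supported F {k : Fin n | k ∉ A} := by
    intro a t hat hdis i j
    have hs0 : ∀ l : Fin u, ∃ y : F, (Pi.single i 1 : Fin u → MvPolynomial (Fin n) F) l = C y := by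
      intro l
      by_cases h : l = i
      · subst h
        exact ⟨1, by rw [Pi.single_eq_same, C_1]⟩
      · exact ⟨0, by rw [Pi.single_eq_of_ne h, C_0]⟩
    constructor
    · refine lin_out (κ := κ) hs0 (fun b => hM (a + b)) t ?_ hW hu hκW
        (Algebra.subset_adjoin ⟨j, rfl⟩)
      intro i'
      refine le_trans ?_ (hκ i')
      refine Finset.card_le_card_of_injOn (fun b => a + b) ?_ ?_
      · intro b hb
        have hb' := Finset.mem_filter.1 (Finset.mem_coe.1 hb)
        have hb1 := Finset.mem_range.1 hb'.1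
        exact Finset.mem_coe.2 (Finset.mem_filter.2
          ⟨Finset.mem_range.2 (show a + b < R by omega), hb'.2⟩)
      · intro b _ b' _ h
        simpa using h
    · refine lin_supp _ _ _ t ?_ ?_ j
      · intro l
        obtain ⟨y, hy⟩ := hs0 l
        rw [hy]
        exact Subalgebra.algebraMap_mem _ _
      · intro b hb i' j'
        refine supported_mono ?_ (mv_supp (M (a + b)) i' j')
        intro x hx hxA
        exact Finset.disjoint_left.1 (hdis (a + b) (by omega) (by omega)) hxA
          (Finset.mem_coe.1 hx)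
  have key : ∀ t, t ≤ R → ∃ a ≤ t, (∀ b, a ≤ b → b < t → Disjoint A (mv (M b))) ∧
      ∃ G : Set (MvPolynomial (Fin n) F), G.Finite ∧
        G.ncard ≤ al t * (u * u + u * u * c) ∧
        (∀ x ∈ G, x ∈ T ∧ x ∈ supported F {k : Fin n | k ∉ A}) ∧
        ∀ j, H530R2.lin c₀ M a j ∈ Algebra.adjoin F (X '' (A : Set (Fin n)) ∪ G) := by
    intro t
    induction t with
    | zero =>
      intro _
      refine ⟨0, le_rfl, fun b _ hb => absurd hb (Nat.not_lt_zero _), ∅, Set.finite_empty,
        by simp, fun x hx => absurd hx (Set.notMem_empty x), ?_⟩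
      intro j
      obtain ⟨y, hy⟩ := hc j
      show c₀ j ∈ _
      rw [hy]
      exact Subalgebra.algebraMap_mem _ _
    | succ t ih =>
      intro ht
      obtain ⟨a, hat, hdis, G, hG, hGc, hGT, hlin⟩ := ih (by omega)
      have hal1 : al (t + 1) = al t + if ¬ Disjoint A (mv (M t)) then 1 else 0 := by
        simp only [hal]
        rw [Finset.range_add_one, Finset.filter_insert]
        by_cases h : Disjoint A (mv (M t))
        · rw [if_neg (not_not.2 h), if_neg (not_not.2 h), Nat.add_zero]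
        · rw [if_pos h, if_pos h, Finset.card_insert_of_notMem (by simp)]
      by_cases hd : Disjoint A (mv (M t))
      · refine ⟨a, by omega, ?_, G, hG, ?_, hGT, hlin⟩
        · intro b hab hbt
          rcases Nat.lt_succ_iff_lt_or_eq.1 hbt with h | h
          · exact hdis b hab h
          · rw [h]; exact hd
        · rw [hal1, if_neg (not_not.2 hd), Nat.add_zero]
          exact hGc
      · -- an alive step
        choose Γ hΓ hΓc hΓT hΓg using hcoef
        obtain ⟨d, rfl⟩ := Nat.exists_eq_add_of_le hat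
        set G1 : Set (MvPolynomial (Fin n) F) := Set.range fun ij : Fin u × Fin u =>
          H530R2.lin (Pi.single ij.1 1) (fun b => M (a + b)) d ij.2 with hG1
        set G2 : Set (MvPolynomial (Fin n) F) :=
          ⋃ ij : Fin u × Fin u, Γ (a + d) ij.1 ij.2 with hG2
        have hs := hseg a d (by omega) hdis
        refine ⟨a + d + 1, le_rfl, fun b h1 h2 => absurd h2 (by omega), G ∪ (G1 ∪ G2), ?_, ?_,
          ?_, ?_⟩
        · exact hG.union ((Set.finite_range _).union (Set.finite_iUnion fun ij => hΓ _ _ _))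
        · rw [hal1, if_pos hd, add_mul, one_mul]
          refine (Set.ncard_union_le _ _).trans (Nat.add_le_add hGc ?_)
          refine (Set.ncard_union_le _ _).trans (Nat.add_le_add ?_ ?_)
          · have h1 : G1.ncard ≤ Fintype.card (Fin u × Fin u) := by
              rw [← Nat.card_eq_fintype_card]
              exact Finite.card_range_le _
            rwa [Fintype.card_prod, Fintype.card_fin] at h1
          · have h2 : G2.ncard ≤ ∑ ij : Fin u × Fin u, (Γ (a + d) ij.1 ij.2).ncard :=
              Set.ncard_iUnion_le_of_fintype _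
            refine h2.trans ?_
            calc ∑ ij : Fin u × Fin u, (Γ (a + d) ij.1 ij.2).ncard
                ≤ ∑ _ij : Fin u × Fin u, c := Finset.sum_le_sum fun ij _ => hΓc _ _ _
              _ = u * u * c := by
                rw [Finset.sum_const, Finset.card_univ, Fintype.card_prod, Fintype.card_fin,
                  smul_eq_mul]
        · rintro x (hx | ⟨ij, rfl⟩ | hx)
          · exact hGT x hx
          · exact hs ij.1 ij.2
          · obtain ⟨ij, hij⟩ := Set.mem_iUnion.1 hx
            exact ⟨𝔎.toNext hW hW1 (hΓT _ _ _ x hij).1, (hΓT _ _ _ x hij).2⟩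
        · intro j
          rw [lin_succ]
          refine Subalgebra.sum_mem _ fun l _ => Subalgebra.mul_mem _ ?_ ?_
          · rw [lin_add]
            refine Subalgebra.sum_mem _ fun i _ => Subalgebra.mul_mem _ ?_ ?_
            · exact Algebra.adjoin_mono (Set.union_subset_union_right _ Set.subset_union_left)
                (hlin i)
            · exact Algebra.subset_adjoin (Or.inr (Or.inr (Or.inl ⟨(i, l), rfl⟩)))
          · refine Algebra.adjoin_mono (Set.union_subset_union_right _ ?_) (hΓg (a + d) l j)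
            refine Set.Subset.trans ?_ (Set.subset_union_right.trans Set.subset_union_right)
            exact Set.subset_iUnion (fun ij : Fin u × Fin u => Γ (a + d) ij.1 ij.2) (l, j)
  obtain ⟨a, haR, hdis, G, hG, hGc, hGT, hlin⟩ := key R le_rfl
  obtain ⟨d, hd⟩ := Nat.exists_eq_add_of_le haR
  have hs := hseg a d (by omega) (by rw [← hd]; exact hdis)
  have halR : al R ≤ k * κ := by
    have h1 : (Finset.range R).filter (fun b => ¬ Disjoint A (mv (M b))) ⊆
        A.biUnion fun i => (Finset.range R).filter fun b => i ∈ mv (M b) := by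
      intro b hb
      obtain ⟨hb1, hb2⟩ := Finset.mem_filter.1 hb
      rw [Finset.not_disjoint_iff] at hb2
      obtain ⟨i, hi1, hi2⟩ := hb2
      exact Finset.mem_biUnion.2 ⟨i, hi1, Finset.mem_filter.2 ⟨hb1, hi2⟩⟩
    refine (Finset.card_le_card h1).trans (Finset.card_biUnion_le.trans ?_)
    calc ∑ i ∈ A, ((Finset.range R).filter fun b => i ∈ mv (M b)).card ≤ ∑ _i ∈ A, κ :=
          Finset.sum_le_sum fun i _ => hκ i
      _ = A.card * κ := by rw [Finset.sum_const, smul_eq_mul]
      _ ≤ k * κ := Nat.mul_le_mul_right _ hA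
  set G1 : Set (MvPolynomial (Fin n) F) := Set.range fun ij : Fin u × Fin u =>
    H530R2.lin (Pi.single ij.1 1) (fun b => M (a + b)) d ij.2 with hG1
  refine ⟨G ∪ G1, hG.union (Set.finite_range _), ?_, ?_, ?_⟩
  · refine (Set.ncard_union_le _ _).trans (Nat.add_le_add (hGc.trans
      (Nat.mul_le_mul_right _ halR)) ?_)
    have h1 : G1.ncard ≤ Fintype.card (Fin u × Fin u) := by
      rw [← Nat.card_eq_fintype_card]
      exact Finite.card_range_le _
    rwa [Fintype.card_prod, Fintype.card_fin] at h1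
  · rintro x (hx | ⟨ij, rfl⟩)
    · exact hGT x hx
    · exact hs ij.1 ij.2
  · refine (Algebra.adjoin_le ?_) hf
    rintro _ ⟨j, rfl⟩
    rw [hd]
    show H530R2.lin c₀ M (a + d) j ∈ _
    rw [lin_add]
    refine Subalgebra.sum_mem _ fun i _ => Subalgebra.mul_mem _ ?_ ?_
    · exact Algebra.adjoin_mono (Set.union_subset_union_right _ Set.subset_union_left) (hlin i)
    · exact Algebra.subset_adjoin (Or.inr (Or.inr ⟨(i, j), rfl⟩))

end seg

end Pool.Agent.H530R2
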