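import Mathlib
import Pool.Agent.H530R2.Seg1
import Pool.Agent.H626R2.Loc.FMain

/-!
Jacobian determinants of members of the classes, coefficients of the leaves.
-/

namespace Pool.Agent.H530R2

open MvPolynomial Module

section leaf

variable {F : Type} [Field F] {n : ℕ}

open Classical in
/-- the part of `f` with exponents `a` on `A` -/
noncomputable def cpart (f : MvPolynomial (Fin n) F) (A : Finset (Fin n)) (a : Fin n →₀ ℕ) :
    MvPolynomial (Fin n) F :=
  ∑ e ∈ f.support.filter (fun e => e.filter (fun i => i ∈ A) = a),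
    monomial (e.filter (fun i => i ∉ A)) (coeff e f)

open Classical in
theorem cpart_sum (f : MvPolynomial (Fin n) F) (A : Finset (Fin n)) :
    f = ∑ a ∈ f.support.image (fun e => e.filter (fun i => i ∈ A)),
      monomial a 1 * cpart f A a := by
  have h1 : f = ∑ e ∈ f.support, monomial e (coeff e f) := f.support_sum_monomial_coeff.symm
  conv_lhs => rw [h1]
  rw [← Finset.sum_fiberwise_of_maps_to (g := fun e : Fin n →₀ ℕ => e.filter (fun i => i ∈ A))
    (t := f.support.image (fun e => e.filter (fun i => i ∈ A)))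
    (fun e he => Finset.mem_image_of_mem _ he)]
  apply Finset.sum_congr rfl
  intro a _
  unfold cpart
  rw [Finset.mul_sum]
  apply Finset.sum_congr rfl
  intro e he
  have h2 := (Finset.mem_filter.1 he).2
  rw [monomial_mul, one_mul]
  have h3 : e = a + e.filter (fun i => i ∉ A) := by
    rw [← h2]
    exact (Finsupp.filter_add_filter_not e (fun i => i ∈ A)).symm
  exact congrArg (fun z => monomial z (coeff e f)) h3

open Classical in
theorem cpart_supported (f : MvPolynomial (Fin n) F) (A : Finset (Fin n)) (a : Fin n →₀ ℕ) :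
    cpart f A a ∈ supported F {k : Fin n | k ∉ A} := by
  unfold cpart
  refine Subalgebra.sum_mem _ fun e _ => ?_
  rw [mem_supported]
  intro k hk
  by_cases hc : coeff e f = 0
  · rw [hc, monomial_zero] at hk
    simp at hk
  · rw [vars_monomial hc, Finset.mem_coe, Finsupp.mem_support_iff] at hk
    intro hkA
    apply hk
    rw [Finsupp.filter_apply, if_neg (not_not.2 hkA)]

open Classical in
theorem LS.cpart {s W : ℕ} {f : MvPolynomial (Fin n) F} (hf : LS s W f) (A : Finset (Fin n))
    (a : Fin n →₀ ℕ) : LS s W (cpart f A a) := by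
  obtain ⟨B, hB, hx⟩ := hf
  refine ⟨B.image (fun e => e.filter (fun i => i ∉ A)), Finset.card_image_le.trans hB, ?_⟩
  intro x hx'
  unfold H530R2.cpart at hx'
  obtain ⟨e, he, hxe⟩ := Finset.mem_biUnion.1 (support_sum hx')
  have h1 := Finset.mem_singleton.1 (support_monomial_subset hxe)
  obtain ⟨a', ha', b, hab, hb⟩ := hx e (Finset.mem_filter.1 he).1
  refine ⟨_, Finset.mem_image_of_mem _ ha', b.filter (fun i => i ∉ A), ?_, ?_⟩
  · rw [h1, hab, Finsupp.filter_add]
  · refine (Finset.card_le_card ?_).trans hb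
    rw [Finsupp.support_filter]
    exact Finset.filter_subset _ _

open Classical in
/-- coefficients of a polynomial with few exponents of every variable -/
theorem leaf_gn {s W w k : ℕ} {f : MvPolynomial (Fin n) F} (hf : LS s W f)
    (hw : ∀ i, (f.support.image fun a => a i).card ≤ w) {A : Finset (Fin n)} (hA : A.card ≤ k) :
    Gn {g : MvPolynomial (Fin n) F | LS s W g} A ((w + 1) ^ k) f := by
  set E := f.support.image (fun e => e.filter (fun i => i ∈ A)) with hE
  have hEc : E.card ≤ (w + 1) ^ k := by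
    have h1 : E.card ≤ (Fintype.piFinset fun i : {i // i ∈ A} =>
        f.support.image fun a => a i.1).card := by
      refine Finset.card_le_card_of_injOn (fun a i => a i.1) ?_ ?_
      · intro a ha
        obtain ⟨e, he, rfl⟩ := Finset.mem_image.1 (Finset.mem_coe.1 ha)
        refine Finset.mem_coe.2 (Fintype.mem_piFinset.2 fun i => Finset.mem_image.2 ⟨e, he, ?_⟩)
        show e i.1 = (e.filter fun i => i ∈ A) i.1
        rw [Finsupp.filter_apply, if_pos i.2]
      · intro a ha b hb hab
        obtain ⟨e, he, rfl⟩ := Finset.mem_image.1 (Finset.mem_coe.1 ha)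
        obtain ⟨e', he', rfl⟩ := Finset.mem_image.1 (Finset.mem_coe.1 hb)
        ext i
        by_cases hi : i ∈ A
        · exact congrFun hab ⟨i, hi⟩
        · rw [Finsupp.filter_apply, Finsupp.filter_apply, if_neg hi, if_neg hi]
    refine h1.trans ?_
    rw [Fintype.card_piFinset]
    calc ∏ i : {i // i ∈ A}, (f.support.image fun a => a i.1).card
        ≤ ∏ _i : {i // i ∈ A}, (w + 1) :=
          Finset.prod_le_prod' fun i _ => (hw i.1).trans (Nat.le_succ w)
      _ = (w + 1) ^ A.card := by rw [Finset.prod_const, Finset.card_univ, Fintype.card_coe]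
      _ ≤ (w + 1) ^ k := Nat.pow_le_pow_right (by omega) hA
  refine ⟨(E.image fun a => H530R2.cpart f A a : Finset _), Finset.finite_toSet _, ?_, ?_, ?_⟩
  · rw [Set.ncard_coe_finset]
    exact Finset.card_image_le.trans hEc
  · intro x hx
    obtain ⟨a, _, rfl⟩ := Finset.mem_image.1 (Finset.mem_coe.1 hx)
    exact ⟨hf.cpart A a, cpart_supported f A a⟩
  · have key : ∀ S : Subalgebra F (MvPolynomial (Fin n) F), (X '' (A : Set (Fin n)) : Set (MvPolynomial (Fin n) F)) ⊆ (S : Set (MvPolynomial (Fin n) F)) →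
        (∀ a ∈ E, H530R2.cpart f A a ∈ S) → f ∈ S := by
      intro S hS1 hS2
      rw [cpart_sum f A]
      refine Subalgebra.sum_mem _ fun a ha => Subalgebra.mul_mem _ ?_ (hS2 a ha)
      have h2 : (monomial a 1 : MvPolynomial (Fin n) F) ∈
          supported F (A : Set (Fin n)) := by
        rw [mem_supported, vars_monomial one_ne_zero]
        intro i hi
        obtain ⟨e, _, rfl⟩ := Finset.mem_image.1 ha
        rw [Finset.mem_coe, Finsupp.mem_support_iff, Finsupp.filter_apply] at hi
        by_contra hc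
        exact hi (if_neg hc)
      exact Algebra.adjoin_le hS1 h2
    refine key _ (fun x hx => Algebra.subset_adjoin (Or.inl hx)) fun a ha => ?_
    exact Algebra.subset_adjoin (Or.inr (Finset.mem_coe.2 (Finset.mem_image_of_mem _ ha)))

end leaf

section jac

variable {F : Type} [Field F] [CharZero F] {n : ℕ}

omit [CharZero F] in
theorem natInj [CharZero F] (n : ℕ) : Function.Injective (fun i : Fin n => ((i.val : ℕ) : F)) :=
  fun _ _ h => Fin.ext (Nat.cast_injective (R := F) h)

omit [CharZero F] in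
theorem evT_eq_gen (n m : ℕ) (f : MvPolynomial (Fin n) F) :
    Pool.Agent.H626R2.Loc.evT F n m f = gen (fun i : Fin n => ((i.val : ℕ) : F)) m f := rfl

omit [CharZero F] in
theorem evT_ne_iff (n m : ℕ) (f : MvPolynomial (Fin n) F) :
    Pool.Agent.H626R2.Loc.evT F n m f ≠ 0 ↔ f ∉ genI (fun i : Fin n => ((i.val : ℕ) : F)) m :=
  Iff.rfl

/-- Jacobian determinants of members of the classes -/
theorem Fam.jac (𝔎 : Fam F)
    (hOk : ∀ s n : ℕ, (stdVan (F := F) _ (natInj n)).scale (s + 1) (Nat.le_add_left 1 s) ∈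
      𝔎.Ok s n) (W p : ℕ) : ∃ m : ℕ, ∀ s n q : ℕ, q ≤ p → ∀ (t : Fin q → Fin n)
      (G : Fin q → MvPolynomial (Fin n) F), (∀ a, G a ∈ 𝔎.K s n W) →
      (Matrix.of fun a b => pderiv (t b) (G a)).det ≠ 0 →
      Pool.Agent.H626R2.Loc.evT F n (m * (s + 1))
        (Matrix.of fun a b => pderiv (t b) (G a)).det ≠ 0 := by
  classical
  obtain ⟨m, hm⟩ := 𝔎.seeds (𝔎.comb (p * p) (𝔎.der W))
  refine ⟨m, ?_⟩
  intro s n q hq t G hG hdet
  rw [evT_ne_iff]
  intro hc
  apply hdet
  refine hm s n _ (hOk s n) _ ?_ ∅ ?_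
  · refine 𝔎.comb_mem (ι := Fin q × Fin q) (g := fun ab => pderiv (t ab.2) (G ab.1)) ?_
      (fun ab => 𝔎.der_mem _ (hG _)) ?_
    · rw [Fintype.card_prod, Fintype.card_fin]
      exact Nat.mul_le_mul hq hq
    · rw [Matrix.det_apply']
      refine Subalgebra.sum_mem _ fun τ _ => Subalgebra.mul_mem _ (Subalgebra.intCast_mem _ _) ?_
      exact Subalgebra.prod_mem _ fun i _ => Algebra.subset_adjoin ⟨(τ i, i), rfl⟩
  · show _ ∈ (stdVan (F := F) _ (natInj n)).I (m * (s + 1)) ∅
    rw [mem_stdVan]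
    exact hc

/-- polynomials in products, of bounded transcendence degree, of polynomials with few
coefficients -/
theorem Fam.bddTr (𝔎 : Fam F)
    (hOk : ∀ s n : ℕ, (stdVan (F := F) _ (natInj n)).scale (s + 1) (Nat.le_add_left 1 s) ∈
      𝔎.Ok s n) {W : ℕ} (hW : 𝔎.c0 ≤ W) (k c : ℕ) : ∃ m : ℕ, ∀ (s n : ℕ)
      (f : MvPolynomial (Fin n) F),
      Pool.Agent.H626R2.Loc.BddTrG
        (fun g => ∀ A : Finset (Fin n), A.card ≤ k → Gn (𝔎.K s n W) A c g) k f → f ≠ 0 →
      f ∉ genI (fun i : Fin n => ((i.val : ℕ) : F)) (m * (s + 1)) := by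
  obtain ⟨m, hm⟩ := 𝔎.jac hOk W ((k + 1) * c)
  refine ⟨m + (k + (k + 1) * c), ?_⟩
  intro s n f hf hf0 hc
  have h1 := Pool.Agent.H626R2.Loc.fin_hit (K := F) (n := n) (k := k) (C := c)
    (m := m * (s + 1)) (𝔎.K s n W) (𝔎.zero hW)
    (fun q hq t _ G hG hdet => hm s n q hq t G hG hdet) (f := f) ?_ hf0
  · rw [evT_ne_iff] at h1
    apply h1
    refine genI_le _ ?_ hc
    rw [add_mul m]
    exact Nat.add_le_add_left (Nat.le_mul_of_pos_right _ (Nat.succ_pos s)) _
  · obtain ⟨N, S, hS, hdep, hmem⟩ := hf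
    exact ⟨N, S, fun i g hg => Gn.finCoef (𝔎.zero hW) (hS i g hg), hdep, hmem⟩

end jac

end Pool.Agent.H530R2
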