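import Mathlib
import Pool.Agent.H530R2.Rdk5

/-!
Formulas, jets of their values, and the transformation of jets along a gate.
-/

namespace Pool.Agent.H530R2

open MvPolynomial Module

universe v

section tree

/-- formulas with arbitrary binary polynomial gates, whose leaves are polynomials -/
inductive Tr (F : Type v) [Field F] (n : ℕ) : Type v
  | leaf (g : MvPolynomial (Fin n) F) : Tr F n
  | gate (γ : MvPolynomial (Fin 2) F) (a b : Tr F n) : Tr F n

variable {F : Type v} [Field F] {n : ℕ}

/-- the polynomial computed by a formula -/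
noncomputable def Tr.val : Tr F n → MvPolynomial (Fin n) F
  | .leaf g => g
  | .gate γ a b => aeval ![a.val, b.val] γ

open Classical in
/-- the number of leaves in which a variable occurs -/
noncomputable def Tr.occ : Tr F n → Fin n → ℕ
  | .leaf g, i => if i ∈ g.vars then 1 else 0
  | .gate _ a b, i => a.occ i + b.occ i

/-- the leaves belong to a class -/
def Tr.Lv (L : Set (MvPolynomial (Fin n) F)) : Tr F n → Prop
  | .leaf g => g ∈ L
  | .gate _ a b => a.Lv L ∧ b.Lv L

theorem Tr.Lv.mono {L L' : Set (MvPolynomial (Fin n) F)} (h : L ⊆ L') {T : Tr F n}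
    (hT : T.Lv L) : T.Lv L' := by
  induction T with
  | leaf g => exact h hT
  | gate γ a b iha ihb => exact ⟨iha hT.1, ihb hT.2⟩

theorem Tr.val_supp (T : Tr F n) : T.val ∈ supported F {i : Fin n | T.occ i ≠ 0} := by
  classical
  induction T with
  | leaf g =>
    rw [Tr.val, mem_supported]
    intro i hi
    show Tr.occ (.leaf g) i ≠ 0
    rw [Tr.occ, if_pos (Finset.mem_coe.1 hi)]
    exact one_ne_zero
  | gate γ a b iha ihb =>
    have h1 : (Tr.gate γ a b).val ∈ Algebra.adjoin F (Set.range ![a.val, b.val]) := by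
      rw [Algebra.adjoin_range_eq_range_aeval]
      exact ⟨γ, rfl⟩
    refine (Algebra.adjoin_le ?_) h1
    rintro _ ⟨i, rfl⟩
    fin_cases i
    · refine supported_mono ?_ iha
      intro x hx
      have hx' : a.occ x ≠ 0 := hx
      show a.occ x + b.occ x ≠ 0
      omega
    · refine supported_mono ?_ ihb
      intro x hx
      have hx' : b.occ x ≠ 0 := hx
      show a.occ x + b.occ x ≠ 0
      omega

theorem Tr.pderiv_val {T : Tr F n} {k : Fin n} (h : T.occ k = 0) : pderiv k T.val = 0 := by
  apply pderiv_eq_zero_of_notMem_vars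
  intro hc
  exact (mem_supported.1 T.val_supp) (Finset.mem_coe.2 hc) h

/-- chain rule for binary gates -/
theorem pderiv_gate (γ : MvPolynomial (Fin 2) F) (a b : MvPolynomial (Fin n) F) (k : Fin n) :
    pderiv k (aeval ![a, b] γ) = aeval ![a, b] (pderiv 0 γ) * pderiv k a +
      aeval ![a, b] (pderiv 1 γ) * pderiv k b := by
  induction γ using MvPolynomial.induction_on with
  | C r =>
    rw [algHom_C]
    show pderiv k (C r) = _
    simp only [pderiv_C, map_zero, zero_mul, add_zero]
  | add p q hp hq =>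
    rw [map_add, map_add, hp, hq, map_add, map_add, map_add, map_add]
    ring
  | mul_X p i hp =>
    have hX : ∀ l : Fin 2, pderiv l (X i : MvPolynomial (Fin 2) F) = if l = i then 1 else 0 := by
      intro l
      by_cases h : l = i
      · subst h
        rw [pderiv_X_self, if_pos rfl]
      · rw [pderiv_X_of_ne (Ne.symm h), if_neg h]
    rw [map_mul, pderiv_mul, hp, pderiv_mul, pderiv_mul, map_add, map_add, map_mul, map_mul,
      map_mul, map_mul, aeval_X, hX, hX]
    fin_cases i
    · simp
      ring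
    · simp
      ring

end tree

section jets

variable {F : Type v} [Field F] {n ρ : ℕ}

/-- indices of the jets -/
def JI (ρ : ℕ) : ℕ → Type
  | 0 => Unit
  | l + 1 => JI ρ l ⊕ (Fin ρ × JI ρ l)

noncomputable instance JI.fintype (ρ : ℕ) : (l : ℕ) → Fintype (JI ρ l)
  | 0 => (inferInstance : Fintype Unit)
  | l + 1 => @instFintypeSum _ _ (JI.fintype ρ l) (@instFintypeProd _ _ _ (JI.fintype ρ l))

theorem JI.card (ρ l : ℕ) : Fintype.card (JI ρ l) = (ρ + 1) ^ l := by
  induction l with
  | zero => rfl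
  | succ l ih =>
    have h1 : Fintype.card (JI ρ (l + 1)) = Fintype.card (JI ρ l ⊕ (Fin ρ × JI ρ l)) :=
      Fintype.card_congr (Equiv.refl _)
    rw [h1, Fintype.card_sum, Fintype.card_prod, Fintype.card_fin, ih, pow_succ]
    ring

/-- iterated derivatives in the directions `κ` -/
noncomputable def jet (κ : Fin ρ → Fin n) (g : MvPolynomial (Fin n) F) :
    (l : ℕ) → JI ρ l → MvPolynomial (Fin n) F
  | 0 => fun _ => g
  | l + 1 => Sum.elim (jet κ g l) (fun x => pderiv (κ x.1) (jet κ g l x.2))

/-- sets closed under derivatives contain the jets -/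
theorem jet_mem {κ : Fin ρ → Fin n} {g : MvPolynomial (Fin n) F}
    (S : ℕ → Set (MvPolynomial (Fin n) F)) (h0 : g ∈ S 0) (hm : ∀ l, S l ⊆ S (l + 1))
    (hd : ∀ l k, ∀ x ∈ S l, pderiv k x ∈ S (l + 1)) (l : ℕ) (i : JI ρ l) : jet κ g l i ∈ S l := by
  induction l with
  | zero => exact h0
  | succ l ih =>
    rcases i with i | ⟨q, i⟩
    · exact hm l (ih i)
    · exact hd l _ _ (ih i)

/-- jets of larger order -/
theorem jet_range_succ (κ : Fin ρ → Fin n) (g : MvPolynomial (Fin n) F) (l : ℕ) :
    Set.range (jet κ g l) ⊆ Set.range (jet κ g (l + 1)) := by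
  rintro _ ⟨i, rfl⟩
  exact ⟨Sum.inl i, rfl⟩

theorem jet_range_mono (κ : Fin ρ → Fin n) (g : MvPolynomial (Fin n) F) {l l' : ℕ} (h : l ≤ l') :
    Set.range (jet κ g l) ⊆ Set.range (jet κ g l') := by
  induction l', h using Nat.le_induction with
  | base => exact le_rfl
  | succ b _ ih => exact ih.trans (jet_range_succ κ g b)

/-- jets in more directions -/
theorem jet_range_dir {ρ' : ℕ} {κ : Fin ρ → Fin n} {κ' : Fin ρ' → Fin n}
    (h : Set.range κ ⊆ Set.range κ') (g : MvPolynomial (Fin n) F) (l : ℕ) :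
    Set.range (jet κ g l) ⊆ Set.range (jet κ' g l) := by
  induction l with
  | zero =>
    rintro _ ⟨i, rfl⟩
    exact ⟨(), rfl⟩
  | succ l ih =>
    rintro _ ⟨i | ⟨q, i⟩, rfl⟩
    · obtain ⟨i', hi'⟩ := ih ⟨i, rfl⟩
      exact ⟨Sum.inl i', hi'⟩
    · obtain ⟨i', hi'⟩ := ih ⟨i, rfl⟩
      obtain ⟨q', hq'⟩ := h ⟨q, rfl⟩
      refine ⟨Sum.inr (q', i'), ?_⟩
      show pderiv (κ' q') (jet κ' g l i') = pderiv (κ q) (jet κ g l i)
      rw [hi', hq']

theorem jet_pderiv (κ : Fin ρ → Fin n) (g : MvPolynomial (Fin n) F) (l : ℕ) (q : Fin ρ)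
    {x : MvPolynomial (Fin n) F} (hx : x ∈ Set.range (jet κ g l)) :
    pderiv (κ q) x ∈ Set.range (jet κ g (l + 1)) := by
  obtain ⟨i, rfl⟩ := hx
  exact ⟨Sum.inr (q, i), rfl⟩

theorem jet_self (κ : Fin ρ → Fin n) (g : MvPolynomial (Fin n) F) (l : ℕ) :
    g ∈ Set.range (jet κ g l) :=
  jet_range_mono κ g (Nat.zero_le l) ⟨(), rfl⟩

/-- jets of polynomials generated by two polynomials -/
theorem jet_adjoin (κ : Fin ρ → Fin n) {g a b : MvPolynomial (Fin n) F}
    (h : g ∈ Algebra.adjoin F ({a, b} : Set (MvPolynomial (Fin n) F))) (l : ℕ) (i : JI ρ l) :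
    jet κ g l i ∈ Algebra.adjoin F (Set.range (jet κ a l) ∪ Set.range (jet κ b l)) := by
  induction l with
  | zero =>
    refine Algebra.adjoin_mono ?_ h
    rintro x (rfl | rfl)
    · exact Or.inl ⟨(), rfl⟩
    · exact Or.inr ⟨(), rfl⟩
  | succ l ih =>
    have hmono : Algebra.adjoin F (Set.range (jet κ a l) ∪ Set.range (jet κ b l)) ≤
        Algebra.adjoin F (Set.range (jet κ a (l + 1)) ∪ Set.range (jet κ b (l + 1))) :=
      Algebra.adjoin_mono (Set.union_subset_union (jet_range_succ _ _ _) (jet_range_succ _ _ _))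
    rcases i with i | ⟨q, i⟩
    · exact hmono (ih i)
    · refine pderiv_mem_of_adjoin (κ q) ?_ ?_ (ih i)
      · intro x hx
        exact hmono (Algebra.subset_adjoin hx)
      · rintro x (hx | hx)
        · exact Algebra.subset_adjoin (Or.inl (jet_pderiv κ a l q hx))
        · exact Algebra.subset_adjoin (Or.inr (jet_pderiv κ b l q hx))

end jets

section et

variable {F : Type v} [Field F] {n ρ : ℕ} {ι : Type} [Fintype ι]

open Classical in
/-- the derivatives of `G` in the directions of `Z` are a transformation of those of `G'`, whose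
determinant is a power of `α` -/
def Et (Z : Finset (Fin n)) (α : MvPolynomial (Fin n) F) {ι : Type} [Fintype ι]
    (G G' : ι → MvPolynomial (Fin n) F) : Prop :=
  ∃ (A : Matrix ι ι (MvPolynomial (Fin n) F)) (m : ℕ),
    (∀ k ∈ Z, ∀ i, pderiv k (G i) = ∑ l, A i l * pderiv k (G' l)) ∧ A.det = α ^ m

omit [Fintype ι] in
theorem det_inst {R : Type*} [CommRing R] [Fintype ι] (i1 i2 : DecidableEq ι)
    (A : Matrix ι ι R) : @Matrix.det ι i1 _ R _ A = @Matrix.det ι i2 _ R _ A := by
  rw [Subsingleton.elim i1 i2]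

theorem Et.unit {Z : Finset (Fin n)} {α g g' : MvPolynomial (Fin n) F}
    (h : ∀ k ∈ Z, pderiv k g = α * pderiv k g') : Et Z α (fun _ : Unit => g) (fun _ => g') := by
  classical
  refine ⟨Matrix.of fun _ _ => α, 1, ?_, ?_⟩
  · intro k hk i
    simp only [Matrix.of_apply, Finset.univ_unique, Finset.sum_const, Finset.card_singleton,
      one_smul]
    exact h k hk
  · have h2 : (Matrix.of (fun _ _ => α) : Matrix Unit Unit (MvPolynomial (Fin n) F)).det = α := by
      rw [Matrix.det_unique]
      rfl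
    rw [pow_one]
    exact (det_inst _ _ _).trans h2

theorem Et.prol {Z : Finset (Fin n)} {α : MvPolynomial (Fin n) F}
    {G G' : ι → MvPolynomial (Fin n) F} (κ : Fin ρ → Fin n) (ih : Et Z α G G') :
    Et Z α (Sum.elim G fun x : Fin ρ × ι => pderiv (κ x.1) (G x.2))
      (Sum.elim G' fun x : Fin ρ × ι => pderiv (κ x.1) (G' x.2)) := by
  classical
  obtain ⟨A, m, hA, hdet⟩ := ih
  set D : Matrix (Fin ρ × ι) (Fin ρ × ι) (MvPolynomial (Fin n) F) :=
    Matrix.kroneckerMap (· * ·) (1 : Matrix (Fin ρ) (Fin ρ) (MvPolynomial (Fin n) F)) A with hD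
  set B : Matrix (Fin ρ × ι) ι (MvPolynomial (Fin n) F) :=
    Matrix.of fun x l => pderiv (κ x.1) (A x.2 l) with hB
  refine ⟨Matrix.fromBlocks A 0 B D, m + m * ρ, ?_, ?_⟩
  · intro k hk i
    rw [Fintype.sum_sum_type]
    rcases i with i | ⟨q, i⟩
    · simp only [Matrix.fromBlocks_apply₁₁, Matrix.fromBlocks_apply₁₂, Matrix.zero_apply,
        zero_mul, Finset.sum_const_zero, add_zero, Sum.elim_inl]
      exact hA k hk i
    · simp only [Matrix.fromBlocks_apply₂₁, Matrix.fromBlocks_apply₂₂, Sum.elim_inl, Sum.elim_inr]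
      rw [pderiv_comm', hA k hk i, map_sum]
      simp only [pderiv_mul, Finset.sum_add_distrib]
      congr 1
      rw [Fintype.sum_prod_type]
      rw [Finset.sum_eq_single q]
      · apply Finset.sum_congr rfl
        intro x _
        rw [pderiv_comm']
        congr 1
        simp [hD]
      · intro q' _ hq'
        apply Finset.sum_eq_zero
        intro x _
        simp [hD, Matrix.one_apply_ne (Ne.symm hq')]
      · intro hc
        exact absurd (Finset.mem_univ q) hc
  · have h6 : (Matrix.fromBlocks A 0 B D).det = A.det * D.det :=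
      Matrix.det_fromBlocks_zero₁₂ A B D
    have h7 : D.det = A.det ^ ρ := by
      have h8 := Matrix.det_kronecker (1 : Matrix (Fin ρ) (Fin ρ) (MvPolynomial (Fin n) F)) A
      rw [Matrix.det_one, one_pow, one_mul, Fintype.card_fin] at h8
      rw [← h8]
    have h10 : A.det = α ^ m := (det_inst _ _ _).trans hdet
    have h9 : (Matrix.fromBlocks A 0 B D).det = α ^ (m + m * ρ) := by
      rw [h6, h7, h10, ← pow_mul, ← pow_add]
    exact (det_inst _ _ _).trans h9

theorem Et.jet {Z : Finset (Fin n)} {α g g' : MvPolynomial (Fin n) F} (κ : Fin ρ → Fin n)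
    (h : ∀ k ∈ Z, pderiv k g = α * pderiv k g') : ∀ l : ℕ,
    Et Z α (H530R2.jet κ g l) (H530R2.jet κ g' l)
  | 0 => Et.unit h
  | l + 1 => Et.prol κ (Et.jet κ h l)

theorem Et.sum {Z : Finset (Fin n)} {α : MvPolynomial (Fin n) F}
    {G G' : ι → MvPolynomial (Fin n) F} (h : Et Z α G G') {τ : Type} [Fintype τ]
    (P : τ → MvPolynomial (Fin n) F) : Et Z α (Sum.elim G P) (Sum.elim G' P) := by
  classical
  obtain ⟨A, m, hA, hdet⟩ := h
  refine ⟨Matrix.fromBlocks A 0 0 1, m, ?_, ?_⟩
  · intro k hk i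
    rw [Fintype.sum_sum_type]
    rcases i with i | i
    · simp only [Matrix.fromBlocks_apply₁₁, Matrix.fromBlocks_apply₁₂, Matrix.zero_apply,
        zero_mul, Finset.sum_const_zero, add_zero, Sum.elim_inl]
      exact hA k hk i
    · simp only [Matrix.fromBlocks_apply₂₁, Matrix.fromBlocks_apply₂₂, Matrix.zero_apply,
        zero_mul, Finset.sum_const_zero, zero_add, Sum.elim_inr]
      rw [Finset.sum_eq_single i]
      · rw [Matrix.one_apply_eq, one_mul]
      · intro j _ hj
        rw [Matrix.one_apply_ne (Ne.symm hj), zero_mul]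
      · intro hc
        exact absurd (Finset.mem_univ i) hc
  · have h1 : (Matrix.fromBlocks A 0 0 (1 : Matrix τ τ (MvPolynomial (Fin n) F))).det = α ^ m := by
      have h2 := Matrix.det_fromBlocks_zero₁₂ A 0 (1 : Matrix τ τ (MvPolynomial (Fin n) F))
      rw [Matrix.det_one, mul_one] at h2
      exact ((det_inst _ _ _).trans h2).trans ((det_inst _ _ _).trans hdet)
    exact (det_inst _ _ _).trans h1

theorem Et.ctrl {Z : Finset (Fin n)} {α : MvPolynomial (Fin n) F}
    {G G' : ι → MvPolynomial (Fin n) F} (h : Et Z α G G') (i : ι) :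
    Ctrl (Z : Set (Fin n)) G' (G i) := by
  obtain ⟨A, m, hA, _⟩ := h
  exact ⟨A i, fun k hk => hA k (Finset.mem_coe.1 hk) i⟩

/-- equality of ranks -/
theorem Et.er_eq {Z : Finset (Fin n)} {α : MvPolynomial (Fin n) F}
    {G G' : ι → MvPolynomial (Fin n) F} (h : Et Z α G G') (hα : α ≠ 0) : er Z G = er Z G' := by
  classical
  obtain ⟨A, m, hA, hdet⟩ := h
  set φ := algebraMap (MvPolynomial (Fin n) F) (FractionRing (MvPolynomial (Fin n) F)) with hφ
  have hinj : Function.Injective φ := IsFractionRing.injective _ _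
  have hdetφ : (A.map φ).det ≠ 0 := by
    rw [← RingHom.mapMatrix_apply, ← RingHom.map_det]
    intro hc
    have h1 : A.det = 0 := hinj (by rw [hc, map_zero])
    rw [hdet] at h1
    exact pow_ne_zero m hα h1
  have hLinj : Function.Injective (Matrix.toLin' (A.map φ)) := by
    have h2 : IsUnit (A.map φ).det := isUnit_iff_ne_zero.2 hdetφ
    have h3 : IsUnit (A.map φ) := (Matrix.isUnit_iff_isUnit_det _).2 h2
    have h4 := Matrix.mulVec_injective_iff_isUnit.2 h3
    intro x y hxy
    exact h4 (by simpa [Matrix.toLin'_apply] using hxy)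
  unfold er
  rw [sp_transfer (J := G') (J' := G) (Matrix.toLin' (A.map φ)) ?_]
  · exact (Submodule.equivMapOfInjective (Matrix.toLin' (A.map φ)) hLinj _).finrank_eq.symm
  · intro k hk
    funext i
    simp only [dv, Matrix.toLin'_apply, Matrix.mulVec, dotProduct, Matrix.map_apply]
    rw [hA k hk i, map_sum]
    apply Finset.sum_congr rfl
    intro l _
    rw [map_mul]

/-- Cramer's rule with the minors of the simpler family -/
theorem Et.cramer {Z : Finset (Fin n)} {α : MvPolynomial (Fin n) F}
    {G G' : ι → MvPolynomial (Fin n) F} (h : Et Z α G G') :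
    ∃ (ρ m : ℕ) (κ : Fin ρ → Fin n) (g : Fin ρ → ι), ρ ≤ Fintype.card ι ∧ (∀ q, κ q ∈ Z) ∧
      (Matrix.of fun q l => pderiv (κ q) (G' (g l))).det ≠ 0 ∧
      ∀ i0, dv G i0 ∈ sp Z G → ∃ c : Fin ρ → MvPolynomial (Fin n) F, ∀ i,
        ((Matrix.of fun q l => pderiv (κ q) (G' (g l))).det * α ^ m) * pderiv i0 (G i) =
          ∑ q, c q * pderiv (κ q) (G i) := by
  classical
  obtain ⟨A, m, hA, hdet⟩ := h
  obtain ⟨ρ, κ, g, hρ, hκ, hμ, hrel⟩ := cramer_unif
    (fun (k : Fin n) (i : ι) => pderiv k (G' i)) (Z : Set (Fin n))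
  refine ⟨ρ, m, κ, g, hρ, fun q => Finset.mem_coe.1 (hκ q), hμ, ?_⟩
  intro i0 hi0
  set φ := algebraMap (MvPolynomial (Fin n) F) (FractionRing (MvPolynomial (Fin n) F)) with hφ
  have hinj : Function.Injective φ := IsFractionRing.injective _ _
  -- the vector `adj A · ∂ G`
  set u : ι → MvPolynomial (Fin n) F := A.adjugate.mulVec (fun i => pderiv i0 (G i)) with hu
  have hAu : ∀ i, A.mulVec u i = α ^ m * pderiv i0 (G i) := by
    intro i
    have h1 : A.mulVec u = (α ^ m) • (fun i => pderiv i0 (G i)) := by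
      rw [hu, Matrix.mulVec_mulVec, Matrix.mul_adjugate, Matrix.smul_mulVec, Matrix.one_mulVec,
        hdet]
    rw [h1]
    rfl
  have hmem : frv u ∈ Submodule.span (FractionRing (MvPolynomial (Fin n) F))
      ((fun k => frv (fun i => pderiv k (G' i))) '' (Z : Set (Fin n))) := by
    have h2 : frv u = Matrix.toLin' (A.adjugate.map φ) (dv G i0) := by
      funext i
      simp only [frv, hu, Matrix.toLin'_apply, Matrix.mulVec, dotProduct, Matrix.map_apply, dv,
        map_sum, map_mul]
      rfl
    have h3 : Submodule.map (Matrix.toLin' (A.adjugate.map φ)) (sp Z G) ≤ sp Z G' := by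
      unfold sp
      rw [Submodule.map_span, Submodule.span_le]
      rintro _ ⟨_, ⟨k, hk, rfl⟩, rfl⟩
      have h4 : Matrix.toLin' (A.adjugate.map φ) (dv G k) = φ (α ^ m) • dv G' k := by
        have h5 : (fun i => pderiv k (G i)) = A.mulVec (fun i => pderiv k (G' i)) := by
          funext i
          exact hA k (Finset.mem_coe.1 hk) i
        have h6 : A.adjugate.mulVec (fun i => pderiv k (G i)) =
            (α ^ m) • (fun i => pderiv k (G' i)) := by
          rw [h5, Matrix.mulVec_mulVec, Matrix.adjugate_mul, Matrix.smul_mulVec, Matrix.one_mulVec,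
            hdet]
        funext i
        have h7 := congrArg φ (congrFun h6 i)
        simp only [Matrix.mulVec, dotProduct, Pi.smul_apply, smul_eq_mul, map_sum, map_mul] at h7
        simp only [Matrix.toLin'_apply, Matrix.mulVec, dotProduct, Matrix.map_apply, dv,
          Pi.smul_apply, smul_eq_mul]
        exact h7
      rw [h4]
      exact Submodule.smul_mem _ _ (Submodule.subset_span ⟨k, hk, rfl⟩)
    rw [h2]
    exact h3 (Submodule.mem_map_of_mem hi0)
  have h8 := hrel u hmem
  set μ := (Matrix.of fun q l => pderiv (κ q) (G' (g l))).det with hμdef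
  set c : Fin ρ → MvPolynomial (Fin n) F := fun q => Matrix.vecMul (fun l => u (g l))
    (Matrix.of fun q l => pderiv (κ q) (G' (g l))).adjugate q with hc
  refine ⟨c, ?_⟩
  intro i
  have h9 : ∀ l, μ * u l = ∑ q, c q * pderiv (κ q) (G' l) := h8
  calc (μ * α ^ m) * pderiv i0 (G i) = μ * A.mulVec u i := by rw [hAu i]; ring
    _ = ∑ l, A i l * (μ * u l) := by
        simp only [Matrix.mulVec, dotProduct, Finset.mul_sum]
        apply Finset.sum_congr rfl
        intro l _
        ring
    _ = ∑ l, A i l * ∑ q, c q * pderiv (κ q) (G' l) := by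
        apply Finset.sum_congr rfl
        intro l _
        rw [h9 l]
    _ = ∑ q, c q * ∑ l, A i l * pderiv (κ q) (G' l) := by
        simp only [Finset.mul_sum]
        rw [Finset.sum_comm]
        apply Finset.sum_congr rfl
        intro q _
        apply Finset.sum_congr rfl
        intro l _
        ring
    _ = ∑ q, c q * pderiv (κ q) (G i) := by
        apply Finset.sum_congr rfl
        intro q _
        rw [hA (κ q) (Finset.mem_coe.1 (hκ q)) i]

end et

end Pool.Agent.H530R2
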