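import Mathlib
import Pool.Agent.H530R2.Tre1
import Pool.Agent.H530R2.Rdk6

/-!
Families of classes of polynomials relative to a set of free variables, and the family generated
by a formula.
-/

namespace Pool.Agent.H530R2

open MvPolynomial Module

universe v

/-- the constants of a family -/
structure Cst where
  /-- combinations -/
  comb : ℕ → ℕ → ℕ
  /-- derivatives -/
  der : ℕ → ℕ
  /-- levels -/
  sd : ℕ → ℕ

/-- the level for minors -/
def Cst.em (p : Cst) (r W : ℕ) : ℕ := p.sd (p.comb (r * r) (p.der W))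

/-- families of classes of polynomials -/
structure LFam {F : Type v} [Field F] {n : ℕ} (V : VanM F n) (p : Cst) (Y₀ : Finset (Fin n)) where
  /-- the classes -/
  K : ℕ → Set (MvPolynomial (Fin n) F)
  mono : ∀ {W W' : ℕ}, W ≤ W' → K W ⊆ K W'
  comb_mem : ∀ {W k : ℕ} {ι : Type} [Fintype ι] {g : ι → MvPolynomial (Fin n) F}
    {f : MvPolynomial (Fin n) F}, Fintype.card ι ≤ k → (∀ i, g i ∈ K W) →
    f ∈ Algebra.adjoin F (Set.range g) → f ∈ K (p.comb k W)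
  der_mem : ∀ {W : ℕ} (k : Fin n) {f : MvPolynomial (Fin n) F}, f ∈ K W →
    pderiv k f ∈ K (p.der W)
  seeds : ∀ (W : ℕ), ∀ f ∈ K W, ∀ Y, Y₀ ⊆ Y → f ∈ V.I (p.sd W) Y → f = 0

section basic

variable {F : Type v} [Field F] {n : ℕ} {V : VanM F n} {p : Cst} {Y₀ : Finset (Fin n)}

/-- larger sets of free variables -/
def LFam.weaken (𝔏 : LFam V p Y₀) {Y₁ : Finset (Fin n)} (h : Y₀ ⊆ Y₁) : LFam V p Y₁ where
  K := 𝔏.K
  mono := 𝔏.mono
  comb_mem := 𝔏.comb_mem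
  der_mem := 𝔏.der_mem
  seeds W f hf Y hY := 𝔏.seeds W f hf Y (h.trans hY)

/-- rescaled levels -/
def LFam.scale (𝔏 : LFam V p Y₀) (s : ℕ) (hs : 1 ≤ s) : LFam (V.scale s hs) p Y₀ where
  K := 𝔏.K
  mono := 𝔏.mono
  comb_mem := 𝔏.comb_mem
  der_mem := 𝔏.der_mem
  seeds W f hf Y hY hmem := 𝔏.seeds W f hf Y hY
    (V.mono (Nat.le_mul_of_pos_right _ hs) _ hmem)

theorem LFam.minor (𝔏 : LFam V p Y₀) {W r e : ℕ} {ι : Type} {H : ι → MvPolynomial (Fin n) F}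
    (hH : ∀ i, H i ∈ 𝔏.K W) (he : p.em r W ≤ e) {ρ : ℕ} (κ : Fin ρ → Fin n) (g : Fin ρ → ι)
    (hρ : ρ ≤ r) (hdet : (Matrix.of fun q l => pderiv (κ q) (H (g l))).det ≠ 0)
    {Y : Finset (Fin n)} (hY : Y₀ ⊆ Y) :
    (Matrix.of fun q l => pderiv (κ q) (H (g l))).det ∉ V.I e Y := by
  intro hmem
  apply hdet
  refine 𝔏.seeds _ _ ?_ Y hY (V.mono he _ hmem)
  refine 𝔏.comb_mem (ι := Fin ρ × Fin ρ) (g := fun x => pderiv (κ x.1) (H (g x.2))) ?_
    (fun x => 𝔏.der_mem _ (hH _)) ?_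
  · rw [Fintype.card_prod, Fintype.card_fin]
    exact Nat.mul_le_mul hρ hρ
  · apply det_mem'
    intro q l
    exact Algebra.subset_adjoin ⟨(q, l), rfl⟩

/-- freeing directions for polynomials controlled by members of the class -/
theorem LFam.free (𝔏 : LFam V p Y₀) {W r e : ℕ} {ι : Type} [Fintype ι]
    {H : ι → MvPolynomial (Fin n) F} (hH : ∀ i, H i ∈ 𝔏.K W) (hr : Fintype.card ι ≤ r)
    (he : p.em r W ≤ e) {B Y : Finset (Fin n)} (hY : Y₀ ⊆ Y) {f : MvPolynomial (Fin n) F}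
    (hf : Ctrl (B : Set (Fin n)) H f) {j : ℕ} (h : f ∈ V.I (j + (e + r)) Y) :
    f ∈ V.I j (Y ∪ B) :=
  V.free_block' hf hr (fun _ κ g hρ hdet _ hY' => 𝔏.minor hH he κ g hρ hdet (hY.trans hY')) h

/-- polynomials generated by free variables and members of the class -/
theorem LFam.zero_free (𝔏 : LFam V p Y₀) {W r : ℕ} {ι : Type} [Fintype ι]
    {H : ι → MvPolynomial (Fin n) F} (hH : ∀ i, H i ∈ 𝔏.K W) (hr : Fintype.card ι ≤ r)
    {Y : Finset (Fin n)} (hY : Y₀ ⊆ Y) {f : MvPolynomial (Fin n) F}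
    (hf : f ∈ Algebra.adjoin F (Set.range H ∪ X '' (Y : Set (Fin n))))
    (h : f ∈ V.I (p.em r W + r) Y) : f = 0 := by
  classical
  have hctl : Ctrl (((Finset.univ \ Y : Finset (Fin n))) : Set (Fin n)) H f := by
    refine (ctrl_of_adjoin hf).mono ?_
    intro k hk
    rw [Finset.mem_coe, Finset.mem_sdiff] at hk
    exact fun hc => hk.2 (Finset.mem_coe.1 hc)
  have h1 : f ∈ V.I 0 (Y ∪ (Finset.univ \ Y)) :=
    𝔏.free hH hr le_rfl hY hctl (by rw [Nat.zero_add]; exact h)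
  refine V.supp 0 _ _ ?_ h1
  rw [Finset.union_sdiff_of_subset (Finset.subset_univ _), Finset.coe_univ, supported_univ]
  trivial

end basic

section tree

variable {F : Type v} [Field F] {n : ℕ} {V : VanM F n} {p : Cst} {Y₀ : Finset (Fin n)}

/-- polynomials in the jets of `g` and members of the class -/
def TF (𝔏 : LFam V p Y₀) (g : MvPolynomial (Fin n) F) (W : ℕ) : Set (MvPolynomial (Fin n) F) :=
  {f | ∃ (ρ l : ℕ) (κ : Fin ρ → Fin n) (ι : Type) (_ : Fintype ι)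
    (P : ι → MvPolynomial (Fin n) F), ρ ≤ W ∧ l ≤ W ∧ Fintype.card ι ≤ W ∧ (∀ i, P i ∈ 𝔏.K W) ∧
    f ∈ Algebra.adjoin F (Set.range (jet κ g l) ∪ Set.range P)}

variable {𝔏 : LFam V p Y₀} {g : MvPolynomial (Fin n) F} {W W' : ℕ}

theorem TF.mono (h : W ≤ W') : TF 𝔏 g W ⊆ TF 𝔏 g W' := by
  rintro f ⟨ρ, l, κ, ι, i1, P, h1, h2, h3, h4, h5⟩
  exact ⟨ρ, l, κ, ι, i1, P, h1.trans h, h2.trans h, h3.trans h, fun i => 𝔏.mono h (h4 i), h5⟩

theorem TF.val : g ∈ TF 𝔏 g W :=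
  ⟨0, 0, Fin.elim0, Empty, inferInstance, Empty.elim, Nat.zero_le _, Nat.zero_le _,
    by simp, fun i => i.elim, Algebra.subset_adjoin (Or.inl ⟨(), rfl⟩)⟩

theorem TF.jet {ρ l : ℕ} (κ : Fin ρ → Fin n) (hρ : ρ ≤ W) (hl : l ≤ W) (i : JI ρ l) :
    H530R2.jet κ g l i ∈ TF 𝔏 g W :=
  ⟨ρ, l, κ, Empty, inferInstance, Empty.elim, hρ, hl,
    by simp, fun i => i.elim, Algebra.subset_adjoin (Or.inl ⟨i, rfl⟩)⟩

theorem TF.ofK (hW : 1 ≤ W) {f : MvPolynomial (Fin n) F} (hf : f ∈ 𝔏.K W) : f ∈ TF 𝔏 g W :=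
  ⟨0, 0, Fin.elim0, Unit, inferInstance, fun _ => f, Nat.zero_le _, Nat.zero_le _,
    by simpa using hW, fun _ => hf, Algebra.subset_adjoin (Or.inr ⟨(), rfl⟩)⟩

theorem TF.comb {k : ℕ} {τ : Type} [Fintype τ] {h : τ → MvPolynomial (Fin n) F}
    {f : MvPolynomial (Fin n) F} (hτ : Fintype.card τ ≤ k) (hh : ∀ i, h i ∈ TF 𝔏 g W)
    (hf : f ∈ Algebra.adjoin F (Set.range h)) : f ∈ TF 𝔏 g (k * W + W) := by
  classical
  choose ρ l κ ι i1 P h1 h2 h3 h4 h5 using hh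
  have hcard : Fintype.card ((i : τ) × Fin (ρ i)) ≤ k * W := by
    rw [Fintype.card_sigma]
    calc ∑ i, Fintype.card (Fin (ρ i)) ≤ ∑ _i : τ, W :=
          Finset.sum_le_sum fun i _ => by rw [Fintype.card_fin]; exact h1 i
      _ = Fintype.card τ * W := by rw [Finset.sum_const, Finset.card_univ, smul_eq_mul]
      _ ≤ k * W := Nat.mul_le_mul_right _ hτ
  have hcard' : Fintype.card ((i : τ) × ι i) ≤ k * W := by
    rw [Fintype.card_sigma]
    calc ∑ i, Fintype.card (ι i) ≤ ∑ _i : τ, W := Finset.sum_le_sum fun i _ => h3 i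
      _ = Fintype.card τ * W := by rw [Finset.sum_const, Finset.card_univ, smul_eq_mul]
      _ ≤ k * W := Nat.mul_le_mul_right _ hτ
  refine ⟨Fintype.card ((i : τ) × Fin (ρ i)), W,
    fun q => κ ((Fintype.equivFin _).symm q).1 ((Fintype.equivFin _).symm q).2,
    (i : τ) × ι i, inferInstance, fun x => P x.1 x.2, by omega, by omega, by omega,
    fun x => 𝔏.mono (Nat.le_add_left _ _) (h4 x.1 x.2), ?_⟩
  refine (Algebra.adjoin_le ?_) hf
  rintro _ ⟨i, rfl⟩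
  refine Algebra.adjoin_mono ?_ (h5 i)
  apply Set.union_subset_union
  · refine (jet_range_dir ?_ g (l i)).trans (jet_range_mono _ g (h2 i))
    rintro _ ⟨q, rfl⟩
    refine ⟨Fintype.equivFin _ (⟨i, q⟩ : (i : τ) × Fin (ρ i)), ?_⟩
    beta_reduce
    rw [Equiv.symm_apply_apply]
  · rintro _ ⟨x, rfl⟩
    exact ⟨⟨i, x⟩, rfl⟩

theorem TF.der (k : Fin n) {f : MvPolynomial (Fin n) F} (hf : f ∈ TF 𝔏 g W) :
    pderiv k f ∈ TF 𝔏 g (2 * W + 1 + p.der W) := by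
  classical
  obtain ⟨ρ, l, κ, ι, i1, P, h1, h2, h3, h4, h5⟩ := hf
  refine ⟨ρ + 1, l + 1, Fin.cons k κ, ι ⊕ ι, inferInstance,
    Sum.elim P (fun i => pderiv k (P i)), by omega, by omega,
    by rw [Fintype.card_sum]; omega, ?_, ?_⟩
  · rintro (i | i)
    · exact 𝔏.mono (by omega) (h4 i)
    · exact 𝔏.mono (by omega) (𝔏.der_mem k (h4 i))
  · have hsub : Set.range (H530R2.jet κ g l) ⊆
        Set.range (H530R2.jet (Fin.cons k κ : Fin (ρ + 1) → Fin n) g l) := by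
      apply jet_range_dir
      rintro _ ⟨q, rfl⟩
      exact ⟨q.succ, by rw [Fin.cons_succ]⟩
    refine pderiv_mem_of_adjoin k ?_ ?_ h5
    · rintro x (hx | ⟨i, rfl⟩)
      · exact Algebra.subset_adjoin (Or.inl (jet_range_succ _ _ _ (hsub hx)))
      · exact Algebra.subset_adjoin (Or.inr ⟨Sum.inl i, rfl⟩)
    · rintro x (hx | ⟨i, rfl⟩)
      · have h6 := jet_pderiv (Fin.cons k κ : Fin (ρ + 1) → Fin n) g l 0 (hsub hx)
        rw [Fin.cons_zero] at h6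
        exact Algebra.subset_adjoin (Or.inl h6)
      · exact Algebra.subset_adjoin (Or.inr ⟨Sum.inr i, rfl⟩)

/-- the constants of the family generated by a formula -/
def Cst.next (p : Cst) (sd : ℕ → ℕ) : Cst where
  comb k W := k * W + W
  der W := 2 * W + 1 + p.der W
  sd := sd

/-- the family generated by a polynomial -/
def LFam.tree (𝔏 : LFam V p Y₀) (g : MvPolynomial (Fin n) F) (sd : ℕ → ℕ)
    (hsd : ∀ W, ∀ f ∈ TF 𝔏 g W, ∀ Y, Y₀ ⊆ Y → f ∈ V.I (sd W) Y → f = 0) :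
    LFam V (p.next sd) Y₀ where
  K := TF 𝔏 g
  mono := TF.mono
  comb_mem := TF.comb
  der_mem := TF.der
  seeds := hsd

/-- the partial derivatives of the gates do not belong to the ideals -/
def Reg (V : VanM F n) (e : ℕ) (Y₀ : Finset (Fin n)) : Tr F n → Prop
  | .leaf _ => True
  | .gate γ a b => Reg V e Y₀ a ∧ Reg V e Y₀ b ∧ ∀ i : Fin 2,
      aeval ![a.val, b.val] (pderiv i γ) ≠ 0 → ∀ Y, Y₀ ⊆ Y →
        aeval ![a.val, b.val] (pderiv i γ) ∉ V.I e Y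

theorem Reg.mono {e e' : ℕ} {Y₁ : Finset (Fin n)} (he : e ≤ e') (hY : Y₀ ⊆ Y₁) {T : Tr F n}
    (h : Reg V e Y₀ T) : Reg V e' Y₁ T := by
  induction T with
  | leaf g => trivial
  | gate γ a b iha ihb =>
    exact ⟨iha h.1, ihb h.2.1, fun i h0 Y hY' hc => h.2.2 i h0 Y (hY.trans hY')
      (V.mono he _ hc)⟩

/-- the theorem for formulas reading the variables outside the free set at most `k` times -/
def TreeSeeds (F : Type v) [Field F] (k : ℕ) : Prop :=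
  ∀ (p : Cst) (eR W0 W : ℕ), ∃ e : ℕ, ∀ (n : ℕ) (V : VanM F n) (Y₀ : Finset (Fin n))
    (𝔏 : LFam V p Y₀) (T : Tr F n), (∀ i, i ∉ Y₀ → T.occ i ≤ k) → Reg V eR Y₀ T →
    T.Lv (𝔏.K W0) → ∀ f ∈ TF 𝔏 T.val W, ∀ Y, Y₀ ⊆ Y → f ∈ V.I e Y → f = 0

theorem TreeSeeds.zero : TreeSeeds F 0 := by
  intro p eR W0 W
  refine ⟨p.em W W + W, ?_⟩
  intro n V Y₀ 𝔏 T hocc _ _ f hf Y hY hmem
  obtain ⟨ρ, l, κ, ι, i1, P, h1, h2, h3, h4, h5⟩ := hf
  refine 𝔏.zero_free h4 h3 hY ?_ hmem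
  refine (Algebra.adjoin_le ?_) h5
  rintro x (⟨i, rfl⟩ | ⟨i, rfl⟩)
  · have h6 : T.val ∈ supported F (Y : Set (Fin n)) := by
      refine supported_mono ?_ T.val_supp
      intro i hi
      by_contra hc
      have := hocc i (fun hc' => hc (Finset.mem_coe.2 (hY hc')))
      exact hi (by omega)
    have h7 : H530R2.jet κ T.val l i ∈ supported F (Y : Set (Fin n)) :=
      jet_mem (fun _ => (supported F (Y : Set (Fin n)) : Set (MvPolynomial (Fin n) F))) h6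
        (fun _ => le_rfl) (fun _ k x hx => pderiv_mem_supported k hx) l i
    exact Algebra.adjoin_mono Set.subset_union_right h7
  · exact Algebra.subset_adjoin (Or.inl ⟨i, rfl⟩)

end tree

end Pool.Agent.H530R2
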