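import Mathlib
import Pool.Agent.H530R2.Tre2

/-!
The induction for formulas over a family of classes.
-/

namespace Pool.Agent.H530R2

open MvPolynomial Module

universe v

section claim

variable {F : Type v} [Field F] {n : ℕ}

theorem jet_zero {ρ : ℕ} (κ : Fin ρ → Fin n) {g : MvPolynomial (Fin n) F} {k : Fin n}
    (h : pderiv k g = 0) (l : ℕ) (i : JI ρ l) : pderiv k (jet κ g l i) = 0 :=
  jet_mem (κ := κ) (fun _ => {x | pderiv k x = 0}) h (fun _ => le_rfl)
    (fun _ k' x (hx : pderiv k x = 0) => by
      show pderiv k (pderiv k' x) = 0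
      rw [pderiv_comm', hx, map_zero]) l i

/-- the variables whose multiplicity is more than `k` -/
noncomputable def ZT (T : Tr F n) (Y : Finset (Fin n)) (k : ℕ) : Finset (Fin n) :=
  Finset.univ.filter fun i => i ∉ Y ∧ k < T.occ i

theorem mem_ZT {T : Tr F n} {Y : Finset (Fin n)} {k : ℕ} {i : Fin n} :
    i ∈ ZT T Y k ↔ i ∉ Y ∧ k < T.occ i := by simp [ZT]

/-- the costs of the recursion -/
def tc (E : ℕ) : ℕ → ℕ
  | 0 => E
  | r + 1 => 2 * tc E r + 3 * E

theorem tc_ge (E r : ℕ) : E ≤ tc E r := by
  cases r with
  | zero => exact le_rfl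
  | succ r => rw [tc]; omega

/-- freeing the variables of multiplicity `k + 1`, by induction on the rank -/
theorem tree_claim (V : VanM F n) {Y₁ : Finset (Fin n)} {k N E eR : ℕ} {ρ l : ℕ}
    {κ : Fin ρ → Fin n} {ι : Type} [Fintype ι] {P : ι → MvPolynomial (Fin n) F}
    {L : Set (MvPolynomial (Fin n) F)} {f : MvPolynomial (Fin n) F}
    (hN : Fintype.card (JI ρ l ⊕ ι) ≤ N) (heR : eR ≤ E)
    (hleaf : ∀ g ∈ L, ∀ B Y : Finset (Fin n), Y₁ ⊆ Y →
      Ctrl (B : Set (Fin n)) (Sum.elim (jet κ g l) P) f → ∀ j, f ∈ V.I (j + E) Y →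
      f ∈ V.I j (Y ∪ B))
    (hmem : ∀ B Y : Finset (Fin n), Y₁ ⊆ Y →
      Ctrl (B : Set (Fin n)) P f → ∀ j, f ∈ V.I (j + E) Y → f ∈ V.I j (Y ∪ B))
    (hone : ∀ a : Tr F n, Reg V eR Y₁ a → a.Lv L → ∀ Y : Finset (Fin n), Y₁ ⊆ Y →
      (∀ i, i ∉ Y → a.occ i ≤ k) → ∀ (ρ' : ℕ) (κ' : Fin ρ' → Fin n)
      (g : Fin ρ' → JI ρ l ⊕ ι), ρ' ≤ N →
      (Matrix.of fun q q' => pderiv (κ' q) ((Sum.elim (jet κ a.val l) P) (g q'))).det ≠ 0 →
      (Matrix.of fun q q' => pderiv (κ' q) ((Sum.elim (jet κ a.val l) P) (g q'))).det ∉ V.I E Y)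
    (htwo : ∀ a b : Tr F n, Reg V eR Y₁ a → Reg V eR Y₁ b → a.Lv L → b.Lv L →
      ∀ B Y : Finset (Fin n), Y₁ ⊆ Y → (∀ i, i ∉ Y → a.occ i ≤ k) →
      (∀ i, i ∉ Y → b.occ i ≤ k) →
      Ctrl (B : Set (Fin n)) (Sum.elim (Sum.elim (jet κ a.val l) (jet κ b.val l)) P) f →
      ∀ j, f ∈ V.I (j + E) Y → f ∈ V.I j (Y ∪ B)) :
    ∀ (r : ℕ) (T : Tr F n), Reg V eR Y₁ T → T.Lv L → (∀ i, i ∉ Y₁ → T.occ i ≤ k + 1) →
      er (ZT T Y₁ k) (Sum.elim (jet κ T.val l) P) ≤ r →
      Ctrl (ZT T Y₁ k : Set (Fin n)) (Sum.elim (jet κ T.val l) P) f →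
      ∀ (j : ℕ) (Y : Finset (Fin n)), Y₁ ⊆ Y → f ∈ V.I (j + E + tc E (r + 1)) Y →
      f ∈ V.I (j + E) (Y ∪ ZT T Y₁ k) := by
  classical
  intro r
  induction r using Nat.strong_induction_on with
  | _ r IH =>
    intro T
    induction T with
    | leaf g =>
      intro _ hL _ _ hctl j Y hY hf
      refine hleaf g hL _ Y hY hctl (j + E) (V.mono ?_ _ hf)
      have := tc_ge E (r + 1)
      omega
    | gate γ a b iha ihb =>
      intro hR hL hocc her hctl j Y hY hf
      obtain ⟨hRa, hRb, hα⟩ := hR
      obtain ⟨hLa, hLb⟩ := hL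
      set T : Tr F n := .gate γ a b with hT
      have hoccT : ∀ i, T.occ i = a.occ i + b.occ i := fun i => rfl
      have hZa : ZT a Y₁ k ⊆ ZT T Y₁ k := by
        intro i hi
        rw [mem_ZT] at hi ⊢
        have := hoccT i
        exact ⟨hi.1, by omega⟩
      have hZb : ZT b Y₁ k ⊆ ZT T Y₁ k := by
        intro i hi
        rw [mem_ZT] at hi ⊢
        have := hoccT i
        exact ⟨hi.1, by omega⟩
      have hval : T.val = aeval ![a.val, b.val] γ := rfl
      -- the chain rule on the two sets
      have hda : ∀ i ∈ ZT a Y₁ k, pderiv i T.val =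
          aeval ![a.val, b.val] (pderiv 0 γ) * pderiv i a.val := by
        intro i hi
        rw [mem_ZT] at hi
        have h1 := hocc i hi.1
        have h2 := hoccT i
        rw [hval, pderiv_gate, Tr.pderiv_val (T := b) (k := i) (by omega), mul_zero, add_zero]
      have hdb : ∀ i ∈ ZT b Y₁ k, pderiv i T.val =
          aeval ![a.val, b.val] (pderiv 1 γ) * pderiv i b.val := by
        intro i hi
        rw [mem_ZT] at hi
        have h1 := hocc i hi.1
        have h2 := hoccT i
        rw [hval, pderiv_gate, Tr.pderiv_val (T := a) (k := i) (by omega), mul_zero, zero_add]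
      have hge := tc_ge E r
      -- the treatment of a child
      have hchild : ∀ (s : Fin 2) (c : Tr F n), Reg V eR Y₁ c → c.Lv L →
          (∀ i, i ∉ Y₁ → c.occ i ≤ k + 1) → ZT c Y₁ k ⊆ ZT T Y₁ k →
          (∀ i ∈ ZT c Y₁ k, pderiv i T.val =
            aeval ![a.val, b.val] (pderiv s γ) * pderiv i c.val) →
          (er (ZT c Y₁ k) (Sum.elim (jet κ c.val l) P) ≤ r →
            Ctrl (ZT c Y₁ k : Set (Fin n)) (Sum.elim (jet κ c.val l) P) f →
            ∀ (j : ℕ) (Y : Finset (Fin n)), Y₁ ⊆ Y → f ∈ V.I (j + E + tc E (r + 1)) Y →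
            f ∈ V.I (j + E) (Y ∪ ZT c Y₁ k)) →
          f ∈ V.I (j + E) (Y ∪ ZT T Y₁ k) ∨
            ∀ (j : ℕ) (Y : Finset (Fin n)), Y₁ ⊆ Y →
              f ∈ V.I (j + E + tc E r) Y → f ∈ V.I (j + E) (Y ∪ ZT c Y₁ k) := by
        intro s c hRc hLc hoccc hZc hdc hrec
        by_cases hα0 : aeval ![a.val, b.val] (pderiv s γ) = 0
        · -- no dependence
          right
          intro j Y hY hf
          have hctl' : Ctrl (ZT c Y₁ k : Set (Fin n)) P f := by
            refine Ctrl.trans (J' := Sum.elim (jet κ T.val l) P) ?_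
              (hctl.mono (by exact_mod_cast hZc))
            rintro (i | i)
            · refine ⟨0, fun x hx => ?_⟩
              rw [Sum.elim_inl, jet_zero κ (by rw [hdc x (Finset.mem_coe.1 hx), hα0, zero_mul])]
              simp
            · refine ⟨Pi.single i 1, fun x _ => ?_⟩
              rw [Finset.sum_eq_single i]
              · simp
              · intro b _ hb
                rw [Pi.single_eq_of_ne hb, zero_mul]
              · intro h; exact absurd (Finset.mem_univ _) h
          refine hmem _ Y hY hctl' (j + E) (V.mono ?_ _ hf)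
          omega
        · have het : Et (ZT c Y₁ k) (aeval ![a.val, b.val] (pderiv s γ))
              (Sum.elim (jet κ T.val l) P) (Sum.elim (jet κ c.val l) P) :=
            (Et.jet κ hdc l).sum P
          have her' := het.er_eq hα0
          have hctl' : Ctrl (ZT c Y₁ k : Set (Fin n)) (Sum.elim (jet κ c.val l) P) f :=
            Ctrl.trans (fun i => het.ctrl i) (hctl.mono (by exact_mod_cast hZc))
          have hmono := er_mono hZc (Sum.elim (jet κ T.val l) P)
          by_cases hlt : er (ZT c Y₁ k) (Sum.elim (jet κ c.val l) P) <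
              er (ZT T Y₁ k) (Sum.elim (jet κ T.val l) P)
          · right
            intro j Y hY hf
            obtain ⟨r', rfl⟩ : ∃ r', r = r' + 1 := ⟨r - 1, by omega⟩
            exact IH r' (by omega) c hRc hLc hoccc (by omega) hctl' j Y hY hf
          · left
            have h1 := hrec (by omega) hctl' j Y hY hf
            -- all further steps are lossless
            obtain ⟨ρ', m, κ', g, hρ', hκ', hμ, hrel⟩ := het.cramer
            have hspeq : sp (ZT c Y₁ k) (Sum.elim (jet κ T.val l) P) =
                sp (ZT T Y₁ k) (Sum.elim (jet κ T.val l) P) := by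
              apply Submodule.eq_of_le_of_finrank_le
              · unfold sp
                apply Submodule.span_mono
                apply Set.image_mono
                exact_mod_cast hZc
              · have h2 : er (ZT T Y₁ k) (Sum.elim (jet κ T.val l) P) ≤
                    er (ZT c Y₁ k) (Sum.elim (jet κ T.val l) P) := by omega
                exact h2
            set μ := (Matrix.of fun q q' =>
              pderiv (κ' q) ((Sum.elim (jet κ c.val l) P) (g q'))).det with hμdef
            have hnon : ∀ Y', Y ∪ ZT c Y₁ k ⊆ Y' →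
                μ * (aeval ![a.val, b.val] (pderiv s γ)) ^ m ∉ V.I (j + E) Y' := by
              intro Y' hY' hmem'
              have hpr := V.prime (j + E) Y'
              rcases hpr.mem_or_mem hmem' with h3 | h3
              · refine hone c hRc hLc Y' (hY.trans (Finset.subset_union_left.trans hY')) ?_
                  ρ' κ' g (hρ'.trans hN) hμ (V.mono (Nat.le_add_left _ _) _ h3)
                intro i hi
                by_contra hc
                apply hi
                apply hY'
                apply Finset.mem_union_right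
                rw [mem_ZT]
                exact ⟨fun hc' => hi (hY' (Finset.mem_union_left _ (hY hc'))), by omega⟩
              · have h4 := hpr.mem_of_pow_mem _ h3
                exact hα s hα0 Y' (hY.trans (Finset.subset_union_left.trans hY'))
                  (V.mono (by omega) _ h4)
            have hall : ∀ S : Finset (Fin n), S ⊆ ZT T Y₁ k →
                f ∈ V.I (j + E) (S ∪ (Y ∪ ZT c Y₁ k)) := by
              intro S
              induction S using Finset.induction_on with
              | empty => intro _; rw [Finset.empty_union]; exact h1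
              | insert i S _ ihS =>
                intro hS
                have ihS' := ihS (fun x hx => hS (Finset.mem_insert_of_mem hx))
                have hiT : i ∈ ZT T Y₁ k := hS (Finset.mem_insert_self _ _)
                rw [Finset.insert_union]
                by_cases hi : i ∈ S ∪ (Y ∪ ZT c Y₁ k)
                · rwa [Finset.insert_eq_of_mem hi]
                · obtain ⟨cf, hcf⟩ := hrel i (by
                    rw [hspeq]
                    exact Submodule.subset_span ⟨i, Finset.mem_coe.2 hiT, rfl⟩)
                  exact V.lossless1 hi (fun q => Finset.mem_union_right _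
                      (Finset.mem_union_right _ (hκ' q)))
                    (ctrl_pde hctl (Finset.mem_coe.2 hiT)
                      (fun q => Finset.mem_coe.2 (hZc (hκ' q))) hcf) ihS'
                    (hnon _ Finset.subset_union_right)
            have h5 := hall (ZT T Y₁ k) le_rfl
            have h6 : ZT T Y₁ k ∪ (Y ∪ ZT c Y₁ k) = Y ∪ ZT T Y₁ k := by
              rw [Finset.union_comm, Finset.union_assoc]
              congr 1
              exact Finset.union_eq_right.2 hZc
            rwa [h6] at h5
      have hocca : ∀ i, i ∉ Y₁ → a.occ i ≤ k + 1 := fun i hi => by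
        have h1 := hocc i hi
        have h2 := hoccT i
        omega
      have hoccb : ∀ i, i ∉ Y₁ → b.occ i ≤ k + 1 := fun i hi => by
        have h1 := hocc i hi
        have h2 := hoccT i
        omega
      rcases hchild 0 a hRa hLa hocca hZa hda (fun h1 h2 => iha hRa hLa hocca h1 h2) with h | hfa
      · exact h
      rcases hchild 1 b hRb hLb hoccb hZb hdb (fun h1 h2 => ihb hRb hLb hoccb h1 h2) with h | hfb
      · exact h
      -- free both children, then the remaining variables
      have htc : tc E (r + 1) = 2 * tc E r + 3 * E := rfl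
      have h1 : f ∈ V.I (j + (tc E r + 2 * E) + E) (Y ∪ ZT a Y₁ k) := by
        refine hfa (j + (tc E r + 2 * E)) Y hY (V.mono ?_ _ hf)
        omega
      have h2 : f ∈ V.I (j + E + E) (Y ∪ ZT a Y₁ k ∪ ZT b Y₁ k) := by
        refine hfb (j + E) _ (hY.trans Finset.subset_union_left) (V.mono ?_ _ h1)
        omega
      have h3 : f ∈ V.I (j + E) (Y ∪ ZT a Y₁ k ∪ ZT b Y₁ k ∪ ZT T Y₁ k) := by
        refine htwo a b hRa hRb hLa hLb _ _
          (hY.trans (Finset.subset_union_left.trans Finset.subset_union_left)) ?_ ?_ ?_ (j + E) h2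
        · intro i hi
          by_contra hc
          apply hi
          apply Finset.mem_union_left
          apply Finset.mem_union_right
          rw [mem_ZT]
          exact ⟨fun hc' => hi (Finset.mem_union_left _ (Finset.mem_union_left _ (hY hc'))),
            by omega⟩
        · intro i hi
          by_contra hc
          apply hi
          apply Finset.mem_union_right
          rw [mem_ZT]
          exact ⟨fun hc' => hi (Finset.mem_union_left _ (Finset.mem_union_left _ (hY hc'))),
            by omega⟩
        · refine Ctrl.trans (J' := Sum.elim (jet κ T.val l) P) ?_ hctl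
          have hgen : ∀ x ∈ Algebra.adjoin F (Set.range (Sum.elim (Sum.elim (jet κ a.val l)
              (jet κ b.val l)) P)), Ctrl (ZT T Y₁ k : Set (Fin n))
              (Sum.elim (Sum.elim (jet κ a.val l) (jet κ b.val l)) P) x := by
            intro x hx
            refine (ctrl_of_adjoin (W := ∅) ?_).mono (Set.subset_univ _ |>.trans (by simp))
            exact Algebra.adjoin_mono Set.subset_union_left hx
          rintro (i | i)
          · apply hgen
            have h4 : T.val ∈ Algebra.adjoin F ({a.val, b.val} : Set (MvPolynomial (Fin n) F)) := by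
              have h5 : T.val ∈ Algebra.adjoin F (Set.range ![a.val, b.val]) := by
                rw [Algebra.adjoin_range_eq_range_aeval]
                exact ⟨γ, rfl⟩
              refine Algebra.adjoin_mono ?_ h5
              rintro _ ⟨i, rfl⟩
              fin_cases i
              · exact Or.inl rfl
              · exact Or.inr rfl
            refine Algebra.adjoin_mono ?_ (jet_adjoin κ h4 l i)
            rintro x (⟨i, rfl⟩ | ⟨i, rfl⟩)
            · exact ⟨Sum.inl (Sum.inl i), rfl⟩
            · exact ⟨Sum.inl (Sum.inr i), rfl⟩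
          · apply hgen
            exact Algebra.subset_adjoin ⟨Sum.inr i, rfl⟩
      have h6 : Y ∪ ZT a Y₁ k ∪ ZT b Y₁ k ∪ ZT T Y₁ k = Y ∪ ZT T Y₁ k := by
        rw [Finset.union_assoc, Finset.union_assoc]
        congr 1
        rw [← Finset.union_assoc]
        exact Finset.union_eq_right.2 (Finset.union_subset hZa hZb)
      rwa [h6] at h3

end claim

end Pool.Agent.H530R2
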