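import Mathlib
import Pool.Agent.H530R2.Tre3

/-!
Polynomials in few formulas over a family of classes: the induction on the number of reads.
-/

namespace Pool.Agent.H530R2

open MvPolynomial Module

universe v

section succ

variable {F : Type v} [Field F]

/-- weights of derivatives of members of the class -/
def Cst.dW (p : Cst) (W : ℕ) : ℕ → ℕ
  | 0 => W
  | l + 1 => p.dW W l + p.der (p.dW W l)

theorem Cst.dW_mono (p : Cst) (W : ℕ) {l l' : ℕ} (h : l ≤ l') : p.dW W l ≤ p.dW W l' := by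
  induction l', h using Nat.le_induction with
  | base => exact le_rfl
  | succ b _ ih => exact ih.trans (Nat.le_add_right _ _)

theorem LFam.jet_mem {n : ℕ} {V : VanM F n} {p : Cst} {Y₀ : Finset (Fin n)} (𝔏 : LFam V p Y₀)
    {W ρ l : ℕ} (κ : Fin ρ → Fin n) {g : MvPolynomial (Fin n) F} (hg : g ∈ 𝔏.K W)
    (i : JI ρ l) : jet κ g l i ∈ 𝔏.K (p.dW W l) := by
  refine H530R2.jet_mem (fun l => 𝔏.K (p.dW W l)) hg (fun l => 𝔏.mono (Nat.le_add_right _ _))
    (fun l k x hx => 𝔏.mono (Nat.le_add_left _ _) (𝔏.der_mem k hx)) l i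

theorem ctrl_of_gens {n : ℕ} {ι : Type} [Fintype ι] {G : ι → MvPolynomial (Fin n) F}
    {f : MvPolynomial (Fin n) F} (h : f ∈ Algebra.adjoin F (Set.range G)) (T : Set (Fin n)) :
    Ctrl T G f :=
  (ctrl_of_adjoin (W := ∅) (Algebra.adjoin_mono Set.subset_union_left h)).mono
    ((Set.subset_univ _).trans (by simp))

theorem TreeSeeds.succ {k : ℕ} (hk : TreeSeeds F k) : TreeSeeds F (k + 1) := by
  classical
  intro p eR W0 W
  choose sd1 hsd1 using fun W' => hk p eR W0 W'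
  choose sd2 hsd2 using fun W' => hk (p.next sd1) eR (W0 + 1) W'
  set N := (W + 1) ^ W + (W + 1) ^ W + W with hN
  set W1 := p.dW W0 W + W with hW1
  set E := eR + (p.em N W1 + N) + (p.em N W + N) + ((p.next sd1).em N (W + 1) + N) +
    (((p.next sd1).next sd2).em N (W + 1) + N) with hE
  refine ⟨sd1 W + E + tc E (N + 1), ?_⟩
  intro n V Y₀ 𝔏 T hocc hR hL f hf Y hY hmem
  obtain ⟨ρ, l, κ, ι, i1, P, h1, h2, h3, h4, h5⟩ := id hf
  have hpow : (ρ + 1) ^ l ≤ (W + 1) ^ W :=
    (Nat.pow_le_pow_left (by omega) _).trans (Nat.pow_le_pow_right (by omega) h2)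
  -- the weakened family
  have hreg : ∀ {a : Tr F n}, Reg V eR Y a → ∀ Y', Y ⊆ Y' → Reg V eR Y' a :=
    fun ha Y' hY' => ha.mono le_rfl hY'
  have hfree1 : f ∈ V.I (sd1 W + E) (Y ∪ ZT T Y k) := by
    refine tree_claim V (Y₁ := Y) (k := k) (N := N) (E := E) (eR := eR) (ρ := ρ) (l := l)
      (κ := κ) (P := P) (L := 𝔏.K W0) (f := f) ?_ (by omega) ?_ ?_ ?_ ?_ N T
      (hR.mono le_rfl hY) hL (fun i hi => hocc i (fun hc => hi (hY hc))) ?_ ?_ (sd1 W) Y le_rfl
      hmem
    · rw [Fintype.card_sum, JI.card]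
      omega
    · -- leaves
      intro g hg B Y' hY' hctl j hj
      refine 𝔏.free (W := W1) (r := N) (e := E - N) ?_ ?_ (by omega) (hY.trans hY') hctl
        (V.mono (by omega) _ hj)
      · rintro (i | i)
        · exact 𝔏.mono ((p.dW_mono W0 h2).trans (Nat.le_add_right _ _)) (𝔏.jet_mem κ hg i)
        · exact 𝔏.mono (Nat.le_add_left _ _) (h4 i)
      · rw [Fintype.card_sum, JI.card]
        omega
    · -- members
      intro B Y' hY' hctl j hj
      exact 𝔏.free (W := W) (r := N) (e := E - N) h4 (by omega) (by omega) (hY.trans hY') hctl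
        (V.mono (by omega) _ hj)
    · -- one tree
      intro a ha haL Y' hY' hocca ρ' κ' g hρ' hμ
      have hb : Y₀ ⊆ Y' := hY.trans hY'
      set 𝔏₁ := (𝔏.weaken hb).tree a.val sd1 (fun W' f hf Y'' hY'' hm =>
        hsd1 W' n V Y' (𝔏.weaken hb) a hocca (hreg ha Y' hY') haL f hf Y'' hY'' hm) with h𝔏₁
      refine 𝔏₁.minor (W := W + 1) (r := N) (e := E) ?_ (by omega) κ' g hρ' hμ le_rfl
      rintro (i | i)
      · exact TF.jet κ (by omega) (by omega) i
      · exact TF.ofK (by omega) (𝔏.mono (by omega) (h4 i))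
    · -- two trees
      intro a b ha hb haL hbL B Y' hY' hocca hoccb hctl j hj
      have hb0 : Y₀ ⊆ Y' := hY.trans hY'
      set 𝔏₁ := (𝔏.weaken hb0).tree a.val sd1 (fun W' f hf Y'' hY'' hm =>
        hsd1 W' n V Y' (𝔏.weaken hb0) a hocca (hreg ha Y' hY') haL f hf Y'' hY'' hm) with h𝔏₁
      have hbL' : b.Lv (𝔏₁.K (W0 + 1)) := by
        refine hbL.mono ?_
        intro x hx
        exact TF.ofK (by omega) (𝔏.mono (by omega) hx)
      set 𝔏₂ := 𝔏₁.tree b.val sd2 (fun W' f hf Y'' hY'' hm =>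
        hsd2 W' n V Y' 𝔏₁ b hoccb (hreg hb Y' hY') hbL' f hf Y'' hY'' hm) with h𝔏₂
      refine 𝔏₂.free (W := W + 1) (r := N) (e := E - N) ?_ ?_ (by omega) le_rfl hctl
        (V.mono (by omega) _ hj)
      · rintro ((i | i) | i)
        · exact TF.ofK (𝔏 := 𝔏₁) (by omega) (TF.jet κ (by omega) (by omega) i)
        · exact TF.jet (𝔏 := 𝔏₁) κ (by omega) (by omega) i
        · exact TF.ofK (𝔏 := 𝔏₁) (by omega) (TF.ofK (by omega) (𝔏.mono (by omega) (h4 i)))
      · rw [Fintype.card_sum, Fintype.card_sum, JI.card]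
        omega
    · refine (er_le_card _ _).trans ?_
      rw [Fintype.card_sum, JI.card]
      omega
    · refine ctrl_of_gens ?_ _
      rwa [Set.Sum.elim_range]
  have hb : Y₀ ⊆ Y ∪ ZT T Y k := hY.trans Finset.subset_union_left
  refine hsd1 W n V (Y ∪ ZT T Y k) (𝔏.weaken hb) T ?_ (hR.mono le_rfl hb) hL f hf _ le_rfl
    (V.mono (Nat.le_add_right _ _) _ hfree1)
  intro i hi
  rw [Finset.mem_union, mem_ZT] at hi
  push Not at hi
  exact hi.2 hi.1

theorem TreeSeeds.all (k : ℕ) : TreeSeeds F k := by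
  induction k with
  | zero => exact TreeSeeds.zero
  | succ k ih => exact ih.succ

end succ

section list

variable {F : Type v} [Field F]

/-- the constants after adjoining `c` formulas -/
noncomputable def Cst.trees (F : Type v) [Field F] (k eR W0 : ℕ) (p : Cst) : ℕ → Cst
  | 0 => p
  | c + 1 => (Cst.trees F k eR W0 p c).next
      (fun W => Classical.choose (TreeSeeds.all (F := F) k (Cst.trees F k eR W0 p c) eR (W0 + c) W))

/-- the family generated by a list of formulas -/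
theorem LFam.trees {n : ℕ} {V : VanM F n} {p : Cst} {Y₀ : Finset (Fin n)} (𝔏 : LFam V p Y₀)
    (k eR W0 : ℕ) : ∀ (c : ℕ) (T : Fin c → Tr F n), (∀ q i, i ∉ Y₀ → (T q).occ i ≤ k) →
      (∀ q, Reg V eR Y₀ (T q)) → (∀ q, (T q).Lv (𝔏.K W0)) →
      ∃ 𝔏' : LFam V (Cst.trees F k eR W0 p c) Y₀, (∀ W, 𝔏.K W ⊆ 𝔏'.K (W + c)) ∧
        ∀ q W, c ≤ W → (T q).val ∈ 𝔏'.K W := by
  intro c
  induction c with
  | zero =>
    intro T _ _ _
    exact ⟨𝔏, fun W _ hx => hx, fun q => q.elim0⟩
  | succ c ih =>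
    intro T hocc hR hL
    obtain ⟨𝔏', h1, h2⟩ := ih (fun q => T q.castSucc) (fun q => hocc _) (fun q => hR _)
      (fun q => hL _)
    have hL' : (T (Fin.last c)).Lv (𝔏'.K (W0 + c)) := (hL _).mono (h1 W0)
    refine ⟨𝔏'.tree (T (Fin.last c)).val _ (fun W f hf Y hY hm =>
      Classical.choose_spec (TreeSeeds.all (F := F) k (Cst.trees F k eR W0 p c) eR (W0 + c) W)
        n V Y₀ 𝔏' (T (Fin.last c)) (hocc _) (hR _) hL' f hf Y hY hm), ?_, ?_⟩
    · intro W x hx
      exact TF.ofK (by omega) (𝔏'.mono (by omega) (h1 W hx))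
    · intro q W hW
      refine Fin.lastCases ?_ (fun q => ?_) q
      · exact TF.val
      · exact TF.ofK (by omega) (h2 q W (by omega))

end list

end Pool.Agent.H530R2
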