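import Mathlib
import Pool.Agent.H530R2.Tre5
import Pool.Agent.H530R2.Seg2

/-!
The coefficients of formulas with respect to few variables.
-/

namespace Pool.Agent.H530R2

open MvPolynomial Module

section skel

variable {F : Type} [Field F] {n : ℕ}

open Classical in
/-- the number of leaves containing variables of `A` -/
noncomputable def Tr.al (A : Finset (Fin n)) : Tr F n → ℕ
  | .leaf g => if Disjoint A g.vars then 0 else 1
  | .gate _ a b => a.al A + b.al A

theorem Tr.al_le (A : Finset (Fin n)) (T : Tr F n) : T.al A ≤ ∑ i ∈ A, T.occ i := by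
  classical
  induction T with
  | leaf g =>
    simp only [Tr.al, Tr.occ]
    split_ifs with h
    · exact Nat.zero_le _
    · obtain ⟨i, hi, hig⟩ := Finset.not_disjoint_iff.1 h
      refine le_trans ?_ (Finset.single_le_sum
        (f := fun i => if i ∈ g.vars then 1 else 0) (fun _ _ => Nat.zero_le _) hi)
      simp [hig]
  | gate γ a b iha ihb =>
    show a.al A + b.al A ≤ ∑ i ∈ A, (a.occ i + b.occ i)
    rw [Finset.sum_add_distrib]
    exact Nat.add_le_add iha ihb

theorem Tr.al_zero {A : Finset (Fin n)} {T : Tr F n} (h : T.al A = 0) :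
    T.val ∈ supported F {k : Fin n | k ∉ A} := by
  classical
  induction T with
  | leaf g =>
    rw [Tr.al] at h
    split_ifs at h with hd
    rw [Tr.val, mem_supported]
    intro i hi
    exact fun hiA => Finset.disjoint_left.1 hd hiA (Finset.mem_coe.1 hi)
  | gate γ a b iha ihb =>
    have h' : a.al A + b.al A = 0 := h
    have h1 : (Tr.gate γ a b).val ∈ Algebra.adjoin F (Set.range ![a.val, b.val]) := by
      rw [Algebra.adjoin_range_eq_range_aeval]
      exact ⟨γ, rfl⟩
    refine (Algebra.adjoin_le ?_) h1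
    rintro _ ⟨i, rfl⟩
    fin_cases i
    · exact iha (by omega)
    · exact ihb (by omega)

/-- `Red T' T`: the formula `T'` arises from a subformula of `T` by replacing subformulas by
constants and subformulas of themselves -/
inductive Red : Tr F n → Tr F n → Prop
  | refl (T : Tr F n) : Red T T
  | const (c : F) (T : Tr F n) : Red (.leaf (C c)) T
  | left {T' a : Tr F n} (γ : MvPolynomial (Fin 2) F) (b : Tr F n) : Red T' a →
      Red T' (.gate γ a b)
  | right {T' b : Tr F n} (γ : MvPolynomial (Fin 2) F) (a : Tr F n) : Red T' b →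
      Red T' (.gate γ a b)
  | gate {a' a b' b : Tr F n} (γ : MvPolynomial (Fin 2) F) : Red a' a → Red b' b →
      Red (.gate γ a' b') (.gate γ a b)

theorem Red.size {T' T : Tr F n} (h : Red T' T) : T'.size ≤ T.size := by
  induction h with
  | refl T => exact le_rfl
  | const c T => exact T.size_pos
  | left γ b _ ih => rw [Tr.size]; omega
  | right γ a _ ih => rw [Tr.size]; omega
  | gate γ _ _ ih1 ih2 => rw [Tr.size, Tr.size]; omega

theorem Red.ml {T' T : Tr F n} (h : Red T' T) (hT : T.ML) : T'.ML := by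
  induction h with
  | refl T => exact hT
  | const c T => trivial
  | left γ b _ ih => exact ih hT.1
  | right γ a _ ih => exact ih hT.2.1
  | gate γ _ _ ih1 ih2 => exact ⟨ih1 hT.1, ih2 hT.2.1, hT.2.2⟩

theorem Red.lv {L : Set (MvPolynomial (Fin n) F)} (hC : ∀ c, C c ∈ L) {T' T : Tr F n}
    (h : Red T' T) (hT : T.Lv L) : T'.Lv L := by
  induction h with
  | refl T => exact hT
  | const c T => exact hC c
  | left γ b _ ih => exact ih hT.1
  | right γ a _ ih => exact ih hT.2
  | gate γ _ _ ih1 ih2 => exact ⟨ih1 hT.1, ih2 hT.2⟩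

theorem occ_const (c : F) (i : Fin n) : (Tr.leaf (C c) : Tr F n).occ i = 0 := by
  simp [Tr.occ]

theorem al_const (A : Finset (Fin n)) (c : F) : (Tr.leaf (C c) : Tr F n).al A = 0 := by
  simp [Tr.al]

theorem Red.occ {T' T : Tr F n} (h : Red T' T) (i : Fin n) : T'.occ i ≤ T.occ i := by
  induction h with
  | refl T => exact le_rfl
  | const c T => rw [occ_const]; exact Nat.zero_le _
  | left γ b _ ih => exact ih.trans (Nat.le_add_right _ _)
  | right γ a _ ih => exact ih.trans (Nat.le_add_left _ _)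
  | gate γ _ _ ih1 ih2 => exact Nat.add_le_add ih1 ih2

/-- values of reductions of a formula, and leaves -/
def Dn (L : Set (MvPolynomial (Fin n) F)) (T : Tr F n) : Set (MvPolynomial (Fin n) F) :=
  {x | x ∈ L ∨ ∃ T' : Tr F n, Red T' T ∧ x = T'.val}

theorem Dn.left (L : Set (MvPolynomial (Fin n) F)) (γ : MvPolynomial (Fin 2) F)
    (a b : Tr F n) : Dn L a ⊆ Dn L (.gate γ a b) := by
  rintro x (hx | ⟨T', h1, h5⟩)
  · exact Or.inl hx
  · exact Or.inr ⟨T', h1.left γ b, h5⟩

theorem Dn.right (L : Set (MvPolynomial (Fin n) F)) (γ : MvPolynomial (Fin 2) F)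
    (a b : Tr F n) : Dn L b ⊆ Dn L (.gate γ a b) := by
  rintro x (hx | ⟨T', h1, h5⟩)
  · exact Or.inl hx
  · exact Or.inr ⟨T', h1.right γ a, h5⟩

/-- the structure of a formula above the leaves with variables of `A` -/
theorem skel {L : Set (MvPolynomial (Fin n) F)} {A : Finset (Fin n)} {c : ℕ}
    (hL : ∀ g ∈ L, Gn L A c g) (T : Tr F n) : T.ML → T.Lv L → T.al A ≠ 0 →
    ∃ T₀ T₁ : Tr F n, (Red T₀ T ∧ T₀.al A = 0) ∧ (Red T₁ T ∧ T₁.al A = 0) ∧
      ∃ q : MvPolynomial (Fin n) F, T.val = (T₁.val - T₀.val) * q + T₀.val ∧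
      ∃ G : Set (MvPolynomial (Fin n) F), G.Finite ∧ G.ncard + 4 ≤ T.al A * (c + 4) ∧
        (∀ x ∈ G, x ∈ Dn L T ∧ x ∈ supported F {k : Fin n | k ∉ A}) ∧
        q ∈ Algebra.adjoin F (X '' (A : Set (Fin n)) ∪ G) := by
  classical
  induction T with
  | leaf g =>
    intro _ hg hal
    obtain ⟨G, hG, hGc, hGL, hgG⟩ := hL g hg
    have hal1 : (Tr.leaf g : Tr F n).al A = 1 := by
      rw [Tr.al] at hal ⊢
      by_cases hd : Disjoint A g.vars
      · rw [if_pos hd] at hal
        exact absurd rfl hal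
      · rw [if_neg hd]
    refine ⟨.leaf (C 0), .leaf (C 1), ⟨.const 0 _, al_const A 0⟩,
      ⟨.const 1 _, al_const A 1⟩, g, ?_, G, hG, ?_, ?_, hgG⟩
    · simp only [Tr.val, C_0, C_1, sub_zero, one_mul, add_zero]
    · rw [hal1]; omega
    · intro x hx
      exact ⟨Or.inl (hGL x hx).1, (hGL x hx).2⟩
  | gate γ u v ihu ihv =>
    intro hML hLv hal
    obtain ⟨hmu, hmv, c0, c1, c2, c3, rfl⟩ := id hML
    have hal' : u.al A + v.al A ≠ 0 := hal
    have hval : ∀ a b : Tr F n, (Tr.gate (C c0 + C c1 * X 0 + C c2 * X 1 +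
        C c3 * (X 0 * X 1) : MvPolynomial (Fin 2) F) a b).val =
        C c0 + C c1 * a.val + C c2 * b.val + C c3 * (a.val * b.val) := by
      intro a b
      simp only [Tr.val, map_add, map_mul, algHom_C, aeval_X]
      rfl
    by_cases hu : u.al A = 0
    · have hv : v.al A ≠ 0 := by omega
      obtain ⟨T₀, T₁, ⟨a1, a5⟩, ⟨b1, b5⟩, q, hq, G, hG, hGc, hGL, hqG⟩ :=
        ihv hmv hLv.2 hv
      refine ⟨.gate _ u T₀, .gate _ u T₁, ⟨.gate _ (.refl u) a1, ?_⟩,
        ⟨.gate _ (.refl u) b1, ?_⟩, q, ?_, G, hG, ?_, ?_, hqG⟩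
      · show u.al A + T₀.al A = 0
        omega
      · show u.al A + T₁.al A = 0
        omega
      · rw [hval, hval, hval, hq]
        ring
      · show G.ncard + 4 ≤ (u.al A + v.al A) * (c + 4)
        rw [hu, Nat.zero_add]
        exact hGc
      · intro x hx
        exact ⟨Dn.right L _ _ _ (hGL x hx).1, (hGL x hx).2⟩
    by_cases hv : v.al A = 0
    · obtain ⟨T₀, T₁, ⟨a1, a5⟩, ⟨b1, b5⟩, q, hq, G, hG, hGc, hGL, hqG⟩ :=
        ihu hmu hLv.1 hu
      refine ⟨.gate _ T₀ v, .gate _ T₁ v, ⟨.gate _ a1 (.refl v), ?_⟩,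
        ⟨.gate _ b1 (.refl v), ?_⟩, q, ?_, G, hG, ?_, ?_, hqG⟩
      · show T₀.al A + v.al A = 0
        omega
      · show T₁.al A + v.al A = 0
        omega
      · rw [hval, hval, hval, hq]
        ring
      · show G.ncard + 4 ≤ (u.al A + v.al A) * (c + 4)
        rw [hv, Nat.add_zero]
        exact hGc
      · intro x hx
        exact ⟨Dn.left L _ _ _ (hGL x hx).1, (hGL x hx).2⟩
    · obtain ⟨T₀, T₁, ⟨a1, a5⟩, ⟨b1, b5⟩, q, hq, G, hG, hGc, hGL, hqG⟩ :=
        ihu hmu hLv.1 hu
      obtain ⟨T₀', T₁', ⟨a1', a5'⟩, ⟨b1', b5'⟩, q', hq', G', hG', hGc', hGL', hqG'⟩ :=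
        ihv hmv hLv.2 hv
      refine ⟨.leaf (C 0), .leaf (C 1), ⟨.const 0 _, al_const A 0⟩, ⟨.const 1 _, al_const A 1⟩,
        (Tr.gate (C c0 + C c1 * X 0 + C c2 * X 1 + C c3 * (X 0 * X 1)) u v).val, ?_,
        (G ∪ G') ∪ {T₀.val, T₁.val, T₀'.val, T₁'.val}, ?_, ?_, ?_, ?_⟩
      · simp only [Tr.val, C_0, C_1, sub_zero, one_mul, add_zero]
      · exact (hG.union hG').union (Set.toFinite _)
      · show _ + 4 ≤ (u.al A + v.al A) * (c + 4)
        have h3 : ((G ∪ G') ∪ {T₀.val, T₁.val, T₀'.val, T₁'.val}).ncard ≤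
            G.ncard + G'.ncard + 4 := by
          refine (Set.ncard_union_le _ _).trans (Nat.add_le_add (Set.ncard_union_le _ _) ?_)
          refine (Set.ncard_insert_le _ _).trans (Nat.succ_le_succ ?_)
          refine (Set.ncard_insert_le _ _).trans (Nat.succ_le_succ ?_)
          refine (Set.ncard_insert_le _ _).trans (Nat.succ_le_succ ?_)
          rw [Set.ncard_singleton]
        rw [add_mul]
        omega
      · rintro x ((hx | hx) | hx)
        · exact ⟨Dn.left L _ _ _ (hGL x hx).1, (hGL x hx).2⟩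
        · exact ⟨Dn.right L _ _ _ (hGL' x hx).1, (hGL' x hx).2⟩
        · rcases hx with rfl | rfl | rfl | rfl
          · exact ⟨Or.inr ⟨_, a1.left _ _, rfl⟩, Tr.al_zero a5⟩
          · exact ⟨Or.inr ⟨_, b1.left _ _, rfl⟩, Tr.al_zero b5⟩
          · exact ⟨Or.inr ⟨_, a1'.right _ _, rfl⟩, Tr.al_zero a5'⟩
          · exact ⟨Or.inr ⟨_, b1'.right _ _, rfl⟩, Tr.al_zero b5'⟩
      · have hmem : ∀ x ∈ ({T₀.val, T₁.val, T₀'.val, T₁'.val} :
            Set (MvPolynomial (Fin n) F)), x ∈ Algebra.adjoin F (X '' (A : Set (Fin n)) ∪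
              ((G ∪ G') ∪ {T₀.val, T₁.val, T₀'.val, T₁'.val})) :=
          fun x hx => Algebra.subset_adjoin (Or.inr (Or.inr hx))
        have hqm : q ∈ Algebra.adjoin F (X '' (A : Set (Fin n)) ∪
              ((G ∪ G') ∪ {T₀.val, T₁.val, T₀'.val, T₁'.val})) :=
          Algebra.adjoin_mono (Set.union_subset_union_right _
            (Set.subset_union_left.trans Set.subset_union_left)) hqG
        have hqm' : q' ∈ Algebra.adjoin F (X '' (A : Set (Fin n)) ∪
              ((G ∪ G') ∪ {T₀.val, T₁.val, T₀'.val, T₁'.val})) :=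
          Algebra.adjoin_mono (Set.union_subset_union_right _
            (Set.subset_union_right.trans Set.subset_union_left)) hqG'
        have hu' := Subalgebra.add_mem _ (Subalgebra.mul_mem _ (Subalgebra.sub_mem _
          (hmem T₁.val (by simp)) (hmem T₀.val (by simp))) hqm) (hmem T₀.val (by simp))
        have hv' := Subalgebra.add_mem _ (Subalgebra.mul_mem _ (Subalgebra.sub_mem _
          (hmem T₁'.val (by simp)) (hmem T₀'.val (by simp))) hqm') (hmem T₀'.val (by simp))
        rw [← hq] at hu'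
        rw [← hq'] at hv'
        rw [hval]
        have hC : ∀ e : F, (C e : MvPolynomial (Fin n) F) ∈ Algebra.adjoin F
            (X '' (A : Set (Fin n)) ∪ ((G ∪ G') ∪ {T₀.val, T₁.val, T₀'.val, T₁'.val})) :=
          fun e => Subalgebra.algebraMap_mem _ e
        exact Subalgebra.add_mem _ (Subalgebra.add_mem _ (Subalgebra.add_mem _ (hC c0)
          (Subalgebra.mul_mem _ (hC c1) hu')) (Subalgebra.mul_mem _ (hC c2) hv'))
          (Subalgebra.mul_mem _ (hC c3) (Subalgebra.mul_mem _ hu' hv'))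

/-- the coefficients of the value of a formula with respect to few variables -/
theorem Tr.gn {L : Set (MvPolynomial (Fin n) F)} {A : Finset (Fin n)} {c κ k : ℕ}
    (hA : A.card ≤ κ) (hL : ∀ g ∈ L, Gn L A c g) {T : Tr F n} (hT : T.ML) (hTL : T.Lv L)
    (hk : ∀ i, T.occ i ≤ k) : Gn (Dn L T) A (κ * k * (c + 4) + 1) T.val := by
  classical
  by_cases hal : T.al A = 0
  · exact Gn.self (Or.inr ⟨T, .refl T, rfl⟩) (Tr.al_zero hal)
      (Nat.le_add_left _ _)
  · obtain ⟨T₀, T₁, ⟨a1, a5⟩, ⟨b1, b5⟩, q, hq, G, hG, hGc, hGL, hqG⟩ := skel hL T hT hTL hal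
    refine ⟨G ∪ {T₀.val, T₁.val}, hG.union (Set.toFinite _), ?_, ?_, ?_⟩
    · have h2 : (G ∪ {T₀.val, T₁.val}).ncard ≤ G.ncard + 2 := by
        refine (Set.ncard_union_le _ _).trans (Nat.add_le_add_left ?_ _)
        refine (Set.ncard_insert_le _ _).trans (Nat.succ_le_succ ?_)
        rw [Set.ncard_singleton]
      have h3 : T.al A ≤ κ * k := by
        refine (Tr.al_le A T).trans ?_
        calc ∑ i ∈ A, T.occ i ≤ ∑ _i ∈ A, k := Finset.sum_le_sum fun i _ => hk i
          _ = A.card * k := by rw [Finset.sum_const, smul_eq_mul]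
          _ ≤ κ * k := Nat.mul_le_mul_right _ hA
      have h4 : T.al A * (c + 4) ≤ κ * k * (c + 4) := Nat.mul_le_mul_right _ h3
      omega
    · rintro x (hx | hx)
      · exact hGL x hx
      · rcases hx with rfl | rfl
        · exact ⟨Or.inr ⟨T₀, a1, rfl⟩, Tr.al_zero a5⟩
        · exact ⟨Or.inr ⟨T₁, b1, rfl⟩, Tr.al_zero b5⟩
    · rw [hq]
      have hm : ∀ x ∈ ({T₀.val, T₁.val} : Set (MvPolynomial (Fin n) F)),
          x ∈ Algebra.adjoin F (X '' (A : Set (Fin n)) ∪ (G ∪ {T₀.val, T₁.val})) :=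
        fun x hx => Algebra.subset_adjoin (Or.inr (Or.inr hx))
      have hqm : q ∈ Algebra.adjoin F (X '' (A : Set (Fin n)) ∪ (G ∪ {T₀.val, T₁.val})) :=
        Algebra.adjoin_mono (Set.union_subset_union_right _ Set.subset_union_left) hqG
      exact Subalgebra.add_mem _ (Subalgebra.mul_mem _ (Subalgebra.sub_mem _
        (hm T₁.val (by simp)) (hm T₀.val (by simp))) hqm) (hm T₀.val (by simp))

end skel

end Pool.Agent.H530R2
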