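import Mathlib
import Pool.Agent.H530R2.Tre6
import Pool.Agent.H530R2.Rat5

/-!
Hitting theorem for polynomials in products of polynomials in formulas.
-/

namespace Pool.Agent.H530R2

open MvPolynomial Module

section leaf

variable {F : Type} [Field F] {n : ℕ}

open Classical in
theorem cpart_exps {w : ℕ} {f : MvPolynomial (Fin n) F}
    (hw : ∀ i, (f.support.image fun a => a i).card ≤ w + 1) (A : Finset (Fin n))
    (a : Fin n →₀ ℕ) (i : Fin n) : ((cpart f A a).support.image fun a => a i).card ≤ w + 1 := by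
  have hsub : ∀ x ∈ (cpart f A a).support, ∃ e ∈ f.support, x = e.filter (fun i => i ∉ A) := by
    intro x hx
    unfold cpart at hx
    obtain ⟨e, he, hxe⟩ := Finset.mem_biUnion.1 (support_sum hx)
    exact ⟨e, (Finset.mem_filter.1 he).1,
      Finset.mem_singleton.1 (support_monomial_subset hxe)⟩
  by_cases hi : i ∈ A
  · refine (Finset.card_le_card (t := {0}) ?_).trans (by simp)
    intro y hy
    obtain ⟨x, hx, rfl⟩ := Finset.mem_image.1 hy
    obtain ⟨e, _, rfl⟩ := hsub x hx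
    rw [Finset.mem_singleton, Finsupp.filter_apply, if_neg (not_not.2 hi)]
  · refine (Finset.card_le_card ?_).trans (hw i)
    intro y hy
    obtain ⟨x, hx, rfl⟩ := Finset.mem_image.1 hy
    obtain ⟨e, he, rfl⟩ := hsub x hx
    rw [Finsupp.filter_apply, if_pos hi]
    exact Finset.mem_image_of_mem _ he

open Classical in
/-- generation by coefficients -/
theorem gn_cpart {T : Set (MvPolynomial (Fin n) F)} {w k : ℕ} {f : MvPolynomial (Fin n) F}
    (hw : ∀ i, (f.support.image fun a => a i).card ≤ w + 1) {A : Finset (Fin n)}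
    (hA : A.card ≤ k) (hT : ∀ a, cpart f A a ∈ T) : Gn T A ((w + 1) ^ k) f := by
  set E := f.support.image (fun e => e.filter (fun i => i ∈ A)) with hE
  have hEc : E.card ≤ (w + 1) ^ k := by
    have h1 : E.card ≤ (Fintype.piFinset fun i : {i // i ∈ A} =>
        f.support.image fun a => a i.1).card := by
      refine Finset.card_le_card_of_injOn (fun a i => a i.1) ?_ ?_
      · intro a ha
        obtain ⟨e, he, rfl⟩ := Finset.mem_image.1 (Finset.mem_coe.1 ha)
        refine Finset.mem_coe.2 (Fintype.mem_piFinset.2 fun i => Finset.mem_image.2 ⟨e, he, ?_⟩)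
        show e i.1 = (e.filter fun i => i ∈ A) i.1
        rw [Finsupp.filter_apply, if_pos i.2]
      · intro a ha b hb hab
        obtain ⟨e, he, rfl⟩ := Finset.mem_image.1 (Finset.mem_coe.1 ha)
        obtain ⟨e', he', rfl⟩ := Finset.mem_image.1 (Finset.mem_coe.1 hb)
        ext i
        by_cases hi : i ∈ A
        · exact congrFun hab ⟨i, hi⟩
        · rw [Finsupp.filter_apply, Finsupp.filter_apply, if_neg hi, if_neg hi]
    refine h1.trans ?_
    rw [Fintype.card_piFinset]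
    calc ∏ i : {i // i ∈ A}, (f.support.image fun a => a i.1).card
        ≤ ∏ _i : {i // i ∈ A}, (w + 1) :=
          Finset.prod_le_prod' fun i _ => hw i.1
      _ = (w + 1) ^ A.card := by rw [Finset.prod_const, Finset.card_univ, Fintype.card_coe]
      _ ≤ (w + 1) ^ k := Nat.pow_le_pow_right (by omega) hA
  refine ⟨(E.image fun a => cpart f A a : Finset _), Finset.finite_toSet _, ?_, ?_, ?_⟩
  · rw [Set.ncard_coe_finset]
    exact Finset.card_image_le.trans hEc
  · intro x hx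
    obtain ⟨a, _, rfl⟩ := Finset.mem_image.1 (Finset.mem_coe.1 hx)
    exact ⟨hT a, cpart_supported f A a⟩
  · have key : ∀ S : Subalgebra F (MvPolynomial (Fin n) F), (X '' (A : Set (Fin n)) : Set (MvPolynomial (Fin n) F)) ⊆ (S : Set (MvPolynomial (Fin n) F)) →
        (∀ a ∈ E, cpart f A a ∈ S) → f ∈ S := by
      intro S hS1 hS2
      rw [cpart_sum f A]
      refine Subalgebra.sum_mem _ fun a ha => Subalgebra.mul_mem _ ?_ (hS2 a ha)
      have h2 : (monomial a 1 : MvPolynomial (Fin n) F) ∈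
          supported F (A : Set (Fin n)) := by
        rw [mem_supported, vars_monomial one_ne_zero]
        intro i hi
        obtain ⟨e, _, rfl⟩ := Finset.mem_image.1 ha
        rw [Finset.mem_coe, Finsupp.mem_support_iff, Finsupp.filter_apply] at hi
        by_contra hc
        exact hi (if_neg hc)
      exact Algebra.adjoin_le hS1 h2
    refine key _ (fun x hx => Algebra.subset_adjoin (Or.inl hx)) fun a ha => ?_
    exact Algebra.subset_adjoin (Or.inr (Finset.mem_coe.2 (Finset.mem_image_of_mem _ ha)))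

/-- the leaves: polynomials in one variable, and polynomials with few or small monomials and few
exponents of every variable -/
def Lf (n : ℕ) (F : Type) [Field F] (s w : ℕ) : Set (MvPolynomial (Fin n) F) :=
  {g | (∃ i : Fin n, g ∈ supported F ({i} : Set (Fin n))) ∨ (LS (s + 1) 1 g ∧
    ∀ i, (open Classical in g.support.image fun a => a i).card ≤ w + 1)}

theorem Lf.const (s w : ℕ) (c : F) : (C c : MvPolynomial (Fin n) F) ∈ Lf n F s w := by
  classical
  refine Or.inr ⟨LS.const c, fun i => ?_⟩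
  refine (Finset.card_le_card (t := {0}) ?_).trans (by simp)
  intro y hy
  obtain ⟨x, hx, rfl⟩ := Finset.mem_image.1 hy
  have h1 : x ∈ (monomial (0 : Fin n →₀ ℕ) c).support := hx
  rw [Finset.mem_singleton.1 (support_monomial_subset h1)]
  simp

theorem Lf.gn {s w κ : ℕ} {A : Finset (Fin n)} (hA : A.card ≤ κ) {g : MvPolynomial (Fin n) F}
    (hg : g ∈ Lf n F s w) : Gn (Lf n F s w) A ((w + 1) ^ κ) g := by
  classical
  rcases hg with ⟨i, hi⟩ | ⟨hLS, hw⟩
  · by_cases hiA : i ∈ A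
    · refine Gn.supp (supported_mono ?_ hi)
      rintro x rfl
      exact Finset.mem_coe.2 hiA
    · refine Gn.self (Or.inl ⟨i, hi⟩) (supported_mono ?_ hi) (Nat.one_le_pow _ _ (Nat.succ_pos w))
      rintro x rfl
      exact hiA
  · refine gn_cpart hw hA fun a => Or.inr ⟨hLS.cpart A a, cpart_exps hw A a⟩

theorem Lf.ls {s w : ℕ} {g : MvPolynomial (Fin n) F} (hg : g ∈ Lf n F s w) : LS (s + 1) 1 g := by
  rcases hg with ⟨i, hi⟩ | ⟨hLS, _⟩
  · refine ⟨{0}, by rw [Finset.card_singleton]; exact Nat.one_le_two_pow, fun x hx =>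
      ⟨0, Finset.mem_singleton_self _, x, (zero_add x).symm, ?_⟩⟩
    have h1 : x.support ⊆ {i} := by
      intro y hy
      have h2 := (mem_supported.1 hi) (Finset.mem_coe.2 (mem_vars_iff_mem_support y |>.2 ⟨x, hx, hy⟩))
      exact Finset.mem_singleton.2 h2
    refine (Finset.card_le_card h1).trans ?_
    rw [Finset.card_singleton]
    omega
  · exact hLS

end leaf

section hit

variable {F : Type} [Field F] [CharZero F]

/-- polynomials in `w` formulas of a class -/
def PolyIn {n : ℕ} (Q : Tr F n → Prop) (w : ℕ) (g : MvPolynomial (Fin n) F) : Prop :=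
  ∃ (T : Fin w → Tr F n) (P : MvPolynomial (Fin w) F), (∀ i, Q (T i)) ∧
    g = aeval (fun i => (T i).val) P

omit [CharZero F] in
/-- determinants of derivatives of values of formulas -/
theorem trees_det {n : ℕ} {V : VanM F n} {p : Cst} (𝔏 : LFam V p ∅) {k eR W0 Q q : ℕ}
    (hq : q ≤ Q) (T : Fin q → Tr F n) (hT : ∀ a, (∀ i, (T a).occ i ≤ k) ∧ Reg V eR ∅ (T a) ∧
      (T a).Lv (𝔏.K W0)) (h0 : (C 0 : MvPolynomial (Fin n) F) ∈ 𝔏.K W0) (t : Fin q → Fin n)
    (hdet : (Matrix.of fun a b => pderiv (t b) (T a).val).det ≠ 0) :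
    (Matrix.of fun a b => pderiv (t b) (T a).val).det ∉
      V.I ((Cst.trees F k eR W0 p Q).em Q Q) ∅ := by
  classical
  set T' : Fin Q → Tr F n := fun a => if h : (a : ℕ) < q then T ⟨a, h⟩ else .leaf (C 0) with hT'
  have hT'q : ∀ a : Fin q, T' (Fin.castLE hq a) = T a := by
    intro a
    simp [hT']
  have ha1 : ∀ a i, i ∉ (∅ : Finset (Fin n)) → (T' a).occ i ≤ k := by
    intro a i _
    simp only [hT']
    split_ifs with h
    · exact (hT ⟨a, h⟩).1 i
    · rw [occ_const]; exact Nat.zero_le _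
  have ha2 : ∀ a, Reg V eR ∅ (T' a) := by
    intro a
    simp only [hT']
    split_ifs with h
    · exact (hT ⟨a, h⟩).2.1
    · trivial
  have ha3 : ∀ a, (T' a).Lv (𝔏.K W0) := by
    intro a
    simp only [hT']
    split_ifs with h
    · exact (hT ⟨a, h⟩).2.2
    · exact h0
  obtain ⟨𝔏', _, h2⟩ := 𝔏.trees k eR W0 Q T' ha1 ha2 ha3
  intro hc
  apply hdet
  refine 𝔏'.seeds _ _ ?_ ∅ le_rfl hc
  refine 𝔏'.comb_mem (ι := Fin q × Fin q) (g := fun ab => pderiv (t ab.2) (T ab.1).val) ?_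
    (fun ab => 𝔏'.der_mem _ ?_) ?_
  · rw [Fintype.card_prod, Fintype.card_fin]
    exact Nat.mul_le_mul hq hq
  · have h3 := h2 (Fin.castLE hq ab.1) Q le_rfl
    rwa [hT'q] at h3
  · rw [Matrix.det_apply']
    refine Subalgebra.sum_mem _ fun τ _ => Subalgebra.mul_mem _ (Subalgebra.intCast_mem _ _) ?_
    exact Subalgebra.prod_mem _ fun i _ => Algebra.subset_adjoin ⟨(τ i, i), rfl⟩

/-- The hitting theorem for polynomials in products of polynomials in `w` formulas. -/
theorem tree_hit (p : Cst) (κ k w c W0 eR : ℕ) (hk : 1 ≤ k) : ∃ m : ℕ,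
    ∀ (n S : ℕ), 1 ≤ S → ∀ (V : VanM F n),
      (∀ j f, f ∈ genI (fun i : Fin n => ((i.val : ℕ) : F)) (j * S) → f ∈ V.I j ∅) →
      ∀ (𝔏 : LFam V p ∅) (L : Set (MvPolynomial (Fin n) F)) (Q : Tr F n → Prop), L ⊆ 𝔏.K W0 →
      (∀ y, C y ∈ L) → (∀ A : Finset (Fin n), A.card ≤ κ → ∀ g ∈ L, Gn L A c g) →
      (∀ T : Tr F n, Q T → T.ML ∧ T.Lv L ∧ (∀ i, T.occ i ≤ k) ∧
        ∀ T' : Tr F n, Red T' T → Reg V eR ∅ T') →
      ∀ f : MvPolynomial (Fin n) F, Pool.Agent.H626R2.Loc.BddTrG (PolyIn Q w) κ f → f ≠ 0 →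
        f ∉ genI (fun i : Fin n => ((i.val : ℕ) : F)) (m * S) := by
  classical
  set C₁ := w * (κ * k * (c + 4) + 1) with hC₁
  set q₀ := (κ + 1) * C₁ with hq₀
  refine ⟨(Cst.trees F k eR W0 p q₀).em q₀ q₀ + (κ + (κ + 1) * C₁), ?_⟩
  intro n S hS V hV 𝔏 L Q hL h0 hgn hreg f hf hf0
  set T' : Set (MvPolynomial (Fin n) F) := {x | ∃ T : Tr F n, (∀ i, T.occ i ≤ k) ∧
    Reg V eR ∅ T ∧ T.Lv L ∧ x = T.val} with hT'
  have hleafT' : ∀ g ∈ L, g ∈ T' := by
    intro g hg
    refine ⟨.leaf g, fun i => ?_, trivial, hg, rfl⟩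
    rw [Tr.occ]
    split_ifs
    · exact hk
    · exact Nat.zero_le _
  have hsub : ∀ T : Tr F n, Q T → Dn L T ⊆ T' := by
    rintro T hQT x (hx | ⟨T₀, a1, rfl⟩)
    · exact hleafT' x hx
    · obtain ⟨_, e2, e4, e5⟩ := hreg T hQT
      exact ⟨T₀, fun i => (a1.occ i).trans (e4 i), e5 T₀ a1, a1.lv h0 e2, rfl⟩
  have hfc : ∀ g, PolyIn Q w g → Pool.Agent.H626R2.Loc.FinCoef κ C₁ T' g := by
    rintro g ⟨T, P, hT, rfl⟩
    refine Pool.Agent.H626R2.Loc.FinCoef.comp _ (fun i => ?_) P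
    refine Gn.finCoef (hleafT' 0 (by simpa using h0 0)) fun A hA => ?_
    obtain ⟨e1, e2, e3, _⟩ := hreg _ (hT i)
    exact (Tr.gn hA (fun g hg => hgn A hA g hg) e1 e2 e3).mono (hsub _ (hT i)) le_rfl
  have hhit := Pool.Agent.H626R2.Loc.fin_hit (K := F) (n := n) (k := κ) (C := C₁)
    (m := (Cst.trees F k eR W0 p q₀).em q₀ q₀ * S) T' (hleafT' 0 (by simpa using h0 0)) ?_ (f := f) ?_
    hf0
  · rw [evT_ne_iff] at hhit
    intro hc
    apply hhit
    refine genI_le _ ?_ hc
    have h2 : ∀ x y : ℕ, x * S + y ≤ (x + y) * S := by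
      intro x y
      rw [add_mul]
      exact Nat.add_le_add_left (Nat.le_mul_of_pos_right _ hS) _
    exact h2 _ _
  · intro q hq s _ G hG hdet
    rw [evT_ne_iff]
    choose T hT using hG
    intro hc
    have hG' : G = fun a => (T a).val := funext fun a => (hT a).2.2.2
    rw [hG'] at hc hdet
    exact trees_det 𝔏 hq T (fun a => ⟨(hT a).1, (hT a).2.1, (hT a).2.2.1.mono hL⟩) (hL (h0 0)) s hdet
      (hV _ _ hc)
  · obtain ⟨N', Sm, hSm, hdep, hmem⟩ := hf
    exact ⟨N', Sm, fun i g hg => hfc g (hSm i g hg), hdep, hmem⟩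

end hit

end Pool.Agent.H530R2
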