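import Mathlib
import Pool.Agent.H530R2.Tre7

/-!
Regularity of the gates of formulas with bounded sharing, and the two hitting theorems.
-/

namespace Pool.Agent.H530R2

open MvPolynomial Module

section bag

variable {F : Type} [Field F] {n : ℕ}

/-- the variables of a formula -/
noncomputable def Tr.vs : Tr F n → Finset (Fin n)
  | .leaf g => g.vars
  | .gate _ a b => a.vs ∪ b.vs

theorem Tr.vars_val (T : Tr F n) : T.val.vars ⊆ T.vs := by
  classical
  have h : ∀ T : Tr F n, T.val ∈ supported F (T.vs : Set (Fin n)) := by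
    intro T
    induction T with
    | leaf g =>
      rw [mem_supported]
      exact fun i hi => hi
    | gate γ a b iha ihb =>
      have h1 : (Tr.gate γ a b).val ∈ Algebra.adjoin F (Set.range ![a.val, b.val]) := by
        rw [Algebra.adjoin_range_eq_range_aeval]
        exact ⟨γ, rfl⟩
      refine (Algebra.adjoin_le ?_) h1
      rintro _ ⟨i, rfl⟩
      fin_cases i
      · exact supported_mono (by
          intro x hx
          exact Finset.mem_coe.2 (Finset.mem_union_left _ (Finset.mem_coe.1 hx))) iha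
      · exact supported_mono (by
          intro x hx
          exact Finset.mem_coe.2 (Finset.mem_union_right _ (Finset.mem_coe.1 hx))) ihb
  intro i hi
  exact Finset.mem_coe.1 (mem_supported.1 (h T) (Finset.mem_coe.2 hi))

/-- `Bag c S T`: the gates of the formula have bags of at most `c` variables which contain the
variables shared by the two arguments, and the variables of the bag above (`S` for the output)
which occur below -/
def Bag (c : ℕ) : Finset (Fin n) → Tr F n → Prop
  | _, .leaf _ => True
  | S, .gate _ a b => ∃ B : Finset (Fin n), B.card ≤ c ∧ a.vs ∩ b.vs ⊆ B ∧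
      S ∩ (a.vs ∪ b.vs) ⊆ B ∧ Bag c B a ∧ Bag c B b

theorem Bag.mono {c : ℕ} {S S' : Finset (Fin n)} {T : Tr F n} (h : Bag c S T)
    (hS : S' ∩ T.vs ⊆ S) : Bag c S' T := by
  cases T with
  | leaf g => trivial
  | gate γ a b =>
    obtain ⟨B, h1, h2, h3, h4, h5⟩ := h
    refine ⟨B, h1, h2, ?_, h4, h5⟩
    intro x hx
    apply h3
    rw [Finset.mem_inter] at hx ⊢
    exact ⟨hS (Finset.mem_inter.2 ⟨hx.1, hx.2⟩), hx.2⟩

theorem Red.vs {T' T : Tr F n} (h : Red T' T) : T'.vs ⊆ T.vs := by
  classical
  induction h with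
  | refl T => exact le_rfl
  | const c T => simp [Tr.vs]
  | left γ b _ ih => exact ih.trans Finset.subset_union_left
  | right γ a _ ih => exact ih.trans Finset.subset_union_right
  | gate γ _ _ ih1 ih2 => exact Finset.union_subset_union ih1 ih2

theorem Bag.red {c : ℕ} {T' T : Tr F n} (h : Red T' T) : ∀ {S : Finset (Fin n)},
    Bag c S T → ∃ S', Bag c S' T' ∧ S ∩ T'.vs ⊆ S' := by
  classical
  induction h with
  | refl T => exact fun {S} hS => ⟨S, hS, Finset.inter_subset_left⟩
  | const c' T => exact fun {S} _ => ⟨S, trivial, Finset.inter_subset_left⟩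
  | @left T' a γ b hr ih =>
    rintro S ⟨B, h1, h2, h3, h4, h5⟩
    obtain ⟨S', h6, h7⟩ := ih h4
    refine ⟨S', h6, ?_⟩
    intro x hx
    rw [Finset.mem_inter] at hx
    apply h7
    rw [Finset.mem_inter]
    refine ⟨h3 (Finset.mem_inter.2 ⟨hx.1, Finset.mem_union_left _ (hr.vs hx.2)⟩), hx.2⟩
  | @right T' b γ a hr ih =>
    rintro S ⟨B, h1, h2, h3, h4, h5⟩
    obtain ⟨S', h6, h7⟩ := ih h5
    refine ⟨S', h6, ?_⟩
    intro x hx
    rw [Finset.mem_inter] at hx
    apply h7
    rw [Finset.mem_inter]
    refine ⟨h3 (Finset.mem_inter.2 ⟨hx.1, Finset.mem_union_right _ (hr.vs hx.2)⟩), hx.2⟩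
  | @gate a' a b' b γ ha hb ih1 ih2 =>
    rintro S ⟨B, h1, h2, h3, h4, h5⟩
    obtain ⟨S1, h6, h7⟩ := ih1 h4
    obtain ⟨S2, h8, h9⟩ := ih2 h5
    refine ⟨S, ⟨B, h1, ?_, ?_, h6.mono h7, h8.mono h9⟩, Finset.inter_subset_left⟩
    · exact (Finset.inter_subset_inter ha.vs hb.vs).trans h2
    · exact (Finset.inter_subset_inter le_rfl (Finset.union_subset_union ha.vs hb.vs)).trans h3

variable [CharZero F] {a : Fin n → F} {m : ℕ} {K : Type*} [Field K] [Algebra F K]

omit [CharZero F] in
theorem aeval_lift (S : Finset (Fin n)) (U V : MvPolynomial (Fin n) F)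
    (γ : MvPolynomial (Fin 2) F) :
    aeval ![U, V] (map (algebraMap F (supported F (S : Set (Fin n)))) γ) =
      aeval ![U, V] γ := by
  rw [aeval_map_algebraMap]

/-- the generator is faithful on formulas with bounded sharing -/
theorem Bag.hit (G : GenPt a m K) (ha : Function.Injective a) {c : ℕ} (hm : c < m)
    {L : Set (MvPolynomial (Fin n) F)} (hL : ∀ g ∈ L, ∀ S : Finset (Fin n), Hit a m S g) :
    ∀ (T : Tr F n) (S : Finset (Fin n)), Bag c S T → T.Lv L → Hit a m S T.val := by
  intro T
  induction T with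
  | leaf g => exact fun S _ hg => hL g hg S
  | gate γ u v ihu ihv =>
    rintro S ⟨B, h1, h2, h3, h4, h5⟩ hLv
    have h6 := Hit.gate G ha (T := S) (S := B) (by omega) (ihu B h4 hLv.1) (ihv B h5 hLv.2)
      ((Finset.inter_subset_inter u.vars_val v.vars_val).trans h2)
      ((Finset.inter_subset_inter le_rfl
        (Finset.union_subset_union u.vars_val v.vars_val)).trans h3)
      (map (algebraMap F (supported F (B : Set (Fin n)))) γ)
    rwa [aeval_lift] at h6

/-- the gate partials of formulas with bounded sharing -/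
theorem Bag.reg (G : GenPt a m K) (ha : Function.Injective a) {c : ℕ} (hm : c < m)
    {L : Set (MvPolynomial (Fin n) F)} (hL : ∀ g ∈ L, ∀ S : Finset (Fin n), Hit a m S g)
    {V : VanM F n} {e : ℕ} (hV : ∀ Y, V.I e Y ≤ genI a m) :
    ∀ (T : Tr F n) (S : Finset (Fin n)), Bag c S T → T.Lv L → Reg V e ∅ T := by
  intro T
  induction T with
  | leaf g => exact fun S _ _ => trivial
  | gate γ u v ihu ihv =>
    rintro S ⟨B, h1, h2, h3, h4, h5⟩ hLv
    refine ⟨ihu B h4 hLv.1, ihv B h5 hLv.2, ?_⟩
    intro i h0 Y _ hmem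
    apply h0
    have h6 := Hit.gate G ha (T := ∅) (S := B) (by omega) (Bag.hit G ha hm hL u B h4 hLv.1)
      (Bag.hit G ha hm hL v B h5 hLv.2)
      ((Finset.inter_subset_inter u.vars_val v.vars_val).trans h2) (by simp)
      (map (algebraMap F (supported F (B : Set (Fin n)))) (pderiv i γ))
    rw [aeval_lift] at h6
    exact h6.eq_zero G ha (by simp; omega) (hV Y hmem)

end bag

section std

variable {F : Type} [Field F] [CharZero F] {n : ℕ}

/-- fewer free variables -/
theorem stdVan_le (a : Fin n → F) (ha : Function.Injective a) (j : ℕ) (Y : Finset (Fin n)) :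
    (stdVan a ha).I j Y ≤ genI a j := by
  intro f hf
  rw [← mem_stdVan a ha]
  have h1 : sb (F := F) (fun k => gen a (0 + j) (X k)) (Y ∪ ∅) f = 0 := hf
  show sb (fun k => gen a (0 + j) (X k)) (∅ ∪ ∅) f = 0
  rw [Finset.union_empty] at h1
  rw [Finset.empty_union, sb_empty]
  have h2 : ∀ f : MvPolynomial (Fin n) F,
      aeval (fun k => gen a (0 + j) (X k)) (sb (fun k => gen a (0 + j) (X k)) Y f) =
        aeval (fun k => gen a (0 + j) (X k)) f := by
    intro f
    induction f using MvPolynomial.induction_on with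
    | C r =>
      rw [sb_C]
      simp [algHom_C]
    | add p q hp hq => rw [map_add, map_add, hp, hq, map_add]
    | mul_X p i hp =>
      rw [map_mul, map_mul, hp, map_mul, aeval_X]
      congr 1
      by_cases hi : i ∈ Y
      · rw [sb_X_mem _ hi, aeval_X]
      · rw [sb_X_not_mem _ hi, aeval_C]
        rfl
  rw [← h2, h1, map_zero, map_zero]

end std

end Pool.Agent.H530R2
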