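import Mathlib
import Pool.Agent.H530R2.Tre8

/-!
The hitting theorems for sums of products of formulas.
-/

namespace Pool.Agent.H530R2

open MvPolynomial Module

universe v

section conv

/-- the constants of a family -/
noncomputable def Fam.cst {F : Type v} [Field F] (𝔎 : Fam F) : Cst where
  comb := 𝔎.comb
  der := 𝔎.der
  sd W := Classical.choose (𝔎.seeds W)

/-- the classes of a family for one system of ideals -/
def Fam.toL {F : Type v} [Field F] (𝔎 : Fam F) {σ n : ℕ} {V : VanM F n} (hV : V ∈ 𝔎.Ok σ n) :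
    LFam V 𝔎.cst ∅ where
  K := 𝔎.K σ n
  mono := 𝔎.mono
  comb_mem := 𝔎.comb_mem
  der_mem := 𝔎.der_mem
  seeds W f hf Y _ h := Classical.choose_spec (𝔎.seeds W) σ n V hV f hf Y h

end conv

section fin

variable {F : Type} [Field F] [CharZero F]

omit [CharZero F] in
theorem sub_cut_support {n : ℕ} (S : Finset (Fin n)) (g : MvPolynomial (Fin n) F) :
    (g - cut F S g).support ⊆ g.support := by
  classical
  intro x hx
  rw [MvPolynomial.mem_support_iff, coeff_sub, coeff_cut] at hx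
  rw [MvPolynomial.mem_support_iff]
  intro hc
  apply hx
  rw [hc]
  simp

theorem std_ok (n s : ℕ) : (stdVan (F := F) _ (natInj n)).scale (s + 1) (Nat.le_add_left 1 s) ∈
    (baseFam F).Ok s n := ⟨_, stdVan_coef _ (natInj n), rfl⟩

theorem std_ge {n s j : ℕ} {f : MvPolynomial (Fin n) F}
    (h : f ∈ genI (fun i : Fin n => ((i.val : ℕ) : F)) (j * (s + 1))) :
    f ∈ ((stdVan (F := F) _ (natInj n)).scale (s + 1) (Nat.le_add_left 1 s)).I j ∅ := by
  show f ∈ (stdVan (F := F) _ (natInj n)).I (j * (s + 1)) ∅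
  rw [mem_stdVan]
  exact h

theorem std_le {n s j : ℕ} (Y : Finset (Fin n)) :
    ((stdVan (F := F) _ (natInj n)).scale (s + 1) (Nat.le_add_left 1 s)).I j Y ≤
      genI (fun i : Fin n => ((i.val : ℕ) : F)) (j * (s + 1)) := by
  show (stdVan (F := F) _ (natInj n)).I (j * (s + 1)) Y ≤ _
  exact stdVan_le _ (natInj n) (j * (s + 1)) Y

theorem leaf_hit {n s w' mm : ℕ} (hmm : (baseFam F).cst.sd 1 * (s + 1) ≤ mm)
    {g : MvPolynomial (Fin n) F} (hg : g ∈ Lf n F s w') (S : Finset (Fin n)) :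
    Hit (fun i : Fin n => ((i.val : ℕ) : F)) mm S g := by
  intro hmem
  have h1 : LS (s + 1) 1 (g - cut F S g) := (Lf.ls hg).of_support (sub_cut_support S g)
  have h3 : g - cut F S g ∈ ((stdVan (F := F) _ (natInj n)).scale (s + 1)
      (Nat.le_add_left 1 s)).I ((baseFam F).cst.sd 1) ∅ := std_ge (genI_le _ hmm hmem)
  have h2 : g - cut F S g = 0 :=
    ((baseFam F).toL (std_ok n s)).seeds 1 _ (Pol.single le_rfl h1) ∅ le_rfl h3
  exact sub_eq_zero.1 h2

theorem bag_reg_std {n s w' c e : ℕ} (hc : c < e * (s + 1))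
    (he : (baseFam F).cst.sd 1 * (s + 1) ≤ e * (s + 1)) (T : Tr F n) (S : Finset (Fin n))
    (hT : Bag c S T) (hL : T.Lv (Lf n F s w')) :
    Reg ((stdVan (F := F) _ (natInj n)).scale (s + 1) (Nat.le_add_left 1 s)) e ∅ T := by
  obtain ⟨mm, hmm⟩ : ∃ mm, mm = e * (s + 1) := ⟨_, rfl⟩
  rw [← hmm] at hc he
  obtain ⟨G⟩ := exists_genPt (fun i : Fin n => ((i.val : ℕ) : F)) (natInj n) mm (by omega)
    (FractionRing (MvPolynomial (Fin mm ⊕ Fin mm) F))
  refine Bag.reg G (natInj n) hc (L := Lf n F s w') (fun g hg S => leaf_hit he hg S)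
    (fun Y => ?_) T S hT hL
  rw [hmm]
  exact std_le Y

/-- The hitting theorem for polynomials in products of polynomials in `w` formulas which read
every variable at most `k` times and have bags of at most `c` variables. -/
theorem bag_hit (κ k w w' c : ℕ) (hk : 1 ≤ k) : ∃ m : ℕ, ∀ (n s : ℕ) (f : MvPolynomial (Fin n) F),
    Pool.Agent.H626R2.Loc.BddTrG (PolyIn (fun T : Tr F n => T.ML ∧ T.Lv (Lf n F s w') ∧
      (∀ i, T.occ i ≤ k) ∧ Bag c ∅ T) w) κ f → f ≠ 0 →
    f ∉ genI (fun i : Fin n => ((i.val : ℕ) : F)) (m * (s + 1)) := by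
  classical
  obtain ⟨m, hm⟩ := tree_hit (F := F) (baseFam F).cst κ k w ((w' + 1) ^ κ) 1
    (c + 1 + (baseFam F).cst.sd 1) hk
  refine ⟨m, ?_⟩
  intro n s f hf hf0
  refine hm n (s + 1) (Nat.succ_pos s) _ (fun j f h => std_ge h)
    ((baseFam F).toL (std_ok n s)) (Lf n F s w') _ (fun g hg => Pol.single le_rfl (Lf.ls hg))
    (fun y => Lf.const s w' y) (fun A hA g hg => Lf.gn hA hg) ?_ f hf hf0
  rintro T ⟨h1, h2, h3, h4⟩
  refine ⟨h1, h2, h3, fun T' hT' => ?_⟩
  obtain ⟨S', h5, _⟩ := Bag.red hT' h4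
  refine bag_reg_std ?_ ?_ T' S' h5 (hT'.lv (fun y => Lf.const s w' y) h2)
  · have h6 : c + 1 + (baseFam F).cst.sd 1 ≤ (c + 1 + (baseFam F).cst.sd 1) * (s + 1) :=
      Nat.le_mul_of_pos_right _ (Nat.succ_pos s)
    omega
  · exact Nat.mul_le_mul_right _ (Nat.le_add_left _ _)

/-- The hitting theorem for polynomials in products of polynomials in `w` formulas of size at most
`2 ^ t` which read every variable at most `k` times. -/
theorem readk_hit (κ k w w' : ℕ) (hk : 1 ≤ k) : ∃ m : ℕ, ∀ (n s t : ℕ)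
    (f : MvPolynomial (Fin n) F),
    Pool.Agent.H626R2.Loc.BddTrG (PolyIn (fun T : Tr F n => T.ML ∧ T.Lv (Lf n F s w') ∧
      (∀ i, T.occ i ≤ k) ∧ T.size ≤ 2 ^ t) w) κ f → f ≠ 0 →
    f ∉ genI (fun i : Fin n => ((i.val : ℕ) : F)) (m * (t + 1) * (s + 1)) := by
  classical
  obtain ⟨M, hM, hVal⟩ := ValB.all F (baseFam F).cst 1 k
  obtain ⟨m, hm⟩ := tree_hit (F := F) (baseFam F).cst κ k w ((w' + 1) ^ κ) 1 1 hk
  refine ⟨m * M, ?_⟩
  intro n s t f hf hf0
  set V₀ := (stdVan (F := F) _ (natInj n)).scale (s + 1) (Nat.le_add_left 1 s) with hV₀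
  have hok : V₀ ∈ (baseFam F).Ok s n := std_ok n s
  have hs : 1 ≤ M * (t + 1) := Nat.mul_pos hM (Nat.succ_pos t)
  set V := V₀.scale (M * (t + 1)) hs with hV
  have hge : ∀ j f, f ∈ genI (fun i : Fin n => ((i.val : ℕ) : F)) (j * (M * (t + 1) * (s + 1))) →
      f ∈ V.I j ∅ := by
    intro j f h
    show f ∈ (stdVan (F := F) _ (natInj n)).I (j * (M * (t + 1)) * (s + 1)) ∅
    rw [mul_assoc, mem_stdVan]
    exact h
  have hLf : Lf n F s w' ⊆ ((baseFam F).toL hok).K 1 := fun g hg =>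
    Pol.single le_rfl (Lf.ls hg)
  have hval := hVal n V₀ ((baseFam F).toL hok) t
  have h := hm n (M * (t + 1) * (s + 1)) (Nat.mul_pos hs (Nat.succ_pos s)) V hge
    (((baseFam F).toL hok).scale _ hs) (Lf n F s w') _ hLf
    (fun y => Lf.const s w' y) (fun A hA g hg => Lf.gn hA hg) ?_ f hf hf0
  · intro hc
    apply h
    convert hc using 2
    ring
  · rintro T ⟨h1, h2, h3, h4⟩
    refine ⟨h1, h2, h3, fun T' hT' => ?_⟩
    have h5 := hval.reg (Y := ∅) (hT'.ml h1) ((hT'.lv (fun y => Lf.const s w' y) h2).mono hLf)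
      (hT'.size.trans h4) (fun i _ => (hT'.occ i).trans (h3 i))
    clear * - h5
    induction T' with
    | leaf g => trivial
    | gate γ a b iha ihb =>
      refine ⟨iha h5.1, ihb h5.2.1, fun i h0 Y' hY' => ?_⟩
      have h6 := h5.2.2 i h0 Y' hY'
      show _ ∉ V₀.I (1 * (M * (t + 1))) Y'
      rwa [one_mul]

end fin

end Pool.Agent.H530R2
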