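import Mathlib
import Pool.Agent.H530R2.Tre7

/-!
The coefficients of formulas with respect to few variables, generated by the values of explicit
modifications of the formula.
-/

namespace Pool.Agent.H530R2

open MvPolynomial Module

section skel

variable {F : Type} [Field F] {n : ℕ}

/-- the formula, and the formulas which arise from it by replacing one subformula by `0` or `1` -/
noncomputable def Tr.holes : Tr F n → List (Tr F n)
  | .leaf g => [.leaf g, .leaf (C 0), .leaf (C 1)]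
  | .gate γ a b => [.gate γ a b, .leaf (C 0), .leaf (C 1)] ++
      (a.holes.map (fun a' => .gate γ a' b) ++ b.holes.map (fun b' => .gate γ a b'))

/-- the modified subformulas -/
noncomputable def Tr.segs : Tr F n → List (Tr F n)
  | .leaf g => (Tr.leaf g).holes
  | .gate γ a b => (Tr.gate γ a b).holes ++ (a.segs ++ b.segs)

theorem Tr.holes_self (T : Tr F n) : T ∈ T.holes := by
  cases T <;> simp [Tr.holes]

theorem Tr.holes_zero (T : Tr F n) : (.leaf (C 0) : Tr F n) ∈ T.holes := by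
  cases T <;> simp [Tr.holes]

theorem Tr.holes_one (T : Tr F n) : (.leaf (C 1) : Tr F n) ∈ T.holes := by
  cases T <;> simp [Tr.holes]

theorem Tr.holes_left {γ : MvPolynomial (Fin 2) F} {a b a' : Tr F n} (h : a' ∈ a.holes) :
    (.gate γ a' b : Tr F n) ∈ (Tr.gate γ a b).holes := by
  rw [Tr.holes, List.mem_append, List.mem_append]
  exact Or.inr (Or.inl (List.mem_map.2 ⟨a', h, rfl⟩))

theorem Tr.holes_right {γ : MvPolynomial (Fin 2) F} {a b b' : Tr F n} (h : b' ∈ b.holes) :
    (.gate γ a b' : Tr F n) ∈ (Tr.gate γ a b).holes := by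
  rw [Tr.holes, List.mem_append, List.mem_append]
  exact Or.inr (Or.inr (List.mem_map.2 ⟨b', h, rfl⟩))

theorem Tr.segs_holes {T T' : Tr F n} (h : T' ∈ T.holes) : T' ∈ T.segs := by
  cases T with
  | leaf g => exact h
  | gate γ a b => exact List.mem_append.2 (Or.inl h)

theorem Tr.segs_left {γ : MvPolynomial (Fin 2) F} {a b T' : Tr F n} (h : T' ∈ a.segs) :
    T' ∈ (Tr.gate γ a b).segs := by
  rw [Tr.segs, List.mem_append, List.mem_append]
  exact Or.inr (Or.inl h)

theorem Tr.segs_right {γ : MvPolynomial (Fin 2) F} {a b T' : Tr F n} (h : T' ∈ b.segs) :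
    T' ∈ (Tr.gate γ a b).segs := by
  rw [Tr.segs, List.mem_append, List.mem_append]
  exact Or.inr (Or.inr h)

theorem Tr.holes_red {T T' : Tr F n} (h : T' ∈ T.holes) : Red T' T := by
  induction T generalizing T' with
  | leaf g =>
    simp only [Tr.holes, List.mem_cons, List.not_mem_nil, or_false] at h
    rcases h with rfl | rfl | rfl
    · exact .refl _
    · exact .const 0 _
    · exact .const 1 _
  | gate γ a b iha ihb =>
    simp only [Tr.holes, List.mem_cons, List.not_mem_nil, or_false, List.mem_append,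
      List.mem_map] at h
    rcases h with (rfl | rfl | rfl) | ⟨a', ha', rfl⟩ | ⟨b', hb', rfl⟩
    · exact .refl _
    · exact .const 0 _
    · exact .const 1 _
    · exact .gate γ (iha ha') (.refl b)
    · exact .gate γ (.refl a) (ihb hb')

theorem Tr.segs_red {T T' : Tr F n} (h : T' ∈ T.segs) : Red T' T := by
  induction T with
  | leaf g => exact Tr.holes_red h
  | gate γ a b iha ihb =>
    rw [Tr.segs, List.mem_append, List.mem_append] at h
    rcases h with h | h | h
    · exact Tr.holes_red h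
    · exact (iha h).left γ b
    · exact (ihb h).right γ a

/-- values of modified subformulas, and leaves -/
def Ds (L : Set (MvPolynomial (Fin n) F)) (T : Tr F n) : Set (MvPolynomial (Fin n) F) :=
  {x | x ∈ L ∨ ∃ T' ∈ T.segs, x = T'.val}

theorem Ds.left (L : Set (MvPolynomial (Fin n) F)) (γ : MvPolynomial (Fin 2) F)
    (a b : Tr F n) : Ds L a ⊆ Ds L (.gate γ a b) := by
  rintro x (hx | ⟨T', h1, h5⟩)
  · exact Or.inl hx
  · exact Or.inr ⟨T', Tr.segs_left h1, h5⟩

theorem Ds.right (L : Set (MvPolynomial (Fin n) F)) (γ : MvPolynomial (Fin 2) F)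
    (a b : Tr F n) : Ds L b ⊆ Ds L (.gate γ a b) := by
  rintro x (hx | ⟨T', h1, h5⟩)
  · exact Or.inl hx
  · exact Or.inr ⟨T', Tr.segs_right h1, h5⟩

/-- the structure of a formula above the leaves with variables of `A` -/
theorem skels {L : Set (MvPolynomial (Fin n) F)} {A : Finset (Fin n)} {c : ℕ}
    (hL : ∀ g ∈ L, Gn L A c g) (T : Tr F n) : T.ML → T.Lv L → T.al A ≠ 0 →
    ∃ T₀ T₁ : Tr F n, (T₀ ∈ T.holes ∧ T₀.al A = 0) ∧ (T₁ ∈ T.holes ∧ T₁.al A = 0) ∧
      ∃ q : MvPolynomial (Fin n) F, T.val = (T₁.val - T₀.val) * q + T₀.val ∧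
      ∃ G : Set (MvPolynomial (Fin n) F), G.Finite ∧ G.ncard + 4 ≤ T.al A * (c + 4) ∧
        (∀ x ∈ G, x ∈ Ds L T ∧ x ∈ supported F {k : Fin n | k ∉ A}) ∧
        q ∈ Algebra.adjoin F (X '' (A : Set (Fin n)) ∪ G) := by
  classical
  induction T with
  | leaf g =>
    intro _ hg hal
    obtain ⟨G, hG, hGc, hGL, hgG⟩ := hL g hg
    have hal1 : (Tr.leaf g : Tr F n).al A = 1 := by
      rw [Tr.al] at hal ⊢
      by_cases hd : Disjoint A g.vars
      · rw [if_pos hd] at hal
        exact absurd rfl hal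
      · rw [if_neg hd]
    refine ⟨.leaf (C 0), .leaf (C 1), ⟨Tr.holes_zero _, al_const A 0⟩,
      ⟨Tr.holes_one _, al_const A 1⟩, g, ?_, G, hG, ?_, ?_, hgG⟩
    · simp only [Tr.val, C_0, C_1, sub_zero, one_mul, add_zero]
    · rw [hal1]; omega
    · intro x hx
      exact ⟨Or.inl (hGL x hx).1, (hGL x hx).2⟩
  | gate γ u v ihu ihv =>
    intro hML hLv hal
    obtain ⟨hmu, hmv, c0, c1, c2, c3, rfl⟩ := id hML
    have hal' : u.al A + v.al A ≠ 0 := hal
    have hval : ∀ a b : Tr F n, (Tr.gate (C c0 + C c1 * X 0 + C c2 * X 1 +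
        C c3 * (X 0 * X 1) : MvPolynomial (Fin 2) F) a b).val =
        C c0 + C c1 * a.val + C c2 * b.val + C c3 * (a.val * b.val) := by
      intro a b
      simp only [Tr.val, map_add, map_mul, algHom_C, aeval_X]
      rfl
    by_cases hu : u.al A = 0
    · have hv : v.al A ≠ 0 := by omega
      obtain ⟨T₀, T₁, ⟨a1, a5⟩, ⟨b1, b5⟩, q, hq, G, hG, hGc, hGL, hqG⟩ :=
        ihv hmv hLv.2 hv
      refine ⟨.gate _ u T₀, .gate _ u T₁, ⟨Tr.holes_right a1, ?_⟩,
        ⟨Tr.holes_right b1, ?_⟩, q, ?_, G, hG, ?_, ?_, hqG⟩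
      · show u.al A + T₀.al A = 0
        omega
      · show u.al A + T₁.al A = 0
        omega
      · rw [hval, hval, hval, hq]
        ring
      · show G.ncard + 4 ≤ (u.al A + v.al A) * (c + 4)
        rw [hu, Nat.zero_add]
        exact hGc
      · intro x hx
        exact ⟨Ds.right L _ _ _ (hGL x hx).1, (hGL x hx).2⟩
    by_cases hv : v.al A = 0
    · obtain ⟨T₀, T₁, ⟨a1, a5⟩, ⟨b1, b5⟩, q, hq, G, hG, hGc, hGL, hqG⟩ :=
        ihu hmu hLv.1 hu
      refine ⟨.gate _ T₀ v, .gate _ T₁ v, ⟨Tr.holes_left a1, ?_⟩,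
        ⟨Tr.holes_left b1, ?_⟩, q, ?_, G, hG, ?_, ?_, hqG⟩
      · show T₀.al A + v.al A = 0
        omega
      · show T₁.al A + v.al A = 0
        omega
      · rw [hval, hval, hval, hq]
        ring
      · show G.ncard + 4 ≤ (u.al A + v.al A) * (c + 4)
        rw [hv, Nat.add_zero]
        exact hGc
      · intro x hx
        exact ⟨Ds.left L _ _ _ (hGL x hx).1, (hGL x hx).2⟩
    · obtain ⟨T₀, T₁, ⟨a1, a5⟩, ⟨b1, b5⟩, q, hq, G, hG, hGc, hGL, hqG⟩ :=
        ihu hmu hLv.1 hu
      obtain ⟨T₀', T₁', ⟨a1', a5'⟩, ⟨b1', b5'⟩, q', hq', G', hG', hGc', hGL', hqG'⟩ :=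
        ihv hmv hLv.2 hv
      refine ⟨.leaf (C 0), .leaf (C 1), ⟨Tr.holes_zero _, al_const A 0⟩, ⟨Tr.holes_one _, al_const A 1⟩,
        (Tr.gate (C c0 + C c1 * X 0 + C c2 * X 1 + C c3 * (X 0 * X 1)) u v).val, ?_,
        (G ∪ G') ∪ {T₀.val, T₁.val, T₀'.val, T₁'.val}, ?_, ?_, ?_, ?_⟩
      · simp only [Tr.val, C_0, C_1, sub_zero, one_mul, add_zero]
      · exact (hG.union hG').union (Set.toFinite _)
      · show _ + 4 ≤ (u.al A + v.al A) * (c + 4)
        have h3 : ((G ∪ G') ∪ {T₀.val, T₁.val, T₀'.val, T₁'.val}).ncard ≤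
            G.ncard + G'.ncard + 4 := by
          refine (Set.ncard_union_le _ _).trans (Nat.add_le_add (Set.ncard_union_le _ _) ?_)
          refine (Set.ncard_insert_le _ _).trans (Nat.succ_le_succ ?_)
          refine (Set.ncard_insert_le _ _).trans (Nat.succ_le_succ ?_)
          refine (Set.ncard_insert_le _ _).trans (Nat.succ_le_succ ?_)
          rw [Set.ncard_singleton]
        rw [add_mul]
        omega
      · rintro x ((hx | hx) | hx)
        · exact ⟨Ds.left L _ _ _ (hGL x hx).1, (hGL x hx).2⟩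
        · exact ⟨Ds.right L _ _ _ (hGL' x hx).1, (hGL' x hx).2⟩
        · rcases hx with rfl | rfl | rfl | rfl
          · exact ⟨Or.inr ⟨_, Tr.segs_left (Tr.segs_holes a1), rfl⟩, Tr.al_zero a5⟩
          · exact ⟨Or.inr ⟨_, Tr.segs_left (Tr.segs_holes b1), rfl⟩, Tr.al_zero b5⟩
          · exact ⟨Or.inr ⟨_, Tr.segs_right (Tr.segs_holes a1'), rfl⟩, Tr.al_zero a5'⟩
          · exact ⟨Or.inr ⟨_, Tr.segs_right (Tr.segs_holes b1'), rfl⟩, Tr.al_zero b5'⟩
      · have hmem : ∀ x ∈ ({T₀.val, T₁.val, T₀'.val, T₁'.val} :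
            Set (MvPolynomial (Fin n) F)), x ∈ Algebra.adjoin F (X '' (A : Set (Fin n)) ∪
              ((G ∪ G') ∪ {T₀.val, T₁.val, T₀'.val, T₁'.val})) :=
          fun x hx => Algebra.subset_adjoin (Or.inr (Or.inr hx))
        have hqm : q ∈ Algebra.adjoin F (X '' (A : Set (Fin n)) ∪
              ((G ∪ G') ∪ {T₀.val, T₁.val, T₀'.val, T₁'.val})) :=
          Algebra.adjoin_mono (Set.union_subset_union_right _
            (Set.subset_union_left.trans Set.subset_union_left)) hqG
        have hqm' : q' ∈ Algebra.adjoin F (X '' (A : Set (Fin n)) ∪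
              ((G ∪ G') ∪ {T₀.val, T₁.val, T₀'.val, T₁'.val})) :=
          Algebra.adjoin_mono (Set.union_subset_union_right _
            (Set.subset_union_right.trans Set.subset_union_left)) hqG'
        have hu' := Subalgebra.add_mem _ (Subalgebra.mul_mem _ (Subalgebra.sub_mem _
          (hmem T₁.val (by simp)) (hmem T₀.val (by simp))) hqm) (hmem T₀.val (by simp))
        have hv' := Subalgebra.add_mem _ (Subalgebra.mul_mem _ (Subalgebra.sub_mem _
          (hmem T₁'.val (by simp)) (hmem T₀'.val (by simp))) hqm') (hmem T₀'.val (by simp))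
        rw [← hq] at hu'
        rw [← hq'] at hv'
        rw [hval]
        have hC : ∀ e : F, (C e : MvPolynomial (Fin n) F) ∈ Algebra.adjoin F
            (X '' (A : Set (Fin n)) ∪ ((G ∪ G') ∪ {T₀.val, T₁.val, T₀'.val, T₁'.val})) :=
          fun e => Subalgebra.algebraMap_mem _ e
        exact Subalgebra.add_mem _ (Subalgebra.add_mem _ (Subalgebra.add_mem _ (hC c0)
          (Subalgebra.mul_mem _ (hC c1) hu')) (Subalgebra.mul_mem _ (hC c2) hv'))
          (Subalgebra.mul_mem _ (hC c3) (Subalgebra.mul_mem _ hu' hv'))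

/-- the coefficients of the value of a formula with respect to few variables -/
theorem Tr.gns {L : Set (MvPolynomial (Fin n) F)} {A : Finset (Fin n)} {c κ k : ℕ}
    (hA : A.card ≤ κ) (hL : ∀ g ∈ L, Gn L A c g) {T : Tr F n} (hT : T.ML) (hTL : T.Lv L)
    (hk : ∀ i, T.occ i ≤ k) : Gn (Ds L T) A (κ * k * (c + 4) + 1) T.val := by
  classical
  by_cases hal : T.al A = 0
  · exact Gn.self (Or.inr ⟨T, Tr.segs_holes T.holes_self, rfl⟩) (Tr.al_zero hal)
      (Nat.le_add_left _ _)
  · obtain ⟨T₀, T₁, ⟨a1, a5⟩, ⟨b1, b5⟩, q, hq, G, hG, hGc, hGL, hqG⟩ := skels hL T hT hTL hal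
    refine ⟨G ∪ {T₀.val, T₁.val}, hG.union (Set.toFinite _), ?_, ?_, ?_⟩
    · have h2 : (G ∪ {T₀.val, T₁.val}).ncard ≤ G.ncard + 2 := by
        refine (Set.ncard_union_le _ _).trans (Nat.add_le_add_left ?_ _)
        refine (Set.ncard_insert_le _ _).trans (Nat.succ_le_succ ?_)
        rw [Set.ncard_singleton]
      have h3 : T.al A ≤ κ * k := by
        refine (Tr.al_le A T).trans ?_
        calc ∑ i ∈ A, T.occ i ≤ ∑ _i ∈ A, k := Finset.sum_le_sum fun i _ => hk i
          _ = A.card * k := by rw [Finset.sum_const, smul_eq_mul]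
          _ ≤ κ * k := Nat.mul_le_mul_right _ hA
      have h4 : T.al A * (c + 4) ≤ κ * k * (c + 4) := Nat.mul_le_mul_right _ h3
      omega
    · rintro x (hx | hx)
      · exact hGL x hx
      · rcases hx with rfl | rfl
        · exact ⟨Or.inr ⟨T₀, Tr.segs_holes a1, rfl⟩, Tr.al_zero a5⟩
        · exact ⟨Or.inr ⟨T₁, Tr.segs_holes b1, rfl⟩, Tr.al_zero b5⟩
    · rw [hq]
      have hm : ∀ x ∈ ({T₀.val, T₁.val} : Set (MvPolynomial (Fin n) F)),
          x ∈ Algebra.adjoin F (X '' (A : Set (Fin n)) ∪ (G ∪ {T₀.val, T₁.val})) :=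
        fun x hx => Algebra.subset_adjoin (Or.inr (Or.inr hx))
      have hqm : q ∈ Algebra.adjoin F (X '' (A : Set (Fin n)) ∪ (G ∪ {T₀.val, T₁.val})) :=
        Algebra.adjoin_mono (Set.union_subset_union_right _ Set.subset_union_left) hqG
      exact Subalgebra.add_mem _ (Subalgebra.mul_mem _ (Subalgebra.sub_mem _
        (hm T₁.val (by simp)) (hm T₀.val (by simp))) hqm) (hm T₀.val (by simp))

end skel

end Pool.Agent.H530R2
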