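import Mathlib
import Pool.Agent.H530R2.Whb1
import Pool.Agent.H530R2.Tre9

/-!
The generator with a shifted origin.
-/

namespace Pool.Agent.H530R2

open MvPolynomial Module

section shift

variable {F : Type} [Field F] {n : ℕ}

/-- the translation by `σ` -/
noncomputable def tsl (σ : Fin n → F) : MvPolynomial (Fin n) F →ₐ[F] MvPolynomial (Fin n) F :=
  aeval (fun i => X i + C (σ i))

theorem tsl_X (σ : Fin n → F) (i : Fin n) : tsl σ (X i) = X i + C (σ i) := by
  rw [tsl, aeval_X]

theorem pderiv_tsl (σ : Fin n → F) (k : Fin n) (f : MvPolynomial (Fin n) F) :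
    pderiv k (tsl σ f) = tsl σ (pderiv k f) := by
  classical
  induction f using MvPolynomial.induction_on with
  | C r =>
    rw [pderiv_C, map_zero, tsl, algHom_C]
    exact pderiv_C
  | add p q hp hq => rw [map_add, map_add, hp, hq, map_add, map_add]
  | mul_X p i hp =>
    have h1 : pderiv k (tsl σ (X i)) = tsl σ (pderiv k (X i)) := by
      rw [tsl_X, map_add, pderiv_C, add_zero, pderiv_X]
      by_cases h : k = i
      · subst h
        simp
      · rw [Pi.single_eq_of_ne' h, map_zero]
    rw [map_mul, pderiv_mul, hp, h1, pderiv_mul, map_add, map_mul, map_mul]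

theorem tsl_inj (σ : Fin n → F) : Function.Injective (tsl σ) := by
  have h : ∀ f : MvPolynomial (Fin n) F, tsl (fun i => - σ i) (tsl σ f) = f := by
    intro f
    rw [tsl, tsl, ← AlgHom.comp_apply, comp_aeval]
    have h1 : (fun i => (aeval fun i => X i + C (-σ i)) (X i + C (σ i)) :
        Fin n → MvPolynomial (Fin n) F) = X := by
      funext i
      rw [map_add, aeval_X, algHom_C, map_neg]
      show X i + -C (σ i) + C (σ i) = X i
      ring
    rw [h1, aeval_X_left_apply]
  intro x y hxy
  rw [← h x, ← h y, hxy]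

theorem tsl_supported (σ : Fin n → F) {S : Set (Fin n)} {f : MvPolynomial (Fin n) F}
    (hf : f ∈ supported F S) : tsl σ f ∈ supported F S := by
  have hf' : f ∈ Algebra.adjoin F (X '' S : Set (MvPolynomial (Fin n) F)) := hf
  clear hf
  induction hf' using Algebra.adjoin_induction with
  | mem x hx =>
    obtain ⟨i, hi, rfl⟩ := hx
    rw [tsl_X]
    exact Subalgebra.add_mem _ (X_mem_supported.2 hi) (Subalgebra.algebraMap_mem _ (σ i))
  | algebraMap r => rw [AlgHom.commutes]; exact Subalgebra.algebraMap_mem _ r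
  | add x y _ _ hx hy => rw [map_add]; exact Subalgebra.add_mem _ hx hy
  | mul x y _ _ hx hy => rw [map_mul]; exact Subalgebra.mul_mem _ hx hy

theorem Gn.tsl (σ : Fin n → F) {T : Set (MvPolynomial (Fin n) F)} {A : Finset (Fin n)} {c : ℕ}
    {g : MvPolynomial (Fin n) F} (h : Gn T A c g) :
    Gn (H530R2.tsl σ '' T) A c (H530R2.tsl σ g) := by
  obtain ⟨G, hG, hGc, hGT, hg⟩ := h
  refine ⟨H530R2.tsl σ '' G, hG.image _, (Set.ncard_image_le hG).trans hGc, ?_, ?_⟩
  · rintro _ ⟨x, hx, rfl⟩
    exact ⟨⟨x, (hGT x hx).1, rfl⟩, tsl_supported σ (hGT x hx).2⟩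
  · clear hGT hGc
    induction hg using Algebra.adjoin_induction with
    | mem x hx =>
      rcases hx with ⟨i, hi, rfl⟩ | hx
      · rw [tsl_X]
        exact Subalgebra.add_mem _ (Algebra.subset_adjoin (Or.inl ⟨i, hi, rfl⟩))
          (Subalgebra.algebraMap_mem _ (σ i))
      · exact Algebra.subset_adjoin (Or.inr ⟨x, hx, rfl⟩)
    | algebraMap r => rw [AlgHom.commutes]; exact Subalgebra.algebraMap_mem _ r
    | add x y _ _ hx hy => rw [map_add]; exact Subalgebra.add_mem _ hx hy
    | mul x y _ _ hx hy => rw [map_mul]; exact Subalgebra.mul_mem _ hx hy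

theorem eval_tsl (σ x : Fin n → F) (f : MvPolynomial (Fin n) F) :
    eval x (tsl σ f) = eval (fun i => x i + σ i) f := by
  induction f using MvPolynomial.induction_on with
  | C r =>
    rw [eval_C, tsl, algHom_C]
    exact eval_C r
  | add p q hp hq => rw [map_add, map_add, hp, hq, map_add]
  | mul_X p i hp =>
    rw [map_mul, map_mul, hp, map_mul, tsl_X, map_add, eval_X, eval_X, eval_C]

theorem tsl_totalDegree (σ : Fin n → F) (f : MvPolynomial (Fin n) F) :
    (tsl σ f).totalDegree ≤ f.totalDegree := by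
  have h1 : tsl σ f = ∑ d ∈ f.support, C (coeff d f) * ∏ i, (X i + C (σ i)) ^ d i := by
    rw [tsl, aeval_def, eval₂_eq']
    rfl
  rw [h1]
  refine totalDegree_finsetSum_le fun d hd => ?_
  refine (totalDegree_mul _ _).trans ?_
  rw [totalDegree_C, zero_add]
  refine (totalDegree_finsetProd _ _).trans ?_
  have h3 : ∑ i, d i ≤ f.totalDegree := by
    refine le_trans (le_of_eq ?_) (le_totalDegree hd)
    rw [Finsupp.sum_fintype _ _ (fun _ => rfl)]
  refine le_trans (Finset.sum_le_sum fun i _ => ?_) h3
  refine (totalDegree_pow _ _).trans ?_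
  have h2 : (X i + C (σ i) : MvPolynomial (Fin n) F).totalDegree ≤ 1 := by
    refine (totalDegree_add _ _).trans ?_
    rw [totalDegree_X, totalDegree_C]
    exact le_rfl
  calc d i * (X i + C (σ i) : MvPolynomial (Fin n) F).totalDegree ≤ d i * 1 :=
        Nat.mul_le_mul_left _ h2
    _ = d i := mul_one _

variable [CharZero F]

/-- the system of prime ideals of the generator with origin `σ` -/
noncomputable def shVan (a : Fin n → F) (ha : Function.Injective a) (σ : Fin n → F) : VanM F n :=
  blockVanM a ha 0 (fun k => X k + C (σ k)) ∅ id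
    (fun k _ => by
      rw [id, map_add, pderiv_X_self, pderiv_C, add_zero]
      intro h
      have := (RingHom.mem_ker).1 h
      rw [map_one] at this
      exact one_ne_zero this)
    (fun k _ l hl => by
      refine Subalgebra.add_mem _ (X_mem_supported.2 ?_) (Subalgebra.algebraMap_mem _ (σ l))
      exact hl)

theorem mem_shVan (a : Fin n → F) (ha : Function.Injective a) (σ : Fin n → F) (j : ℕ)
    (f : MvPolynomial (Fin n) F) : f ∈ (shVan a ha σ).I j ∅ ↔ tsl σ f ∈ genI a j := by
  show f ∈ RingHom.ker (sb (fun k => gen a (0 + j) (X k + C (σ k))) (∅ ∪ ∅)) ↔ _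
  rw [Finset.empty_union, RingHom.mem_ker, sb_empty, C_eq_zero, Nat.zero_add]
  have h1 : aeval (fun k => gen a j (X k + C (σ k))) f = gen a j (tsl σ f) := by
    have h2 := MvPolynomial.comp_aeval (R := F)
      (f := (fun k => X k + C (σ k) : Fin n → MvPolynomial (Fin n) F)) (gen a j)
    have h3 := congrArg (fun ψ => ψ f) h2
    exact h3.symm
  rw [h1]
  exact (RingHom.mem_ker).symm

theorem shVan_coef (a : Fin n → F) (ha : Function.Injective a) (σ : Fin n → F) :
    Coef (shVan a ha σ) := by
  intro j Z i0 hi0 D c hc h e he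
  exact sb_coeff _ (Z := Z ∪ ∅) (Finset.mem_union_left _ hi0) D c hc h e he

/-- level zero -/
theorem shVan_zero (a : Fin n → F) (ha : Function.Injective a) (σ : Fin n → F)
    (Y : Finset (Fin n)) {f : MvPolynomial (Fin n) F} (hf : f ∈ (shVan a ha σ).I 0 Y) :
    eval σ f = 0 := by
  have h1 : sb (F := F) (fun k => gen a (0 + 0) (X k + C (σ k))) (Y ∪ ∅) f = 0 := hf
  rw [Finset.union_empty] at h1
  have h2 : ∀ f : MvPolynomial (Fin n) F,
      aeval (fun k => gen a (0 + 0) (X k + C (σ k)))
        (sb (fun k => gen a (0 + 0) (X k + C (σ k))) Y f) = C (eval σ f) := by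
    intro f
    have hg : ∀ i, gen a (0 + 0) (X i + C (σ i)) = C (σ i) := by
      intro i
      have h3 : gen a (0 + 0) (X i) = 0 := by
        rw [gen, aeval_X]
        simp
      rw [map_add, h3, algHom_C]
      exact _root_.zero_add _
    induction f using MvPolynomial.induction_on with
    | C r =>
      rw [sb_C, eval_C]
      simp [algHom_C]
    | add p q hp hq => rw [map_add, map_add, hp, hq, map_add, map_add]
    | mul_X p i hp =>
      rw [map_mul, map_mul, hp, map_mul, eval_X, map_mul]
      congr 1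
      by_cases hi : i ∈ Y
      · rw [sb_X_mem _ hi, aeval_X, hg]
      · rw [sb_X_not_mem _ hi, aeval_C, hg]
        rfl
  have h3 := h2 f
  rw [h1, map_zero] at h3
  exact (C_eq_zero.1 h3.symm)

end shift

end Pool.Agent.H530R2
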