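import Mathlib
import Pool.Agent.H530R2.Whb2

/-!
The hitting theorems for the generator with a shifted origin at which the partial derivatives of
the gates do not vanish.
-/

namespace Pool.Agent.H530R2

open MvPolynomial Module

section reg

variable {F : Type} [Field F] {n : ℕ}

/-- the partial derivatives of the gates, those of subformulas first -/
noncomputable def Tr.gps : Tr F n → List (MvPolynomial (Fin n) F)
  | .leaf _ => []
  | .gate γ a b => a.gps ++ b.gps ++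
      [aeval ![a.val, b.val] (pderiv 0 γ), aeval ![a.val, b.val] (pderiv 1 γ)]

/-- regularity at a point -/
theorem reg_of_gps [CharZero F] {σ : Fin n → F} {S : ℕ} {hS : 1 ≤ S}
    (T : Tr F n) (h : ∀ g ∈ T.gps, g ≠ 0 → eval σ g ≠ 0) :
    Reg ((shVan (F := F) _ (natInj n) σ).scale S hS) 0 ∅ T := by
  induction T with
  | leaf g => trivial
  | gate γ a b iha ihb =>
    have hpart : ∀ g ∈ [aeval ![a.val, b.val] (pderiv 0 γ), aeval ![a.val, b.val] (pderiv 1 γ)],
        g ≠ 0 → ∀ Y, g ∉ ((shVan (F := F) _ (natInj n) σ).scale S hS).I 0 Y := by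
      intro g hg h0 Y hc
      refine h g (List.mem_append.2 (Or.inr hg)) h0 ?_
      have h1 : g ∈ (shVan (F := F) _ (natInj n) σ).I (0 * S) Y := hc
      rw [Nat.zero_mul] at h1
      exact shVan_zero _ _ σ Y h1
    refine ⟨iha fun g hg => h g (List.mem_append.2 (Or.inl (List.mem_append.2 (Or.inl hg)))),
      ihb fun g hg => h g (List.mem_append.2 (Or.inl (List.mem_append.2 (Or.inr hg)))), ?_⟩
    intro i h0 Y _
    fin_cases i
    · exact hpart _ (by simp) h0 Y
    · exact hpart _ (by simp) h0 Y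

end reg

section hit

variable {F : Type} [Field F] [CharZero F]

theorem sh_ok (n s : ℕ) (σ : Fin n → F) :
    (shVan (F := F) _ (natInj n) σ).scale (s + 1) (Nat.le_add_left 1 s) ∈
    (baseFam F).Ok s n := ⟨_, shVan_coef _ (natInj n) σ, rfl⟩

theorem sh_ge {n s j : ℕ} {σ : Fin n → F} {f : MvPolynomial (Fin n) F}
    (h : tsl σ f ∈ genI (fun i : Fin n => ((i.val : ℕ) : F)) (j * (s + 1))) :
    f ∈ ((shVan (F := F) _ (natInj n) σ).scale (s + 1) (Nat.le_add_left 1 s)).I j ∅ := by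
  show f ∈ (shVan (F := F) _ (natInj n) σ).I (j * (s + 1)) ∅
  rw [mem_shVan]
  exact h

/-- polynomials in `w` formulas, at a shifted origin -/
theorem poly_hit_sh (k w : ℕ) : ∃ m : ℕ, ∀ (n s : ℕ) (σ : Fin n → F) (T : Fin w → Tr F n),
    (∀ q, (T q).Lv {g : MvPolynomial (Fin n) F | LS (s + 1) 1 g}) →
    (∀ q i, (T q).occ i ≤ k) → (∀ q, ∀ g ∈ (T q).gps, g ≠ 0 → eval σ g ≠ 0) →
    ∀ f ∈ Algebra.adjoin F (Set.range fun q => (T q).val), f ≠ 0 →
    tsl σ f ∉ genI (fun i : Fin n => ((i.val : ℕ) : F)) (m * (s + 1)) := by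
  classical
  set p := Cst.trees F k 0 1 (baseFam F).cst w with hp
  refine ⟨p.sd (p.comb w w), ?_⟩
  intro n s σ T hL hocc hreg f hf hf0 hmem
  obtain ⟨𝔏', _, h2⟩ := ((baseFam F).toL (sh_ok n s σ)).trees k 0 1 w T
    (fun q i _ => hocc q i) (fun q => reg_of_gps (T q) (hreg q))
    (fun q => (hL q).mono (fun g hg => Pol.single le_rfl hg))
  apply hf0
  refine 𝔏'.seeds _ _ (𝔏'.comb_mem (ι := Fin w) (g := fun q => (T q).val)
    (by rw [Fintype.card_fin]) (fun q => h2 q w le_rfl) hf) ∅ le_rfl (sh_ge hmem)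

omit [CharZero F] in
theorem tsl_det {n q : ℕ} (σ : Fin n → F) (t : Fin q → Fin n)
    (G : Fin q → MvPolynomial (Fin n) F) :
    (Matrix.of fun a b => pderiv (t b) (tsl σ (G a))).det =
      tsl σ (Matrix.of fun a b => pderiv (t b) (G a)).det := by
  have h1 := (tsl σ : MvPolynomial (Fin n) F →ₐ[F] MvPolynomial (Fin n) F).map_det
    (Matrix.of fun a b => pderiv (t b) (G a))
  rw [h1]
  congr 1
  ext1 a b
  simp only [Matrix.of_apply, AlgHom.mapMatrix_apply, Matrix.map_apply, pderiv_tsl]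

/-- polynomials in products of polynomials in `w` formulas, at a shifted origin -/
theorem tree_hit_sh (κ k w w' : ℕ) (hk : 1 ≤ k) : ∃ m : ℕ, ∀ (n s : ℕ) (σ : Fin n → F)
    (Q : Tr F n → Prop), (∀ T : Tr F n, Q T → T.ML ∧ T.Lv (Lf n F s w') ∧ (∀ i, T.occ i ≤ k) ∧
        ∀ T' ∈ T.segs, ∀ g ∈ T'.gps, g ≠ 0 → eval σ g ≠ 0) →
      ∀ f : MvPolynomial (Fin n) F, Pool.Agent.H626R2.Loc.BddTrG (PolyIn Q w) κ f → f ≠ 0 →
        tsl σ f ∉ genI (fun i : Fin n => ((i.val : ℕ) : F)) (m * (s + 1)) := by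
  classical
  set c := (w' + 1) ^ κ with hc
  set C₁ := w * (κ * k * (c + 4) + 1) with hC₁
  set q₀ := (κ + 1) * C₁ with hq₀
  refine ⟨(Cst.trees F k 0 1 (baseFam F).cst q₀).em q₀ q₀ + (κ + (κ + 1) * C₁), ?_⟩
  intro n s σ Q hreg f hf hf0
  have hLf : Lf n F s w' ⊆ ((baseFam F).toL (sh_ok n s σ)).K 1 := fun g hg =>
    Pol.single le_rfl (Lf.ls hg)
  set T' : Set (MvPolynomial (Fin n) F) := {x | ∃ T : Tr F n, (∀ i, T.occ i ≤ k) ∧
    Reg ((shVan (F := F) _ (natInj n) σ).scale (s + 1) (Nat.le_add_left 1 s)) 0 ∅ T ∧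
    T.Lv (Lf n F s w') ∧ x = T.val} with hT'
  have hleafT' : ∀ g ∈ Lf n F s w', g ∈ T' := by
    intro g hg
    refine ⟨.leaf g, fun i => ?_, trivial, hg, rfl⟩
    rw [Tr.occ]
    split_ifs
    · exact hk
    · exact Nat.zero_le _
  have hsub : ∀ T : Tr F n, Q T → Ds (Lf n F s w') T ⊆ T' := by
    rintro T hQT x (hx | ⟨T₀, a1, rfl⟩)
    · exact hleafT' x hx
    · obtain ⟨_, e2, e4, e5⟩ := hreg T hQT
      exact ⟨T₀, fun i => ((Tr.segs_red a1).occ i).trans (e4 i), reg_of_gps T₀ (e5 T₀ a1),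
        (Tr.segs_red a1).lv (fun y => Lf.const s w' y) e2, rfl⟩
  have h0T : (0 : MvPolynomial (Fin n) F) ∈ tsl σ '' T' :=
    ⟨0, hleafT' 0 (by simpa using Lf.const (F := F) (n := n) s w' 0), map_zero _⟩
  have hfc : ∀ g, PolyIn Q w g →
      Pool.Agent.H626R2.Loc.FinCoef κ C₁ (tsl σ '' T') (tsl σ g) := by
    rintro g ⟨T, P, hT, rfl⟩
    rw [← AlgHom.comp_apply, comp_aeval]
    refine Pool.Agent.H626R2.Loc.FinCoef.comp _ (fun i => ?_) P
    refine Gn.finCoef h0T fun A hA => ?_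
    obtain ⟨e1, e2, e3, _⟩ := hreg _ (hT i)
    exact ((Tr.gns hA (fun g hg => Lf.gn hA hg) e1 e2 e3).mono (hsub _ (hT i)) le_rfl).tsl σ
  have htf : tsl σ f ≠ 0 := fun h => hf0 (tsl_inj σ (by rw [h, map_zero]))
  have hhit := Pool.Agent.H626R2.Loc.fin_hit (K := F) (n := n) (k := κ) (C := C₁)
    (m := (Cst.trees F k 0 1 (baseFam F).cst q₀).em q₀ q₀ * (s + 1)) (tsl σ '' T') h0T ?_
    (f := tsl σ f) ?_ htf
  · rw [evT_ne_iff] at hhit
    intro hc
    apply hhit
    refine genI_le _ ?_ hc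
    have h2 : ∀ x y : ℕ, x * (s + 1) + y ≤ (x + y) * (s + 1) := by
      intro x y
      rw [add_mul x]
      exact Nat.add_le_add_left (Nat.le_mul_of_pos_right _ (Nat.succ_pos s)) _
    exact h2 _ _
  · intro q hq t _ G hG hdet
    rw [evT_ne_iff]
    choose G₀ hG₀ hG₀' using hG
    choose T hT using hG₀
    intro hc
    have hG' : G = fun a => tsl σ (T a).val := funext fun a => by
      rw [← (hT a).2.2.2]
      exact (hG₀' a).symm
    rw [hG'] at hc hdet
    have hc' : tsl σ (Matrix.of fun a b => pderiv (t b) (T a).val).det ∈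
        genI (fun i : Fin n => ((i.val : ℕ) : F))
          ((Cst.trees F k 0 1 (baseFam F).cst q₀).em q₀ q₀ * (s + 1)) := by
      rw [← tsl_det σ t fun a => (T a).val]
      exact hc
    have hdet' : (Matrix.of fun a b => pderiv (t b) (T a).val).det ≠ 0 := by
      intro h
      apply hdet
      rw [tsl_det σ t fun a => (T a).val, h, map_zero]
    exact trees_det ((baseFam F).toL (sh_ok n s σ)) hq T
      (fun a => ⟨(hT a).1, (hT a).2.1, (hT a).2.2.1.mono hLf⟩) (hLf (Lf.const s w' 0)) t hdet'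
      (sh_ge hc')
  · obtain ⟨N', Sm, hSm, hdep, hmem⟩ := hf
    refine ⟨N', fun i => (Sm i).map (tsl σ), ?_, ?_, ?_⟩
    · intro i g hg
      obtain ⟨g', hg', rfl⟩ := Multiset.mem_map.1 hg
      exact hfc g' (hSm i g' hg')
    · intro u hu
      apply hdep u
      refine AlgebraicIndependent.of_comp (tsl σ) ?_
      convert hu using 1
      funext a
      exact map_multiset_prod (tsl σ) _
    · have h3 : tsl σ f ∈ (Algebra.adjoin F (Set.range fun i => (Sm i).prod)).map (tsl σ) :=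
        ⟨f, hmem, rfl⟩
      rw [AlgHom.map_adjoin] at h3
      refine Algebra.adjoin_mono ?_ h3
      rintro _ ⟨_, ⟨i, rfl⟩, rfl⟩
      exact ⟨i, (map_multiset_prod (tsl σ) _).symm⟩

end hit

end Pool.Agent.H530R2
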