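import Mathlib
import Pool.Agent.H530R2.Tre9

/-!
Values of formulas reading every variable few times: levels growing with the Strahler number of
the product gates.
-/

namespace Pool.Agent.H530R2

open MvPolynomial Module

universe v

section rk

variable {F : Type v} [Field F] {n : ℕ}

/-- the function of the Strahler number -/
def stf (x y : ℕ) : ℕ := if x = y then x + 1 else max x y

theorem stf_mono {x x' y y' : ℕ} (hx : x' ≤ x) (hy : y' ≤ y) : stf x' y' ≤ stf x y := by
  unfold stf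
  split_ifs <;> omega

theorem max_le_stf (x y : ℕ) : max x y ≤ stf x y := by
  unfold stf
  split_ifs <;> omega

theorem stf_comm (x y : ℕ) : stf x y = stf y x := by
  unfold stf
  split_ifs <;> omega

/-- the coefficient of the product in the gate polynomial -/
noncomputable def cpr (γ : MvPolynomial (Fin 2) F) : F :=
  coeff (Finsupp.single 0 1 + Finsupp.single 1 1) γ

open Classical in
/-- the Strahler number of the formula, where only product gates count -/
noncomputable def Tr.rk : Tr F n → ℕ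
  | .leaf _ => 0
  | .gate γ a b => if cpr γ = 0 then max a.rk b.rk else stf a.rk b.rk

theorem cpr_affine (c0 c1 c2 c3 : F) :
    cpr (C c0 + C c1 * X 0 + C c2 * X 1 + C c3 * (X 0 * X 1) : MvPolynomial (Fin 2) F) = c3 := by
  classical
  have e0 : (Finsupp.single 0 1 + Finsupp.single 1 1 : Fin 2 →₀ ℕ) ≠ 0 := by
    intro h
    have := DFunLike.congr_fun h 0
    simp at this
  have e1 : (Finsupp.single 0 1 : Fin 2 →₀ ℕ) ≠ Finsupp.single 0 1 + Finsupp.single 1 1 := by
    intro h
    have := DFunLike.congr_fun h 1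
    simp at this
  have e2 : (Finsupp.single 1 1 : Fin 2 →₀ ℕ) ≠ Finsupp.single 0 1 + Finsupp.single 1 1 := by
    intro h
    have := DFunLike.congr_fun h 0
    simp at this
  have h01 : (X 0 * X 1 : MvPolynomial (Fin 2) F) =
      monomial (Finsupp.single 0 1 + Finsupp.single 1 1) 1 := by
    rw [X, X, monomial_mul, mul_one]
  have hX0 : coeff (Finsupp.single 0 1 + Finsupp.single 1 1) (X 0 : MvPolynomial (Fin 2) F) = 0 := by
    rw [X, coeff_monomial, if_neg e1]
  have hX1 : coeff (Finsupp.single 0 1 + Finsupp.single 1 1) (X 1 : MvPolynomial (Fin 2) F) = 0 := by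
    rw [X, coeff_monomial, if_neg e2]
  have hX01 : coeff (Finsupp.single 0 1 + Finsupp.single 1 1)
      (X 0 * X 1 : MvPolynomial (Fin 2) F) = 1 := by
    rw [h01, coeff_monomial, if_pos rfl]
  rw [cpr, coeff_add, coeff_add, coeff_add, coeff_C, if_neg (Ne.symm e0), coeff_C_mul, coeff_C_mul,
    coeff_C_mul, hX0, hX1, hX01]
  ring

theorem Red.rk {F : Type} [Field F] {T' T : Tr F n} (h : Red T' T) : T'.rk ≤ T.rk := by
  induction h with
  | refl T => exact le_rfl
  | const c T => exact Nat.zero_le _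
  | left γ b _ ih =>
    rw [Tr.rk]
    split_ifs
    · exact ih.trans (le_max_left _ _)
    · exact ih.trans ((le_max_left _ _).trans (max_le_stf _ _))
  | right γ a _ ih =>
    rw [Tr.rk]
    split_ifs
    · exact ih.trans (le_max_right _ _)
    · exact ih.trans ((le_max_right _ _).trans (max_le_stf _ _))
  | gate γ _ _ ih1 ih2 =>
    rw [Tr.rk, Tr.rk]
    split_ifs
    · exact max_le_max ih1 ih2
    · exact stf_mono ih1 ih2

end rk

section ml

variable {F : Type v} [Field F] {n : ℕ}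

/-- nonvanishing of the values of formulas modulo the ideals -/
def ValR (V : VanM F n) (L : Set (MvPolynomial (Fin n) F)) (k t m : ℕ) : Prop :=
  ∀ (Y : Finset (Fin n)) (T : Tr F n), T.ML → T.Lv L → T.rk ≤ t →
    (∀ i, i ∉ Y → T.occ i ≤ k) → ∀ c : F, T.val + C c ∈ V.I m Y → T.val + C c = 0

theorem ValR.mono {V : VanM F n} {L : Set (MvPolynomial (Fin n) F)} {k t m m' : ℕ}
    (h : ValR V L k t m) (hm : m ≤ m') : ValR V L k t m' :=
  fun Y T h1 h2 h3 h4 c h5 => h Y T h1 h2 h3 h4 c (V.mono hm _ h5)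

/-- affine gate partials do not belong to the ideals -/
theorem ValR.aff {V : VanM F n} {L : Set (MvPolynomial (Fin n) F)} {k t m : ℕ}
    (h : ValR V L k t m) {Y : Finset (Fin n)} {T : Tr F n} (h1 : T.ML) (h2 : T.Lv L)
    (h3 : T.rk ≤ t) (h4 : ∀ i, i ∉ Y → T.occ i ≤ k) {c c' : F}
    (h5 : C c + C c' * T.val ≠ 0) : C c + C c' * T.val ∉ V.I m Y := by
  by_cases hc' : c' = 0
  · subst hc'
    rw [C_0, zero_mul, add_zero] at h5 ⊢
    exact C_notMem V (fun hc => h5 (by rw [hc, C_0]))
  · intro hmem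
    have h6 : C c + C c' * T.val = C c' * (T.val + C (c / c')) := by
      rw [mul_add, ← C_mul, mul_div_cancel₀ _ hc']
      ring
    rw [h6] at hmem h5
    have h7 := (V.prime m Y).mem_or_mem hmem
    rcases h7 with h7 | h7
    · exact C_notMem V hc' h7
    · exact h5 (by rw [h Y T h1 h2 h3 h4 _ h7, mul_zero])

/-- regularity of the gates from the values -/
theorem ValR.reg {V : VanM F n} {L : Set (MvPolynomial (Fin n) F)} {k t m : ℕ}
    (h : ValR V L k t m) {Y : Finset (Fin n)} {T : Tr F n} (h1 : T.ML) (h2 : T.Lv L)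
    (h3 : T.rk ≤ t) (h4 : ∀ i, i ∉ Y → T.occ i ≤ k) : Reg V m Y T := by
  induction T with
  | leaf g => trivial
  | gate γ a b iha ihb =>
    obtain ⟨hma, hmb, c0, c1, c2, c3, rfl⟩ := h1
    have h3a : max a.rk b.rk ≤ t := by
      refine le_trans ?_ h3
      rw [Tr.rk]
      split_ifs
      · exact le_rfl
      · exact max_le_stf _ _
    have hoa : ∀ i, i ∉ Y → a.occ i ≤ k := fun i hi => (Nat.le_add_right _ _).trans (h4 i hi)
    have hob : ∀ i, i ∉ Y → b.occ i ≤ k := fun i hi => (Nat.le_add_left _ _).trans (h4 i hi)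
    refine ⟨iha hma h2.1 (by omega) hoa, ihb hmb h2.2 (by omega) hob, ?_⟩
    intro i hi0 Y' hY'
    fin_cases i
    · simp only [Fin.zero_eta, Fin.isValue] at hi0 ⊢
      rw [ML_partial0] at hi0 ⊢
      exact h.aff hmb h2.2 (by omega) (fun i hi => hob i (fun hc => hi (hY' hc))) hi0
    · simp only [Fin.mk_one, Fin.isValue] at hi0 ⊢
      rw [ML_partial1] at hi0 ⊢
      exact h.aff hma h2.1 (by omega) (fun i hi => hoa i (fun hc => hi (hY' hc))) hi0

end ml

section succ

variable {F : Type v} [Field F]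

/-- the derivative of a gate of formulas with at most `k` reads -/
theorem gate_pderiv_rk {n : ℕ} {V : VanM F n} {p : Cst} {Y₀ : Finset (Fin n)} (𝔏 : LFam V p Y₀)
    {k W0 s t : ℕ} (hs : 1 ≤ s) (hV : ValR V (𝔏.K W0) k t s) {u v : Tr F n}
    {γ : MvPolynomial (Fin 2) F} (hu : u.ML) (hv : v.ML) (hLu : u.Lv (𝔏.K W0))
    (hLv : v.Lv (𝔏.K W0)) (hsu : u.rk ≤ t) (hsv : v.rk ≤ t)
    {Y : Finset (Fin n)} (hY : Y₀ ⊆ Y) (hou : ∀ i, i ∉ Y → u.occ i ≤ k)
    (hov : ∀ i, i ∉ Y → v.occ i ≤ k) {x : Fin n}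
    (hx : pderiv x (aeval ![u.val, v.val] γ) ≠ 0) :
    pderiv x (aeval ![u.val, v.val] γ) ∉ V.I (vC F k W0 p * s) Y := by
  set Vs := V.scale s hs with hVs
  have hreg : ∀ T : Tr F n, T.ML → T.Lv (𝔏.K W0) → T.rk ≤ t →
      (∀ i, i ∉ Y → T.occ i ≤ k) → Reg Vs 1 Y T := by
    intro T h1 h2 h3 h4
    have h5 := hV.reg h1 h2 h3 h4
    clear * - h5
    induction T with
    | leaf g => trivial
    | gate γ a b iha ihb =>
      refine ⟨iha h5.1, ihb h5.2.1, fun i h0 Y' hY' => ?_⟩
      have h6 := h5.2.2 i h0 Y' hY'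
      show _ ∉ V.I (1 * s) Y'
      rwa [one_mul]
  obtain ⟨𝔏', h1, h2⟩ := ((𝔏.scale s hs).weaken hY).trees k 1 W0 2 ![u, v]
    (by intro q; fin_cases q; exacts [hou, hov])
    (by intro q; fin_cases q; exacts [hreg u hu hLu hsu hou, hreg v hv hLv hsv hov])
    (by intro q; fin_cases q; exacts [hLu, hLv])
  intro hmem
  apply hx
  have h3 : aeval ![u.val, v.val] γ ∈ 𝔏'.K ((Cst.trees F k 1 W0 p 2).comb 2 2) := by
    refine 𝔏'.comb_mem (ι := Fin 2) (g := ![u.val, v.val]) (by rw [Fintype.card_fin]) ?_ ?_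
    · intro i
      fin_cases i
      · exact h2 0 2 le_rfl
      · exact h2 1 2 le_rfl
    · rw [Algebra.adjoin_range_eq_range_aeval]
      exact ⟨γ, rfl⟩
  refine 𝔏'.seeds _ _ (𝔏'.der_mem x h3) Y le_rfl ?_
  show _ ∈ V.I (_ * s) Y
  refine V.mono (Nat.mul_le_mul_right _ ?_) _ hmem
  unfold vC
  omega

/-- a derivative which does not belong to the ideals -/
theorem descend_rk {n : ℕ} {V : VanM F n} {p : Cst} (𝔏 : LFam V p ∅)
    {k W0 s t m' M : ℕ} (hs : 1 ≤ s) (hM : m' ≤ M) (hM' : vC F k W0 p * s ≤ M)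
    (hV : ValR V (𝔏.K W0) k t s)
    (hV' : t ≠ 0 → ValR V (𝔏.K W0) (k + 1) (t - 1) m') {Y : Finset (Fin n)} (T : Tr F n) :
    T.ML → T.Lv (𝔏.K W0) → T.rk ≤ t → (∀ i, i ∉ Y → T.occ i ≤ k + 1) →
    (∃ x ∈ ZT T Y k, pderiv x T.val ≠ 0) →
    ∃ x ∈ ZT T Y k, pderiv x T.val ≠ 0 ∧ ∃ S ⊆ ZT T Y k, (∀ y ∈ S, pderiv y T.val = 0) ∧
      ∀ Y', Y ∪ S ⊆ Y' → pderiv x T.val ∉ V.I M Y' := by
  classical
  induction T with
  | leaf g =>
    intro _ hL _ _ ⟨x, hx, hx0⟩
    refine ⟨x, hx, hx0, ∅, Finset.empty_subset _, by simp, ?_⟩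
    intro Y' _ hmem
    apply hx0
    refine 𝔏.seeds _ _ (𝔏.der_mem x hL) Y' (Finset.empty_subset _) (V.mono ?_ _ hmem)
    have h1 : p.sd (p.der W0) ≤ vC F k W0 p := by unfold vC; omega
    exact h1.trans ((Nat.le_mul_of_pos_right _ hs).trans hM')
  | gate γ u v ihu ihv =>
    intro hML hL hsz hocc hex
    obtain ⟨hmu, hmv, c0, c1, c2, c3, hγ⟩ := hML
    obtain ⟨hLu, hLv⟩ := hL
    have hcpr : cpr γ = c3 := by rw [hγ, cpr_affine]
    have hmax : max u.rk v.rk ≤ t := by
      refine le_trans ?_ hsz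
      rw [Tr.rk]
      split_ifs
      · exact le_rfl
      · exact max_le_stf _ _
    have hru : u.rk ≤ t := by omega
    have hrv : v.rk ≤ t := by omega
    set T : Tr F n := .gate γ u v with hT
    have hoccT : ∀ i, T.occ i = u.occ i + v.occ i := fun i => rfl
    have hval : T.val = aeval ![u.val, v.val] γ := rfl
    have hou : ∀ i, i ∉ Y → u.occ i ≤ k + 1 := fun i hi => by
      have := hocc i hi; have := hoccT i; omega
    have hov : ∀ i, i ∉ Y → v.occ i ≤ k + 1 := fun i hi => by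
      have := hocc i hi; have := hoccT i; omega
    have hZu : ZT u Y k ⊆ ZT T Y k := by
      intro i hi
      rw [mem_ZT] at hi ⊢
      have := hoccT i
      exact ⟨hi.1, by omega⟩
    have hZv : ZT v Y k ⊆ ZT T Y k := by
      intro i hi
      rw [mem_ZT] at hi ⊢
      have := hoccT i
      exact ⟨hi.1, by omega⟩
    have hdu : ∀ i ∈ ZT u Y k, pderiv i T.val = (C c1 + C c3 * v.val) * pderiv i u.val := by
      intro i hi
      rw [mem_ZT] at hi
      have h1 := hocc i hi.1
      have h2 := hoccT i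
      rw [hval, pderiv_gate, Tr.pderiv_val (T := v) (k := i) (by omega), mul_zero, add_zero,
        hγ, ML_partial0]
    have hdv : ∀ i ∈ ZT v Y k, pderiv i T.val = (C c2 + C c3 * u.val) * pderiv i v.val := by
      intro i hi
      rw [mem_ZT] at hi
      have h1 := hocc i hi.1
      have h2 := hoccT i
      rw [hval, pderiv_gate, Tr.pderiv_val (T := u) (k := i) (by omega), mul_zero, zero_add,
        hγ, ML_partial1]
    -- passing to a child
    have step : ∀ (w w' : Tr F n) (e : F), ZT w Y k ⊆ ZT T Y k →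
        (∀ i ∈ ZT w Y k, pderiv i T.val = (C e + C c3 * w'.val) * pderiv i w.val) →
        (∃ x ∈ ZT w Y k, pderiv x w.val ≠ 0 ∧ ∃ S ⊆ ZT w Y k, (∀ y ∈ S, pderiv y w.val = 0) ∧
          ∀ Y', Y ∪ S ⊆ Y' → pderiv x w.val ∉ V.I M Y') →
        (C e + C c3 * w'.val ≠ 0) →
        (∀ Y', Y ⊆ Y' → C e + C c3 * w'.val ∉ V.I M Y') →
        ∃ x ∈ ZT T Y k, pderiv x T.val ≠ 0 ∧ ∃ S ⊆ ZT T Y k, (∀ y ∈ S, pderiv y T.val = 0) ∧
          ∀ Y', Y ∪ S ⊆ Y' → pderiv x T.val ∉ V.I M Y' := by
      rintro w w' e hZw hdw ⟨x, hx, hx0, S, hS, hS0, hxS⟩ hne hno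
      refine ⟨x, hZw hx, ?_, S, hS.trans hZw, ?_, ?_⟩
      · rw [hdw x hx]
        exact mul_ne_zero hne hx0
      · intro y hy
        rw [hdw y (hS hy), hS0 y hy, mul_zero]
      · intro Y' hY' hmem
        rw [hdw x hx] at hmem
        rcases (V.prime _ _).mem_or_mem hmem with h | h
        · exact hno Y' (Finset.subset_union_left.trans hY') h
        · exact hxS Y' hY' h
    -- the main case distinction, for `w` heavy and `w'` light
    have main : ∀ (w w' : Tr F n) (e e' : F), ZT w Y k ⊆ ZT T Y k → ZT w' Y k ⊆ ZT T Y k →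
        w.ML → w'.ML → w.Lv (𝔏.K W0) → w'.Lv (𝔏.K W0) → w.rk ≤ t →
        (c3 ≠ 0 → t ≠ 0 ∧ w'.rk ≤ t - 1) → (∀ i, i ∉ Y → w.occ i ≤ k + 1) →
        (∀ i, i ∉ Y → w'.occ i ≤ k + 1) →
        (∀ i ∈ ZT w Y k, pderiv i T.val = (C e + C c3 * w'.val) * pderiv i w.val) →
        (∀ i ∈ ZT w' Y k, pderiv i T.val = (C e' + C c3 * w.val) * pderiv i w'.val) →
        ((∃ x ∈ ZT w Y k, pderiv x w.val ≠ 0) →
          ∃ x ∈ ZT w Y k, pderiv x w.val ≠ 0 ∧ ∃ S ⊆ ZT w Y k, (∀ y ∈ S, pderiv y w.val = 0) ∧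
            ∀ Y', Y ∪ S ⊆ Y' → pderiv x w.val ∉ V.I M Y') →
        ((∃ x ∈ ZT w' Y k, pderiv x w'.val ≠ 0) →
          ∃ x ∈ ZT w' Y k, pderiv x w'.val ≠ 0 ∧ ∃ S ⊆ ZT w' Y k,
            (∀ y ∈ S, pderiv y w'.val = 0) ∧
            ∀ Y', Y ∪ S ⊆ Y' → pderiv x w'.val ∉ V.I M Y') →
        (∃ x ∈ ZT T Y k, pderiv x T.val ≠ 0 ∧ ∃ S ⊆ ZT T Y k, (∀ y ∈ S, pderiv y T.val = 0) ∧
          ∀ Y', Y ∪ S ⊆ Y' → pderiv x T.val ∉ V.I M Y') ∨
          ((∀ x ∈ ZT w Y k, pderiv x T.val = 0) ∧ (∀ x ∈ ZT w' Y k, pderiv x T.val = 0)) := by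
      intro w w' e e' hZw hZw' hmw hmw' hLw hLw' hsw hsw' how how' hdw hdw' ihw ihw'
      by_cases h1 : ∃ x ∈ ZT w Y k, pderiv x T.val ≠ 0
      · left
        obtain ⟨x, hx, hx0⟩ := h1
        rw [hdw x hx] at hx0
        refine step w w' e hZw hdw (ihw ⟨x, hx, right_ne_zero_of_mul hx0⟩)
          (left_ne_zero_of_mul hx0) ?_
        intro Y' hY' hmem
        by_cases hc3 : c3 = 0
        · subst hc3
          rw [C_0, zero_mul, add_zero] at hmem hx0
          exact C_notMem V (fun hc => left_ne_zero_of_mul hx0 (by rw [hc, C_0])) hmem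
        · obtain ⟨ht, hsw''⟩ := hsw' hc3
          exact (hV' ht).aff hmw' hLw' hsw'' (fun i hi => how' i (fun hc => hi (hY' hc)))
            (left_ne_zero_of_mul hx0) (V.mono hM _ hmem)
      · push Not at h1
        by_cases h2 : ∃ x ∈ ZT w' Y k, pderiv x T.val ≠ 0
        · left
          obtain ⟨x, hx, hx0⟩ := h2
          rw [hdw' x hx] at hx0
          refine step w' w e' hZw' hdw' (ihw' ⟨x, hx, right_ne_zero_of_mul hx0⟩)
            (left_ne_zero_of_mul hx0) ?_
          intro Y' hY' hmem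
          by_cases hc3 : c3 = 0
          · subst hc3
            rw [C_0, zero_mul, add_zero] at hmem hx0
            exact C_notMem V (fun hc => left_ne_zero_of_mul hx0 (by rw [hc, C_0])) hmem
          · have h3 : C e + C c3 * w'.val ≠ 0 := by
              intro h4
              apply right_ne_zero_of_mul hx0
              have h5 := congrArg (pderiv x) h4
              rw [map_add, pderiv_C, zero_add, pderiv_mul, pderiv_C, zero_mul, zero_add,
                map_zero, mul_eq_zero] at h5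
              exact h5.resolve_left (fun h6 => hc3 (C_injective _ _ (by rw [h6, C_0])))
            have h4 : ∀ y ∈ ZT w Y k, pderiv y w.val = 0 := by
              intro y hy
              have h5 := h1 y hy
              rw [hdw y hy] at h5
              exact (mul_eq_zero.1 h5).resolve_left h3
            have h6 : C e' + C c3 * w.val ∈ V.I M (Y' ∪ ZT w Y k) := by
              refine V.free_indep _ ?_ hmem
              intro y hy
              rw [map_add, pderiv_C, zero_add, pderiv_mul, pderiv_C, zero_mul, zero_add,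
                h4 y hy, mul_zero]
            refine hV.aff hmw hLw hsw ?_ (left_ne_zero_of_mul hx0) (V.mono ?_ _ h6)
            · intro i hi
              by_contra hc
              apply hi
              apply Finset.mem_union_right
              rw [mem_ZT]
              exact ⟨fun hc' => hi (Finset.mem_union_left _ (hY' hc')), by omega⟩
            · have h7 : 1 ≤ vC F k W0 p := Nat.succ_pos _
              exact (Nat.le_mul_of_pos_left _ h7).trans hM'
        · push Not at h2
          exact Or.inr ⟨h1, h2⟩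
    have stop : (∀ x ∈ ZT u Y k, pderiv x T.val = 0) → (∀ x ∈ ZT v Y k, pderiv x T.val = 0) →
        ∃ x ∈ ZT T Y k, pderiv x T.val ≠ 0 ∧ ∃ S ⊆ ZT T Y k, (∀ y ∈ S, pderiv y T.val = 0) ∧
          ∀ Y', Y ∪ S ⊆ Y' → pderiv x T.val ∉ V.I M Y' := by
      intro h1 h2
      obtain ⟨x, hx, hx0⟩ := hex
      refine ⟨x, hx, hx0, ZT u Y k ∪ ZT v Y k, Finset.union_subset hZu hZv, ?_, ?_⟩
      · intro y hy
        rcases Finset.mem_union.1 hy with h | h
        · exact h1 y h
        · exact h2 y h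
      · intro Y' hY' hmem
        refine gate_pderiv_rk 𝔏 hs hV hmu hmv hLu hLv (by omega) (by omega) (Y := Y')
          (Finset.empty_subset _) ?_ ?_ (γ := γ) hx0
          (V.mono hM' _ hmem)
        · intro i hi
          by_contra hc
          apply hi
          apply hY'
          apply Finset.mem_union_right
          apply Finset.mem_union_left
          rw [mem_ZT]
          exact ⟨fun hc' => hi (hY' (Finset.mem_union_left _ hc')), by omega⟩
        · intro i hi
          by_contra hc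
          apply hi
          apply hY'
          apply Finset.mem_union_right
          apply Finset.mem_union_right
          rw [mem_ZT]
          exact ⟨fun hc' => hi (hY' (Finset.mem_union_left _ hc')), by omega⟩
    have hfin : (c3 ≠ 0 → t ≠ 0 ∧ v.rk ≤ t - 1) ∨ (c3 ≠ 0 → t ≠ 0 ∧ u.rk ≤ t - 1) := by
      by_cases hc3 : c3 = 0
      · exact Or.inl fun h => absurd hc3 h
      · have h1 : stf u.rk v.rk ≤ t := by
          have h2 : T.rk = stf u.rk v.rk := by
            rw [hT, Tr.rk, if_neg (by rw [hcpr]; exact hc3)]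
          rw [← h2]
          exact hsz
        unfold stf at h1
        split_ifs at h1 with h2
        · exact Or.inl fun _ => by omega
        · rcases Nat.lt_or_ge u.rk v.rk with h3 | h3
          · exact Or.inr fun _ => by omega
          · exact Or.inl fun _ => by omega
    rcases hfin with hlight | hlight
    · rcases main u v c1 c2 hZu hZv hmu hmv hLu hLv hru hlight hou hov hdu hdv
        (ihu hmu hLu hru hou) (ihv hmv hLv hrv hov) with h | ⟨h1, h2⟩
      · exact h
      · exact stop h1 h2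
    · rcases main v u c2 c1 hZv hZu hmv hmu hLv hLu hrv hlight hov hou hdv hdu
        (ihv hmv hLv hrv hov) (ihu hmu hLu hru hou) with h | ⟨h1, h2⟩
      · exact h
      · exact stop h2 h1

theorem ValR.succ {n : ℕ} {V : VanM F n} {p : Cst} (𝔏 : LFam V p ∅)
    {k W0 s t m' M : ℕ} (hs : 1 ≤ s) (hM : m' ≤ M) (hM' : vC F k W0 p * s ≤ M)
    (hV : ValR V (𝔏.K W0) k t s)
    (hV' : t ≠ 0 → ValR V (𝔏.K W0) (k + 1) (t - 1) m') :
    ValR V (𝔏.K W0) (k + 1) t (M + 1) := by
  classical
  intro Y T hML hL hsz hocc c hmem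
  have hC : 1 ≤ vC F k W0 p := Nat.succ_pos _
  have hle : s ≤ M := (Nat.le_mul_of_pos_left _ hC).trans hM'
  have hd : ∀ x, pderiv x (T.val + C c) = pderiv x T.val := by
    intro x
    rw [map_add, pderiv_C, add_zero]
  have hfin : ∀ {j : ℕ} {Y' : Finset (Fin n)}, s ≤ j → ZT T Y k ⊆ Y' → Y ⊆ Y' →
      T.val + C c ∈ V.I j Y' → T.val + C c = 0 := by
    intro j Y' hj hZ hYY' h
    refine hV Y' T hML hL hsz ?_ c (V.mono hj _ h)
    intro i hi
    by_contra hc
    apply hi
    apply hZ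
    rw [mem_ZT]
    exact ⟨fun hc' => hi (hYY' hc'), by omega⟩
  by_cases hex : ∃ x ∈ ZT T Y k, pderiv x T.val ≠ 0
  · obtain ⟨x, hx, hx0, S, hS, hS0, hxS⟩ := descend_rk 𝔏 hs hM hM' hV hV' T hML hL hsz hocc hex
    have h1 : T.val + C c ∈ V.I (M + 1) (Y ∪ S) :=
      V.free_indep S (fun y hy => by rw [hd, hS0 y hy]) hmem
    have h2 := V.free _ _ x _ h1
    have h3 : T.val + C c ∈ V.I M (insert x (Y ∪ S) ∪ ZT T Y k) := by
      refine V.free_rank1 _ (Finset.mem_insert_self _ _) ?_ h2
      intro Y' hY'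
      rw [hd]
      exact hxS Y' ((Finset.subset_insert _ _).trans hY')
    exact hfin hle Finset.subset_union_right
      (Finset.subset_union_left.trans ((Finset.subset_insert _ _).trans
        Finset.subset_union_left)) h3
  · push Not at hex
    have h1 : T.val + C c ∈ V.I (M + 1) (Y ∪ ZT T Y k) :=
      V.free_indep _ (fun y hy => by rw [hd, hex y hy]) hmem
    exact hfin (hle.trans (Nat.le_succ _)) Finset.subset_union_right Finset.subset_union_left h1

/-- Values of formulas of Strahler number at most `t` reading every variable outside the free set at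
most `k` times. -/
theorem ValR.all (F : Type v) [Field F] (p : Cst) (W0 k : ℕ) : ∃ m : ℕ, 1 ≤ m ∧
    ∀ (n : ℕ) (V : VanM F n) (𝔏 : LFam V p ∅) (t : ℕ), ValR V (𝔏.K W0) k t (m * (t + 1)) := by
  induction k with
  | zero =>
    refine ⟨1, le_rfl, ?_⟩
    intro n V 𝔏 t Y T _ _ _ hocc c hmem
    refine V.supp _ _ _ ?_ hmem
    refine Subalgebra.add_mem _ ?_ (Subalgebra.algebraMap_mem _ c)
    refine supported_mono ?_ T.val_supp
    intro i hi
    by_contra hc
    have := hocc i (fun hc' => hc (Finset.mem_coe.2 hc'))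
    exact hi (by omega)
  | succ k ih =>
    obtain ⟨m, hm, hV⟩ := ih
    refine ⟨vC F k W0 p * m + 1, Nat.succ_pos _, ?_⟩
    intro n V 𝔏 t
    have hs : ∀ t, 1 ≤ m * (t + 1) := fun t => Nat.mul_pos hm (Nat.succ_pos t)
    induction t with
    | zero =>
      have h1 := ValR.succ 𝔏 (hs 0) (m' := 0) (M := vC F k W0 p * (m * (0 + 1))) (Nat.zero_le _)
        le_rfl (hV n V 𝔏 0) (fun h => absurd rfl h)
      refine h1.mono (le_of_eq ?_)
      ring
    | succ t iht =>
      have h1 := ValR.succ 𝔏 (hs (t + 1)) (m' := (vC F k W0 p * m + 1) * (t + 1))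
        (M := vC F k W0 p * (m * (t + 1 + 1)) + (t + 1)) ?_ (Nat.le_add_right _ _)
        (hV n V 𝔏 (t + 1)) (fun _ => iht)
      · refine h1.mono (le_of_eq ?_)
        ring
      · have h2 : vC F k W0 p * (m * (t + 1 + 1)) + (t + 1) =
            (vC F k W0 p * m + 1) * (t + 1) + vC F k W0 p * m := by ring
        rw [h2]
        exact Nat.le_add_right _ _

end succ

end Pool.Agent.H530R2
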