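import Mathlib
import Pool.Agent.H530R2.Rnk1

/-!
The hitting theorem for formulas with few reads and small Strahler number.
-/

namespace Pool.Agent.H530R2

open MvPolynomial Module

section fin

variable {F : Type} [Field F] [CharZero F]

/-- The hitting theorem for polynomials in products of polynomials in `w` formulas of Strahler
number at most `t` which read every variable at most `k` times. -/
theorem rank_hit (κ k w w' : ℕ) (hk : 1 ≤ k) : ∃ m : ℕ, ∀ (n s t : ℕ)
    (f : MvPolynomial (Fin n) F),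
    Pool.Agent.H626R2.Loc.BddTrG (PolyIn (fun T : Tr F n => T.ML ∧ T.Lv (Lf n F s w') ∧
      (∀ i, T.occ i ≤ k) ∧ T.rk ≤ t) w) κ f → f ≠ 0 →
    f ∉ genI (fun i : Fin n => ((i.val : ℕ) : F)) (m * (t + 1) * (s + 1)) := by
  classical
  obtain ⟨M, hM, hVal⟩ := ValR.all F (baseFam F).cst 1 k
  obtain ⟨m, hm⟩ := tree_hit (F := F) (baseFam F).cst κ k w ((w' + 1) ^ κ) 1 1 hk
  refine ⟨m * M, ?_⟩
  intro n s t f hf hf0
  set V₀ := (stdVan (F := F) _ (natInj n)).scale (s + 1) (Nat.le_add_left 1 s) with hV₀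
  have hok : V₀ ∈ (baseFam F).Ok s n := std_ok n s
  have hs : 1 ≤ M * (t + 1) := Nat.mul_pos hM (Nat.succ_pos t)
  set V := V₀.scale (M * (t + 1)) hs with hV
  have hge : ∀ j f, f ∈ genI (fun i : Fin n => ((i.val : ℕ) : F)) (j * (M * (t + 1) * (s + 1))) →
      f ∈ V.I j ∅ := by
    intro j f h
    show f ∈ (stdVan (F := F) _ (natInj n)).I (j * (M * (t + 1)) * (s + 1)) ∅
    rw [mul_assoc, mem_stdVan]
    exact h
  have hLf : Lf n F s w' ⊆ ((baseFam F).toL hok).K 1 := fun g hg =>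
    Pol.single le_rfl (Lf.ls hg)
  have hval := hVal n V₀ ((baseFam F).toL hok) t
  have h := hm n (M * (t + 1) * (s + 1)) (Nat.mul_pos hs (Nat.succ_pos s)) V hge
    (((baseFam F).toL hok).scale _ hs) (Lf n F s w') _ hLf
    (fun y => Lf.const s w' y) (fun A hA g hg => Lf.gn hA hg) ?_ f hf hf0
  · intro hc
    apply h
    convert hc using 2
    ring
  · rintro T ⟨h1, h2, h3, h4⟩
    refine ⟨h1, h2, h3, fun T' hT' => ?_⟩
    have h5 := hval.reg (Y := ∅) (hT'.ml h1) ((hT'.lv (fun y => Lf.const s w' y) h2).mono hLf)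
      (hT'.rk.trans h4) (fun i _ => (hT'.occ i).trans (h3 i))
    clear * - h5
    induction T' with
    | leaf g => trivial
    | gate γ a b iha ihb =>
      refine ⟨iha h5.1, ihb h5.2.1, fun i h0 Y' hY' => ?_⟩
      have h6 := h5.2.2 i h0 Y' hY'
      show _ ∉ V₀.I (1 * (M * (t + 1))) Y'
      rwa [one_mul]

end fin

end Pool.Agent.H530R2
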