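import Mathlib
import Pool.Agent.H530R2.Gen2

/-!
The determinant of a matrix in which every cut between two consecutive rows meets few columns is
computed by a linear program with few registers.
-/

namespace Pool.Agent.H530R2

section det

variable {R : Type*} [CommRing R] {N : ℕ}

/-- the minor of the first `i` rows and the columns in `T` -/
noncomputable def mnr (A : Matrix (Fin N) (Fin N) R) (i : ℕ) (T : Finset (Fin N)) : R :=
  if h : T.card = i ∧ i ≤ N then
    (Matrix.of fun a b : Fin i => A (Fin.castLE h.2 a) (T.orderEmbOfFin h.1 b)).det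
  else 0

theorem mnr_zero (A : Matrix (Fin N) (Fin N) R) (T : Finset (Fin N)) :
    mnr A 0 T = if T = ∅ then 1 else 0 := by
  unfold mnr
  by_cases h : T = ∅
  · rw [dif_pos ⟨by rw [h, Finset.card_empty], Nat.zero_le _⟩, if_pos h, Matrix.det_fin_zero]
  · rw [dif_neg (fun hc => h (Finset.card_eq_zero.1 hc.1)), if_neg h]

theorem mnr_univ (A : Matrix (Fin N) (Fin N) R) : mnr A N Finset.univ = A.det := by
  have hc : (Finset.univ : Finset (Fin N)).card = N := by rw [Finset.card_univ, Fintype.card_fin]
  unfold mnr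
  rw [dif_pos ⟨hc, le_rfl⟩]
  congr 1
  ext a b
  have h1 : (id : Fin N → Fin N) = (Finset.univ : Finset (Fin N)).orderEmbOfFin hc :=
    Finset.orderEmbOfFin_unique hc (fun x => Finset.mem_univ _) strictMono_id
  rw [Matrix.of_apply, ← h1]
  rfl

theorem mnr_col (A : Matrix (Fin N) (Fin N) R) {i : ℕ} {T : Finset (Fin N)} {c : Fin N}
    (hc : c ∈ T) (h : ∀ a : Fin N, (a : ℕ) < i → A a c = 0) : mnr A i T = 0 := by
  unfold mnr
  by_cases hT : T.card = i ∧ i ≤ N
  · rw [dif_pos hT]
    have h1 : c ∈ Set.range (T.orderEmbOfFin hT.1) := by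
      rw [Finset.range_orderEmbOfFin]
      exact hc
    obtain ⟨b, hb⟩ := h1
    refine Matrix.det_eq_zero_of_column_eq_zero b fun a => ?_
    rw [Matrix.of_apply, hb]
    exact h _ a.isLt
  · rw [dif_neg hT]

/-- expansion along the last row -/
theorem mnr_expand (A : Matrix (Fin N) (Fin N) R) {i : ℕ} (hi : i < N) (T : Finset (Fin N)) :
    ∃ sg : Fin N → ℤ, mnr A (i + 1) T =
      ∑ j ∈ T, (sg j : R) * A ⟨i, hi⟩ j * mnr A i (T.erase j) := by
  classical
  by_cases hT : T.card = i + 1
  · refine ⟨fun j => if h : j ∈ T then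
      (-1) ^ (i + ((T.orderIsoOfFin hT).symm ⟨j, h⟩ : ℕ)) else 0, ?_⟩
    have h0 : mnr A (i + 1) T = (Matrix.of fun a b : Fin (i + 1) =>
        A (Fin.castLE hi a) (T.orderEmbOfFin hT b)).det := by
      unfold mnr
      rw [dif_pos ⟨hT, hi⟩]
    rw [h0, Matrix.det_succ_row _ (Fin.last i), ← Finset.sum_coe_sort T,
      ← Equiv.sum_comp (T.orderIsoOfFin hT).toEquiv]
    apply Finset.sum_congr rfl
    intro b _
    have hmem : ((T.orderIsoOfFin hT).toEquiv b : Fin N) ∈ T :=
      ((T.orderIsoOfFin hT).toEquiv b).2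
    have hcard : (T.erase ((T.orderIsoOfFin hT).toEquiv b : Fin N)).card = i := by
      rw [Finset.card_erase_of_mem hmem, hT]
      rfl
    have hsg : ((T.orderIsoOfFin hT).symm ⟨((T.orderIsoOfFin hT).toEquiv b : Fin N), hmem⟩) =
        b := by
      have h1 : (⟨((T.orderIsoOfFin hT).toEquiv b : Fin N), hmem⟩ : {x // x ∈ T}) =
        (T.orderIsoOfFin hT) b := rfl
      rw [h1, OrderIso.symm_apply_apply]
    have hm : mnr A i (T.erase ((T.orderIsoOfFin hT).toEquiv b : Fin N)) =
        ((Matrix.of fun a b : Fin (i + 1) =>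
          A (Fin.castLE hi a) (T.orderEmbOfFin hT b)).submatrix
          (Fin.last i).succAbove b.succAbove).det := by
      unfold mnr
      rw [dif_pos ⟨hcard, hi.le⟩]
      congr 1
      ext x y
      have h2 : (fun y : Fin i => T.orderEmbOfFin hT (b.succAbove y)) =
          (T.erase ((T.orderIsoOfFin hT).toEquiv b : Fin N)).orderEmbOfFin hcard := by
        refine Finset.orderEmbOfFin_unique hcard (fun x => ?_) ?_
        · rw [Finset.mem_erase]
          refine ⟨?_, Finset.orderEmbOfFin_mem _ _ _⟩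
          intro hc
          have h3 : T.orderEmbOfFin hT (b.succAbove x) = T.orderEmbOfFin hT b := hc
          exact Fin.succAbove_ne b x ((T.orderEmbOfFin hT).injective h3)
        · exact (T.orderEmbOfFin hT).strictMono.comp (Fin.strictMono_succAbove b)
      rw [Matrix.of_apply, Matrix.submatrix_apply, Matrix.of_apply, ← h2]
      congr 1
      rw [Fin.succAbove_last]
      rfl
    rw [hm]
    beta_reduce
    rw [dif_pos hmem, hsg, Int.cast_pow, Int.cast_neg, Int.cast_one]
    rfl
  · refine ⟨fun _ => 0, ?_⟩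
    have h0 : mnr A (i + 1) T = 0 := by
      unfold mnr
      rw [dif_neg (fun hc => hT hc.1)]
    rw [h0]
    symm
    apply Finset.sum_eq_zero
    intro j _
    push_cast
    ring

end det

end Pool.Agent.H530R2
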