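import Mathlib
import Pool.Agent.H530R2.Det1

/-!
Matrices in which every cut between two consecutive rows meets few columns: the transfer
matrices.
-/

namespace Pool.Agent.H530R2

open MvPolynomial

section cut

open Classical in
/-- the columns in which the rows `i, i + 1, …` vanish -/
noncomputable def colL {R : Type*} [CommRing R] {N : ℕ} (A : Matrix (Fin N) (Fin N) R) (i : ℕ) :
    Finset (Fin N) :=
  Finset.univ.filter fun c => ∀ a : Fin N, i ≤ (a : ℕ) → A a c = 0

open Classical in
/-- the columns in which a row before `i` and a row from `i` on have a nonzero entry -/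
noncomputable def colW {R : Type*} [CommRing R] {N : ℕ} (A : Matrix (Fin N) (Fin N) R) (i : ℕ) :
    Finset (Fin N) :=
  Finset.univ.filter fun c => (∃ a : Fin N, (a : ℕ) < i ∧ A a c ≠ 0) ∧
    ∃ a : Fin N, i ≤ (a : ℕ) ∧ A a c ≠ 0

variable {R : Type*} [CommRing R] {N b : ℕ} (A : Matrix (Fin N) (Fin N) R)

theorem mem_colL {i : ℕ} {c : Fin N} : c ∈ colL A i ↔ ∀ a : Fin N, i ≤ (a : ℕ) → A a c = 0 := by
  classical
  rw [colL, Finset.mem_filter]
  exact ⟨fun h => h.2, fun h => ⟨Finset.mem_univ _, h⟩⟩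

theorem mem_colW {i : ℕ} {c : Fin N} : c ∈ colW A i ↔
    (∃ a : Fin N, (a : ℕ) < i ∧ A a c ≠ 0) ∧ ∃ a : Fin N, i ≤ (a : ℕ) ∧ A a c ≠ 0 := by
  classical
  rw [colW, Finset.mem_filter]
  exact ⟨fun h => h.2, fun h => ⟨Finset.mem_univ _, h⟩⟩

theorem colL_mono (i : ℕ) : colL A i ⊆ colL A (i + 1) := by
  intro c hc
  rw [mem_colL] at hc ⊢
  exact fun a ha => hc a (by omega)

open Classical in
/-- numbers of the columns of a cut -/
noncomputable def eps (hb : ∀ i, (colW A i).card ≤ b) (i : ℕ) (c : Fin N) : Fin (b + 1) :=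
  if h : c ∈ colW A i then
    Fin.castLE ((hb i).trans (Nat.le_succ b)) (((colW A i).orderIsoOfFin rfl).symm ⟨c, h⟩) else 0

theorem eps_inj (hb : ∀ i, (colW A i).card ≤ b) {i : ℕ} {c c' : Fin N} (hc : c ∈ colW A i)
    (hc' : c' ∈ colW A i) (h : eps A hb i c = eps A hb i c') : c = c' := by
  rw [eps, eps, dif_pos hc, dif_pos hc'] at h
  have h1 := Fin.castLE_injective _ h
  have h2 := ((colW A i).orderIsoOfFin rfl).symm.injective h1
  exact congrArg Subtype.val h2

open Classical in
/-- the set of columns described by a state -/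
noncomputable def dec (hb : ∀ i, (colW A i).card ≤ b) (i : ℕ) (S : Finset (Fin (b + 1))) :
    Finset (Fin N) :=
  colL A i ∪ (colW A i).filter fun c => eps A hb i c ∈ S

open Classical in
/-- the state describing a set of columns -/
noncomputable def enc (hb : ∀ i, (colW A i).card ≤ b) (i : ℕ) (T : Finset (Fin N)) :
    Finset (Fin (b + 1)) :=
  (T ∩ colW A i).image (eps A hb i)

theorem dec_enc (hb : ∀ i, (colW A i).card ≤ b) {i : ℕ} {T : Finset (Fin N)}
    (h1 : colL A i ⊆ T) (h2 : T ⊆ colL A i ∪ colW A i) : dec A hb i (enc A hb i T) = T := by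
  classical
  ext c
  rw [dec, Finset.mem_union, Finset.mem_filter, enc, Finset.mem_image]
  constructor
  · rintro (hc | ⟨hc, c', hc', he⟩)
    · exact h1 hc
    · rw [Finset.mem_inter] at hc'
      rw [← eps_inj A hb hc'.2 hc he]
      exact hc'.1
  · intro hc
    rcases Finset.mem_union.1 (h2 hc) with h | h
    · exact Or.inl h
    · exact Or.inr ⟨h, c, Finset.mem_inter.2 ⟨hc, h⟩, rfl⟩

open Classical in
/-- the transfer matrices -/
noncomputable def trn (hb : ∀ i, (colW A i).card ≤ b) (sg : ℕ → Finset (Fin N) → Fin N → ℤ)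
    (i : ℕ) (S S' : Finset (Fin (b + 1))) : R :=
  if hi : i < N then
    ∑ j ∈ (dec A hb (i + 1) S').filter (fun j => S = enc A hb i ((dec A hb (i + 1) S').erase j) ∧
      dec A hb i S = (dec A hb (i + 1) S').erase j),
      (sg i (dec A hb (i + 1) S') j : R) * A ⟨i, hi⟩ j
  else 0

/-- the entries of the transfer matrices -/
theorem trn_entry (hb : ∀ i, (colW A i).card ≤ b) (sg : ℕ → Finset (Fin N) → Fin N → ℤ)
    (i : ℕ) (S S' : Finset (Fin (b + 1))) : trn A hb sg i S S' = 0 ∨
      ∃ (hi : i < N) (j : Fin N) (z : ℤ), trn A hb sg i S S' = (z : R) * A ⟨i, hi⟩ j := by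
  classical
  by_cases hi : i < N
  · rw [trn, dif_pos hi]
    set T' := dec A hb (i + 1) S' with hT'
    set Fs := T'.filter (fun j => S = enc A hb i (T'.erase j) ∧ dec A hb i S = T'.erase j)
      with hFs
    have hc : Fs.card ≤ 1 := by
      rw [Finset.card_le_one]
      intro a ha c hc'
      rw [hFs, Finset.mem_filter] at ha hc'
      by_contra hne
      have h1 : a ∈ T'.erase c := Finset.mem_erase.2 ⟨hne, ha.1⟩
      rw [← hc'.2.2, ha.2.2] at h1
      exact (Finset.mem_erase.1 h1).1 rfl
    rcases Nat.eq_zero_or_pos Fs.card with h0 | h0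
    · left
      rw [Finset.card_eq_zero.1 h0, Finset.sum_empty]
    · right
      obtain ⟨j, hj⟩ := Finset.card_eq_one.1 (le_antisymm hc h0)
      refine ⟨hi, j, sg i T' j, ?_⟩
      rw [hj, Finset.sum_singleton]
  · left
    rw [trn, dif_neg hi]

/-- the recursion -/
theorem mnr_step (hb : ∀ i, (colW A i).card ≤ b) (sg : ℕ → Finset (Fin N) → Fin N → ℤ)
    {i : ℕ} (hi : i < N) (hsg : ∀ T, mnr A (i + 1) T =
      ∑ j ∈ T, (sg i T j : R) * A ⟨i, hi⟩ j * mnr A i (T.erase j))
    (S' : Finset (Fin (b + 1))) : mnr A (i + 1) (dec A hb (i + 1) S') =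
      ∑ S, mnr A i (dec A hb i S) * trn A hb sg i S S' := by
  classical
  rw [hsg]
  set T' := dec A hb (i + 1) S' with hT'
  have hLT : colL A i ⊆ T' := (colL_mono A i).trans (by rw [hT', dec]; exact Finset.subset_union_left)
  have h1 : ∀ S, mnr A i (dec A hb i S) * trn A hb sg i S S' = ∑ j ∈ T',
      if S = enc A hb i (T'.erase j) then
        (if dec A hb i S = T'.erase j then
          (sg i T' j : R) * A ⟨i, hi⟩ j * mnr A i (T'.erase j) else 0) else 0 := by
    intro S
    rw [trn, dif_pos hi, Finset.mul_sum, Finset.sum_filter]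
    apply Finset.sum_congr rfl
    intro j _
    by_cases hS : S = enc A hb i (T'.erase j)
    · by_cases hd : dec A hb i S = T'.erase j
      · rw [if_pos ⟨hS, hd⟩, if_pos hS, if_pos hd, hd]
        ring
      · rw [if_neg (fun h => hd h.2), if_pos hS, if_neg hd]
    · rw [if_neg (fun h => hS h.1), if_neg hS]
  simp only [h1]
  rw [Finset.sum_comm]
  apply Finset.sum_congr rfl
  intro j hj
  rw [Finset.sum_ite_eq' Finset.univ (enc A hb i (T'.erase j)), if_pos (Finset.mem_univ _)]
  split_ifs with hd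
  · rfl
  · by_cases hA : A ⟨i, hi⟩ j = 0
    · rw [hA, mul_zero, zero_mul]
    · have hjL : j ∉ colL A i := by
        intro hc
        rw [mem_colL] at hc
        exact hA (hc ⟨i, hi⟩ le_rfl)
      have hLT' : colL A i ⊆ T'.erase j := fun c hc => Finset.mem_erase.2
        ⟨fun h => hjL (h ▸ hc), hLT hc⟩
      have hnot : ¬ T'.erase j ⊆ colL A i ∪ colW A i := fun h => hd (dec_enc A hb hLT' h)
      rw [Finset.not_subset] at hnot
      obtain ⟨c, hc, hc'⟩ := hnot
      rw [Finset.mem_union, not_or] at hc'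
      have h2 : ∃ a : Fin N, i ≤ (a : ℕ) ∧ A a c ≠ 0 := by
        by_contra hcon
        push Not at hcon
        apply hc'.1
        rw [mem_colL]
        exact hcon
      have h3 : ∀ a : Fin N, (a : ℕ) < i → A a c = 0 := by
        intro a ha
        by_contra hne
        apply hc'.2
        rw [mem_colW]
        exact ⟨⟨a, ha, hne⟩, h2⟩
      rw [mnr_col A hc h3, mul_zero]

end cut

section prog

variable {F : Type} [Field F] {n N b : ℕ}

/-- the determinant is computed by a linear program with `2 ^ (b + 1)` registers -/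
theorem det_prog (A : Matrix (Fin N) (Fin N) (MvPolynomial (Fin n) F))
    (hb : ∀ i, (colW A i).card ≤ b) : ∃ (c₀ : Fin (2 ^ (b + 1)) → F)
      (M : ℕ → Matrix (Fin (2 ^ (b + 1))) (Fin (2 ^ (b + 1))) (MvPolynomial (Fin n) F)),
      (∀ t p q, M t p q = 0 ∨ ∃ (ht : t < N) (j : Fin N) (z : ℤ),
        M t p q = (z : MvPolynomial (Fin n) F) * A ⟨t, ht⟩ j) ∧
      ∃ p, lin (fun p => C (c₀ p)) M N p = A.det := by
  classical
  have hexp : ∀ (i : ℕ) (T : Finset (Fin N)), ∃ sg : Fin N → ℤ, ∀ hi : i < N,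
      mnr A (i + 1) T = ∑ j ∈ T, (sg j : MvPolynomial (Fin n) F) * A ⟨i, hi⟩ j *
        mnr A i (T.erase j) := by
    intro i T
    by_cases hi : i < N
    · obtain ⟨sg, h⟩ := mnr_expand A hi T
      exact ⟨sg, fun _ => h⟩
    · exact ⟨fun _ => 0, fun h => absurd h hi⟩
  choose sg hsg using hexp
  have hcard : Fintype.card (Finset (Fin (b + 1))) = 2 ^ (b + 1) := by
    rw [Fintype.card_finset, Fintype.card_fin]
  set ε : Finset (Fin (b + 1)) ≃ Fin (2 ^ (b + 1)) := Fintype.equivFinOfCardEq hcard with hε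
  refine ⟨fun p => if dec A hb 0 (ε.symm p) = ∅ then 1 else 0,
    fun t => Matrix.of fun p q => trn A hb sg t (ε.symm p) (ε.symm q), ?_, ε ∅, ?_⟩
  · intro t p q
    exact trn_entry A hb sg t _ _
  · have key : ∀ i ≤ N, ∀ q : Fin (2 ^ (b + 1)), lin (fun p => C
        (if dec A hb 0 (ε.symm p) = ∅ then (1 : F) else 0))
        (fun t => Matrix.of fun p q => trn A hb sg t (ε.symm p) (ε.symm q)) i q =
        mnr A i (dec A hb i (ε.symm q)) := by
      intro i
      induction i with
      | zero =>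
        intro _ q
        rw [mnr_zero]
        show C _ = _
        split_ifs
        · exact C_1
        · exact C_0
      | succ i ih =>
        intro hi q
        rw [lin_succ, mnr_step A hb sg hi (fun T => hsg i T hi)]
        rw [← Equiv.sum_comp ε.symm]
        apply Finset.sum_congr rfl
        intro p _
        rw [ih (by omega), Matrix.of_apply]
    rw [key N le_rfl, Equiv.symm_apply_apply, ← mnr_univ]
    congr 1
    rw [dec]
    refine Finset.eq_univ_of_forall fun c => Finset.mem_union_left _ ?_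
    rw [mem_colL]
    exact fun a ha => absurd a.isLt (by omega)

end prog

end Pool.Agent.H530R2
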