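import Mathlib

/-!
Algebraic extraction: polynomials whose coefficients are killed by sufficiently many derivations
do not vanish at suitable points.
-/

namespace Pool.Agent.H530R2

open Polynomial

section chain

variable {K R T σ : Type*} [CommRing K] [CommRing R] [CommRing T] [Algebra R T] [Algebra K T]
  [Fintype σ]

/-- the chain rule -/
theorem der_aeval (D : Derivation K T T) (hD : ∀ r : R, D (algebraMap R T r) = 0) (E : σ → T)
    (A : MvPolynomial σ R) :
    D (MvPolynomial.aeval E A) =
      ∑ j, MvPolynomial.aeval E (MvPolynomial.pderiv j A) * D (E j) := by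
  classical
  induction A using MvPolynomial.induction_on with
  | C a => simp [hD]
  | add p q hp hq =>
    simp only [map_add, hp, hq, add_mul, Finset.sum_add_distrib]
  | mul_X p i hp =>
    simp only [map_mul, MvPolynomial.aeval_X, Derivation.leibniz, hp, smul_eq_mul, map_add,
      MvPolynomial.pderiv_X, add_mul, Finset.sum_add_distrib, Finset.mul_sum]
    congr 1
    · rw [Finset.sum_eq_single i]
      · simp
      · intro b _ hb
        rw [Pi.single_eq_of_ne (Ne.symm hb)]
        simp
      · simp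
    · apply Finset.sum_congr rfl
      intro j _
      ring

/-- a polynomial with vanishing derivatives is constant -/
theorem eq_C_of_pderiv [IsDomain R] [CharZero R] (A : MvPolynomial σ R)
    (h : ∀ j, MvPolynomial.pderiv j A = 0) : A = MvPolynomial.C (A.coeff 0) := by
  classical
  ext s
  rw [MvPolynomial.coeff_C]
  split_ifs with h0
  · rw [← h0]
  · have h1 : ∃ j, s j ≠ 0 := by
      by_contra hc
      push Not at hc
      exact h0 (Finsupp.ext fun j => (hc j).symm)
    obtain ⟨j, hj⟩ := h1
    have h2 := congrArg (MvPolynomial.coeff (s - Finsupp.single j 1)) (h j)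
    rw [MvPolynomial.coeff_pderiv, MvPolynomial.coeff_zero] at h2
    have h3 : s - Finsupp.single j 1 + Finsupp.single j 1 = s := by
      ext i
      simp only [Finsupp.coe_add, Finsupp.coe_tsub, Pi.add_apply, Pi.sub_apply]
      by_cases hij : j = i
      · subst hij
        rw [Finsupp.single_eq_same]
        omega
      · rw [Finsupp.single_eq_of_ne (Ne.symm hij)]
        omega
    rw [h3] at h2
    rcases mul_eq_zero.1 h2 with h4 | h4
    · exact h4
    · exfalso
      have h5 : (((s - Finsupp.single j 1 : σ →₀ ℕ) j + 1 : ℕ) : R) = 0 := by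
        push_cast
        exact h4
      exact Nat.succ_ne_zero _ (Nat.cast_eq_zero.1 h5)

omit [Fintype σ] in
theorem totalDegree_pderiv_lt (A : MvPolynomial σ R) (j : σ)
    (h : MvPolynomial.pderiv j A ≠ 0) :
    (MvPolynomial.pderiv j A).totalDegree < A.totalDegree := by
  classical
  rw [MvPolynomial.totalDegree]
  have hne : (MvPolynomial.pderiv j A).support.Nonempty := MvPolynomial.support_nonempty.2 h
  rw [Finset.sup_lt_iff]
  · intro s hs
    have h1 : (MvPolynomial.pderiv j A).coeff s ≠ 0 := MvPolynomial.mem_support_iff.1 hs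
    rw [MvPolynomial.coeff_pderiv] at h1
    have h2 : A.coeff (s + Finsupp.single j 1) ≠ 0 := fun h0 => h1 (by rw [h0, zero_mul])
    have h3 := MvPolynomial.le_totalDegree (MvPolynomial.mem_support_iff.2 h2)
    rw [Finsupp.sum_add_index' (fun _ => rfl) (fun _ _ _ => rfl), Finsupp.sum_single_index rfl]
      at h3
    omega
  · obtain ⟨s, hs⟩ := hne
    have h1 : (MvPolynomial.pderiv j A).coeff s ≠ 0 := MvPolynomial.mem_support_iff.1 hs
    rw [MvPolynomial.coeff_pderiv] at h1
    have h2 : A.coeff (s + Finsupp.single j 1) ≠ 0 := fun h0 => h1 (by rw [h0, zero_mul])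
    have h3 := MvPolynomial.le_totalDegree (MvPolynomial.mem_support_iff.2 h2)
    rw [Finsupp.sum_add_index' (fun _ => rfl) (fun _ _ _ => rfl), Finsupp.sum_single_index rfl]
      at h3
    show 0 < _
    omega

/-- nonvanishing from a nondegenerate family of derivations -/
theorem aeval_ne_zero_of_der [IsDomain R] [CharZero R] {ι : Type*}
    (hinj : Function.Injective (algebraMap R T)) (D : ι → Derivation K T T)
    (hD : ∀ k, ∀ r : R, D k (algebraMap R T r) = 0) (E : σ → T) (V : Finset σ)
    (H : ∀ w : σ → T, (∀ k, ∑ j ∈ V, w j * D k (E j) = 0) → ∀ j ∈ V, w j = 0) :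
    ∀ (N : ℕ) (A : MvPolynomial σ R), A.totalDegree ≤ N → A.vars ⊆ V → A ≠ 0 →
      MvPolynomial.aeval E A ≠ 0 := by
  classical
  intro N
  induction N with
  | zero =>
    intro A hN _ hA0 h0
    have h1 : A = MvPolynomial.C (A.coeff 0) :=
      MvPolynomial.totalDegree_eq_zero_iff_eq_C.1 (Nat.le_zero.1 hN)
    rw [h1, MvPolynomial.aeval_C] at h0
    have h2 : A.coeff 0 = 0 := hinj (by rw [h0, map_zero])
    apply hA0
    rw [h1, h2, map_zero]
  | succ N ih =>
    intro A hN hV hA0 h0
    have hw : ∀ j ∈ V, MvPolynomial.aeval E (MvPolynomial.pderiv j A) = 0 := by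
      apply H
      intro k
      have h1 := der_aeval (D k) (hD k) E A
      rw [h0, map_zero] at h1
      rw [h1]
      apply Finset.sum_subset (Finset.subset_univ _)
      intro j _ hj
      rw [MvPolynomial.pderiv_eq_zero_of_notMem_vars (fun hc => hj (hV hc)), map_zero, zero_mul]
    have hpd : ∀ j, MvPolynomial.pderiv j A = 0 := by
      intro j
      by_contra hne
      by_cases hj : j ∈ A.vars
      · refine ih _ ?_ ?_ hne (hw j (hV hj))
        · have := totalDegree_pderiv_lt A j hne
          omega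
        · intro i hi
          rw [MvPolynomial.mem_vars_iff_mem_support] at hi
          obtain ⟨s, hs, his⟩ := hi
          have h1 : (MvPolynomial.pderiv j A).coeff s ≠ 0 := MvPolynomial.mem_support_iff.1 hs
          rw [MvPolynomial.coeff_pderiv] at h1
          have h2 : A.coeff (s + Finsupp.single j 1) ≠ 0 := fun h0 => h1 (by rw [h0, zero_mul])
          apply hV
          rw [MvPolynomial.mem_vars_iff_mem_support]
          refine ⟨_, MvPolynomial.mem_support_iff.2 h2, ?_⟩
          rw [Finsupp.mem_support_iff] at his ⊢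
          simp only [Finsupp.coe_add, Pi.add_apply]
          omega
      · exact hne (MvPolynomial.pderiv_eq_zero_of_notMem_vars hj)
    have h1 := eq_C_of_pderiv A hpd
    rw [h1, MvPolynomial.aeval_C] at h0
    have h2 : A.coeff 0 = 0 := hinj (by rw [h0, map_zero])
    apply hA0
    rw [h1, h2, map_zero]

end chain

section tropical

variable {S : Type*} [CommRing S] [IsDomain S]

omit [IsDomain S] in
/-- if a sum of nonzero polynomials with at least one term vanishes then the maximal degree is
attained twice -/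
theorem exists_two_max {ι : Type*} (J : Finset ι) (hJ : J.Nonempty) (p : ι → S[X])
    (hp : ∀ j ∈ J, p j ≠ 0) (hs : ∑ j ∈ J, p j = 0) :
    ∃ i ∈ J, ∃ j ∈ J, i ≠ j ∧ (∀ l ∈ J, (p l).natDegree ≤ (p i).natDegree) ∧
      (∀ l ∈ J, (p l).natDegree ≤ (p j).natDegree) := by
  classical
  obtain ⟨i, hi, hmax⟩ := Finset.exists_max_image J (fun j => (p j).natDegree) hJ
  by_contra hcon
  push Not at hcon
  have h1 : ∀ j ∈ J, j ≠ i → (p j).natDegree < (p i).natDegree := by
    intro j hj hji
    obtain ⟨l, hl, hlt⟩ := hcon i hi j hj (Ne.symm hji) hmax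
    exact lt_of_lt_of_le hlt (hmax l hl)
  have h2 : (∑ j ∈ J, p j).coeff (p i).natDegree = (p i).leadingCoeff := by
    rw [Polynomial.finsetSum_coeff, Finset.sum_eq_single i]
    · rfl
    · intro j hj hji
      exact Polynomial.coeff_eq_zero_of_natDegree_lt (h1 j hj hji)
    · exact fun h => absurd hi h
  rw [hs, coeff_zero] at h2
  exact hp i hi (leadingCoeff_eq_zero.1 h2.symm)

/-- the tropical nondegeneracy lemma -/
theorem tropical {α β : Type*} (P : Finset α) (J : Finset β) (ek : α → ℕ) (ej : β → ℕ)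
    (hek : Set.InjOn ek P) (hej : Set.InjOn ej J) (hJP : J.card ≤ P.card) (w : β → S[X])
    (g : α → β → S[X])
    (hg : ∀ k ∈ P, ∀ j ∈ J, g k j ≠ 0 ∧ (g k j).natDegree = ej j * ek k)
    (hs : ∀ k ∈ P, ∑ j ∈ J, w j * g k j = 0) : ∀ j ∈ J, w j = 0 := by
  classical
  by_contra hcon
  push Not at hcon
  obtain ⟨j0, hj0, hw0⟩ := hcon
  set J' := J.filter (fun j => w j ≠ 0) with hJ'
  have hne : J'.Nonempty := ⟨j0, Finset.mem_filter.2 ⟨hj0, hw0⟩⟩
  have hJJ : ∀ j ∈ J', j ∈ J := fun j hj => (Finset.mem_filter.1 hj).1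
  have hs' : ∀ k ∈ P, ∑ j ∈ J', w j * g k j = 0 := by
    intro k hk
    rw [← hs k hk, hJ', Finset.sum_filter]
    apply Finset.sum_congr rfl
    intro j _
    split_ifs with h
    · rfl
    · push Not at h
      rw [h, zero_mul]
  have hdeg : ∀ k ∈ P, ∀ j ∈ J', (w j * g k j).natDegree = (w j).natDegree + ej j * ek k := by
    intro k hk j hj
    have h1 := Finset.mem_filter.1 hj
    rw [natDegree_mul h1.2 (hg k hk j h1.1).1, (hg k hk j h1.1).2]
  have key : ∀ k ∈ P, ∃ i ∈ J', ∃ j ∈ J', ej i < ej j ∧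
      (∀ l ∈ J', (w l).natDegree + ej l * ek k ≤ (w i).natDegree + ej i * ek k) ∧
      (∀ l ∈ J', (w l).natDegree + ej l * ek k ≤ (w j).natDegree + ej j * ek k) := by
    intro k hk
    obtain ⟨i, hi, j, hj, hij, h1, h2⟩ := exists_two_max J' hne (fun j => w j * g k j)
      (fun j hj => by
        have h1 := Finset.mem_filter.1 hj
        exact mul_ne_zero h1.2 (hg k hk j h1.1).1) (hs' k hk)
    have h1' : ∀ l ∈ J', (w l).natDegree + ej l * ek k ≤ (w i).natDegree + ej i * ek k := by
      intro l hl
      rw [← hdeg k hk l hl, ← hdeg k hk i hi]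
      exact h1 l hl
    have h2' : ∀ l ∈ J', (w l).natDegree + ej l * ek k ≤ (w j).natDegree + ej j * ek k := by
      intro l hl
      rw [← hdeg k hk l hl, ← hdeg k hk j hj]
      exact h2 l hl
    have hij' : ej i ≠ ej j := fun h => hij (hej (hJJ i hi) (hJJ j hj) h)
    rcases Nat.lt_or_gt_of_ne hij' with h | h
    · exact ⟨i, hi, j, hj, h, h1', h2'⟩
    · exact ⟨j, hj, i, hi, h, h2', h1'⟩
  have : Nonempty β := ⟨j0⟩
  choose! a ha b hb hab hma hmb using key
  have hmono : ∀ k ∈ P, ∀ k' ∈ P, ek k < ek k' → ej (b k) ≤ ej (a k') := by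
    intro k hk k' hk' hkk
    by_contra hlt
    push Not at hlt
    have e1 := hmb k hk (a k') (ha k' hk')
    have e2 := hma k' hk' (b k) (hb k hk)
    obtain ⟨d, hd⟩ := Nat.exists_eq_add_of_lt hlt
    obtain ⟨e, he⟩ := Nat.exists_eq_add_of_lt hkk
    rw [hd] at e1 e2
    have e3 : (ej (a k') + d + 1) * ek k + ej (a k') * ek k' <
        ej (a k') * ek k + (ej (a k') + d + 1) * ek k' := by
      rw [he]; nlinarith
    omega
  by_cases hP : P.Nonempty
  · obtain ⟨k0, hk0P, hle⟩ := Finset.exists_min_image P ek hP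
    have himg : P.image b ⊆ J'.erase (a k0) := by
      intro x hx
      obtain ⟨k, hk, rfl⟩ := Finset.mem_image.1 hx
      rw [Finset.mem_erase]
      refine ⟨?_, hb k hk⟩
      intro hc
      have hc' : ej (b k) = ej (a k0) := by rw [hc]
      have h2 := hab k0 hk0P
      have h3 := hab k hk
      rcases Nat.eq_or_lt_of_le (hle k hk) with h | h
      · have : k0 = k := hek hk0P hk h
        subst this
        omega
      · have := hmono k0 hk0P k hk h
        omega
    have hinj : Set.InjOn b P := by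
      intro k hk k' hk' hbb
      by_contra hne'
      have hbb' : ej (b k) = ej (b k') := by rw [hbb]
      have hne'' : ek k ≠ ek k' := fun h => hne' (hek hk hk' h)
      rcases Nat.lt_or_gt_of_ne hne'' with h | h
      · have := hmono k hk k' hk' h
        have h3 := hab k' hk'
        omega
      · have := hmono k' hk' k hk h
        have h3 := hab k hk
        omega
    have h1 := Finset.card_le_card himg
    rw [Finset.card_image_of_injOn hinj, Finset.card_erase_of_mem (ha k0 hk0P)] at h1
    have h2 : J'.card ≤ J.card := Finset.card_filter_le _ _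
    have h3 : 0 < J'.card := Finset.card_pos.2 hne
    omega
  · rw [Finset.not_nonempty_iff_eq_empty] at hP
    rw [hP, Finset.card_empty] at hJP
    have : 0 < J.card := Finset.card_pos.2 ⟨j0, hj0⟩
    omega

end tropical

section pivots

/-- many solutions with distinct pivots of a linear system over a domain -/
theorem pivots {S : Type*} [CommRing S] [IsDomain S] {ℓ : ℕ} {ι : Type*} [Fintype ι]
    (M : Fin ℓ → ι → S) : ∃ P : Finset (Fin ℓ), ℓ ≤ P.card + Fintype.card ι ∧
      ∀ k ∈ P, ∃ v : Fin ℓ → S, v k ≠ 0 ∧ (∀ k', k < k' → v k' = 0) ∧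
        ∀ i, ∑ k', v k' * M k' i = 0 := by
  classical
  set Good : Fin ℓ → Prop := fun k => ∃ v : Fin ℓ → S, v k ≠ 0 ∧ (∀ k', k < k' → v k' = 0) ∧
        ∀ i, ∑ k', v k' * M k' i = 0 with hGood
  refine ⟨Finset.univ.filter Good, ?_, fun k hk => (Finset.mem_filter.1 hk).2⟩
  have hli : LinearIndependent S (fun k : {k // ¬ Good k} => M k) := by
    rw [Fintype.linearIndependent_iff]
    intro g hg
    by_contra hcon
    push Not at hcon
    obtain ⟨k1, hk1⟩ := hcon
    obtain ⟨k0, hk0, hmax⟩ := Finset.exists_max_image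
      (Finset.univ.filter fun k : {k // ¬ Good k} => g k ≠ 0) (fun k => (k : Fin ℓ))
      ⟨k1, Finset.mem_filter.2 ⟨Finset.mem_univ _, hk1⟩⟩
    apply k0.2
    obtain ⟨v0, hv0⟩ : ∃ v0 : Fin ℓ → S, ∀ k, v0 k = if h : ¬ Good k then g ⟨k, h⟩ else 0 :=
      ⟨_, fun _ => rfl⟩
    have hv1 : ∀ k : {k // ¬ Good k}, v0 k = g k := by
      intro k
      rw [hv0, dif_pos k.2]
    have hv2 : ∀ k, Good k → v0 k = 0 := by
      intro k hk
      rw [hv0, dif_neg (by simpa using hk)]
    refine ⟨v0, ?_, ?_, ?_⟩
    · rw [hv1]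
      exact (Finset.mem_filter.1 hk0).2
    · intro k' hk'
      by_cases h : ¬ Good k'
      · by_contra hne
        have h1 : g ⟨k', h⟩ ≠ 0 := by rwa [← hv1 ⟨k', h⟩]
        have := hmax ⟨k', h⟩ (Finset.mem_filter.2 ⟨Finset.mem_univ _, h1⟩)
        exact absurd hk' (not_lt.2 this)
      · exact hv2 k' (not_not.1 h)
    · intro i
      have h1 := congrFun hg i
      rw [Finset.sum_apply, Pi.zero_apply] at h1
      have e1 : ∑ k', v0 k' * M k' i =
          ∑ k' ∈ Finset.univ.filter (fun k => ¬ Good k), v0 k' * M k' i := by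
        symm
        apply Finset.sum_subset (Finset.subset_univ _)
        intro k' _ hk'
        rw [hv2 k' (by simpa using hk'), zero_mul]
      rw [e1, Finset.sum_subtype _ (p := fun k => ¬ Good k) (by simp), ← h1]
      apply Finset.sum_congr rfl
      intro k _
      rw [hv1]
      rfl
  have h1 := hli.fintype_card_le_finrank
  rw [Module.finrank_fintype_fun_eq_card] at h1
  have h2 : Fintype.card {k // ¬ Good k} = (Finset.univ.filter fun k => ¬ Good k).card :=
    Fintype.card_subtype _
  have h3 := Finset.card_filter_add_card_filter_not (s := (Finset.univ : Finset (Fin ℓ))) Good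
  rw [Finset.card_univ, Fintype.card_fin] at h3
  omega

end pivots

section extraction

variable {F : Type*} [Field F]

/-- the coefficientwise extension of a derivation -/
noncomputable def mapD {S : Type*} [CommRing S] [Algebra F S] (d : Derivation F S S) :
    Derivation F S[X] S[X] :=
  PolynomialModule.equivPolynomialSelf.compDer d.mapCoeffs

theorem mapD_monomial {S : Type*} [CommRing S] [Algebra F S] (d : Derivation F S S) (n : ℕ)
    (x : S) : mapD d (monomial n x) = monomial n (d x) := by
  simp [mapD]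

theorem mapD_C_mul_X_pow {S : Type*} [CommRing S] [Algebra F S] (d : Derivation F S S) (n : ℕ)
    (x : S) : mapD d (C x * X ^ n) = C (d x) * X ^ n := by
  rw [C_mul_X_pow_eq_monomial, mapD_monomial, C_mul_X_pow_eq_monomial]

theorem mapD_C {S : Type*} [CommRing S] [Algebra F S] (d : Derivation F S S)
    (x : S) : mapD d (C x) = C (d x) := by
  have := mapD_C_mul_X_pow d 0 x
  simpa using this

theorem der_sum_apply {S ι : Type*} [CommRing S] [Algebra F S] (t : Finset ι)
    (d : ι → Derivation F S S) (x : S) : (∑ i ∈ t, d i) x = ∑ i ∈ t, d i x := by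
  classical
  induction t using Finset.induction_on with
  | empty => simp
  | insert i t hi ih => rw [Finset.sum_insert hi, Finset.sum_insert hi, Derivation.add_apply, ih]

/-- the natural degree of a lacunary polynomial -/
theorem natDegree_lacunary {S : Type*} [CommRing S] {ℓ : ℕ} (v : Fin ℓ → S) (e : ℕ) (he : 1 ≤ e)
    (k : Fin ℓ) (hk : v k ≠ 0) (hk' : ∀ k', k < k' → v k' = 0) :
    (∑ k' : Fin ℓ, C (v k') * X ^ (e * (k' : ℕ)) : S[X]) ≠ 0 ∧
    (∑ k' : Fin ℓ, C (v k') * X ^ (e * (k' : ℕ)) : S[X]).natDegree = e * (k : ℕ) := by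
  have h1 : (∑ k' : Fin ℓ, C (v k') * X ^ (e * (k' : ℕ)) : S[X]).coeff (e * (k : ℕ)) = v k := by
    rw [finsetSum_coeff, Finset.sum_eq_single k]
    · rw [coeff_C_mul, coeff_X_pow, if_pos rfl, mul_one]
    · intro k' _ hne
      rw [coeff_C_mul, coeff_X_pow, if_neg, mul_zero]
      intro h
      exact hne (Fin.ext (Nat.eq_of_mul_eq_mul_left (by omega) h).symm)
    · simp
  have h2 : (∑ k' : Fin ℓ, C (v k') * X ^ (e * (k' : ℕ)) : S[X]).natDegree ≤ e * (k : ℕ) := by
    refine natDegree_sum_le_of_forall_le _ _ fun k' _ => ?_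
    by_cases h : k < k'
    · rw [hk' k' h, map_zero, zero_mul]
      simp
    · refine (natDegree_C_mul_X_pow_le _ _).trans ?_
      exact Nat.mul_le_mul_left _ (by
        have := not_lt.1 h
        exact this)
  have h3 : (∑ k' : Fin ℓ, C (v k') * X ^ (e * (k' : ℕ)) : S[X]) ≠ 0 := by
    intro h0
    rw [h0, coeff_zero] at h1
    exact hk h1.symm
  refine ⟨h3, le_antisymm h2 ?_⟩
  apply le_natDegree_of_ne_zero
  rw [h1]
  exact hk

/-- **Extraction.** If `f` is a polynomial in the variables of `V` and in `q` polynomials in the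
other variables, then `f` does not vanish identically when the variables of `V` are replaced by
the values `∑_k y_k u^((j+1)k)`, where `y_1, …, y_ℓ` are variables (which may also occur in the
values of the other variables) with `q + |V| ≤ ℓ` and `u` is a fresh variable. -/
theorem extraction {S : Type*} [CommRing S] [IsDomain S] [CharZero S] [Algebra F S] {n ℓ : ℕ}
    (pd : Fin ℓ → Derivation F S S) (y : Fin ℓ → S)
    (hpd : ∀ k k', pd k (y k') = if k = k' then 1 else 0)
    (s : Fin n → S) (V : Finset (Fin n)) {ι : Type*} [Fintype ι]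
    (φ : ι → MvPolynomial (Fin n) F)
    (hφ : ∀ i, φ i ∈ MvPolynomial.supported F ((V : Set (Fin n))ᶜ))
    (f : MvPolynomial (Fin n) F)
    (hf : f ∈ Algebra.adjoin F (Set.range φ ∪ MvPolynomial.X '' (V : Set (Fin n))))
    (hcard : Fintype.card ι + V.card ≤ ℓ) (ρ : MvPolynomial (Fin n) F →ₐ[F] MvPolynomial (Fin n) S)
    (hρ1 : ∀ j ∈ V, ρ (MvPolynomial.X j) = MvPolynomial.X j)
    (hρ2 : ∀ j ∉ V, ρ (MvPolynomial.X j) = MvPolynomial.C (s j)) (hne : ρ f ≠ 0)
    (θ : MvPolynomial (Fin n) F →ₐ[F] S[X])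
    (hθ1 : ∀ j ∈ V, θ (MvPolynomial.X j) = ∑ k : Fin ℓ, C (y k) * X ^ (((j : ℕ) + 1) * (k : ℕ)))
    (hθ2 : ∀ j ∉ V, θ (MvPolynomial.X j) = C (s j)) : θ f ≠ 0 := by
  classical
  -- the derivations
  obtain ⟨P, hP, hPv⟩ := pivots (S := S) (ℓ := ℓ) (ι := ι)
    (fun k i => pd k (MvPolynomial.aeval s (φ i)))
  choose! v hv1 hv2 hv3 using hPv
  obtain ⟨D, hDapp⟩ : ∃ D : Fin ℓ → Derivation F S S, ∀ k x, D k x = ∑ k', v k k' * pd k' x := by
    refine ⟨fun k => ∑ k', v k k' • pd k', fun k x => ?_⟩
    rw [der_sum_apply]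
    rfl
  have hDy : ∀ k k', D k (y k') = v k k' := by
    intro k k'
    rw [hDapp, Finset.sum_eq_single k']
    · rw [hpd, if_pos rfl, mul_one]
    · intro b _ hb
      rw [hpd, if_neg hb, mul_zero]
    · simp
  obtain ⟨R0, hR0⟩ : ∃ R0 : Subalgebra F S, R0 = Algebra.adjoin F
    (Set.range fun i => MvPolynomial.aeval s (φ i)) := ⟨_, rfl⟩
  have hDR : ∀ k ∈ P, ∀ r ∈ R0, D k r = 0 := by
    intro k hk r hr
    rw [hR0] at hr
    induction hr using Algebra.adjoin_induction with
    | mem x hx =>
      obtain ⟨i, rfl⟩ := hx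
      rw [hDapp]
      exact hv3 k hk i
    | algebraMap r => exact Derivation.map_algebraMap _ _
    | add x y _ _ hx hy => rw [map_add, hx, hy, add_zero]
    | mul x y _ _ hx hy => rw [Derivation.leibniz, hx, hy, smul_zero, smul_zero, add_zero]
  -- the polynomial over `R0`
  have hρφ' : ∀ g ∈ Algebra.adjoin F (MvPolynomial.X '' ((V : Set (Fin n))ᶜ) :
      Set (MvPolynomial (Fin n) F)), ρ g = MvPolynomial.C (MvPolynomial.aeval s g) := by
    intro g h1
    induction h1 using Algebra.adjoin_induction with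
    | mem x hx =>
      obtain ⟨j, hj, rfl⟩ := hx
      have hj' : j ∉ V := fun h => hj (by exact_mod_cast h)
      rw [hρ2 j hj', MvPolynomial.aeval_X]
    | algebraMap r =>
      rw [AlgHom.commutes, AlgHom.commutes, IsScalarTower.algebraMap_apply F S,
        MvPolynomial.algebraMap_eq]
    | add x y _ _ hx hy => rw [map_add, map_add, hx, hy, map_add]
    | mul x y _ _ hx hy => rw [map_mul, map_mul, hx, hy, map_mul]
  have hρφ : ∀ i, ρ (φ i) = MvPolynomial.C (MvPolynomial.aeval s (φ i)) :=
    fun i => hρφ' _ (hφ i)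
  have hexA : ∀ g ∈ Algebra.adjoin F (Set.range φ ∪ MvPolynomial.X '' (V : Set (Fin n))),
      ∃ A : MvPolynomial (Fin n) R0, MvPolynomial.map (algebraMap R0 S) A = ρ g := by
    intro g hg
    induction hg using Algebra.adjoin_induction with
    | mem x hx =>
      rcases hx with ⟨i, rfl⟩ | ⟨j, hj, rfl⟩
      · refine ⟨MvPolynomial.C ⟨MvPolynomial.aeval s (φ i), ?_⟩, ?_⟩
        · rw [hR0]
          exact Algebra.subset_adjoin ⟨i, rfl⟩
        rw [MvPolynomial.map_C, hρφ]
        rfl
      · refine ⟨MvPolynomial.X j, ?_⟩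
        rw [MvPolynomial.map_X, hρ1 j (by exact_mod_cast hj)]
    | algebraMap r =>
      refine ⟨MvPolynomial.C (algebraMap F R0 r), ?_⟩
      rw [MvPolynomial.map_C, AlgHom.commutes,
        IsScalarTower.algebraMap_apply F S (MvPolynomial (Fin n) S), MvPolynomial.algebraMap_eq]
      rfl
    | add x y _ _ hx hy =>
      obtain ⟨A, hA⟩ := hx
      obtain ⟨B, hB⟩ := hy
      exact ⟨A + B, by rw [map_add, map_add, hA, hB]⟩
    | mul x y _ _ hx hy =>
      obtain ⟨A, hA⟩ := hx
      obtain ⟨B, hB⟩ := hy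
      exact ⟨A * B, by rw [map_mul, map_mul, hA, hB]⟩
  obtain ⟨A, hA⟩ := hexA f hf
  have hinj0 : Function.Injective (algebraMap R0 S) := Subtype.val_injective
  have hA0 : A ≠ 0 := by
    rintro rfl
    rw [map_zero] at hA
    exact hne hA.symm
  have hρV' : ∀ g ∈ Algebra.adjoin F (Set.range φ ∪ MvPolynomial.X '' (V : Set (Fin n))),
      ρ g ∈ MvPolynomial.supported S (V : Set (Fin n)) := by
    intro g hg
    induction hg using Algebra.adjoin_induction with
    | mem x hx =>
      rcases hx with ⟨i, rfl⟩ | ⟨j, hj, rfl⟩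
      · rw [hρφ, ← MvPolynomial.algebraMap_eq]
        exact Subalgebra.algebraMap_mem (MvPolynomial.supported S (V : Set (Fin n))) _
      · rw [hρ1 j (by exact_mod_cast hj)]
        exact MvPolynomial.X_mem_supported.2 hj
    | algebraMap r =>
      rw [AlgHom.commutes, IsScalarTower.algebraMap_apply F S (MvPolynomial (Fin n) S)]
      exact Subalgebra.algebraMap_mem (MvPolynomial.supported S (V : Set (Fin n))) _
    | add x y _ _ hx hy => rw [map_add]; exact Subalgebra.add_mem _ hx hy
    | mul x y _ _ hx hy => rw [map_mul]; exact Subalgebra.mul_mem _ hx hy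
  have hρV := hρV' f hf
  have hAV : A.vars ⊆ V := by
    rw [← hA, MvPolynomial.mem_supported] at hρV
    rw [MvPolynomial.vars_map_of_injective _ hinj0] at hρV
    exact_mod_cast hρV
  -- evaluation
  obtain ⟨E, hE⟩ : ∃ E : Fin n → S[X], ∀ j, E j =
    ∑ k : Fin ℓ, C (y k) * X ^ (((j : ℕ) + 1) * (k : ℕ)) := ⟨_, fun _ => rfl⟩
  have hθA : θ f = MvPolynomial.aeval E A := by
    have h1 : θ f = MvPolynomial.aeval E (ρ f) := by
      have h2 : θ = ((MvPolynomial.aeval E : MvPolynomial (Fin n) S →ₐ[S] S[X]).restrictScalars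
          F).comp ρ := by
        apply MvPolynomial.algHom_ext
        intro j
        rw [AlgHom.comp_apply]
        by_cases hj : j ∈ V
        · rw [hθ1 j hj, hρ1 j hj, ← hE, AlgHom.restrictScalars_apply, MvPolynomial.aeval_X]
        · rw [hθ2 j hj, hρ2 j hj, AlgHom.restrictScalars_apply, MvPolynomial.aeval_C]
          rfl
      rw [h2]
      rfl
    rw [h1, ← hA, MvPolynomial.aeval_map_algebraMap]
  rw [hθA]
  have hinj1 : Function.Injective (algebraMap R0 S[X]) := by
    rw [IsScalarTower.algebraMap_eq R0 S S[X]]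
    exact (C_injective).comp hinj0
  refine aeval_ne_zero_of_der (K := F) hinj1 (fun k : P => mapD (D k)) ?_ E V ?_ A.totalDegree A
    le_rfl hAV hA0
  · intro k r
    have h1 : algebraMap R0 S[X] r = C (r : S) := rfl
    rw [h1, mapD_C, hDR k k.2 r r.2, map_zero]
  · intro w hw
    refine tropical P V (fun k => (k : ℕ)) (fun j => (j : ℕ) + 1) ?_ ?_ (by omega) w
      (fun k j => mapD (D k) (E j)) ?_ ?_
    · intro k _ k' _ h
      exact Fin.ext h
    · intro j _ j' _ h
      exact Fin.ext (by simpa using h)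
    · intro k hk j _
      have h1 : mapD (D k) (E j) =
          ∑ k' : Fin ℓ, C (v k k') * X ^ (((j : ℕ) + 1) * (k' : ℕ)) := by
        rw [hE, map_sum]
        apply Finset.sum_congr rfl
        intro k' _
        rw [mapD_C_mul_X_pow, hDy]
      rw [h1]
      exact natDegree_lacunary (v k) ((j : ℕ) + 1) (by omega) k (hv1 k hk) (hv2 k hk)
    · intro k hk
      exact hw ⟨k, hk⟩

end extraction

end Pool.Agent.H530R2
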