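import Mathlib
import Pool.Agent.H530R2.SV

/-!
The one-seed generator and bivariate gates with variable-disjoint arguments.
-/

namespace Pool.Agent.H530R2

open Polynomial

section

variable {F : Type*} [Field F] {n : ℕ} (a : Fin n → F)

/-- `∏_{k ≠ i} (z - a k)` -/
noncomputable def vv (i : Fin n) : F[X] := ∏ k ∈ Finset.univ.erase i, (X - C (a k))

/-- The one-seed generator `x_i ↦ y ∏_{k ≠ i} (z - a k)` with values in `F[z][y]`. -/
noncomputable def E1 : MvPolynomial (Fin n) F →ₐ[F] F[X][X] :=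
  MvPolynomial.aeval fun i => C (vv a i) * X

/-- vanishing and degree conditions on the coefficients of the powers of `y` -/
def Adm (S : Set (Fin n)) (P : F[X][X]) : Prop :=
  ∀ d, (∀ k, k ∉ S → (X - C (a k)) ^ d ∣ P.coeff d) ∧ (P.coeff d).natDegree ≤ d * (n - 1)

theorem vv_natDegree (i : Fin n) : (vv a i).natDegree = n - 1 := by
  unfold vv
  rw [Polynomial.natDegree_prod_of_monic _ _ (fun _ _ => monic_X_sub_C _)]
  simp [Finset.card_erase_of_mem]

theorem vv_ne_zero (i : Fin n) : vv a i ≠ 0 :=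
  (monic_prod_of_monic _ _ (fun _ _ => monic_X_sub_C _)).ne_zero

theorem dvd_vv {i k : Fin n} (h : k ≠ i) : X - C (a k) ∣ vv a i :=
  Finset.dvd_prod_of_mem _ (by simp [h])

theorem Adm.add {S : Set (Fin n)} {P Q : F[X][X]} (hP : Adm a S P) (hQ : Adm a S Q) :
    Adm a S (P + Q) := by
  intro d
  refine ⟨fun k hk => ?_, ?_⟩
  · rw [coeff_add]
    exact dvd_add ((hP d).1 k hk) ((hQ d).1 k hk)
  · rw [coeff_add]
    exact (natDegree_add_le _ _).trans (max_le (hP d).2 (hQ d).2)

theorem Adm.mul {S : Set (Fin n)} {P Q : F[X][X]} (hP : Adm a S P) (hQ : Adm a S Q) :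
    Adm a S (P * Q) := by
  intro d
  rw [coeff_mul]
  refine ⟨fun k hk => ?_, ?_⟩
  · refine Finset.dvd_sum fun x hx => ?_
    rw [Finset.HasAntidiagonal.mem_antidiagonal] at hx
    rw [← hx, pow_add]
    exact mul_dvd_mul ((hP _).1 k hk) ((hQ _).1 k hk)
  · refine natDegree_sum_le_of_forall_le _ _ fun x hx => ?_
    rw [Finset.HasAntidiagonal.mem_antidiagonal] at hx
    refine natDegree_mul_le.trans ?_
    rw [← hx, add_mul]
    exact Nat.add_le_add (hP _).2 (hQ _).2

theorem Adm.const (S : Set (Fin n)) (c : F) : Adm a S (C (C c) : F[X][X]) := by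
  intro d
  rw [coeff_C]
  split_ifs with h
  · subst h
    simp
  · simp

theorem E1_adm {S : Set (Fin n)} {f : MvPolynomial (Fin n) F}
    (hf : f ∈ MvPolynomial.supported F S) : Adm a S (E1 a f) := by
  have hf' : f ∈ Algebra.adjoin F (MvPolynomial.X '' S : Set (MvPolynomial (Fin n) F)) := hf
  clear hf
  induction hf' using Algebra.adjoin_induction with
  | mem x hx =>
    obtain ⟨i, hi, rfl⟩ := hx
    rw [E1, MvPolynomial.aeval_X]
    intro d
    rw [coeff_C_mul, coeff_X]
    split_ifs with h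
    · rw [← h, mul_one, one_mul, vv_natDegree]
      refine ⟨fun k hk => ?_, le_rfl⟩
      rw [pow_one]
      apply dvd_vv a
      rintro rfl
      exact hk hi
    · simp
  | algebraMap r =>
    rw [AlgHom.commutes]
    exact Adm.const a S r
  | add x y _ _ hx hy => rw [map_add]; exact hx.add a hy
  | mul x y _ _ hx hy => rw [map_mul]; exact hx.mul a hy

/-- a nonzero admissible coefficient has a small multiplicity at some node -/
theorem exists_low_mult (ha : Function.Injective a) (hn : 0 < n) {S : Set (Fin n)} {P : F[X][X]}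
    (hP : Adm a S P) {d : ℕ} (hd : 1 ≤ d) (h0 : P.coeff d ≠ 0) :
    ∃ i ∈ S, (P.coeff d).rootMultiplicity (a i) < d := by
  by_contra hcon
  push Not at hcon
  have h1 : ∀ i, (X - C (a i)) ^ d ∣ P.coeff d := by
    intro i
    by_cases hi : i ∈ S
    · exact (le_rootMultiplicity_iff h0).1 (hcon i hi)
    · exact (hP d).1 i hi
  have h2 : (∏ i : Fin n, (X - C (a i)) ^ d) ∣ P.coeff d := by
    apply Finset.prod_dvd_of_coprime
    · intro i _ j _ hij
      apply IsCoprime.pow
      apply Polynomial.isCoprime_X_sub_C_of_isUnit_sub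
      exact (sub_ne_zero.2 (fun h => hij (ha h))).isUnit
    · intro i _; exact h1 i
  have h3 := natDegree_le_of_dvd h2 h0
  rw [Polynomial.natDegree_prod_of_monic _ _ (fun k _ => (monic_X_sub_C _).pow _)] at h3
  simp only [Monic.natDegree_pow (monic_X_sub_C _), natDegree_X_sub_C, mul_one, Finset.sum_const,
    Finset.card_univ, Fintype.card_fin, smul_eq_mul] at h3
  have h4 := (hP d).2
  have h5 : d * (n - 1) < n * d := by
    obtain ⟨n', rfl⟩ : ∃ n', n = n' + 1 := ⟨n - 1, by omega⟩
    rw [Nat.add_sub_cancel]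
    nlinarith
  omega

theorem rootMult_pow {p : F[X]} (hp : p ≠ 0) (x : F) (m : ℕ) :
    (p ^ m).rootMultiplicity x = m * p.rootMultiplicity x := by
  induction m with
  | zero => simp [Polynomial.rootMultiplicity_eq_zero]
  | succ m ih =>
    rw [pow_succ, rootMultiplicity_mul (mul_ne_zero (pow_ne_zero _ hp) hp), ih]
    ring

theorem natDegree_gate (ha : Function.Injective a) (hn : 0 < n) {S T : Set (Fin n)}
    (hST : Disjoint S T) {P Q : F[X][X]} (hP : Adm a S P) (hQ : Adm a T Q)
    (hD : 1 ≤ P.natDegree) (hE : 1 ≤ Q.natDegree) (h : MvPolynomial (Fin 2) F)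
    {s0 : Fin 2 →₀ ℕ} (hs0 : s0 ∈ h.support) (hs1 : s0 ≠ 0) :
    1 ≤ (MvPolynomial.aeval ![P, Q] h).natDegree := by
  classical
  set D := P.natDegree with hDdef
  set E := Q.natDegree with hEdef
  set A := P.leadingCoeff with hA
  set B := Q.leadingCoeff with hB
  have hP0 : P ≠ 0 := by rintro rfl; simp at hDdef; omega
  have hQ0 : Q ≠ 0 := by rintro rfl; simp at hEdef; omega
  have hA0 : A ≠ 0 := leadingCoeff_ne_zero.2 hP0
  have hB0 : B ≠ 0 := leadingCoeff_ne_zero.2 hQ0
  obtain ⟨i, hiS, hi⟩ := exists_low_mult a ha hn hP hD (show P.coeff D ≠ 0 from hA0)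
  have hiT : i ∉ T := fun hc => (Set.disjoint_left.1 hST) hiS hc
  set α := A.rootMultiplicity (a i) with hα
  set β := B.rootMultiplicity (a i) with hβ
  have hαD : α < D := hi
  have hβE : E ≤ β := by
    rw [hβ, le_rootMultiplicity_iff hB0]
    exact (hQ E).1 i hiT
  set wt : (Fin 2 →₀ ℕ) → ℕ := fun s => s 0 * D + s 1 * E with hwt
  set M := h.support.sup wt with hM
  have hM1 : 1 ≤ M := by
    refine le_trans ?_ (Finset.le_sup hs0)
    have : s0 0 ≠ 0 ∨ s0 1 ≠ 0 := by
      by_contra hc
      push Not at hc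
      apply hs1
      ext j
      fin_cases j
      · exact hc.1
      · exact hc.2
    simp only [hwt]
    rcases this with h | h
    · have : 1 ≤ s0 0 := Nat.one_le_iff_ne_zero.2 h
      nlinarith
    · have : 1 ≤ s0 1 := Nat.one_le_iff_ne_zero.2 h
      nlinarith
  -- the coefficient of y^M
  have hcoef : (MvPolynomial.aeval ![P, Q] h).coeff M =
      ∑ s ∈ h.support.filter (fun s => wt s = M), C (h.coeff s) * (A ^ (s 0) * B ^ (s 1)) := by
    rw [MvPolynomial.aeval_def, MvPolynomial.eval₂_eq', finsetSum_coeff, Finset.sum_filter]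
    apply Finset.sum_congr rfl
    intro s hs
    have h1 : (algebraMap F F[X][X]) (MvPolynomial.coeff s h) = C (C (h.coeff s)) := rfl
    rw [h1, coeff_C_mul, Fin.prod_univ_two]
    have h2 : (![P, Q] 0) ^ (s 0) * (![P, Q] 1) ^ (s 1) = P ^ (s 0) * Q ^ (s 1) := rfl
    rw [h2]
    have h3 : (P ^ (s 0) * Q ^ (s 1)).natDegree = wt s := by
      rw [natDegree_mul (pow_ne_zero _ hP0) (pow_ne_zero _ hQ0), natDegree_pow, natDegree_pow]
    split_ifs with hw
    · congr 1
      rw [← hw, ← h3]
      change leadingCoeff _ = _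
      rw [leadingCoeff_mul, leadingCoeff_pow, leadingCoeff_pow]
    · rw [coeff_eq_zero_of_natDegree_lt, mul_zero]
      rw [h3]
      exact lt_of_le_of_ne (Finset.le_sup hs) hw
  have hLne : (h.support.filter (fun s => wt s = M)).Nonempty := by
    obtain ⟨s, hs, hsM⟩ := Finset.exists_mem_eq_sup h.support ⟨s0, hs0⟩ wt
    exact ⟨s, Finset.mem_filter.2 ⟨hs, hsM.symm⟩⟩
  obtain ⟨t, htL, htmax⟩ := Finset.exists_max_image _ (fun s : Fin 2 →₀ ℕ => s 0) hLne
  have htM : wt t = M := (Finset.mem_filter.1 htL).2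
  have htc : h.coeff t ≠ 0 := MvPolynomial.mem_support_iff.1 (Finset.mem_filter.1 htL).1
  have hterm : ∀ s, h.coeff s ≠ 0 → (C (h.coeff s) * (A ^ (s 0) * B ^ (s 1))) ≠ 0 ∧
      (C (h.coeff s) * (A ^ (s 0) * B ^ (s 1))).rootMultiplicity (a i) =
        s 0 * α + s 1 * β := by
    intro s hs
    have hne : (C (h.coeff s) * (A ^ (s 0) * B ^ (s 1))) ≠ 0 :=
      mul_ne_zero (C_ne_zero.2 hs) (mul_ne_zero (pow_ne_zero _ hA0) (pow_ne_zero _ hB0))
    refine ⟨hne, ?_⟩
    rw [rootMultiplicity_mul hne, rootMultiplicity_C, zero_add,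
      rootMultiplicity_mul (mul_ne_zero (pow_ne_zero _ hA0) (pow_ne_zero _ hB0)),
      rootMult_pow hA0, rootMult_pow hB0]
  by_contra hlt
  have hdeg : (MvPolynomial.aeval ![P, Q] h).coeff M = 0 := by
    apply coeff_eq_zero_of_natDegree_lt
    omega
  rw [hcoef, ← Finset.add_sum_erase _ _ htL] at hdeg
  have hdvd : (X - C (a i)) ^ (t 0 * α + t 1 * β + 1) ∣
      ∑ s ∈ (h.support.filter (fun s => wt s = M)).erase t,
        C (h.coeff s) * (A ^ (s 0) * B ^ (s 1)) := by
    refine Finset.dvd_sum fun s hs => ?_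
    rw [Finset.mem_erase] at hs
    obtain ⟨hst, hsL⟩ := hs
    have hsM : wt s = M := (Finset.mem_filter.1 hsL).2
    have hsc : h.coeff s ≠ 0 := MvPolynomial.mem_support_iff.1 (Finset.mem_filter.1 hsL).1
    obtain ⟨hne, hmul⟩ := hterm s hsc
    rw [← le_rootMultiplicity_iff hne, hmul]
    have hle : s 0 ≤ t 0 := htmax s hsL
    have heq : s 0 * D + s 1 * E = t 0 * D + t 1 * E := by
      have : wt s = wt t := hsM.trans htM.symm
      simpa [hwt] using this
    have hlt0 : s 0 < t 0 := by
      rcases Nat.lt_or_eq_of_le hle with h | h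
      · exact h
      · exfalso
        apply hst
        have h1 : s 1 * E = t 1 * E := by rw [h] at heq; omega
        have h2 : s 1 = t 1 := Nat.eq_of_mul_eq_mul_right (by omega) h1
        ext j
        fin_cases j
        · exact h
        · exact h2
    have hle1 : t 1 ≤ s 1 := by
      by_contra hc
      push Not at hc
      have e5 : s 0 * D ≤ t 0 * D := Nat.mul_le_mul_right _ hle
      have e6 : s 1 * E < t 1 * E := Nat.mul_lt_mul_of_pos_right hc (by omega)
      omega
    obtain ⟨u, hu⟩ := Nat.exists_eq_add_of_lt hlt0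
    obtain ⟨v, hv⟩ := Nat.exists_eq_add_of_le hle1
    rw [hu, hv] at heq ⊢
    have h3 : v * E = (u + 1) * D := by
      have e3 : (s 0 + u + 1) * D = s 0 * D + (u + 1) * D := by ring
      have e4 : (t 1 + v) * E = t 1 * E + v * E := by ring
      rw [e3, e4] at heq
      omega
    have h4 : (u + 1) * α < (u + 1) * D := Nat.mul_lt_mul_of_pos_left hαD (by omega)
    have h5 : v * E ≤ v * β := Nat.mul_le_mul_left _ hβE
    have e1 : (s 0 + u + 1) * α = s 0 * α + (u + 1) * α := by ring
    have e2 : (t 1 + v) * β = t 1 * β + v * β := by ring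
    rw [e1, e2]
    omega
  have hdvd2 : (X - C (a i)) ^ (t 0 * α + t 1 * β + 1) ∣
      C (h.coeff t) * (A ^ (t 0) * B ^ (t 1)) :=
    (dvd_add_left hdvd).1 (by rw [hdeg]; exact dvd_zero _)
  obtain ⟨hne, hmul⟩ := hterm t htc
  rw [← le_rootMultiplicity_iff hne, hmul] at hdvd2
  omega

/-- univariate polynomials of a nonconstant element -/
theorem natDegree_aeval_ge {P : F[X][X]} (hD : 1 ≤ P.natDegree) (u : F[X])
    (hu : 1 ≤ u.natDegree) : 1 ≤ (Polynomial.aeval P u).natDegree := by
  have h1 : (Polynomial.aeval P u) = (u.map (algebraMap F F[X])).comp P := by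
    rw [Polynomial.comp, Polynomial.eval₂_map, Polynomial.aeval_def]
    rfl
  rw [h1, natDegree_comp, natDegree_map]
  exact Nat.one_le_iff_ne_zero.2 (Nat.mul_ne_zero (by omega) (by omega))

/-- the polynomial is constant, or not constant on the generator -/
def NC (f : MvPolynomial (Fin n) F) : Prop :=
  (∃ c, f = MvPolynomial.C c) ∨ 1 ≤ (E1 a f).natDegree

theorem NC.var (i : Fin n) : NC a (MvPolynomial.X i : MvPolynomial (Fin n) F) := by
  right
  rw [E1, MvPolynomial.aeval_X, natDegree_C_mul_X _ (vv_ne_zero a i)]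

theorem NC.mul {f g : MvPolynomial (Fin n) F} (hf : NC a f) (hg : NC a g) : NC a (f * g) := by
  by_cases hf0 : f = 0
  · left; exact ⟨0, by simp [hf0]⟩
  by_cases hg0 : g = 0
  · left; exact ⟨0, by simp [hg0]⟩
  have hne : ∀ {f : MvPolynomial (Fin n) F}, NC a f → f ≠ 0 → E1 a f ≠ 0 := by
    intro f hf hf0 h0
    rcases hf with ⟨c, rfl⟩ | h
    · apply hf0
      have h1 : E1 a (MvPolynomial.C c) = C (C c) := (E1 a).commutes c
      rw [h1] at h0
      rw [C_eq_zero.1 (C_eq_zero.1 h0), map_zero]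
    · rw [h0] at h; simp at h
  have h1 : (E1 a (f * g)).natDegree = (E1 a f).natDegree + (E1 a g).natDegree := by
    rw [map_mul, natDegree_mul (hne hf hf0) (hne hg hg0)]
  rcases hf with ⟨c, rfl⟩ | hf'
  · rcases hg with ⟨d, rfl⟩ | hg'
    · left; exact ⟨c * d, by rw [map_mul]⟩
    · right; omega
  · right; omega

theorem NC.univ {f : MvPolynomial (Fin n) F} (hf : NC a f) (u : F[X]) :
    NC a (Polynomial.aeval f u) := by
  rcases hf with ⟨c, rfl⟩ | hf'
  · left
    refine ⟨u.eval c, ?_⟩
    have : (MvPolynomial.C c : MvPolynomial (Fin n) F) = algebraMap F _ c := rfl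
    rw [this, Polynomial.aeval_algebraMap_apply]
    simp
  · by_cases hu : 1 ≤ u.natDegree
    · right
      have h1 : E1 a (Polynomial.aeval f u) = Polynomial.aeval (E1 a f) u :=
        (Polynomial.aeval_algHom_apply (E1 a) f u).symm
      rw [h1]
      exact natDegree_aeval_ge hf' u hu
    · left
      have h0 : u.natDegree = 0 := by omega
      refine ⟨u.coeff 0, ?_⟩
      conv_lhs => rw [eq_C_of_natDegree_eq_zero h0, aeval_C]
      rfl

theorem NC.gate (ha : Function.Injective a) {f g : MvPolynomial (Fin n) F} (hf : NC a f)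
    (hg : NC a g) (hd : Disjoint f.vars g.vars) (h : MvPolynomial (Fin 2) F) :
    NC a (MvPolynomial.aeval ![f, g] h) := by
  classical
  rcases hf with ⟨c, rfl⟩ | hf'
  · -- univariate in `g`
    have : MvPolynomial.aeval ![(MvPolynomial.C c : MvPolynomial (Fin n) F), g] h =
        ((Polynomial.aeval g).comp (MvPolynomial.aeval ![(C c : F[X]), X])) h := by
      congr 1
      apply MvPolynomial.algHom_ext
      intro j
      rw [AlgHom.comp_apply, MvPolynomial.aeval_X, MvPolynomial.aeval_X]
      fin_cases j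
      · simp only [Fin.zero_eta, Matrix.cons_val_zero, aeval_C]; rfl
      · simp
    rw [this]
    exact NC.univ a hg _
  rcases hg with ⟨c, rfl⟩ | hg'
  · have : MvPolynomial.aeval ![f, (MvPolynomial.C c : MvPolynomial (Fin n) F)] h =
        ((Polynomial.aeval f).comp (MvPolynomial.aeval ![(X : F[X]), C c])) h := by
      congr 1
      apply MvPolynomial.algHom_ext
      intro j
      rw [AlgHom.comp_apply, MvPolynomial.aeval_X, MvPolynomial.aeval_X]
      fin_cases j
      · simp
      · change MvPolynomial.C c = (Polynomial.aeval f) (C c)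
        rw [Polynomial.aeval_C]; rfl
    rw [this]
    exact NC.univ a (Or.inr hf') _
  by_cases hconst : ∃ s0 ∈ h.support, s0 ≠ 0
  · obtain ⟨s0, hs0, hs1⟩ := hconst
    right
    have hn : 0 < n := by
      by_contra h0
      have h0' : n = 0 := by omega
      subst h0'
      have h1 := MvPolynomial.eq_C_of_isEmpty f
      have h2 : E1 a f = C (C (MvPolynomial.coeff 0 f)) := by
        rw [h1]
        have h3 : E1 a (MvPolynomial.C (MvPolynomial.coeff 0 f)) = C (C (MvPolynomial.coeff 0 f)) :=
          (E1 a).commutes _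
        rw [h3]
        simp
      rw [h2] at hf'
      simp at hf'
    have h1 : E1 a (MvPolynomial.aeval ![f, g] h) =
        MvPolynomial.aeval ![E1 a f, E1 a g] h := by
      have h2 : (E1 a) (MvPolynomial.aeval ![f, g] h) =
          ((E1 a).comp (MvPolynomial.aeval ![f, g])) h := rfl
      rw [h2]
      congr 1
      apply MvPolynomial.algHom_ext
      intro j
      rw [AlgHom.comp_apply, MvPolynomial.aeval_X, MvPolynomial.aeval_X]
      fin_cases j <;> rfl
    rw [h1]
    exact natDegree_gate a ha hn (S := (f.vars : Set (Fin n))) (T := (g.vars : Set (Fin n)))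
      (by exact_mod_cast hd)
      (E1_adm a (MvPolynomial.mem_supported_vars f)) (E1_adm a (MvPolynomial.mem_supported_vars g))
      hf' hg' h hs0 hs1
  · left
    push Not at hconst
    refine ⟨h.coeff 0, ?_⟩
    have : h = MvPolynomial.C (h.coeff 0) := by
      ext s
      rw [MvPolynomial.coeff_C]
      split_ifs with h0
      · rw [h0]
      · by_contra hne
        exact h0 (hconst s (MvPolynomial.mem_support_iff.2 hne)).symm
    conv_lhs => rw [this, MvPolynomial.aeval_C]
    rfl

theorem NC.not_mem {f : MvPolynomial (Fin n) F} (hf : NC a f) (hf0 : f ≠ 0) :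
    f ∉ genI a 1 := by
  intro hmem
  have h0 : gen a 1 f = 0 := hmem
  let θ : MvPolynomial (Fin 1 ⊕ Fin 1) F →ₐ[F] F[X][X] :=
    MvPolynomial.aeval (Sum.elim (fun _ => X) (fun _ => C X))
  have hθ : ∀ P, θ (gen a 1 P) = E1 a P := by
    intro P
    have h2 : θ (gen a 1 P) = (θ.comp (gen a 1)) P := rfl
    rw [h2]
    congr 1
    apply MvPolynomial.algHom_ext
    intro i
    rw [AlgHom.comp_apply]
    simp only [gen, E1, MvPolynomial.aeval_X, Finset.univ_unique, Finset.sum_singleton, map_mul,
      map_prod, map_sub, θ, Sum.elim_inl, Sum.elim_inr, vv]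
    rw [mul_comm]
    congr 1
    apply Finset.prod_congr rfl
    intro k _
    congr 1
    exact θ.commutes (a k)
  have h1 : E1 a f = 0 := by rw [← hθ, h0, map_zero]
  rcases hf with ⟨c, rfl⟩ | h
  · apply hf0
    have h2 : E1 a (MvPolynomial.C c) = C (C c) := (E1 a).commutes c
    rw [h2] at h1
    rw [C_eq_zero.1 (C_eq_zero.1 h1), map_zero]
  · rw [h1] at h; simp at h

end

end Pool.Agent.H530R2
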