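import Mathlib
import Pool.Agent.H530R2.Det2
import Pool.Agent.H626R2.Loc.EHit
import Pool.Agent.H509R2.LocS3

/-!
Polynomials in boundedly many sparse polynomials, as a family over a sequence of systems of
ideals.
-/

namespace Pool.Agent.H530R2

open MvPolynomial Module

section sp

variable {K : Type} [Field K] {L : Type} [Field L] [Algebra K L] {n : ℕ}

/-- polynomials over `L` in at most `W` polynomials over `K` with at most `s ^ W` terms -/
def Spl (K L : Type) [Field K] [Field L] [Algebra K L] (n s W : ℕ) : Set (MvPolynomial (Fin n) L) :=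
  {f | ∃ (ι : Type) (_ : Fintype ι) (g : ι → MvPolynomial (Fin n) K), Fintype.card ι ≤ W ∧
    (∀ i, (g i).support.card ≤ s ^ W) ∧
    f ∈ Algebra.adjoin L (Set.range fun i => map (algebraMap K L) (g i))}

theorem Spl.mono {s W W' : ℕ} (hs : 1 ≤ s) (h : W ≤ W') : Spl K L n s W ⊆ Spl K L n s W' := by
  rintro f ⟨ι, i1, g, h1, h2, h3⟩
  exact ⟨ι, i1, g, h1.trans h, fun i => (h2 i).trans (Nat.pow_le_pow_right hs h), h3⟩

theorem Spl.comb {s W k : ℕ} (hs : 1 ≤ s) {τ : Type} [Fintype τ] {g : τ → MvPolynomial (Fin n) L}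
    {f : MvPolynomial (Fin n) L} (hτ : Fintype.card τ ≤ k) (hg : ∀ i, g i ∈ Spl K L n s W)
    (hf : f ∈ Algebra.adjoin L (Set.range g)) : f ∈ Spl K L n s (k * W + W) := by
  classical
  choose ι i1 h h1 h2 h3 using hg
  have hcard : Fintype.card ((i : τ) × ι i) ≤ k * W := by
    rw [Fintype.card_sigma]
    calc ∑ i, Fintype.card (ι i) ≤ ∑ _i : τ, W := Finset.sum_le_sum fun i _ => h1 i
      _ = Fintype.card τ * W := by rw [Finset.sum_const, Finset.card_univ, smul_eq_mul]
      _ ≤ k * W := Nat.mul_le_mul_right _ hτ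
  refine ⟨(i : τ) × ι i, inferInstance, fun x => h x.1 x.2, hcard.trans (Nat.le_add_right _ _),
    fun x => (h2 x.1 x.2).trans (Nat.pow_le_pow_right hs (Nat.le_add_left _ _)), ?_⟩
  refine (Algebra.adjoin_le ?_) hf
  rintro _ ⟨i, rfl⟩
  refine Algebra.adjoin_mono ?_ (h3 i)
  rintro _ ⟨j, rfl⟩
  exact ⟨⟨i, j⟩, rfl⟩

theorem pderiv_map_alg (k : Fin n) (g : MvPolynomial (Fin n) K) :
    pderiv k (map (algebraMap K L) g) = map (algebraMap K L) (pderiv k g) := by
  classical
  induction g using MvPolynomial.induction_on with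
  | C r => rw [map_C, pderiv_C, pderiv_C, map_zero]
  | add p q hp hq => rw [map_add, map_add, hp, hq, map_add, map_add]
  | mul_X p i hp =>
    rw [map_mul, pderiv_mul, hp, pderiv_mul, map_add, map_mul, map_mul, map_X]
    congr 2
    rw [pderiv_X, pderiv_X]
    by_cases h : i = k
    · subst h
      rw [Pi.single_eq_same, Pi.single_eq_same, map_one]
    · rw [Pi.single_eq_of_ne h, Pi.single_eq_of_ne h, map_zero]

theorem Spl.der {s W : ℕ} (hs : 1 ≤ s) (k : Fin n) {f : MvPolynomial (Fin n) L}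
    (hf : f ∈ Spl K L n s W) : pderiv k f ∈ Spl K L n s (2 * W) := by
  classical
  obtain ⟨ι, i1, g, h1, h2, h3⟩ := hf
  refine ⟨ι ⊕ ι, inferInstance, Sum.elim g fun i => pderiv k (g i),
    by rw [Fintype.card_sum]; omega, ?_, ?_⟩
  · rintro (i | i)
    · exact (h2 i).trans (Nat.pow_le_pow_right hs (by omega))
    · exact (Pool.Agent.H626R2.Loc.S3.card_support_pderiv k (g i)).trans
        ((h2 i).trans (Nat.pow_le_pow_right hs (by omega)))
  · refine pderiv_mem_of_adjoin k ?_ ?_ h3
    · rintro _ ⟨i, rfl⟩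
      exact Algebra.subset_adjoin ⟨Sum.inl i, rfl⟩
    · rintro _ ⟨i, rfl⟩
      refine Algebra.subset_adjoin ⟨Sum.inr i, ?_⟩
      exact (pderiv_map_alg k (g i)).symm

/-- the members of the classes are hit if the sparse polynomials are -/
theorem Spl.seed (V : VanM L n) {s W : ℕ} (hs : 2 ≤ s)
    (hV : ∀ h : MvPolynomial (Fin n) K, h ≠ 0 → h.support.card ≤ s ^ (2 * W * W) →
      ∀ Y, map (algebraMap K L) h ∉ V.I 0 Y) {f : MvPolynomial (Fin n) L}
    (hf : f ∈ Spl K L n s W) {Y : Finset (Fin n)} (hmem : f ∈ V.I W Y) : f = 0 := by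
  classical
  obtain ⟨ι, i1, g, h1, h2, h3⟩ := hf
  have hctl : Ctrl (((Finset.univ \ Y : Finset (Fin n))) : Set (Fin n))
      (fun i => map (algebraMap K L) (g i)) f := by
    refine (ctrl_of_adjoin (W := (Y : Set (Fin n)))
      (Algebra.adjoin_mono Set.subset_union_left h3)).mono ?_
    intro k hk
    rw [Finset.mem_coe, Finset.mem_sdiff] at hk
    exact fun hc => hk.2 (Finset.mem_coe.1 hc)
  have h4 : f ∈ V.I 0 (Y ∪ (Finset.univ \ Y)) := by
    refine V.free_block' (e := 0) (r := W) hctl h1 ?_ (by rw [Nat.zero_add, Nat.zero_add]; exact hmem)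
    intro ρ κ g' hρ hdet Y' _
    have hmat : (Matrix.of fun q l => pderiv (κ q) (map (algebraMap K L) (g (g' l)))).det =
        map (algebraMap K L) (Matrix.of fun q l => pderiv (κ q) (g (g' l))).det := by
      rw [(map (algebraMap K L) : MvPolynomial (Fin n) K →+* MvPolynomial (Fin n) L).map_det]
      congr 1
      ext1 q l
      simp only [Matrix.of_apply, RingHom.mapMatrix_apply, Matrix.map_apply, pderiv_map_alg]
    rw [hmat] at hdet ⊢
    refine hV _ (fun h => hdet (by rw [h, map_zero])) ?_ Y'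
    refine (Pool.Agent.H626R2.Loc.card_support_det _ (W := s ^ W) fun a b =>
      (Pool.Agent.H626R2.Loc.S3.card_support_pderiv _ _).trans (h2 _)).trans ?_
    have h5 : ρ.factorial ≤ s ^ (W * W) := by
      refine (Nat.factorial_le_pow ρ).trans ?_
      refine (Nat.pow_le_pow_left (hρ.trans (Nat.lt_two_pow_self.le)) ρ).trans ?_
      refine (Nat.pow_le_pow_left (Nat.pow_le_pow_left hs W) ρ).trans ?_
      rw [← pow_mul]
      exact Nat.pow_le_pow_right (by omega) (Nat.mul_le_mul_left _ hρ)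
    have h6 : (s ^ W) ^ ρ ≤ s ^ (W * W) := by
      rw [← pow_mul]
      exact Nat.pow_le_pow_right (by omega) (Nat.mul_le_mul_left _ hρ)
    refine (Nat.mul_le_mul h5 h6).trans (le_of_eq ?_)
    rw [← pow_add]
    congr 1
    ring
  refine V.supp 0 _ _ ?_ h4
  rw [Finset.union_sdiff_of_subset (Finset.subset_univ _), Finset.coe_univ, supported_univ]
  trivial

theorem VanM.large {L : Type} [Field L] (V : VanM L n) {m : ℕ} (hm : n ≤ m)
    {f : MvPolynomial (Fin n) L} {Y : Finset (Fin n)} (hmem : f ∈ V.I m Y) : f = 0 := by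
  classical
  have key : ∀ S : Finset (Fin n), ∀ j, f ∈ V.I (j + S.card) Y → f ∈ V.I j (S ∪ Y) := by
    intro S
    induction S using Finset.induction_on with
    | empty => exact fun j h => by simpa using h
    | insert i S hi ih =>
      intro j h
      rw [Finset.card_insert_of_notMem hi, ← add_assoc, add_right_comm] at h
      rw [Finset.insert_union]
      exact V.free _ _ _ _ (ih (j + 1) h)
  have h1 := key Finset.univ (m - n) (by
    rw [Finset.card_univ, Fintype.card_fin, Nat.sub_add_cancel hm]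
    exact hmem)
  have h2 := V.mono (Nat.zero_le _) _ h1
  refine V.supp 0 _ _ ?_ h2
  rw [show (Finset.univ : Finset (Fin n)) ∪ Y = Finset.univ from
    Finset.eq_univ_of_forall fun x => Finset.mem_union_left _ (Finset.mem_univ x),
    Finset.coe_univ, supported_univ]
  trivial

/-- the family of a sequence of systems of ideals, the `k`-th of which hits polynomials with at
most `s ^ k` terms -/
noncomputable def seqFam (n_ s_ : ℕ → ℕ) (hs : ∀ k, 2 ≤ s_ k) (V_ : ∀ k, VanM L (n_ k))
    (hV : ∀ k, ∀ h : MvPolynomial (Fin (n_ k)) K, h ≠ 0 → h.support.card ≤ s_ k ^ k →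
      ∀ Y, map (algebraMap K L) h ∉ (V_ k).I 0 Y) : Fam L where
  Ok σ n := {V | (⟨n, V⟩ : (n : ℕ) × VanM L n) = ⟨n_ σ, V_ σ⟩}
  K σ n W := Spl K L n (s_ σ) W
  mono {σ _ _ _} h := Spl.mono (by have := hs σ; omega) h
  comb k W := k * W + W
  comb_mem {σ _ _ _ _ _ _ _} h1 h2 h3 := Spl.comb (by have := hs σ; omega) h1 h2 h3
  der W := 2 * W
  der_mem {σ _ _} k {_} h := Spl.der (by have := hs σ; omega) k h
  seeds W := by
    refine ⟨W + ∑ k ∈ Finset.range (2 * W * W), n_ k, ?_⟩
    intro σ n V hVm f hf Y hmem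
    obtain ⟨rfl, h2⟩ := Sigma.mk.inj_iff.1 hVm
    obtain rfl := eq_of_heq h2
    rcases Nat.lt_or_ge σ (2 * W * W) with h | h
    · refine VanM.large (V_ σ) (m := W + ∑ k ∈ Finset.range (2 * W * W), n_ k) ?_ hmem
      exact (Finset.single_le_sum (f := n_) (fun _ _ => Nat.zero_le _)
        (Finset.mem_range.2 h)).trans (Nat.le_add_left _ _)
    · refine Spl.seed (V_ σ) (hs σ) (fun g hg0 hg Y' => hV σ g hg0 (hg.trans
        (Nat.pow_le_pow_right (by have := hs σ; omega) h)) Y') hf
        ((V_ σ).mono (Nat.le_add_right _ _) _ hmem)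

end sp

end Pool.Agent.H530R2
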