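import Mathlib
import Pool.Agent.H530R2.Spa1

/-!
The generator with base point the interpolated prime powers, and determinants of narrow matrices
with sparse entries.
-/

namespace Pool.Agent.H530R2

open MvPolynomial Module

open Pool.Agent.H626R2.Loc (evG genG base evT)

section base

/-- the base point -/
noncomputable def bpt (n N : ℕ) : Fin n → RatFunc ℂ :=
  fun m => algebraMap (Polynomial ℂ) (RatFunc ℂ) (base ℂ n N m)

/-- the system of ideals of the generator with this base point -/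
noncomputable def bVan (n N : ℕ) : VanM (RatFunc ℂ) n :=
  shVan (F := RatFunc ℂ) _ (natInj n) (bpt n N)

theorem base_ne {n N : ℕ} {h : MvPolynomial (Fin n) ℂ} (h0 : h ≠ 0) (hN : h.support.card ≤ N) :
    aeval (base ℂ n N) h ≠ 0 := by
  obtain ⟨j, hj, hne⟩ := Pool.Agent.H626R2.Loc.prime_hit h h0 (hN.trans (Nat.le_succ N))
  intro hc
  apply hne
  have h3 := congrArg (Polynomial.eval (j : ℂ)) hc
  rw [Pool.Agent.H626R2.Loc.S7.eval_aeval, Polynomial.eval_zero] at h3
  rw [← h3]
  congr 2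
  funext m
  show _ = (Pool.Agent.H626R2.Loc.psi ℂ N (Nat.nth Nat.Prime m)).eval (j : ℂ)
  rw [Pool.Agent.H626R2.Loc.psi_eval,
    Pool.Agent.H626R2.Loc.psiN_eq (Nat.prime_nth_prime m).one_lt.le hj]
  push_cast
  rfl

theorem bVan_hit {n N : ℕ} {h : MvPolynomial (Fin n) ℂ} (h0 : h ≠ 0) (hN : h.support.card ≤ N)
    (Y : Finset (Fin n)) : map (algebraMap ℂ (RatFunc ℂ)) h ∉ (bVan n N).I 0 Y := by
  intro hc
  have h1 := shVan_zero _ (natInj n) (bpt n N) Y hc
  apply base_ne h0 hN
  have h2 : eval (bpt n N) (map (algebraMap ℂ (RatFunc ℂ)) h) =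
      algebraMap (Polynomial ℂ) (RatFunc ℂ) (aeval (base ℂ n N) h) := by
    rw [eval_map]
    induction h using MvPolynomial.induction_on with
    | C r =>
      rw [eval₂_C, algHom_C, ← IsScalarTower.algebraMap_apply]
    | add p q hp hq =>
      clear hc h1 h0 hN
      have hp' : ∀ p : MvPolynomial (Fin n) ℂ, eval₂ (algebraMap ℂ (RatFunc ℂ)) (bpt n N) p =
          algebraMap (Polynomial ℂ) (RatFunc ℂ) (aeval (base ℂ n N) p) := by
        intro p
        induction p using MvPolynomial.induction_on with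
        | C r => rw [eval₂_C, algHom_C, ← IsScalarTower.algebraMap_apply]
        | add p q hp hq => rw [eval₂_add, hp, hq, map_add, map_add]
        | mul_X p i hp =>
          rw [eval₂_mul, hp, eval₂_X, map_mul, map_mul, aeval_X]
          rfl
      exact hp' _
    | mul_X p i hp =>
      clear hc h1 h0 hN
      have hp' : ∀ p : MvPolynomial (Fin n) ℂ, eval₂ (algebraMap ℂ (RatFunc ℂ)) (bpt n N) p =
          algebraMap (Polynomial ℂ) (RatFunc ℂ) (aeval (base ℂ n N) p) := by
        intro p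
        induction p using MvPolynomial.induction_on with
        | C r => rw [eval₂_C, algHom_C, ← IsScalarTower.algebraMap_apply]
        | add p q hp hq => rw [eval₂_add, hp, hq, map_add, map_add]
        | mul_X p i hp =>
          rw [eval₂_mul, hp, eval₂_X, map_mul, map_mul, aeval_X]
          rfl
      exact hp' _
  rw [h1] at h2
  exact (IsFractionRing.injective (Polynomial ℂ) (RatFunc ℂ)) (by rw [← h2, map_zero])

theorem map_evG {n N T : ℕ} (h : MvPolynomial (Fin n) ℂ) :
    map (algebraMap (Polynomial ℂ) (RatFunc ℂ)) (evG ℂ (base ℂ n N) T h) =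
      evT (RatFunc ℂ) n T (tsl (bpt n N) (map (algebraMap ℂ (RatFunc ℂ)) h)) := by
  have e0 : ∀ x : RatFunc ℂ, evT (RatFunc ℂ) n T (C x) = C x :=
    fun x => (evT (RatFunc ℂ) n T).commutes x
  induction h using MvPolynomial.induction_on with
  | C r =>
    have e1 : evG ℂ (base ℂ n N) T (C r) = C (algebraMap ℂ (Polynomial ℂ) r) :=
      (evG ℂ (base ℂ n N) T).commutes r
    have e2 : ∀ x : RatFunc ℂ, tsl (bpt n N) (C x) = C x := fun x => (tsl (bpt n N)).commutes x
    rw [e1, map_C, map_C, e2, e0, ← IsScalarTower.algebraMap_apply]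
  | add p q hp hq => rw [map_add, map_add, hp, hq, map_add, map_add, map_add]
  | mul_X p m hp =>
    have e1 : evG ℂ (base ℂ n N) T (X m) = genG (base ℂ n N) T m := aeval_X _ m
    have e3 : evT (RatFunc ℂ) n T (X m) = Pool.Agent.H626R2.Loc.gen (RatFunc ℂ) n T m := aeval_X _ m
    have h1 : map (algebraMap (Polynomial ℂ) (RatFunc ℂ)) (evG ℂ (base ℂ n N) T (X m)) =
        evT (RatFunc ℂ) n T (tsl (bpt n N) (map (algebraMap ℂ (RatFunc ℂ)) (X m))) := by
      rw [map_X, tsl_X, e1, map_add, e0, e3]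
      unfold genG Pool.Agent.H626R2.Loc.gen
      rw [map_add, map_C, map_sum, add_comm]
      congr 1
      apply Finset.sum_congr rfl
      intro l _
      rw [map_mul, map_X, map_prod]
      congr 1
      apply Finset.prod_congr rfl
      intro j _
      rw [map_sub, map_X, map_C, map_natCast]
    rw [map_mul, map_mul, map_mul, map_mul, map_mul, hp, h1]

theorem mem_bVan {n N T : ℕ} {h : MvPolynomial (Fin n) ℂ}
    (h0 : evG ℂ (base ℂ n N) T h = 0) :
    map (algebraMap ℂ (RatFunc ℂ)) h ∈ (bVan n N).I T ∅ := by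
  refine (mem_shVan _ (natInj n) (bpt n N) T _).2 ?_
  have h1 := map_evG (N := N) (T := T) h
  rw [h0, map_zero] at h1
  by_contra hc
  exact (evT_ne_iff n T _).2 hc h1.symm

end base

section lin

variable {F G : Type} [Field F] [Field G] [Algebra F G] {n u : ℕ}

theorem lin_map (c₀ : Fin u → F) (M : ℕ → Matrix (Fin u) (Fin u) (MvPolynomial (Fin n) F))
    (b : ℕ) (p : Fin u) : map (algebraMap F G) (lin (fun i => C (c₀ i)) M b p) =
      lin (fun i => C (algebraMap F G (c₀ i)))
        (fun t => (M t).map (map (algebraMap F G))) b p := by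
  induction b generalizing p with
  | zero =>
    show map _ (C _) = C _
    rw [map_C]
  | succ b ih =>
    rw [lin_succ, lin_succ, map_sum]
    apply Finset.sum_congr rfl
    intro i _
    rw [map_mul, ih, Matrix.map_apply]

end lin

section narrow

theorem narrow_hit (b r : ℕ) : ∃ A m : ℕ, ∀ n s N : ℕ, (s + 2) ^ A ≤ N →
    ∀ (R : ℕ) (M : Matrix (Fin R) (Fin R) (MvPolynomial (Fin n) ℂ)),
    (∀ i, (colW M i).card ≤ b) →
    (∀ x, (open Classical in Finset.univ.filter fun a : Fin R =>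
      ∃ c, x ∈ (M a c).vars).card ≤ r) →
    (∀ a c, (M a c).support.card ≤ s + 2) → M.det ≠ 0 → evG ℂ (base ℂ n N) m M.det ≠ 0 := by
  classical
  by_contra hcon
  push Not at hcon
  choose n_ s_ N_ hN R_ M_ hM1 hM2 hM3 hM4 hM5 using fun k => hcon k k
  have hV : ∀ k, ∀ h : MvPolynomial (Fin (n_ k)) ℂ, h ≠ 0 → h.support.card ≤ (s_ k + 2) ^ k →
      ∀ Y, map (algebraMap ℂ (RatFunc ℂ)) h ∉ (bVan (n_ k) (N_ k)).I 0 Y :=
    fun k h h0 hs Y => bVan_hit h0 (hs.trans (hN k)) Y
  set 𝔎 : Fam (RatFunc ℂ) := seqFam n_ (fun k => s_ k + 2) (fun k => Nat.le_add_left _ _)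
    (fun k => bVan (n_ k) (N_ k)) hV with h𝔎
  have hmem : ∀ k, map (algebraMap ℂ (RatFunc ℂ)) (M_ k).det ∈
      𝔎.next.K k (n_ k) (1 + 2 ^ (b + 1) * 2 ^ (b + 1) + r) := by
    intro k
    obtain ⟨c₀, P, hP, p, hp⟩ := det_prog (b := b) (M_ k) (hM1 k)
    have hPK : ∀ t i j, (P t).map (map (algebraMap ℂ (RatFunc ℂ))) i j ∈ 𝔎.K k (n_ k) 1 := by
      intro t i j
      rw [Matrix.map_apply]
      refine ⟨Unit, inferInstance, fun _ => P t i j, by simp, fun _ => ?_,
        Algebra.subset_adjoin ⟨(), rfl⟩⟩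
      rw [pow_one]
      rcases hP t i j with h | ⟨ht, c, z, h⟩
      · rw [h, support_zero, Finset.card_empty]
        exact Nat.zero_le _
      · rw [h]
        have hz : (z : MvPolynomial (Fin (n_ k)) ℂ) * M_ k ⟨t, ht⟩ c =
            (z : ℂ) • M_ k ⟨t, ht⟩ c := by
          rw [MvPolynomial.smul_eq_C_mul, map_intCast]
        rw [hz]
        exact (Finset.card_le_card support_smul).trans (hM3 k _ _)
    rw [← hp, lin_map]
    refine lin_out (κ := r) (c₀ := fun p => C (algebraMap ℂ (RatFunc ℂ) (c₀ p)))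
      (fun i => ⟨_, rfl⟩) hPK (R_ k) ?_ (by omega) (by omega) (by omega)
      (Algebra.subset_adjoin ⟨p, rfl⟩)
    intro x
    refine le_trans ?_ (hM2 k x)
    refine (Finset.card_le_card (t := (Finset.univ.filter fun a : Fin (R_ k) =>
      ∃ c, x ∈ (M_ k a c).vars).image (fun a : Fin (R_ k) => (a : ℕ))) ?_).trans
      Finset.card_image_le
    intro t ht
    rw [Finset.mem_filter, Finset.mem_range] at ht
    obtain ⟨htN, hx⟩ := ht
    obtain ⟨p', q', hx⟩ := mem_mv.1 hx
    rw [Matrix.map_apply] at hx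
    have hx' : x ∈ (P t p' q').vars := by
      rw [mem_vars_iff_mem_support] at hx ⊢
      obtain ⟨e, he, hxe⟩ := hx
      exact ⟨e, support_map_subset _ _ he, hxe⟩
    rcases hP t p' q' with h | ⟨ht', j, z, h⟩
    · rw [h, vars_0] at hx'
      exact absurd hx' (Finset.notMem_empty _)
    · have hz : (z : MvPolynomial (Fin (n_ k)) ℂ) * M_ k ⟨t, ht'⟩ j =
          (z : ℂ) • M_ k ⟨t, ht'⟩ j := by
        rw [MvPolynomial.smul_eq_C_mul, map_intCast]
      rw [h, hz] at hx'
      refine Finset.mem_image.2 ⟨⟨t, ht'⟩, Finset.mem_filter.2 ⟨Finset.mem_univ _, j, ?_⟩, rfl⟩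
      rw [mem_vars_iff_mem_support] at hx' ⊢
      obtain ⟨e, he, hxe⟩ := hx'
      exact ⟨e, support_smul he, hxe⟩
  obtain ⟨m₀, hm₀⟩ := 𝔎.next.seeds (1 + 2 ^ (b + 1) * 2 ^ (b + 1) + r)
  have h1 := hm₀ m₀ (n_ m₀) (bVan (n_ m₀) (N_ m₀)) rfl _ (hmem m₀) ∅ (mem_bVan (hM5 m₀))
  apply hM4 m₀
  exact (map_injective _ (algebraMap ℂ (RatFunc ℂ)).injective) (by rw [h1, map_zero])

end narrow

end Pool.Agent.H530R2
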