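import Mathlib
import Pool.Agent.H530R2.Ext

/-!
Formulas are not killed by a generator with few seeds.
-/

namespace Pool.Agent.H530R2

open MvPolynomial

section

variable {F : Type*} [Field F] {n : ℕ}

/-- `f` is computed by a formula in which variable `i` occurs `w i` times -/
inductive Fm : (Fin n → ℕ) → MvPolynomial (Fin n) F → Prop
  | var (i : Fin n) : Fm (Pi.single i 1) (X i)
  | const (c : F) : Fm 0 (C c)
  | add {w w' : Fin n → ℕ} {f g : MvPolynomial (Fin n) F} : Fm w f → Fm w' g → Fm (w + w') (f + g)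
  | mul {w w' : Fin n → ℕ} {f g : MvPolynomial (Fin n) F} : Fm w f → Fm w' g → Fm (w + w') (f * g)

theorem Fm.supp {w : Fin n → ℕ} {f : MvPolynomial (Fin n) F} (h : Fm w f) :
    f ∈ supported F {i | w i ≠ 0} := by
  induction h with
  | var i => exact X_mem_supported.2 (by simp)
  | const c => exact Subalgebra.algebraMap_mem _ c
  | @add w w' f g _ _ hf hg =>
    have h1 : ({i | w i ≠ 0} : Set (Fin n)) ⊆ {i | (w + w') i ≠ 0} := by
      intro i hi
      simp only [Set.mem_ofPred_eq, Pi.add_apply] at hi ⊢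
      omega
    have h2 : ({i | w' i ≠ 0} : Set (Fin n)) ⊆ {i | (w + w') i ≠ 0} := by
      intro i hi
      simp only [Set.mem_ofPred_eq, Pi.add_apply] at hi ⊢
      omega
    exact Subalgebra.add_mem _ (supported_mono h1 hf) (supported_mono h2 hg)
  | @mul w w' f g _ _ hf hg =>
    have h1 : ({i | w i ≠ 0} : Set (Fin n)) ⊆ {i | (w + w') i ≠ 0} := by
      intro i hi
      simp only [Set.mem_ofPred_eq, Pi.add_apply] at hi ⊢
      omega
    have h2 : ({i | w' i ≠ 0} : Set (Fin n)) ⊆ {i | (w + w') i ≠ 0} := by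
      intro i hi
      simp only [Set.mem_ofPred_eq, Pi.add_apply] at hi ⊢
      omega
    exact Subalgebra.mul_mem _ (supported_mono h1 hf) (supported_mono h2 hg)

theorem Fm.totalDegree_le {w : Fin n → ℕ} {f : MvPolynomial (Fin n) F} (h : Fm w f) :
    f.totalDegree ≤ ∑ i, w i := by
  induction h with
  | var i => simp [totalDegree_X, Finset.sum_pi_single']
  | const c => simp
  | add _ _ hf hg =>
    refine (totalDegree_add _ _).trans ?_
    simp only [Pi.add_apply, Finset.sum_add_distrib]
    omega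
  | mul _ _ hf hg =>
    refine (totalDegree_mul _ _).trans ?_
    simp only [Pi.add_apply, Finset.sum_add_distrib]
    omega

/-- compressed form with respect to the variables of `V`, with `4 r - 2` parameters -/
def Cmp (V : Finset (Fin n)) (r : ℕ) (f : MvPolynomial (Fin n) F) : Prop :=
  (f ∈ supported F ((V : Set (Fin n))ᶜ)) ∨
  (1 ≤ r ∧ ∃ (Φ : Finset (MvPolynomial (Fin n) F)) (α β g : MvPolynomial (Fin n) F),
    Φ.card + 4 ≤ 4 * r ∧ (∀ φ ∈ Φ, φ ∈ supported F ((V : Set (Fin n))ᶜ)) ∧
    α ∈ supported F ((V : Set (Fin n))ᶜ) ∧ β ∈ supported F ((V : Set (Fin n))ᶜ) ∧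
    g ∈ Algebra.adjoin F ((Φ : Set (MvPolynomial (Fin n) F)) ∪ X '' (V : Set (Fin n))) ∧
    f = α * g + β)

theorem Cmp.mono {V : Finset (Fin n)} {r r' : ℕ} {f : MvPolynomial (Fin n) F} (h : Cmp V r f)
    (hr : r ≤ r') : Cmp V r' f := by
  rcases h with h | ⟨h1, Φ, α, β, g, h2, h3⟩
  · exact Or.inl h
  · exact Or.inr ⟨by omega, Φ, α, β, g, by omega, h3⟩

theorem Cmp.join {V : Finset (Fin n)} {r r' : ℕ} {f f' : MvPolynomial (Fin n) F} (h : Cmp V r f)
    (h' : Cmp V r' f') :
    Cmp V (r + r') (f + f') ∧ Cmp V (r + r') (f * f') := by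
  classical
  rcases h with h | ⟨h1, Φ, α, β, g, h2, h3, h4, h5, h6, rfl⟩
  · rcases h' with h' | ⟨h1', Φ', α', β', g', h2', h3', h4', h5', h6', rfl⟩
    · exact ⟨Or.inl (Subalgebra.add_mem _ h h'), Or.inl (Subalgebra.mul_mem _ h h')⟩
    · constructor
      · exact Or.inr ⟨by omega, Φ', α', f + β', g', by omega, h3', h4',
          Subalgebra.add_mem _ h h5', h6', by ring⟩
      · exact Or.inr ⟨by omega, Φ', f * α', f * β', g', by omega, h3',
          Subalgebra.mul_mem _ h h4', Subalgebra.mul_mem _ h h5', h6', by ring⟩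
  · rcases h' with h' | ⟨h1', Φ', α', β', g', h2', h3', h4', h5', h6', rfl⟩
    · constructor
      · exact Or.inr ⟨by omega, Φ, α, f' + β, g, by omega, h3, h4,
          Subalgebra.add_mem _ h' h5, h6, by ring⟩
      · exact Or.inr ⟨by omega, Φ, f' * α, f' * β, g, by omega, h3,
          Subalgebra.mul_mem _ h' h4, Subalgebra.mul_mem _ h' h5, h6, by ring⟩
    · set Ψ : Finset (MvPolynomial (Fin n) F) := Φ ∪ Φ' ∪ {α, β, α', β'} with hΨ
      have hc1 : ({α, β, α', β'} : Finset (MvPolynomial (Fin n) F)).card ≤ 4 :=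
        Finset.card_le_four
      have hc : Ψ.card + 4 ≤ 4 * (r + r') := by
        have e1 := Finset.card_union_le (Φ ∪ Φ') {α, β, α', β'}
        have e2 := Finset.card_union_le Φ Φ'
        rw [← hΨ] at e1
        omega
      have hsup : ∀ φ ∈ Ψ, φ ∈ supported F ((V : Set (Fin n))ᶜ) := by
        intro φ hφ
        rw [hΨ, Finset.mem_union, Finset.mem_union] at hφ
        rcases hφ with (hφ | hφ) | hφ
        · exact h3 φ hφ
        · exact h3' φ hφ
        · simp only [Finset.mem_insert, Finset.mem_singleton] at hφ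
          rcases hφ with rfl | rfl | rfl | rfl
          · exact h4
          · exact h5
          · exact h4'
          · exact h5'
      have hsubs : ∀ φ ∈ Ψ, φ ∈ Algebra.adjoin F
          ((Ψ : Set (MvPolynomial (Fin n) F)) ∪ X '' (V : Set (Fin n))) :=
        fun φ hφ => Algebra.subset_adjoin (Or.inl (by exact_mod_cast hφ))
      have hg : g ∈ Algebra.adjoin F
          ((Ψ : Set (MvPolynomial (Fin n) F)) ∪ X '' (V : Set (Fin n))) := by
        refine Algebra.adjoin_mono (Set.union_subset_union_left _ ?_) h6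
        intro φ hφ
        simp only [hΨ, Finset.coe_union, Set.mem_union]
        exact Or.inl (Or.inl hφ)
      have hg' : g' ∈ Algebra.adjoin F
          ((Ψ : Set (MvPolynomial (Fin n) F)) ∪ X '' (V : Set (Fin n))) := by
        refine Algebra.adjoin_mono (Set.union_subset_union_left _ ?_) h6'
        intro φ hφ
        simp only [hΨ, Finset.coe_union, Set.mem_union]
        exact Or.inl (Or.inr hφ)
      have hα := hsubs α (by simp [hΨ])
      have hβ := hsubs β (by simp [hΨ])
      have hα' := hsubs α' (by simp [hΨ])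
      have hβ' := hsubs β' (by simp [hΨ])
      have e1 : α * g + β ∈ Algebra.adjoin F
          ((Ψ : Set (MvPolynomial (Fin n) F)) ∪ X '' (V : Set (Fin n))) :=
        Subalgebra.add_mem _ (Subalgebra.mul_mem _ hα hg) hβ
      have e2 : α' * g' + β' ∈ Algebra.adjoin F
          ((Ψ : Set (MvPolynomial (Fin n) F)) ∪ X '' (V : Set (Fin n))) :=
        Subalgebra.add_mem _ (Subalgebra.mul_mem _ hα' hg') hβ'
      constructor
      · exact Or.inr ⟨by omega, Ψ, 1, 0, _, hc, hsup, Subalgebra.one_mem _,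
          Subalgebra.zero_mem _, Subalgebra.add_mem _ e1 e2, by ring⟩
      · exact Or.inr ⟨by omega, Ψ, 1, 0, _, hc, hsup, Subalgebra.one_mem _,
          Subalgebra.zero_mem _, Subalgebra.mul_mem _ e1 e2, by ring⟩

theorem Fm.cmp {w : Fin n → ℕ} {f : MvPolynomial (Fin n) F} (h : Fm w f) (V : Finset (Fin n)) :
    Cmp V (∑ i ∈ V, w i) f := by
  classical
  induction h with
  | var i =>
    by_cases hi : i ∈ V
    · refine Or.inr ⟨?_, ∅, 1, 0, X i, ?_, by simp, Subalgebra.one_mem _,
        Subalgebra.zero_mem _, Algebra.subset_adjoin (Or.inr ⟨i, by exact_mod_cast hi, rfl⟩),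
        by ring⟩
      · rw [Finset.sum_pi_single', if_pos hi]
      · rw [Finset.sum_pi_single', if_pos hi]; simp
    · exact Or.inl (X_mem_supported.2 (by simpa using hi))
  | const c => exact Or.inl (Subalgebra.algebraMap_mem _ c)
  | add _ _ hf hg =>
    simp only [Pi.add_apply, Finset.sum_add_distrib]
    exact (hf.join hg).1
  | mul _ _ hf hg =>
    simp only [Pi.add_apply, Finset.sum_add_distrib]
    exact (hf.join hg).2

theorem Cmp.params {V : Finset (Fin n)} {r : ℕ} {f : MvPolynomial (Fin n) F} (h : Cmp V r f) :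
    ∃ Φ : Finset (MvPolynomial (Fin n) F), Φ.card ≤ 4 * r + 1 ∧
      (∀ φ ∈ Φ, φ ∈ supported F ((V : Set (Fin n))ᶜ)) ∧
      f ∈ Algebra.adjoin F ((Φ : Set (MvPolynomial (Fin n) F)) ∪ X '' (V : Set (Fin n))) := by
  classical
  rcases h with h | ⟨h1, Φ, α, β, g, h2, h3, h4, h5, h6, rfl⟩
  · exact ⟨{f}, by simp, by simpa using h, Algebra.subset_adjoin (Or.inl (by simp))⟩
  · refine ⟨Φ ∪ {α, β}, ?_, ?_, ?_⟩
    · have := Finset.card_union_le Φ {α, β}
      have : ({α, β} : Finset (MvPolynomial (Fin n) F)).card ≤ 2 := Finset.card_le_two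
      omega
    · intro φ hφ
      rw [Finset.mem_union] at hφ
      rcases hφ with hφ | hφ
      · exact h3 φ hφ
      · simp only [Finset.mem_insert, Finset.mem_singleton] at hφ
        rcases hφ with rfl | rfl
        · exact h4
        · exact h5
    · refine Subalgebra.add_mem _ (Subalgebra.mul_mem _ ?_ ?_) ?_
      · exact Algebra.subset_adjoin (Or.inl (by simp))
      · refine Algebra.adjoin_mono (Set.union_subset_union_left _ ?_) h6
        intro φ hφ
        simp only [Finset.coe_union, Set.mem_union]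
        exact Or.inl hφ
      · exact Algebra.subset_adjoin (Or.inl (by simp))

end

section hybrid

variable {F : Type*} [Field F] {n ℓ t : ℕ}

/-- the blocks with index less than `m` are replaced by generated values -/
noncomputable def hybv (F : Type*) [Field F] {n : ℕ} (ℓ : ℕ) {t : ℕ} (H : Finset (Fin n))
    (bl : Fin n → Fin t) (m : ℕ) (i : Fin n) :
    MvPolynomial (Fin n ⊕ (Fin ℓ ⊕ Fin t)) F :=
  if i ∈ H ∨ m ≤ (bl i).val then X (Sum.inl i) else
    ∑ k : Fin ℓ, X (Sum.inr (Sum.inl k)) *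
      X (Sum.inr (Sum.inr (bl i))) ^ (((i : ℕ) + 1) * (k : ℕ))

theorem hyb_step [CharZero F] {w : Fin n → ℕ} {f : MvPolynomial (Fin n) F} (h : Fm w f)
    (H : Finset (Fin n)) (bl : Fin n → Fin t) (r : ℕ)
    (hcap : ∀ c : Fin t, ∑ i ∈ Finset.univ.filter (fun i => i ∉ H ∧ bl i = c), w i ≤ r)
    (hℓ : 5 * r + 1 ≤ ℓ) (m : ℕ) (hne : aeval (hybv F ℓ H bl m) f ≠ 0) :
    aeval (hybv F ℓ H bl (m + 1)) f ≠ 0 := by
  classical
  by_cases hm : m < t
  swap
  · have h1 : hybv F ℓ H bl (m + 1) = hybv F ℓ H bl m := by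
      funext i
      have h2 : ¬ m ≤ (bl i).val := by have := (bl i).isLt; omega
      have h3 : ¬ (m + 1) ≤ (bl i).val := by omega
      simp only [hybv, h2, h3]
    rwa [h1]
  set c : Fin t := ⟨m, hm⟩ with hc
  set V : Finset (Fin n) := Finset.univ.filter (fun i => (i ∉ H ∧ bl i = c) ∧ w i ≠ 0) with hV
  have hVw : ∑ i ∈ V, w i ≤ r := by
    refine le_trans ?_ (hcap c)
    apply Finset.sum_le_sum_of_subset
    intro i hi
    rw [hV, Finset.mem_filter] at hi
    rw [Finset.mem_filter]
    exact ⟨hi.1, hi.2.1⟩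
  have hVcard : V.card ≤ ∑ i ∈ V, w i := by
    rw [Finset.card_eq_sum_ones]
    apply Finset.sum_le_sum
    intro i hi
    rw [hV, Finset.mem_filter] at hi
    have := hi.2.2
    omega
  obtain ⟨Φ, hΦc, hΦs, hΦf⟩ := (h.cmp V).params
  set s : Fin n → MvPolynomial (Fin n ⊕ (Fin ℓ ⊕ Fin t)) F := hybv F ℓ H bl m with hs
  set ρ : MvPolynomial (Fin n) F →ₐ[F]
      MvPolynomial (Fin n) (MvPolynomial (Fin n ⊕ (Fin ℓ ⊕ Fin t)) F) :=
    aeval (fun j => if j ∈ V then X j else C (s j)) with hρ
  set θ : MvPolynomial (Fin n) F →ₐ[F] Polynomial (MvPolynomial (Fin n ⊕ (Fin ℓ ⊕ Fin t)) F) :=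
    aeval (fun j => if j ∈ V then ∑ k : Fin ℓ, Polynomial.C (X (Sum.inr (Sum.inl k))) *
      Polynomial.X ^ (((j : ℕ) + 1) * (k : ℕ)) else Polynomial.C (s j)) with hθ
  have hρf : ρ f ≠ 0 := by
    intro h0
    apply hne
    have h1 : ((aeval s : MvPolynomial (Fin n) (MvPolynomial (Fin n ⊕ (Fin ℓ ⊕ Fin t)) F) →ₐ[_]
        MvPolynomial (Fin n ⊕ (Fin ℓ ⊕ Fin t)) F).restrictScalars F).comp ρ = aeval s := by
      apply MvPolynomial.algHom_ext
      intro j
      rw [AlgHom.comp_apply, hρ, aeval_X, aeval_X, AlgHom.restrictScalars_apply]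
      split_ifs with hj
      · rw [aeval_X]
      · rw [aeval_C]; rfl
    rw [← h1, AlgHom.comp_apply, h0, map_zero]
  have key : θ f ≠ 0 := by
    refine extraction (S := MvPolynomial (Fin n ⊕ (Fin ℓ ⊕ Fin t)) F)
      (fun k => pderiv (Sum.inr (Sum.inl k))) (fun k => X (Sum.inr (Sum.inl k))) ?_ s V
      (fun φ : Φ => (φ : MvPolynomial (Fin n) F)) (fun φ => hΦs φ φ.2) f ?_ ?_ ρ ?_ ?_ hρf θ ?_ ?_
    · intro k k'
      by_cases hk : k = k'
      · subst hk
        simp
      · rw [if_neg hk, pderiv_X_of_ne]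
        intro hc
        exact hk (by simpa using hc.symm)
    · have : Set.range (fun φ : Φ => (φ : MvPolynomial (Fin n) F)) =
          (Φ : Set (MvPolynomial (Fin n) F)) := by
        ext x; simp
      rw [this]
      exact hΦf
    · rw [Fintype.card_coe]
      omega
    · intro j hj
      rw [hρ, aeval_X, if_pos hj]
    · intro j hj
      rw [hρ, aeval_X, if_neg hj]
    · intro j hj
      rw [hθ, aeval_X, if_pos hj]
    · intro j hj
      rw [hθ, aeval_X, if_neg hj]
  intro h0
  apply key
  set ψ : MvPolynomial (Fin n ⊕ (Fin ℓ ⊕ Fin t)) F →ₐ[F]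
      Polynomial (MvPolynomial (Fin n ⊕ (Fin ℓ ⊕ Fin t)) F) :=
    aeval (fun x => if x = Sum.inr (Sum.inr c) then Polynomial.X else Polynomial.C (X x)) with hψ
  have hψ1 : ∀ x, x ≠ Sum.inr (Sum.inr c) → ψ (X x) = Polynomial.C (X x) := by
    intro x hx
    rw [hψ, aeval_X, if_neg hx]
  have hψ2 : ψ (X (Sum.inr (Sum.inr c))) = Polynomial.X := by
    rw [hψ, aeval_X, if_pos rfl]
  have hagree : ∀ g ∈ supported F {i | w i ≠ 0}, θ g = ψ (aeval (hybv F ℓ H bl (m + 1)) g) := by
    intro g hg
    have hg' : g ∈ Algebra.adjoin F (X '' {i | w i ≠ 0} : Set (MvPolynomial (Fin n) F)) := hg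
    clear hg
    induction hg' using Algebra.adjoin_induction with
    | mem x hx =>
      obtain ⟨j, hj, rfl⟩ := hx
      have e1 : aeval (hybv F ℓ H bl (m + 1)) (X j : MvPolynomial (Fin n) F) =
        hybv F ℓ H bl (m + 1) j := aeval_X _ _
      have e2 : θ (X j) = if j ∈ V then ∑ k : Fin ℓ, Polynomial.C (X (Sum.inr (Sum.inl k))) *
        Polynomial.X ^ (((j : ℕ) + 1) * (k : ℕ)) else Polynomial.C (s j) := by
        rw [hθ, aeval_X]
      rw [e1, e2]
      by_cases hjV : j ∈ V
      · rw [if_pos hjV]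
        rw [hV, Finset.mem_filter] at hjV
        obtain ⟨_, ⟨hjH, hjc⟩, _⟩ := hjV
        have h2 : ¬ (j ∈ H ∨ m + 1 ≤ (bl j).val) := by
          rintro (h | h)
          · exact hjH h
          · rw [hjc] at h
            simp [hc] at h
        unfold hybv
        rw [if_neg h2, map_sum, hjc]
        apply Finset.sum_congr rfl
        intro k _
        rw [map_mul, map_pow, hψ2, hψ1 _ (by simp)]
      · rw [if_neg hjV]
        have hjV' : j ∈ H ∨ bl j ≠ c := by
          by_contra hcon
          push Not at hcon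
          apply hjV
          rw [hV, Finset.mem_filter]
          exact ⟨Finset.mem_univ _, hcon, hj⟩
        by_cases h2 : j ∈ H ∨ m ≤ (bl j).val
        · have h3 : j ∈ H ∨ m + 1 ≤ (bl j).val := by
            rcases hjV' with h | h
            · exact Or.inl h
            · rcases h2 with h2 | h2
              · exact Or.inl h2
              · right
                have : (bl j).val ≠ m := fun he => h (Fin.ext he)
                omega
          rw [hs]
          unfold hybv
          rw [if_pos h2, if_pos h3, hψ1 _ (by simp)]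
        · have h3 : ¬ (j ∈ H ∨ m + 1 ≤ (bl j).val) := by
            push Not at h2 ⊢
            exact ⟨h2.1, by omega⟩
          rw [hs]
          unfold hybv
          rw [if_neg h2, if_neg h3]
          rw [map_sum, map_sum]
          apply Finset.sum_congr rfl
          intro k _
          have h4 : bl j ≠ c := by
            push Not at h2
            intro he
            rw [he] at h2
            simp [hc] at h2
          rw [map_mul, map_pow, map_mul, map_pow, hψ1 _ (by simp), hψ1 _ (by simpa using h4)]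
    | algebraMap r => rw [AlgHom.commutes, AlgHom.commutes, AlgHom.commutes]
    | add x y _ _ hx hy => rw [map_add, map_add, map_add, hx, hy]
    | mul x y _ _ hx hy => rw [map_mul, map_mul, map_mul, hx, hy]
  rw [hagree f h.supp, h0, map_zero]

theorem hyb_final [CharZero F] {w : Fin n → ℕ} {f : MvPolynomial (Fin n) F} (h : Fm w f)
    (H : Finset (Fin n)) (bl : Fin n → Fin t) (r : ℕ)
    (hcap : ∀ c : Fin t, ∑ i ∈ Finset.univ.filter (fun i => i ∉ H ∧ bl i = c), w i ≤ r)
    (hℓ : 5 * r + 1 ≤ ℓ) (hf : f ≠ 0) : aeval (hybv F ℓ H bl t) f ≠ 0 := by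
  have key : ∀ m : ℕ, aeval (hybv F ℓ H bl m) f ≠ 0 := by
    intro m
    induction m with
    | zero =>
      intro h0
      apply hf
      have h1 : hybv F ℓ H bl 0 = fun i => X (Sum.inl i) := by
        funext i
        simp [hybv]
      rw [h1] at h0
      have h2 : (aeval (Sum.elim X (fun _ => 0)) :
          MvPolynomial (Fin n ⊕ (Fin ℓ ⊕ Fin t)) F →ₐ[F] MvPolynomial (Fin n) F).comp
          (aeval fun i => (X (Sum.inl i) : MvPolynomial (Fin n ⊕ (Fin ℓ ⊕ Fin t)) F)) =
          AlgHom.id F _ := by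
        apply MvPolynomial.algHom_ext
        intro j
        simp
      have h3 := congrArg (fun χ => χ f) h2
      simp only [AlgHom.comp_apply, AlgHom.id_apply] at h3
      rw [← h3, h0, map_zero]
    | succ m ih => exact hyb_step h H bl r hcap hℓ m ih
  exact key t

end hybrid

end Pool.Agent.H530R2
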