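import Mathlib
import Pool.Agent.H530R2.Hit
import Pool.Agent.H530R2.Sub

/-!
Good plans and integer points for formulas.
-/

namespace Pool.Agent.H530R2

open MvPolynomial

/-- a monotone partition into blocks of small weight, after removing the heavy variables -/
theorem exists_plan {n : ℕ} (w : Fin n → ℕ) (s r : ℕ) (hs : ∑ i, w i ≤ s) (hr : 1 ≤ r) :
    ∃ (H : Finset (Fin n)) (bl : Fin n → Fin (s / r + 1)), H.card ≤ s / r ∧ Monotone bl ∧
      ∀ c, ∑ i ∈ Finset.univ.filter (fun i => i ∉ H ∧ bl i = c), w i ≤ 2 * (r - 1) := by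
  classical
  set H : Finset (Fin n) := Finset.univ.filter (fun i => r ≤ w i) with hH
  have hHc : H.card ≤ s / r := by
    rw [Nat.le_div_iff_mul_le (by omega)]
    calc H.card * r = ∑ i ∈ H, r := by rw [Finset.sum_const, smul_eq_mul]
      _ ≤ ∑ i ∈ H, w i := Finset.sum_le_sum fun i hi => (Finset.mem_filter.1 hi).2
      _ ≤ ∑ i, w i := Finset.sum_le_sum_of_subset (Finset.subset_univ _)
      _ ≤ s := hs
  set w' : Fin n → ℕ := fun i => if r ≤ w i then 0 else w i with hw'
  have hw'le : ∀ i, w' i ≤ w i := by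
    intro i; simp only [hw']; split_ifs <;> omega
  have hw'r : ∀ i, w' i ≤ r - 1 := by
    intro i; simp only [hw']; split_ifs <;> omega
  set W : Fin n → ℕ := fun i => ∑ j ∈ Finset.univ.filter (fun j => j < i), w' j with hW
  have hWs : ∀ i, W i ≤ s := by
    intro i
    refine le_trans ?_ hs
    refine (Finset.sum_le_sum fun j _ => hw'le j).trans ?_
    exact Finset.sum_le_sum_of_subset (Finset.subset_univ _)
  have hWm : Monotone W := by
    intro i j hij
    apply Finset.sum_le_sum_of_subset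
    intro k hk
    rw [Finset.mem_filter] at hk ⊢
    exact ⟨hk.1, lt_of_lt_of_le hk.2 hij⟩
  refine ⟨H, fun i => ⟨W i / r, Nat.lt_succ_of_le (Nat.div_le_div_right (hWs i))⟩, hHc, ?_, ?_⟩
  · intro i j hij
    exact Nat.div_le_div_right (hWm hij)
  · intro c
    set T := Finset.univ.filter (fun i => i ∉ H ∧
      (⟨W i / r, Nat.lt_succ_of_le (Nat.div_le_div_right (hWs i))⟩ : Fin (s / r + 1)) = c) with hT
    have hTw : ∑ i ∈ T, w i = ∑ i ∈ T, w' i := by
      apply Finset.sum_congr rfl
      intro i hi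
      rw [hT, Finset.mem_filter] at hi
      have h1 : ¬ r ≤ w i := fun h => hi.2.1 (by rw [hH, Finset.mem_filter]; exact ⟨Finset.mem_univ _, h⟩)
      simp only [hw', if_neg h1]
    have hTc : ∀ i ∈ T, W i / r = c.val := by
      intro i hi
      rw [hT, Finset.mem_filter] at hi
      exact congrArg Fin.val hi.2.2
    rw [hTw]
    by_cases hne : T.Nonempty
    · obtain ⟨a, ha, hamin⟩ := Finset.exists_min_image T id hne
      obtain ⟨z, hz, hzmax⟩ := Finset.exists_max_image T id hne
      have h1 : T.erase z ⊆ (Finset.univ.filter (fun j => j < z)) \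
          (Finset.univ.filter (fun j => j < a)) := by
        intro i hi
        rw [Finset.mem_erase] at hi
        rw [Finset.mem_sdiff, Finset.mem_filter, Finset.mem_filter]
        refine ⟨⟨Finset.mem_univ _, lt_of_le_of_ne (hzmax i hi.2) hi.1⟩, ?_⟩
        rintro ⟨_, h⟩
        exact absurd h (not_lt.2 (hamin i hi.2))
      have haz : a ≤ z := hamin z hz
      have h2 : ∑ i ∈ (Finset.univ.filter (fun j => j < z)) \
          (Finset.univ.filter (fun j => j < a)), w' i + W a = W z := by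
        apply Finset.sum_sdiff
        intro k hk
        rw [Finset.mem_filter] at hk ⊢
        exact ⟨hk.1, lt_of_lt_of_le hk.2 haz⟩
      have h3 : ∑ i ∈ T, w' i = ∑ i ∈ T.erase z, w' i + w' z :=
        (Finset.sum_erase_add _ _ hz).symm
      have h4 : ∑ i ∈ T.erase z, w' i ≤ ∑ i ∈ (Finset.univ.filter (fun j => j < z)) \
          (Finset.univ.filter (fun j => j < a)), w' i := Finset.sum_le_sum_of_subset h1
      have h5 := hTc a ha
      have h6 := hTc z hz
      have h7 : c.val * r ≤ W a := by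
        rw [← h5]; exact Nat.div_mul_le_self _ _
      have h8 : W z < (c.val + 1) * r := by
        have e1 := Nat.div_add_mod (W z) r
        have e2 := Nat.mod_lt (W z) (show r > 0 by omega)
        rw [h6] at e1
        have e3 : (c.val + 1) * r = r * c.val + r := by ring
        omega
      have h9 := hw'r z
      have h10 : (c.val + 1) * r = c.val * r + r := by ring
      omega
    · rw [Finset.not_nonempty_iff_eq_empty] at hne
      rw [hne]
      simp

/-- breakpoints of a monotone function -/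
theorem exists_breaks {n t : ℕ} (bl : Fin n → Fin (t + 1)) (hbl : Monotone bl) :
    ∃ β : Fin t → Fin (n + 1), ∀ i : Fin n,
      (Finset.univ.filter fun l : Fin t => (β l : ℕ) ≤ i).card = (bl i : ℕ) := by
  classical
  have hcard : ∀ l : ℕ, (Finset.univ.filter fun i : Fin n => (bl i : ℕ) ≤ l).card < n + 1 := by
    intro l
    refine Nat.lt_succ_of_le ((Finset.card_le_univ _).trans ?_)
    simp
  refine ⟨fun l => ⟨_, hcard l⟩, fun i => ?_⟩
  have key : ∀ l : Fin t, ((Finset.univ.filter fun i : Fin n => (bl i : ℕ) ≤ l).card ≤ i) ↔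
      (l : ℕ) < bl i := by
    intro l
    constructor
    · intro h
      by_contra hcon
      push Not at hcon
      have h1 : (Finset.univ.filter fun j : Fin n => j ≤ i) ⊆
          Finset.univ.filter fun i : Fin n => (bl i : ℕ) ≤ l := by
        intro j hj
        rw [Finset.mem_filter] at hj ⊢
        refine ⟨hj.1, le_trans ?_ hcon⟩
        exact hbl hj.2
      have h2 := Finset.card_le_card h1
      have h3 : (Finset.univ.filter fun j : Fin n => j ≤ i).card = i + 1 := by
        have : (Finset.univ.filter fun j : Fin n => j ≤ i) = Finset.Iic i := by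
          ext; simp
        rw [this, Fin.card_Iic]
      omega
    · intro h
      have h1 : (Finset.univ.filter fun i : Fin n => (bl i : ℕ) ≤ l) ⊆
          (Finset.univ.filter fun j : Fin n => j < i) := by
        intro j hj
        rw [Finset.mem_filter] at hj ⊢
        refine ⟨hj.1, ?_⟩
        by_contra hcon
        have : bl i ≤ bl j := hbl (not_lt.1 hcon)
        have h2 : (bl i : ℕ) ≤ bl j := this
        omega
      have h2 := Finset.card_le_card h1
      have h3 : (Finset.univ.filter fun j : Fin n => j < i).card = i := by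
        have : (Finset.univ.filter fun j : Fin n => j < i) = Finset.Iio i := by
          ext; simp
        rw [this, Fin.card_Iio]
      omega
  have h4 : (Finset.univ.filter fun l : Fin t =>
      ((⟨_, hcard l⟩ : Fin (n + 1)) : ℕ) ≤ i) = Finset.univ.filter fun l : Fin t =>
        (l : ℕ) < bl i := by
    ext l
    rw [Finset.mem_filter, Finset.mem_filter, ← key l]
  rw [h4]
  have h5 : (bl i : ℕ) ≤ t := Nat.lt_succ_iff.1 (bl i).isLt
  have h6 : (Finset.univ.filter fun l : Fin t => (l : ℕ) < bl i).card = (bl i : ℕ) := by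
    rw [Fin.card_filter_val_lt]
    omega
  exact h6

/-- slots for a small set -/
theorem exists_slots {n h : ℕ} (H : Finset (Fin n)) (hH : H.card ≤ h) :
    ∃ p : Fin h → Fin (n + 1), (∀ i : Fin n, (∃ l, (p l : ℕ) = i) ↔ i ∈ H) ∧
      ∀ (i : Fin n) (l l' : Fin h), (p l : ℕ) = i → (p l' : ℕ) = i → l = l' := by
  classical
  obtain ⟨e⟩ : Nonempty (Fin H.card ≃ H) := ⟨(Finset.equivFin H).symm⟩
  obtain ⟨p, hp⟩ : ∃ p : Fin h → Fin (n + 1), ∀ l, p l = if hl : (l : ℕ) < H.card then
    ((e ⟨l, hl⟩ : Fin n)).castSucc else Fin.last n := ⟨_, fun _ => rfl⟩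
  have hp1 : ∀ (l : Fin h) (hl : (l : ℕ) < H.card), (p l : ℕ) = (e ⟨l, hl⟩ : Fin n) := by
    intro l hl
    rw [hp, dif_pos hl]
    rfl
  have hp2 : ∀ (l : Fin h), ¬ (l : ℕ) < H.card → (p l : ℕ) = n := by
    intro l hl
    rw [hp, dif_neg hl]
    rfl
  refine ⟨p, ?_, ?_⟩
  · intro i
    constructor
    · rintro ⟨l, hl⟩
      by_cases h1 : (l : ℕ) < H.card
      · rw [hp1 l h1] at hl
        have : (e ⟨l, h1⟩ : Fin n) = i := Fin.ext hl
        rw [← this]
        exact (e ⟨l, h1⟩).2
      · rw [hp2 l h1] at hl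
        have := i.isLt
        omega
    · intro hi
      refine ⟨⟨(e.symm ⟨i, hi⟩ : ℕ), lt_of_lt_of_le (e.symm ⟨i, hi⟩).isLt hH⟩, ?_⟩
      rw [hp1 _ (show ((e.symm ⟨i, hi⟩ : Fin H.card) : ℕ) < H.card from
        (e.symm ⟨i, hi⟩).isLt)]
      simp
  · intro i l l' hl hl'
    by_cases h1 : (l : ℕ) < H.card
    · by_cases h2 : (l' : ℕ) < H.card
      · rw [hp1 l h1] at hl
        rw [hp1 l' h2] at hl'
        have h3 : (e ⟨l, h1⟩ : Fin n) = e ⟨l', h2⟩ := Fin.ext (by rw [hl, hl'])
        have h4 := e.injective (Subtype.ext h3)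
        exact Fin.ext (by simpa using congrArg Fin.val h4)
      · rw [hp2 l' h2] at hl'
        have := i.isLt
        omega
    · rw [hp2 l h1] at hl
      have := i.isLt
      omega

section eval

variable {F : Type*} [Field F] [CharZero F] {n : ℕ}

omit [CharZero F] in
theorem hyb_degreeOf_inl {ℓ t : ℕ} (H : Finset (Fin n)) (bl : Fin n → Fin t) (m : ℕ) (j : Fin n)
    (f : MvPolynomial (Fin n) F) :
    (aeval (hybv F ℓ H bl m) f).degreeOf (Sum.inl j) ≤ f.totalDegree := by
  classical
  have := degreeOf_aeval_le (hybv F ℓ H bl m) (Sum.inl j) 1 ?_ f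
  · rwa [one_mul] at this
  · intro i
    unfold hybv
    split_ifs with h
    · rw [degreeOf_X]; split_ifs <;> simp
    · refine (degreeOf_sum_le _ _ _).trans (Finset.sup_le fun k _ => ?_)
      refine (degreeOf_mul_le _ _ _).trans ?_
      have h1 : (X (Sum.inr (Sum.inl k)) : MvPolynomial (Fin n ⊕ (Fin ℓ ⊕ Fin t)) F).degreeOf
          (Sum.inl j) = 0 := degreeOf_X_of_ne (by simp)
      have h2 := degreeOf_pow_le (R := F) (Sum.inl j : Fin n ⊕ (Fin ℓ ⊕ Fin t))
        (X (Sum.inr (Sum.inr (bl i)))) (((i : ℕ) + 1) * (k : ℕ))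
      rw [degreeOf_X_of_ne (by simp), mul_zero] at h2
      omega

omit [CharZero F] in
theorem hyb_degreeOf_y {ℓ t : ℕ} (H : Finset (Fin n)) (bl : Fin n → Fin t) (m : ℕ) (j : Fin ℓ)
    (f : MvPolynomial (Fin n) F) :
    (aeval (hybv F ℓ H bl m) f).degreeOf (Sum.inr (Sum.inl j)) ≤ f.totalDegree := by
  classical
  have := degreeOf_aeval_le (hybv F ℓ H bl m) (Sum.inr (Sum.inl j)) 1 ?_ f
  · rwa [one_mul] at this
  · intro i
    unfold hybv
    split_ifs with h
    · rw [degreeOf_X]; split_ifs <;> simp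
    · refine (degreeOf_sum_le _ _ _).trans (Finset.sup_le fun k _ => ?_)
      refine (degreeOf_mul_le _ _ _).trans ?_
      have h1 : (X (Sum.inr (Sum.inl k)) : MvPolynomial (Fin n ⊕ (Fin ℓ ⊕ Fin t)) F).degreeOf
          (Sum.inr (Sum.inl j)) ≤ 1 := by
        rw [degreeOf_X]; split_ifs <;> simp
      have h2 := degreeOf_pow_le (R := F) (Sum.inr (Sum.inl j) : Fin n ⊕ (Fin ℓ ⊕ Fin t))
        (X (Sum.inr (Sum.inr (bl i)))) (((i : ℕ) + 1) * (k : ℕ))
      rw [degreeOf_X_of_ne (by simp), mul_zero] at h2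
      omega

omit [CharZero F] in
theorem hyb_degreeOf_u {ℓ t : ℕ} (H : Finset (Fin n)) (bl : Fin n → Fin t) (m : ℕ) (j : Fin t)
    (f : MvPolynomial (Fin n) F) :
    (aeval (hybv F ℓ H bl m) f).degreeOf (Sum.inr (Sum.inr j)) ≤ n * ℓ * f.totalDegree := by
  classical
  refine degreeOf_aeval_le (hybv F ℓ H bl m) (Sum.inr (Sum.inr j)) (n * ℓ) ?_ f
  intro i
  unfold hybv
  split_ifs with h
  · rw [degreeOf_X_of_ne (by simp)]; exact Nat.zero_le _
  · refine (degreeOf_sum_le _ _ _).trans (Finset.sup_le fun k _ => ?_)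
    refine (degreeOf_mul_le _ _ _).trans ?_
    have h1 : (X (Sum.inr (Sum.inl k)) : MvPolynomial (Fin n ⊕ (Fin ℓ ⊕ Fin t)) F).degreeOf
        (Sum.inr (Sum.inr j)) = 0 := degreeOf_X_of_ne (by simp)
    have h2 := degreeOf_pow_le (R := F) (Sum.inr (Sum.inr j) : Fin n ⊕ (Fin ℓ ⊕ Fin t))
      (X (Sum.inr (Sum.inr (bl i)))) (((i : ℕ) + 1) * (k : ℕ))
    have h3 : (X (Sum.inr (Sum.inr (bl i))) : MvPolynomial (Fin n ⊕ (Fin ℓ ⊕ Fin t)) F).degreeOf
        (Sum.inr (Sum.inr j)) ≤ 1 := by
      rw [degreeOf_X]; split_ifs <;> simp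
    rw [h1, zero_add]
    refine h2.trans ?_
    calc ((i : ℕ) + 1) * (k : ℕ) * _ ≤ ((i : ℕ) + 1) * (k : ℕ) * 1 := Nat.mul_le_mul_left _ h3
      _ ≤ n * ℓ := by
        rw [mul_one]
        exact Nat.mul_le_mul i.isLt k.isLt.le

/-- nonvanishing at an integer point -/
theorem exists_seeds {w : Fin n → ℕ} {f : MvPolynomial (Fin n) F} (h : Fm w f) (s r : ℕ)
    (hs : ∑ i, w i ≤ s) (hr : 1 ≤ r) (hf : f ≠ 0) :
    ∃ (H : Finset (Fin n)) (bl : Fin n → Fin (s / r + 1)), H.card ≤ s / r ∧ Monotone bl ∧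
      ∃ (v : Fin n → ℕ) (y : Fin (10 * r) → ℕ) (u : Fin (s / r + 1) → ℕ),
        (∀ i, v i ≤ s) ∧ (∀ k, y k ≤ s) ∧ (∀ c, u c ≤ n * (10 * r) * s) ∧
        MvPolynomial.eval (fun i => if i ∈ H then (v i : F) else
          ∑ k : Fin (10 * r), (y k : F) * (u (bl i) : F) ^ (((i : ℕ) + 1) * (k : ℕ))) f ≠ 0 := by
  classical
  obtain ⟨H, bl, hH, hbl, hcap⟩ := exists_plan w s r hs hr
  refine ⟨H, bl, hH, hbl, ?_⟩
  have hne := hyb_final (ℓ := 10 * r) h H bl (2 * (r - 1)) hcap (by omega) hf
  by_contra hcon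
  push Not at hcon
  apply hne
  have hdeg := h.totalDegree_le.trans hs
  apply MvPolynomial.eq_zero_of_eval_zero_at_prod_finset _
    (Sum.elim (fun _ : Fin n => (Finset.range (s + 1)).image (fun k : ℕ => (k : F)))
      (Sum.elim (fun _ : Fin (10 * r) => (Finset.range (s + 1)).image (fun k : ℕ => (k : F)))
        (fun _ : Fin (s / r + 1) =>
          (Finset.range (n * (10 * r) * s + 1)).image (fun k : ℕ => (k : F)))))
  · rintro (l | l | l)
    · rw [Sum.elim_inl, Finset.card_image_of_injective _ Nat.cast_injective, Finset.card_range]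
      exact Nat.lt_succ_of_le ((hyb_degreeOf_inl H bl _ l f).trans hdeg)
    · rw [Sum.elim_inr, Sum.elim_inl, Finset.card_image_of_injective _ Nat.cast_injective,
        Finset.card_range]
      exact Nat.lt_succ_of_le ((hyb_degreeOf_y H bl _ l f).trans hdeg)
    · rw [Sum.elim_inr, Sum.elim_inr, Finset.card_image_of_injective _ Nat.cast_injective,
        Finset.card_range]
      exact Nat.lt_succ_of_le ((hyb_degreeOf_u H bl _ l f).trans (Nat.mul_le_mul_left _ hdeg))
  · intro x hx
    have hv : ∀ l : Fin n, ∃ k ∈ Finset.range (s + 1), ((k : ℕ) : F) = x (Sum.inl l) := by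
      intro l
      have := hx (Sum.inl l)
      rw [Sum.elim_inl, Finset.mem_image] at this
      exact this
    have hy : ∀ l : Fin (10 * r), ∃ k ∈ Finset.range (s + 1),
        ((k : ℕ) : F) = x (Sum.inr (Sum.inl l)) := by
      intro l
      have := hx (Sum.inr (Sum.inl l))
      rw [Sum.elim_inr, Sum.elim_inl, Finset.mem_image] at this
      exact this
    have hu : ∀ l : Fin (s / r + 1), ∃ k ∈ Finset.range (n * (10 * r) * s + 1),
        ((k : ℕ) : F) = x (Sum.inr (Sum.inr l)) := by
      intro l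
      have := hx (Sum.inr (Sum.inr l))
      rw [Sum.elim_inr, Sum.elim_inr, Finset.mem_image] at this
      exact this
    choose v hv1 hv2 using hv
    choose y hy1 hy2 using hy
    choose u hu1 hu2 using hu
    have h1 := hcon v y u (fun i => Nat.lt_succ_iff.1 (Finset.mem_range.1 (hv1 i)))
      (fun i => Nat.lt_succ_iff.1 (Finset.mem_range.1 (hy1 i)))
      (fun i => Nat.lt_succ_iff.1 (Finset.mem_range.1 (hu1 i)))
    rw [← h1, ← MvPolynomial.coe_aeval_eq_eval, RingHom.coe_coe, ← AlgHom.comp_apply,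
      MvPolynomial.comp_aeval, ← MvPolynomial.coe_aeval_eq_eval, RingHom.coe_coe]
    congr 2
    funext i
    have h2 : ¬ (s / r + 1 ≤ (bl i).val) := by
      have := (bl i).isLt
      omega
    unfold hybv
    by_cases hi : i ∈ H
    · rw [if_pos (Or.inl hi), if_pos hi, aeval_X, hv2]
    · rw [if_neg (by push Not; exact ⟨hi, (bl i).isLt⟩), if_neg hi, map_sum]
      apply Finset.sum_congr rfl
      intro k _
      rw [map_mul, map_pow, aeval_X, aeval_X, hy2, hu2]

end eval

end Pool.Agent.H530R2
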