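import Mathlib
import Pool.Agent.H530R2.SubPts

/-!
The hybrid argument for compressible polynomials.
-/

namespace Pool.Agent.H530R2

open MvPolynomial

section

variable {F : Type*} [Field F] {n : ℕ}

/-- the variables of `V` stay free, the others are replaced by `s` -/
noncomputable def freeV {S : Type*} [CommRing S] [Algebra F S] (V : Finset (Fin n))
    (s : Fin n → S) : MvPolynomial (Fin n) F →ₐ[F] MvPolynomial (Fin n) S :=
  aeval (fun j => if j ∈ V then X j else C (s j))

/-- A nonvanishing polynomial `f` has a nonvanishing multiple which depends on the variables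
outside `V` through few parameters. -/
def Compress (S : Type*) [CommRing S] [Algebra F S] (ℓ : ℕ) (V : Finset (Fin n))
    (f : MvPolynomial (Fin n) F) : Prop :=
  ∀ s : Fin n → S, freeV V s f ≠ 0 →
    ∃ (Φ : Finset (MvPolynomial (Fin n) F)) (g : MvPolynomial (Fin n) F),
      Φ.card + V.card ≤ ℓ ∧ (∀ φ ∈ Φ, φ ∈ supported F ((V : Set (Fin n))ᶜ)) ∧
      g ∈ Algebra.adjoin F ((Φ : Set (MvPolynomial (Fin n) F)) ∪ X '' (V : Set (Fin n))) ∧
      f ∣ g ∧ freeV V s g ≠ 0

variable {ℓ t : ℕ}

theorem gen_step [CharZero F] {f : MvPolynomial (Fin n) F} (W : Finset (Fin n))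
    (hfW : f ∈ supported F (W : Set (Fin n)))
    (H : Finset (Fin n)) (bl : Fin n → Fin t)
    (hcomp : ∀ c : Fin t, Compress (F := F) (MvPolynomial (Fin n ⊕ (Fin ℓ ⊕ Fin t)) F) ℓ
      (W.filter (fun i => i ∉ H ∧ bl i = c)) f)
    (m : ℕ) (hne : aeval (hybv F ℓ H bl m) f ≠ 0) :
    aeval (hybv F ℓ H bl (m + 1)) f ≠ 0 := by
  classical
  by_cases hm : m < t
  swap
  · have h1 : hybv F ℓ H bl (m + 1) = hybv F ℓ H bl m := by
      funext i
      have h2 : ¬ m ≤ (bl i).val := by have := (bl i).isLt; omega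
      have h3 : ¬ (m + 1) ≤ (bl i).val := by omega
      simp only [hybv, h2, h3]
    rwa [h1]
  set c : Fin t := ⟨m, hm⟩ with hc
  set V : Finset (Fin n) := W.filter (fun i => i ∉ H ∧ bl i = c) with hV
  set s : Fin n → MvPolynomial (Fin n ⊕ (Fin ℓ ⊕ Fin t)) F := hybv F ℓ H bl m with hs
  set ρ : MvPolynomial (Fin n) F →ₐ[F]
      MvPolynomial (Fin n) (MvPolynomial (Fin n ⊕ (Fin ℓ ⊕ Fin t)) F) := freeV V s with hρ
  set θ : MvPolynomial (Fin n) F →ₐ[F] Polynomial (MvPolynomial (Fin n ⊕ (Fin ℓ ⊕ Fin t)) F) :=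
    aeval (fun j => if j ∈ V then ∑ k : Fin ℓ, Polynomial.C (X (Sum.inr (Sum.inl k))) *
      Polynomial.X ^ (((j : ℕ) + 1) * (k : ℕ)) else Polynomial.C (s j)) with hθ
  have hρf : ρ f ≠ 0 := by
    intro h0
    apply hne
    have h1 : ((aeval s : MvPolynomial (Fin n) (MvPolynomial (Fin n ⊕ (Fin ℓ ⊕ Fin t)) F) →ₐ[_]
        MvPolynomial (Fin n ⊕ (Fin ℓ ⊕ Fin t)) F).restrictScalars F).comp ρ = aeval s := by
      apply MvPolynomial.algHom_ext
      intro j
      rw [AlgHom.comp_apply, hρ, freeV, aeval_X, aeval_X, AlgHom.restrictScalars_apply]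
      split_ifs with hj
      · rw [aeval_X]
      · rw [aeval_C]; rfl
    rw [← h1, AlgHom.comp_apply, h0, map_zero]
  obtain ⟨Φ, g, hΦc, hΦs, hΦg, hfg, hρg⟩ := hcomp c s hρf
  have key0 : θ g ≠ 0 := by
    refine extraction (S := MvPolynomial (Fin n ⊕ (Fin ℓ ⊕ Fin t)) F)
      (fun k => pderiv (Sum.inr (Sum.inl k))) (fun k => X (Sum.inr (Sum.inl k))) ?_ s V
      (fun φ : Φ => (φ : MvPolynomial (Fin n) F)) (fun φ => hΦs φ φ.2) g ?_ ?_ ρ ?_ ?_ hρg θ ?_ ?_
    · intro k k'
      by_cases hk : k = k'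
      · subst hk
        simp
      · rw [if_neg hk, pderiv_X_of_ne]
        intro hc
        exact hk (by simpa using hc.symm)
    · have : Set.range (fun φ : Φ => (φ : MvPolynomial (Fin n) F)) =
          (Φ : Set (MvPolynomial (Fin n) F)) := by
        ext x; simp
      rw [this]
      exact hΦg
    · rw [Fintype.card_coe]
      exact hΦc
    · intro j hj
      rw [hρ, freeV, aeval_X, if_pos hj]
    · intro j hj
      rw [hρ, freeV, aeval_X, if_neg hj]
    · intro j hj
      rw [hθ, aeval_X, if_pos hj]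
    · intro j hj
      rw [hθ, aeval_X, if_neg hj]
  have key : θ f ≠ 0 := by
    obtain ⟨d, rfl⟩ := hfg
    rw [map_mul] at key0
    exact left_ne_zero_of_mul key0
  intro h0
  apply key
  set ψ : MvPolynomial (Fin n ⊕ (Fin ℓ ⊕ Fin t)) F →ₐ[F]
      Polynomial (MvPolynomial (Fin n ⊕ (Fin ℓ ⊕ Fin t)) F) :=
    aeval (fun x => if x = Sum.inr (Sum.inr c) then Polynomial.X else Polynomial.C (X x)) with hψ
  have hψ1 : ∀ x, x ≠ Sum.inr (Sum.inr c) → ψ (X x) = Polynomial.C (X x) := by
    intro x hx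
    rw [hψ, aeval_X, if_neg hx]
  have hψ2 : ψ (X (Sum.inr (Sum.inr c))) = Polynomial.X := by
    rw [hψ, aeval_X, if_pos rfl]
  have hagree : ∀ g ∈ supported F (W : Set (Fin n)),
      θ g = ψ (aeval (hybv F ℓ H bl (m + 1)) g) := by
    intro g hg
    have hg' : g ∈ Algebra.adjoin F (X '' (W : Set (Fin n)) : Set (MvPolynomial (Fin n) F)) := hg
    clear hg
    induction hg' using Algebra.adjoin_induction with
    | mem x hx =>
      obtain ⟨j, hj, rfl⟩ := hx
      have e1 : aeval (hybv F ℓ H bl (m + 1)) (X j : MvPolynomial (Fin n) F) =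
        hybv F ℓ H bl (m + 1) j := aeval_X _ _
      have e2 : θ (X j) = if j ∈ V then ∑ k : Fin ℓ, Polynomial.C (X (Sum.inr (Sum.inl k))) *
        Polynomial.X ^ (((j : ℕ) + 1) * (k : ℕ)) else Polynomial.C (s j) := by
        rw [hθ, aeval_X]
      rw [e1, e2]
      by_cases hjV : j ∈ V
      · rw [if_pos hjV]
        rw [hV, Finset.mem_filter] at hjV
        obtain ⟨_, hjH, hjc⟩ := hjV
        have h2 : ¬ (j ∈ H ∨ m + 1 ≤ (bl j).val) := by
          rintro (h | h)
          · exact hjH h
          · rw [hjc] at h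
            simp [hc] at h
        unfold hybv
        rw [if_neg h2, map_sum, hjc]
        apply Finset.sum_congr rfl
        intro k _
        rw [map_mul, map_pow, hψ2, hψ1 _ (by simp)]
      · rw [if_neg hjV]
        have hjV' : j ∈ H ∨ bl j ≠ c := by
          by_contra hcon
          push Not at hcon
          apply hjV
          rw [hV, Finset.mem_filter]
          exact ⟨by exact_mod_cast hj, hcon⟩
        by_cases h2 : j ∈ H ∨ m ≤ (bl j).val
        · have h3 : j ∈ H ∨ m + 1 ≤ (bl j).val := by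
            rcases hjV' with h | h
            · exact Or.inl h
            · rcases h2 with h2 | h2
              · exact Or.inl h2
              · right
                have : (bl j).val ≠ m := fun he => h (Fin.ext he)
                omega
          rw [hs]
          unfold hybv
          rw [if_pos h2, if_pos h3, hψ1 _ (by simp)]
        · have h3 : ¬ (j ∈ H ∨ m + 1 ≤ (bl j).val) := by
            push Not at h2 ⊢
            exact ⟨h2.1, by omega⟩
          rw [hs]
          unfold hybv
          rw [if_neg h2, if_neg h3]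
          rw [map_sum, map_sum]
          apply Finset.sum_congr rfl
          intro k _
          have h4 : bl j ≠ c := by
            push Not at h2
            intro he
            rw [he] at h2
            simp [hc] at h2
          rw [map_mul, map_pow, map_mul, map_pow, hψ1 _ (by simp), hψ1 _ (by simpa using h4)]
    | algebraMap r => rw [AlgHom.commutes, AlgHom.commutes, AlgHom.commutes]
    | add x y _ _ hx hy => rw [map_add, map_add, map_add, hx, hy]
    | mul x y _ _ hx hy => rw [map_mul, map_mul, map_mul, hx, hy]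
  rw [hagree f hfW, h0, map_zero]

theorem gen_final [CharZero F] {f : MvPolynomial (Fin n) F} (W : Finset (Fin n))
    (hfW : f ∈ supported F (W : Set (Fin n)))
    (H : Finset (Fin n)) (bl : Fin n → Fin t)
    (hcomp : ∀ c : Fin t, Compress (F := F) (MvPolynomial (Fin n ⊕ (Fin ℓ ⊕ Fin t)) F) ℓ
      (W.filter (fun i => i ∉ H ∧ bl i = c)) f) (hf : f ≠ 0) :
    aeval (hybv F ℓ H bl t) f ≠ 0 := by
  have key : ∀ m : ℕ, aeval (hybv F ℓ H bl m) f ≠ 0 := by
    intro m
    induction m with
    | zero =>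
      intro h0
      apply hf
      have h1 : hybv F ℓ H bl 0 = fun i => X (Sum.inl i) := by
        funext i
        simp [hybv]
      rw [h1] at h0
      have h2 : (aeval (Sum.elim X (fun _ => 0)) :
          MvPolynomial (Fin n ⊕ (Fin ℓ ⊕ Fin t)) F →ₐ[F] MvPolynomial (Fin n) F).comp
          (aeval fun i => (X (Sum.inl i) : MvPolynomial (Fin n ⊕ (Fin ℓ ⊕ Fin t)) F)) =
          AlgHom.id F _ := by
        apply MvPolynomial.algHom_ext
        intro j
        simp
      have h3 := congrArg (fun χ => χ f) h2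
      simp only [AlgHom.comp_apply, AlgHom.id_apply] at h3
      rw [← h3, h0, map_zero]
    | succ m ih => exact gen_step W hfW H bl hcomp m ih
  exact key t

/-- nonvanishing at an integer point -/
theorem gen_seeds [CharZero F] {f : MvPolynomial (Fin n) F} (W : Finset (Fin n))
    (hfW : f ∈ supported F (W : Set (Fin n))) (w : Fin n → ℕ) (s r D : ℕ)
    (hs : ∑ i, w i ≤ s) (hr : 1 ≤ r) (hf : f ≠ 0) (hdeg : f.totalDegree ≤ D)
    (hcomp : ∀ V ⊆ W, ∑ i ∈ V, w i ≤ 2 * (r - 1) →
      Compress (F := F) (MvPolynomial (Fin n ⊕ (Fin ℓ ⊕ Fin (s / r + 1))) F) ℓ V f) :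
    ∃ (H : Finset (Fin n)) (bl : Fin n → Fin (s / r + 1)), H.card ≤ s / r ∧ Monotone bl ∧
      ∃ (v : Fin n → ℕ) (y : Fin ℓ → ℕ) (u : Fin (s / r + 1) → ℕ),
        (∀ i, v i ≤ D) ∧ (∀ k, y k ≤ D) ∧ (∀ c, u c ≤ n * ℓ * D) ∧
        MvPolynomial.eval (fun i => if i ∈ H then (v i : F) else
          ∑ k : Fin ℓ, (y k : F) * (u (bl i) : F) ^ (((i : ℕ) + 1) * (k : ℕ))) f ≠ 0 := by
  classical
  obtain ⟨H, bl, hH, hbl, hcap⟩ := exists_plan w s r hs hr
  refine ⟨H, bl, hH, hbl, ?_⟩
  have hne := gen_final (ℓ := ℓ) W hfW H bl (fun c => hcomp _ (Finset.filter_subset _ _) (by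
    refine le_trans ?_ (hcap c)
    apply Finset.sum_le_sum_of_subset
    intro i hi
    rw [Finset.mem_filter] at hi ⊢
    exact ⟨Finset.mem_univ _, hi.2⟩)) hf
  by_contra hcon
  push Not at hcon
  apply hne
  apply MvPolynomial.eq_zero_of_eval_zero_at_prod_finset _
    (Sum.elim (fun _ : Fin n => (Finset.range (D + 1)).image (fun k : ℕ => (k : F)))
      (Sum.elim (fun _ : Fin ℓ => (Finset.range (D + 1)).image (fun k : ℕ => (k : F)))
        (fun _ : Fin (s / r + 1) =>
          (Finset.range (n * ℓ * D + 1)).image (fun k : ℕ => (k : F)))))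
  · rintro (l | l | l)
    · rw [Sum.elim_inl, Finset.card_image_of_injective _ Nat.cast_injective, Finset.card_range]
      exact Nat.lt_succ_of_le ((hyb_degreeOf_inl H bl _ l f).trans hdeg)
    · rw [Sum.elim_inr, Sum.elim_inl, Finset.card_image_of_injective _ Nat.cast_injective,
        Finset.card_range]
      exact Nat.lt_succ_of_le ((hyb_degreeOf_y H bl _ l f).trans hdeg)
    · rw [Sum.elim_inr, Sum.elim_inr, Finset.card_image_of_injective _ Nat.cast_injective,
        Finset.card_range]
      exact Nat.lt_succ_of_le ((hyb_degreeOf_u H bl _ l f).trans (Nat.mul_le_mul_left _ hdeg))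
  · intro x hx
    have hv : ∀ l : Fin n, ∃ k ∈ Finset.range (D + 1), ((k : ℕ) : F) = x (Sum.inl l) := by
      intro l
      have := hx (Sum.inl l)
      rw [Sum.elim_inl, Finset.mem_image] at this
      exact this
    have hy : ∀ l : Fin ℓ, ∃ k ∈ Finset.range (D + 1),
        ((k : ℕ) : F) = x (Sum.inr (Sum.inl l)) := by
      intro l
      have := hx (Sum.inr (Sum.inl l))
      rw [Sum.elim_inr, Sum.elim_inl, Finset.mem_image] at this
      exact this
    have hu : ∀ l : Fin (s / r + 1), ∃ k ∈ Finset.range (n * ℓ * D + 1),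
        ((k : ℕ) : F) = x (Sum.inr (Sum.inr l)) := by
      intro l
      have := hx (Sum.inr (Sum.inr l))
      rw [Sum.elim_inr, Sum.elim_inr, Finset.mem_image] at this
      exact this
    choose v hv1 hv2 using hv
    choose y hy1 hy2 using hy
    choose u hu1 hu2 using hu
    have h1 := hcon v y u (fun i => Nat.lt_succ_iff.1 (Finset.mem_range.1 (hv1 i)))
      (fun i => Nat.lt_succ_iff.1 (Finset.mem_range.1 (hy1 i)))
      (fun i => Nat.lt_succ_iff.1 (Finset.mem_range.1 (hu1 i)))
    rw [← h1, ← MvPolynomial.coe_aeval_eq_eval, RingHom.coe_coe, ← AlgHom.comp_apply,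
      MvPolynomial.comp_aeval, ← MvPolynomial.coe_aeval_eq_eval, RingHom.coe_coe]
    congr 2
    funext i
    unfold hybv
    by_cases hi : i ∈ H
    · rw [if_pos (Or.inl hi), if_pos hi, aeval_X, hv2]
    · rw [if_neg (by push Not; exact ⟨hi, (bl i).isLt⟩), if_neg hi, map_sum]
      apply Finset.sum_congr rfl
      intro k _
      rw [map_mul, map_pow, aeval_X, aeval_X, hy2, hu2]

end

end Pool.Agent.H530R2
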