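import Mathlib
import Pool.Agent.H530R2.SubGen

/-!
Symbolic determinants are compressible.
-/

namespace Pool.Agent.H530R2

open MvPolynomial

theorem det_compress_field {K : Type*} [Field K] {ι κ : Type*} [Fintype ι]
    [DecidableEq ι] [Fintype κ] [DecidableEq κ] (M : Matrix ι ι K) (U : Matrix ι κ K)
    (Z : Matrix κ ι K) (hM : M.det ≠ 0) :
    (M + U * Z).det * M.det ^ (Fintype.card κ) =
      M.det * (M.det • (1 : Matrix κ κ K) + Z * M.adjugate * U).det := by
  have hu : IsUnit M.det := isUnit_iff_ne_zero.2 hM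
  have h1 : M + U * Z = M * (1 + M⁻¹ * U * Z) := by
    rw [Matrix.mul_add, Matrix.mul_one, Matrix.mul_assoc M⁻¹ U Z, ← Matrix.mul_assoc M M⁻¹,
      Matrix.mul_nonsing_inv _ hu, Matrix.one_mul]
  have h2 : M.det • (1 : Matrix κ κ K) + Z * M.adjugate * U = M.det • (1 + Z * (M⁻¹ * U)) := by
    have h3 : M⁻¹ = M.det⁻¹ • M.adjugate := by
      rw [Matrix.inv_def, Ring.inverse_eq_inv']
    rw [h3, Matrix.smul_mul, Matrix.mul_smul, smul_add, smul_smul, mul_inv_cancel₀ hM, one_smul,
      Matrix.mul_assoc]
  rw [h1, h2, Matrix.det_mul, Matrix.det_smul, Matrix.det_one_add_mul_comm]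
  ring

theorem det_compress {R : Type*} [CommRing R] [IsDomain R] {ι κ : Type*} [Fintype ι]
    [DecidableEq ι] [Fintype κ] [DecidableEq κ] (M : Matrix ι ι R) (U : Matrix ι κ R)
    (Z : Matrix κ ι R) (hM : M.det ≠ 0) :
    (M + U * Z).det * M.det ^ (Fintype.card κ) =
      M.det * (M.det • (1 : Matrix κ κ R) + Z * M.adjugate * U).det := by
  set K := FractionRing R
  set j : R →+* K := algebraMap R K with hj
  have hinj : Function.Injective j := IsFractionRing.injective R K
  apply hinj
  have hd : (j.mapMatrix M).det ≠ 0 := by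
    rw [← RingHom.map_det]
    exact fun h => hM (hinj (by rw [h, map_zero]))
  have key := det_compress_field (j.mapMatrix M) (U.map j) (Z.map j) hd
  have e1 : j.mapMatrix (M + U * Z) = j.mapMatrix M + U.map j * Z.map j := by
    rw [map_add]
    congr 1
    simp [RingHom.mapMatrix_apply, Matrix.map_mul]
  have e2 : j.mapMatrix (M.det • (1 : Matrix κ κ R) + Z * M.adjugate * U) =
      (j.mapMatrix M).det • (1 : Matrix κ κ K) + Z.map j * (j.mapMatrix M).adjugate * U.map j := by
    rw [← RingHom.map_adjugate, ← RingHom.map_det, map_add]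
    congr 1
    · ext a b
      by_cases hab : a = b
      · subst hab
        simp
      · simp [hab]
    · simp [RingHom.mapMatrix_apply, Matrix.map_mul]
  rw [map_mul, map_mul, map_pow, RingHom.map_det, RingHom.map_det, RingHom.map_det, e1, e2]
  exact key

/-- a nonzero polynomial over a domain of characteristic zero has an integer non-root -/
theorem exists_nat_nonroot {S : Type*} [CommRing S] [IsDomain S] [CharZero S] {n : ℕ}
    (P : MvPolynomial (Fin n) S) (hP : P ≠ 0) :
    ∃ c : Fin n → ℕ, eval (fun i => (c i : S)) P ≠ 0 := by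
  classical
  by_contra hcon
  push Not at hcon
  apply hP
  apply MvPolynomial.eq_zero_of_eval_zero_at_prod_finset _
    (fun _ : Fin n => (Finset.range (P.totalDegree + 1)).image (fun k : ℕ => (k : S)))
  · intro i
    rw [Finset.card_image_of_injective _ Nat.cast_injective, Finset.card_range]
    exact Nat.lt_succ_of_le (degreeOf_le_totalDegree _ _)
  · intro x hx
    have h1 : ∀ i, ∃ k ∈ Finset.range (P.totalDegree + 1), ((k : ℕ) : S) = x i := by
      intro i
      have := hx i
      rwa [Finset.mem_image] at this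
    choose c hc1 hc2 using h1
    rw [← hcon c]
    congr 2
    funext i
    rw [hc2]

section

variable {F : Type*} [Field F] {n : ℕ}

/-- the symbolic matrix `A₀ + ∑_e x_{v e} a_e b_eᵀ` -/
noncomputable def symM {N s : ℕ} (A₀ : Matrix (Fin N) (Fin N) F) (v : Fin s → Fin n)
    (a b : Fin s → Fin N → F) : Matrix (Fin N) (Fin N) (MvPolynomial (Fin n) F) :=
  fun i j => C (A₀ i j) + ∑ e, X (v e) * C (a e i * b e j)

theorem symM_compress [CharZero F] {S : Type*} [CommRing S] [IsDomain S] [CharZero S]
    [Algebra F S] {N s : ℕ} (A₀ : Matrix (Fin N) (Fin N) F) (v : Fin s → Fin n)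
    (a b : Fin s → Fin N → F) (V : Finset (Fin n)) (hV : V ⊆ Finset.univ.image v) (k ℓ : ℕ)
    (hk : (Finset.univ.filter fun e => v e ∈ V).card ≤ k) (hℓ : k * k + k + 1 ≤ ℓ) :
    Compress (F := F) S ℓ V (symM A₀ v a b).det := by
  classical
  intro s' hne
  set M := symM A₀ v a b with hM
  obtain ⟨c, hc⟩ := exists_nat_nonroot _ hne
  -- specialisation of the variables of `V`
  set χ : MvPolynomial (Fin n) F →ₐ[F] MvPolynomial (Fin n) F :=
    aeval (fun i => if i ∈ V then C (c i : F) else X i) with hχ
  have hχs : ∀ p, χ p ∈ supported F ((V : Set (Fin n))ᶜ) := by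
    intro p
    induction p using MvPolynomial.induction_on with
    | C r =>
      have : χ (C r) = algebraMap F _ r := χ.commutes r
      rw [this]
      exact Subalgebra.algebraMap_mem _ _
    | add p q hp hq => rw [map_add]; exact Subalgebra.add_mem _ hp hq
    | mul_X p i hp =>
      rw [map_mul]
      refine Subalgebra.mul_mem _ hp ?_
      rw [hχ, aeval_X]
      split_ifs with hi
      · exact Subalgebra.algebraMap_mem _ _
      · exact X_mem_supported.2 (by simpa using hi)
  have hχC : ∀ r, χ (C r) = C r := fun r => χ.commutes r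
  have hfree : ∀ p, freeV V s' (χ p) = C (eval (fun i => (c i : S)) (freeV V s' p)) := by
    intro p
    induction p using MvPolynomial.induction_on with
    | C r =>
      rw [hχC]
      have : freeV V s' (C r : MvPolynomial (Fin n) F) = C (algebraMap F S r) := by
        have h1 := (freeV (F := F) V s').commutes r
        rw [IsScalarTower.algebraMap_apply F S (MvPolynomial (Fin n) S)] at h1
        exact h1
      rw [this, eval_C]
    | add p q hp hq => rw [map_add, map_add, hp, hq, map_add, map_add, map_add]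
    | mul_X p i hp =>
      rw [map_mul, map_mul, hp, map_mul, map_mul, map_mul]
      congr 1
      rw [hχ, aeval_X]
      by_cases hi : i ∈ V
      · rw [if_pos hi]
        have h1 : freeV V s' (C (c i : F) : MvPolynomial (Fin n) F) = C (c i : S) := by
          simp [freeV]
        have h2 : freeV V s' (X i : MvPolynomial (Fin n) F) = X i := by
          simp [freeV, hi]
        rw [h1, h2, eval_X]
      · rw [if_neg hi]
        have h2 : freeV V s' (X i : MvPolynomial (Fin n) F) = C (s' i) := by
          simp [freeV, hi]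
        rw [h2, eval_C]
  set M' := χ.mapMatrix M with hM'
  have hδ : M'.det = χ M.det := by rw [hM', AlgHom.map_det]
  have hadj : M'.adjugate = χ.mapMatrix M.adjugate := by rw [hM', AlgHom.map_adjugate]
  have hδf : freeV V s' M'.det ≠ 0 := by
    rw [hδ, hfree]
    exact fun h => hc (C_injective _ _ (by rw [h, map_zero]))
  have hδ0 : M'.det ≠ 0 := by
    intro h
    rw [h, map_zero] at hδf
    exact hδf rfl
  set κ := {e : Fin s // v e ∈ V} with hκ
  have hκc : Fintype.card {e : Fin s // v e ∈ V} ≤ k := by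
    rw [Fintype.card_subtype]
    exact hk
  set U : Matrix (Fin N) κ (MvPolynomial (Fin n) F) := fun i e => C (a e i) with hU
  set Wm : Matrix κ (Fin N) (MvPolynomial (Fin n) F) := fun e j => C (b e j) with hWm
  set Z : Matrix κ (Fin N) (MvPolynomial (Fin n) F) :=
    fun e j => (X (v e) - C (c (v e) : F)) * Wm e j with hZ
  have hsum : M = M' + U * Z := by
    ext1 i j
    rw [Matrix.add_apply, Matrix.mul_apply, hM', AlgHom.mapMatrix_apply, Matrix.map_apply]
    have h1 : M i j = C (A₀ i j) + ∑ e, X (v e) * C (a e i * b e j) := rfl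
    have h2 : χ (M i j) = C (A₀ i j) +
        ∑ e, (if v e ∈ V then C (c (v e) : F) else X (v e)) * C (a e i * b e j) := by
      rw [h1, map_add, map_sum, hχC]
      congr 1
      apply Finset.sum_congr rfl
      intro e _
      rw [map_mul, hχC]
      congr 1
      rw [hχ, aeval_X]
    have h3 : ∑ e : κ, U i e * Z e j = ∑ e : κ,
        (X (v e) - C (c (v e) : F)) * C (a e i * b e j) := by
      apply Finset.sum_congr rfl
      intro e _
      simp only [hU, hZ, hWm, map_mul]
      ring
    rw [h2, h1, h3]
    have h4 : ∑ e : κ, (X (v e) - C (c (v e) : F)) * C (a e i * b e j) =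
        ∑ e : Fin s, if v e ∈ V then (X (v e) - C (c (v e) : F)) * C (a e i * b e j) else
          (0 : MvPolynomial (Fin n) F) := by
      rw [← Finset.sum_filter]
      exact (Finset.sum_subtype (Finset.univ.filter fun e => v e ∈ V) (p := fun e => v e ∈ V)
        (by simp) (fun e => (X (v e) - C (c (v e) : F)) * C (a e i * b e j))).symm
    rw [h4, add_assoc, ← Finset.sum_add_distrib]
    congr 1
    apply Finset.sum_congr rfl
    intro e _
    split_ifs with he
    · ring
    · ring
  have hcomp := det_compress M' U Z hδ0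
  rw [← hsum] at hcomp
  set G := Wm * M'.adjugate * U with hG
  have hGs : ∀ e e', G e e' ∈ supported F ((V : Set (Fin n))ᶜ) := by
    intro e e'
    rw [hG, Matrix.mul_apply]
    refine Subalgebra.sum_mem _ fun i _ => Subalgebra.mul_mem _ ?_ ?_
    · rw [Matrix.mul_apply]
      refine Subalgebra.sum_mem _ fun i' _ => Subalgebra.mul_mem _ ?_ ?_
      · exact Subalgebra.algebraMap_mem _ (b e i')
      · rw [hadj]
        exact hχs _
    · exact Subalgebra.algebraMap_mem _ (a e' i)
  set Φ : Finset (MvPolynomial (Fin n) F) :=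
    insert M'.det (Finset.univ.image fun p : κ × κ => G p.1 p.2) with hΦ
  have hΦs : ∀ φ ∈ Φ, φ ∈ supported F ((V : Set (Fin n))ᶜ) := by
    intro φ hφ
    rw [hΦ, Finset.mem_insert, Finset.mem_image] at hφ
    rcases hφ with rfl | ⟨p, _, rfl⟩
    · rw [hδ]; exact hχs _
    · exact hGs _ _
  have hΦa : ∀ φ ∈ Φ, φ ∈ Algebra.adjoin F
      ((Φ : Set (MvPolynomial (Fin n) F)) ∪ X '' (V : Set (Fin n))) :=
    fun φ hφ => Algebra.subset_adjoin (Or.inl (by exact_mod_cast hφ))
  have hδa := hΦa M'.det (Finset.mem_insert_self _ _)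
  refine ⟨Φ, M.det * M'.det ^ (Fintype.card κ), ?_, hΦs, ?_, Dvd.intro _ rfl, ?_⟩
  · have h1 : Φ.card ≤ k * k + 1 := by
      refine (Finset.card_insert_le _ _).trans ?_
      refine Nat.add_le_add_right ?_ 1
      refine Finset.card_image_le.trans ?_
      rw [Finset.card_univ, Fintype.card_prod]
      exact Nat.mul_le_mul hκc hκc
    have h2 : V.card ≤ k := by
      refine le_trans ?_ hk
      have h3 : V ⊆ (Finset.univ.filter fun e => v e ∈ V).image v := by
        intro i hi
        obtain ⟨e, _, he⟩ := Finset.mem_image.1 (hV hi)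
        rw [Finset.mem_image]
        exact ⟨e, Finset.mem_filter.2 ⟨Finset.mem_univ _, by rw [he]; exact hi⟩, he⟩
      exact (Finset.card_le_card h3).trans Finset.card_image_le
    omega
  · rw [hcomp]
    refine Subalgebra.mul_mem _ hδa ?_
    rw [Matrix.det_apply]
    refine Subalgebra.sum_mem _ fun σ _ => ?_
    rw [Units.smul_def]
    refine Subalgebra.zsmul_mem _ ?_ _
    refine Subalgebra.prod_mem _ fun e _ => ?_
    rw [Matrix.add_apply, Matrix.smul_apply]
    refine Subalgebra.add_mem _ ?_ ?_
    · rw [smul_eq_mul]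
      refine Subalgebra.mul_mem _ hδa ?_
      rw [Matrix.one_apply]
      split_ifs
      · exact Subalgebra.one_mem _
      · exact Subalgebra.zero_mem _
    · have h1 : (Z * M'.adjugate * U) (σ e) e = (X (v (σ e)) - C (c (v (σ e)) : F)) *
          G (σ e) e := by
        rw [hG, Matrix.mul_apply, Matrix.mul_apply, Finset.mul_sum]
        apply Finset.sum_congr rfl
        intro i _
        rw [Matrix.mul_apply, Matrix.mul_apply, ← mul_assoc, Finset.mul_sum]
        congr 1
        apply Finset.sum_congr rfl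
        intro i' _
        simp only [hZ]
        ring
      rw [h1]
      refine Subalgebra.mul_mem _ (Subalgebra.sub_mem _ ?_ ?_) ?_
      · exact Algebra.subset_adjoin (Or.inr ⟨v (σ e), by exact_mod_cast (σ e).2, rfl⟩)
      · exact Subalgebra.algebraMap_mem _ (c (v (σ e)) : F)
      · apply hΦa
        rw [hΦ, Finset.mem_insert, Finset.mem_image]
        exact Or.inr ⟨(σ e, e), Finset.mem_univ _, rfl⟩
  · rw [map_mul, map_pow]
    exact mul_ne_zero hne (pow_ne_zero _ hδf)

end

theorem totalDegree_det_le {σ R ι : Type*} [CommRing R] [Fintype ι] [DecidableEq ι]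
    (M : Matrix ι ι (MvPolynomial σ R)) (d : ι → ℕ) (h : ∀ i j, (M i j).totalDegree ≤ d i) :
    M.det.totalDegree ≤ ∑ i, d i := by
  rw [Matrix.det_apply]
  refine totalDegree_finsetSum_le fun τ _ => ?_
  have h1 : (∏ i, M (τ i) i).totalDegree ≤ ∑ i, d i := by
    refine (totalDegree_finsetProd _ _).trans ?_
    calc ∑ i, (M (τ i) i).totalDegree ≤ ∑ i, d (τ i) := Finset.sum_le_sum fun i _ => h _ _
      _ = ∑ i, d i := Equiv.sum_comp τ d
  rcases Int.units_eq_one_or (Equiv.Perm.sign τ) with h2 | h2
  · rw [h2, one_smul]; exact h1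
  · rw [h2]
    simpa using h1

theorem symM_totalDegree {F : Type*} [Field F] {n N s : ℕ} (A₀ : Matrix (Fin N) (Fin N) F)
    (v : Fin s → Fin n) (a b : Fin s → Fin N → F) :
    (symM A₀ v a b).det.totalDegree ≤ s := by
  classical
  set U : Matrix (Fin N) (Fin s) (MvPolynomial (Fin n) F) := fun i e => C (a e i) with hU
  set Z : Matrix (Fin s) (Fin N) (MvPolynomial (Fin n) F) :=
    fun e j => -(X (v e) * C (b e j)) with hZ
  have h1 : symM A₀ v a b = A₀.map C - U * Z := by
    ext1 i j
    rw [Matrix.sub_apply, Matrix.mul_apply, Matrix.map_apply]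
    simp only [symM, hU, hZ, mul_neg, Finset.sum_neg_distrib, sub_neg_eq_add, map_mul]
    congr 1
    apply Finset.sum_congr rfl
    intro e _
    ring
  rw [h1, ← Matrix.det_fromBlocks_one₂₂]
  refine (totalDegree_det_le _ (Sum.elim (fun _ => 0) (fun _ => 1)) ?_).trans ?_
  · rintro (i | e) (j | e')
    · simp
    · rw [Matrix.fromBlocks_apply₁₂]
      simp [hU]
    · rw [Matrix.fromBlocks_apply₂₁]
      simp only [Sum.elim_inr, hZ, totalDegree_neg]
      refine (totalDegree_mul _ _).trans ?_
      simp [totalDegree_X]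
    · rw [Matrix.fromBlocks_apply₂₂]
      simp only [Sum.elim_inr, Matrix.one_apply]
      split_ifs <;> simp
  · simp

theorem symM_supp {F : Type*} [Field F] {n N s : ℕ} (A₀ : Matrix (Fin N) (Fin N) F)
    (v : Fin s → Fin n) (a b : Fin s → Fin N → F) :
    (symM A₀ v a b).det ∈ supported F ((Finset.univ.image v : Finset (Fin n)) : Set (Fin n)) := by
  classical
  rw [Matrix.det_apply]
  refine Subalgebra.sum_mem _ fun σ _ => ?_
  rw [Units.smul_def]
  refine Subalgebra.zsmul_mem _ ?_ _
  refine Subalgebra.prod_mem _ fun e _ => ?_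
  refine Subalgebra.add_mem _ (Subalgebra.algebraMap_mem _ _) ?_
  refine Subalgebra.sum_mem _ fun e' _ => Subalgebra.mul_mem _ ?_ ?_
  · exact X_mem_supported.2 (by simp)
  · exact Subalgebra.algebraMap_mem _ _

/-- rank factorisation -/
theorem exists_rank_factor {F : Type*} [Field F] {N : ℕ} (A : Matrix (Fin N) (Fin N) F) :
    ∃ (a b : Fin A.rank → Fin N → F), ∀ i j, A i j = ∑ e, a e i * b e j := by
  classical
  let bs := Module.finBasis F (LinearMap.range A.mulVecLin)
  have hr : Module.finrank F (LinearMap.range A.mulVecLin) = A.rank := rfl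
  refine ⟨fun e i => (bs e : Fin N → F) i,
    fun e j => bs.repr ⟨A.mulVecLin (Pi.single j 1), ⟨_, rfl⟩⟩ e, fun i j => ?_⟩
  have h1 := bs.sum_repr ⟨A.mulVecLin (Pi.single j 1), ⟨_, rfl⟩⟩
  have h2 := congrArg (fun x : LinearMap.range A.mulVecLin => (x : Fin N → F) i) h1
  simp only [Submodule.coe_sum, Submodule.coe_smul, Finset.sum_apply, Pi.smul_apply,
    smul_eq_mul] at h2
  have h3 : (A.mulVecLin (Pi.single j 1)) i = A i j := by
    simp
  rw [← h3, ← h2]
  apply Finset.sum_congr rfl
  intro e _
  ring

end Pool.Agent.H530R2
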