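import Mathlib
import Pool.Agent.H530R2.SubDet

/-!
Determinants of matrices with sparse polynomial entries are compressible.
-/

namespace Pool.Agent.H530R2

open MvPolynomial

section

variable {F : Type*} [Field F] {n : ℕ}

/-- the number of incidences of the variable `i` with the monomials of `m` -/
noncomputable def inc (m : MvPolynomial (Fin n) F) (i : Fin n) : ℕ :=
  (m.support.filter fun s => i ∈ s.support).card

/-- the monomials of `m` which involve a variable of `V` -/
noncomputable def touch (V : Finset (Fin n)) (m : MvPolynomial (Fin n) F) :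
    Finset (Fin n →₀ ℕ) :=
  m.support.filter fun s => ∃ i ∈ V, i ∈ s.support

theorem touch_card_le (V : Finset (Fin n)) (m : MvPolynomial (Fin n) F) :
    (touch V m).card ≤ ∑ i ∈ V, inc m i := by
  classical
  unfold touch inc
  have h1 : (m.support.filter fun s => ∃ i ∈ V, i ∈ s.support) ⊆
      V.biUnion fun i => m.support.filter fun s => i ∈ s.support := by
    intro s hs
    rw [Finset.mem_filter] at hs
    obtain ⟨h, i, hi, his⟩ := hs
    rw [Finset.mem_biUnion]
    exact ⟨i, hi, Finset.mem_filter.2 ⟨h, his⟩⟩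
  exact (Finset.card_le_card h1).trans Finset.card_biUnion_le

theorem sparse_params (V : Finset (Fin n)) (m : MvPolynomial (Fin n) F) :
    ∃ Φ : Finset (MvPolynomial (Fin n) F), Φ.card ≤ (touch V m).card + 1 ∧
      (∀ φ ∈ Φ, φ ∈ supported F ((V : Set (Fin n))ᶜ)) ∧
      m ∈ Algebra.adjoin F ((Φ : Set (MvPolynomial (Fin n) F)) ∪ X '' (V : Set (Fin n))) := by
  classical
  set q : (Fin n →₀ ℕ) → MvPolynomial (Fin n) F :=
    fun s => C (m.coeff s) * ∏ i ∈ Finset.univ.filter (· ∉ V), X i ^ s i with hq
  set r : (Fin n →₀ ℕ) → MvPolynomial (Fin n) F :=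
    fun s => ∏ i ∈ V, X i ^ s i with hr
  have hmon : ∀ s, monomial s (m.coeff s) = q s * r s := by
    intro s
    rw [monomial_eq, Finsupp.prod_fintype _ _ (fun i => pow_zero _)]
    simp only [hq, hr]
    rw [mul_assoc]
    congr 1
    rw [← Finset.prod_filter_mul_prod_filter_not Finset.univ (· ∉ V)]
    congr 1
    apply Finset.prod_congr _ (fun _ _ => rfl)
    ext i
    simp
  have hqs : ∀ s, q s ∈ supported F ((V : Set (Fin n))ᶜ) := by
    intro s
    refine Subalgebra.mul_mem _ (Subalgebra.algebraMap_mem _ _) ?_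
    refine Subalgebra.prod_mem _ fun i hi => Subalgebra.pow_mem _ ?_ _
    exact X_mem_supported.2 (by simpa using hi)
  set rest : MvPolynomial (Fin n) F :=
    ∑ s ∈ m.support \ touch V m, monomial s (m.coeff s) with hrest
  have hrs : rest ∈ supported F ((V : Set (Fin n))ᶜ) := by
    refine Subalgebra.sum_mem _ fun s hs => ?_
    have h1 : r s = 1 := by
      simp only [hr]
      apply Finset.prod_eq_one
      intro i hi
      rw [Finset.mem_sdiff, touch, Finset.mem_filter] at hs
      have h2 : i ∉ s.support := fun h => hs.2 ⟨hs.1, i, hi, h⟩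
      rw [Finsupp.notMem_support_iff.1 h2, pow_zero]
    rw [hmon, h1, mul_one]
    exact hqs s
  refine ⟨insert rest ((touch V m).image q), ?_, ?_, ?_⟩
  · refine (Finset.card_insert_le _ _).trans ?_
    exact Nat.add_le_add_right Finset.card_image_le 1
  · intro φ hφ
    rw [Finset.mem_insert, Finset.mem_image] at hφ
    rcases hφ with rfl | ⟨s, _, rfl⟩
    · exact hrs
    · exact hqs s
  · have h1 : m = rest + ∑ s ∈ touch V m, q s * r s := by
      conv_lhs => rw [m.as_sum]
      rw [hrest, ← Finset.sum_sdiff (show touch V m ⊆ m.support from Finset.filter_subset _ _)]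
      congr 1
      apply Finset.sum_congr rfl
      intro s _
      exact hmon s
    have h2 : ∀ φ ∈ insert rest ((touch V m).image q), φ ∈ Algebra.adjoin F
        (((insert rest ((touch V m).image q) : Finset (MvPolynomial (Fin n) F)) :
          Set (MvPolynomial (Fin n) F)) ∪ X '' (V : Set (Fin n))) :=
      fun φ hφ => Algebra.subset_adjoin (Or.inl (by exact_mod_cast hφ))
    rw [h1]
    refine Subalgebra.add_mem _ ?_ (Subalgebra.sum_mem _ fun s hs => Subalgebra.mul_mem _ ?_ ?_)
    · rw [← h1]
      exact h2 _ (Finset.mem_insert_self _ _)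
    · rw [← h1]
      exact h2 _ (Finset.mem_insert_of_mem (Finset.mem_image_of_mem _ hs))
    · rw [← h1]
      refine Subalgebra.prod_mem _ fun i hi => Subalgebra.pow_mem _ ?_ _
      exact Algebra.subset_adjoin (Or.inr ⟨i, by exact_mod_cast hi, rfl⟩)

theorem mat_compress [CharZero F] {S : Type*} [CommRing S] [IsDomain S] [CharZero S]
    [Algebra F S] {N : ℕ} (M : Matrix (Fin N) (Fin N) (MvPolynomial (Fin n) F))
    (V : Finset (Fin n)) (T : Finset (Fin N × Fin N))
    (hT : ∀ i j, (i, j) ∉ T → M i j ∈ supported F ((V : Set (Fin n))ᶜ))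
    (Φ₀ : Finset (MvPolynomial (Fin n) F))
    (hΦ₀ : ∀ φ ∈ Φ₀, φ ∈ supported F ((V : Set (Fin n))ᶜ))
    (hM : ∀ p ∈ T, M p.1 p.2 ∈ Algebra.adjoin F
      ((Φ₀ : Set (MvPolynomial (Fin n) F)) ∪ X '' (V : Set (Fin n)))) (ℓ : ℕ)
    (hℓ : T.card * T.card + 1 + Φ₀.card + V.card ≤ ℓ) :
    Compress (F := F) S ℓ V M.det := by
  classical
  intro s' hne
  obtain ⟨c, hc⟩ := exists_nat_nonroot _ hne
  -- specialisation of the variables of `V`
  set χ : MvPolynomial (Fin n) F →ₐ[F] MvPolynomial (Fin n) F :=
    aeval (fun i => if i ∈ V then C (c i : F) else X i) with hχ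
  have hχC : ∀ r, χ (C r) = C r := fun r => χ.commutes r
  have hχs : ∀ p, χ p ∈ supported F ((V : Set (Fin n))ᶜ) := by
    intro p
    induction p using MvPolynomial.induction_on with
    | C r =>
      rw [hχC]
      exact Subalgebra.algebraMap_mem _ _
    | add p q hp hq => rw [map_add]; exact Subalgebra.add_mem _ hp hq
    | mul_X p i hp =>
      rw [map_mul]
      refine Subalgebra.mul_mem _ hp ?_
      rw [hχ, aeval_X]
      split_ifs with hi
      · exact Subalgebra.algebraMap_mem _ _
      · exact X_mem_supported.2 (by simpa using hi)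
  have hχfix : ∀ p ∈ supported F ((V : Set (Fin n))ᶜ), χ p = p := by
    intro p hp
    have hp' : p ∈ Algebra.adjoin F
      (X '' ((V : Set (Fin n))ᶜ) : Set (MvPolynomial (Fin n) F)) := hp
    clear hp
    induction hp' using Algebra.adjoin_induction with
    | mem x hx =>
      obtain ⟨i, hi, rfl⟩ := hx
      rw [hχ, aeval_X, if_neg (by simpa using hi)]
    | algebraMap r => exact hχC r
    | add x y _ _ hx hy => rw [map_add, hx, hy]
    | mul x y _ _ hx hy => rw [map_mul, hx, hy]
  have hχadj : ∀ p ∈ Algebra.adjoin F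
      ((Φ₀ : Set (MvPolynomial (Fin n) F)) ∪ X '' (V : Set (Fin n))),
      χ p ∈ Algebra.adjoin F ((Φ₀ : Set (MvPolynomial (Fin n) F)) ∪ X '' (V : Set (Fin n))) := by
    intro p hp
    induction hp using Algebra.adjoin_induction with
    | mem x hx =>
      rcases hx with hx | ⟨i, hi, rfl⟩
      · rw [hχfix x (hΦ₀ x (by exact_mod_cast hx))]
        exact Algebra.subset_adjoin (Or.inl hx)
      · rw [hχ, aeval_X, if_pos (by exact_mod_cast hi)]
        exact Subalgebra.algebraMap_mem _ _
    | algebraMap r =>
      rw [AlgHom.commutes]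
      exact Subalgebra.algebraMap_mem _ _
    | add x y _ _ hx hy => rw [map_add]; exact Subalgebra.add_mem _ hx hy
    | mul x y _ _ hx hy => rw [map_mul]; exact Subalgebra.mul_mem _ hx hy
  have hfree : ∀ p, freeV V s' (χ p) = C (eval (fun i => (c i : S)) (freeV V s' p)) := by
    intro p
    induction p using MvPolynomial.induction_on with
    | C r =>
      rw [hχC]
      have : freeV V s' (C r : MvPolynomial (Fin n) F) = C (algebraMap F S r) := by
        have h1 := (freeV (F := F) V s').commutes r
        rw [IsScalarTower.algebraMap_apply F S (MvPolynomial (Fin n) S)] at h1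
        exact h1
      rw [this, eval_C]
    | add p q hp hq => rw [map_add, map_add, hp, hq, map_add, map_add, map_add]
    | mul_X p i hp =>
      rw [map_mul, map_mul, hp, map_mul, map_mul, map_mul]
      congr 1
      rw [hχ, aeval_X]
      by_cases hi : i ∈ V
      · rw [if_pos hi]
        have h1 : freeV V s' (C (c i : F) : MvPolynomial (Fin n) F) = C (c i : S) := by
          simp [freeV]
        have h2 : freeV V s' (X i : MvPolynomial (Fin n) F) = X i := by
          simp [freeV, hi]
        rw [h1, h2, eval_X]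
      · rw [if_neg hi]
        have h2 : freeV V s' (X i : MvPolynomial (Fin n) F) = C (s' i) := by
          simp [freeV, hi]
        rw [h2, eval_C]
  set M' := χ.mapMatrix M with hM'
  have hδ : M'.det = χ M.det := by rw [hM', AlgHom.map_det]
  have hadj : M'.adjugate = χ.mapMatrix M.adjugate := by rw [hM', AlgHom.map_adjugate]
  have hδf : freeV V s' M'.det ≠ 0 := by
    rw [hδ, hfree]
    exact fun h => hc (C_injective _ _ (by rw [h, map_zero]))
  have hδ0 : M'.det ≠ 0 := by
    intro h
    rw [h, map_zero] at hδf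
    exact hδf rfl
  set U : Matrix (Fin N) T (MvPolynomial (Fin n) F) := fun i p => if p.1.1 = i then 1 else 0
    with hU
  set Wm : Matrix T (Fin N) (MvPolynomial (Fin n) F) := fun p j => if p.1.2 = j then 1 else 0
    with hWm
  set d : T → MvPolynomial (Fin n) F := fun p => M p.1.1 p.1.2 - χ (M p.1.1 p.1.2) with hd
  set Z : Matrix T (Fin N) (MvPolynomial (Fin n) F) := fun p j => d p * Wm p j with hZ
  have hsum : M = M' + U * Z := by
    ext1 i j
    rw [Matrix.add_apply, Matrix.mul_apply, hM', AlgHom.mapMatrix_apply, Matrix.map_apply]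
    by_cases hij : (i, j) ∈ T
    · rw [Finset.sum_eq_single (⟨(i, j), hij⟩ : T)]
      · simp [hU, hZ, hWm, hd]
      · intro p _ hp
        simp only [hU, hZ, hWm]
        by_cases h1 : p.1.1 = i
        · by_cases h2 : p.1.2 = j
          · exact absurd (Subtype.ext (Prod.ext h1 h2)) hp
          · simp [h2]
        · simp [h1]
      · simp
    · rw [hχfix _ (hT i j hij)]
      have : ∑ p : T, U i p * Z p j = 0 := by
        apply Finset.sum_eq_zero
        intro p _
        simp only [hU, hZ, hWm]
        by_cases h1 : p.1.1 = i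
        · by_cases h2 : p.1.2 = j
          · exact absurd p.2 (by
              have : p.1 = (i, j) := Prod.ext h1 h2
              rw [this]; exact hij)
          · simp [h2]
        · simp [h1]
      rw [this, add_zero]
  have hcomp := det_compress M' U Z hδ0
  rw [← hsum] at hcomp
  set G := Wm * M'.adjugate * U with hG
  have hGs : ∀ e e', G e e' ∈ supported F ((V : Set (Fin n))ᶜ) := by
    intro e e'
    rw [hG, Matrix.mul_apply]
    refine Subalgebra.sum_mem _ fun i _ => Subalgebra.mul_mem _ ?_ ?_
    · rw [Matrix.mul_apply]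
      refine Subalgebra.sum_mem _ fun i' _ => Subalgebra.mul_mem _ ?_ ?_
      · simp only [hWm]
        split_ifs
        · exact Subalgebra.one_mem _
        · exact Subalgebra.zero_mem _
      · rw [hadj]
        exact hχs _
    · simp only [hU]
      split_ifs
      · exact Subalgebra.one_mem _
      · exact Subalgebra.zero_mem _
  set Φ : Finset (MvPolynomial (Fin n) F) :=
    insert M'.det (Finset.univ.image fun p : T × T => G p.1 p.2) ∪ Φ₀ with hΦ
  have hΦs : ∀ φ ∈ Φ, φ ∈ supported F ((V : Set (Fin n))ᶜ) := by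
    intro φ hφ
    rw [hΦ, Finset.mem_union, Finset.mem_insert, Finset.mem_image] at hφ
    rcases hφ with (rfl | ⟨p, _, rfl⟩) | hφ
    · rw [hδ]; exact hχs _
    · exact hGs _ _
    · exact hΦ₀ φ hφ
  have hΦa : ∀ φ ∈ Φ, φ ∈ Algebra.adjoin F
      ((Φ : Set (MvPolynomial (Fin n) F)) ∪ X '' (V : Set (Fin n))) :=
    fun φ hφ => Algebra.subset_adjoin (Or.inl (by exact_mod_cast hφ))
  have hmono : Algebra.adjoin F ((Φ₀ : Set (MvPolynomial (Fin n) F)) ∪ X '' (V : Set (Fin n))) ≤
      Algebra.adjoin F ((Φ : Set (MvPolynomial (Fin n) F)) ∪ X '' (V : Set (Fin n))) := by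
    apply Algebra.adjoin_mono
    apply Set.union_subset_union_left
    intro φ hφ
    rw [hΦ, Finset.coe_union]
    exact Or.inr hφ
  have hδa := hΦa M'.det (Finset.mem_union_left _ (Finset.mem_insert_self _ _))
  refine ⟨Φ, M.det * M'.det ^ (Fintype.card T), ?_, hΦs, ?_, Dvd.intro _ rfl, ?_⟩
  · have h1 : Φ.card ≤ T.card * T.card + 1 + Φ₀.card := by
      refine (Finset.card_union_le _ _).trans ?_
      refine Nat.add_le_add_right ?_ _
      refine (Finset.card_insert_le _ _).trans ?_
      refine Nat.add_le_add_right ?_ 1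
      refine Finset.card_image_le.trans ?_
      rw [Finset.card_univ, Fintype.card_prod, Fintype.card_coe]
    omega
  · rw [hcomp]
    refine Subalgebra.mul_mem _ hδa ?_
    rw [Matrix.det_apply]
    refine Subalgebra.sum_mem _ fun σ _ => ?_
    rw [Units.smul_def]
    refine Subalgebra.zsmul_mem _ ?_ _
    refine Subalgebra.prod_mem _ fun e _ => ?_
    rw [Matrix.add_apply, Matrix.smul_apply]
    refine Subalgebra.add_mem _ ?_ ?_
    · rw [smul_eq_mul]
      refine Subalgebra.mul_mem _ hδa ?_
      rw [Matrix.one_apply]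
      split_ifs
      · exact Subalgebra.one_mem _
      · exact Subalgebra.zero_mem _
    · have h1 : (Z * M'.adjugate * U) (σ e) e = d (σ e) * G (σ e) e := by
        rw [hG, Matrix.mul_apply, Matrix.mul_apply, Finset.mul_sum]
        apply Finset.sum_congr rfl
        intro i _
        rw [Matrix.mul_apply, Matrix.mul_apply, ← mul_assoc, Finset.mul_sum]
        congr 1
        apply Finset.sum_congr rfl
        intro i' _
        simp only [hZ]
        ring
      rw [h1]
      refine Subalgebra.mul_mem _ (Subalgebra.sub_mem _ ?_ ?_) ?_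
      · exact hmono (hM _ (σ e).2)
      · exact hmono (hχadj _ (hM _ (σ e).2))
      · apply hΦa
        rw [hΦ, Finset.mem_union, Finset.mem_insert, Finset.mem_image]
        exact Or.inl (Or.inr ⟨(σ e, e), Finset.mem_univ _, rfl⟩)
  · rw [map_mul, map_pow]
    exact mul_ne_zero hne (pow_ne_zero _ hδf)

/-- determinants of sparse polynomial matrices are compressible -/
theorem pm_compress [CharZero F] {S : Type*} [CommRing S] [IsDomain S] [CharZero S]
    [Algebra F S] {N : ℕ} (M : Matrix (Fin N) (Fin N) (MvPolynomial (Fin n) F))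
    (V : Finset (Fin n)) (hV : ∀ i ∈ V, (∑ p : Fin N × Fin N, inc (M p.1 p.2) i) ≠ 0) (k ℓ : ℕ)
    (hk : ∑ i ∈ V, (∑ p : Fin N × Fin N, inc (M p.1 p.2) i) ≤ k)
    (hℓ : k * k + 3 * k + 1 ≤ ℓ) :
    Compress (F := F) S ℓ V M.det := by
  classical
  set T : Finset (Fin N × Fin N) := Finset.univ.filter fun p => (touch V (M p.1 p.2)).Nonempty
    with hT
  have hsum : ∑ p : Fin N × Fin N, (touch V (M p.1 p.2)).card ≤ k := by
    refine le_trans ?_ hk
    rw [Finset.sum_comm]
    exact Finset.sum_le_sum fun p _ => touch_card_le V _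
  have hTc : T.card ≤ k := by
    refine le_trans ?_ hsum
    rw [Finset.card_eq_sum_ones, hT, Finset.sum_filter]
    apply Finset.sum_le_sum
    intro p _
    split_ifs with h
    · exact Finset.card_pos.2 h
    · exact Nat.zero_le _
  choose Φ hΦc hΦs hΦa using fun p : Fin N × Fin N => sparse_params V (M p.1 p.2)
  have hVc : V.card ≤ k := by
    refine le_trans ?_ hk
    rw [Finset.card_eq_sum_ones]
    apply Finset.sum_le_sum
    intro i hi
    have := hV i hi
    omega
  refine mat_compress M V T ?_ (T.biUnion Φ) ?_ ?_ ℓ ?_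
  · intro i j hij
    have h0 : touch V (M i j) = ∅ := by
      by_contra hne
      exact hij (Finset.mem_filter.2 ⟨Finset.mem_univ _, Finset.nonempty_iff_ne_empty.2 hne⟩)
    rw [mem_supported]
    intro x hx
    rw [Finset.mem_coe, mem_vars_iff_mem_support] at hx
    obtain ⟨s, hs, hxs⟩ := hx
    intro hxV
    have : s ∈ touch V (M i j) := Finset.mem_filter.2 ⟨hs, x, by exact_mod_cast hxV, hxs⟩
    rw [h0] at this
    simp at this
  · intro φ hφ
    rw [Finset.mem_biUnion] at hφ
    obtain ⟨p, _, hp⟩ := hφ
    exact hΦs p φ hp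
  · intro p hp
    refine Algebra.adjoin_mono (Set.union_subset_union_left _ ?_) (hΦa p)
    intro φ hφ
    rw [Finset.mem_coe, Finset.mem_biUnion]
    exact ⟨p, hp, hφ⟩
  · have h1 : (T.biUnion Φ).card ≤ 2 * k := by
      refine Finset.card_biUnion_le.trans ?_
      calc ∑ p ∈ T, (Φ p).card ≤ ∑ p ∈ T, ((touch V (M p.1 p.2)).card + 1) :=
            Finset.sum_le_sum fun p _ => hΦc p
        _ = ∑ p ∈ T, (touch V (M p.1 p.2)).card + T.card := by
            rw [Finset.sum_add_distrib, ← Finset.card_eq_sum_ones]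
        _ ≤ k + k := by
            refine Nat.add_le_add ?_ hTc
            exact (Finset.sum_le_sum_of_subset (Finset.subset_univ _)).trans hsum
        _ = 2 * k := by ring
    have h2 : T.card * T.card ≤ k * k := Nat.mul_le_mul hTc hTc
    omega

theorem pm_supp {N : ℕ} (M : Matrix (Fin N) (Fin N) (MvPolynomial (Fin n) F)) :
    M.det ∈ supported F ((Finset.univ.filter fun i =>
      (∑ p : Fin N × Fin N, inc (M p.1 p.2) i) ≠ 0 : Finset (Fin n)) : Set (Fin n)) := by
  classical
  rw [Matrix.det_apply]
  refine Subalgebra.sum_mem _ fun σ _ => ?_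
  rw [Units.smul_def]
  refine Subalgebra.zsmul_mem _ ?_ _
  refine Subalgebra.prod_mem _ fun e _ => ?_
  rw [mem_supported]
  intro x hx
  rw [Finset.mem_coe, mem_vars_iff_mem_support] at hx
  obtain ⟨s, hs, hxs⟩ := hx
  rw [Finset.mem_coe, Finset.mem_filter]
  refine ⟨Finset.mem_univ _, ?_⟩
  intro h0
  rw [Finset.sum_eq_zero_iff] at h0
  have h1 := h0 (σ e, e) (Finset.mem_univ _)
  unfold inc at h1
  rw [Finset.card_eq_zero] at h1
  have : s ∈ ({s ∈ (M (σ e) e).support | x ∈ s.support} : Finset (Fin n →₀ ℕ)) :=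
    Finset.mem_filter.2 ⟨hs, hxs⟩
  rw [h1] at this
  simp at this

end

end Pool.Agent.H530R2
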